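import Mathlib

set_option autoImplicit false

namespace Pool.Agent.Helper676.CS

open MeasureTheory Filter Topology Set

/-- Derivative in the direction `e`. -/
noncomputable def dd (e : ℝ × ℝ) (φ : ℝ × ℝ → ℝ) (z : ℝ × ℝ) : ℝ := fderiv ℝ φ z e

/-- `∂/∂x`. -/
noncomputable def dx (φ : ℝ × ℝ → ℝ) (z : ℝ × ℝ) : ℝ := fderiv ℝ φ z (1, 0)

/-- `∂/∂y`. -/
noncomputable def dy (φ : ℝ × ℝ → ℝ) (z : ℝ × ℝ) : ℝ := fderiv ℝ φ z (0, 1)

/-- The Laplacian. -/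
noncomputable def lap (φ : ℝ × ℝ → ℝ) (z : ℝ × ℝ) : ℝ := dx (dx φ) z + dy (dy φ) z

lemma dx_eq : dx = dd (1, 0) := rfl
lemma dy_eq : dy = dd (0, 1) := rfl

lemma contDiff_dd {n : ℕ} {φ : ℝ × ℝ → ℝ} (h : ContDiff ℝ (n + 1) φ) (e : ℝ × ℝ) :
    ContDiff ℝ n (dd e φ) := by
  have h1 : ContDiff ℝ n (fderiv ℝ φ) := h.fderiv_right (m := n) (by norm_cast)
  exact h1.clm_apply contDiff_const

lemma contDiff_dd_infty {φ : ℝ × ℝ → ℝ} (h : ContDiff ℝ (⊤ : ℕ∞) φ) (e : ℝ × ℝ) :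
    ContDiff ℝ (⊤ : ℕ∞) (dd e φ) := by
  have h1 : ContDiff ℝ (⊤ : ℕ∞) (fderiv ℝ φ) := h.fderiv_right (m := (⊤ : ℕ∞)) (by simp)
  exact h1.clm_apply contDiff_const

lemma hasCompactSupport_dd {φ : ℝ × ℝ → ℝ} (h : HasCompactSupport φ) (e : ℝ × ℝ) :
    HasCompactSupport (dd e φ) := by
  have := h.fderiv (𝕜 := ℝ)
  exact this.comp_left (g := fun L : ℝ × ℝ →L[ℝ] ℝ => L e) (by simp)

lemma continuous_lap {φ : ℝ × ℝ → ℝ} (h : ContDiff ℝ 2 φ) : Continuous (lap φ) := by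
  have h1 : ContDiff ℝ ((1 : ℕ) + 1) φ := h.of_le (by norm_num)
  have a := contDiff_dd (n := 1) h1 (1, 0)
  have b := contDiff_dd (n := 1) h1 (0, 1)
  have a' := (contDiff_dd (n := 0) (by simpa using a) (1, 0)).continuous
  have b' := (contDiff_dd (n := 0) (by simpa using b) (0, 1)).continuous
  exact a'.add b'

lemma hasCompactSupport_lap {φ : ℝ × ℝ → ℝ} (h : HasCompactSupport φ) :
    HasCompactSupport (lap φ) :=
  (hasCompactSupport_dd (hasCompactSupport_dd h (1, 0)) (1, 0)).add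
    (hasCompactSupport_dd (hasCompactSupport_dd h (0, 1)) (0, 1))

lemma contDiff_lap_infty {φ : ℝ × ℝ → ℝ} (h : ContDiff ℝ (⊤ : ℕ∞) φ) :
    ContDiff ℝ (⊤ : ℕ∞) (lap φ) :=
  (contDiff_dd_infty (contDiff_dd_infty h (1, 0)) (1, 0)).add
    (contDiff_dd_infty (contDiff_dd_infty h (0, 1)) (0, 1))

/-- integration by parts -/
lemma ibp {v φ : ℝ × ℝ → ℝ} (hv : ContDiff ℝ 1 v) (hφ : ContDiff ℝ 1 φ)
    (hc : HasCompactSupport φ) (e : ℝ × ℝ) :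
    ∫ x, v x * dd e φ x = - ∫ x, dd e v x * φ x := by
  have c1 : Continuous (fun x => fderiv ℝ v x e) :=
    (hv.continuous_fderiv (by norm_num)).clm_apply continuous_const
  have c2 : Continuous (fun x => fderiv ℝ φ x e) :=
    (hφ.continuous_fderiv (by norm_num)).clm_apply continuous_const
  exact integral_mul_fderiv_eq_neg_fderiv_mul_of_integrable (μ := volume) (f := v)
      (g := φ) (v := e)
      ((c1.mul hφ.continuous).integrable_of_hasCompactSupport hc.mul_left)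
      ((hv.continuous.mul c2).integrable_of_hasCompactSupport (hasCompactSupport_dd hc e).mul_left)
      ((hv.continuous.mul hφ.continuous).integrable_of_hasCompactSupport hc.mul_left)
      (fun x _ => hv.differentiable (by norm_num) x)
      (fun x _ => hφ.differentiable (by norm_num) x)

lemma green1 {v φ : ℝ × ℝ → ℝ} (hv : ContDiff ℝ 2 v) (hφ : ContDiff ℝ 2 φ)
    (hc : HasCompactSupport φ) (e : ℝ × ℝ) :
    ∫ x, v x * dd e (dd e φ) x = ∫ x, dd e (dd e v) x * φ x := by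
  have hv1 : ContDiff ℝ 1 (dd e v) := by
    have := contDiff_dd (n := 1) (φ := v) (by simpa [one_add_one_eq_two] using hv) e
    simpa using this
  have hφ1 : ContDiff ℝ 1 (dd e φ) := by
    have := contDiff_dd (n := 1) (φ := φ) (by simpa [one_add_one_eq_two] using hφ) e
    simpa using this
  rw [ibp (hv.of_le (by norm_num)) hφ1 (hasCompactSupport_dd hc e) e,
    ibp hv1 (hφ.of_le (by norm_num)) hc e, neg_neg]

/-- Green's identity. -/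
lemma green {v φ : ℝ × ℝ → ℝ} (hv : ContDiff ℝ 2 v) (hφ : ContDiff ℝ 2 φ)
    (hc : HasCompactSupport φ) : ∫ x, v x * lap φ x = ∫ x, lap v x * φ x := by
  have cc : ∀ {f : ℝ × ℝ → ℝ}, ContDiff ℝ 2 f → ∀ e, Continuous (dd e (dd e f)) := by
    intro f hf e
    have h1 : ContDiff ℝ ((1 : ℕ) + 1) f := hf.of_le (by norm_num)
    have a := contDiff_dd (n := 1) h1 e
    exact (contDiff_dd (n := 0) (by simpa using a) e).continuous
  have e1 : ∀ e, Integrable (fun x => v x * dd e (dd e φ) x) := fun e =>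
    (hv.continuous.mul (cc hφ e)).integrable_of_hasCompactSupport
      (hasCompactSupport_dd (hasCompactSupport_dd hc e) e).mul_left
  have e2 : ∀ e, Integrable (fun x => dd e (dd e v) x * φ x) := fun e =>
    ((cc hv e).mul hφ.continuous).integrable_of_hasCompactSupport hc.mul_left
  have s1 : ∫ x, v x * lap φ x = (∫ x, v x * dd (1,0) (dd (1,0) φ) x) +
      ∫ x, v x * dd (0,1) (dd (0,1) φ) x := by
    rw [← integral_add (e1 _) (e1 _)]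
    congr 1; ext x; simp only [lap, dx_eq, dy_eq]; ring
  have s2 : ∫ x, lap v x * φ x = (∫ x, dd (1,0) (dd (1,0) v) x * φ x) +
      ∫ x, dd (0,1) (dd (0,1) v) x * φ x := by
    rw [← integral_add (e2 _) (e2 _)]
    congr 1; ext x; simp only [lap, dx_eq, dy_eq]; ring
  rw [s1, s2, green1 hv hφ hc, green1 hv hφ hc]

/-- Laplacian of a function of `x² + y²`. -/
lemma lap_comp_sq {U U' U'' : ℝ → ℝ} {z : ℝ × ℝ}
    (h : ∀ᶠ s in 𝓝 (z.1 ^ 2 + z.2 ^ 2), HasDerivAt U (U' s) s)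
    (h' : HasDerivAt U' (U'' (z.1 ^ 2 + z.2 ^ 2)) (z.1 ^ 2 + z.2 ^ 2)) :
    lap (fun y : ℝ × ℝ => U (y.1 ^ 2 + y.2 ^ 2)) z =
      4 * (z.1 ^ 2 + z.2 ^ 2) * U'' (z.1 ^ 2 + z.2 ^ 2) + 4 * U' (z.1 ^ 2 + z.2 ^ 2) := by
  have hq : ∀ y : ℝ × ℝ, HasFDerivAt (fun y : ℝ × ℝ => y.1 ^ 2 + y.2 ^ 2)
      ((2 * y.1) • ContinuousLinearMap.fst ℝ ℝ ℝ + (2 * y.2) • ContinuousLinearMap.snd ℝ ℝ ℝ) y := by
    intro y
    have a := (hasFDerivAt_fst (𝕜 := ℝ) (p := y)).pow 2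
    have b := (hasFDerivAt_snd (𝕜 := ℝ) (p := y)).pow 2
    refine (a.add b).congr_fderiv ?_
    ext <;> simp
  have hcont : Continuous (fun y : ℝ × ℝ => y.1 ^ 2 + y.2 ^ 2) := by fun_prop
  have h1 : ∀ᶠ y in 𝓝 z, HasFDerivAt (fun y : ℝ × ℝ => U (y.1 ^ 2 + y.2 ^ 2))
      (U' (y.1 ^ 2 + y.2 ^ 2) • ((2 * y.1) • ContinuousLinearMap.fst ℝ ℝ ℝ +
        (2 * y.2) • ContinuousLinearMap.snd ℝ ℝ ℝ)) y := by
    filter_upwards [hcont.continuousAt.eventually h] with y hy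
    exact hy.comp_hasFDerivAt y (hq y)
  have h2 : HasFDerivAt (fun y : ℝ × ℝ => U' (y.1 ^ 2 + y.2 ^ 2)) (U'' (z.1 ^ 2 + z.2 ^ 2) •
      ((2 * z.1) • ContinuousLinearMap.fst ℝ ℝ ℝ +
        (2 * z.2) • ContinuousLinearMap.snd ℝ ℝ ℝ)) z :=
    h'.comp_hasFDerivAt z (hq z)
  have ex : dx (fun y : ℝ × ℝ => U (y.1 ^ 2 + y.2 ^ 2)) =ᶠ[𝓝 z]
      fun y => U' (y.1 ^ 2 + y.2 ^ 2) * (2 * y.1) := by
    filter_upwards [h1] with y hy
    rw [dx, hy.fderiv]; simp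
  have ey : dy (fun y : ℝ × ℝ => U (y.1 ^ 2 + y.2 ^ 2)) =ᶠ[𝓝 z]
      fun y => U' (y.1 ^ 2 + y.2 ^ 2) * (2 * y.2) := by
    filter_upwards [h1] with y hy
    rw [dy, hy.fderiv]; simp
  have f1 : HasFDerivAt (fun y : ℝ × ℝ => 2 * y.1) ((2 : ℝ) • ContinuousLinearMap.fst ℝ ℝ ℝ) z :=
    hasFDerivAt_fst.const_mul 2
  have f2 : HasFDerivAt (fun y : ℝ × ℝ => 2 * y.2) ((2 : ℝ) • ContinuousLinearMap.snd ℝ ℝ ℝ) z :=
    hasFDerivAt_snd.const_mul 2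
  have a := h2.mul f1
  have b := h2.mul f2
  rw [lap]
  have ex' : dx (dx (fun y : ℝ × ℝ => U (y.1 ^ 2 + y.2 ^ 2))) z =
      dx (fun y => U' (y.1 ^ 2 + y.2 ^ 2) * (2 * y.1)) z := by
    rw [dx, dx, ex.fderiv_eq]
  have ey' : dy (dy (fun y : ℝ × ℝ => U (y.1 ^ 2 + y.2 ^ 2))) z =
      dy (fun y => U' (y.1 ^ 2 + y.2 ^ 2) * (2 * y.2)) z := by
    rw [dy, dy, ey.fderiv_eq]
  rw [ex', ey', dx, dy]
  erw [a.fderiv, b.fderiv]
  simp
  ring

end Pool.Agent.Helper676.CS
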