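import Pool.Agent.Helper676.CS0

set_option autoImplicit false

namespace Pool.Agent.Helper676.CS

open MeasureTheory Filter Topology Set

/-- The heat kernel of the plane. -/
noncomputable def p (t : ℝ) (z : ℝ × ℝ) : ℝ :=
  (4 * Real.pi * t)⁻¹ * Real.exp (-(z.1 ^ 2 + z.2 ^ 2) / (4 * t))

lemma p_pos {t : ℝ} (ht : 0 < t) (z : ℝ × ℝ) : 0 < p t z := by
  unfold p; positivity

lemma measurable_p : Measurable (fun q : ℝ × (ℝ × ℝ) => p q.1 q.2) := by
  unfold p; fun_prop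

lemma continuous_p (t : ℝ) : Continuous (p t) := by
  unfold p; fun_prop

lemma contDiff_p (t : ℝ) {n : WithTop ℕ∞} : ContDiff ℝ n (p t) := by
  unfold p
  fun_prop

lemma p_neg (t : ℝ) (z : ℝ × ℝ) : p t (-z) = p t z := by
  unfold p; simp

lemma integral_p {t : ℝ} (ht : 0 < t) : ∫ z, p t z = 1 := by
  have h : ∀ z : ℝ × ℝ, p t z = (4 * Real.pi * t)⁻¹ *
      (Real.exp (-(4 * t)⁻¹ * z.1 ^ 2) * Real.exp (-(4 * t)⁻¹ * z.2 ^ 2)) := by
    intro z
    rw [p, ← Real.exp_add]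
    congr 2
    field_simp
    ring
  simp_rw [h]
  rw [integral_const_mul, Measure.volume_eq_prod, integral_prod_mul (fun x : ℝ => Real.exp (-(4 * t)⁻¹ * x ^ 2))
    (fun x : ℝ => Real.exp (-(4 * t)⁻¹ * x ^ 2)), integral_gaussian]
  rw [Real.mul_self_sqrt (by positivity)]
  field_simp

lemma integrable_p {t : ℝ} (ht : 0 < t) : Integrable (p t) :=
  integrable_of_integral_eq_one (integral_p ht)

/-- `∂p/∂t`. -/
noncomputable def pt (t : ℝ) (z : ℝ × ℝ) : ℝ :=
  p t z * ((z.1 ^ 2 + z.2 ^ 2) / (4 * t ^ 2) - 1 / t)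

lemma hasDerivAt_p {t : ℝ} (ht : 0 < t) (z : ℝ × ℝ) : HasDerivAt (fun s => p s z) (pt t z) t := by
  have h1 : HasDerivAt (fun s : ℝ => (4 * Real.pi * s)⁻¹) (-(4 * Real.pi) / (4 * Real.pi * t) ^ 2) t := by
    have h0 : HasDerivAt (fun s : ℝ => 4 * Real.pi * s) (4 * Real.pi) t := by
      simpa using (hasDerivAt_id t).const_mul (4 * Real.pi)
    exact h0.inv (by positivity)
  have h2 : HasDerivAt (fun s : ℝ => -(z.1 ^ 2 + z.2 ^ 2) / (4 * s))
      ((z.1 ^ 2 + z.2 ^ 2) / (4 * t ^ 2)) t := by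
    have h3 : HasDerivAt (fun s : ℝ => 4 * s) 4 t := by
      simpa using (hasDerivAt_id t).const_mul (4 : ℝ)
    have := (h3.inv (by positivity)).const_mul (-(z.1 ^ 2 + z.2 ^ 2))
    refine (this.congr_deriv ?_).congr_of_eventuallyEq ?_
    · field_simp
    · exact Eventually.of_forall fun s => by simp [div_eq_mul_inv]
  have := h1.mul h2.exp
  refine this.congr_deriv ?_
  rw [pt, p]
  field_simp
  ring

lemma lap_p {t : ℝ} (ht : 0 < t) (z : ℝ × ℝ) : lap (p t) z = pt t z := by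
  have h := lap_comp_sq (z := z) (U := fun s => (4 * Real.pi * t)⁻¹ * Real.exp (-s / (4 * t)))
    (U' := fun s => -(4 * t)⁻¹ * ((4 * Real.pi * t)⁻¹ * Real.exp (-s / (4 * t))))
    (U'' := fun s => (4 * t)⁻¹ ^ 2 * ((4 * Real.pi * t)⁻¹ * Real.exp (-s / (4 * t)))) ?_ ?_
  · have e : p t = fun y : ℝ × ℝ => (fun s => (4 * Real.pi * t)⁻¹ * Real.exp (-s / (4 * t)))
      (y.1 ^ 2 + y.2 ^ 2) := rfl
    rw [e, h, pt, p]
    field_simp
    ring
  · refine Eventually.of_forall fun s => ?_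
    have h1 : HasDerivAt (fun s : ℝ => -s / (4 * t)) (-1 / (4 * t)) s :=
      ((hasDerivAt_id s).neg).div_const _
    have := (h1.exp).const_mul ((4 * Real.pi * t)⁻¹)
    refine this.congr_deriv ?_
    field_simp
  · have h1 : HasDerivAt (fun s : ℝ => -s / (4 * t)) (-1 / (4 * t)) (z.1 ^ 2 + z.2 ^ 2) :=
      ((hasDerivAt_id _).neg).div_const _
    have := ((h1.exp).const_mul ((4 * Real.pi * t)⁻¹)).const_mul (-(4 * t)⁻¹)
    refine this.congr_deriv ?_
    field_simp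

lemma abs_pt_le {t : ℝ} (ht : 0 < t) (z : ℝ × ℝ) : |pt t z| ≤ (2 * Real.pi * t ^ 2)⁻¹ := by
  set r := (z.1 ^ 2 + z.2 ^ 2) / (4 * t) with hr
  have hr0 : 0 ≤ r := by positivity
  have h1 : pt t z = (4 * Real.pi * t ^ 2)⁻¹ * (Real.exp (-r) * (r - 1)) := by
    rw [pt, p, hr]
    have : -(z.1 ^ 2 + z.2 ^ 2) / (4 * t) = -((z.1 ^ 2 + z.2 ^ 2) / (4 * t)) := by ring
    rw [this]
    field_simp
  rw [h1, abs_mul, abs_of_pos (by positivity : 0 < (4 * Real.pi * t ^ 2)⁻¹)]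
  have h2 : |Real.exp (-r) * (r - 1)| ≤ 1 := by
    rw [abs_mul, abs_of_pos (Real.exp_pos _)]
    have h3 : |r - 1| ≤ Real.exp r := by
      rw [abs_le]
      constructor
      · have := Real.add_one_le_exp r; linarith
      · have := Real.add_one_le_exp r; linarith
    calc Real.exp (-r) * |r - 1| ≤ Real.exp (-r) * Real.exp r :=
          mul_le_mul_of_nonneg_left h3 (Real.exp_pos _).le
      _ = 1 := by rw [← Real.exp_add]; simp
  calc (4 * Real.pi * t ^ 2)⁻¹ * |Real.exp (-r) * (r - 1)| ≤ (4 * Real.pi * t ^ 2)⁻¹ * 1 :=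
        mul_le_mul_of_nonneg_left h2 (by positivity)
    _ ≤ (2 * Real.pi * t ^ 2)⁻¹ := by
        rw [mul_one]
        apply inv_anti₀ (by positivity)
        have : 0 < Real.pi * t ^ 2 := by positivity
        nlinarith

lemma dd_translate {f : ℝ × ℝ → ℝ} (a e : ℝ × ℝ) :
    dd e (fun y => f (y - a)) = fun y => dd e f (y - a) := by
  ext y
  have := fderiv_comp_add_right (𝕜 := ℝ) (f := f) (x := y) (-a)
  simp only [dd, ← sub_eq_add_neg] at this ⊢
  rw [this]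

lemma lap_translate {f : ℝ × ℝ → ℝ} (a : ℝ × ℝ) :
    lap (fun y => f (y - a)) = fun y => lap f (y - a) := by
  ext y
  simp only [lap, dx_eq, dy_eq]
  rw [dd_translate, dd_translate, dd_translate, dd_translate]

lemma dd_reflect {f : ℝ × ℝ → ℝ} (a e : ℝ × ℝ) :
    dd e (fun y => f (a - y)) = fun y => - dd e f (a - y) := by
  ext y
  have h1 : (fun y => f (a - y)) = (fun w => f (w + a)) ∘ (ContinuousLinearEquiv.neg ℝ (M := ℝ × ℝ)) := by
    ext w; simp [sub_eq_add_neg, add_comm]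
  simp only [dd]
  rw [h1, ContinuousLinearEquiv.comp_right_fderiv, fderiv_comp_add_right]
  simp [sub_eq_add_neg, add_comm]

lemma dd_neg' {f : ℝ × ℝ → ℝ} (e : ℝ × ℝ) :
    dd e (fun y => - f y) = fun y => - dd e f y := by
  ext y
  simp only [dd]
  rw [fderiv_fun_neg]; simp

lemma lap_reflect {f : ℝ × ℝ → ℝ} (a : ℝ × ℝ) :
    lap (fun y => f (a - y)) = fun y => lap f (a - y) := by
  ext y
  simp only [lap, dx_eq, dy_eq]
  rw [dd_reflect, dd_reflect, dd_neg', dd_neg', dd_reflect, dd_reflect]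
  simp

end Pool.Agent.Helper676.CS
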