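import Pool.Agent.Helper676.CS9

set_option autoImplicit false
set_option linter.unusedSectionVars false

namespace Pool.Agent.Helper676.CS

open MeasureTheory Filter Topology Set

lemma exists_fixed {n k : ℕ} {s l : ℝ} (hn : 1 ≤ n) (hs : 0 < s) (hs16 : s ≤ 1 / 16) (hl : 0 < l)
    (hlk : 32 * k * (k + 1) / s ≤ l) :
    ∃ v : ℝ × ℝ → ℝ, Measurable v ∧ (∃ C, ∀ y, |v y| ≤ C) ∧ (∀ x, TT n k s l v x = v x) ∧
      (∀ a z, v (z + lt n a) = v z) := by
  obtain ⟨C, hC0, hsup⟩ := TT_super (n := n) (k := k) hn hs hs16 hl
  have hlog : 0 < Real.log 2 := Real.log_pos (by norm_num)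
  have hmeas : ∀ j, Measurable (vs n k s l j) := by
    intro j
    induction j with
    | zero => exact measurable_const
    | succ j ih => exact measurable_TT hn hs hs16 hl ih
  have hbd : ∀ j, ∀ y, -Real.log 2 ≤ vs n k s l j y ∧ vs n k s l j y ≤ C := by
    intro j
    induction j with
    | zero => exact fun y => ⟨le_rfl, by simp only [vs]; linarith⟩
    | succ j ih =>
      intro y
      refine ⟨?_, hsup _ (hmeas j) ih y⟩
      refine (TT_sub hn hs hs16 hl hlk y).trans ?_
      refine TT_mono hn hs hs16 hl measurable_const (hmeas j) (C := C + Real.log 2)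
        (fun y => ?_) (fun y => ?_) (fun y => (ih y).1) y
      · rw [abs_neg, abs_of_pos hlog]; linarith
      · rw [abs_le]; constructor <;> linarith [(ih y).1, (ih y).2]
  have habs : ∀ j y, |vs n k s l j y| ≤ C + Real.log 2 := fun j y => by
    rw [abs_le]; constructor <;> linarith [(hbd j y).1, (hbd j y).2]
  have hstep : ∀ j, ∀ y, vs n k s l j y ≤ vs n k s l (j + 1) y := by
    intro j
    induction j with
    | zero => exact fun y => (hbd 1 y).1
    | succ j ih =>
      exact fun y => TT_mono hn hs hs16 hl (hmeas j) (hmeas (j + 1)) (habs j) (habs (j + 1)) ih y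
  have hmono : ∀ y, Monotone fun j => vs n k s l j y := fun y =>
    monotone_nat_of_le_succ fun j => hstep j y
  have hba : ∀ y, BddAbove (range fun j => vs n k s l j y) := fun y =>
    ⟨C, by rintro _ ⟨j, rfl⟩; exact (hbd j y).2⟩
  set v : ℝ × ℝ → ℝ := fun y => ⨆ j, vs n k s l j y with hv
  have hlim : ∀ y, Tendsto (fun j => vs n k s l j y) atTop (𝓝 (v y)) := fun y =>
    tendsto_atTop_ciSup (hmono y) (hba y)
  have hvm : Measurable v :=
    measurable_of_tendsto_metrizable hmeas (tendsto_pi_nhds.mpr hlim)
  have hvabs : ∀ y, |v y| ≤ C + Real.log 2 := fun y =>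
    le_of_tendsto (hlim y).abs (Eventually.of_forall fun j => habs j y)
  refine ⟨v, hvm, ⟨_, hvabs⟩, fun x => ?_, ?_⟩
  · have h1 : Tendsto (fun j => TT n k s l (vs n k s l j) x) atTop (𝓝 (TT n k s l v x)) := by
      refine Gc_tendsto hl (h := fun j => hh n k s l (vs n k s l j)) (h' := hh n k s l v)
        (fun j => measurable_hh hn hs hs16 (hmeas j))
        (fun j y => hh_abs hn hs hs16 hl (habs j y)) (fun y => ?_) x
      unfold hh
      have hg : Tendsto (fun j => gg (per n (bf k s) y + vs n k s l j y)) atTop
          (𝓝 (gg (per n (bf k s) y + v y))) :=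
        (continuous_gg.tendsto _).comp ((hlim y).const_add _)
      exact ((hg.sub_const _).const_mul l).sub_const _
    have h2 : Tendsto (fun j => TT n k s l (vs n k s l j) x) atTop (𝓝 (v x)) :=
      (hlim x).comp (tendsto_add_atTop_nat 1)
    exact tendsto_nhds_unique h1 h2
  · have hper : ∀ j, ∀ a z, vs n k s l j (z + lt n a) = vs n k s l j z := by
      intro j
      induction j with
      | zero => intro a z; rfl
      | succ j ih =>
        intro a z
        refine cv_periodic (fun z => ?_) z
        unfold hh
        rw [per_periodic, per_periodic, ih]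
    intro a z
    simp only [hv, hper]

/-- Existence of a periodic distributional solution with a vortex of multiplicity `k` at every
point of `ℤ × nℤ`. -/
lemma exists_core {n k : ℕ} {s l : ℝ} (hn : 1 ≤ n) (hk : 1 ≤ k) (hs : 0 < s) (hs16 : s ≤ 1 / 16)
    (hl : 0 < l) (hlk : 32 * k * (k + 1) / s ≤ l) :
    ∃ v h : ℝ × ℝ → ℝ, Measurable v ∧ Measurable h ∧ (∃ C, ∀ y, |v y| ≤ C) ∧ (∃ C, ∀ y, |h y| ≤ C) ∧
      v = Gc l h ∧ (∀ a z, v (z + lt n a) = v z) ∧
      (∀ᵐ z, per n (bf k s) z + v z ≤ 0) ∧
      ∀ φ : ℝ × ℝ → ℝ, ContDiff ℝ 2 φ → HasCompactSupport φ →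
        ∫ z, (per n (bf k s) z + v z) * lap φ z =
          l * (∫ z, Ff (per n (bf k s) z + v z) * φ z) + 4 * Real.pi * k * ∑' a, φ (lt n a) := by
  obtain ⟨v, hvm, ⟨C, hC⟩, hfix, hper⟩ := exists_fixed hn hs hs16 hl hlk
  have hhm : Measurable (hh n k s l v) := measurable_hh hn hs hs16 hvm
  have hhC : ∀ y, |hh n k s l v y| ≤ l * (C + 1 / 4) + 8 * k * (k + 1) / s :=
    fun y => hh_abs hn hs hs16 hl (hC y)
  have hveq : v = Gc l (hh n k s l v) := funext fun x => (hfix x).symm
  have hβl := locInt_per_bf hn hk hs
  have hvl : LocallyIntegrable v := by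
    rw [locallyIntegrable_iff]
    intro K hK
    exact Measure.integrableOn_of_bounded (M := C) hK.measure_ne_top hvm.aestronglyMeasurable
      (Eventually.of_forall hC)
  -- the truncated equation
  have heq : ∀ φ : ℝ × ℝ → ℝ, ContDiff ℝ 2 φ → HasCompactSupport φ →
        ∫ z, (per n (bf k s) z + v z) * lap φ z =
          l * (∫ z, ((per n (bf k s) z + v z) - gg (per n (bf k s) z + v z)) * φ z) +
            4 * Real.pi * k * ∑' a, φ (lt n a) := by
    intro φ hφ hc
    have hφc := hφ.continuous
    have hLc := continuous_lap hφ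
    have hLs := hasCompactSupport_lap hc
    have iβ : Integrable (fun z => per n (bf k s) z * lap φ z) := by
      have := integrable_mul_of_compact hLc hLs hβl
      simpa [mul_comm] using this
    have iv : Integrable (fun z => v z * lap φ z) := by
      have := integrable_mul_of_compact hLc hLs hvl
      simpa [mul_comm] using this
    have iv' : Integrable (fun z => v z * φ z) := by
      have := integrable_mul_of_compact hφc hc hvl
      simpa [mul_comm] using this
    have iφ : Integrable φ := hφc.integrable_of_hasCompactSupport hc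
    have iM : Integrable (fun z => per n (muf k s) z * φ z) :=
      iφ.bdd_mul (measurable_per_muf hn k hs (by linarith)).aestronglyMeasurable
        (c := 8 * k * (k + 1) / s) (Eventually.of_forall fun z => by
          rw [Real.norm_eq_abs, abs_of_nonneg (M_nonneg hn hs hs16 z)]
          exact M_le hn hs hs16 z)
    have ih : Integrable (fun z => hh n k s l v z * φ z) :=
      iφ.bdd_mul hhm.aestronglyMeasurable (Eventually.of_forall hhC)
    have e1 := per_bf_lap hn hk hs hφ hc
    have e2 := Gc_weak hl hhm hhC hφ hc
    rw [← hveq] at e2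
    have e3 : ∀ z, v z * (l * φ z - lap φ z) = l * (v z * φ z) - v z * lap φ z := fun z => by ring
    simp_rw [e3] at e2
    rw [integral_sub (iv'.const_mul _) iv, integral_const_mul] at e2
    have e4 : ∀ z, (per n (bf k s) z + v z) * lap φ z =
        per n (bf k s) z * lap φ z + v z * lap φ z := fun z => by ring
    simp_rw [e4]
    rw [integral_add iβ iv, e1]
    have e5 : ∫ z, v z * lap φ z = l * (∫ z, v z * φ z) - ∫ z, hh n k s l v z * φ z := by linarith
    rw [e5]
    have e6 : ∀ z, ((per n (bf k s) z + v z) - gg (per n (bf k s) z + v z)) * φ z =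
        v z * φ z - l⁻¹ * (hh n k s l v z * φ z + per n (muf k s) z * φ z) := by
      intro z
      unfold hh
      field_simp
      ring
    simp_rw [e6]
    have i2 : Integrable (fun z => hh n k s l v z * φ z + per n (muf k s) z * φ z) := ih.add iM
    rw [integral_sub iv' (i2.const_mul _), integral_const_mul, integral_add ih iM]
    field_simp
    ring
  have hneg : ∀ᵐ z, per n (bf k s) z + v z ≤ 0 := by
    apply maxprinciple hn hl (hβl.add hvl)
    · intro a z
      simp only [Pi.add_apply]
      rw [per_periodic, hper]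
    · intro φ hφ hc hφ0
      have h := heq φ (hφ.of_le two_le_infty) hc
      simp only [Pi.add_apply]
      rw [h]
      have h1 : 0 ≤ ∑' a, φ (lt n a) := tsum_nonneg fun a => hφ0 _
      have h2 : ∫ z, (per n (bf k s) z + v z) * φ z ≤
          ∫ z, ((per n (bf k s) z + v z) - gg (per n (bf k s) z + v z)) * φ z := by
        have iu : Integrable (fun z => (per n (bf k s) z + v z) * φ z) := by
          have := integrable_mul_of_compact hφ.continuous hc (hβl.add hvl)
          simpa [mul_comm] using this
        have ig : Integrable (fun z => (gg (per n (bf k s) z + v z) - per n (bf k s) z) * φ z) := by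
          refine (hφ.continuous.integrable_of_hasCompactSupport hc).bdd_mul (c := C + 1 / 4) ?_ ?_
          · have hb := measurable_per_bf hn k hs (by linarith : s ≤ 1 / 4)
            exact ((continuous_gg.measurable.comp (hb.add hvm)).sub hb).aestronglyMeasurable
          · exact Eventually.of_forall fun z => theta_abs (beta_nonpos hn hs hs16 z) (hC z)
        have iv' : Integrable (fun z => v z * φ z) := by
          have := integrable_mul_of_compact hφ.continuous hc hvl
          simpa [mul_comm] using this
        apply integral_mono iu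
        · refine (iv'.sub ig).congr (Eventually.of_forall fun z => ?_)
          simp only [Pi.sub_apply]; ring
        · intro z
          have := gg_nonpos (per n (bf k s) z + v z)
          exact mul_le_mul_of_nonneg_right (by linarith) (hφ0 z)
      have h3 : 0 ≤ 4 * Real.pi * k * ∑' a, φ (lt n a) := by positivity
      have h4 := mul_le_mul_of_nonneg_left h2 hl.le
      linarith
  refine ⟨v, hh n k s l v, hvm, hhm, ⟨C, hC⟩, ⟨_, hhC⟩, hveq, hper, hneg, ?_⟩
  intro φ hφ hc
  rw [heq φ hφ hc]
  congr 2
  apply integral_congr_ae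
  filter_upwards [hneg] with z hz
  rw [gg_of_nonpos hz]
  ring

end Pool.Agent.Helper676.CS
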