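import Pool.Agent.Helper676.CS10

set_option autoImplicit false
set_option linter.unusedSectionVars false

namespace Pool.Agent.Helper676.CS

open MeasureTheory Filter Topology Set

/-! ### Poisson's equation on the torus -/

lemma Gc_abs_le {K : ℝ} (hK : 0 < K) {h : ℝ × ℝ → ℝ} {C : ℝ} (hC : ∀ y, |h y| ≤ C) (x : ℝ × ℝ) :
    |Gc K h x| ≤ K⁻¹ * C := by
  have h1 := cv_abs_le (integrable_G hK) hC x
  have h2 : ∫ y, |G K y| = K⁻¹ := by
    rw [← integral_G hK]
    congr 1; ext y; rw [abs_of_nonneg (G_nonneg _ _)]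
  rw [h2] at h1
  exact h1

lemma Gc_sub {K : ℝ} (hK : 0 < K) {h1 h2 : ℝ × ℝ → ℝ} (hm1 : Measurable h1) (hm2 : Measurable h2)
    {C1 C2 : ℝ} (hC1 : ∀ y, |h1 y| ≤ C1) (hC2 : ∀ y, |h2 y| ≤ C2) (x : ℝ × ℝ) :
    Gc K h1 x - Gc K h2 x = Gc K (fun y => h1 y - h2 y) x := by
  unfold Gc
  rw [← integral_sub (cv_integrable (integrable_G hK) hm1 hC1 x)
    (cv_integrable (integrable_G hK) hm2 hC2 x)]
  congr 1; ext y; ring

/-- zero mean over every translate of the cell -/
def ZM (n : ℕ) (h : ℝ × ℝ → ℝ) : Prop := ∀ x, ∫ y in Qc n, h (x - y) = 0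

lemma volume_Qc (n : ℕ) : (volume : Measure (ℝ × ℝ)) (Qc n) = n := by
  rw [Qc, Measure.volume_eq_prod, Measure.prod_prod, Real.volume_Ico, Real.volume_Ico]
  simp

lemma volume_real_Qc (n : ℕ) : (volume : Measure (ℝ × ℝ)).real (Qc n) = n := by
  rw [Measure.real, volume_Qc]; simp

lemma ZM_Gc {n : ℕ} {K : ℝ} (hK : 0 < K) {h : ℝ × ℝ → ℝ} (hm : Measurable h) {C : ℝ}
    (hC : ∀ y, |h y| ≤ C) (hz : ZM n h) : ZM n (Gc K h) := by
  intro x
  have e : ∀ y, Gc K h (x - y) = ∫ w, G K w * h (x - y - w) := fun y => by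
    rw [Gc_eq, cv_eq]
  simp_rw [e]
  rw [integral_integral_swap (f := fun y w => G K w * h (x - y - w))]
  · have : ∀ w, ∫ y in Qc n, G K w * h (x - y - w) = 0 := by
      intro w
      rw [integral_const_mul]
      have := hz (x - w)
      have e2 : ∀ y, h (x - y - w) = h (x - w - y) := fun y => by congr 1; abel
      simp_rw [e2]
      rw [this, mul_zero]
    simp_rw [this]
    simp
  · have hfin : IsFiniteMeasure ((volume : Measure (ℝ × ℝ)).restrict (Qc n)) :=
      ⟨by rw [Measure.restrict_apply_univ, volume_Qc]; exact ENNReal.natCast_lt_top n⟩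
    have h1 : Integrable (fun q : (ℝ × ℝ) × (ℝ × ℝ) => (1 : ℝ) * G K q.2)
        (((volume : Measure (ℝ × ℝ)).restrict (Qc n)).prod volume) :=
      (integrable_const (1 : ℝ)).mul_prod (integrable_G hK)
    have h2 : Integrable (fun q : (ℝ × ℝ) × (ℝ × ℝ) => ((1 : ℝ) * G K q.2) * h (x - q.1 - q.2))
        (((volume : Measure (ℝ × ℝ)).restrict (Qc n)).prod volume) := by
      refine h1.mul_bdd (c := C) ?_ (Eventually.of_forall fun q => hC _)
      exact (hm.comp ((measurable_const.sub measurable_fst).sub measurable_snd)).aestronglyMeasurable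
    refine h2.congr (Eventually.of_forall fun q => ?_)
    simp [Function.uncurry]

/-- Doeblin contraction -/
lemma doeblin {n : ℕ} (hn : 1 ≤ n) {K : ℝ} (hK : 0 < K) : ∃ θ : ℝ, 0 ≤ θ ∧ θ < 1 ∧
    ∀ (d : ℝ × ℝ → ℝ) (D : ℝ), Measurable d → (∀ y, |d y| ≤ D) → ZM n d →
      ∀ x, |Gc K (fun y => K * d y) x| ≤ θ * D := by
  obtain ⟨g0, hg0, hG⟩ := G_lower hK n
  have hn0 : (1 : ℝ) ≤ n := by exact_mod_cast hn
  have hQi : Integrable (fun y => (Qc n).indicator (fun _ => (1 : ℝ)) y) := by
    rw [integrable_indicator_iff (measurableSet_Qc n)]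
    exact integrableOn_const (by rw [volume_Qc]; exact ENNReal.natCast_ne_top n)
  have hQint : ∫ y, (Qc n).indicator (fun _ => (1 : ℝ)) y = n := by
    rw [integral_indicator (measurableSet_Qc n), setIntegral_const, smul_eq_mul, mul_one,
      volume_real_Qc]
  have hki : Integrable (fun y => K * G K y - K * g0 * (Qc n).indicator (fun _ => (1 : ℝ)) y) :=
    ((integrable_G hK).const_mul K).sub (hQi.const_mul _)
  have hkn : ∀ᵐ y, 0 ≤ K * G K y - K * g0 * (Qc n).indicator (fun _ => (1 : ℝ)) y := by
    filter_upwards [hG] with y hy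
    by_cases hyQ : y ∈ Qc n
    · rw [indicator_of_mem hyQ]
      have : g0 ≤ G K y := by
        apply hy
        rw [Prod.norm_def, max_le_iff, Real.norm_eq_abs, Real.norm_eq_abs,
          abs_of_nonneg hyQ.1.1, abs_of_nonneg hyQ.2.1]
        exact ⟨hyQ.1.2.le.trans hn0, hyQ.2.2.le⟩
      nlinarith
    · rw [indicator_of_notMem hyQ]
      have := G_nonneg K y
      nlinarith
  have hkint : ∫ y, (K * G K y - K * g0 * (Qc n).indicator (fun _ => (1 : ℝ)) y) = 1 - K * g0 * n := by
    rw [integral_sub ((integrable_G hK).const_mul K) (hQi.const_mul _), integral_const_mul,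
      integral_const_mul, integral_G hK, hQint]
    field_simp
  refine ⟨1 - K * g0 * n, ?_, by nlinarith [mul_pos hK hg0], ?_⟩
  · rw [← hkint]; exact integral_nonneg_of_ae hkn
  · intro d D hdm hD hz x
    have e1 : Gc K (fun y => K * d y) x =
        ∫ y, (K * G K y - K * g0 * (Qc n).indicator (fun _ => (1 : ℝ)) y) * d (x - y) := by
      rw [Gc_eq, cv_eq]
      have hdm' : Measurable fun y => d (x - y) := hdm.comp (measurable_const.sub measurable_id)
      have i1 : Integrable (fun y => K * (G K y * d (x - y))) :=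
        ((integrable_G hK).mul_bdd hdm'.aestronglyMeasurable
          (Eventually.of_forall fun y => hD _)).const_mul K
      have i2 : Integrable (fun y => (Qc n).indicator (fun _ => (1 : ℝ)) y * d (x - y)) :=
        hQi.mul_bdd hdm'.aestronglyMeasurable (Eventually.of_forall fun y => hD _)
      have e2 : ∫ y, (Qc n).indicator (fun _ => (1 : ℝ)) y * d (x - y) = 0 := by
        have : ∀ y, (Qc n).indicator (fun _ => (1 : ℝ)) y * d (x - y) =
            (Qc n).indicator (fun y => d (x - y)) y := by
          intro y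
          by_cases hy : y ∈ Qc n
          · rw [indicator_of_mem hy, indicator_of_mem hy, one_mul]
          · rw [indicator_of_notMem hy, indicator_of_notMem hy, zero_mul]
        simp_rw [this]
        rw [integral_indicator (measurableSet_Qc n)]
        exact hz x
      have e3 : ∀ y, (K * G K y - K * g0 * (Qc n).indicator (fun _ => (1 : ℝ)) y) * d (x - y) =
          K * (G K y * d (x - y)) - K * g0 * ((Qc n).indicator (fun _ => (1 : ℝ)) y * d (x - y)) :=
        fun y => by ring
      simp_rw [e3]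
      rw [integral_sub i1 (i2.const_mul _), integral_const_mul (K * g0), e2, mul_zero, sub_zero]
      congr 1; ext y; ring
    rw [e1, ← hkint, ← integral_mul_const, ← Real.norm_eq_abs]
    refine (norm_integral_le_integral_norm _).trans ?_
    apply integral_mono_of_nonneg
    · exact Eventually.of_forall fun y => norm_nonneg _
    · exact hki.mul_const _
    · filter_upwards [hkn] with y hy
      rw [norm_mul, Real.norm_eq_abs, abs_of_nonneg hy]
      exact mul_le_mul_of_nonneg_left (hD _) hy

noncomputable def ws (K : ℝ) (h0 : ℝ × ℝ → ℝ) : ℕ → (ℝ × ℝ → ℝ)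
  | 0 => fun _ => 0
  | j + 1 => Gc K (fun y => K * ws K h0 j y - h0 y)

/-- Poisson's equation on the torus: bounded data of mean zero. -/
lemma exists_poisson {n : ℕ} (hn : 1 ≤ n) {K : ℝ} (hK : 0 < K) {h0 : ℝ × ℝ → ℝ}
    (hm : Measurable h0) {C0 : ℝ} (hC0 : ∀ y, |h0 y| ≤ C0) (hz : ZM n h0)
    (hper : ∀ a z, h0 (z + lt n a) = h0 z) :
    ∃ w h : ℝ × ℝ → ℝ, Measurable w ∧ Measurable h ∧ (∃ C, ∀ y, |w y| ≤ C) ∧
      (∃ C, ∀ y, |h y| ≤ C) ∧ w = Gc K h ∧ (∀ a z, w (z + lt n a) = w z) ∧
      ∀ φ : ℝ × ℝ → ℝ, ContDiff ℝ 2 φ → HasCompactSupport φ →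
        ∫ z, w z * lap φ z = ∫ z, h0 z * φ z := by
  obtain ⟨θ, hθ0, hθ1, hD⟩ := doeblin hn hK
  have hC00 : 0 ≤ C0 := (abs_nonneg _).trans (hC0 0)
  have hmeas : ∀ j, Measurable (ws K h0 j) := by
    intro j
    induction j with
    | zero => exact measurable_const
    | succ j ih =>
      exact (cv_stronglyMeasurable (measurable_G K) ((ih.const_mul K).sub hm)).measurable
  set D0 := K⁻¹ * C0 with hD0
  have hD00 : 0 ≤ D0 := by positivity
  have hmain : ∀ j, (∀ y, |ws K h0 j y| ≤ D0 * ∑ i ∈ Finset.range j, θ ^ i) ∧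
      (∀ y, |ws K h0 (j + 1) y - ws K h0 j y| ≤ θ ^ j * D0) ∧
      ZM n (fun y => ws K h0 (j + 1) y - ws K h0 j y) := by
    intro j
    induction j with
    | zero =>
      refine ⟨fun y => by simp [ws], fun y => ?_, ?_⟩
      · simp only [ws, mul_zero, zero_sub, sub_zero, pow_zero, one_mul]
        exact Gc_abs_le hK (fun y => by rw [abs_neg]; exact hC0 y) y
      · have hz' : ZM n (fun y => - h0 y) := fun x => by rw [integral_neg, hz x, neg_zero]
        have := ZM_Gc hK (h := fun y => - h0 y) hm.neg (C := C0)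
          (fun y => by rw [abs_neg]; exact hC0 y) hz'
        simpa [ws] using this
    | succ j ih =>
      obtain ⟨h1, h2, h3⟩ := ih
      have hb : ∀ y, |ws K h0 (j + 1) y| ≤ D0 * ∑ i ∈ Finset.range (j + 1), θ ^ i := by
        intro y
        have := abs_add_le (ws K h0 j y) (ws K h0 (j + 1) y - ws K h0 j y)
        rw [add_sub_cancel] at this
        rw [Finset.sum_range_succ]
        have a := h1 y
        have b := h2 y
        linarith
      have hrec : ∀ y, ws K h0 (j + 2) y - ws K h0 (j + 1) y =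
          Gc K (fun y => K * (ws K h0 (j + 1) y - ws K h0 j y)) y := by
        intro y
        have m1 : Measurable (fun y => K * ws K h0 (j + 1) y - h0 y) :=
          ((hmeas (j + 1)).const_mul K).sub hm
        have m2 : Measurable (fun y => K * ws K h0 j y - h0 y) :=
          ((hmeas j).const_mul K).sub hm
        have b1 : ∀ y, |K * ws K h0 (j + 1) y - h0 y| ≤
            K * (D0 * ∑ i ∈ Finset.range (j + 1), θ ^ i) + C0 := fun y => by
          refine (abs_sub _ _).trans ?_
          rw [abs_mul, abs_of_pos hK]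
          exact add_le_add (mul_le_mul_of_nonneg_left (hb y) hK.le) (hC0 y)
        have b2 : ∀ y, |K * ws K h0 j y - h0 y| ≤
            K * (D0 * ∑ i ∈ Finset.range j, θ ^ i) + C0 := fun y => by
          refine (abs_sub _ _).trans ?_
          rw [abs_mul, abs_of_pos hK]
          exact add_le_add (mul_le_mul_of_nonneg_left (h1 y) hK.le) (hC0 y)
        have e1 : ws K h0 (j + 2) y = Gc K (fun y => K * ws K h0 (j + 1) y - h0 y) y := rfl
        have e2 : ws K h0 (j + 1) y = Gc K (fun y => K * ws K h0 j y - h0 y) y := rfl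
        have e3 := Gc_sub hK m1 m2 b1 b2 y
        rw [← e1, ← e2] at e3
        rw [e3]
        congr 1; ext y; ring
      refine ⟨hb, fun y => ?_, ?_⟩
      · rw [hrec]
        have := hD _ _ ((hmeas (j + 1)).sub (hmeas j)) h2 h3 y
        refine this.trans (le_of_eq ?_)
        ring
      · have e : (fun y => ws K h0 (j + 1 + 1) y - ws K h0 (j + 1) y) =
            Gc K (fun y => K * (ws K h0 (j + 1) y - ws K h0 j y)) := funext hrec
        rw [e]
        refine ZM_Gc hK (((hmeas (j + 1)).sub (hmeas j)).const_mul K) (C := K * (θ ^ j * D0))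
          (fun y => ?_) (fun x => ?_)
        · rw [abs_mul, abs_of_pos hK]
          exact mul_le_mul_of_nonneg_left (h2 y) hK.le
        · rw [integral_const_mul, h3 x, mul_zero]
  have hgeo : ∀ j, ∑ i ∈ Finset.range j, θ ^ i ≤ (1 - θ)⁻¹ := fun j => by
    have h := (summable_geometric_of_lt_one hθ0 hθ1)
    rw [← tsum_geometric_of_lt_one hθ0 hθ1]
    exact h.sum_le_tsum _ (fun i _ => by positivity)
  have habs : ∀ j y, |ws K h0 j y| ≤ D0 * (1 - θ)⁻¹ := fun j y =>
    ((hmain j).1 y).trans (mul_le_mul_of_nonneg_left (hgeo j) hD00)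
  have hcauchy : ∀ y, CauchySeq fun j => ws K h0 j y := fun y => by
    apply cauchySeq_of_le_geometric θ D0 hθ1
    intro j
    rw [Real.dist_eq, abs_sub_comm]
    have := (hmain j).2.1 y
    linarith
  choose w hw using fun y => cauchySeq_tendsto_of_complete (hcauchy y)
  have hwm : Measurable w := measurable_of_tendsto_metrizable hmeas (tendsto_pi_nhds.mpr hw)
  have hwabs : ∀ y, |w y| ≤ D0 * (1 - θ)⁻¹ := fun y =>
    le_of_tendsto (hw y).abs (Eventually.of_forall fun j => habs j y)
  have hhm : Measurable (fun y => K * w y - h0 y) := (hwm.const_mul K).sub hm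
  have hhC : ∀ y, |K * w y - h0 y| ≤ K * (D0 * (1 - θ)⁻¹) + C0 := fun y => by
    refine (abs_sub _ _).trans ?_
    rw [abs_mul, abs_of_pos hK]
    exact add_le_add (mul_le_mul_of_nonneg_left (hwabs y) hK.le) (hC0 y)
  have hfix : w = Gc K (fun y => K * w y - h0 y) := by
    ext x
    have h1 : Tendsto (fun j => ws K h0 (j + 1) x) atTop (𝓝 (Gc K (fun y => K * w y - h0 y) x)) := by
      refine Gc_tendsto hK (h := fun j y => K * ws K h0 j y - h0 y)
        (C := K * (D0 * (1 - θ)⁻¹) + C0)
        (fun j => ((hmeas j).const_mul K).sub hm) (fun j y => ?_)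
        (fun y => ((hw y).const_mul K).sub_const _) x
      refine (abs_sub _ _).trans ?_
      rw [abs_mul, abs_of_pos hK]
      exact add_le_add (mul_le_mul_of_nonneg_left (habs j y) hK.le) (hC0 y)
    exact tendsto_nhds_unique ((hw x).comp (tendsto_add_atTop_nat 1)) h1
  refine ⟨w, fun y => K * w y - h0 y, hwm, hhm, ⟨_, hwabs⟩, ⟨_, hhC⟩, hfix, ?_, ?_⟩
  · have hp : ∀ j, ∀ a z, ws K h0 j (z + lt n a) = ws K h0 j z := by
      intro j
      induction j with
      | zero => intro a z; rfl
      | succ j ih =>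
        intro a z
        exact cv_periodic (fun z => by rw [ih, hper]) z
    intro a z
    have h1 := hw (z + lt n a)
    simp only [hp] at h1
    exact tendsto_nhds_unique h1 (hw z)
  · intro φ hφ hc
    have e2 := Gc_weak hK hhm hhC hφ hc
    rw [← hfix] at e2
    have hwl : LocallyIntegrable w := by
      rw [locallyIntegrable_iff]
      intro S hS
      exact Measure.integrableOn_of_bounded (M := D0 * (1 - θ)⁻¹) hS.measure_ne_top
        hwm.aestronglyMeasurable (Eventually.of_forall hwabs)
    have iv : Integrable (fun z => w z * lap φ z) := by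
      have := integrable_mul_of_compact (continuous_lap hφ) (hasCompactSupport_lap hc) hwl
      simpa [mul_comm] using this
    have iv' : Integrable (fun z => w z * φ z) := by
      have := integrable_mul_of_compact hφ.continuous hc hwl
      simpa [mul_comm] using this
    have ih0 : Integrable (fun z => h0 z * φ z) :=
      (hφ.continuous.integrable_of_hasCompactSupport hc).bdd_mul hm.aestronglyMeasurable
        (Eventually.of_forall hC0)
    have e3 : ∀ z, w z * (K * φ z - lap φ z) = K * (w z * φ z) - w z * lap φ z := fun z => by ring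
    have e4 : ∀ z, (K * w z - h0 z) * φ z = K * (w z * φ z) - h0 z * φ z := fun z => by ring
    simp_rw [e3, e4] at e2
    rw [integral_sub (iv'.const_mul _) iv, integral_sub (iv'.const_mul _) ih0] at e2
    linarith

end Pool.Agent.Helper676.CS
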