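import Pool.Agent.Helper676.CS11

set_option autoImplicit false
set_option linter.unusedSectionVars false

namespace Pool.Agent.Helper676.CS

open MeasureTheory Filter Topology Set

/-- distributional solutions on the torus with periods `(1,0)` and `(0,n)` -/
structure Sol (n : ℕ) (l : ℝ) {N : ℕ} (p : Fin N → ℝ × ℝ) (u : ℝ × ℝ → ℝ) : Prop where
  loc : LocallyIntegrable u
  locF : LocallyIntegrable (fun z => Ff (u z))
  per : ∀ a z, u (z + lt n a) = u z
  eq : ∀ φ : ℝ × ℝ → ℝ, ContDiff ℝ (⊤ : ℕ∞) φ → HasCompactSupport φ →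
    ∫ z, u z * lap φ z = l * (∫ z, Ff (u z) * φ z) +
      4 * Real.pi * ∑ j, ∑' a, φ (p j + lt n a)

section sol

variable {n : ℕ} {l : ℝ} {N : ℕ} {p : Fin N → ℝ × ℝ} {u : ℝ × ℝ → ℝ}

lemma Sol.nonpos (hn : 1 ≤ n) (hl : 0 < l) (h : Sol n l p u) : ∀ᵐ z, u z ≤ 0 := by
  apply maxprinciple hn hl h.loc h.per
  intro φ hφ hc hφ0
  rw [h.eq φ hφ hc]
  have i1 : Integrable (fun z => u z * φ z) := by
    have := integrable_mul_of_compact hφ.continuous hc h.loc
    simpa [mul_comm] using this
  have i2 : Integrable (fun z => Ff (u z) * φ z) := by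
    have := integrable_mul_of_compact hφ.continuous hc h.locF
    simpa [mul_comm] using this
  have h1 : ∫ z, u z * φ z ≤ ∫ z, Ff (u z) * φ z :=
    integral_mono i1 i2 fun z => mul_le_mul_of_nonneg_right (Ff_ge _) (hφ0 z)
  have h2 : 0 ≤ ∑ j, ∑' a, φ (p j + lt n a) :=
    Finset.sum_nonneg fun j _ => tsum_nonneg fun a => hφ0 _
  have h3 := mul_le_mul_of_nonneg_left h1 hl.le
  have h4 : 0 ≤ 4 * Real.pi * ∑ j, ∑' a, φ (p j + lt n a) := by positivity
  linarith

lemma Sol.lap_cv (h : Sol n l p u) {ρ : ℝ × ℝ → ℝ} (hρ : ContDiff ℝ (⊤ : ℕ∞) ρ)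
    (hc : HasCompactSupport ρ) (x : ℝ × ℝ) :
    lap (cv ρ u) x = l * cv ρ (fun z => Ff (u z)) x +
      4 * Real.pi * ∑ j, ∑' a, ρ (x - (p j + lt n a)) := by
  rw [cv_lap hρ hc h.loc, cv_lap_eq, h.eq (fun y => ρ (x - y))
    (hρ.comp (contDiff_const.sub contDiff_id)) (hasCompactSupport_reflect hc x)]
  congr 2
  rw [cv]; congr 1; ext y; ring

lemma cv_nonpos_of {ρ u : ℝ × ℝ → ℝ} (hρ : ∀ z, 0 ≤ ρ z) (hu : ∀ᵐ z, u z ≤ 0) (x : ℝ × ℝ) :
    cv ρ u x ≤ 0 := by
  apply integral_nonpos_of_ae
  filter_upwards [hu] with y hy using mul_nonpos_of_nonneg_of_nonpos (hρ _) hy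

/-- comparison of mollifications with constants -/
lemma cv_le_of {ρ : ContDiffBump (0 : ℝ × ℝ)} {w : ℝ × ℝ → ℝ} (hw : LocallyIntegrable w)
    {x : ℝ × ℝ} {c : ℝ} (h : ∀ᵐ y, ‖x - y‖ < ρ.rOut → w y ≤ c) :
    cv (ρ.normed volume) w x ≤ c := by
  have h1 : ∫ y, ρ.normed volume (x - y) * c = c := by
    rw [integral_mul_const, integral_sub_left_eq_self (ρ.normed volume) volume x,
      ρ.integral_normed, one_mul]
  rw [cv]
  refine le_trans ?_ (le_of_eq h1)
  apply integral_mono_ae (cv_integrand ρ.continuous_normed ρ.hasCompactSupport_normed hw x)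
    ((ρ.integrable_normed.comp_sub_left x).mul_const c)
  filter_upwards [h] with y hy
  by_cases hxy : ‖x - y‖ < ρ.rOut
  · exact mul_le_mul_of_nonneg_left (hy hxy) (ρ.nonneg_normed _)
  · have : ρ.normed volume (x - y) = 0 := by
      have h2 := ρ.support_normed_eq (μ := (volume : Measure (ℝ × ℝ)))
      by_contra h3
      have : x - y ∈ Function.support (ρ.normed volume) := h3
      rw [h2, Metric.mem_ball, dist_zero_right] at this
      exact hxy this
    simp [this]

/-- comparison of mollifications with constants -/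
lemma le_cv_of {ρ : ContDiffBump (0 : ℝ × ℝ)} {w : ℝ × ℝ → ℝ} (hw : LocallyIntegrable w)
    {x : ℝ × ℝ} {c : ℝ} (h : ∀ᵐ y, c ≤ w y) :
    c ≤ cv (ρ.normed volume) w x := by
  have h1 : ∫ y, ρ.normed volume (x - y) * c = c := by
    rw [integral_mul_const, integral_sub_left_eq_self (ρ.normed volume) volume x,
      ρ.integral_normed, one_mul]
  rw [cv]
  refine le_trans (le_of_eq h1.symm) ?_
  apply integral_mono_ae ((ρ.integrable_normed.comp_sub_left x).mul_const c)
    (cv_integrand ρ.continuous_normed ρ.hasCompactSupport_normed hw x)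
  filter_upwards [h] with y hy
  exact mul_le_mul_of_nonneg_left hy (ρ.nonneg_normed _)

lemma Sol.lap_cv_ge (h : Sol n l p u) (hl : 0 < l) (ρ : ContDiffBump (0 : ℝ × ℝ)) (x : ℝ × ℝ) :
    -(l / 4) ≤ lap (cv (ρ.normed volume) u) x := by
  rw [h.lap_cv ρ.contDiff_normed ρ.hasCompactSupport_normed]
  have h1 : -(1 / 4) ≤ cv (ρ.normed volume) (fun z => Ff (u z)) x :=
    le_cv_of h.locF (Eventually.of_forall fun y => Ff_ge' _)
  have h2 : 0 ≤ ∑ j, ∑' a, ρ.normed volume (x - (p j + lt n a)) :=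
    Finset.sum_nonneg fun j _ => tsum_nonneg fun a => ρ.nonneg_normed _
  have h4 : 0 ≤ 4 * Real.pi * ∑ j, ∑' a, ρ.normed volume (x - (p j + lt n a)) := by positivity
  nlinarith

/-- the window in the mean value inequality -/
def Rw : Set (ℝ × ℝ) := Icc (1 : ℝ) 3 ×ˢ Icc (-1 : ℝ) 1

lemma measurableSet_Rw : MeasurableSet Rw := measurableSet_Icc.prod measurableSet_Icc

lemma muf_Rw {w : ℝ × ℝ} (hw : w ∈ Rw) : 1 / 40 ≤ muf 1 16 w := by
  have h1 : 1 ≤ sq w := by
    unfold sq; nlinarith [hw.1.1, sq_nonneg w.2]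
  have h2 : sq w ≤ 10 := by
    unfold sq
    have a := hw.1.1
    have b := hw.1.2
    have c := hw.2.1
    have d := hw.2.2
    nlinarith
  rw [muf, if_pos (by linarith)]
  push_cast
  have h3 : (1 : ℝ) / 16 ≤ sq w / 16 := by linarith
  have h4 : sq w / 16 ≤ 10 / 16 := by linarith
  have h5 : (sq w / 16) ^ 2 ≤ (10 / 16) ^ 2 := pow_le_pow_left₀ (by linarith) h4 2
  have h6 : (1 - (sq w / 16) ^ (1 + 1)) ≥ 1 - (10 / 16) ^ 2 := by
    simp only [Nat.reduceAdd]; linarith
  rw [pow_one]
  nlinarith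

/-- the constant `∫ |b|` -/
noncomputable def Cb : ℝ := ∫ z, |bf 1 16 z|

lemma Cb_nonneg : 0 ≤ Cb := integral_nonneg fun _ => abs_nonneg _

/-- mean value inequality for mollifications -/
lemma Sol.mean_value (hn : 1 ≤ n) (hl : 0 < l) (h : Sol n l p u) (ρ : ContDiffBump (0 : ℝ × ℝ))
    (z : ℝ × ℝ) :
    4 * Real.pi * cv (ρ.normed volume) u z ≤
      1 / 40 * (∫ w in Rw, cv (ρ.normed volume) u (z - w)) + l / 4 * Cb := by
  set W := cv (ρ.normed volume) u with hW
  have hWs : ContDiff ℝ (⊤ : ℕ∞) W :=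
    cv_contDiff ρ.contDiff_normed ρ.hasCompactSupport_normed h.loc
  have hWn : ∀ x, W x ≤ 0 := cv_nonpos_of (fun x => ρ.nonneg_normed x) (h.nonpos hn hl)
  have hb := bf_lap (k := 1) le_rfl (s := 16) (by norm_num) (φ := fun w => W (z - w))
    ((hWs.of_le two_le_infty).comp (contDiff_const.sub contDiff_id))
  rw [lap_reflect] at hb
  have hlapc : Continuous (fun w => lap W (z - w)) :=
    (continuous_lap (hWs.of_le two_le_infty)).comp (continuous_const.sub continuous_id)
  have hWc : Continuous (fun w => W (z - w)) := hWs.continuous.comp (continuous_const.sub continuous_id)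
  -- integrability of `b * continuous`
  have hib : ∀ g : ℝ × ℝ → ℝ, Continuous g → Integrable (fun w => bf 1 16 w * g w) := by
    intro g hg
    obtain ⟨C, hC⟩ := (isCompact_closedBall (0 : ℝ × ℝ) (Real.sqrt 16)).exists_bound_of_continuousOn
      hg.continuousOn
    have hsub : ∀ w, ‖bf 1 16 w * g w‖ ≤ C * |bf 1 16 w| := by
      intro w
      by_cases hw : w ∈ Metric.closedBall (0 : ℝ × ℝ) (Real.sqrt 16)
      · rw [norm_mul, mul_comm]
        exact mul_le_mul_of_nonneg_right (hC w hw) (abs_nonneg _)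
      · have : bf 1 16 w = 0 := by
          by_contra h0
          exact hw (support_bf (by norm_num) h0)
        simp [this]
    refine ((integrable_bf (k := 1) le_rfl (s := 16) (by norm_num)).abs.const_mul C).mono'
      ?_ (Eventually.of_forall hsub)
    exact (measurable_bf 1 16).aestronglyMeasurable.mul hg.aestronglyMeasurable
  have hmu : Integrable (fun w => muf 1 16 w * W (z - w)) := by
    obtain ⟨C, hC⟩ := (isCompact_closedBall (0 : ℝ × ℝ) (Real.sqrt 16)).exists_bound_of_continuousOn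
      hWc.continuousOn
    have hsub : ∀ w, ‖muf 1 16 w * W (z - w)‖ ≤ C * |muf 1 16 w| := by
      intro w
      by_cases hw : w ∈ Metric.closedBall (0 : ℝ × ℝ) (Real.sqrt 16)
      · rw [norm_mul, mul_comm]
        exact mul_le_mul_of_nonneg_right (hC w hw) (abs_nonneg _)
      · have : muf 1 16 w = 0 := by
          by_contra h0
          exact hw (support_muf (by norm_num) h0)
        simp [this]
    refine ((integrable_muf 1 (s := 16) (by norm_num)).abs.const_mul C).mono'
      ?_ (Eventually.of_forall hsub)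
    exact (measurable_muf 1 16).aestronglyMeasurable.mul hWc.aestronglyMeasurable
  have h1 : ∫ w, bf 1 16 w * lap W (z - w) ≤ l / 4 * Cb := by
    rw [Cb, ← integral_const_mul]
    apply integral_mono (hib _ hlapc)
      ((integrable_bf (k := 1) le_rfl (s := 16) (by norm_num)).abs.const_mul _)
    intro w
    simp only
    have hb0 := bf_nonpos 1 (s := 16) (by norm_num) w
    rw [abs_of_nonpos hb0]
    have := h.lap_cv_ge hl ρ (z - w)
    nlinarith
  have h2 : ∫ w, muf 1 16 w * W (z - w) ≤ 1 / 40 * ∫ w in Rw, W (z - w) := by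
    rw [← integral_const_mul, ← integral_indicator measurableSet_Rw]
    apply integral_mono hmu
    · rw [integrable_indicator_iff measurableSet_Rw]
      exact ((continuous_const.mul hWc).continuousOn.integrableOn_compact
        (isCompact_Icc.prod isCompact_Icc))
    · intro w
      by_cases hw : w ∈ Rw
      · simp only [indicator_of_mem hw]
        have := muf_Rw hw
        have := hWn (z - w)
        nlinarith
      · simp only [indicator_of_notMem hw]
        exact mul_nonpos_of_nonneg_of_nonpos (muf_nonneg 1 (by norm_num) w) (hWn _)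
  have h3 : (fun w => W (z - w)) 0 = W z := by simp
  simp only [sub_zero] at hb
  push_cast at hb
  linarith

end sol

end Pool.Agent.Helper676.CS
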