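import Pool.Agent.Helper676.CS12

set_option autoImplicit false
set_option linter.unusedSectionVars false

namespace Pool.Agent.Helper676.CS

open MeasureTheory Filter Topology Set

/-- window integral over one period in `x` -/
noncomputable def Vw (u : ℝ × ℝ → ℝ) (r y : ℝ) : ℝ :=
  ∫ z in Ico (0 : ℝ) 1 ×ˢ Icc (y - r) (y + r), u z

lemma locInt_bounded {u : ℝ × ℝ → ℝ} (hu : LocallyIntegrable u) {S : Set (ℝ × ℝ)}
    (hS : Bornology.IsBounded S) : IntegrableOn u S := by
  obtain ⟨R, hR⟩ := hS.subset_closedBall 0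
  exact (hu.integrableOn_isCompact (isCompact_closedBall 0 R)).mono_set hR

lemma bounded_box (a b c d : ℝ) : Bornology.IsBounded (Icc a b ×ˢ Icc c d) :=
  (isCompact_Icc.prod isCompact_Icc).isBounded

lemma bounded_box' (a b c d : ℝ) : Bornology.IsBounded (Ico a b ×ˢ Icc c d) :=
  (bounded_box a b c d).subset (Set.prod_mono Ico_subset_Icc_self le_rfl)

lemma anti_set {u : ℝ × ℝ → ℝ} (hu : LocallyIntegrable u) (hneg : ∀ᵐ z, u z ≤ 0)
    {S T : Set (ℝ × ℝ)} (hT : Bornology.IsBounded T) (hST : S ⊆ T) :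
    ∫ z in T, u z ≤ ∫ z in S, u z := by
  have h := setIntegral_mono_set (f := fun z => - u z) (μ := volume) (s := S) (t := T)
    (locInt_bounded hu hT).neg
    (by filter_upwards [ae_restrict_of_ae hneg] with z hz; simpa using hz)
    (Eventually.of_forall hST)
  rw [integral_neg, integral_neg] at h
  linarith

lemma window_shift {n : ℕ} {u : ℝ × ℝ → ℝ} (hper : ∀ a z, u (z + lt n a) = u z) (j : ℤ) (c d : ℝ) :
    ∫ z in Ico (j : ℝ) (j + 1) ×ˢ Icc c d, u z = ∫ z in Ico (0 : ℝ) 1 ×ˢ Icc c d, u z := by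
  have h3 := (measurePreserving_sub_right (volume : Measure (ℝ × ℝ)) (lt n (j, 0))).setIntegral_preimage_emb
    (measurableEmbedding_subRight (lt n (j, 0))) u (Ico (0 : ℝ) 1 ×ˢ Icc c d)
  rw [← h3]
  have e1 : (fun z => z - lt n (j, 0)) ⁻¹' (Ico (0 : ℝ) 1 ×ˢ Icc c d) =
      Ico (j : ℝ) (j + 1) ×ˢ Icc c d := by
    ext z
    simp only [lt, mem_preimage, mem_prod, mem_Ico, mem_Icc, Prod.fst_sub, Prod.snd_sub,
      Int.cast_zero, mul_zero, sub_zero]
    constructor
    · rintro ⟨⟨a, b⟩, c'⟩; exact ⟨⟨by linarith, by linarith⟩, c'⟩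
    · rintro ⟨⟨a, b⟩, c'⟩; exact ⟨⟨by linarith, by linarith⟩, c'⟩
  rw [e1]
  congr 1; ext z
  have := hper (j, 0) (z - lt n (j, 0))
  rw [sub_add_cancel] at this
  exact this

lemma Vw_anti {u : ℝ × ℝ → ℝ} (hu : LocallyIntegrable u) (hneg : ∀ᵐ z, u z ≤ 0)
    {r r' y y' : ℝ} (h : |y - y'| ≤ r' - r) : Vw u r' y' ≤ Vw u r y := by
  rw [abs_le] at h
  apply anti_set hu hneg (bounded_box' _ _ _ _)
  apply Set.prod_mono le_rfl
  apply Icc_subset_Icc <;> linarith [h.1, h.2]

lemma Vw_nonpos {u : ℝ × ℝ → ℝ} (hneg : ∀ᵐ z, u z ≤ 0) (r y : ℝ) : Vw u r y ≤ 0 :=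
  integral_nonpos_of_ae (ae_restrict_of_ae hneg)

/-- the unmollified window integral -/
noncomputable def jw (u : ℝ × ℝ → ℝ) (x : ℝ × ℝ) : ℝ := ∫ w in Rw, u (x - w)

lemma jw_le {n : ℕ} {u : ℝ × ℝ → ℝ} (hper : ∀ a z, u (z + lt n a) = u z)
    (hu : LocallyIntegrable u) (hneg : ∀ᵐ z, u z ≤ 0) {x : ℝ × ℝ} {y : ℝ} (hxy : |x.2 - y| ≤ 1 / 4) :
    jw u x ≤ Vw u (3 / 4) y := by
  have h3 := (Measure.measurePreserving_sub_left (volume : Measure (ℝ × ℝ)) x).setIntegral_preimage_emb
    ((MeasurableEquiv.subLeft x).measurableEmbedding) u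
    (Icc (x.1 - 3) (x.1 - 1) ×ˢ Icc (x.2 - 1) (x.2 + 1))
  have e1 : (fun w => x - w) ⁻¹' (Icc (x.1 - 3) (x.1 - 1) ×ˢ Icc (x.2 - 1) (x.2 + 1)) = Rw := by
    ext w
    simp only [Rw, mem_preimage, mem_prod, mem_Icc, Prod.fst_sub, Prod.snd_sub]
    constructor
    · rintro ⟨⟨a, b⟩, c, d⟩; exact ⟨⟨by linarith, by linarith⟩, by linarith, by linarith⟩
    · rintro ⟨⟨a, b⟩, c, d⟩; exact ⟨⟨by linarith, by linarith⟩, by linarith, by linarith⟩
  have h4 : jw u x = ∫ z in Icc (x.1 - 3) (x.1 - 1) ×ˢ Icc (x.2 - 1) (x.2 + 1), u z := by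
    rw [← h3, jw, ← e1]
  rw [h4, Vw, ← window_shift hper ⌈x.1 - 3⌉]
  apply anti_set hu hneg (bounded_box _ _ _ _)
  apply Set.prod_mono
  · intro t ht
    have a := Int.le_ceil (x.1 - 3)
    have b := Int.ceil_lt_add_one (x.1 - 3)
    exact ⟨by linarith [ht.1], by linarith [ht.2]⟩
  · rw [abs_le] at hxy
    apply Icc_subset_Icc <;> linarith [hxy.1, hxy.2]

/-- Fubini: windows of mollifications are mollifications of windows -/
lemma window_cv {ρ : ℝ × ℝ → ℝ} (hρ : Continuous ρ) (hc : HasCompactSupport ρ) {u : ℝ × ℝ → ℝ}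
    (hu : LocallyIntegrable u) (z : ℝ × ℝ) :
    ∫ w in Rw, cv ρ u (z - w) = cv ρ (jw u) z := by
  obtain ⟨C, hC⟩ := hc.exists_bound_of_continuous hρ
  obtain ⟨R, hR⟩ := hc.isBounded.subset_closedBall 0
  have hR' : ∀ y, R < ‖y‖ → ρ y = 0 := by
    intro y hy
    by_contra h
    have := hR (subset_tsupport _ h)
    rw [Metric.mem_closedBall, dist_zero_right] at this
    linarith
  set B := Metric.closedBall (0 : ℝ × ℝ) (R + ‖z‖ + 3) with hB
  set ut := B.indicator u with hut
  have hBm : MeasurableSet B := Metric.isClosed_closedBall.measurableSet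
  have huti : Integrable ut := by
    rw [hut, integrable_indicator_iff hBm]
    exact hu.integrableOn_isCompact (isCompact_closedBall _ _)
  have hRwn : ∀ w ∈ Rw, ‖w‖ ≤ 3 := by
    intro w hw
    rw [Prod.norm_def, max_le_iff, Real.norm_eq_abs, Real.norm_eq_abs, abs_le, abs_le]
    refine ⟨⟨by linarith [hw.1.1], hw.1.2⟩, by linarith [hw.2.1], by linarith [hw.2.2]⟩
  have hRi : Integrable (fun w => Rw.indicator (fun _ => (1 : ℝ)) w) := by
    rw [integrable_indicator_iff measurableSet_Rw]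
    exact integrableOn_const (isCompact_Icc.prod isCompact_Icc).measure_ne_top
  -- key identity
  have key : ∀ v w, ρ (z - v) * Rw.indicator (fun _ => (1 : ℝ)) w * u (v - w) =
      ρ (z - v) * Rw.indicator (fun _ => (1 : ℝ)) w * ut (v - w) := by
    intro v w
    by_cases hw : w ∈ Rw
    · by_cases hv : R < ‖z - v‖
      · rw [hR' _ hv]; ring
      · have : v - w ∈ B := by
          rw [hB, Metric.mem_closedBall, dist_zero_right]
          have h1 : ‖v - w‖ ≤ ‖v‖ + ‖w‖ := norm_sub_le _ _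
          have h2 : ‖v‖ ≤ ‖z - v‖ + ‖z‖ := by
            have : v = z - (z - v) := by abel
            calc ‖v‖ = ‖z - (z - v)‖ := by rw [← this]
              _ ≤ ‖z‖ + ‖z - v‖ := norm_sub_le _ _
              _ = _ := by ring
          have := hRwn w hw
          push Not at hv
          linarith
        rw [hut, indicator_of_mem this]
    · rw [indicator_of_notMem hw]; ring
  have hint : Integrable (fun q : (ℝ × ℝ) × (ℝ × ℝ) =>
      ρ (z - q.2) * Rw.indicator (fun _ => (1 : ℝ)) q.1 * u (q.2 - q.1)) (volume.prod volume) := by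
    have h1 := (hRi.convolution_integrand (ContinuousLinearMap.mul ℝ ℝ) huti).swap
    have h2 : Integrable (fun q : (ℝ × ℝ) × (ℝ × ℝ) =>
        ρ (z - q.2) * (Rw.indicator (fun _ => (1 : ℝ)) q.1 * ut (q.2 - q.1))) (volume.prod volume) := by
      refine Integrable.bdd_mul (c := C) ?_ ?_ (Eventually.of_forall fun q => hC _)
      · exact h1
      · exact (hρ.comp (continuous_const.sub continuous_snd)).aestronglyMeasurable
    refine h2.congr (Eventually.of_forall fun q => ?_)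
    simp only
    rw [key, mul_assoc]
  have e1 : ∫ w in Rw, cv ρ u (z - w) =
      ∫ w, ∫ v, ρ (z - v) * Rw.indicator (fun _ => (1 : ℝ)) w * u (v - w) := by
    rw [← integral_indicator measurableSet_Rw]
    congr 1; ext w
    by_cases hw : w ∈ Rw
    · rw [indicator_of_mem hw, indicator_of_mem hw, cv,
        ← integral_sub_right_eq_self (fun y => ρ (z - w - y) * u y) w]
      congr 1; ext v
      rw [mul_one]
      congr 2
      abel
    · rw [indicator_of_notMem hw, indicator_of_notMem hw]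
      simp
  rw [e1, integral_integral_swap (f := fun w v =>
    ρ (z - v) * Rw.indicator (fun _ => (1 : ℝ)) w * u (v - w)) hint, cv]
  congr 1; ext v
  rw [jw, ← integral_const_mul, ← integral_indicator measurableSet_Rw]
  congr 1; ext w
  by_cases hw : w ∈ Rw
  · rw [indicator_of_mem hw, indicator_of_mem hw]; ring
  · rw [indicator_of_notMem hw, indicator_of_notMem hw]; ring

lemma locInt_jw {u : ℝ × ℝ → ℝ} (hu : LocallyIntegrable u) : LocallyIntegrable (jw u) := by
  rw [locallyIntegrable_iff]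
  intro K hK
  obtain ⟨R, hR⟩ := hK.isBounded.subset_closedBall 0
  set B := Metric.closedBall (0 : ℝ × ℝ) (R + 3) with hB
  set ut := B.indicator u with hut
  have hBm : MeasurableSet B := Metric.isClosed_closedBall.measurableSet
  have huti : Integrable ut := by
    rw [hut, integrable_indicator_iff hBm]
    exact hu.integrableOn_isCompact (isCompact_closedBall _ _)
  have hRwn : ∀ w ∈ Rw, ‖w‖ ≤ 3 := by
    intro w hw
    rw [Prod.norm_def, max_le_iff, Real.norm_eq_abs, Real.norm_eq_abs, abs_le, abs_le]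
    refine ⟨⟨by linarith [hw.1.1], hw.1.2⟩, by linarith [hw.2.1], by linarith [hw.2.2]⟩
  have hRi : Integrable (fun w => Rw.indicator (fun _ => (1 : ℝ)) w) := by
    rw [integrable_indicator_iff measurableSet_Rw]
    exact integrableOn_const (isCompact_Icc.prod isCompact_Icc).measure_ne_top
  have h1 := (hRi.convolution_integrand (ContinuousLinearMap.mul ℝ ℝ) huti).integral_prod_left
  refine h1.integrableOn.congr_fun_ae ?_
  refine (ae_restrict_iff' hK.measurableSet).mpr (Eventually.of_forall fun x hx => ?_)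
  simp only [ContinuousLinearMap.mul_apply']
  rw [jw, ← integral_indicator measurableSet_Rw]
  congr 1; ext w
  by_cases hw : w ∈ Rw
  · rw [indicator_of_mem hw, indicator_of_mem hw, one_mul, hut, indicator_of_mem]
    rw [hB, Metric.mem_closedBall, dist_zero_right]
    have h1 : ‖x - w‖ ≤ ‖x‖ + ‖w‖ := norm_sub_le _ _
    have h2 := hR hx
    rw [Metric.mem_closedBall, dist_zero_right] at h2
    have := hRwn w hw
    linarith
  · rw [indicator_of_notMem hw, indicator_of_notMem hw, zero_mul]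

section sol

variable {n : ℕ} {l : ℝ} {N : ℕ} {p : Fin N → ℝ × ℝ} {u : ℝ × ℝ → ℝ}

/-- pointwise bound of a solution by its window averages -/
lemma Sol.ae_bound (hn : 1 ≤ n) (hl : 0 < l) (h : Sol n l p u) :
    ∀ᵐ z, u z ≤ (1 / 40 * Vw u (3 / 4) z.2 + l / 4 * Cb) / (4 * Real.pi) := by
  apply ae_le_of_mollify h.loc
  intro ρ hρ z
  have h1 := h.mean_value hn hl ρ z
  rw [window_cv ρ.continuous_normed ρ.hasCompactSupport_normed h.loc] at h1
  have h2 : cv (ρ.normed volume) (jw u) z ≤ Vw u (3 / 4) z.2 := by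
    apply cv_le_of (locInt_jw h.loc)
    refine Eventually.of_forall fun y hy => ?_
    apply jw_le h.per h.loc (h.nonpos hn hl)
    have h3 : |(z - y).2| ≤ ‖z - y‖ := norm_snd_le (z - y)
    rw [Prod.snd_sub] at h3
    rw [abs_sub_comm]
    linarith
  rw [le_div_iff₀ (by positivity)]
  nlinarith

/-- bound of the mollified energy density -/
lemma Sol.density_bound (hn : 1 ≤ n) (hl : 0 < l) (h : Sol n l p u) (ρ : ContDiffBump (0 : ℝ × ℝ))
    (hρ : ρ.rOut ≤ 1 / 4) (x : ℝ × ℝ) :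
    cv (ρ.normed volume) (fun z => - Ff (u z)) x ≤
      Real.exp ((1 / 40 * Vw u (1 / 2) x.2 + l / 4 * Cb) / (4 * Real.pi)) := by
  apply cv_le_of h.locF.neg
  filter_upwards [h.ae_bound hn hl] with y hy hxy
  have h1 : - Ff (u y) ≤ Real.exp (u y) := by
    unfold Ff; nlinarith [Real.exp_pos (u y), sq_nonneg (Real.exp (u y))]
  refine h1.trans (Real.exp_le_exp.mpr (hy.trans ?_))
  apply div_le_div_of_nonneg_right _ (by positivity)
  have h2 : Vw u (3 / 4) y.2 ≤ Vw u (1 / 2) x.2 := by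
    apply Vw_anti h.loc (h.nonpos hn hl)
    have h3 : |(x - y).2| ≤ ‖x - y‖ := norm_snd_le (x - y)
    rw [Prod.snd_sub] at h3
    linarith
  linarith

lemma three_windows {u : ℝ × ℝ → ℝ} (hper : ∀ a z, u (z + lt n a) = u z)
    (hu : LocallyIntegrable u) (c d : ℝ) :
    ∫ z in Ico (-1 : ℝ) 2 ×ˢ Icc c d, u z = 3 * ∫ z in Ico (0 : ℝ) 1 ×ˢ Icc c d, u z := by
  have hm : ∀ a b : ℝ, MeasurableSet (Ico a b ×ˢ Icc c d) := fun a b =>
    measurableSet_Ico.prod measurableSet_Icc
  have hi : ∀ a b : ℝ, IntegrableOn u (Ico a b ×ˢ Icc c d) := fun a b =>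
    locInt_bounded hu (bounded_box' _ _ _ _)
  have split : ∀ a b e : ℝ, a ≤ b → b ≤ e → ∫ z in Ico a e ×ˢ Icc c d, u z =
      (∫ z in Ico a b ×ˢ Icc c d, u z) + ∫ z in Ico b e ×ˢ Icc c d, u z := by
    intro a b e hab hbe
    rw [← Ico_union_Ico_eq_Ico hab hbe, union_prod]
    apply setIntegral_union _ (hm b e) (hi a b) (hi b e)
    rw [Set.disjoint_left]
    rintro z ⟨h1, _⟩ ⟨h2, _⟩
    linarith [h1.2, h2.1]
  rw [split (-1) 0 2 (by norm_num) (by norm_num), split 0 1 2 (by norm_num) (by norm_num)]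
  have e1 := window_shift hper (-1) c d
  have e2 := window_shift hper 1 c d
  norm_num at e1 e2
  rw [e1, e2]
  ring

lemma Sol.cv_lower (hn : 1 ≤ n) (hl : 0 < l) (h : Sol n l p u) (ρ : ContDiffBump (0 : ℝ × ℝ))
    (hρ : ρ.rOut ≤ 1 / 4) {m0 : ℝ} (hm0 : ∀ z, ρ.normed volume z ≤ m0) {x y : ℝ}
    (hx : x ∈ Icc (0 : ℝ) 1) :
    3 * m0 * Vw u (1 / 2) y ≤ cv (ρ.normed volume) u (x, y) := by
  have hneg := h.nonpos hn hl
  have hm : MeasurableSet (Ico (-1 : ℝ) 2 ×ˢ Icc (y - 1 / 2) (y + 1 / 2)) :=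
    measurableSet_Ico.prod measurableSet_Icc
  have e1 : 3 * m0 * Vw u (1 / 2) y =
      ∫ z, (Ico (-1 : ℝ) 2 ×ˢ Icc (y - 1 / 2) (y + 1 / 2)).indicator (fun z => m0 * u z) z := by
    rw [integral_indicator hm, integral_const_mul, three_windows h.per h.loc, Vw]
    ring
  rw [e1, cv]
  apply integral_mono_ae
  · rw [integrable_indicator_iff hm]
    exact (locInt_bounded h.loc (bounded_box' _ _ _ _)).const_mul m0
  · exact cv_integrand ρ.continuous_normed ρ.hasCompactSupport_normed h.loc _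
  · filter_upwards [hneg] with z hz
    by_cases hzT : z ∈ Ico (-1 : ℝ) 2 ×ˢ Icc (y - 1 / 2) (y + 1 / 2)
    · rw [indicator_of_mem hzT]
      exact mul_le_mul_of_nonpos_right (hm0 _) hz
    · rw [indicator_of_notMem hzT]
      have : ρ.normed volume ((x, y) - z) = 0 := by
        by_contra h0
        have h1 : (x, y) - z ∈ Function.support (ρ.normed volume) := h0
        rw [ρ.support_normed_eq, Metric.mem_ball, dist_zero_right, Prod.norm_def,
          max_lt_iff, Real.norm_eq_abs, Real.norm_eq_abs, abs_lt, abs_lt] at h1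
        simp only [Prod.fst_sub, Prod.snd_sub] at h1
        apply hzT
        refine ⟨⟨?_, ?_⟩, ⟨?_, ?_⟩⟩ <;> linarith [h1.1.1, h1.1.2, h1.2.1, h1.2.2, hx.1, hx.2]
      rw [this, zero_mul]

end sol

end Pool.Agent.Helper676.CS
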