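import Pool.Agent.Helper676.CS13

set_option autoImplicit false
set_option linter.unusedSectionVars false

namespace Pool.Agent.Helper676.CS

open MeasureTheory Filter Topology Set

/-! ### A one-dimensional lemma -/

lemma slope_lower {g g' : ℝ → ℝ} {s t c : ℝ} (hst : s ≤ t)
    (hg : ∀ y ∈ Icc s t, HasDerivAt g (g' y) y) (hc : ∀ y ∈ Icc s t, c ≤ g' y) :
    c * (t - s) ≤ g t - g s := by
  apply (convex_Icc s t).mul_sub_le_image_sub_of_le_deriv
    (fun y hy => (hg y hy).continuousAt.continuousWithinAt)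
    (fun y hy => (hg y (interior_subset hy)).differentiableAt.differentiableWithinAt)
    (fun y hy => by rw [(hg y (interior_subset hy)).deriv]; exact hc y (interior_subset hy))
    s (left_mem_Icc.mpr hst) t (right_mem_Icc.mpr hst) hst

lemma calc_core {P D H : ℝ → ℝ} {a b l m E : ℝ} (hl : 0 < l) (hm : 0 < m) (hE : 0 ≤ E)
    (hab : a ≤ b) (hP : ∀ y ∈ Icc a b, HasDerivAt P (D y) y)
    (hD : ∀ y ∈ Icc a b, HasDerivAt D (-l * H y) y) (H0 : ∀ y ∈ Icc a b, 0 ≤ H y)
    (H1 : ∀ y ∈ Icc a b, H y ≤ 1 / 4) (HE : ∀ y ∈ Icc a b, P y ≤ -m → H y ≤ E)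
    (hPn : ∀ y ∈ Icc a b, P y ≤ 0) :
    D a ≤ m + (l * (b - a) * E + l / 4) ∨ D a - D b ≤ l * (b - a) * E + l / 4 := by
  have hanti : ∀ s t, a ≤ s → s ≤ t → t ≤ b → D t ≤ D s := by
    intro s t has hst htb
    have := slope_lower (g := fun y => - D y) (g' := fun y => l * H y) (c := 0) hst
      (fun y hy => by
        have := (hD y ⟨has.trans hy.1, hy.2.trans htb⟩).neg
        refine this.congr_deriv ?_
        ring)
      (fun y hy => mul_nonneg hl.le (H0 y ⟨has.trans hy.1, hy.2.trans htb⟩))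
    linarith
  have hslope : ∀ s t c, a ≤ s → s ≤ t → t ≤ b → (∀ y ∈ Icc s t, H y ≤ c) →
      D s - D t ≤ l * c * (t - s) := by
    intro s t c has hst htb hc
    have := slope_lower (g := D) (g' := fun y => -l * H y) (c := -l * c) hst
      (fun y hy => hD y ⟨has.trans hy.1, hy.2.trans htb⟩)
      (fun y hy => by
        have := mul_le_mul_of_nonneg_left (hc y hy) hl.le
        linarith)
    linarith
  have key : ∀ y ∈ Icc a b, m ≤ D y → D a - D y ≤ l * (b - a) * E + l / 4 := by
    intro y hy hmy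
    rcases le_total (y - 1) a with h | h
    · have h1 := hslope a y (1 / 4) le_rfl hy.1 hy.2 (fun t ht => H1 t ⟨ht.1, ht.2.trans hy.2⟩)
      have h2 : l * (1 / 4) * (y - a) ≤ l / 4 := by nlinarith
      have h3 : 0 ≤ l * (b - a) * E := by
        have : 0 ≤ b - a := by linarith
        positivity
      linarith
    · have h1 := hslope (y - 1) y (1 / 4) h (by linarith) hy.2
        (fun t ht => H1 t ⟨h.trans ht.1, ht.2.trans hy.2⟩)
      have h2 := hslope a (y - 1) E le_rfl h (by linarith [hy.2]) (fun t ht => by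
        apply HE t ⟨ht.1, by linarith [ht.2, hy.2]⟩
        have h3 := slope_lower (g := P) (g' := D) (c := m) (s := t) (t := y) (by linarith [ht.2])
          (fun w hw => hP w ⟨ht.1.trans hw.1, hw.2.trans hy.2⟩)
          (fun w hw => hmy.trans (hanti w y (ht.1.trans hw.1) hw.2 hy.2))
        have h4 := hPn y hy
        have h5 : m * 1 ≤ m * (y - t) := mul_le_mul_of_nonneg_left (by linarith [ht.2]) hm.le
        linarith)
      have h3 : l * E * (y - 1 - a) ≤ l * E * (b - a) :=
        mul_le_mul_of_nonneg_left (by linarith [hy.2]) (by positivity)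
      nlinarith
  rcases le_or_gt m (D b) with h | h
  · right
    exact key b (right_mem_Icc.mpr hab) h
  · rcases le_or_gt (D a) m with h' | h'
    · left
      have h3 : 0 ≤ l * (b - a) * E := by
        have : 0 ≤ b - a := by linarith
        positivity
      linarith
    · left
      have hcont : ContinuousOn D (Icc a b) := fun y hy => (hD y hy).continuousAt.continuousWithinAt
      obtain ⟨y, hy, hyD⟩ := intermediate_value_Icc' hab hcont ⟨h.le, h'.le⟩
      have := key y hy hyD.ge
      linarith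

/-! ### Reduction to one dimension -/

/-- average over one period in `x` -/
noncomputable def Pf (W : ℝ × ℝ → ℝ) (y : ℝ) : ℝ := ∫ x in (0 : ℝ)..1, W (x, y)

lemma Pf_hasDerivAt {W : ℝ × ℝ → ℝ} (hW : ContDiff ℝ 1 W) (y : ℝ) :
    HasDerivAt (Pf W) (Pf (dd (0, 1) W) y) y := by
  have hdc : Continuous (dd (0, 1) W) :=
    (hW.continuous_fderiv (by norm_num)).clm_apply continuous_const
  have hline : ∀ x t : ℝ, HasDerivAt (fun t : ℝ => W (x, t)) (dd (0, 1) W (x, t)) t := by
    intro x t
    have h1 : HasDerivAt (fun t : ℝ => ((x, t) : ℝ × ℝ)) (0, 1) t :=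
      (hasDerivAt_const t x).prodMk (hasDerivAt_id t)
    exact ((hW.differentiable (by norm_num)) (x, t)).hasFDerivAt.comp_hasDerivAt t h1
  obtain ⟨C, hC⟩ := ((isCompact_Icc (a := (0 : ℝ)) (b := 1)).prod
    (isCompact_Icc (a := y - 1) (b := y + 1))).exists_bound_of_continuousOn hdc.continuousOn
  have key := intervalIntegral.hasDerivAt_integral_of_dominated_loc_of_deriv_le
    (μ := volume) (F := fun t x => W (x, t)) (F' := fun t x => dd (0, 1) W (x, t)) (x₀ := y)
    (a := 0) (b := 1) (s := Icc (y - 1) (y + 1)) (bound := fun _ => C)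
    (Icc_mem_nhds (by linarith) (by linarith)) ?_ ?_ ?_ ?_ ?_ ?_
  · exact key.2
  · refine Eventually.of_forall fun t => ?_
    exact (hW.continuous.comp (continuous_id.prodMk continuous_const)).aestronglyMeasurable
  · exact (hW.continuous.comp (continuous_id.prodMk continuous_const)).intervalIntegrable _ _
  · exact (hdc.comp (continuous_id.prodMk continuous_const)).aestronglyMeasurable
  · refine Eventually.of_forall fun x hx t ht => ?_
    rw [uIoc_of_le zero_le_one] at hx
    exact hC (x, t) ⟨Ioc_subset_Icc_self hx, ht⟩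
  · exact intervalIntegrable_const
  · exact Eventually.of_forall fun x _ t _ => hline x t

lemma Pf_continuous {W : ℝ × ℝ → ℝ} (hW : Continuous W) : Continuous (Pf W) := by
  unfold Pf
  apply intervalIntegral.continuous_parametric_intervalIntegral_of_continuous'
  exact hW.comp (continuous_snd.prodMk continuous_fst)

lemma Pf_xx {n : ℕ} {W : ℝ × ℝ → ℝ} (hW : ContDiff ℝ (⊤ : ℕ∞) W)
    (hper : ∀ a z, W (z + lt n a) = W z) (y : ℝ) : Pf (dd (1, 0) (dd (1, 0) W)) y = 0 := by
  set g := dd (1, 0) W with hg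
  have hgs : ContDiff ℝ (⊤ : ℕ∞) g := contDiff_dd_infty hW _
  have hline : ∀ x : ℝ, HasDerivAt (fun x : ℝ => g (x, y)) (dd (1, 0) g (x, y)) x := by
    intro x
    have h1 : HasDerivAt (fun x : ℝ => ((x, y) : ℝ × ℝ)) (1, 0) x :=
      (hasDerivAt_id x).prodMk (hasDerivAt_const x y)
    exact ((hgs.differentiable (by simp)) (x, y)).hasFDerivAt.comp_hasDerivAt x h1
  have hc : Continuous (dd (1, 0) g) := (contDiff_dd_infty hgs (1, 0)).continuous
  have h1 := intervalIntegral.integral_eq_sub_of_hasDerivAt (a := 0) (b := 1)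
    (f := fun x => g (x, y)) (f' := fun x => dd (1, 0) g (x, y)) (fun x _ => hline x)
    ((hc.comp (continuous_id.prodMk continuous_const)).intervalIntegrable _ _)
  rw [Pf, h1]
  have h2 : (fun z => W (z - (- lt n (1, 0)))) = W := by
    ext z; rw [sub_neg_eq_add, hper]
  have h3 := dd_translate (f := W) (- lt n (1, 0)) (1, 0)
  rw [h2] at h3
  have h4 := congrFun h3 (0, y)
  have h5 : ((0 : ℝ), y) - (- lt n (1, 0)) = (1, y) := by
    unfold lt; ext <;> simp
  rw [h5] at h4
  rw [← hg] at h4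
  linarith

lemma Pf_lap {n : ℕ} {W : ℝ × ℝ → ℝ} (hW : ContDiff ℝ (⊤ : ℕ∞) W)
    (hper : ∀ a z, W (z + lt n a) = W z) (y : ℝ) :
    Pf (dd (0, 1) (dd (0, 1) W)) y = Pf (lap W) y := by
  have c1 : Continuous (dd (1, 0) (dd (1, 0) W)) :=
    (contDiff_dd_infty (contDiff_dd_infty hW (1, 0)) (1, 0)).continuous
  have c2 : Continuous (dd (0, 1) (dd (0, 1) W)) :=
    (contDiff_dd_infty (contDiff_dd_infty hW (0, 1)) (0, 1)).continuous
  have h1 : Pf (lap W) y = Pf (dd (1, 0) (dd (1, 0) W)) y + Pf (dd (0, 1) (dd (0, 1) W)) y := by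
    have i1 : IntervalIntegrable (fun x : ℝ => dd (1, 0) (dd (1, 0) W) (x, y)) volume 0 1 :=
      (c1.comp (continuous_id.prodMk continuous_const)).intervalIntegrable _ _
    have i2 : IntervalIntegrable (fun x : ℝ => dd (0, 1) (dd (0, 1) W) (x, y)) volume 0 1 :=
      (c2.comp (continuous_id.prodMk continuous_const)).intervalIntegrable _ _
    unfold Pf
    rw [← intervalIntegral.integral_add i1 i2]
    rfl
  rw [h1, Pf_xx hW hper, zero_add]

lemma dd_periodic {n : ℕ} {W : ℝ × ℝ → ℝ} (hper : ∀ a z, W (z + lt n a) = W z) (e : ℝ × ℝ)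
    (a : ℤ × ℤ) (z : ℝ × ℝ) : dd e W (z + lt n a) = dd e W z := by
  have h2 : (fun z => W (z - (- lt n a))) = W := by
    ext z; rw [sub_neg_eq_add, hper]
  have h3 := dd_translate (f := W) (- lt n a) e
  rw [h2] at h3
  have h4 := congrFun h3 z
  rw [sub_neg_eq_add] at h4
  exact h4.symm

lemma Pf_periodic {n : ℕ} {W : ℝ × ℝ → ℝ} (hper : ∀ a z, W (z + lt n a) = W z) (y : ℝ) :
    Pf W (y + n) = Pf W y := by
  unfold Pf
  congr 1; ext x
  have := hper (0, 1) (x, y)
  rw [← this]
  congr 1
  unfold lt; ext <;> simp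

/-- Fubini on the cell -/
lemma integral_cell {n : ℕ} {F : ℝ × ℝ → ℝ} (hF : Continuous F) :
    ∫ y in (0 : ℝ)..n, Pf F y = ∫ z in Qc n, F z := by
  have hn0 : (0 : ℝ) ≤ n := by positivity
  have hi : IntegrableOn F (Qc n) :=
    (hF.continuousOn.integrableOn_compact (isCompact_Icc.prod isCompact_Icc)).mono_set
      (Set.prod_mono Ico_subset_Icc_self Ico_subset_Icc_self)
  rw [IntegrableOn, Qc, Measure.volume_eq_prod, ← Measure.prod_restrict] at hi
  rw [Qc, Measure.volume_eq_prod, ← Measure.prod_restrict, integral_prod_symm _ hi,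
    intervalIntegral.integral_of_le hn0, ← restrict_Ico_eq_restrict_Ioc]
  congr 1; ext y
  rw [Pf, intervalIntegral.integral_of_le zero_le_one, restrict_Ico_eq_restrict_Ioc]

end Pool.Agent.Helper676.CS
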