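import Pool.Agent.Helper676.CS14

set_option autoImplicit false
set_option linter.unusedSectionVars false

namespace Pool.Agent.Helper676.CS

open MeasureTheory Filter Topology Set

section sol

variable {n : ℕ} {l : ℝ} {N : ℕ} {p : Fin N → ℝ × ℝ} {u : ℝ × ℝ → ℝ}

lemma cv_neg_right (ρ u : ℝ × ℝ → ℝ) (x : ℝ × ℝ) : cv ρ (fun z => - u z) x = - cv ρ u x := by
  unfold cv
  rw [← integral_neg]
  congr 1; ext y; ring

lemma vort_eq (ρ : ℝ × ℝ → ℝ) (x : ℝ × ℝ) :
    ∑ j, ∑' a, ρ (x - (p j + lt n a)) = ∑ j, per n (fun z => ρ (z - p j)) x := by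
  refine Finset.sum_congr rfl fun j _ => ?_
  rw [per]
  congr 1; ext a
  congr 1; abel

/-- conservation of flux: `λ ∫ e^u(1-e^u) = 4πN` for the mollified density -/
lemma Sol.flux (hn : 1 ≤ n) (h : Sol n l p u) (ρ : ContDiffBump (0 : ℝ × ℝ)) :
    l * (∫ y in (0 : ℝ)..n, Pf (cv (ρ.normed volume) (fun z => - Ff (u z))) y) =
      4 * Real.pi * N := by
  set W := cv (ρ.normed volume) u with hW
  set f := cv (ρ.normed volume) (fun z => - Ff (u z)) with hf
  have hWs : ContDiff ℝ (⊤ : ℕ∞) W :=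
    cv_contDiff ρ.contDiff_normed ρ.hasCompactSupport_normed h.loc
  have hfs : ContDiff ℝ (⊤ : ℕ∞) f :=
    cv_contDiff ρ.contDiff_normed ρ.hasCompactSupport_normed h.locF.neg
  have hWper : ∀ a z, W (z + lt n a) = W z := fun a z => cv_periodic (h.per a) z
  have hD1 : ContDiff ℝ (⊤ : ℕ∞) (dd (0, 1) W) := contDiff_dd_infty hWs _
  have hlapc : Continuous (lap W) := (contDiff_lap_infty hWs).continuous
  -- total flux of the Laplacian vanishes
  have h1 : ∫ y in (0 : ℝ)..n, Pf (lap W) y = 0 := by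
    have h2 := intervalIntegral.integral_eq_sub_of_hasDerivAt (a := 0) (b := n)
      (f := Pf (dd (0, 1) W)) (f' := Pf (lap W)) (fun y _ => by
        rw [← Pf_lap hWs hWper]
        exact Pf_hasDerivAt (hD1.of_le (by simp)) y)
      ((Pf_continuous hlapc).intervalIntegrable _ _)
    rw [h2]
    have h3 := Pf_periodic (n := n) (W := dd (0, 1) W) (dd_periodic hWper (0, 1)) 0
    rw [zero_add] at h3
    rw [h3, sub_self]
  rw [integral_cell hlapc] at h1
  rw [integral_cell hfs.continuous]
  have hbox : Bornology.IsBounded (Qc n) :=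
    (bounded_box 0 1 0 n).subset (Set.prod_mono Ico_subset_Icc_self Ico_subset_Icc_self)
  have hpi : ∀ j, Integrable (fun z => ρ.normed volume (z - p j)) := fun j =>
    ρ.integrable_normed.comp_sub_right (p j)
  have hper : ∀ j, IntegrableOn (CS.per n (fun z => ρ.normed volume (z - p j))) (Qc n) := by
    intro j
    refine locInt_bounded (locInt_per hn (hpi j) (r := ρ.rOut + ‖p j‖) ?_) hbox
    intro z hz
    by_contra h0
    have h1 : z - p j ∈ Function.support (ρ.normed volume) := h0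
    rw [ρ.support_normed_eq, Metric.mem_ball, dist_zero_right] at h1
    have h2 : ‖z‖ ≤ ‖z - p j‖ + ‖p j‖ := by
      have : z = (z - p j) + p j := by abel
      calc ‖z‖ = ‖(z - p j) + p j‖ := by rw [← this]
        _ ≤ _ := norm_add_le _ _
    linarith
  have e1 : ∀ x, lap W x = -l * f x + 4 * Real.pi *
      ∑ j, CS.per n (fun z => ρ.normed volume (z - p j)) x := by
    intro x
    rw [h.lap_cv ρ.contDiff_normed ρ.hasCompactSupport_normed, vort_eq, hf, cv_neg_right]
    ring
  have i1 : IntegrableOn (fun x => -l * f x) (Qc n) :=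
    ((locInt_bounded hfs.continuous.locallyIntegrable hbox).const_mul _)
  have i2 : IntegrableOn (fun x => 4 * Real.pi *
      ∑ j, CS.per n (fun z => ρ.normed volume (z - p j)) x) (Qc n) :=
    (integrable_finsetSum _ fun j _ => hper j).const_mul _
  simp_rw [e1] at h1
  rw [integral_add i1 i2, integral_const_mul, integral_const_mul,
    integral_finsetSum _ (fun j _ => hper j)] at h1
  have e2 : ∀ j, ∫ x in Qc n, CS.per n (fun z => ρ.normed volume (z - p j)) x = 1 := by
    intro j
    rw [integral_per hn (hpi j), integral_sub_right_eq_self (ρ.normed volume) (p j),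
      ρ.integral_normed]
  simp_rw [e2] at h1
  simp at h1
  linarith

lemma Sol.density_nonneg (hn : 1 ≤ n) (hl : 0 < l) (h : Sol n l p u)
    (ρ : ContDiffBump (0 : ℝ × ℝ)) (x : ℝ × ℝ) :
    0 ≤ cv (ρ.normed volume) (fun z => - Ff (u z)) x := by
  apply cv_nonneg_of (fun z => ρ.nonneg_normed z)
  filter_upwards [h.nonpos hn hl] with z hz
  have := Ff_nonpos hz
  linarith

lemma Sol.density_le (h : Sol n l p u)
    (ρ : ContDiffBump (0 : ℝ × ℝ)) (x : ℝ × ℝ) :
    cv (ρ.normed volume) (fun z => - Ff (u z)) x ≤ 1 / 4 := by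
  apply cv_le_of h.locF.neg
  refine Eventually.of_forall fun y _ => ?_
  have := Ff_ge' (u y)
  simp only [Pi.neg_apply]
  linarith

lemma Pf_mono {F G : ℝ × ℝ → ℝ} (hF : Continuous F) (hG : Continuous G) {y : ℝ}
    (h : ∀ x ∈ Icc (0 : ℝ) 1, F (x, y) ≤ G (x, y)) : Pf F y ≤ Pf G y := by
  unfold Pf
  apply intervalIntegral.integral_mono_on zero_le_one
    ((hF.comp (continuous_id.prodMk continuous_const)).intervalIntegrable _ _)
    ((hG.comp (continuous_id.prodMk continuous_const)).intervalIntegrable _ _)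
  exact h

lemma Pf_const (c : ℝ) (y : ℝ) : Pf (fun _ => c) y = c := by
  unfold Pf; simp

/-- the necessary condition `λ |Ω| / 4 ≥ 4πN` -/
lemma Sol.necessary (hn : 1 ≤ n) (hl : 0 < l) (h : Sol n l p u) :
    16 * Real.pi * N ≤ l * n := by
  let ρ : ContDiffBump (0 : ℝ × ℝ) := ⟨1 / 8, 1 / 4, by norm_num, by norm_num⟩
  have hf := h.flux hn ρ
  have hfs : ContDiff ℝ (⊤ : ℕ∞) (cv (ρ.normed volume) (fun z => - Ff (u z))) :=
    cv_contDiff ρ.contDiff_normed ρ.hasCompactSupport_normed h.locF.neg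
  have h1 : ∫ y in (0 : ℝ)..n, Pf (cv (ρ.normed volume) (fun z => - Ff (u z))) y ≤
      ∫ _ in (0 : ℝ)..n, (1 / 4 : ℝ) := by
    apply intervalIntegral.integral_mono_on (by positivity)
      ((Pf_continuous hfs.continuous).intervalIntegrable _ _) intervalIntegrable_const
    intro y _
    rw [← Pf_const (1 / 4) y]
    exact Pf_mono hfs.continuous continuous_const fun x _ => h.density_le ρ _
  rw [intervalIntegral.integral_const, sub_zero, smul_eq_mul] at h1
  have h2 := mul_le_mul_of_nonneg_left h1 hl.le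
  rw [hf] at h2
  linarith

end sol

/-- For a single vortex of multiplicity `n` on the torus with periods `(1,0)`, `(0,n)` there is no
solution with `λ ≤ Λ` once `n` is large. -/
theorem nonexist (L : ℝ) (hL : 0 < L) : ∃ n0 : ℕ, 1 ≤ n0 ∧ ∀ n : ℕ, n0 ≤ n → ∀ l : ℝ, 0 < l → l ≤ L →
    ∀ u : ℝ × ℝ → ℝ, ¬ Sol n l (N := n) (fun _ => 0) u := by
  let ρ : ContDiffBump (0 : ℝ × ℝ) := ⟨1 / 8, 1 / 4, by norm_num, by norm_num⟩
  have hρOut : ρ.rOut = 1 / 4 := rfl
  obtain ⟨m0', hm0'⟩ := ρ.hasCompactSupport_normed (μ := (volume : Measure (ℝ × ℝ))).exists_bound_of_continuous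
    ρ.continuous_normed
  set m0 : ℝ := max m0' 1 with hm0def
  have hm0pos : 0 < m0 := lt_of_lt_of_le one_pos (le_max_right _ _)
  have hm0 : ∀ z, ρ.normed volume z ≤ m0 := fun z =>
    (le_abs_self _).trans ((hm0' z).trans (le_max_left _ _))
  set c1 : ℝ := 1 / (480 * Real.pi * m0) with hc1
  have hc1p : 0 < c1 := by positivity
  set C1 : ℝ := L * Cb / (16 * Real.pi) with hC1
  have hC1n : 0 ≤ C1 := by have := Cb_nonneg; positivity
  -- eventually the numerical inequality holds
  have hlim : Tendsto (fun n : ℕ => L * n * Real.exp (-c1 * n + C1)) atTop (𝓝 0) := by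
    have h1 : Tendsto (fun x : ℝ => x * Real.exp (-c1 * x)) atTop (𝓝 0) := by
      have h2 := (Real.tendsto_pow_mul_exp_neg_atTop_nhds_zero 1).comp
        (tendsto_id.const_mul_atTop hc1p)
      have h3 := h2.const_mul c1⁻¹
      rw [mul_zero] at h3
      refine h3.congr fun x => ?_
      simp only [Function.comp_apply, id, pow_one]
      rw [show -(c1 * x) = -c1 * x by ring]
      field_simp
    have h4 := (h1.comp tendsto_natCast_atTop_atTop).const_mul (L * Real.exp C1)
    rw [mul_zero] at h4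
    refine h4.congr fun n => ?_
    simp only [Function.comp_apply]
    rw [Real.exp_add]; ring
  have hev : ∀ᶠ n : ℕ in atTop, L * n * Real.exp (-c1 * n + C1) ≤ 1 := by
    filter_upwards [hlim.eventually (gt_mem_nhds one_pos)] with n hn using hn.le
  have hev2 : ∀ᶠ n : ℕ in atTop, L + 1 ≤ n :=
    tendsto_natCast_atTop_atTop.eventually_ge_atTop (L + 1)
  obtain ⟨n0, hn0⟩ := eventually_atTop.mp (hev.and hev2)
  refine ⟨max n0 1, le_max_right _ _, ?_⟩
  intro n hn l hl hlL u h
  have hn1 : 1 ≤ n := (le_max_right _ _).trans hn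
  obtain ⟨hnum, hnL⟩ := hn0 n ((le_max_left _ _).trans hn)
  have hnr : (1 : ℝ) ≤ n := by exact_mod_cast hn1
  set W := cv (ρ.normed volume) u with hW
  set f := cv (ρ.normed volume) (fun z => - Ff (u z)) with hf
  have hWs : ContDiff ℝ (⊤ : ℕ∞) W :=
    cv_contDiff ρ.contDiff_normed ρ.hasCompactSupport_normed h.loc
  have hfs : ContDiff ℝ (⊤ : ℕ∞) f :=
    cv_contDiff ρ.contDiff_normed ρ.hasCompactSupport_normed h.locF.neg
  have hWper : ∀ a z, W (z + lt n a) = W z := fun a z => cv_periodic (h.per a) z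
  have hD1 : ContDiff ℝ (⊤ : ℕ∞) (dd (0, 1) W) := contDiff_dd_infty hWs _
  have hWn : ∀ x, W x ≤ 0 := cv_nonpos_of (fun x => ρ.nonneg_normed x) (h.nonpos hn1 hl)
  set P := Pf W with hP
  set D := Pf (dd (0, 1) W) with hD
  set H := Pf f with hH
  have hPd : ∀ y, HasDerivAt P (D y) y := fun y => Pf_hasDerivAt (hWs.of_le (by simp)) y
  have hDd : ∀ y, HasDerivAt D (Pf (lap W) y) y := fun y => by
    rw [← Pf_lap hWs hWper]
    exact Pf_hasDerivAt (hD1.of_le (by simp)) y
  have hPn : ∀ y, P y ≤ 0 := fun y => by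
    rw [← Pf_const 0 y]
    exact Pf_mono hWs.continuous continuous_const fun x _ => hWn _
  have hH0 : ∀ y, 0 ≤ H y := fun y => by
    rw [← Pf_const 0 y]
    exact Pf_mono continuous_const hfs.continuous fun x _ => h.density_nonneg hn1 hl ρ _
  have hH1 : ∀ y, H y ≤ 1 / 4 := fun y => by
    rw [← Pf_const (1 / 4) y]
    exact Pf_mono hfs.continuous continuous_const fun x _ => h.density_le ρ _
  have hHc : Continuous H := Pf_continuous hfs.continuous
  -- the key exponential bound
  have hVP : ∀ y, 3 * m0 * Vw u (1 / 2) y ≤ P y := fun y => by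
    rw [← Pf_const (3 * m0 * Vw u (1 / 2) y) y]
    exact Pf_mono continuous_const hWs.continuous fun x hx =>
      h.cv_lower hn1 hl ρ le_rfl hm0 hx
  have hHexp : ∀ y, H y ≤ Real.exp (c1 * P y + C1) := fun y => by
    rw [← Pf_const (Real.exp (c1 * P y + C1)) y]
    refine Pf_mono hfs.continuous continuous_const fun x _ => ?_
    refine (h.density_bound hn1 hl ρ le_rfl (x, y)).trans (Real.exp_le_exp.mpr ?_)
    have h1 := hVP y
    simp only
    have h2 : (1 / 40 * Vw u (1 / 2) y + l / 4 * Cb) / (4 * Real.pi) =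
        c1 * (3 * m0 * Vw u (1 / 2) y) + l * Cb / (16 * Real.pi) := by
      rw [hc1]; field_simp; ring
    rw [h2]
    have h3 : l * Cb / (16 * Real.pi) ≤ C1 := by
      rw [hC1]
      apply div_le_div_of_nonneg_right _ (by positivity)
      exact mul_le_mul_of_nonneg_right hlL Cb_nonneg
    have h4 := mul_le_mul_of_nonneg_left h1 hc1p.le
    linarith
  -- the equation away from the vortex
  have hvort : ∀ x y : ℝ, y ∈ Icc (1 / 4 : ℝ) (n - 1 / 4) →
      ∑ j : Fin n, ∑' a, ρ.normed volume ((x, y) - ((0 : ℝ × ℝ) + lt n a)) = 0 := by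
    intro x y hy
    apply Finset.sum_eq_zero
    intro j _
    have : ∀ a, ρ.normed volume ((x, y) - ((0 : ℝ × ℝ) + lt n a)) = 0 := by
      intro a
      by_contra h0
      have h1 : (x, y) - ((0 : ℝ × ℝ) + lt n a) ∈ Function.support (ρ.normed volume) := h0
      rw [ρ.support_normed_eq, Metric.mem_ball, dist_zero_right, Prod.norm_def,
        max_lt_iff, Real.norm_eq_abs, Real.norm_eq_abs] at h1
      have h2 := h1.2
      simp only [zero_add, Prod.snd_sub, lt] at h2
      rw [hρOut, abs_lt] at h2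
      rcases le_or_gt a.2 0 with ha | ha
      · have ha' : (a.2 : ℝ) ≤ 0 := by exact_mod_cast ha
        have : (n : ℝ) * a.2 ≤ 0 := mul_nonpos_of_nonneg_of_nonpos (by positivity) ha'
        linarith [hy.1, h2.2]
      · have ha' : (1 : ℝ) ≤ a.2 := by exact_mod_cast ha
        have : (n : ℝ) * 1 ≤ n * a.2 := mul_le_mul_of_nonneg_left ha' (by positivity)
        linarith [hy.2, h2.1]
    simp only [this, tsum_zero]
  have hDeq : ∀ y ∈ Icc (1 / 4 : ℝ) (n - 1 / 4), Pf (lap W) y = -l * H y := by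
    intro y hy
    rw [hH]
    unfold Pf
    rw [← intervalIntegral.integral_const_mul]
    congr 1; ext x
    rw [hW, h.lap_cv ρ.contDiff_normed ρ.hasCompactSupport_normed, hvort x y hy, hf, cv_neg_right]
    ring
  have hDd' : ∀ y ∈ Icc (1 / 4 : ℝ) (n - 1 / 4), HasDerivAt D (-l * H y) y := fun y hy => by
    rw [← hDeq y hy]; exact hDd y
  have hab : (1 / 4 : ℝ) ≤ n - 1 / 4 := by linarith
  set E := Real.exp (-c1 * n + C1) with hE
  have hE0 : 0 ≤ E := (Real.exp_pos _).le
  have hHE : ∀ y, P y ≤ -(n : ℝ) → H y ≤ E := fun y hy => by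
    refine (hHexp y).trans (Real.exp_le_exp.mpr ?_)
    have := mul_le_mul_of_nonneg_left hy hc1p.le
    linarith
  have A := calc_core (P := P) (D := D) (H := H) (m := n) (E := E) hl (by linarith) hE0 hab
    (fun y _ => hPd y) hDd' (fun y _ => hH0 y) (fun y _ => hH1 y) (fun y _ => hHE y)
    (fun y _ => hPn y)
  have B := calc_core (P := fun y => P (n - y)) (D := fun y => - D (n - y))
    (H := fun y => H (n - y)) (m := n) (E := E) hl (by linarith) hE0 hab
    (fun y _ => by
      have h1 : HasDerivAt (fun y : ℝ => (n : ℝ) - y) (-1) y := by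
        simpa using (hasDerivAt_id y).const_sub (n : ℝ)
      have := (hPd (n - y)).comp y h1
      refine this.congr_deriv ?_
      ring)
    (fun y hy => by
      have h1 : HasDerivAt (fun y : ℝ => (n : ℝ) - y) (-1) y := by
        simpa using (hasDerivAt_id y).const_sub (n : ℝ)
      have h2 := (hDd' (n - y) ⟨by linarith [hy.2], by linarith [hy.1]⟩).comp y h1
      refine h2.neg.congr_deriv ?_
      ring)
    (fun y _ => hH0 _) (fun y _ => hH1 _) (fun y _ => hHE _) (fun y _ => hPn _)
  have e1 : (n : ℝ) - 1 / 4 = n - 1 / 4 := rfl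
  have e2 : (n : ℝ) - (n - 1 / 4) = 1 / 4 := by ring
  rw [e2] at B
  -- total flux
  have hflux := h.flux hn1 ρ
  rw [← hf, ← hH] at hflux
  have hint : ∀ a b, IntervalIntegrable H volume a b := fun a b => hHc.intervalIntegrable _ _
  have hsplit : ∫ y in (0 : ℝ)..n, H y = (∫ y in (0 : ℝ)..(1 / 4), H y) +
      (∫ y in (1 / 4 : ℝ)..(n - 1 / 4), H y) + ∫ y in ((n : ℝ) - 1 / 4)..n, H y := by
    rw [intervalIntegral.integral_add_adjacent_intervals (hint _ _) (hint _ _),
      intervalIntegral.integral_add_adjacent_intervals (hint _ _) (hint _ _)]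
  have hs1 : ∫ y in (0 : ℝ)..(1 / 4), H y ≤ 1 / 16 := by
    have : ∫ y in (0 : ℝ)..(1 / 4), H y ≤ ∫ _ in (0 : ℝ)..(1 / 4), (1 / 4 : ℝ) :=
      intervalIntegral.integral_mono_on (by norm_num) (hint _ _) intervalIntegrable_const
        fun y _ => hH1 y
    refine this.trans (le_of_eq ?_)
    rw [intervalIntegral.integral_const, smul_eq_mul]; norm_num
  have hs2 : ∫ y in ((n : ℝ) - 1 / 4)..n, H y ≤ 1 / 16 := by
    have : ∫ y in ((n : ℝ) - 1 / 4)..n, H y ≤ ∫ _ in ((n : ℝ) - 1 / 4)..n, (1 / 4 : ℝ) :=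
      intervalIntegral.integral_mono_on (by linarith) (hint _ _) intervalIntegrable_const
        fun y _ => hH1 y
    refine this.trans (le_of_eq ?_)
    rw [intervalIntegral.integral_const, smul_eq_mul]; ring
  have hDD : D (n - 1 / 4) - D (1 / 4) = -l * ∫ y in (1 / 4 : ℝ)..(n - 1 / 4), H y := by
    rw [← intervalIntegral.integral_const_mul]
    symm
    apply intervalIntegral.integral_eq_sub_of_hasDerivAt
    · intro y hy
      rw [uIcc_of_le hab] at hy
      exact hDd' y hy
    · exact (hHc.const_smul (-l)).intervalIntegrable _ _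
  have hflux2 : l * ∫ y in (1 / 4 : ℝ)..(n - 1 / 4), H y ≥ 4 * Real.pi * n - l / 8 := by
    rw [hsplit] at hflux
    have h1 := mul_le_mul_of_nonneg_left hs1 hl.le
    have h2 := mul_le_mul_of_nonneg_left hs2 hl.le
    linarith
  have hDiff : D (1 / 4) - D (n - 1 / 4) ≥ 4 * Real.pi * n - l / 8 := by linarith
  have hpi : (12 : ℝ) * n ≤ 4 * Real.pi * n := by
    have := Real.pi_gt_three
    have h3 : (12 : ℝ) ≤ 4 * Real.pi := by linarith
    exact mul_le_mul_of_nonneg_right h3 (by positivity)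
  have hlE : l * (n - 1 / 4 - 1 / 4) * E ≤ 1 := by
    refine le_trans ?_ hnum
    have : l * (n - 1 / 4 - 1 / 4) ≤ L * n := by
      apply mul_le_mul hlL (by linarith) (by linarith) hL.le
    exact mul_le_mul_of_nonneg_right this hE0
  rcases A with A | A <;> rcases B with B | B <;> nlinarith

end Pool.Agent.Helper676.CS
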