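import Pool.Agent.Helper676.CS15

set_option autoImplicit false
set_option linter.unusedSectionVars false

namespace Pool.Agent.Helper676.CS

open MeasureTheory Filter Topology Set

lemma locInt_of_bounded {v : ℝ × ℝ → ℝ} (hm : Measurable v) {C : ℝ} (hC : ∀ y, |v y| ≤ C) :
    LocallyIntegrable v := by
  rw [locallyIntegrable_iff]
  intro S hS
  exact Measure.integrableOn_of_bounded (M := C) hS.measure_ne_top
    hm.aestronglyMeasurable (Eventually.of_forall hC)

/-- Existence, with all the pieces of the definition of a solution. -/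
lemma exists_full {n k : ℕ} {l : ℝ} (hn : 1 ≤ n) (hk : 1 ≤ k) (hlk : 512 * k * (k + 1) ≤ l) :
    ∃ u0 v gx gy : ℝ × ℝ → ℝ,
      (∀ a z, u0 (z + lt n a) = u0 z) ∧ LocallyIntegrable u0 ∧
      (∀ φ : ℝ × ℝ → ℝ, ContDiff ℝ (⊤ : ℕ∞) φ → HasCompactSupport φ →
        ∫ z, u0 z * lap φ z = -(4 * Real.pi * k / n) * (∫ z, φ z) +
          4 * Real.pi * k * ∑' a, φ (lt n a)) ∧
      (∀ a z, v (z + lt n a) = v z) ∧ Measurable v ∧ (∃ C, ∀ z, |v z| ≤ C) ∧
      Measurable gx ∧ (∃ C, ∀ z, |gx z| ≤ C) ∧ Measurable gy ∧ (∃ C, ∀ z, |gy z| ≤ C) ∧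
      (∀ φ : ℝ × ℝ → ℝ, ContDiff ℝ (⊤ : ℕ∞) φ → HasCompactSupport φ →
        ∫ z, v z * dx φ z = - ∫ z, gx z * φ z) ∧
      (∀ φ : ℝ × ℝ → ℝ, ContDiff ℝ (⊤ : ℕ∞) φ → HasCompactSupport φ →
        ∫ z, v z * dy φ z = - ∫ z, gy z * φ z) ∧
      LocallyIntegrable (fun z => Ff (u0 z + v z)) ∧
      (∀ φ : ℝ × ℝ → ℝ, ContDiff ℝ (⊤ : ℕ∞) φ → HasCompactSupport φ →
        - ∫ z, (gx z * dx φ z + gy z * dy φ z) =
          l * (∫ z, Ff (u0 z + v z) * φ z) + 4 * Real.pi * k / n * ∫ z, φ z) := by
  have hn0 : (0 : ℝ) < n := by positivity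
  have hk0 : (1 : ℝ) ≤ k := by exact_mod_cast hk
  have hl : 0 < l := lt_of_lt_of_le (by positivity) hlk
  set s : ℝ := 1 / 16 with hs_def
  have hs : 0 < s := by norm_num
  have hlk' : 32 * k * (k + 1) / s ≤ l := by
    refine le_trans (le_of_eq ?_) hlk
    rw [hs_def]; ring
  obtain ⟨V, h1, hVm, h1m, ⟨CV, hCV⟩, ⟨C1, hC1⟩, hV, hVper, hneg, hVeq⟩ :=
    exists_core hn hk hs le_rfl hl hlk'
  set M := per n (muf k s) with hM
  have hMm : Measurable M := measurable_per_muf hn k hs (by norm_num)
  have hM0 : ∀ z, 0 ≤ M z := fun z => M_nonneg hn hs le_rfl z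
  have hM1 : ∀ z, M z ≤ 8 * k * (k + 1) / s := fun z => M_le hn hs le_rfl z
  set c0 : ℝ := 4 * Real.pi * k / n with hc0
  have hc0p : 0 < c0 := by positivity
  have hZ : ZM n (fun z => M z - c0) := by
    intro x
    have hi : IntegrableOn (fun y => M (x - y)) (Qc n) := by
      refine Measure.integrableOn_of_bounded (M := 8 * k * (k + 1) / s)
        (by rw [volume_Qc]; exact ENNReal.natCast_ne_top n)
        (hMm.comp (measurable_const.sub measurable_id)).aestronglyMeasurable
        (Eventually.of_forall fun y => ?_)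
      rw [Real.norm_eq_abs, abs_of_nonneg (hM0 _)]
      exact hM1 _
    rw [integral_sub hi (integrableOn_const (by rw [volume_Qc]; exact ENNReal.natCast_ne_top n)),
      hM, integral_per_sub hn (integrable_muf k hs), integral_muf hk hs, setIntegral_const,
      volume_real_Qc, smul_eq_mul, hc0]
    field_simp
    ring
  obtain ⟨w, h2, hwm, h2m, ⟨Cw, hCw⟩, ⟨C2, hC2⟩, hw, hwper, hweq⟩ :=
    exists_poisson hn hl (h0 := fun z => M z - c0) (hMm.sub measurable_const)
      (C0 := 8 * k * (k + 1) / s + c0) (fun y => by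
        refine (abs_sub _ _).trans ?_
        rw [abs_of_nonneg (hM0 _), abs_of_pos hc0p]
        linarith [hM1 y]) hZ (fun a z => by simp only [hM, per_periodic])
  set B := per n (bf k s) with hB
  have hBl : LocallyIntegrable B := locInt_per_bf hn hk hs
  have hVl := locInt_of_bounded hVm hCV
  have hwl := locInt_of_bounded hwm hCw
  have hd : (fun z => V z - w z) = Gc l (fun z => h1 z - h2 z) := by
    ext z
    rw [← Gc_sub hl h1m h2m hC1 hC2, ← hV, ← hw]
  have hdm : Measurable (fun z => h1 z - h2 z) := h1m.sub h2m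
  have hdC : ∀ z, |h1 z - h2 z| ≤ C1 + C2 := fun z =>
    (abs_sub _ _).trans (add_le_add (hC1 z) (hC2 z))
  have hvC : ∀ z, |V z - w z| ≤ CV + Cw := fun z =>
    (abs_sub _ _).trans (add_le_add (hCV z) (hCw z))
  have hvm : Measurable (fun z => V z - w z) := hVm.sub hwm
  have hvl := locInt_of_bounded hvm hvC
  have hsum : ∀ z, B z + w z + (V z - w z) = B z + V z := fun z => by ring
  have hgrad : ∀ e : ℝ × ℝ, ∀ φ : ℝ × ℝ → ℝ, ContDiff ℝ (⊤ : ℕ∞) φ → HasCompactSupport φ →
      ∫ z, (V z - w z) * dd e φ z = - ∫ z, cv (Dk l e) (fun z => h1 z - h2 z) z * φ z := by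
    intro e φ hφ hc
    have := Gc_weak_grad hl e hdm hdC (hφ.of_le (by simp)) hc
    rw [← hd] at this
    exact this
  have hg : ∀ e : ℝ × ℝ, Measurable (cv (Dk l e) (fun z => h1 z - h2 z)) ∧
      ∃ C, ∀ z, |cv (Dk l e) (fun z => h1 z - h2 z) z| ≤ C := fun e =>
    ⟨(cv_stronglyMeasurable (measurable_Dk l e) hdm).measurable, _, cv_abs_le (integrable_Dk hl e) hdC⟩
  refine ⟨fun z => B z + w z, fun z => V z - w z, cv (Dk l (1, 0)) (fun z => h1 z - h2 z),
    cv (Dk l (0, 1)) (fun z => h1 z - h2 z), ?_, hBl.add hwl, ?_, ?_, hvm, ⟨_, hvC⟩,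
    (hg (1, 0)).1, (hg (1, 0)).2, (hg (0, 1)).1, (hg (0, 1)).2, hgrad (1, 0), hgrad (0, 1), ?_, ?_⟩
  · intro a z
    simp only [hB, per_periodic, hwper]
  · intro φ hφ hc
    have hφ2 := hφ.of_le two_le_infty
    have i1 : Integrable (fun z => B z * lap φ z) := by
      have := integrable_mul_of_compact (continuous_lap hφ2) (hasCompactSupport_lap hc) hBl
      simpa [mul_comm] using this
    have i2 : Integrable (fun z => w z * lap φ z) := by
      have := integrable_mul_of_compact (continuous_lap hφ2) (hasCompactSupport_lap hc) hwl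
      simpa [mul_comm] using this
    have iφ : Integrable φ := hφ.continuous.integrable_of_hasCompactSupport hc
    have iM : Integrable (fun z => M z * φ z) := by
      have := integrable_mul_of_compact hφ.continuous hc (locInt_of_bounded hMm (C := 8 * k * (k + 1) / s)
        (fun y => by rw [abs_of_nonneg (hM0 _)]; exact hM1 y))
      simpa [mul_comm] using this
    have e1 : ∀ z, (B z + w z) * lap φ z = B z * lap φ z + w z * lap φ z := fun z => by ring
    have e2 : ∀ z, (M z - c0) * φ z = M z * φ z - c0 * φ z := fun z => by ring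
    have e3 := hweq φ hφ2 hc
    simp_rw [e2] at e3
    rw [integral_sub iM (iφ.const_mul _), integral_const_mul] at e3
    simp_rw [e1]
    rw [integral_add i1 i2, e3, hB, per_bf_lap hn hk hs hφ2 hc, hM]
    ring
  · intro a z
    simp only [hVper, hwper]
  · have hF : ∀ᵐ z, ‖Ff (B z + w z + (V z - w z))‖ ≤ 1 / 4 := by
      filter_upwards [hneg] with z hz
      rw [hsum, Real.norm_eq_abs, abs_le]
      have a := Ff_ge' (B z + V z)
      have b := Ff_nonpos hz
      constructor <;> linarith
    rw [locallyIntegrable_iff]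
    intro S hS
    refine Measure.integrableOn_of_bounded (M := 1 / 4) hS.measure_ne_top ?_
      (ae_restrict_of_ae hF)
    have hBm : Measurable B := measurable_per_bf hn k hs (by norm_num)
    exact (continuous_Ff.measurable.comp ((hBm.add hwm).add hvm)).aestronglyMeasurable
  · intro φ hφ hc
    have hφ2 := hφ.of_le two_le_infty
    have hx := hgrad (1, 0) (dx φ) (contDiff_dd_infty hφ (1, 0)) (hasCompactSupport_dd hc (1, 0))
    have hy := hgrad (0, 1) (dy φ) (contDiff_dd_infty hφ (0, 1)) (hasCompactSupport_dd hc (0, 1))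
    have ig : ∀ e, Integrable (fun z => cv (Dk l e) (fun z => h1 z - h2 z) z * dd e φ z) := by
      intro e
      obtain ⟨hm, C, hC⟩ := hg e
      have := integrable_mul_of_compact (contDiff_dd_infty hφ e).continuous (hasCompactSupport_dd hc e)
        (locInt_of_bounded hm hC)
      simpa [mul_comm] using this
    have iv : ∀ e, Integrable (fun z => (V z - w z) * dd e (dd e φ) z) := by
      intro e
      have := integrable_mul_of_compact (contDiff_dd_infty (contDiff_dd_infty hφ e) e).continuous
        (hasCompactSupport_dd (hasCompactSupport_dd hc e) e) hvl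
      simpa [mul_comm] using this
    have i1 : Integrable (fun z => (B z + V z) * lap φ z) := by
      have := integrable_mul_of_compact (continuous_lap hφ2) (hasCompactSupport_lap hc) (hBl.add hVl)
      simpa [mul_comm] using this
    have i2 : Integrable (fun z => (B z + w z) * lap φ z) := by
      have := integrable_mul_of_compact (continuous_lap hφ2) (hasCompactSupport_lap hc) (hBl.add hwl)
      simpa [mul_comm] using this
    have iB : Integrable (fun z => B z * lap φ z) := by
      have := integrable_mul_of_compact (continuous_lap hφ2) (hasCompactSupport_lap hc) hBl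
      simpa [mul_comm] using this
    have iw : Integrable (fun z => w z * lap φ z) := by
      have := integrable_mul_of_compact (continuous_lap hφ2) (hasCompactSupport_lap hc) hwl
      simpa [mul_comm] using this
    have iφ : Integrable φ := hφ.continuous.integrable_of_hasCompactSupport hc
    have iM : Integrable (fun z => M z * φ z) := by
      have := integrable_mul_of_compact hφ.continuous hc (locInt_of_bounded hMm (C := 8 * k * (k + 1) / s)
        (fun y => by rw [abs_of_nonneg (hM0 _)]; exact hM1 y))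
      simpa [mul_comm] using this
    have eL : - ∫ z, (cv (Dk l (1, 0)) (fun z => h1 z - h2 z) z * dx φ z +
        cv (Dk l (0, 1)) (fun z => h1 z - h2 z) z * dy φ z) = ∫ z, (V z - w z) * lap φ z := by
      have a : ∫ z, (cv (Dk l (1, 0)) (fun z => h1 z - h2 z) z * dx φ z +
        cv (Dk l (0, 1)) (fun z => h1 z - h2 z) z * dy φ z) =
        (∫ z, cv (Dk l (1, 0)) (fun z => h1 z - h2 z) z * dx φ z) +
        ∫ z, cv (Dk l (0, 1)) (fun z => h1 z - h2 z) z * dy φ z := integral_add (ig _) (ig _)
      have b : ∫ z, (V z - w z) * lap φ z = (∫ z, (V z - w z) * dd (1, 0) (dd (1, 0) φ) z) +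
          ∫ z, (V z - w z) * dd (0, 1) (dd (0, 1) φ) z := by
        rw [← integral_add (iv _) (iv _)]
        congr 1; ext z
        rw [lap, dx_eq, dy_eq]; ring
      rw [dx_eq] at hx
      rw [dy_eq] at hy
      rw [a, b, hx, hy, dx_eq, dy_eq]
      ring
    rw [eL]
    have e4 : ∫ z, (V z - w z) * lap φ z = (∫ z, (B z + V z) * lap φ z) -
        ((∫ z, B z * lap φ z) + ∫ z, w z * lap φ z) := by
      have i3 : Integrable (fun z => B z * lap φ z + w z * lap φ z) := iB.add iw
      rw [← integral_add iB iw, ← integral_sub i1 i3]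
      congr 1; ext z
      ring
    have e2 : ∀ z, (M z - c0) * φ z = M z * φ z - c0 * φ z := fun z => by ring
    have e3 := hweq φ hφ2 hc
    simp_rw [e2] at e3
    rw [integral_sub iM (iφ.const_mul _), integral_const_mul] at e3
    have e5 := per_bf_lap hn hk hs hφ2 hc
    rw [← hB, ← hM] at e5
    rw [e4, hVeq φ hφ2 hc, e3, e5]
    simp_rw [hsum]
    ring

end Pool.Agent.Helper676.CS
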