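import Pool.Agent.Helper676.CS1

set_option autoImplicit false

namespace Pool.Agent.Helper676.CS

open MeasureTheory Filter Topology Set

/-- Lebesgue measure on positive times. -/
noncomputable abbrev nu : Measure ℝ := volume.restrict (Ioi (0 : ℝ))

lemma ae_nu_pos : ∀ᵐ t ∂nu, 0 < t := ae_restrict_mem measurableSet_Ioi

/-- The damped heat kernel. -/
noncomputable def kk (K : ℝ) (q : ℝ × (ℝ × ℝ)) : ℝ := Real.exp (-K * q.1) * p q.1 q.2

lemma measurable_kk (K : ℝ) : Measurable (kk K) := by
  unfold kk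
  exact (by fun_prop : Measurable fun q : ℝ × (ℝ × ℝ) => Real.exp (-K * q.1)).mul measurable_p

lemma integrable_kk {K : ℝ} (hK : 0 < K) : Integrable (kk K) (nu.prod volume) := by
  rw [integrable_prod_iff (measurable_kk K).aestronglyMeasurable]
  constructor
  · filter_upwards [ae_nu_pos] with t ht
    exact (integrable_p ht).const_mul (Real.exp (-K * t))
  · have h : Integrable (fun t : ℝ => Real.exp (-K * t)) nu := exp_neg_integrableOn_Ioi 0 hK
    refine h.congr ?_
    filter_upwards [ae_nu_pos] with t ht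
    have : ∀ z : ℝ × ℝ, ‖kk K (t, z)‖ = Real.exp (-K * t) * p t z := by
      intro z
      rw [Real.norm_eq_abs, abs_of_pos]
      · rfl
      · exact mul_pos (Real.exp_pos _) (p_pos ht z)
    simp_rw [this]
    rw [integral_const_mul, integral_p ht, mul_one]

/-- The kernel of `(K - Δ)⁻¹`. -/
noncomputable def G (K : ℝ) (z : ℝ × ℝ) : ℝ := ∫ t, kk K (t, z) ∂nu

lemma G_nonneg (K : ℝ) (z : ℝ × ℝ) : 0 ≤ G K z := by
  apply integral_nonneg_of_ae
  filter_upwards [ae_nu_pos] with t ht
  exact (mul_pos (Real.exp_pos _) (p_pos ht z)).le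

lemma G_neg (K : ℝ) (z : ℝ × ℝ) : G K (-z) = G K z := by
  unfold G kk
  simp only [p_neg]

lemma integrable_G {K : ℝ} (hK : 0 < K) : Integrable (G K) :=
  (integrable_kk hK).integral_prod_right

lemma stronglyMeasurable_G (K : ℝ) : StronglyMeasurable (G K) :=
  (measurable_kk K).stronglyMeasurable.integral_prod_left'

lemma measurable_G (K : ℝ) : Measurable (G K) := (stronglyMeasurable_G K).measurable

lemma integral_G {K : ℝ} (hK : 0 < K) : ∫ z, G K z = K⁻¹ := by
  unfold G
  rw [← integral_integral_swap (f := fun t z => kk K (t, z)) (integrable_kk hK)]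
  have : ∀ᵐ t ∂nu, ∫ z, kk K (t, z) = Real.exp (-K * t) := by
    filter_upwards [ae_nu_pos] with t ht
    simp only [kk]
    rw [integral_const_mul, integral_p ht, mul_one]
  rw [integral_congr_ae this]
  have h := integral_exp_mul_Ioi (a := -K) (by linarith) 0
  rw [h]; simp

/-- Fubini for a kernel given by a time integral. -/
lemma fub_integrable {k : ℝ × (ℝ × ℝ) → ℝ} (hk : Integrable k (nu.prod volume)) {ψ : ℝ × ℝ → ℝ}
    (hψ : Measurable ψ) {C : ℝ} (hC : ∀ y, |ψ y| ≤ C) (x : ℝ × ℝ) :
    Integrable (fun q : ℝ × (ℝ × ℝ) => k (q.1, x - q.2) * ψ q.2) (nu.prod volume) := by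
  have hmp : MeasurePreserving (Prod.map (id : ℝ → ℝ) (fun y : ℝ × ℝ => x - y))
      (nu.prod volume) (nu.prod volume) :=
    (MeasurePreserving.id nu).prod (Measure.measurePreserving_sub_left volume x)
  have h1 : Integrable (fun q : ℝ × (ℝ × ℝ) => k (q.1, x - q.2)) (nu.prod volume) :=
    hmp.integrable_comp_of_integrable hk
  exact h1.mul_bdd (hψ.comp measurable_snd).aestronglyMeasurable
    (Eventually.of_forall fun q => hC q.2)

lemma fub {k : ℝ × (ℝ × ℝ) → ℝ} (hk : Integrable k (nu.prod volume)) {ψ : ℝ × ℝ → ℝ}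
    (hψ : Measurable ψ) {C : ℝ} (hC : ∀ y, |ψ y| ≤ C) (x : ℝ × ℝ) :
    ∫ y, (∫ t, k (t, x - y) ∂nu) * ψ y = ∫ t, (∫ y, k (t, x - y) * ψ y) ∂nu := by
  rw [integral_integral_swap (f := fun t y => k (t, x - y) * ψ y) (fub_integrable hk hψ hC x)]
  congr 1
  ext y
  rw [integral_mul_const]

lemma hasDerivAt_heat {φ : ℝ × ℝ → ℝ} (hφ : ContDiff ℝ 2 φ) (hc : HasCompactSupport φ)
    (x : ℝ × ℝ) {t : ℝ} (ht : 0 < t) :
    HasDerivAt (fun s => ∫ y, p s (x - y) * φ y) (∫ y, p t (x - y) * lap φ y) t := by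
  have hφi : Integrable φ := hφ.continuous.integrable_of_hasCompactSupport hc
  have hm : ∀ s, Continuous fun y => p s (x - y) * φ y := fun s =>
    ((continuous_p s).comp (continuous_const.sub continuous_id)).mul hφ.continuous
  have hball : Ioo (t / 2) (2 * t) ∈ 𝓝 t := Ioo_mem_nhds (by linarith) (by linarith)
  have key := hasDerivAt_integral_of_dominated_loc_of_deriv_le (μ := (volume : Measure (ℝ × ℝ)))
    (F := fun s y => p s (x - y) * φ y) (F' := fun s y => pt s (x - y) * φ y) (x₀ := t)
    (s := Ioo (t / 2) (2 * t))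
    (bound := fun y => (2 * Real.pi * (t / 2) ^ 2)⁻¹ * |φ y|) hball
    (Eventually.of_forall fun s => (hm s).aestronglyMeasurable)
    (Continuous.integrable_of_hasCompactSupport (hm t) hc.mul_left)
    ?_ ?_ ?_ ?_
  · have e := key.2
    refine e.congr_deriv ?_
    have h1 : (fun y => pt t (x - y) * φ y) = fun y => lap (fun w => p t (x - w)) y * φ y := by
      ext y
      rw [lap_reflect]
      simp only [lap_p ht]
    have h2 := green (v := fun w => p t (x - w)) ((contDiff_p t).comp (contDiff_const.sub contDiff_id)) hφ hc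
    rw [h1, ← h2]
  · apply Continuous.aestronglyMeasurable
    have : Continuous fun y : ℝ × ℝ => pt t (x - y) := by
      unfold pt
      exact ((continuous_p t).comp (continuous_const.sub continuous_id)).mul (by fun_prop)
    exact this.mul hφ.continuous
  · refine Eventually.of_forall fun y s hs => ?_
    have hs0 : 0 < s := by have := hs.1; linarith
    rw [norm_mul, Real.norm_eq_abs, Real.norm_eq_abs]
    refine mul_le_mul_of_nonneg_right ((abs_pt_le hs0 _).trans ?_) (abs_nonneg _)
    apply inv_anti₀ (by positivity)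
    have := hs.1
    have : (t / 2) ^ 2 ≤ s ^ 2 := pow_le_pow_left₀ (by positivity) this.le 2
    have := Real.pi_pos
    nlinarith
  · exact hφi.abs.const_mul _
  · refine Eventually.of_forall fun y s hs => ?_
    have hs0 : 0 < s := by have := hs.1; linarith
    exact (hasDerivAt_p hs0 _).mul_const _

lemma tendsto_heat_zero {φ : ℝ × ℝ → ℝ} (hφ : Continuous φ) (hc : HasCompactSupport φ)
    (x : ℝ × ℝ) :
    Tendsto (fun s => ∫ y, p s (x - y) * φ y) (𝓝[>] 0) (𝓝 (φ x)) := by
  have h1 : Tendsto (fun z : ℝ × ℝ => ‖z‖ ^ Module.finrank ℝ (ℝ × ℝ) * p 1 z)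
      (Bornology.cobounded (ℝ × ℝ)) (𝓝 0) := by
    have hfr : Module.finrank ℝ (ℝ × ℝ) = 2 := by simp
    rw [hfr]
    have h0 : Tendsto (fun r : ℝ => r ^ 2 * Real.exp (-(r ^ 2) / 4)) atTop (𝓝 0) := by
      have a : Tendsto (fun r : ℝ => r ^ 2 / 4) atTop atTop :=
        (tendsto_pow_atTop (by norm_num)).atTop_div_const (by norm_num)
      have b := (Real.tendsto_pow_mul_exp_neg_atTop_nhds_zero 1).comp a
      have c := b.const_mul 4
      rw [mul_zero] at c
      refine c.congr fun r => ?_
      simp only [Function.comp_apply, pow_one]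
      rw [show -(r ^ 2 / 4) = -(r ^ 2) / 4 by ring]
      ring
    have h2 := h0.comp (tendsto_norm_cobounded_atTop (E := ℝ × ℝ))
    have h3 := h2.const_mul ((4 * Real.pi)⁻¹)
    rw [mul_zero] at h3
    refine squeeze_zero (fun z => mul_nonneg (by positivity) (p_pos one_pos z).le) (fun z => ?_) h3
    simp only [Function.comp_apply]
    rw [p]
    have hn : ‖z‖ ^ 2 ≤ z.1 ^ 2 + z.2 ^ 2 := by
      rw [Prod.norm_def]
      rcases max_cases ‖z.1‖ ‖z.2‖ with ⟨h, _⟩ | ⟨h, _⟩
      · rw [h, Real.norm_eq_abs, sq_abs]; nlinarith [sq_nonneg z.2]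
      · rw [h, Real.norm_eq_abs, sq_abs]; nlinarith [sq_nonneg z.1]
    have he : Real.exp (-(z.1 ^ 2 + z.2 ^ 2) / (4 * 1)) ≤ Real.exp (-(‖z‖ ^ 2) / 4) := by
      apply Real.exp_le_exp.mpr
      linarith
    calc ‖z‖ ^ 2 * ((4 * Real.pi * 1)⁻¹ * Real.exp (-(z.1 ^ 2 + z.2 ^ 2) / (4 * 1)))
        ≤ ‖z‖ ^ 2 * ((4 * Real.pi * 1)⁻¹ * Real.exp (-(‖z‖ ^ 2) / 4)) := by gcongr
      _ = (4 * Real.pi)⁻¹ * (‖z‖ ^ 2 * Real.exp (-‖z‖ ^ 2 / 4)) := by ring_nf
  have h2 := tendsto_integral_comp_smul_smul_of_integrable' (μ := (volume : Measure (ℝ × ℝ)))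
    (fun z => (p_pos one_pos z).le) (integral_p one_pos) h1
    (hφ.integrable_of_hasCompactSupport hc) (hφ.continuousAt (x := x))
  have h3 : Tendsto (fun s : ℝ => (Real.sqrt s)⁻¹) (𝓝[>] 0) atTop := by
    apply tendsto_inv_nhdsGT_zero.comp
    rw [tendsto_nhdsWithin_iff]
    constructor
    · have : Tendsto Real.sqrt (𝓝[>] 0) (𝓝 (Real.sqrt 0)) :=
        (Real.continuous_sqrt.tendsto 0).mono_left nhdsWithin_le_nhds
      simpa using this
    · filter_upwards [self_mem_nhdsWithin] with s hs
      exact Real.sqrt_pos.mpr hs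
  refine (h2.comp h3).congr' ?_
  filter_upwards [self_mem_nhdsWithin] with s hs
  have hs0 : (0 : ℝ) < s := hs
  simp only [Function.comp_apply]
  congr 1
  ext y
  rw [show Module.finrank ℝ (ℝ × ℝ) = 2 by simp, smul_eq_mul]
  congr 1
  simp only [p, Prod.smul_fst, Prod.smul_snd, smul_eq_mul]
  have h4 : Real.sqrt s ^ 2 = s := Real.sq_sqrt hs0.le
  have h5 : ((Real.sqrt s)⁻¹) ^ 2 = s⁻¹ := by rw [inv_pow, h4]
  rw [mul_pow, mul_pow, h5]
  have : -(s⁻¹ * (x - y).1 ^ 2 + s⁻¹ * (x - y).2 ^ 2) / (4 * 1) =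
      -((x - y).1 ^ 2 + (x - y).2 ^ 2) / (4 * s) := by
    field_simp
  rw [this]
  field_simp

/-- `G` is the fundamental solution of `K - Δ`. -/
lemma G_conv {K : ℝ} (hK : 0 < K) {φ : ℝ × ℝ → ℝ} (hφ : ContDiff ℝ 2 φ)
    (hc : HasCompactSupport φ) (x : ℝ × ℝ) :
    ∫ y, G K (x - y) * (K * φ y - lap φ y) = φ x := by
  have hψc : Continuous fun y => K * φ y - lap φ y :=
    (continuous_const.mul hφ.continuous).sub (continuous_lap hφ)
  have hψs : HasCompactSupport fun y => K * φ y - lap φ y :=
    (hc.mul_left).sub (hasCompactSupport_lap hc)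
  obtain ⟨C, hC⟩ := hψs.exists_bound_of_continuous hψc
  obtain ⟨C', hC'⟩ := hc.exists_bound_of_continuous hφ.continuous
  have e1 : ∫ y, G K (x - y) * (K * φ y - lap φ y) =
      ∫ t, (∫ y, kk K (t, x - y) * (K * φ y - lap φ y)) ∂nu :=
    fub (integrable_kk hK) hψc.measurable hC x
  rw [e1]
  have hint := (fub_integrable (integrable_kk hK) hψc.measurable hC x).integral_prod_left
  set F : ℝ → ℝ := fun t => if t = 0 then φ x else
    Real.exp (-K * t) * ∫ y, p t (x - y) * φ y with hF
  set D : ℝ → ℝ := fun t => ∫ y, kk K (t, x - y) * (K * φ y - lap φ y) with hD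
  have key := integral_Ioi_of_hasDerivAt_of_tendsto (f := F) (f' := fun t => - D t) (a := 0) (m := 0)
    ?_ ?_ ?_ ?_
  · have : F 0 = φ x := by simp [hF]
    rw [this, integral_neg] at key
    have : ∫ t, D t ∂nu = ∫ t in Ioi 0, D t := rfl
    rw [this]
    linarith
  · rw [ContinuousWithinAt, ← Ioi_insert, nhdsWithin_insert, tendsto_sup]
    refine ⟨tendsto_pure_left.mpr fun s hs => mem_of_mem_nhds hs, ?_⟩
    have h1 := tendsto_heat_zero hφ.continuous hc x
    have h2 : Tendsto (fun t : ℝ => Real.exp (-K * t)) (𝓝[>] 0) (𝓝 1) := by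
      have : Continuous fun t : ℝ => Real.exp (-K * t) := by fun_prop
      have := (this.tendsto 0).mono_left (nhdsWithin_le_nhds (s := Ioi 0))
      simpa using this
    have h3 := h2.mul h1
    have h4 : F 0 = φ x := by simp [hF]
    rw [h4, ← one_mul (φ x)]
    refine h3.congr' ?_
    filter_upwards [self_mem_nhdsWithin] with s hs
    have : s ≠ 0 := ne_of_gt hs
    simp [hF, this]
  · intro t ht
    have ht0 : (0 : ℝ) < t := ht
    have h1 := hasDerivAt_heat hφ hc x ht0
    have h2 : HasDerivAt (fun s : ℝ => Real.exp (-K * s)) (Real.exp (-K * t) * -K) t := by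
      have := ((hasDerivAt_id t).const_mul (-K)).exp
      simpa using this
    have h3 := h2.mul h1
    have h4 : F =ᶠ[𝓝 t] fun s => Real.exp (-K * s) * ∫ y, p s (x - y) * φ y := by
      filter_upwards [lt_mem_nhds ht0] with s hs
      simp [hF, hs.ne']
    refine (h3.congr_of_eventuallyEq h4).congr_deriv ?_
    have i1 : Integrable fun y => p t (x - y) * φ y :=
      (((continuous_p t).comp (continuous_const.sub continuous_id)).mul
        hφ.continuous).integrable_of_hasCompactSupport hc.mul_left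
    have i2 : Integrable fun y => p t (x - y) * lap φ y :=
      (((continuous_p t).comp (continuous_const.sub continuous_id)).mul
        (continuous_lap hφ)).integrable_of_hasCompactSupport (hasCompactSupport_lap hc).mul_left
    simp only [hD, kk]
    have e2 : ∀ y, Real.exp (-K * t) * p t (x - y) * (K * φ y - lap φ y) =
        Real.exp (-K * t) * K * (p t (x - y) * φ y) - Real.exp (-K * t) * (p t (x - y) * lap φ y) := by
      intro y; ring
    simp_rw [e2]
    rw [integral_sub (i1.const_mul _) (i2.const_mul _), integral_const_mul, integral_const_mul]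
    ring
  · exact hint.neg
  · have h1 : Tendsto (fun t : ℝ => Real.exp (-K * t) * C') atTop (𝓝 0) := by
      have a : Tendsto (fun t : ℝ => K * t) atTop atTop := tendsto_id.const_mul_atTop hK
      have := (Real.tendsto_exp_neg_atTop_nhds_zero.comp a).mul_const C'
      simpa [neg_mul] using this
    refine squeeze_zero_norm' ?_ h1
    filter_upwards [eventually_gt_atTop 0] with t ht
    have : t ≠ 0 := ht.ne'
    simp only [hF, this, if_false]
    rw [norm_mul, Real.norm_eq_abs, abs_of_pos (Real.exp_pos _)]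
    refine mul_le_mul_of_nonneg_left ?_ (Real.exp_pos _).le
    have ip : Integrable fun y => p t (x - y) := (integrable_p ht).comp_sub_left x
    calc ‖∫ y, p t (x - y) * φ y‖ ≤ ∫ y, ‖p t (x - y) * φ y‖ := norm_integral_le_integral_norm _
      _ ≤ ∫ y, p t (x - y) * C' := by
          apply integral_mono_of_nonneg
          · exact Eventually.of_forall fun y => norm_nonneg _
          · exact ip.mul_const _
          · refine Eventually.of_forall fun y => ?_
            simp only [norm_mul]
            rw [Real.norm_eq_abs, abs_of_pos (p_pos ht _)]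
            exact mul_le_mul_of_nonneg_left (hC' y) (p_pos ht _).le
      _ = C' := by
          rw [integral_mul_const, integral_sub_left_eq_self (p t) volume x, integral_p ht, one_mul]

end Pool.Agent.Helper676.CS
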