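import Pool.Agent.Helper676.CS2

set_option autoImplicit false

namespace Pool.Agent.Helper676.CS

open MeasureTheory Filter Topology Set

/-! ### Lower bound for `G` -/

lemma G_lower {K : ℝ} (hK : 0 < K) (R : ℝ) :
    ∃ g0 > 0, ∀ᵐ z : ℝ × ℝ, ‖z‖ ≤ R → g0 ≤ G K z := by
  refine ⟨Real.exp (-(2 * K)) * ((8 * Real.pi)⁻¹ * Real.exp (-(R ^ 2 + R ^ 2) / 4)), by positivity, ?_⟩
  set c := Real.exp (-(2 * K)) * ((8 * Real.pi)⁻¹ * Real.exp (-(R ^ 2 + R ^ 2) / 4)) with hc
  filter_upwards [(integrable_kk hK).prod_left_ae] with z hz hzR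
  have h1 : ∀ᵐ t ∂nu, (Icc (1 : ℝ) 2).indicator (fun _ => c) t ≤ kk K (t, z) := by
    filter_upwards [ae_nu_pos] with t ht
    by_cases h : t ∈ Icc (1 : ℝ) 2
    · rw [indicator_of_mem h]
      have e1 : Real.exp (-(2 * K)) ≤ Real.exp (-K * t) := by
        apply Real.exp_le_exp.mpr; nlinarith [h.2]
      have e2 : (8 * Real.pi)⁻¹ ≤ (4 * Real.pi * t)⁻¹ := by
        apply inv_anti₀ (by positivity)
        have := Real.pi_pos
        nlinarith [h.2]
      have n1 : z.1 ^ 2 ≤ R ^ 2 := by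
        rw [← sq_abs]; apply pow_le_pow_left₀ (abs_nonneg _)
        exact (norm_fst_le z).trans hzR
      have n2 : z.2 ^ 2 ≤ R ^ 2 := by
        rw [← sq_abs]; apply pow_le_pow_left₀ (abs_nonneg _)
        exact (norm_snd_le z).trans hzR
      have e3 : Real.exp (-(R ^ 2 + R ^ 2) / 4) ≤ Real.exp (-(z.1 ^ 2 + z.2 ^ 2) / (4 * t)) := by
        apply Real.exp_le_exp.mpr
        rw [neg_div, neg_div, neg_le_neg_iff, div_le_div_iff₀ (by positivity) (by norm_num)]
        nlinarith [h.1, sq_nonneg z.1, sq_nonneg z.2]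
      simp only [kk, p]
      rw [hc]
      gcongr
    · rw [indicator_of_notMem h]
      exact (mul_pos (Real.exp_pos _) (p_pos ht z)).le
  have h2 := integral_mono_ae ?_ hz h1
  · rw [integral_indicator measurableSet_Icc, setIntegral_const] at h2
    have h3 : nu.real (Icc (1 : ℝ) 2) = 1 := by
      rw [Measure.real, Measure.restrict_apply measurableSet_Icc]
      have : Icc (1 : ℝ) 2 ∩ Ioi 0 = Icc 1 2 := by
        ext t; simp only [mem_inter_iff, mem_Icc, mem_Ioi]
        constructor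
        · exact fun h => h.1
        · exact fun h => ⟨h, by linarith [h.1]⟩
      rw [this, Real.volume_Icc]; norm_num
    rw [h3, one_smul] at h2
    exact h2
  · rw [integrable_indicator_iff measurableSet_Icc]
    apply integrableOn_const (by
      rw [Measure.restrict_apply measurableSet_Icc]
      exact ((measure_mono inter_subset_left).trans_lt (by rw [Real.volume_Icc]; exact ENNReal.ofReal_lt_top)).ne)

/-! ### The convolution operator on bounded functions -/

/-- `(K - Δ)⁻¹` on bounded functions. -/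
noncomputable def Gc (K : ℝ) (h : ℝ × ℝ → ℝ) (x : ℝ × ℝ) : ℝ := ∫ y, G K (x - y) * h y

/-- convolution with an integrable kernel -/
noncomputable def cv (k h : ℝ × ℝ → ℝ) (x : ℝ × ℝ) : ℝ := ∫ y, k (x - y) * h y

lemma Gc_eq (K : ℝ) : Gc K = cv (G K) := rfl

lemma cv_integrable {k : ℝ × ℝ → ℝ} (hk : Integrable k) {h : ℝ × ℝ → ℝ} (hm : Measurable h)
    {C : ℝ} (hC : ∀ y, |h y| ≤ C) (x : ℝ × ℝ) : Integrable (fun y => k (x - y) * h y) :=
  (hk.comp_sub_left x).mul_bdd hm.aestronglyMeasurable (Eventually.of_forall hC)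

lemma cv_eq (k h : ℝ × ℝ → ℝ) (x : ℝ × ℝ) : cv k h x = ∫ y, k y * h (x - y) := by
  rw [cv, ← integral_sub_left_eq_self (fun y => k y * h (x - y)) volume x]
  simp

lemma cv_abs_le {k : ℝ × ℝ → ℝ} (hk : Integrable k) {h : ℝ × ℝ → ℝ}
    {C : ℝ} (hC : ∀ y, |h y| ≤ C) (x : ℝ × ℝ) : |cv k h x| ≤ (∫ y, |k y|) * C := by
  rw [cv_eq, ← integral_mul_const]
  rw [← Real.norm_eq_abs]
  refine (norm_integral_le_integral_norm _).trans ?_
  apply integral_mono_of_nonneg
  · exact Eventually.of_forall fun y => norm_nonneg _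
  · exact hk.abs.mul_const _
  · refine Eventually.of_forall fun y => ?_
    simp only [norm_mul]
    exact mul_le_mul_of_nonneg_left (hC _) (abs_nonneg _)

lemma cv_stronglyMeasurable {k h : ℝ × ℝ → ℝ} (hk : Measurable k) (hm : Measurable h) :
    StronglyMeasurable (cv k h) := by
  unfold cv
  have : Measurable (fun q : (ℝ × ℝ) × (ℝ × ℝ) => k (q.1 - q.2) * h q.2) :=
    (hk.comp (measurable_fst.sub measurable_snd)).mul (hm.comp measurable_snd)
  exact this.stronglyMeasurable.integral_prod_right'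

/-- duality -/
lemma cv_duality {k : ℝ × ℝ → ℝ} (hk : Integrable k) {h : ℝ × ℝ → ℝ}
    (hm : Measurable h) {C : ℝ} (hC : ∀ y, |h y| ≤ C) {ψ : ℝ × ℝ → ℝ} (hψ : Integrable ψ) :
    ∫ x, cv k h x * ψ x = ∫ y, h y * ∫ x, k (x - y) * ψ x := by
  have h1 : Integrable (fun q : (ℝ × ℝ) × (ℝ × ℝ) => k (q.1 - q.2) * h q.2 * ψ q.1)
      (volume.prod volume) := by
    have h2 : Integrable (fun z => k (-z)) := hk.comp_neg
    have h3 := (hψ.convolution_integrand (ContinuousLinearMap.mul ℝ ℝ) h2).swap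
    have h4 := h3.mul_bdd (hm.comp measurable_snd).aestronglyMeasurable
      (Eventually.of_forall fun q => hC q.2)
    refine h4.congr (Eventually.of_forall fun q => ?_)
    simp
    ring
  unfold cv
  have e1 : ∀ x, (∫ y, k (x - y) * h y) * ψ x = ∫ y, k (x - y) * h y * ψ x := by
    intro x; rw [integral_mul_const]
  have e2 : ∀ y, h y * (∫ x, k (x - y) * ψ x) = ∫ x, k (x - y) * h y * ψ x := by
    intro y; rw [← integral_const_mul]; congr 1; ext x; ring
  simp_rw [e1, e2]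
  exact integral_integral_swap (f := fun x y => k (x - y) * h y * ψ x) h1

lemma Gc_mono {K : ℝ} (hK : 0 < K) {h1 h2 : ℝ × ℝ → ℝ} (hm1 : Measurable h1) (hm2 : Measurable h2)
    {C1 C2 : ℝ} (hC1 : ∀ y, |h1 y| ≤ C1) (hC2 : ∀ y, |h2 y| ≤ C2) (hle : ∀ y, h1 y ≤ h2 y)
    (x : ℝ × ℝ) : Gc K h1 x ≤ Gc K h2 x :=
  integral_mono (cv_integrable (integrable_G hK) hm1 hC1 x) (cv_integrable (integrable_G hK) hm2 hC2 x)
    fun y => mul_le_mul_of_nonneg_left (hle y) (G_nonneg _ _)

lemma Gc_const {K : ℝ} (hK : 0 < K) (c : ℝ) (x : ℝ × ℝ) : Gc K (fun _ => c) x = K⁻¹ * c := by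
  unfold Gc
  rw [integral_mul_const, integral_sub_left_eq_self (G K) volume x, integral_G hK]

lemma cv_periodic {k h : ℝ × ℝ → ℝ} {a : ℝ × ℝ} (hp : ∀ z, h (z + a) = h z) (x : ℝ × ℝ) :
    cv k h (x + a) = cv k h x := by
  rw [cv_eq, cv_eq]
  congr 1; ext y
  rw [show x + a - y = x - y + a by ring, hp]

lemma Gc_tendsto {K : ℝ} (hK : 0 < K) {h : ℕ → ℝ × ℝ → ℝ} {h' : ℝ × ℝ → ℝ}
    (hm : ∀ n, Measurable (h n)) {C : ℝ} (hC : ∀ n y, |h n y| ≤ C)
    (hlim : ∀ y, Tendsto (fun n => h n y) atTop (𝓝 (h' y))) (x : ℝ × ℝ) :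
    Tendsto (fun n => Gc K (h n) x) atTop (𝓝 (Gc K h' x)) := by
  apply tendsto_integral_of_dominated_convergence (fun y => G K (x - y) * C)
  · intro n
    exact (cv_integrable (integrable_G hK) (hm n) (hC n) x).aestronglyMeasurable
  · exact ((integrable_G hK).comp_sub_left x).mul_const _
  · intro n
    refine Eventually.of_forall fun y => ?_
    rw [norm_mul, Real.norm_eq_abs, abs_of_nonneg (G_nonneg _ _)]
    exact mul_le_mul_of_nonneg_left (hC n y) (G_nonneg _ _)
  · exact Eventually.of_forall fun y => (hlim y).const_mul _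

/-- the equation `(K - Δ) (G * h) = h` in the sense of distributions -/
lemma Gc_weak {K : ℝ} (hK : 0 < K) {h : ℝ × ℝ → ℝ} (hm : Measurable h) {C : ℝ}
    (hC : ∀ y, |h y| ≤ C) {φ : ℝ × ℝ → ℝ} (hφ : ContDiff ℝ 2 φ) (hc : HasCompactSupport φ) :
    ∫ x, Gc K h x * (K * φ x - lap φ x) = ∫ x, h x * φ x := by
  have hψc : Continuous fun y => K * φ y - lap φ y :=
    (continuous_const.mul hφ.continuous).sub (continuous_lap hφ)
  have hψs : HasCompactSupport fun y => K * φ y - lap φ y :=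
    (hc.mul_left).sub (hasCompactSupport_lap hc)
  rw [Gc_eq, cv_duality (integrable_G hK) hm hC
    (hψc.integrable_of_hasCompactSupport hψs)]
  congr 1; ext y
  congr 1
  have := G_conv hK hφ hc y
  rw [← this]
  congr 1; ext x
  rw [← G_neg, neg_sub]

end Pool.Agent.Helper676.CS
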