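import Pool.Agent.Helper676.CS3

set_option autoImplicit false

namespace Pool.Agent.Helper676.CS

open MeasureTheory Filter Topology Set

/-- derivative of the heat kernel in direction `e` -/
noncomputable def pe (e : ℝ × ℝ) (t : ℝ) (z : ℝ × ℝ) : ℝ :=
  -(e.1 * z.1 + e.2 * z.2) / (2 * t) * p t z

lemma dd_p {t : ℝ} (ht : 0 < t) (e z : ℝ × ℝ) : dd e (p t) z = pe e t z := by
  have h0 : HasFDerivAt (fun y : ℝ × ℝ => y.1 ^ 2 + y.2 ^ 2)
      ((2 * z.1) • ContinuousLinearMap.fst ℝ ℝ ℝ + (2 * z.2) • ContinuousLinearMap.snd ℝ ℝ ℝ) z := by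
    have a := (hasFDerivAt_fst (𝕜 := ℝ) (p := z)).pow 2
    have b := (hasFDerivAt_snd (𝕜 := ℝ) (p := z)).pow 2
    refine (a.add b).congr_fderiv ?_
    ext <;> simp
  have h1 : HasDerivAt (fun s : ℝ => (4 * Real.pi * t)⁻¹ * Real.exp (-s / (4 * t)))
      (-(4 * t)⁻¹ * p t z) (z.1 ^ 2 + z.2 ^ 2) := by
    have h1 : HasDerivAt (fun s : ℝ => -s / (4 * t)) (-1 / (4 * t)) (z.1 ^ 2 + z.2 ^ 2) :=
      ((hasDerivAt_id _).neg).div_const _
    have := (h1.exp).const_mul ((4 * Real.pi * t)⁻¹)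
    refine this.congr_deriv ?_
    rw [p]
    field_simp
  have h2 := h1.comp_hasFDerivAt z h0
  have h3 : dd e (p t) z = fderiv ℝ ((fun s : ℝ => (4 * Real.pi * t)⁻¹ * Real.exp (-s / (4 * t))) ∘
      fun y : ℝ × ℝ => y.1 ^ 2 + y.2 ^ 2) z e := rfl
  rw [h3, h2.fderiv, pe]
  simp
  field_simp
  ring

/-- the damped derivative kernel -/
noncomputable def ke (K : ℝ) (e : ℝ × ℝ) (q : ℝ × (ℝ × ℝ)) : ℝ :=
  Real.exp (-K * q.1) * pe e q.1 q.2

lemma measurable_ke (K : ℝ) (e : ℝ × ℝ) : Measurable (ke K e) := by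
  unfold ke pe
  have h := measurable_p
  exact (by fun_prop : Measurable fun q : ℝ × (ℝ × ℝ) => Real.exp (-K * q.1)).mul
    ((by fun_prop : Measurable fun q : ℝ × (ℝ × ℝ) => -(e.1 * q.2.1 + e.2 * q.2.2) / (2 * q.1)).mul h)

lemma abs_pe_le {t : ℝ} (ht : 0 < t) (e z : ℝ × ℝ) :
    |pe e t z| ≤ (|e.1| + |e.2|) * (2 * t ^ (-(1 / 2) : ℝ)) * p (2 * t) z := by
  set r := Real.sqrt (z.1 ^ 2 + z.2 ^ 2) with hr
  have hr2 : r ^ 2 = z.1 ^ 2 + z.2 ^ 2 := Real.sq_sqrt (by positivity)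
  have hr0 : 0 ≤ r := Real.sqrt_nonneg _
  have h1 : |z.1| ≤ r := Real.abs_le_sqrt (by nlinarith [sq_nonneg z.2])
  have h2 : |z.2| ≤ r := Real.abs_le_sqrt (by nlinarith [sq_nonneg z.1])
  have h3 : |-(e.1 * z.1 + e.2 * z.2) / (2 * t)| ≤ (|e.1| + |e.2|) * r / (2 * t) := by
    rw [abs_div, abs_neg, abs_of_pos (by positivity : 0 < 2 * t)]
    apply div_le_div_of_nonneg_right _ (by positivity)
    calc |e.1 * z.1 + e.2 * z.2| ≤ |e.1 * z.1| + |e.2 * z.2| := abs_add_le _ _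
      _ = |e.1| * |z.1| + |e.2| * |z.2| := by rw [abs_mul, abs_mul]
      _ ≤ |e.1| * r + |e.2| * r := by gcongr
      _ = (|e.1| + |e.2|) * r := by ring
  have hs : (0 : ℝ) < Real.sqrt t := Real.sqrt_pos.mpr ht
  have hst : Real.sqrt t ^ 2 = t := Real.sq_sqrt ht.le
  have hp : p t z = 2 * Real.exp (-(r ^ 2) / (8 * t)) * p (2 * t) z := by
    rw [p, p, hr2]
    have : Real.exp (-(z.1 ^ 2 + z.2 ^ 2) / (4 * t)) =
      Real.exp (-(z.1 ^ 2 + z.2 ^ 2) / (8 * t)) * Real.exp (-(z.1 ^ 2 + z.2 ^ 2) / (4 * (2 * t))) := by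
      rw [← Real.exp_add]; congr 1; field_simp; ring
    rw [this]
    field_simp
  have hx : r * Real.exp (-(r ^ 2) / (8 * t)) ≤ 2 * Real.sqrt t := by
    have e1 : r / Real.sqrt t ≤ 2 * Real.exp ((r ^ 2) / (8 * t)) := by
      have e2 := Real.add_one_le_exp ((r ^ 2) / (8 * t))
      have e3 : r ^ 2 / (8 * t) = (r / Real.sqrt t) ^ 2 / 8 := by
        rw [div_pow, hst]; field_simp
      rw [e3] at e2 ⊢
      nlinarith [sq_nonneg (r / Real.sqrt t - 2)]
    have e4 : r ≤ 2 * Real.sqrt t * Real.exp ((r ^ 2) / (8 * t)) := by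
      rw [div_le_iff₀ hs] at e1
      linarith
    calc r * Real.exp (-(r ^ 2) / (8 * t)) ≤
        2 * Real.sqrt t * Real.exp ((r ^ 2) / (8 * t)) * Real.exp (-(r ^ 2) / (8 * t)) := by gcongr
      _ = 2 * Real.sqrt t := by
          rw [mul_assoc, ← Real.exp_add]
          have : r ^ 2 / (8 * t) + -(r ^ 2) / (8 * t) = 0 := by ring
          rw [this, Real.exp_zero, mul_one]
  have hpow : t ^ (-(1 / 2) : ℝ) = (Real.sqrt t)⁻¹ := by
    rw [Real.rpow_neg ht.le, Real.sqrt_eq_rpow]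
  have hpp := (p_pos (by positivity : 0 < 2 * t) z).le
  rw [pe, abs_mul, abs_of_pos (p_pos ht z), hp, hpow]
  calc |-(e.1 * z.1 + e.2 * z.2) / (2 * t)| * (2 * Real.exp (-(r ^ 2) / (8 * t)) * p (2 * t) z)
      ≤ (|e.1| + |e.2|) * r / (2 * t) * (2 * Real.exp (-(r ^ 2) / (8 * t)) * p (2 * t) z) := by
        gcongr
    _ = (|e.1| + |e.2|) * (r * Real.exp (-(r ^ 2) / (8 * t))) / t * p (2 * t) z := by
        field_simp
    _ ≤ (|e.1| + |e.2|) * (2 * Real.sqrt t) / t * p (2 * t) z := by gcongr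
    _ = (|e.1| + |e.2|) * (2 * (Real.sqrt t)⁻¹) * p (2 * t) z := by
        congr 1
        rw [mul_div_assoc]
        congr 1
        rw [div_eq_iff ht.ne', mul_assoc]
        congr 1
        nth_rw 3 [← hst]
        field_simp

lemma integrable_ke {K : ℝ} (hK : 0 < K) (e : ℝ × ℝ) : Integrable (ke K e) (nu.prod volume) := by
  have hq : Integrable (fun q : ℝ × (ℝ × ℝ) => (|e.1| + |e.2|) *
      (2 * (q.1 ^ (-(1 / 2) : ℝ) * Real.exp (-K * q.1))) * p (2 * q.1) q.2) (nu.prod volume) := by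
    have hmeas : Measurable (fun q : ℝ × (ℝ × ℝ) => (|e.1| + |e.2|) *
      (2 * (q.1 ^ (-(1 / 2) : ℝ) * Real.exp (-K * q.1))) * p (2 * q.1) q.2) := by
      have h := measurable_p.comp ((measurable_const.mul measurable_fst).prodMk measurable_snd :
        Measurable fun q : ℝ × (ℝ × ℝ) => ((2 : ℝ) * q.1, q.2))
      exact (by fun_prop : Measurable fun q : ℝ × (ℝ × ℝ) => (|e.1| + |e.2|) *
        (2 * (q.1 ^ (-(1 / 2) : ℝ) * Real.exp (-K * q.1)))).mul h
    rw [integrable_prod_iff hmeas.aestronglyMeasurable]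
    constructor
    · filter_upwards [ae_nu_pos] with t ht
      exact (integrable_p (by positivity : 0 < 2 * t)).const_mul ((|e.1| + |e.2|) *
        (2 * (t ^ (-(1 / 2) : ℝ) * Real.exp (-K * t))))
    · have h : Integrable (fun t : ℝ => t ^ (-(1 / 2) : ℝ) * Real.exp (-K * t ^ (1 : ℝ))) nu :=
        integrableOn_rpow_mul_exp_neg_mul_rpow (by norm_num) (by norm_num) hK
      have h' := (h.const_mul 2).const_mul (|e.1| + |e.2|)
      refine h'.congr ?_
      filter_upwards [ae_nu_pos] with t ht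
      have : ∀ z : ℝ × ℝ, ‖(|e.1| + |e.2|) * (2 * (t ^ (-(1 / 2) : ℝ) * Real.exp (-K * t))) *
          p (2 * t) z‖ = (|e.1| + |e.2|) * (2 * (t ^ (-(1 / 2) : ℝ) * Real.exp (-K * t))) *
          p (2 * t) z := by
        intro z
        rw [Real.norm_eq_abs, abs_of_nonneg]
        have := (p_pos (by positivity : 0 < 2 * t) z).le
        positivity
      simp_rw [this]
      rw [integral_const_mul, integral_p (by positivity : 0 < 2 * t), mul_one, Real.rpow_one]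
  refine hq.mono' (measurable_ke K e).aestronglyMeasurable ?_
  have hae : ∀ᵐ q : ℝ × (ℝ × ℝ) ∂(nu.prod volume), 0 < q.1 := by
    have := Measure.quasiMeasurePreserving_fst (μ := nu) (ν := (volume : Measure (ℝ × ℝ)))
    exact this.ae ae_nu_pos
  filter_upwards [hae] with q hq0
  rw [ke, norm_mul, Real.norm_eq_abs, Real.norm_eq_abs, abs_of_pos (Real.exp_pos _)]
  have := abs_pe_le hq0 e q.2
  calc Real.exp (-K * q.1) * |pe e q.1 q.2| ≤ Real.exp (-K * q.1) *
      ((|e.1| + |e.2|) * (2 * q.1 ^ (-(1 / 2) : ℝ)) * p (2 * q.1) q.2) := by gcongr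
    _ = _ := by ring

/-- gradient kernel -/
noncomputable def Dk (K : ℝ) (e : ℝ × ℝ) (z : ℝ × ℝ) : ℝ := ∫ t, ke K e (t, z) ∂nu

lemma integrable_Dk {K : ℝ} (hK : 0 < K) (e : ℝ × ℝ) : Integrable (Dk K e) :=
  (integrable_ke hK e).integral_prod_right

lemma measurable_Dk (K : ℝ) (e : ℝ × ℝ) : Measurable (Dk K e) :=
  ((measurable_ke K e).stronglyMeasurable.integral_prod_left').measurable

lemma Dk_neg (K : ℝ) (e z : ℝ × ℝ) : Dk K e (-z) = - Dk K e z := by
  unfold Dk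
  rw [← integral_neg]
  congr 1; ext t
  simp only [ke, pe, p_neg, Prod.fst_neg, Prod.snd_neg]
  ring

lemma G_dd {K : ℝ} (hK : 0 < K) (e : ℝ × ℝ) {φ : ℝ × ℝ → ℝ} (hφ : ContDiff ℝ 1 φ)
    (hc : HasCompactSupport φ) (y : ℝ × ℝ) :
    ∫ x, G K (y - x) * dd e φ x = ∫ x, Dk K e (y - x) * φ x := by
  have hdc : Continuous (dd e φ) := (hφ.continuous_fderiv (by norm_num)).clm_apply continuous_const
  obtain ⟨C, hC⟩ := (hasCompactSupport_dd hc e).exists_bound_of_continuous hdc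
  obtain ⟨C', hC'⟩ := hc.exists_bound_of_continuous hφ.continuous
  have e1 : ∫ x, G K (y - x) * dd e φ x = ∫ t, (∫ x, kk K (t, y - x) * dd e φ x) ∂nu :=
    fub (integrable_kk hK) hdc.measurable hC y
  have e2 : ∫ x, Dk K e (y - x) * φ x = ∫ t, (∫ x, ke K e (t, y - x) * φ x) ∂nu :=
    fub (integrable_ke hK e) hφ.continuous.measurable hC' y
  rw [e1, e2]
  apply integral_congr_ae
  filter_upwards [ae_nu_pos] with t ht
  simp only [kk, ke]
  have h := ibp (v := fun x => p t (y - x)) ((contDiff_p t).comp (contDiff_const.sub contDiff_id))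
    hφ hc e
  rw [dd_reflect] at h
  have e3 : ∀ x, Real.exp (-K * t) * p t (y - x) * dd e φ x =
      Real.exp (-K * t) * (p t (y - x) * dd e φ x) := fun x => by ring
  have e4 : ∀ x, Real.exp (-K * t) * pe e t (y - x) * φ x =
      Real.exp (-K * t) * (pe e t (y - x) * φ x) := fun x => by ring
  simp_rw [e3, e4]
  rw [integral_const_mul, integral_const_mul, h, ← integral_neg]
  congr 2
  ext x
  simp only [dd_p ht]
  ring

/-- weak gradient of `Gc K h` -/
lemma Gc_weak_grad {K : ℝ} (hK : 0 < K) (e : ℝ × ℝ) {h : ℝ × ℝ → ℝ} (hm : Measurable h) {C : ℝ}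
    (hC : ∀ y, |h y| ≤ C) {φ : ℝ × ℝ → ℝ} (hφ : ContDiff ℝ 1 φ) (hc : HasCompactSupport φ) :
    ∫ x, Gc K h x * dd e φ x = - ∫ x, cv (Dk K e) h x * φ x := by
  have hdc : Continuous (dd e φ) := (hφ.continuous_fderiv (by norm_num)).clm_apply continuous_const
  rw [Gc_eq, cv_duality (integrable_G hK) hm hC
    (hdc.integrable_of_hasCompactSupport (hasCompactSupport_dd hc e)),
    cv_duality (integrable_Dk hK e) hm hC (hφ.continuous.integrable_of_hasCompactSupport hc),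
    ← integral_neg]
  congr 1; ext y
  have e1 : ∫ x, G K (x - y) * dd e φ x = ∫ x, G K (y - x) * dd e φ x := by
    congr 1; ext x; rw [← G_neg, neg_sub]
  have e2 : ∫ x, Dk K e (x - y) * φ x = - ∫ x, Dk K e (y - x) * φ x := by
    rw [← integral_neg]
    congr 1; ext x
    have := Dk_neg K e (y - x)
    rw [neg_sub] at this
    rw [this]; ring
  rw [e1, e2, G_dd hK e hφ hc]
  ring

end Pool.Agent.Helper676.CS
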