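import Pool.Agent.Helper676.CS4

set_option autoImplicit false
set_option linter.unusedSectionVars false

namespace Pool.Agent.Helper676.CSLog

open MeasureTheory Laplacian InnerProductSpace Filter Topology Set

/-! ### Laplacians -/




section general
variable {E : Type*} [NormedAddCommGroup E] [InnerProductSpace ℝ E] [FiniteDimensional ℝ E]

/-- The Laplacian computed from the second derivative. -/
lemma laplacian_eq_of_hasFDerivAt {f : E → ℝ} {f' : E → E →L[ℝ] ℝ}
    {f'' : E →L[ℝ] E →L[ℝ] ℝ} {x : E} {ι : Type*} [Fintype ι] (b : OrthonormalBasis ι ℝ E)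
    (h : ∀ᶠ y in nhds x, HasFDerivAt f (f' y) y) (h' : HasFDerivAt f' f'' x) :
    Δ f x = ∑ i, f'' (b i) (b i) := by
  rw [laplacian_eq_iteratedFDeriv_orthonormalBasis f b]
  refine Finset.sum_congr rfl fun i _ => ?_
  rw [iteratedFDeriv_two_apply]
  have h1 : fderiv ℝ f =ᶠ[nhds x] f' := by
    filter_upwards [h] with y hy using hy.fderiv
  rw [h1.fderiv_eq, h'.fderiv]
  simp

/-- Laplacian of a function of `‖x‖²`. -/
lemma laplacian_comp_normSq {U U' U'' : ℝ → ℝ} {x : E}
    (h : ∀ᶠ s in nhds (‖x‖ ^ 2), HasDerivAt U (U' s) s)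
    (h' : HasDerivAt U' (U'' (‖x‖ ^ 2)) (‖x‖ ^ 2)) :
    Δ (fun y : E => U (‖y‖ ^ 2)) x =
      4 * ‖x‖ ^ 2 * U'' (‖x‖ ^ 2) + 2 * (Module.finrank ℝ E : ℝ) * U' (‖x‖ ^ 2) := by
  have hn : ∀ y : E, HasFDerivAt (fun y : E => ‖y‖ ^ 2) (2 • (innerSL ℝ y)) y := fun y =>
    (hasStrictFDerivAt_norm_sq y).hasFDerivAt
  have hcont : Continuous (fun y : E => ‖y‖ ^ 2) := by fun_prop
  have h1 : ∀ᶠ y in nhds x, HasFDerivAt (fun y : E => U (‖y‖ ^ 2))
      (U' (‖y‖ ^ 2) • (2 • (innerSL ℝ y))) y := by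
    filter_upwards [hcont.continuousAt.eventually h] with y hy
    exact hy.comp_hasFDerivAt y (hn y)
  have h2 : HasFDerivAt (fun y : E => U' (‖y‖ ^ 2)) (U'' (‖x‖ ^ 2) • (2 • (innerSL ℝ x))) x :=
    h'.comp_hasFDerivAt x (hn x)
  have h3 : HasFDerivAt (fun y : E => (2 : ℕ) • (innerSL ℝ y)) (2 • (innerSL ℝ : E →L[ℝ] E →L[ℝ] ℝ)) x :=
    ((2 : ℕ) • (innerSL ℝ : E →L[ℝ] E →L[ℝ] ℝ)).hasFDerivAt
  have h4 := h2.smul h3
  rw [laplacian_eq_of_hasFDerivAt (stdOrthonormalBasis ℝ E) h1 h4]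
  have hsum := (stdOrthonormalBasis ℝ E).sum_sq_inner_left x
  have hterm : ∀ i, (U' (‖x‖ ^ 2) • (2 • (innerSL ℝ : E →L[ℝ] E →L[ℝ] ℝ)) +
      (U'' (‖x‖ ^ 2) • (2 • (innerSL ℝ x))).smulRight ((2 : ℕ) • (innerSL ℝ x)))
        ((stdOrthonormalBasis ℝ E) i) ((stdOrthonormalBasis ℝ E) i) =
      4 * U'' (‖x‖ ^ 2) * (inner ℝ x ((stdOrthonormalBasis ℝ E) i)) ^ 2 + 2 * U' (‖x‖ ^ 2) := by
    intro i
    have : inner ℝ ((stdOrthonormalBasis ℝ E) i) ((stdOrthonormalBasis ℝ E) i) = (1 : ℝ) := by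
      rw [real_inner_self_eq_norm_sq]; simp
    rw [add_apply, ContinuousLinearMap.smulRight_apply]
    simp [this, -inner_self_eq_norm_sq_to_K]
    ring
  rw [Finset.sum_congr rfl fun i _ => hterm i, Finset.sum_add_distrib, ← Finset.mul_sum, hsum]
  simp
  ring

end general




section general
variable {E : Type*} [NormedAddCommGroup E] [InnerProductSpace ℝ E] [FiniteDimensional ℝ E]
  [MeasurableSpace E] [BorelSpace E]

lemma laplacian_eq_sum_fderiv {f : E → ℝ} (hf : ContDiff ℝ 2 f) (x : E) :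
    Δ f x = ∑ i, fderiv ℝ (fun y => fderiv ℝ f y (stdOrthonormalBasis ℝ E i)) x
      (stdOrthonormalBasis ℝ E i) := by
  rw [laplacian_eq_iteratedFDeriv_stdOrthonormalBasis f]
  refine Finset.sum_congr rfl fun i _ => ?_
  rw [iteratedFDeriv_two_apply]
  have h1 : DifferentiableAt ℝ (fderiv ℝ f) x :=
    (hf.fderiv_right (m := 1) (by norm_num)).differentiable (by norm_num) x
  rw [fderiv_clm_apply h1 (differentiableAt_const _)]
  simp

lemma contDiff_dir {f : E → ℝ} (hf : ContDiff ℝ 2 f) (v : E) :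
    ContDiff ℝ 1 (fun y => fderiv ℝ f y v) :=
  (hf.fderiv_right (m := 1) (by norm_num)).clm_apply contDiff_const

lemma hasCompactSupport_dir {f : E → ℝ} (hf : HasCompactSupport f) (v : E) :
    HasCompactSupport (fun y => fderiv ℝ f y v) := by
  have := hf.fderiv (𝕜 := ℝ)
  exact this.comp_left (g := fun L : E →L[ℝ] ℝ => L v) (by simp)

/-- Green's identity. -/
lemma green {v φ : E → ℝ} (hv : ContDiff ℝ 2 v) (hφ : ContDiff ℝ 2 φ)
    (hc : HasCompactSupport φ) : ∫ x, v x * Δ φ x = ∫ x, Δ v x * φ x := by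
  have key : ∀ e : E, ∫ x, v x * fderiv ℝ (fun y => fderiv ℝ φ y e) x e =
      ∫ x, fderiv ℝ (fun y => fderiv ℝ v y e) x e * φ x := by
    intro e
    have hv1 := contDiff_dir hv e
    have hφ1 := contDiff_dir hφ e
    have hφc := hasCompactSupport_dir hc e
    have hv2c : Continuous (fun x => fderiv ℝ (fun y => fderiv ℝ v y e) x e) :=
      (hv1.continuous_fderiv (by norm_num)).clm_apply continuous_const
    have hφ2c : Continuous (fun x => fderiv ℝ (fun y => fderiv ℝ φ y e) x e) :=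
      (hφ1.continuous_fderiv (by norm_num)).clm_apply continuous_const
    have hφ2s : HasCompactSupport (fun x => fderiv ℝ (fun y => fderiv ℝ φ y e) x e) :=
      (hφc.fderiv (𝕜 := ℝ)).comp_left (g := fun L : E →L[ℝ] ℝ => L e) (by simp)
    have s1 := integral_mul_fderiv_eq_neg_fderiv_mul_of_integrable (μ := volume) (f := v)
      (g := fun y => fderiv ℝ φ y e) (v := e)
      ((hv1.continuous.mul hφ1.continuous).integrable_of_hasCompactSupport hφc.mul_left)
      ((hv.continuous.mul hφ2c).integrable_of_hasCompactSupport hφ2s.mul_left)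
      ((hv.continuous.mul hφ1.continuous).integrable_of_hasCompactSupport hφc.mul_left)
      (fun x _ => hv.differentiable (by norm_num) x)
      (fun x _ => hφ1.differentiable (by norm_num) x)
    have s2 := integral_mul_fderiv_eq_neg_fderiv_mul_of_integrable (μ := volume)
      (f := fun y => fderiv ℝ v y e) (g := φ) (v := e)
      ((hv2c.mul hφ.continuous).integrable_of_hasCompactSupport hc.mul_left)
      ((hv1.continuous.mul hφ1.continuous).integrable_of_hasCompactSupport hφc.mul_left)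
      ((hv1.continuous.mul hφ.continuous).integrable_of_hasCompactSupport hc.mul_left)
      (fun x _ => hv1.differentiable (by norm_num) x)
      (fun x _ => hφ.differentiable (by norm_num) x)
    rw [s1, s2, neg_neg]
  simp_rw [laplacian_eq_sum_fderiv hv, laplacian_eq_sum_fderiv hφ, Finset.mul_sum, Finset.sum_mul]
  rw [integral_finsetSum, integral_finsetSum]
  · exact Finset.sum_congr rfl fun i _ => key _
  · intro i _
    have hv1 := contDiff_dir hv (stdOrthonormalBasis ℝ E i)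
    exact (((hv1.continuous_fderiv (by norm_num)).clm_apply continuous_const).mul
      hφ.continuous).integrable_of_hasCompactSupport hc.mul_left
  · intro i _
    have hφ1 := contDiff_dir hφ (stdOrthonormalBasis ℝ E i)
    exact (hv.continuous.mul ((hφ1.continuous_fderiv (by norm_num)).clm_apply
      continuous_const)).integrable_of_hasCompactSupport
      (((hasCompactSupport_dir hc _).fderiv (𝕜 := ℝ)).comp_left
        (g := fun L : E →L[ℝ] ℝ => L (stdOrthonormalBasis ℝ E i)) (by simp)).mul_left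

end general




/-- The kernel `(1/π)(1+|w|²)^{-2}`. -/
noncomputable def ker (w : ℂ) : ℝ := Real.pi⁻¹ * (1 + ‖w‖ ^ 2)⁻¹ ^ 2

lemma ker_nonneg (w : ℂ) : 0 ≤ ker w := by
  unfold ker; positivity

lemma integral_ker : ∫ w, ker w = 1 := by
  have h1 : ∫ y in Ioi (0 : ℝ), y * (1 + y ^ 2)⁻¹ ^ 2 = 1 / 2 := by
    have hd : ∀ x ∈ Ici (0 : ℝ), HasDerivAt (fun y : ℝ => -(1 / 2) * (1 + y ^ 2)⁻¹)
        (x * (1 + x ^ 2)⁻¹ ^ 2) x := by
      intro x _
      have h0 : (1 + x ^ 2) ≠ 0 := by positivity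
      have h1 : HasDerivAt (fun y : ℝ => 1 + y ^ 2) (2 * x) x := by
        have := (hasDerivAt_pow 2 x).const_add 1
        simpa using this
      have := (h1.inv h0).const_mul (-(1 / 2) : ℝ)
      refine this.congr_deriv ?_
      field_simp
    have ht : Tendsto (fun y : ℝ => -(1 / 2) * (1 + y ^ 2)⁻¹) atTop (𝓝 0) := by
      have h2 : Tendsto (fun y : ℝ => 1 + y ^ 2) atTop atTop :=
        tendsto_atTop_add_const_left _ _ (tendsto_pow_atTop (by norm_num))
      have := (tendsto_inv_atTop_zero.comp h2).const_mul (-(1 / 2) : ℝ)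
      simpa using this
    have := integral_Ioi_of_hasDerivAt_of_nonneg (a := 0) (hd 0 (by simp)).continuousAt.continuousWithinAt
      (fun x hx => hd x (mem_Ici.mpr (le_of_lt (mem_Ioi.mp hx)))) (fun x hx => by
        have : (0 : ℝ) < x := hx
        positivity) ht
    rw [this]; norm_num
  have h2 := integral_fun_norm_addHaar (volume : Measure ℂ) (fun y : ℝ => Real.pi⁻¹ * (1 + y ^ 2)⁻¹ ^ 2)
  have h3 : ∫ w, ker w = ∫ x : ℂ, (fun y : ℝ => Real.pi⁻¹ * (1 + y ^ 2)⁻¹ ^ 2) ‖x‖ := rfl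
  rw [h3, h2]
  have h4 : (volume : Measure ℂ).real (Metric.ball 0 1) = Real.pi := by
    rw [Measure.real, Complex.volume_ball]; simp
  rw [h4]
  have h5 : ∫ y in Ioi (0 : ℝ), y ^ (Module.finrank ℝ ℂ - 1) • (Real.pi⁻¹ * (1 + y ^ 2)⁻¹ ^ 2) =
      Real.pi⁻¹ * (1 / 2) := by
    rw [← h1, ← integral_const_mul]
    congr 1
    ext y
    simp [Complex.finrank_real_complex]
    ring
  rw [h5]
  simp [Complex.finrank_real_complex]

lemma tendsto_ker : Tendsto (fun x : ℂ => ‖x‖ ^ Module.finrank ℝ ℂ * ker x)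
    (Bornology.cobounded ℂ) (𝓝 0) := by
  rw [Complex.finrank_real_complex]
  have h0 : Tendsto (fun r : ℝ => Real.pi⁻¹ * (r ^ 2)⁻¹) atTop (𝓝 0) := by
    have := (tendsto_inv_atTop_zero.comp (tendsto_pow_atTop (α := ℝ) (n := 2) (by norm_num))).const_mul (Real.pi⁻¹)
    simpa using this
  have h1 := h0.comp (tendsto_norm_cobounded_atTop (E := ℂ))
  refine squeeze_zero' (Eventually.of_forall fun x => ?_) ?_ h1
  · exact mul_nonneg (by positivity) (ker_nonneg x)
  · have : ∀ᶠ x : ℂ in Bornology.cobounded ℂ, 0 < ‖x‖ :=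
      (tendsto_norm_cobounded_atTop (E := ℂ)).eventually_gt_atTop 0
    filter_upwards [this] with x hx
    simp only [Function.comp_apply, ker]
    rw [← mul_assoc, mul_comm (‖x‖ ^ 2), mul_assoc]
    refine mul_le_mul_of_nonneg_left ?_ (by positivity)
    rw [inv_pow, ← div_eq_mul_inv, ← one_div, div_le_div_iff₀ (by positivity) (by positivity)]
    nlinarith [sq_nonneg (‖x‖ ^ 2)]

lemma locInt_log : LocallyIntegrable (fun z : ℂ => Real.log ‖z‖) := by
  rw [locallyIntegrable_iff]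
  intro K hK
  obtain ⟨R, hR⟩ := hK.isBounded.subset_ball 0
  refine IntegrableOn.mono_set ?_ hR
  rw [integrableOn_fun_norm_addHaar (volume : Measure ℂ) (f := Real.log)]
  have : ContinuousOn (fun y : ℝ => y * Real.log y) (Icc 0 R) := Real.continuous_mul_log.continuousOn
  have h := this.integrableOn_Icc (μ := volume)
  refine (h.mono_set Ioo_subset_Icc_self).congr_fun ?_ measurableSet_Ioo
  intro y _
  simp [Complex.finrank_real_complex]

/-- The regularised logarithm. -/
noncomputable def Lc (c : ℝ) (z : ℂ) : ℝ := (1 / 2) * Real.log (‖z‖ ^ 2 + (c ^ 2)⁻¹)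

lemma contDiff_Lc {c : ℝ} (hc : 0 < c) : ContDiff ℝ 2 (Lc c) := by
  unfold Lc
  refine contDiff_const.mul (ContDiff.log ?_ ?_)
  · exact (contDiff_norm_sq ℝ).add contDiff_const
  · intro x; positivity

lemma laplacian_Lc {c : ℝ} (hc : 0 < c) (z : ℂ) :
    Δ (Lc c) z = 2 * Real.pi * (c ^ 2 * ker (c • z)) := by
  have h := laplacian_comp_normSq (E := ℂ) (x := z) (U := fun s => (1 / 2) * Real.log (s + (c ^ 2)⁻¹))
    (U' := fun s => (1 / 2) * (s + (c ^ 2)⁻¹)⁻¹)
    (U'' := fun s => -(1 / 2) * ((s + (c ^ 2)⁻¹)⁻¹) ^ 2) ?_ ?_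
  · have e : Lc c = fun y : ℂ => (fun s => (1 / 2) * Real.log (s + (c ^ 2)⁻¹)) (‖y‖ ^ 2) := rfl
    rw [e, h, Complex.finrank_real_complex]
    simp only [ker, norm_smul, Real.norm_eq_abs, abs_of_pos hc]
    have h0 : (‖z‖ ^ 2 + (c ^ 2)⁻¹) ≠ 0 := by positivity
    have h1 : 1 + (c * ‖z‖) ^ 2 ≠ 0 := by positivity
    have h2 : c ≠ 0 := hc.ne'
    have h3 : Real.pi ≠ 0 := Real.pi_ne_zero
    have h4 : (‖z‖ ^ 2 + (c ^ 2)⁻¹) = (1 + (c * ‖z‖) ^ 2) / c ^ 2 := by
      field_simp; ring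
    rw [h4]
    field_simp
    push_cast
    ring
  · have : ∀ᶠ s in 𝓝 (‖z‖ ^ 2), 0 < s + (c ^ 2)⁻¹ := by
      have h1 : Continuous fun s : ℝ => s + (c ^ 2)⁻¹ := by fun_prop
      have h2 : 0 < ‖z‖ ^ 2 + (c ^ 2)⁻¹ := by positivity
      exact h1.continuousAt.eventually (lt_mem_nhds h2)
    filter_upwards [this] with s hs
    have := ((hasDerivAt_id s).add_const ((c ^ 2)⁻¹)).log (by simpa using hs.ne')
    have := this.const_mul (1 / 2 : ℝ)
    simpa [one_div] using this
  · have h2 : ‖z‖ ^ 2 + (c ^ 2)⁻¹ ≠ 0 := by positivity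
    have h3 : HasDerivAt (fun s : ℝ => s + (c ^ 2)⁻¹) 1 (‖z‖ ^ 2) :=
      (hasDerivAt_id (‖z‖ ^ 2)).add_const _
    have := (h3.inv h2).const_mul (1 / 2 : ℝ)
    refine this.congr_deriv ?_
    field_simp

/-- `Δ log|z| = 2π δ`. -/
lemma integral_log_laplacian {φ : ℂ → ℝ} (hφ : ContDiff ℝ 2 φ) (hc : HasCompactSupport φ) :
    ∫ z : ℂ, Real.log ‖z‖ * Δ φ z = 2 * Real.pi * φ 0 := by
  have hΔc : Continuous (Δ φ) := by
    have : Δ φ = fun x => ∑ i, fderiv ℝ (fun y => fderiv ℝ φ y (stdOrthonormalBasis ℝ ℂ i)) x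
      (stdOrthonormalBasis ℝ ℂ i) := by
      ext x; exact laplacian_eq_sum_fderiv hφ x
    rw [this]
    refine continuous_finsetSum _ fun i _ => ?_
    exact ((contDiff_dir hφ _).continuous_fderiv (by norm_num)).clm_apply continuous_const
  have hΔs : HasCompactSupport (Δ φ) := by
    have : Δ φ = fun x => ∑ i, fderiv ℝ (fun y => fderiv ℝ φ y (stdOrthonormalBasis ℝ ℂ i)) x
      (stdOrthonormalBasis ℝ ℂ i) := by
      ext x; exact laplacian_eq_sum_fderiv hφ x
    rw [this]
    refine HasCompactSupport.intro (K := tsupport φ) hc fun x hx => ?_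
    refine Finset.sum_eq_zero fun i _ => ?_
    have h1 : x ∉ tsupport (fun y => fderiv ℝ φ y (stdOrthonormalBasis ℝ ℂ i)) :=
      fun h => hx (tsupport_fderiv_apply_subset ℝ _ h)
    rw [fderiv_of_notMem_tsupport _ h1]
    rfl
  have lim1 : Tendsto (fun c : ℝ => ∫ z, Lc c z * Δ φ z) atTop (𝓝 (2 * Real.pi * φ 0)) := by
    have h := tendsto_integral_comp_smul_smul_of_integrable (μ := (volume : Measure ℂ))
      ker_nonneg integral_ker tendsto_ker
      (hφ.continuous.integrable_of_hasCompactSupport hc) hφ.continuous.continuousAt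
    have h' := h.const_mul (2 * Real.pi)
    refine h'.congr' ?_
    filter_upwards [eventually_gt_atTop 0] with c hc0
    rw [green (contDiff_Lc hc0) hφ hc, ← integral_const_mul]
    congr 1
    ext z
    rw [laplacian_Lc hc0, Complex.finrank_real_complex]
    simp
    ring
  have lim2 : Tendsto (fun c : ℝ => ∫ z, Lc c z * Δ φ z) atTop
      (𝓝 (∫ z : ℂ, Real.log ‖z‖ * Δ φ z)) := by
    apply tendsto_integral_filter_of_dominated_convergence
      (fun z => (|Real.log ‖z‖| + (1 / 2) * Real.log (‖z‖ ^ 2 + 1)) * |Δ φ z|)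
    · filter_upwards [eventually_gt_atTop 0] with c hc0
      exact ((contDiff_Lc hc0).continuous.mul hΔc).aestronglyMeasurable
    · filter_upwards [eventually_ge_atTop 1] with c hc1
      have hz : ∀ᵐ z : ℂ, z ≠ 0 := by
        rw [ae_iff]; simp
      filter_upwards [hz] with z hz0
      rw [norm_mul, Real.norm_eq_abs, Real.norm_eq_abs]
      refine mul_le_mul_of_nonneg_right ?_ (abs_nonneg _)
      have hzp : 0 < ‖z‖ := norm_pos_iff.mpr hz0
      have hcp : (0 : ℝ) < (c ^ 2)⁻¹ := by positivity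
      have hcle : (c ^ 2)⁻¹ ≤ 1 := inv_le_one_of_one_le₀ (by nlinarith)
      have lo : Real.log ‖z‖ ≤ Lc c z := by
        have : Real.log ‖z‖ = (1 / 2) * Real.log (‖z‖ ^ 2) := by
          rw [Real.log_pow]; push_cast; ring
        rw [this, Lc]
        have := Real.log_le_log (x := ‖z‖ ^ 2) (y := ‖z‖ ^ 2 + (c ^ 2)⁻¹) (by positivity) (by linarith)
        linarith
      have hi : Lc c z ≤ (1 / 2) * Real.log (‖z‖ ^ 2 + 1) := by
        rw [Lc]
        have := Real.log_le_log (x := ‖z‖ ^ 2 + (c ^ 2)⁻¹) (y := ‖z‖ ^ 2 + 1) (by positivity) (by linarith)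
        linarith
      have h0 : 0 ≤ Real.log (‖z‖ ^ 2 + 1) := Real.log_nonneg (by nlinarith)
      rw [abs_le]
      constructor
      · have := neg_abs_le (Real.log ‖z‖)
        linarith
      · have := abs_nonneg (Real.log ‖z‖)
        linarith
    · have i1 : Integrable (fun z : ℂ => |Real.log ‖z‖| * |Δ φ z|) := by
        have := (locInt_log.integrable_smul_right_of_hasCompactSupport hΔc hΔs).norm
        simpa [norm_mul] using this
      have i2 : Integrable (fun z : ℂ => (1 / 2) * Real.log (‖z‖ ^ 2 + 1) * |Δ φ z|) := by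
        refine Continuous.integrable_of_hasCompactSupport ?_ ?_
        · refine Continuous.mul (continuous_const.mul (Continuous.log (by fun_prop) ?_)) hΔc.abs
          intro x; positivity
        · exact (hΔs.comp_left (g := fun t : ℝ => |t|) (by simp)).mul_left
      refine (i1.add i2).congr (Eventually.of_forall fun z => ?_)
      simp only [Pi.add_apply]
      ring
    · have hz : ∀ᵐ z : ℂ, z ≠ 0 := by
        rw [ae_iff]; simp
      filter_upwards [hz] with z hz0
      refine Tendsto.mul_const _ ?_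
      have hzp : 0 < ‖z‖ := norm_pos_iff.mpr hz0
      have e : Real.log ‖z‖ = (1 / 2) * Real.log (‖z‖ ^ 2 + 0) := by
        rw [add_zero, Real.log_pow]; push_cast; ring
      rw [e]
      refine Tendsto.const_mul _ (Tendsto.log ?_ (by positivity))
      refine Tendsto.const_add _ ?_
      exact tendsto_inv_atTop_zero.comp (tendsto_pow_atTop (by norm_num))
  exact tendsto_nhds_unique lim2 lim1

end Pool.Agent.Helper676.CSLog

namespace Pool.Agent.Helper676.CS

open MeasureTheory Laplacian InnerProductSpace Filter Topology Set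

/-- transfer of the Laplacian -/
lemma laplacian_transfer {φ : ℝ × ℝ → ℝ} (hφ : ContDiff ℝ 2 φ) (w : ℂ) :
    Δ (fun z : ℂ => φ (z.re, z.im)) w = lap φ (w.re, w.im) := by
  have hd : Differentiable ℝ (fderiv ℝ φ) :=
    (hφ.fderiv_right (m := 1) (by norm_num)).differentiable (by norm_num)
  have h2 : ∀ (e : ℝ × ℝ) (z : ℝ × ℝ), dd e (dd e φ) z = fderiv ℝ (fderiv ℝ φ) z e e := by
    intro e z
    have : fderiv ℝ (fun y => fderiv ℝ φ y e) z = (fderiv ℝ (fderiv ℝ φ) z).flip e := by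
      rw [fderiv_clm_apply (hd z) (differentiableAt_const _)]
      simp
    have h3 : dd e (dd e φ) z = fderiv ℝ (fun y => fderiv ℝ φ y e) z e := rfl
    rw [h3, this]
    rfl
  set L : ℂ →L[ℝ] ℝ × ℝ := Complex.reCLM.prod Complex.imCLM with hL
  have e0 : (fun z : ℂ => φ (z.re, z.im)) = φ ∘ L := rfl
  have hit : ∀ v : ℂ, iteratedFDeriv ℝ 2 (φ ∘ L) w ![v, v] = dd (L v) (dd (L v) φ) (L w) := by
    intro v
    rw [L.iteratedFDeriv_comp_right hφ w (by norm_num), h2]
    rw [ContinuousMultilinearMap.compContinuousLinearMap_apply, iteratedFDeriv_two_apply]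
    simp
  rw [e0, laplacian_eq_iteratedFDeriv_complexPlane]
  simp only
  rw [hit, hit, lap, dx_eq, dy_eq]
  simp [hL]

lemma integral_transfer (f : ℝ × ℝ → ℝ) :
    ∫ z : ℂ, f (z.re, z.im) = ∫ z, f z := by
  have := Complex.volume_preserving_equiv_real_prod.integral_comp' f
  exact this

/-- `x² + y²` -/
noncomputable def sq (z : ℝ × ℝ) : ℝ := z.1 ^ 2 + z.2 ^ 2

lemma sq_nonneg' (z : ℝ × ℝ) : 0 ≤ sq z := by unfold sq; positivity

lemma continuous_sq : Continuous sq := by unfold sq; fun_prop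

lemma contDiff_sq {n : WithTop ℕ∞} : ContDiff ℝ n sq := by unfold sq; fun_prop

lemma sq_eq_zero {z : ℝ × ℝ} : sq z = 0 ↔ z = 0 := by
  unfold sq
  constructor
  · intro h
    have h1 : z.1 = 0 := by nlinarith [sq_nonneg z.1, sq_nonneg z.2]
    have h2 : z.2 = 0 := by nlinarith [sq_nonneg z.1, sq_nonneg z.2]
    exact Prod.ext h1 h2
  · rintro rfl; simp

lemma sq_pos' {z : ℝ × ℝ} (h : z ≠ 0) : 0 < sq z :=
  lt_of_le_of_ne (sq_nonneg' z) fun h' => h (sq_eq_zero.mp h'.symm)

lemma norm_sq_le_sq (z : ℝ × ℝ) : ‖z‖ ^ 2 ≤ sq z := by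
  unfold sq
  rw [Prod.norm_def]
  rcases max_cases ‖z.1‖ ‖z.2‖ with ⟨h, _⟩ | ⟨h, _⟩
  · rw [h, Real.norm_eq_abs, sq_abs]; nlinarith [sq_nonneg z.2]
  · rw [h, Real.norm_eq_abs, sq_abs]; nlinarith [sq_nonneg z.1]

lemma sq_le_norm_sq (z : ℝ × ℝ) : sq z ≤ 2 * ‖z‖ ^ 2 := by
  unfold sq
  have n1 : z.1 ^ 2 ≤ ‖z‖ ^ 2 := by
    rw [← sq_abs]; exact pow_le_pow_left₀ (abs_nonneg _) (norm_fst_le z) 2
  have n2 : z.2 ^ 2 ≤ ‖z‖ ^ 2 := by
    rw [← sq_abs]; exact pow_le_pow_left₀ (abs_nonneg _) (norm_snd_le z) 2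
  linarith

lemma sq_neg' (z : ℝ × ℝ) : sq (-z) = sq z := by unfold sq; simp

lemma log_sq_transfer (w : ℂ) : Real.log (sq (w.re, w.im)) = 2 * Real.log ‖w‖ := by
  have : sq (w.re, w.im) = ‖w‖ ^ 2 := by
    rw [Complex.sq_norm, Complex.normSq_apply, sq]; ring
  rw [this, Real.log_pow]; norm_num

/-- `Δ log(x²+y²) = 4π δ` -/
lemma integral_log_lap {φ : ℝ × ℝ → ℝ} (hφ : ContDiff ℝ 2 φ) (hc : HasCompactSupport φ) :
    ∫ z, Real.log (sq z) * lap φ z = 4 * Real.pi * φ 0 := by
  have hφ' : ContDiff ℝ 2 (fun z : ℂ => φ (z.re, z.im)) :=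
    hφ.comp ((Complex.reCLM.prod Complex.imCLM).contDiff)
  have hc' : HasCompactSupport (fun z : ℂ => φ (z.re, z.im)) :=
    hc.comp_homeomorph Complex.equivRealProdCLM.toHomeomorph
  have h := CSLog.integral_log_laplacian hφ' hc'
  rw [← integral_transfer]
  simp only [log_sq_transfer]
  simp only [laplacian_transfer hφ] at h
  have e : ∀ z : ℂ, 2 * Real.log ‖z‖ * lap φ (z.re, z.im) =
      2 * (Real.log ‖z‖ * lap φ (z.re, z.im)) := fun z => by ring
  simp_rw [e]
  rw [integral_const_mul, h]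
  simp only [Complex.zero_re, Complex.zero_im, Prod.mk_zero_zero]
  ring

lemma locInt_log_sq : LocallyIntegrable (fun z : ℝ × ℝ => Real.log (sq z)) := by
  rw [locallyIntegrable_iff]
  intro S hS
  have h1 : IsCompact (Complex.equivRealProdCLM.toHomeomorph ⁻¹' S) :=
    (Homeomorph.isCompact_preimage _).mpr hS
  have h2 : IntegrableOn (fun w : ℂ => 2 * Real.log ‖w‖) (Complex.measurableEquivRealProd ⁻¹' S) := by
    have := (CSLog.locInt_log.integrableOn_isCompact h1).const_mul 2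
    exact this
  have h3 := (Complex.volume_preserving_equiv_real_prod.integrableOn_comp_preimage
    Complex.measurableEquivRealProd.measurableEmbedding
    (f := fun z : ℝ × ℝ => Real.log (sq z)) (s := S)).mp
  apply h3
  refine h2.congr_fun_ae (Eventually.of_forall fun w => ?_)
  simp only [Function.comp_apply]
  exact (log_sq_transfer w).symm

end Pool.Agent.Helper676.CS
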