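import Pool.Agent.Helper676.CS5

set_option autoImplicit false

namespace Pool.Agent.Helper676.CS

open MeasureTheory Filter Topology Set

lemma hasDerivAt_glue {f₁ f₂ f₁' f₂' : ℝ → ℝ} (a : ℝ) (h₁ : ∀ x ≤ a, HasDerivAt f₁ (f₁' x) x)
    (h₂ : ∀ x, a ≤ x → HasDerivAt f₂ (f₂' x) x) (hv : f₁ a = f₂ a) (hd : f₁' a = f₂' a) (x : ℝ) :
    HasDerivAt (fun u => if u ≤ a then f₁ u else f₂ u) (if x ≤ a then f₁' x else f₂' x) x := by
  rcases lt_trichotomy x a with hx | hx | hx
  · rw [if_pos hx.le]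
    refine (h₁ x hx.le).congr_of_eventuallyEq ?_
    filter_upwards [Iio_mem_nhds hx] with u hu
    exact if_pos (le_of_lt hu)
  · subst hx
    rw [if_pos le_rfl]
    have e1 : HasDerivWithinAt (fun u => if u ≤ x then f₁ u else f₂ u) (f₁' x) (Iic x) x := by
      refine (h₁ x le_rfl).hasDerivWithinAt.congr (fun u hu => if_pos hu) (if_pos le_rfl)
    have e2 : HasDerivWithinAt (fun u => if u ≤ x then f₁ u else f₂ u) (f₁' x) (Ici x) x := by
      rw [hd]
      refine (h₂ x le_rfl).hasDerivWithinAt.congr (fun u hu => ?_) ?_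
      · rcases eq_or_lt_of_le (show x ≤ u from hu) with rfl | hlt
        · simp [hv]
        · exact if_neg (not_le.mpr hlt)
      · simp [hv]
    have := e1.union e2
    rwa [Iic_union_Ici, hasDerivWithinAt_univ] at this
  · rw [if_neg (not_le.mpr hx)]
    refine (h₂ x hx.le).congr_of_eventuallyEq ?_
    filter_upwards [Ioi_mem_nhds hx] with u hu
    exact if_neg (not_le.mpr hu)

/-- the profile -/
noncomputable def Uf (k : ℕ) (s x : ℝ) : ℝ :=
  if x ≤ s then -k * Real.log s + (k / (k + 1)) *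
    ((1 - (x / s) ^ (k + 1)) + (1 - (x / s) ^ (k + 1)) ^ 2 / 2) else -k * Real.log x

noncomputable def Uf1 (k : ℕ) (s x : ℝ) : ℝ :=
  if x ≤ s then -(k / s) * (2 * (x / s) ^ k - (x / s) ^ (2 * k + 1)) else -k * x⁻¹

noncomputable def Uf2 (k : ℕ) (s x : ℝ) : ℝ :=
  if x ≤ s then -(k / s ^ 2) * (2 * k * (x / s) ^ (k - 1) - (2 * k + 1) * (x / s) ^ (2 * k))
    else k * (x⁻¹) ^ 2

lemma hasDerivAt_Uf (k : ℕ) {s : ℝ} (hs : 0 < s) (x : ℝ) :
    HasDerivAt (Uf k s) (Uf1 k s x) x := by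
  unfold Uf Uf1
  refine hasDerivAt_glue (f₁ := fun x => -k * Real.log s + (k / (k + 1)) *
    ((1 - (x / s) ^ (k + 1)) + (1 - (x / s) ^ (k + 1)) ^ 2 / 2)) (f₂ := fun x => -k * Real.log x)
    (f₁' := fun x => -(k / s) * (2 * (x / s) ^ k - (x / s) ^ (2 * k + 1)))
    (f₂' := fun x => -k * x⁻¹) s (fun x _ => ?_) (fun x hx => ?_) ?_ ?_ x
  · have h1 : HasDerivAt (fun x : ℝ => (x / s) ^ (k + 1)) ((k + 1) * (x / s) ^ k * (1 / s)) x := by
      have := ((hasDerivAt_id x).div_const s).pow (k + 1)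
      exact this.congr_deriv (by simp)
    have h2 : HasDerivAt (fun x : ℝ => 1 - (x / s) ^ (k + 1)) (-((k + 1) * (x / s) ^ k * (1 / s))) x := by
      simpa using h1.const_sub 1
    have h3 := (h2.add ((h2.pow 2).div_const 2)).const_mul ((k : ℝ) / (k + 1))
    have h4 := h3.const_add (-(k : ℝ) * Real.log s)
    refine h4.congr_deriv ?_
    have hk : (k : ℝ) + 1 ≠ 0 := by positivity
    field_simp
    ring
  · have hx0 : x ≠ 0 := by linarith
    exact (Real.hasDerivAt_log hx0).const_mul (-(k : ℝ))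
  · rw [div_self hs.ne']; simp
  · rw [div_self hs.ne']; field_simp; norm_num

lemma hasDerivAt_Uf1 {k : ℕ} (hk : 1 ≤ k) {s : ℝ} (hs : 0 < s) (x : ℝ) :
    HasDerivAt (Uf1 k s) (Uf2 k s x) x := by
  unfold Uf1 Uf2
  refine hasDerivAt_glue (f₁ := fun x => -(k / s) * (2 * (x / s) ^ k - (x / s) ^ (2 * k + 1)))
    (f₂ := fun x => -k * x⁻¹)
    (f₁' := fun x => -(k / s ^ 2) * (2 * k * (x / s) ^ (k - 1) - (2 * k + 1) * (x / s) ^ (2 * k)))
    (f₂' := fun x => k * (x⁻¹) ^ 2) s (fun x _ => ?_) (fun x hx => ?_) ?_ ?_ x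
  · have h1 : HasDerivAt (fun x : ℝ => (x / s) ^ k) (k * (x / s) ^ (k - 1) * (1 / s)) x := by
      have := ((hasDerivAt_id x).div_const s).pow k
      exact this.congr_deriv (by simp)
    have h2 : HasDerivAt (fun x : ℝ => (x / s) ^ (2 * k + 1))
        ((2 * k + 1) * (x / s) ^ (2 * k) * (1 / s)) x := by
      have := ((hasDerivAt_id x).div_const s).pow (2 * k + 1)
      exact this.congr_deriv (by simp)
    have h3 := ((h1.const_mul 2).sub h2).const_mul (-((k : ℝ) / s))
    refine h3.congr_deriv ?_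
    field_simp
  · have hx0 : x ≠ 0 := by linarith
    have := (hasDerivAt_inv hx0).const_mul (-(k : ℝ))
    refine this.congr_deriv ?_
    field_simp
  · rw [div_self hs.ne']; field_simp; norm_num
  · rw [div_self hs.ne']; field_simp; ring

lemma continuous_Uf2 {k : ℕ} (hk : 1 ≤ k) {s : ℝ} (hs : 0 < s) : Continuous (Uf2 k s) := by
  rw [continuous_iff_continuousAt]
  intro x
  rcases lt_or_ge 0 x with hx | hx
  · -- near positive points
    have hc : ContinuousOn (Uf2 k s) (Ioi 0) := by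
      unfold Uf2
      apply ContinuousOn.if
      · intro a ha
        have : a = s := by
          have h1 := ha.2
          have : frontier {a : ℝ | a ≤ s} = {s} := by
            have : {a : ℝ | a ≤ s} = Iic s := rfl
            rw [this, frontier_Iic]
          rw [this] at h1
          exact h1
        subst this
        rw [div_self hs.ne']; field_simp; ring
      · fun_prop
      · intro a ha
        have : a ≠ 0 := ne_of_gt ha.1
        apply ContinuousAt.continuousWithinAt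
        exact ((continuousAt_inv₀ this).pow 2).const_mul _
    exact hc.continuousAt (Ioi_mem_nhds hx)
  · have : Uf2 k s =ᶠ[𝓝 x] fun x => -(k / s ^ 2) * (2 * k * (x / s) ^ (k - 1) -
        (2 * k + 1) * (x / s) ^ (2 * k)) := by
      filter_upwards [Iio_mem_nhds (show x < s by linarith)] with y hy
      exact if_pos (le_of_lt hy)
    refine ContinuousAt.congr ?_ this.symm
    fun_prop

lemma contDiff_Uf {k : ℕ} (hk : 1 ≤ k) {s : ℝ} (hs : 0 < s) : ContDiff ℝ 2 (Uf k s) := by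
  have h1 : deriv (Uf k s) = Uf1 k s := funext fun x => (hasDerivAt_Uf k hs x).deriv
  have h2 : deriv (Uf1 k s) = Uf2 k s := funext fun x => (hasDerivAt_Uf1 hk hs x).deriv
  have h3 : ContDiff ℝ 1 (Uf1 k s) := by
    rw [contDiff_one_iff_deriv]
    exact ⟨fun x => (hasDerivAt_Uf1 hk hs x).differentiableAt, by rw [h2]; exact continuous_Uf2 hk hs⟩
  rw [show (2 : WithTop ℕ∞) = 1 + 1 by norm_num, contDiff_succ_iff_deriv]
  refine ⟨fun x => (hasDerivAt_Uf k hs x).differentiableAt, by simp, ?_⟩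
  rw [h1]; exact h3

/-- the vortex core function: `Δ b = 4πk δ - μ` -/
noncomputable def bf (k : ℕ) (s : ℝ) (z : ℝ × ℝ) : ℝ :=
  if z = 0 then 0 else k * Real.log (sq z) + Uf k s (sq z)

noncomputable def muf (k : ℕ) (s : ℝ) (z : ℝ × ℝ) : ℝ :=
  if sq z ≤ s then 8 * k * (k + 1) / s * (sq z / s) ^ k * (1 - (sq z / s) ^ (k + 1)) else 0

lemma bf_zero_of_le {k : ℕ} {s : ℝ} (hs : 0 < s) {z : ℝ × ℝ} (h : s ≤ sq z) : bf k s z = 0 := by
  unfold bf
  split_ifs with h0
  · rfl
  · rcases h.eq_or_lt with h1 | h1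
    · rw [Uf, if_pos h1.symm.le, ← h1, div_self hs.ne']; simp
    · rw [Uf, if_neg (not_le.mpr h1)]; ring

lemma muf_zero_of_le {k : ℕ} {s : ℝ} (hs : 0 < s) {z : ℝ × ℝ} (h : s ≤ sq z) : muf k s z = 0 := by
  unfold muf
  split_ifs with h0
  · have : sq z = s := le_antisymm h0 h
    rw [this, div_self hs.ne']; simp
  · rfl

lemma bf_eq {k : ℕ} {s : ℝ} (hs : 0 < s) {z : ℝ × ℝ} (h : sq z ≤ s) (hz : z ≠ 0) :
    bf k s z = (k / (k + 1)) * (Real.log ((sq z / s) ^ (k + 1)) +
      ((1 - (sq z / s) ^ (k + 1)) + (1 - (sq z / s) ^ (k + 1)) ^ 2 / 2)) := by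
  have hk : (k : ℝ) + 1 ≠ 0 := by positivity
  rw [bf, if_neg hz, Uf, if_pos h, Real.log_pow, Real.log_div (sq_pos' hz).ne' hs.ne']
  push_cast
  field_simp
  ring

lemma log_add_le {τ : ℝ} (h0 : 0 < τ) (h1 : τ ≤ 1) :
    Real.log τ + ((1 - τ) + (1 - τ) ^ 2 / 2) ≤ 0 := by
  have hd : ∀ x ∈ Ioc (0 : ℝ) 1, HasDerivAt (fun τ : ℝ => Real.log τ + ((1 - τ) + (1 - τ) ^ 2 / 2))
      (x⁻¹ - 1 - (1 - x)) x := by
    intro x hx
    have a : HasDerivAt (fun τ : ℝ => 1 - τ) (-1) x := by simpa using (hasDerivAt_id x).const_sub 1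
    have := (Real.hasDerivAt_log hx.1.ne').add (a.add ((a.pow 2).div_const 2))
    refine this.congr_deriv ?_
    ring
  have hm : MonotoneOn (fun τ : ℝ => Real.log τ + ((1 - τ) + (1 - τ) ^ 2 / 2)) (Ioc 0 1) := by
    apply monotoneOn_of_deriv_nonneg (convex_Ioc 0 1)
    · exact fun x hx => (hd x hx).continuousAt.continuousWithinAt
    · intro x hx
      rw [interior_Ioc] at hx
      exact (hd x ⟨hx.1, hx.2.le⟩).differentiableAt.differentiableWithinAt
    · intro x hx
      rw [interior_Ioc] at hx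
      rw [(hd x ⟨hx.1, hx.2.le⟩).deriv]
      have : x⁻¹ - 1 - (1 - x) = (1 - x) ^ 2 / x := by
        have := hx.1.ne'
        field_simp
        try ring
      rw [this]
      have := hx.1
      positivity
  have := hm ⟨h0, h1⟩ ⟨one_pos, le_rfl⟩ h1
  simpa using this

lemma bf_nonpos (k : ℕ) {s : ℝ} (hs : 0 < s) (z : ℝ × ℝ) : bf k s z ≤ 0 := by
  by_cases h : s ≤ sq z
  · rw [bf_zero_of_le hs h]
  · by_cases hz : z = 0
    · simp [bf, hz]
    · push Not at h
      rw [bf_eq hs h.le hz]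
      have h1 : 0 < sq z / s := div_pos (sq_pos' hz) hs
      have h2 : sq z / s ≤ 1 := by rw [div_le_one hs]; exact h.le
      exact mul_nonpos_of_nonneg_of_nonpos (by positivity)
        (log_add_le (by positivity) (pow_le_one₀ h1.le h2))

lemma pow_le_exp_bf (k : ℕ) {s : ℝ} (hs : 0 < s) {z : ℝ × ℝ} (h : sq z ≤ s) :
    (sq z / s) ^ k ≤ Real.exp (bf k s z) := by
  have h0 : 0 ≤ sq z / s := div_nonneg (sq_nonneg' z) hs.le
  have h2 : sq z / s ≤ 1 := by rw [div_le_one hs]; exact h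
  by_cases hz : z = 0
  · simp only [bf, hz, if_true, Real.exp_zero]
    rw [hz] at h0 h2
    exact pow_le_one₀ h0 h2
  · have h1 : 0 < sq z / s := div_pos (sq_pos' hz) hs
    rw [bf_eq hs h hz, ← Real.exp_log (pow_pos h1 k)]
    apply Real.exp_le_exp.mpr
    rw [Real.log_pow, Real.log_pow]
    have hk : (k : ℝ) + 1 ≠ 0 := by positivity
    have e : (k : ℝ) / (k + 1) * (((k + 1 : ℕ) : ℝ) * Real.log (sq z / s) +
        (1 - (sq z / s) ^ (k + 1) + (1 - (sq z / s) ^ (k + 1)) ^ 2 / 2)) =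
        k * Real.log (sq z / s) + k / (k + 1) *
        (1 - (sq z / s) ^ (k + 1) + (1 - (sq z / s) ^ (k + 1)) ^ 2 / 2) := by
      push_cast
      field_simp
    rw [e]
    have h3 : 0 ≤ 1 - (sq z / s) ^ (k + 1) := by
      have := pow_le_one₀ (n := k + 1) h0 h2; linarith
    have : 0 ≤ (k : ℝ) / (k + 1) *
        (1 - (sq z / s) ^ (k + 1) + (1 - (sq z / s) ^ (k + 1)) ^ 2 / 2) := by positivity
    linarith

lemma muf_nonneg (k : ℕ) {s : ℝ} (hs : 0 < s) (z : ℝ × ℝ) : 0 ≤ muf k s z := by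
  unfold muf
  split_ifs with h
  · have h0 : 0 ≤ sq z / s := div_nonneg (sq_nonneg' z) hs.le
    have h2 : sq z / s ≤ 1 := by rw [div_le_one hs]; exact h
    have h3 : 0 ≤ 1 - (sq z / s) ^ (k + 1) := by
      have := pow_le_one₀ (n := k + 1) h0 h2; linarith
    positivity
  · exact le_rfl

lemma muf_le (k : ℕ) {s : ℝ} (hs : 0 < s) {z : ℝ × ℝ} (h : sq z ≤ s) :
    muf k s z ≤ 8 * k * (k + 1) / s * (sq z / s) ^ k := by
  rw [muf, if_pos h]
  have h0 : 0 ≤ sq z / s := div_nonneg (sq_nonneg' z) hs.le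
  have h3 : 1 - (sq z / s) ^ (k + 1) ≤ 1 := by
    have : 0 ≤ (sq z / s) ^ (k + 1) := by positivity
    linarith
  exact mul_le_of_le_one_right (by positivity) h3

lemma muf_le_const (k : ℕ) {s : ℝ} (hs : 0 < s) (z : ℝ × ℝ) :
    muf k s z ≤ 8 * k * (k + 1) / s := by
  by_cases h : sq z ≤ s
  · refine (muf_le k hs h).trans ?_
    have h0 : 0 ≤ sq z / s := div_nonneg (sq_nonneg' z) hs.le
    have h2 : sq z / s ≤ 1 := by rw [div_le_one hs]; exact h
    exact mul_le_of_le_one_right (by positivity) (pow_le_one₀ h0 h2)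
  · rw [muf, if_neg h]; positivity

lemma muf_neg (k : ℕ) (s : ℝ) (z : ℝ × ℝ) : muf k s (-z) = muf k s z := by
  unfold muf; rw [sq_neg']

lemma bf_neg (k : ℕ) (s : ℝ) (z : ℝ × ℝ) : bf k s (-z) = bf k s z := by
  unfold bf; rw [sq_neg']; simp

lemma measurable_Uf (k : ℕ) (s : ℝ) : Measurable (Uf k s) := by
  unfold Uf
  refine Measurable.ite measurableSet_Iic (by fun_prop) (by fun_prop)

lemma measurable_sq : Measurable sq := continuous_sq.measurable

lemma measurable_bf (k : ℕ) (s : ℝ) : Measurable (bf k s) := by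
  unfold bf
  refine Measurable.ite (measurableSet_singleton 0) measurable_const ?_
  exact ((Real.measurable_log.comp measurable_sq).const_mul _).add
    ((measurable_Uf k s).comp measurable_sq)

lemma measurable_muf (k : ℕ) (s : ℝ) : Measurable (muf k s) := by
  unfold muf
  have := measurable_sq
  refine Measurable.ite (measurable_sq measurableSet_Iic) ?_ measurable_const
  fun_prop

lemma norm_le_of_sq_le {s : ℝ} {z : ℝ × ℝ} (h : sq z ≤ s) : ‖z‖ ≤ Real.sqrt s :=
  Real.le_sqrt_of_sq_le ((norm_sq_le_sq z).trans h)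

lemma support_bf {k : ℕ} {s : ℝ} (hs : 0 < s) :
    Function.support (bf k s) ⊆ Metric.closedBall 0 (Real.sqrt s) := by
  intro z hz
  rw [Metric.mem_closedBall, dist_zero_right]
  by_contra h
  apply hz
  apply bf_zero_of_le hs
  by_contra h'
  exact h (norm_le_of_sq_le (not_le.mp h').le)

lemma support_muf {k : ℕ} {s : ℝ} (hs : 0 < s) :
    Function.support (muf k s) ⊆ Metric.closedBall 0 (Real.sqrt s) := by
  intro z hz
  rw [Metric.mem_closedBall, dist_zero_right]
  by_contra h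
  apply hz
  apply muf_zero_of_le hs
  by_contra h'
  exact h (norm_le_of_sq_le (not_le.mp h').le)

lemma bf_ae (k : ℕ) (s : ℝ) : ∀ᵐ z : ℝ × ℝ, bf k s z = k * Real.log (sq z) + Uf k s (sq z) := by
  have hz : ∀ᵐ z : ℝ × ℝ, z ≠ 0 := by
    rw [ae_iff]; simp
  filter_upwards [hz] with z hz0
  rw [bf, if_neg hz0]

lemma contDiff_r {k : ℕ} (hk : 1 ≤ k) {s : ℝ} (hs : 0 < s) :
    ContDiff ℝ 2 (fun z : ℝ × ℝ => Uf k s (sq z)) := (contDiff_Uf hk hs).comp contDiff_sq

lemma integrable_bf {k : ℕ} (hk : 1 ≤ k) {s : ℝ} (hs : 0 < s) : Integrable (bf k s) := by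
  rw [← integrableOn_iff_integrable_of_support_subset (support_bf hs)]
  have h1 : IntegrableOn (fun z : ℝ × ℝ => k * Real.log (sq z) + Uf k s (sq z))
      (Metric.closedBall 0 (Real.sqrt s)) := by
    apply Integrable.add
    · exact (locInt_log_sq.integrableOn_isCompact (isCompact_closedBall _ _)).const_mul _
    · exact (contDiff_r hk hs).continuous.continuousOn.integrableOn_compact (isCompact_closedBall _ _)
  refine h1.congr_fun_ae ?_
  filter_upwards [ae_restrict_of_ae (bf_ae k s)] with z hz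
  exact hz.symm

lemma integrable_muf (k : ℕ) {s : ℝ} (hs : 0 < s) : Integrable (muf k s) := by
  rw [← integrableOn_iff_integrable_of_support_subset (support_muf hs)]
  refine Measure.integrableOn_of_bounded (M := 8 * k * (k + 1) / s)
    (isCompact_closedBall _ _).measure_ne_top (measurable_muf k s).aestronglyMeasurable ?_
  refine Eventually.of_forall fun z => ?_
  rw [Real.norm_eq_abs, abs_of_nonneg (muf_nonneg k hs z)]
  exact muf_le_const k hs z

lemma lap_r {k : ℕ} (hk : 1 ≤ k) {s : ℝ} (hs : 0 < s) (z : ℝ × ℝ) :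
    lap (fun z : ℝ × ℝ => Uf k s (sq z)) z = - muf k s z := by
  have h := lap_comp_sq (z := z) (U := Uf k s) (U' := Uf1 k s) (U'' := Uf2 k s)
    (Eventually.of_forall fun x => hasDerivAt_Uf k hs x) (hasDerivAt_Uf1 hk hs _)
  have e : (fun z : ℝ × ℝ => Uf k s (sq z)) = fun y : ℝ × ℝ => Uf k s (y.1 ^ 2 + y.2 ^ 2) := rfl
  rw [e, h]
  change 4 * sq z * Uf2 k s (sq z) + 4 * Uf1 k s (sq z) = _
  unfold Uf1 Uf2 muf
  split_ifs with h0
  · obtain ⟨j, rfl⟩ : ∃ j, k = j + 1 := ⟨k - 1, by omega⟩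
    simp only [Nat.add_sub_cancel]
    set σ := sq z / s with hσ
    have hx : sq z = s * σ := by rw [hσ]; field_simp
    rw [hx]
    push_cast
    field_simp
    ring
  · have : sq z ≠ 0 := by
      push Not at h0; linarith
    field_simp
    ring

/-- `Δ b = 4πk δ - μ`, compactly supported test functions -/
lemma bf_lap_compact {k : ℕ} (hk : 1 ≤ k) {s : ℝ} (hs : 0 < s) {φ : ℝ × ℝ → ℝ}
    (hφ : ContDiff ℝ 2 φ) (hc : HasCompactSupport φ) :
    ∫ z, bf k s z * lap φ z = 4 * Real.pi * k * φ 0 - ∫ z, muf k s z * φ z := by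
  have h1 : ∫ z, bf k s z * lap φ z =
      ∫ z, (k * (Real.log (sq z) * lap φ z) + Uf k s (sq z) * lap φ z) := by
    apply integral_congr_ae
    filter_upwards [bf_ae k s] with z hz
    rw [hz]; ring
  rw [h1, integral_add, integral_const_mul, integral_log_lap hφ hc,
    green (contDiff_r hk hs) hφ hc]
  · simp_rw [lap_r hk hs]
    have : ∀ z, -muf k s z * φ z = - (muf k s z * φ z) := fun z => by ring
    simp_rw [this]
    rw [integral_neg]; ring
  · have := locInt_log_sq.integrable_smul_right_of_hasCompactSupport (continuous_lap hφ)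
      (hasCompactSupport_lap hc)
    exact this.const_mul _
  · exact ((contDiff_r hk hs).continuous.mul (continuous_lap hφ)).integrable_of_hasCompactSupport
      (hasCompactSupport_lap hc).mul_left

/-- `Δ b = 4πk δ - μ` -/
lemma bf_lap {k : ℕ} (hk : 1 ≤ k) {s : ℝ} (hs : 0 < s) {φ : ℝ × ℝ → ℝ}
    (hφ : ContDiff ℝ 2 φ) :
    ∫ z, bf k s z * lap φ z = 4 * Real.pi * k * φ 0 - ∫ z, muf k s z * φ z := by
  have hs' := Real.sqrt_nonneg s
  let χ : ContDiffBump (0 : ℝ × ℝ) := ⟨Real.sqrt s + 1, Real.sqrt s + 2, by linarith, by linarith⟩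
  have h := bf_lap_compact hk hs (φ := fun z => χ z * φ z) (χ.contDiff.mul hφ)
    χ.hasCompactSupport.mul_right
  have e1 : ∀ z ∈ Metric.ball (0 : ℝ × ℝ) (Real.sqrt s + 1), χ z * φ z = φ z := by
    intro z hz
    rw [χ.one_of_mem_closedBall (Metric.ball_subset_closedBall hz), one_mul]
  have e2 : ∀ z ∈ Metric.ball (0 : ℝ × ℝ) (Real.sqrt s + 1),
      lap (fun z => χ z * φ z) z = lap φ z := by
    intro z hz
    have hev : ∀ w ∈ Metric.ball (0 : ℝ × ℝ) (Real.sqrt s + 1),
        (fun z => χ z * φ z) =ᶠ[𝓝 w] φ := fun w hw => by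
      filter_upwards [Metric.isOpen_ball.mem_nhds hw] with y hy using e1 y hy
    have hev1 : ∀ e, dd e (fun z => χ z * φ z) =ᶠ[𝓝 z] dd e φ := fun e => by
      filter_upwards [Metric.isOpen_ball.mem_nhds hz] with y hy
      rw [dd, dd, (hev y hy).fderiv_eq]
    rw [lap, lap, dx_eq, dy_eq]
    congr 1
    · rw [dd, dd, (hev1 (1, 0)).fderiv_eq]
    · rw [dd, dd, (hev1 (0, 1)).fderiv_eq]
  have hb : ∀ z, z ∉ Metric.ball (0 : ℝ × ℝ) (Real.sqrt s + 1) → bf k s z = 0 := by
    intro z hz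
    by_contra h0
    have := support_bf hs h0
    rw [Metric.mem_closedBall] at this
    rw [Metric.mem_ball, not_lt] at hz
    linarith
  have hmu : ∀ z, z ∉ Metric.ball (0 : ℝ × ℝ) (Real.sqrt s + 1) → muf k s z = 0 := by
    intro z hz
    by_contra h0
    have := support_muf hs h0
    rw [Metric.mem_closedBall] at this
    rw [Metric.mem_ball, not_lt] at hz
    linarith
  have r1 : ∀ z, bf k s z * lap (fun z => χ z * φ z) z = bf k s z * lap φ z := by
    intro z
    by_cases hz : z ∈ Metric.ball (0 : ℝ × ℝ) (Real.sqrt s + 1)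
    · rw [e2 z hz]
    · rw [hb z hz]; ring
  have r2 : ∀ z, muf k s z * (χ z * φ z) = muf k s z * φ z := by
    intro z
    by_cases hz : z ∈ Metric.ball (0 : ℝ × ℝ) (Real.sqrt s + 1)
    · rw [e1 z hz]
    · rw [hmu z hz]; ring
  simp_rw [r1, r2] at h
  rw [h]
  have : χ 0 = 1 := χ.one_of_mem_closedBall (Metric.mem_closedBall_self (by linarith))
  rw [this, one_mul]

/-- total mass of `μ` -/
lemma integral_muf {k : ℕ} (hk : 1 ≤ k) {s : ℝ} (hs : 0 < s) :
    ∫ z, muf k s z = 4 * Real.pi * k := by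
  have h := bf_lap hk hs (φ := fun _ => 1) contDiff_const
  have : lap (fun _ : ℝ × ℝ => (1 : ℝ)) = fun _ => 0 := by
    ext z
    have : ∀ e, dd e (fun _ : ℝ × ℝ => (1 : ℝ)) = fun _ => 0 := by
      intro e; ext w; simp [dd]
    rw [lap, dx_eq, dy_eq, this, this]
    simp [dd]
  rw [this] at h
  simp only [mul_zero, integral_zero, mul_one] at h
  linarith

end Pool.Agent.Helper676.CS
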