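import Pool.Agent.Helper676.CS6

set_option autoImplicit false

namespace Pool.Agent.Helper676.CS

open MeasureTheory Filter Topology Set

/-- lattice vector of `ℤ × nℤ` -/
noncomputable def lt (n : ℕ) (a : ℤ × ℤ) : ℝ × ℝ := ((a.1 : ℝ), (n : ℝ) * (a.2 : ℝ))

lemma lt_neg (n : ℕ) (a : ℤ × ℤ) : lt n (-a) = - lt n a := by
  unfold lt; ext <;> simp

lemma lt_add (n : ℕ) (a b : ℤ × ℤ) : lt n (a + b) = lt n a + lt n b := by
  unfold lt; ext <;> simp; ring

/-- index of the tile containing `z` -/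
noncomputable def ix (n : ℕ) (z : ℝ × ℝ) : ℤ × ℤ := (⌊z.1⌋, ⌊z.2 / n⌋)

lemma measurable_ix (n : ℕ) : Measurable (ix n) := by
  unfold ix
  exact (Int.measurable_floor.comp measurable_fst).prodMk
    (Int.measurable_floor.comp (measurable_snd.div_const _))

/-- the cell -/
def Qc (n : ℕ) : Set (ℝ × ℝ) := Ico (0 : ℝ) 1 ×ˢ Ico (0 : ℝ) n

lemma ix_sub {n : ℕ} (hn : 1 ≤ n) (z : ℝ × ℝ) (a : ℤ × ℤ) : ix n (z - lt n a) = ix n z - a := by
  have hn0 : (n : ℝ) ≠ 0 := by positivity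
  unfold ix lt
  ext
  · simp
  · simp only [Prod.snd_sub]
    have : (z.2 - n * (a.2 : ℝ)) / n = z.2 / n - a.2 := by field_simp
    rw [this, Int.floor_sub_intCast]

lemma mem_Qc_iff {n : ℕ} (hn : 1 ≤ n) (z : ℝ × ℝ) : z ∈ Qc n ↔ ix n z = 0 := by
  have hn0 : (0 : ℝ) < n := by positivity
  unfold Qc ix
  rw [Prod.mk_eq_zero, mem_prod, Int.floor_eq_zero_iff, Int.floor_eq_zero_iff]
  simp only [mem_Ico]
  have e1 : 0 ≤ z.2 / n ↔ 0 ≤ z.2 := by
    constructor
    · intro h
      have := mul_nonneg h hn0.le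
      rwa [div_mul_cancel₀ _ hn0.ne'] at this
    · intro h; positivity
  rw [e1, div_lt_one hn0]

lemma measurableSet_Qc (n : ℕ) : MeasurableSet (Qc n) := measurableSet_Ico.prod measurableSet_Ico

lemma hasSum_tile {n : ℕ} (hn : 1 ≤ n) {h : ℝ × ℝ → ℝ} (hh : Integrable h) :
    HasSum (fun a => ∫ y in Qc n, h (y + lt n a)) (∫ y, h y) := by
  have h1 := hasSum_integral_iUnion (μ := (volume : Measure (ℝ × ℝ))) (f := h)
    (s := fun a : ℤ × ℤ => ix n ⁻¹' {a}) (fun a => measurable_ix n (measurableSet_singleton a))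
    (fun a b hab => by
      apply Set.disjoint_left.mpr
      intro z hz hz'
      exact hab (hz.symm.trans hz')) hh.integrableOn
  have h2 : ⋃ a : ℤ × ℤ, ix n ⁻¹' {a} = univ := by
    ext z; simp
  rw [h2, setIntegral_univ] at h1
  refine h1.congr_fun ?_
  intro a
  have hset : ix n ⁻¹' {a} = (fun z => z - lt n a) ⁻¹' (Qc n) := by
    ext z
    simp only [mem_preimage, mem_singleton_iff, mem_Qc_iff hn, ix_sub hn]
    rw [sub_eq_zero]
  have h3 := (measurePreserving_sub_right (volume : Measure (ℝ × ℝ)) (lt n a)).setIntegral_preimage_emb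
    (measurableEmbedding_subRight (lt n a)) (fun y => h (y + lt n a)) (Qc n)
  simp only [sub_add_cancel] at h3
  rw [hset, h3]

lemma summable_tile {n : ℕ} (hn : 1 ≤ n) {h : ℝ × ℝ → ℝ} (hh : Integrable h) :
    Summable (fun a => ∫ y in Qc n, ‖h (y + lt n a)‖) :=
  (hasSum_tile hn hh.norm).summable

lemma integral_tile {n : ℕ} (hn : 1 ≤ n) {h : ℝ × ℝ → ℝ} (hh : Integrable h) :
    ∫ y in Qc n, ∑' a, h (y + lt n a) = ∫ y, h y := by
  have h1 := hasSum_integral_of_summable_integral_norm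
    (μ := (volume : Measure (ℝ × ℝ)).restrict (Qc n)) (F := fun a y => h (y + lt n a))
    (fun a => (hh.comp_add_right (lt n a)).integrableOn) (summable_tile hn hh)
  exact h1.unique (hasSum_tile hn hh)

/-- periodisation -/
noncomputable def per (n : ℕ) (h : ℝ × ℝ → ℝ) (z : ℝ × ℝ) : ℝ := ∑' a : ℤ × ℤ, h (z - lt n a)

lemma integral_per {n : ℕ} (hn : 1 ≤ n) {h : ℝ × ℝ → ℝ} (hh : Integrable h) :
    ∫ y in Qc n, per n h y = ∫ y, h y := by
  rw [← integral_tile hn hh]
  congr 1; ext y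
  rw [per, ← (Equiv.neg (ℤ × ℤ)).tsum_eq]
  congr 1; ext a
  rw [Equiv.neg_apply, lt_neg, sub_neg_eq_add]

lemma integral_per_sub {n : ℕ} (hn : 1 ≤ n) {h : ℝ × ℝ → ℝ} (hh : Integrable h) (x : ℝ × ℝ) :
    ∫ y in Qc n, per n h (x - y) = ∫ y, h y := by
  rw [← integral_sub_left_eq_self h volume x, ← integral_tile hn (hh.comp_sub_left x)]
  congr 1; ext y
  rw [per]
  congr 1; ext a
  rw [sub_sub]

lemma per_periodic (n : ℕ) (h : ℝ × ℝ → ℝ) (b : ℤ × ℤ) (z : ℝ × ℝ) :
    per n h (z + lt n b) = per n h z := by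
  rw [per, per, ← (Equiv.addRight b).tsum_eq]
  congr 1; ext a
  rw [Equiv.coe_addRight, lt_add]
  congr 1
  abel

lemma finite_lt {n : ℕ} (hn : 1 ≤ n) (R : ℝ) : {a : ℤ × ℤ | ‖lt n a‖ ≤ R}.Finite := by
  have hn0 : (1 : ℝ) ≤ n := by exact_mod_cast hn
  refine Set.Finite.subset ((Set.finite_Icc (-⌈R⌉) ⌈R⌉).prod (Set.finite_Icc (-⌈R⌉) ⌈R⌉)) ?_
  intro a ha
  have ha' : ‖lt n a‖ ≤ R := ha
  have h1 : |(a.1 : ℝ)| ≤ R := (norm_fst_le (lt n a)).trans ha'
  have h2 : |(n : ℝ) * a.2| ≤ R := (norm_snd_le (lt n a)).trans ha'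
  have h3 : |(a.2 : ℝ)| ≤ R := by
    rw [abs_mul, abs_of_pos (by linarith : (0 : ℝ) < n)] at h2
    nlinarith [abs_nonneg (a.2 : ℝ)]
  have key : ∀ j : ℤ, |(j : ℝ)| ≤ R → j ∈ Set.Icc (-⌈R⌉) ⌈R⌉ := by
    intro j hj
    rw [abs_le] at hj
    have hc := Int.le_ceil R
    constructor
    · have : -((⌈R⌉ : ℤ) : ℝ) ≤ j := by linarith
      exact_mod_cast this
    · have : (j : ℝ) ≤ ⌈R⌉ := by linarith
      exact_mod_cast this
  exact ⟨key _ h1, key _ h3⟩

/-- exchange of sum and integral against a compactly supported function -/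
lemma hasSum_per_mul {n : ℕ} (hn : 1 ≤ n) {g : ℝ × ℝ → ℝ} (hg : Integrable g) {r : ℝ}
    (hgs : ∀ z, r < ‖z‖ → g z = 0) {ψ : ℝ × ℝ → ℝ} (hψ : Continuous ψ) (hc : HasCompactSupport ψ) :
    HasSum (fun a => ∫ z, g (z - lt n a) * ψ z) (∫ z, per n g z * ψ z) := by
  obtain ⟨C, hC⟩ := hc.exists_bound_of_continuous hψ
  obtain ⟨R, hR⟩ := hc.isBounded.subset_closedBall 0
  have hR' : ∀ z, R < ‖z‖ → ψ z = 0 := by
    intro z hz
    by_contra h
    have := hR (subset_tsupport _ h)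
    rw [Metric.mem_closedBall, dist_zero_right] at this
    linarith
  have hint : ∀ a, Integrable (fun z => g (z - lt n a) * ψ z) := fun a =>
    (hg.comp_sub_right (lt n a)).mul_bdd hψ.aestronglyMeasurable (Eventually.of_forall hC)
  have h1 := hasSum_integral_of_summable_integral_norm
    (μ := (volume : Measure (ℝ × ℝ))) (F := fun a z => g (z - lt n a) * ψ z) hint ?_
  · have e : ∀ z, per n g z * ψ z = ∑' a, g (z - lt n a) * ψ z := by
      intro z; rw [per, tsum_mul_right]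
    simp_rw [e]
    exact h1
  · apply summable_of_hasFiniteSupport
    refine (finite_lt hn (r + R)).subset ?_
    intro a ha
    by_contra hcon
    apply ha
    have : ∀ z, ‖g (z - lt n a) * ψ z‖ = 0 := by
      intro z
      rw [norm_eq_zero]
      by_cases hz : R < ‖z‖
      · rw [hR' z hz, mul_zero]
      · rw [hgs, zero_mul]
        have h3 : r + R < ‖lt n a‖ := not_le.mp hcon
        have h4 : ‖lt n a‖ ≤ ‖z - lt n a‖ + ‖z‖ := by
          have : lt n a = z - (z - lt n a) := by abel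
          calc ‖lt n a‖ = ‖z - (z - lt n a)‖ := by rw [← this]
            _ ≤ ‖z‖ + ‖z - lt n a‖ := norm_sub_le _ _
            _ = _ := by ring
        push Not at hz
        linarith
    simp only [this, integral_zero]

/-! ### the nearest lattice point -/

/-- nearest lattice index -/
noncomputable def nr (n : ℕ) (z : ℝ × ℝ) : ℤ × ℤ := (round z.1, round (z.2 / n))

lemma quarter_le {n : ℕ} (hn : 1 ≤ n) (z : ℝ × ℝ) {a : ℤ × ℤ} (ha : a ≠ nr n z) :
    1 / 4 ≤ sq (z - lt n a) := by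
  have hn0 : (1 : ℝ) ≤ n := by exact_mod_cast hn
  have key : ∀ (x : ℝ) (j : ℤ), j ≠ round x → 1 / 2 ≤ |x - j| := by
    intro x j hj
    have h1 := abs_sub_round x
    have h2 : (1 : ℝ) ≤ |(j : ℝ) - round x| := by
      have : (1 : ℤ) ≤ |j - round x| := Int.one_le_abs (sub_ne_zero.mpr hj)
      exact_mod_cast this
    have h3 : |(j : ℝ) - round x| ≤ |x - j| + |x - round x| := by
      have : (j : ℝ) - round x = -(x - j) + (x - round x) := by ring
      rw [this]
      refine (abs_add_le _ _).trans ?_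
      rw [abs_neg]
    linarith
  have h12 : a.1 ≠ round z.1 ∨ a.2 ≠ round (z.2 / n) := by
    by_contra h
    push Not at h
    exact ha (Prod.ext h.1 h.2)
  unfold sq lt
  simp only [Prod.fst_sub, Prod.snd_sub]
  rcases h12 with h | h
  · have := key _ _ h
    have h5 : (1 / 2 : ℝ) ^ 2 ≤ |z.1 - a.1| ^ 2 := pow_le_pow_left₀ (by norm_num) this 2
    rw [sq_abs] at h5
    nlinarith [sq_nonneg (z.2 - n * (a.2 : ℝ))]
  · have := key _ _ h
    have h6 : |z.2 - n * (a.2 : ℝ)| = n * |z.2 / n - a.2| := by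
      rw [← abs_of_pos (by linarith : (0 : ℝ) < n), ← abs_mul, abs_of_pos (by linarith : (0 : ℝ) < n)]
      congr 1
      field_simp
    have h7 : 1 / 2 ≤ |z.2 - n * (a.2 : ℝ)| := by
      rw [h6]; nlinarith
    have h5 : (1 / 2 : ℝ) ^ 2 ≤ |z.2 - n * (a.2 : ℝ)| ^ 2 := pow_le_pow_left₀ (by norm_num) h7 2
    rw [sq_abs] at h5
    nlinarith [sq_nonneg (z.1 - (a.1 : ℝ))]

lemma per_bf {n : ℕ} (hn : 1 ≤ n) (k : ℕ) {s : ℝ} (hs : 0 < s) (hs4 : s ≤ 1 / 4) (z : ℝ × ℝ) :
    per n (bf k s) z = bf k s (z - lt n (nr n z)) := by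
  rw [per]
  apply tsum_eq_single
  intro a ha
  exact bf_zero_of_le hs (hs4.trans (quarter_le hn z ha))

lemma per_muf {n : ℕ} (hn : 1 ≤ n) (k : ℕ) {s : ℝ} (hs : 0 < s) (hs4 : s ≤ 1 / 4) (z : ℝ × ℝ) :
    per n (muf k s) z = muf k s (z - lt n (nr n z)) := by
  rw [per]
  apply tsum_eq_single
  intro a ha
  exact muf_zero_of_le hs (hs4.trans (quarter_le hn z ha))

lemma measurable_nr (n : ℕ) : Measurable (fun z => lt n (nr n z)) := by
  unfold lt nr
  simp only [round_eq]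
  have h1 : Measurable (fun z : ℝ × ℝ => ((⌊z.1 + 1 / 2⌋ : ℤ) : ℝ)) :=
    (measurable_from_top (f := fun j : ℤ => (j : ℝ))).comp
      (Int.measurable_floor.comp (measurable_fst.add_const _))
  have h2 : Measurable (fun z : ℝ × ℝ => (n : ℝ) * ((⌊z.2 / n + 1 / 2⌋ : ℤ) : ℝ)) :=
    ((measurable_from_top (f := fun j : ℤ => (j : ℝ))).comp
      (Int.measurable_floor.comp ((measurable_snd.div_const _).add_const _))).const_mul _
  exact h1.prodMk h2

lemma measurable_per_bf {n : ℕ} (hn : 1 ≤ n) (k : ℕ) {s : ℝ} (hs : 0 < s) (hs4 : s ≤ 1 / 4) :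
    Measurable (per n (bf k s)) := by
  have : per n (bf k s) = fun z => bf k s (z - lt n (nr n z)) :=
    funext fun z => per_bf hn k hs hs4 z
  rw [this]
  exact (measurable_bf k s).comp (measurable_id.sub (measurable_nr n))

lemma measurable_per_muf {n : ℕ} (hn : 1 ≤ n) (k : ℕ) {s : ℝ} (hs : 0 < s) (hs4 : s ≤ 1 / 4) :
    Measurable (per n (muf k s)) := by
  have : per n (muf k s) = fun z => muf k s (z - lt n (nr n z)) :=
    funext fun z => per_muf hn k hs hs4 z
  rw [this]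
  exact (measurable_muf k s).comp (measurable_id.sub (measurable_nr n))

lemma tsum_eq_finite {n : ℕ} (hn : 1 ≤ n) {φ : ℝ × ℝ → ℝ} (hc : HasCompactSupport φ) :
    Summable (fun a => φ (lt n a)) := by
  obtain ⟨R, hR⟩ := hc.isBounded.subset_closedBall 0
  apply summable_of_hasFiniteSupport
  refine (finite_lt hn R).subset ?_
  intro a ha
  have := hR (subset_tsupport _ ha)
  rwa [Metric.mem_closedBall, dist_zero_right] at this

/-- `Δ B = 4πk Σ δ - M` for the periodised functions -/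
lemma per_bf_lap {n : ℕ} (hn : 1 ≤ n) {k : ℕ} (hk : 1 ≤ k) {s : ℝ} (hs : 0 < s)
    {φ : ℝ × ℝ → ℝ} (hφ : ContDiff ℝ 2 φ) (hc : HasCompactSupport φ) :
    ∫ z, per n (bf k s) z * lap φ z =
      4 * Real.pi * k * ∑' a, φ (lt n a) - ∫ z, per n (muf k s) z * φ z := by
  have h1 := hasSum_per_mul hn (integrable_bf hk hs) (r := Real.sqrt s) (fun z hz => by
    by_contra h0
    have := support_bf hs h0
    rw [Metric.mem_closedBall, dist_zero_right] at this
    linarith) (continuous_lap hφ) (hasCompactSupport_lap hc)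
  have h2 := hasSum_per_mul hn (integrable_muf k hs) (r := Real.sqrt s) (fun z hz => by
    by_contra h0
    have := support_muf hs h0
    rw [Metric.mem_closedBall, dist_zero_right] at this
    linarith) hφ.continuous hc
  have h3 : ∀ a, ∫ z, bf k s (z - lt n a) * lap φ z =
      4 * Real.pi * k * φ (lt n a) - ∫ z, muf k s (z - lt n a) * φ z := by
    intro a
    have h4 := bf_lap hk hs (φ := fun z => φ (z - (- lt n a)))
      (hφ.comp (contDiff_id.sub contDiff_const))
    rw [lap_translate] at h4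
    have e1 : ∫ z, bf k s (z - lt n a) * lap φ z = ∫ z, bf k s z * lap φ (z - (- lt n a)) := by
      rw [← integral_add_right_eq_self (fun z => bf k s (z - lt n a) * lap φ z) (lt n a)]
      congr 1; ext z
      simp
    have e2 : ∫ z, muf k s (z - lt n a) * φ z = ∫ z, muf k s z * φ (z - (- lt n a)) := by
      rw [← integral_add_right_eq_self (fun z => muf k s (z - lt n a) * φ z) (lt n a)]
      congr 1; ext z
      simp
    rw [e1, e2, h4]
    simp
  simp_rw [h3] at h1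
  have h5 := (h1.add h2)
  simp only [sub_add_cancel] at h5
  have h6 := ((tsum_eq_finite hn hc).hasSum.mul_left (4 * Real.pi * k)).unique h5
  linarith

end Pool.Agent.Helper676.CS
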