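import Pool.Agent.Helper676.CS7

set_option autoImplicit false

namespace Pool.Agent.Helper676.CS

open MeasureTheory Filter Topology Set

open scoped Convolution

lemma two_le_infty : (2 : WithTop ℕ∞) ≤ ((⊤ : ℕ∞) : WithTop ℕ∞) :=
  WithTop.coe_le_coe.2 (le_top : (2 : ℕ∞) ≤ ⊤)

/-! ### Mollification -/

lemma cv_eq_convolution (ρ u : ℝ × ℝ → ℝ) :
    cv ρ u = (u ⋆[ContinuousLinearMap.mul ℝ ℝ, volume] ρ) := by
  ext x
  simp only [cv, convolution, ContinuousLinearMap.mul_apply']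
  congr 1; ext y; ring

lemma cv_eq_convolution' (ρ u : ℝ × ℝ → ℝ) :
    cv ρ u = (ρ ⋆[ContinuousLinearMap.lsmul ℝ ℝ, volume] u) := by
  ext x
  rw [cv_eq]
  simp only [convolution, ContinuousLinearMap.lsmul_apply, smul_eq_mul]

lemma cv_contDiff {ρ u : ℝ × ℝ → ℝ} (hρ : ContDiff ℝ (⊤ : ℕ∞) ρ) (hc : HasCompactSupport ρ)
    (hu : LocallyIntegrable u) : ContDiff ℝ (⊤ : ℕ∞) (cv ρ u) := by
  rw [cv_eq_convolution]
  exact hc.contDiff_convolution_right _ hu hρ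

lemma cv_dd {ρ u : ℝ × ℝ → ℝ} (hρ : ContDiff ℝ (⊤ : ℕ∞) ρ) (hc : HasCompactSupport ρ)
    (hu : LocallyIntegrable u) (e : ℝ × ℝ) : dd e (cv ρ u) = cv (dd e ρ) u := by
  ext x
  have h := hc.hasFDerivAt_convolution_right (ContinuousLinearMap.mul ℝ ℝ) hu
    (hρ.of_le (by simp)) x
  rw [cv_eq_convolution, cv_eq_convolution, dd, h.fderiv,
    convolution_precompR_apply _ hu (hc.fderiv (𝕜 := ℝ)) (hρ.continuous_fderiv (by simp))]
  rfl

lemma integrable_mul_of_compact {ψ u : ℝ × ℝ → ℝ} (hψ : Continuous ψ) (hc : HasCompactSupport ψ)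
    (hu : LocallyIntegrable u) : Integrable (fun y => ψ y * u y) := by
  have := hu.integrable_smul_left_of_hasCompactSupport hψ hc
  exact this

lemma hasCompactSupport_reflect {ψ : ℝ × ℝ → ℝ} (hc : HasCompactSupport ψ) (x : ℝ × ℝ) :
    HasCompactSupport (fun y => ψ (x - y)) :=
  hc.comp_homeomorph (Homeomorph.subLeft x)

lemma cv_integrand {ρ u : ℝ × ℝ → ℝ} (hρ : Continuous ρ) (hc : HasCompactSupport ρ)
    (hu : LocallyIntegrable u) (x : ℝ × ℝ) : Integrable (fun y => ρ (x - y) * u y) :=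
  integrable_mul_of_compact (hρ.comp (continuous_const.sub continuous_id))
    (hasCompactSupport_reflect hc x) hu

lemma cv_lap {ρ u : ℝ × ℝ → ℝ} (hρ : ContDiff ℝ (⊤ : ℕ∞) ρ) (hc : HasCompactSupport ρ)
    (hu : LocallyIntegrable u) : lap (cv ρ u) = cv (lap ρ) u := by
  ext x
  have d1 := fun e => contDiff_dd_infty hρ e
  have c1 := fun e => hasCompactSupport_dd hc e
  have d2 := fun e => contDiff_dd_infty (d1 e) e
  have c2 := fun e => hasCompactSupport_dd (c1 e) e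
  rw [lap, dx_eq, dy_eq, cv_dd hρ hc hu, cv_dd hρ hc hu, cv_dd (d1 _) (c1 _) hu,
    cv_dd (d1 _) (c1 _) hu, cv, cv, cv, ← integral_add (cv_integrand (d2 _).continuous (c2 _) hu x)
    (cv_integrand (d2 _).continuous (c2 _) hu x)]
  congr 1; ext y
  rw [lap, dx_eq, dy_eq]; ring

lemma cv_lap_eq {ρ u : ℝ × ℝ → ℝ} (x : ℝ × ℝ) :
    cv (lap ρ) u x = ∫ y, u y * lap (fun y => ρ (x - y)) y := by
  rw [lap_reflect, cv]
  congr 1; ext y; ring

/-- a.e. comparison through mollification -/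
lemma ae_le_of_mollify {u g : ℝ × ℝ → ℝ} (hu : LocallyIntegrable u)
    (h : ∀ ρ : ContDiffBump (0 : ℝ × ℝ), ρ.rOut ≤ 1 / 4 → ∀ x, cv (ρ.normed volume) u x ≤ g x) :
    ∀ᵐ x, u x ≤ g x := by
  let φ : ℕ → ContDiffBump (0 : ℝ × ℝ) := fun j =>
    ⟨1 / (8 * ((j : ℝ) + 1)), 1 / (4 * ((j : ℝ) + 1)), by positivity, by
      apply one_div_lt_one_div_of_lt (by positivity); linarith⟩
  have hφ : Tendsto (fun j => (φ j).rOut) atTop (𝓝 0) := by
    have h1 : Tendsto (fun j : ℕ => 1 / ((j : ℝ) + 1)) atTop (𝓝 0) :=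
      tendsto_one_div_add_atTop_nhds_zero_nat
    have h2 := h1.const_mul (1 / 4)
    rw [mul_zero] at h2
    refine h2.congr fun j => ?_
    change _ = 1 / (4 * ((j : ℝ) + 1))
    field_simp
  have hφ' : ∀ᶠ j in atTop, (φ j).rOut ≤ 2 * (φ j).rIn := by
    refine Eventually.of_forall fun j => ?_
    change 1 / (4 * ((j : ℝ) + 1)) ≤ 2 * (1 / (8 * ((j : ℝ) + 1)))
    apply le_of_eq
    field_simp
    norm_num
  filter_upwards [ContDiffBump.ae_convolution_tendsto_right_of_locallyIntegrable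
    (μ := (volume : Measure (ℝ × ℝ))) hφ hφ' hu] with x hx
  refine le_of_tendsto hx (Eventually.of_forall fun j => ?_)
  have h1 := h (φ j) (by
    change 1 / (4 * ((j : ℝ) + 1)) ≤ 1 / 4
    apply one_div_le_one_div_of_le (by norm_num)
    have : (0 : ℝ) ≤ j := by positivity
    linarith) x
  rw [cv_eq_convolution'] at h1
  exact h1

/-! ### The maximum principle -/

lemma snd_test {W : ℝ × ℝ → ℝ} (hW : ContDiff ℝ 2 W) {x₀ : ℝ × ℝ} (hmax : ∀ x, W x ≤ W x₀)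
    (e : ℝ × ℝ) : dd e (dd e W) x₀ ≤ 0 := by
  have hW1 : ContDiff ℝ 1 (dd e W) := by
    have := contDiff_dd (n := 1) (φ := W) (by simpa [one_add_one_eq_two] using hW) e
    simpa using this
  have hline : ∀ t : ℝ, HasDerivAt (fun t : ℝ => x₀ + t • e) e t := by
    intro t
    have := ((hasDerivAt_id t).smul_const e).const_add x₀
    simpa using this
  have d1 : ∀ t : ℝ, HasDerivAt (fun t : ℝ => W (x₀ + t • e)) (dd e W (x₀ + t • e)) t := fun t =>
    ((hW.differentiable (by norm_num)) (x₀ + t • e)).hasFDerivAt.comp_hasDerivAt t (hline t)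
  have d2 : ∀ t : ℝ, HasDerivAt (fun t : ℝ => dd e W (x₀ + t • e))
      (dd e (dd e W) (x₀ + t • e)) t := by
    intro t
    have a := ((hW1.differentiable (by norm_num)) (x₀ + t • e)).hasFDerivAt
    exact a.comp_hasDerivAt t (hline t)
  have e1 : deriv (fun t : ℝ => W (x₀ + t • e)) = fun t => dd e W (x₀ + t • e) :=
    funext fun t => (d1 t).deriv
  by_contra hcon
  push Not at hcon
  have hdd : deriv (deriv (fun t : ℝ => W (x₀ + t • e))) 0 = dd e (dd e W) x₀ := by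
    rw [e1, (d2 0).deriv]; simp
  have hmaxt : IsLocalMax (fun t : ℝ => W (x₀ + t • e)) 0 :=
    Eventually.of_forall fun t => by simpa using hmax (x₀ + t • e)
  have hmin : IsLocalMin (fun t : ℝ => W (x₀ + t • e)) 0 :=
    isLocalMin_of_deriv_deriv_pos (by rw [hdd]; exact hcon) hmaxt.deriv_eq_zero
      (d1 0).continuousAt
  have hconst : (fun t : ℝ => W (x₀ + t • e)) =ᶠ[𝓝 0] fun _ => W x₀ := by
    filter_upwards [hmaxt, hmin] with t ht1 ht2
    have a : W (x₀ + t • e) ≤ W (x₀ + (0 : ℝ) • e) := ht1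
    have b : W (x₀ + (0 : ℝ) • e) ≤ W (x₀ + t • e) := ht2
    have := le_antisymm a b
    simpa using this
  have h1 : deriv (fun t : ℝ => W (x₀ + t • e)) =ᶠ[𝓝 0] fun _ => 0 := by
    have := hconst.deriv
    refine this.trans ?_
    simp
  have h2 : deriv (deriv (fun t : ℝ => W (x₀ + t • e))) 0 = 0 := by
    rw [h1.deriv_eq]; simp
  rw [hdd] at h2
  linarith

lemma exists_max {n : ℕ} (hn : 1 ≤ n) {W : ℝ × ℝ → ℝ} (hW : Continuous W)
    (hper : ∀ a z, W (z + lt n a) = W z) : ∃ x₀, ∀ x, W x ≤ W x₀ := by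
  have hK : IsCompact (Icc (0 : ℝ) 1 ×ˢ Icc (0 : ℝ) n) := isCompact_Icc.prod isCompact_Icc
  obtain ⟨x₀, _, hx₀⟩ := hK.exists_isMaxOn
    ⟨(0, 0), ⟨⟨le_rfl, zero_le_one⟩, ⟨le_rfl, by positivity⟩⟩⟩ hW.continuousOn
  refine ⟨x₀, fun x => ?_⟩
  have h1 : x - lt n (ix n x) ∈ Qc n := by
    rw [mem_Qc_iff hn, ix_sub hn, sub_self]
  have h2 : x - lt n (ix n x) ∈ Icc (0 : ℝ) 1 ×ˢ Icc (0 : ℝ) n :=
    ⟨Ico_subset_Icc_self h1.1, Ico_subset_Icc_self h1.2⟩
  have h3 : W (x - lt n (ix n x)) ≤ W x₀ := hx₀ h2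
  have h4 := hper (ix n x) (x - lt n (ix n x))
  rw [sub_add_cancel] at h4
  rw [h4]; exact h3

lemma cv_nonneg_of {ρ u : ℝ × ℝ → ℝ} (hρ : ∀ z, 0 ≤ ρ z) (hu : ∀ᵐ z, 0 ≤ u z) (x : ℝ × ℝ) :
    0 ≤ cv ρ u x := by
  apply integral_nonneg_of_ae
  filter_upwards [hu] with y hy using mul_nonneg (hρ _) hy

/-- Maximum principle for periodic distributional subsolutions of `Δu ≥ λu`. -/
lemma maxprinciple {n : ℕ} (hn : 1 ≤ n) {l : ℝ} (hl : 0 < l) {u : ℝ × ℝ → ℝ}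
    (hu : LocallyIntegrable u) (hper : ∀ a z, u (z + lt n a) = u z)
    (h : ∀ φ : ℝ × ℝ → ℝ, ContDiff ℝ (⊤ : ℕ∞) φ → HasCompactSupport φ → (∀ z, 0 ≤ φ z) →
      l * ∫ z, u z * φ z ≤ ∫ z, u z * lap φ z) : ∀ᵐ z, u z ≤ 0 := by
  apply ae_le_of_mollify hu
  intro ρ' _
  set ρ := ρ'.normed (volume : Measure (ℝ × ℝ)) with hρ
  have hρs : ContDiff ℝ (⊤ : ℕ∞) ρ := ρ'.contDiff_normed
  have hρc : HasCompactSupport ρ := ρ'.hasCompactSupport_normed
  have hρn : ∀ z, 0 ≤ ρ z := ρ'.nonneg_normed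
  have hW := cv_contDiff hρs hρc hu
  obtain ⟨x₀, hx₀⟩ := exists_max hn hW.continuous (fun a z => cv_periodic (hper a) z)
  have h1 : lap (cv ρ u) x₀ ≤ 0 := by
    have a := snd_test (hW.of_le two_le_infty) hx₀ (1, 0)
    have b := snd_test (hW.of_le two_le_infty) hx₀ (0, 1)
    rw [lap, dx_eq, dy_eq]; linarith
  rw [cv_lap hρs hρc hu, cv_lap_eq] at h1
  have h2 := h (fun y => ρ (x₀ - y)) (hρs.comp (contDiff_const.sub contDiff_id))
    (hasCompactSupport_reflect hρc x₀) (fun z => hρn _)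
  have h3 : ∫ z, u z * ρ (x₀ - z) = cv ρ u x₀ := by
    rw [cv]; congr 1; ext y; ring
  rw [h3] at h2
  intro x
  refine (hx₀ x).trans ?_
  nlinarith

end Pool.Agent.Helper676.CS
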