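import Pool.Agent.Helper676.CS8

set_option autoImplicit false
set_option linter.unusedSectionVars false

namespace Pool.Agent.Helper676.CS

open MeasureTheory Filter Topology Set

/-! ### local integrability of periodisations -/

lemma per_eq_sum {n : ℕ} (hn : 1 ≤ n) {g : ℝ × ℝ → ℝ} {r : ℝ}
    (hgs : ∀ z, r < ‖z‖ → g z = 0) {R : ℝ} {z : ℝ × ℝ} (hz : ‖z‖ ≤ R) :
    per n g z = ∑ a ∈ (finite_lt hn (r + R)).toFinset, g (z - lt n a) := by
  rw [per]
  apply tsum_eq_sum
  intro a ha
  apply hgs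
  have h3 : r + R < ‖lt n a‖ := by
    by_contra h
    apply ha
    rw [Set.Finite.mem_toFinset]
    exact not_lt.mp h
  have h4 : ‖lt n a‖ ≤ ‖z - lt n a‖ + ‖z‖ := by
    have : lt n a = z - (z - lt n a) := by abel
    calc ‖lt n a‖ = ‖z - (z - lt n a)‖ := by rw [← this]
      _ ≤ ‖z‖ + ‖z - lt n a‖ := norm_sub_le _ _
      _ = _ := by ring
  linarith

lemma locInt_per {n : ℕ} (hn : 1 ≤ n) {g : ℝ × ℝ → ℝ} (hg : Integrable g) {r : ℝ}
    (hgs : ∀ z, r < ‖z‖ → g z = 0) : LocallyIntegrable (per n g) := by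
  rw [locallyIntegrable_iff]
  intro K hK
  obtain ⟨R, hR⟩ := hK.isBounded.subset_closedBall 0
  refine IntegrableOn.mono_set ?_ hR
  have h1 : IntegrableOn (fun z => ∑ a ∈ (finite_lt hn (r + R)).toFinset, g (z - lt n a))
      (Metric.closedBall 0 R) :=
    (integrable_finsetSum _ fun a _ => (hg.comp_sub_right (lt n a))).integrableOn
  refine h1.congr_fun ?_ Metric.isClosed_closedBall.measurableSet
  intro z hz
  rw [Metric.mem_closedBall, dist_zero_right] at hz
  exact (per_eq_sum hn hgs hz).symm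

lemma locInt_per_bf {n : ℕ} (hn : 1 ≤ n) {k : ℕ} (hk : 1 ≤ k) {s : ℝ} (hs : 0 < s) :
    LocallyIntegrable (per n (bf k s)) :=
  locInt_per hn (integrable_bf hk hs) (r := Real.sqrt s) fun z hz => by
    by_contra h0
    have := support_bf hs h0
    rw [Metric.mem_closedBall, dist_zero_right] at this
    linarith

/-! ### the nonlinearity -/

/-- `e^u(e^u-1)` -/
noncomputable def Ff (u : ℝ) : ℝ := Real.exp u * (Real.exp u - 1)

lemma continuous_Ff : Continuous Ff := by unfold Ff; fun_prop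

lemma Ff_ge (u : ℝ) : u ≤ Ff u := by
  unfold Ff
  have h := Real.add_one_le_exp u
  have hp := Real.exp_pos u
  rcases le_total 0 u with h0 | h0
  · have : 1 ≤ Real.exp u := Real.one_le_exp h0
    nlinarith
  · have : Real.exp u ≤ 1 := Real.exp_le_one_iff.mpr h0
    nlinarith

lemma Ff_ge' (u : ℝ) : -(1 / 4) ≤ Ff u := by
  unfold Ff
  nlinarith [sq_nonneg (Real.exp u - 1 / 2)]

lemma Ff_nonpos {u : ℝ} (h : u ≤ 0) : Ff u ≤ 0 := by
  unfold Ff
  have : Real.exp u ≤ 1 := Real.exp_le_one_iff.mpr h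
  exact mul_nonpos_of_nonneg_of_nonpos (Real.exp_pos u).le (by linarith)

lemma Ff_zero : Ff 0 = 0 := by simp [Ff]

lemma sub_Ff_mono {s t : ℝ} (hst : s ≤ t) (ht : t ≤ 0) : s - Ff s ≤ t - Ff t := by
  have ha : Real.exp s ≤ Real.exp t := Real.exp_le_exp.mpr hst
  have hb : Real.exp t ≤ 1 := Real.exp_le_one_iff.mpr ht
  have hbp := Real.exp_pos t
  have h1 : Real.exp t - Real.exp s ≤ t - s := by
    have e : Real.exp s = Real.exp t * Real.exp (s - t) := by
      rw [← Real.exp_add]; congr 1; ring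
    have h2 := Real.add_one_le_exp (s - t)
    have h3 : Real.exp (s - t) ≤ 1 := Real.exp_le_one_iff.mpr (by linarith)
    rw [e]
    nlinarith
  have h2 : Ff t - Ff s ≤ Real.exp t - Real.exp s := by
    unfold Ff
    nlinarith
  linarith

/-- the truncated nonlinearity: `u - F(u)` for `u ≤ 0`, `0` for `u ≥ 0` -/
noncomputable def gg (u : ℝ) : ℝ := min u 0 - Ff (min u 0)

lemma continuous_gg : Continuous gg := by
  unfold gg
  exact (continuous_id.min continuous_const).sub
    (continuous_Ff.comp (continuous_id.min continuous_const))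

lemma gg_mono : Monotone gg := fun _ _ hab =>
  sub_Ff_mono (min_le_min_right 0 hab) (min_le_right _ _)

lemma gg_le (u : ℝ) : gg u ≤ min u 0 + 1 / 4 := by
  have := Ff_ge' (min u 0); unfold gg; linarith

lemma le_gg (u : ℝ) : min u 0 ≤ gg u := by
  have := Ff_nonpos (min_le_right u 0); unfold gg; linarith

lemma gg_nonpos (u : ℝ) : gg u ≤ 0 := by
  have := Ff_ge (min u 0); unfold gg; linarith

lemma gg_of_nonpos {u : ℝ} (h : u ≤ 0) : gg u = u - Ff u := by
  unfold gg; rw [min_eq_left h]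

lemma theta_upper {b v : ℝ} : gg (b + v) - b ≤ v + 1 / 4 := by
  have := gg_le (b + v)
  have := min_le_left (b + v) 0
  linarith

lemma theta_lower {b v : ℝ} (hb : b ≤ 0) : -|v| ≤ gg (b + v) - b := by
  have := le_gg (b + v)
  have h1 : b - |v| ≤ min (b + v) 0 := by
    apply le_min
    · have := neg_abs_le v; linarith
    · have := abs_nonneg v; linarith
  linarith

lemma theta_abs {b v C : ℝ} (hb : b ≤ 0) (hv : |v| ≤ C) : |gg (b + v) - b| ≤ C + 1 / 4 := by
  rw [abs_le]
  constructor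
  · have := theta_lower (b := b) (v := v) hb; linarith
  · have := theta_upper (b := b) (v := v)
    have := le_abs_self v
    linarith

/-! ### The monotone iteration -/

section iter

variable (n k : ℕ) (s l : ℝ)

/-- the right-hand side -/
noncomputable def hh (v : ℝ × ℝ → ℝ) (y : ℝ × ℝ) : ℝ :=
  l * (gg (per n (bf k s) y + v y) - per n (bf k s) y) - per n (muf k s) y

/-- the iteration map -/
noncomputable def TT (v : ℝ × ℝ → ℝ) : ℝ × ℝ → ℝ := Gc l (hh n k s l v)

noncomputable def vs : ℕ → (ℝ × ℝ → ℝ)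
  | 0 => fun _ => -Real.log 2
  | j + 1 => TT n k s l (vs j)

end iter

section iterlemmas

variable {n k : ℕ} {s l : ℝ} (hn : 1 ≤ n) (hs : 0 < s) (hs16 : s ≤ 1 / 16) (hl : 0 < l)

include hn hs hs16

lemma beta_nonpos (y : ℝ × ℝ) : per n (bf k s) y ≤ 0 := by
  rw [per_bf hn k hs (by linarith)]; exact bf_nonpos k hs _

lemma M_nonneg (y : ℝ × ℝ) : 0 ≤ per n (muf k s) y := by
  rw [per_muf hn k hs (by linarith)]; exact muf_nonneg k hs _

lemma M_le (y : ℝ × ℝ) : per n (muf k s) y ≤ 8 * k * (k + 1) / s := by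
  rw [per_muf hn k hs (by linarith)]; exact muf_le_const k hs _

lemma measurable_hh {v : ℝ × ℝ → ℝ} (hv : Measurable v) : Measurable (hh n k s l v) := by
  unfold hh
  have h1 := measurable_per_bf hn k hs (by linarith : s ≤ 1 / 4)
  have h2 := measurable_per_muf hn k hs (by linarith : s ≤ 1 / 4)
  exact (((continuous_gg.measurable.comp (h1.add hv)).sub h1).const_mul l).sub h2

include hl

lemma hh_abs {v : ℝ × ℝ → ℝ} {C : ℝ} {y : ℝ × ℝ} (hv : |v y| ≤ C) :
    |hh n k s l v y| ≤ l * (C + 1 / 4) + 8 * k * (k + 1) / s := by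
  unfold hh
  have h1 := theta_abs (beta_nonpos (k := k) hn hs hs16 y) hv
  have h2 := M_nonneg (k := k) hn hs hs16 y
  have h3 := M_le (k := k) hn hs hs16 y
  calc |l * (gg (per n (bf k s) y + v y) - per n (bf k s) y) - per n (muf k s) y|
      ≤ |l * (gg (per n (bf k s) y + v y) - per n (bf k s) y)| + |per n (muf k s) y| := abs_sub _ _
    _ ≤ _ := by
        rw [abs_mul, abs_of_pos hl, abs_of_nonneg h2]
        gcongr

lemma hh_mono {v w : ℝ × ℝ → ℝ} {y : ℝ × ℝ} (h : v y ≤ w y) :
    hh n k s l v y ≤ hh n k s l w y := by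
  unfold hh
  have := gg_mono (show per n (bf k s) y + v y ≤ per n (bf k s) y + w y by linarith)
  have := mul_le_mul_of_nonneg_left this hl.le
  linarith

lemma TT_mono {v w : ℝ × ℝ → ℝ} (hv : Measurable v) (hw : Measurable w) {C : ℝ}
    (hvC : ∀ y, |v y| ≤ C) (hwC : ∀ y, |w y| ≤ C) (h : ∀ y, v y ≤ w y) (x : ℝ × ℝ) :
    TT n k s l v x ≤ TT n k s l w x :=
  Gc_mono hl (measurable_hh hn hs hs16 hv) (measurable_hh hn hs hs16 hw)
    (fun y => hh_abs hn hs hs16 hl (hvC y)) (fun y => hh_abs hn hs hs16 hl (hwC y))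
    (fun y => hh_mono hn hs hs16 hl (h y)) x

lemma measurable_TT {v : ℝ × ℝ → ℝ} (hv : Measurable v) : Measurable (TT n k s l v) :=
  (cv_stronglyMeasurable (measurable_G l) (measurable_hh hn hs hs16 hv)).measurable

omit hs16 in
lemma sub_ineq (hs4 : s ≤ 1 / 4) (hlk : 32 * k * (k + 1) / s ≤ l) (y : ℝ × ℝ) :
    per n (muf k s) y ≤ - l * Ff (per n (bf k s) y - Real.log 2) := by
  rw [per_bf hn k hs hs4, per_muf hn k hs hs4]
  set z := y - lt n (nr n y) with hz
  have hb := bf_nonpos k hs z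
  have e1 : Real.exp (bf k s z - Real.log 2) = Real.exp (bf k s z) / 2 := by
    rw [Real.exp_sub, Real.exp_log (by norm_num)]
  have e2 : Real.exp (bf k s z) ≤ 1 := Real.exp_le_one_iff.mpr hb
  have e3 := Real.exp_pos (bf k s z)
  have e4 : Real.exp (bf k s z) / 4 ≤ - Ff (bf k s z - Real.log 2) := by
    unfold Ff; rw [e1]; nlinarith
  by_cases h : sq z ≤ s
  · have h1 := muf_le k hs h
    have h2 := pow_le_exp_bf k hs h
    have h0 : 0 ≤ sq z / s := div_nonneg (sq_nonneg' z) hs.le
    have h3 : 8 * k * (k + 1) / s * (sq z / s) ^ k ≤ l * (Real.exp (bf k s z) / 4) := by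
      have h5 : 8 * (k : ℝ) * (k + 1) / s = (32 * k * (k + 1) / s) / 4 := by ring
      rw [h5]
      calc (32 * (k : ℝ) * (k + 1) / s) / 4 * (sq z / s) ^ k
          ≤ l / 4 * Real.exp (bf k s z) := by gcongr
        _ = _ := by ring
    have h4 := mul_le_mul_of_nonneg_left e4 hl.le
    linarith
  · rw [muf_zero_of_le hs (not_le.mp h).le]
    have : 0 ≤ - Ff (bf k s z - Real.log 2) := by linarith
    nlinarith

lemma TT_sub (hlk : 32 * k * (k + 1) / s ≤ l) (x : ℝ × ℝ) :
    -Real.log 2 ≤ TT n k s l (fun _ => -Real.log 2) x := by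
  have h1 : Gc l (fun _ => l * (-Real.log 2)) x = -Real.log 2 := by
    rw [Gc_const hl]; field_simp
  refine le_trans (le_of_eq h1.symm) ?_
  have hlog : 0 < Real.log 2 := Real.log_pos (by norm_num)
  refine Gc_mono hl measurable_const (measurable_hh hn hs hs16 measurable_const)
    (C1 := |l * (-Real.log 2)|) (fun y => le_rfl)
    (fun y => hh_abs hn hs hs16 hl (le_refl |(-Real.log 2)|)) (fun y => ?_) x
  unfold hh
  have hb := beta_nonpos (k := k) hn hs hs16 y
  rw [gg_of_nonpos (by linarith : per n (bf k s) y + -Real.log 2 ≤ 0)]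
  have := sub_ineq hn hs hl (by linarith : s ≤ 1 / 4) hlk y
  rw [← sub_eq_add_neg]
  nlinarith

lemma beta_zero_of {x y : ℝ × ℝ} (hy : y ∈ Metric.ball (((⌊x.1⌋ : ℤ) : ℝ) + 1 / 2, x.2) (1 / 8 : ℝ)) :
    per n (bf k s) y = 0 := by
  rw [per_bf hn k hs (by linarith : s ≤ 1 / 4)]
  apply bf_zero_of_le hs
  have h1 : |y.1 - (((⌊x.1⌋ : ℤ) : ℝ) + 1 / 2)| < 1 / 8 := by
    rw [Metric.mem_ball, Prod.dist_eq] at hy
    exact lt_of_le_of_lt (le_max_left _ _) hy
  have h2 : 1 / 4 ≤ |y.1 - round y.1| := by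
    set j := ⌊x.1⌋
    rw [abs_lt] at h1
    have h3 : (1 : ℝ) / 4 ≤ |y.1 - ((round y.1 : ℤ) : ℝ)| := by
      rcases le_or_gt (round y.1) j with h | h
      · have : ((round y.1 : ℤ) : ℝ) ≤ j := by exact_mod_cast h
        rw [abs_of_nonneg (by linarith)]; linarith
      · have : (j : ℝ) + 1 ≤ ((round y.1 : ℤ) : ℝ) := by exact_mod_cast h
        rw [abs_of_nonpos (by linarith)]; linarith
    exact h3
  unfold sq lt nr
  simp only [Prod.fst_sub, Prod.snd_sub]
  have h5 : (1 / 4 : ℝ) ^ 2 ≤ |y.1 - round y.1| ^ 2 := pow_le_pow_left₀ (by norm_num) h2 2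
  rw [sq_abs] at h5
  nlinarith [sq_nonneg (y.2 - n * ((round (y.2 / n) : ℤ) : ℝ))]

lemma TT_super : ∃ C : ℝ, 0 < C ∧ ∀ v : ℝ × ℝ → ℝ, Measurable v →
    (∀ y, -Real.log 2 ≤ v y ∧ v y ≤ C) → ∀ x, TT n k s l v x ≤ C := by
  obtain ⟨g0, hg0, hG⟩ := G_lower hl 1
  set c1 : ℝ := (volume : Measure (ℝ × ℝ)).real (Metric.ball 0 (1 / 8 : ℝ)) with hc1
  have hc1p : 0 < c1 := by
    rw [hc1, Measure.real]
    exact ENNReal.toReal_pos (Metric.measure_ball_pos _ _ (by norm_num)).ne' measure_ball_lt_top.ne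
  refine ⟨1 / (4 * l * g0 * c1), by positivity, fun v hv hvC x => ?_⟩
  set C := 1 / (4 * l * g0 * c1) with hC
  have hCp : 0 < C := by positivity
  have hlog : 0 < Real.log 2 := Real.log_pos (by norm_num)
  set S := Metric.ball ((((⌊x.1⌋ : ℤ) : ℝ) + 1 / 2, x.2) : ℝ × ℝ) (1 / 8 : ℝ) with hS
  have hSm : MeasurableSet S := Metric.isOpen_ball.measurableSet
  have hvabs : ∀ y, |v y| ≤ C + Real.log 2 := fun y => by
    rw [abs_le]; constructor <;> linarith [(hvC y).1, (hvC y).2]
  -- pointwise upper bound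
  have hup : ∀ y, hh n k s l v y ≤ l * (C + 1 / 4) - l * C * S.indicator (fun _ => 1) y := by
    intro y
    have hM := M_nonneg (k := k) hn hs hs16 y
    unfold hh
    by_cases hy : y ∈ S
    · rw [indicator_of_mem hy, beta_zero_of (k := k) hn hs hs16 hl hy]
      have h1 := gg_nonpos (0 + v y)
      have : l * (gg (0 + v y) - 0) ≤ 0 := by
        rw [sub_zero]; exact mul_nonpos_of_nonneg_of_nonpos hl.le h1
      nlinarith
    · rw [indicator_of_notMem hy]
      have h1 := theta_upper (b := per n (bf k s) y) (v := v y)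
      have h2 := (hvC y).2
      have := mul_le_mul_of_nonneg_left (h1.trans (by linarith : v y + 1 / 4 ≤ C + 1 / 4)) hl.le
      linarith
  have hi1 : Integrable (fun y => G l (x - y)) := (integrable_G hl).comp_sub_left x
  have hi2 : Integrable (fun y => G l (x - y) * S.indicator (fun _ => (1 : ℝ)) y) := by
    refine hi1.mul_bdd (c := 1) (measurable_const.indicator hSm).aestronglyMeasurable
      (Eventually.of_forall fun y => ?_)
    by_cases hy : y ∈ S
    · rw [indicator_of_mem hy]; simp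
    · rw [indicator_of_notMem hy]; simp
  have h1 : TT n k s l v x ≤ ∫ y, (l * (C + 1 / 4) * G l (x - y) -
      l * C * (G l (x - y) * S.indicator (fun _ => 1) y)) := by
    apply integral_mono (cv_integrable (integrable_G hl) (measurable_hh hn hs hs16 hv)
      (fun y => hh_abs hn hs hs16 hl (hvabs y)) x) ((hi1.const_mul _).sub (hi2.const_mul _))
    intro y
    have := mul_le_mul_of_nonneg_left (hup y) (G_nonneg l (x - y))
    simp only [Pi.sub_apply]
    linarith
  rw [integral_sub (hi1.const_mul _) (hi2.const_mul _), integral_const_mul, integral_const_mul,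
    integral_sub_left_eq_self (G l) volume x, integral_G hl] at h1
  have h2 : g0 * c1 ≤ ∫ y, G l (x - y) * S.indicator (fun _ => (1 : ℝ)) y := by
    have h3 : ∫ y, S.indicator (fun _ => g0) y = g0 * c1 := by
      rw [integral_indicator hSm, setIntegral_const, smul_eq_mul, mul_comm, hc1, hS]
      congr 1
      rw [Measure.real, Measure.real, Measure.addHaar_ball_center]
    rw [← h3]
    apply integral_mono_ae
    · rw [integrable_indicator_iff hSm]
      exact integrableOn_const measure_ball_lt_top.ne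
    · exact hi2
    · have hq := (Measure.measurePreserving_sub_left (volume : Measure (ℝ × ℝ)) x).quasiMeasurePreserving.ae hG
      filter_upwards [hq] with y hy
      by_cases hyS : y ∈ S
      · simp only [indicator_of_mem hyS, mul_one]
        apply hy
        rw [hS, Metric.mem_ball, Prod.dist_eq, max_lt_iff, Real.dist_eq, Real.dist_eq] at hyS
        rw [Prod.norm_def, max_le_iff, Real.norm_eq_abs, Real.norm_eq_abs]
        have a1 := abs_lt.mp hyS.1
        have a2 := abs_lt.mp hyS.2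
        have f1 := Int.floor_le x.1
        have f2 := Int.lt_floor_add_one x.1
        simp only at a1 a2
        constructor
        · rw [abs_le, Prod.fst_sub]; constructor <;> linarith [a1.1, a1.2]
        · rw [abs_le, Prod.snd_sub]; constructor <;> linarith [a2.1, a2.2]
      · simp only [indicator_of_notMem hyS, mul_zero]
        exact le_rfl
  have h3 : l * C * (g0 * c1) = 1 / 4 := by
    rw [hC]; field_simp
  have h4 : l * C * (g0 * c1) ≤ l * C * ∫ y, G l (x - y) * S.indicator (fun _ => (1 : ℝ)) y :=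
    mul_le_mul_of_nonneg_left h2 (by positivity)
  have h5 : l * (C + 1 / 4) * l⁻¹ = C + 1 / 4 := by field_simp
  rw [h5] at h1
  linarith

end iterlemmas

end Pool.Agent.Helper676.CS
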