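import Pool.Agent.Helper676.GFDef

set_option autoImplicit false

/-! Proved by helper561 (job JF). -/

namespace Pool.Agent.Helper676.GF

open MeasureTheory Filter Topology Set Metric
open scoped ContDiff

lemma dir_smooth {n : ℕ} {O : Set (E n)} (hO : IsOpen O) {u : E n → ℝ}
    (hu : ContDiffOn ℝ ∞ u O) (e : E n) : ContDiffOn ℝ ∞ (fun y => fderiv ℝ u y e) O := by
  have h1 : ContDiffOn ℝ ∞ (fderiv ℝ u) O := hu.fderiv_of_isOpen hO (by simp)
  exact h1.clm_apply contDiffOn_const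

lemma dir_norm {n : ℕ} {u : E n → ℝ} {x : E n} (hu : ContDiffAt ℝ ∞ u x) (e : E n) (he : ‖e‖ = 1)
    (k : ℕ) : ‖iteratedFDeriv ℝ k (fun y => fderiv ℝ u y e) x‖ ≤ ‖iteratedFDeriv ℝ (k + 1) u x‖ := by
  have h1 : ContDiffAt ℝ ∞ (fderiv ℝ u) x := hu.fderiv_right (by simp)
  have h2 := norm_iteratedFDeriv_clm_apply_const (c := e) h1 (n := k) (by exact_mod_cast le_top)
  rw [he, one_mul, norm_iteratedFDeriv_fderiv] at h2
  exact h2

theorem lap_smooth {n : ℕ} {O : Set (E n)} (hO : IsOpen O) {u : E n → ℝ}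
    (hu : ContDiffOn ℝ ∞ u O) : ContDiffOn ℝ ∞ (lap u) O := by
  unfold lap
  exact ContDiffOn.sum fun i _ => dir_smooth hO (dir_smooth hO hu _) _

theorem lap_iterated_norm {n : ℕ} {O : Set (E n)} (hO : IsOpen O) {u : E n → ℝ}
    (hu : ContDiffOn ℝ ∞ u O) {x : E n} (hx : x ∈ O) (k : ℕ) :
    ‖iteratedFDeriv ℝ k (lap u) x‖ ≤ n * ‖iteratedFDeriv ℝ (k + 2) u x‖ := by
  have hOx : O ∈ 𝓝 x := hO.mem_nhds hx
  have hui : ContDiffAt ℝ ∞ u x := hu.contDiffAt hOx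
  have he : ∀ i : Fin n, ‖(EuclideanSpace.single i 1 : E n)‖ = 1 := fun i => by simp
  have h1 : ∀ i : Fin n, ContDiffAt ℝ ∞ (fun y => fderiv ℝ u y (EuclideanSpace.single i 1)) x :=
    fun i => (dir_smooth hO hu _).contDiffAt hOx
  have h2 : ∀ i : Fin n, ContDiffAt ℝ k (fun x => fderiv ℝ
      (fun y => fderiv ℝ u y (EuclideanSpace.single i 1)) x (EuclideanSpace.single i 1)) x :=
    fun i => ((dir_smooth hO (dir_smooth hO hu _) _).contDiffAt hOx).of_le (by exact_mod_cast le_top)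
  unfold lap
  rw [iteratedFDeriv_fun_sum_apply (fun i _ => h2 i)]
  calc ‖∑ i : Fin n, iteratedFDeriv ℝ k (fun x => fderiv ℝ
      (fun y => fderiv ℝ u y (EuclideanSpace.single i 1)) x (EuclideanSpace.single i 1)) x‖
      ≤ ∑ i : Fin n, ‖iteratedFDeriv ℝ k (fun x => fderiv ℝ
      (fun y => fderiv ℝ u y (EuclideanSpace.single i 1)) x (EuclideanSpace.single i 1)) x‖ :=
        norm_sum_le _ _
    _ ≤ ∑ _i : Fin n, ‖iteratedFDeriv ℝ (k + 2) u x‖ := by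
        apply Finset.sum_le_sum
        intro i _
        exact (dir_norm (h1 i) _ (he i) k).trans (dir_norm hui _ (he i) (k + 1))
    _ = n * ‖iteratedFDeriv ℝ (k + 2) u x‖ := by
        rw [Finset.sum_const, Finset.card_univ, Fintype.card_fin, nsmul_eq_mul]

lemma lap4_le {n : ℕ} {O : Set (E n)} (hO : IsOpen O) {u : E n → ℝ}
    (hu : ContDiffOn ℝ ∞ u O) {x : E n} (hx : x ∈ O) :
    |lap (lap (lap (lap u))) x| ≤ (n : ℝ) ^ 4 * ‖iteratedFDeriv ℝ 8 u x‖ := by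
  have h1 := lap_smooth hO hu
  have h2 := lap_smooth hO h1
  have h3 := lap_smooth hO h2
  calc |lap (lap (lap (lap u))) x| = ‖iteratedFDeriv ℝ 0 (lap (lap (lap (lap u)))) x‖ := by
        rw [norm_iteratedFDeriv_zero, Real.norm_eq_abs]
    _ ≤ n * ‖iteratedFDeriv ℝ (0 + 2) (lap (lap (lap u))) x‖ := lap_iterated_norm hO h3 hx 0
    _ ≤ n * (n * ‖iteratedFDeriv ℝ (0 + 2 + 2) (lap (lap u)) x‖) := by
        gcongr; exact lap_iterated_norm hO h2 hx _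
    _ ≤ n * (n * (n * ‖iteratedFDeriv ℝ (0 + 2 + 2 + 2) (lap u) x‖)) := by
        gcongr; exact lap_iterated_norm hO h1 hx _
    _ ≤ n * (n * (n * (n * ‖iteratedFDeriv ℝ (0 + 2 + 2 + 2 + 2) u x‖))) := by
        gcongr; exact lap_iterated_norm hO hu hx _
    _ = (n : ℝ) ^ 4 * ‖iteratedFDeriv ℝ 8 u x‖ := by ring

theorem lap4_mul_le {n : ℕ} {O : Set (E n)} (hO : IsOpen O) {u v : E n → ℝ}
    (hu : ContDiffOn ℝ ∞ u O) (hv : ContDiffOn ℝ ∞ v O) {x : E n} (hx : x ∈ O) :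
    |lap (lap (lap (lap (fun y => u y * v y)))) x| ≤ (n : ℝ) ^ 4 *
      ∑ i ∈ Finset.range 9, (Nat.choose 8 i : ℝ) * ‖iteratedFDeriv ℝ i u x‖ *
        ‖iteratedFDeriv ℝ (8 - i) v x‖ := by
  refine (lap4_le hO (hu.mul hv) hx).trans ?_
  gcongr
  have h8 : ∀ m : ℕ, (m : ℕ∞ω) ≤ ∞ := fun m => by exact_mod_cast le_top
  have h := norm_iteratedFDerivWithin_mul_le hu hv hO.uniqueDiffOn hx (n := 8) (h8 8)
  rw [iteratedFDerivWithin_of_isOpen 8 hO hx] at h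
  refine h.trans (le_of_eq ?_)
  apply Finset.sum_congr rfl
  intro i _
  rw [iteratedFDerivWithin_of_isOpen i hO hx, iteratedFDerivWithin_of_isOpen (8 - i) hO hx]

/-- the norm bound for `Δ²` by the fourth derivative -/
theorem lap2_le {n : ℕ} {u : E n → ℝ} (hu : ContDiff ℝ ∞ u) (x : E n) :
    |lap (lap u) x| ≤ (n : ℝ) ^ 2 * ‖iteratedFDeriv ℝ 4 u x‖ := by
  have h0 : ContDiffOn ℝ ∞ u univ := hu.contDiffOn
  have h1 := lap_smooth isOpen_univ h0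
  calc |lap (lap u) x| = ‖iteratedFDeriv ℝ 0 (lap (lap u)) x‖ := by
        rw [norm_iteratedFDeriv_zero, Real.norm_eq_abs]
    _ ≤ n * ‖iteratedFDeriv ℝ (0 + 2) (lap u) x‖ := lap_iterated_norm isOpen_univ h1 (mem_univ x) 0
    _ ≤ n * (n * ‖iteratedFDeriv ℝ (0 + 2 + 2) u x‖) := by
        gcongr; exact lap_iterated_norm isOpen_univ h0 (mem_univ x) _
    _ = (n : ℝ) ^ 2 * ‖iteratedFDeriv ℝ 4 u x‖ := by ring

end Pool.Agent.Helper676.GF
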