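import Pool.Agent.Helper676.GFDef

set_option autoImplicit false

/-! Proved by helper790 (job JG). -/

namespace Pool.Agent.Helper676.GF

open MeasureTheory Filter Topology Set Metric
open scoped ContDiff

theorem lapaux_contDiffOn {n : ℕ} {O : Set (E n)} (hO : IsOpen O) {ψ : E n → ℝ}
    (hψ : ContDiffOn ℝ ∞ ψ O) (e : E n) : ContDiffOn ℝ ∞ (fun y => fderiv ℝ ψ y e) O := by
  have h : ContDiffOn ℝ ∞ (fderiv ℝ ψ) O := hψ.fderiv_of_isOpen hO (by simp)
  exact h.clm_apply contDiffOn_const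

theorem lapaux_diff {n : ℕ} {O : Set (E n)} (hO : IsOpen O) {ψ : E n → ℝ}
    (hψ : ContDiffOn ℝ ∞ ψ O) {x : E n} (hx : x ∈ O) : DifferentiableAt ℝ ψ x :=
  (hψ.contDiffAt (hO.mem_nhds hx)).differentiableAt (by simp)

theorem lapaux_integ {n : ℕ} {O : Set (E n)} (hO : IsOpen O) {a b : E n → ℝ} (ha : Continuous a)
    (hc : HasCompactSupport a) (hs : tsupport a ⊆ O) (hb : ContinuousOn b O) :
    Integrable (fun x => a x * b x) := by
  have h : Continuous (fun x => a x * b x) := by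
    rw [continuous_iff_continuousAt]
    intro x
    by_cases hx : x ∈ O
    · exact ha.continuousAt.mul (hb.continuousAt (hO.mem_nhds hx))
    · have h1 : x ∉ tsupport a := fun h => hx (hs h)
      have h0 := notMem_tsupport_iff_eventuallyEq.mp h1
      have h2 : (fun x => a x * b x) =ᶠ[𝓝 x] fun _ => 0 :=
        h0.mono (fun y hy => by simp [hy])
      exact (continuousAt_const.congr h2.symm)
  exact h.integrable_of_hasCompactSupport hc.mul_right

theorem lapaux_tsupport {n : ℕ} (φ : E n → ℝ) (e : E n) :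
    tsupport (fun y => fderiv ℝ φ y e) ⊆ tsupport φ := by
  apply closure_minimal _ (isClosed_tsupport φ)
  intro x hx
  by_contra h
  apply hx
  have h0 := notMem_tsupport_iff_eventuallyEq.mp h
  have : fderiv ℝ φ x = fderiv ℝ (0 : E n → ℝ) x := h0.fderiv_eq
  simp only [this]
  simp

/-- Green's identity -/
theorem lap_ibp {n : ℕ} {O : Set (E n)} (hO : IsOpen O) {φ ψ : E n → ℝ}
    (hφ : ContDiff ℝ ∞ φ) (hc : HasCompactSupport φ) (hs : tsupport φ ⊆ O)
    (hψ : ContDiffOn ℝ ∞ ψ O) : ∫ x, φ x * lap ψ x = ∫ x, lap φ x * ψ x := by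
  set e : Fin n → E n := fun i => EuclideanSpace.single i 1 with he
  have hφ1 : ∀ i, ContDiff ℝ ∞ (fun y => fderiv ℝ φ y (e i)) := by
    intro i
    rw [← contDiffOn_univ]
    exact lapaux_contDiffOn isOpen_univ hφ.contDiffOn (e i)
  have hφ2 : ∀ i, ContDiff ℝ ∞ (fun z => fderiv ℝ (fun y => fderiv ℝ φ y (e i)) z (e i)) := by
    intro i
    rw [← contDiffOn_univ]
    exact lapaux_contDiffOn isOpen_univ (hφ1 i).contDiffOn (e i)
  have hψ1 : ∀ i, ContDiffOn ℝ ∞ (fun y => fderiv ℝ ψ y (e i)) O :=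
    fun i => lapaux_contDiffOn hO hψ (e i)
  have hψ2 : ∀ i, ContDiffOn ℝ ∞ (fun z => fderiv ℝ (fun y => fderiv ℝ ψ y (e i)) z (e i)) O :=
    fun i => lapaux_contDiffOn hO (hψ1 i) (e i)
  have hs1 : ∀ i, tsupport (fun y => fderiv ℝ φ y (e i)) ⊆ O :=
    fun i => (lapaux_tsupport φ (e i)).trans hs
  have hs2 : ∀ i, tsupport (fun z => fderiv ℝ (fun y => fderiv ℝ φ y (e i)) z (e i)) ⊆ O :=
    fun i => (lapaux_tsupport _ (e i)).trans (hs1 i)
  have hc1 : ∀ i, HasCompactSupport (fun y => fderiv ℝ φ y (e i)) := by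
    intro i
    exact hc.of_isClosed_subset (isClosed_tsupport _) (lapaux_tsupport φ (e i))
  have hc2 : ∀ i, HasCompactSupport
      (fun z => fderiv ℝ (fun y => fderiv ℝ φ y (e i)) z (e i)) := by
    intro i
    exact (hc1 i).of_isClosed_subset (isClosed_tsupport _) (lapaux_tsupport _ (e i))
  have I1 : ∀ i, Integrable (fun x => φ x *
      fderiv ℝ (fun y => fderiv ℝ ψ y (e i)) x (e i)) :=
    fun i => lapaux_integ hO hφ.continuous hc hs (hψ2 i).continuousOn
  have I2 : ∀ i, Integrable (fun x => fderiv ℝ φ x (e i) * fderiv ℝ ψ x (e i)) :=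
    fun i => lapaux_integ hO (hφ1 i).continuous (hc1 i) (hs1 i) (hψ1 i).continuousOn
  have I3 : ∀ i, Integrable (fun x => fderiv ℝ (fun y => fderiv ℝ φ y (e i)) x (e i) * ψ x) :=
    fun i => lapaux_integ hO (hφ2 i).continuous (hc2 i) (hs2 i) hψ.continuousOn
  have I4 : ∀ i, Integrable (fun x => φ x * fderiv ℝ ψ x (e i)) :=
    fun i => lapaux_integ hO hφ.continuous hc hs (hψ1 i).continuousOn
  have I5 : ∀ i, Integrable (fun x => fderiv ℝ φ x (e i) * ψ x) :=
    fun i => lapaux_integ hO (hφ1 i).continuous (hc1 i) (hs1 i) hψ.continuousOn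
  have key : ∀ i, ∫ x, φ x * fderiv ℝ (fun y => fderiv ℝ ψ y (e i)) x (e i) =
      ∫ x, fderiv ℝ (fun y => fderiv ℝ φ y (e i)) x (e i) * ψ x := by
    intro i
    have h1 := integral_mul_fderiv_eq_neg_fderiv_mul_of_integrable (μ := volume) (f := φ)
      (g := fun y => fderiv ℝ ψ y (e i)) (v := e i) (I2 i) (I1 i) (I4 i)
      (fun x _ => hφ.differentiable (by simp) x)
      (fun x hx => lapaux_diff hO (hψ1 i) (hs hx))
    have h2 := integral_mul_fderiv_eq_neg_fderiv_mul_of_integrable (μ := volume)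
      (f := fun y => fderiv ℝ φ y (e i))
      (g := ψ) (v := e i) (I3 i) (I2 i) (I5 i)
      (fun x _ => (hφ1 i).differentiable (by simp) x)
      (fun x hx => lapaux_diff hO hψ (hs1 i hx))
    rw [h1, h2, neg_neg]
  have e1 : ∀ x, φ x * lap ψ x =
      ∑ i, φ x * fderiv ℝ (fun y => fderiv ℝ ψ y (e i)) x (e i) := by
    intro x
    rw [← Finset.mul_sum]
    rfl
  have e2 : ∀ x, lap φ x * ψ x =
      ∑ i, fderiv ℝ (fun y => fderiv ℝ φ y (e i)) x (e i) * ψ x := by
    intro x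
    rw [← Finset.sum_mul]
    rfl
  simp only [e1, e2]
  rw [integral_finsetSum _ (fun i _ => I1 i), integral_finsetSum _ (fun i _ => I3 i)]
  exact Finset.sum_congr rfl (fun i _ => key i)

theorem lap_congr {n : ℕ} {u v : E n → ℝ} {x : E n} (h : u =ᶠ[𝓝 x] v) :
    lap u x = lap v x := by
  unfold lap
  apply Finset.sum_congr rfl
  intro i _
  have h1 : (fun y => fderiv ℝ u y (EuclideanSpace.single i 1)) =ᶠ[𝓝 x]
      (fun y => fderiv ℝ v y (EuclideanSpace.single i 1)) :=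
    (h.fderiv (𝕜 := ℝ)).mono (fun y hy => by simp only [hy])
  rw [h1.fderiv_eq]

theorem lap_tsupport {n : ℕ} (φ : E n → ℝ) : tsupport (lap φ) ⊆ tsupport φ := by
  apply closure_minimal _ (isClosed_tsupport φ)
  intro x hx
  by_contra h
  apply hx
  have h0 := notMem_tsupport_iff_eventuallyEq.mp h
  rw [lap_congr h0]
  unfold lap
  apply Finset.sum_eq_zero
  intro i _
  have : (fun y : E n => fderiv ℝ (0 : E n → ℝ) y (EuclideanSpace.single i 1)) = fun _ => 0 := by
    funext y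
    simp
  rw [this]
  simp

theorem lap_lin {n : ℕ} {O : Set (E n)} (hO : IsOpen O) {u v : E n → ℝ}
    (hu : ContDiffOn ℝ ∞ u O) (hv : ContDiffOn ℝ ∞ v O) (α β : ℝ) {x : E n} (hx : x ∈ O) :
    lap (fun y => α * u y + β * v y) x = α * lap u x + β * lap v x := by
  have key : ∀ (f g : E n → ℝ), ContDiffOn ℝ ∞ f O → ContDiffOn ℝ ∞ g O → ∀ y ∈ O, ∀ e : E n,
      fderiv ℝ (fun y => α * f y + β * g y) y e = α * fderiv ℝ f y e + β * fderiv ℝ g y e := by
    intro f g hf hg y hy e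
    have h1 := ((lapaux_diff hO hf hy).hasFDerivAt.const_mul α).add
      ((lapaux_diff hO hg hy).hasFDerivAt.const_mul β)
    have h2 : HasFDerivAt (fun y => α * f y + β * g y) (α • fderiv ℝ f y + β • fderiv ℝ g y) y :=
      h1
    rw [h2.fderiv]
    simp
  unfold lap
  rw [Finset.mul_sum, Finset.mul_sum, ← Finset.sum_add_distrib]
  apply Finset.sum_congr rfl
  intro i _
  have h1 : (fun y => fderiv ℝ (fun y => α * u y + β * v y) y (EuclideanSpace.single i 1)) =ᶠ[𝓝 x]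
      (fun y => α * fderiv ℝ u y (EuclideanSpace.single i 1) +
        β * fderiv ℝ v y (EuclideanSpace.single i 1)) := by
    filter_upwards [hO.mem_nhds hx] with y hy
    exact key u v hu hv y hy _
  rw [h1.fderiv_eq]
  exact key _ _ (lapaux_contDiffOn hO hu _) (lapaux_contDiffOn hO hv _) x hx _

/-- scaling -/
theorem lap_scale {n : ℕ} {O : Set (E n)} (hO : IsOpen O) {u : E n → ℝ}
    (hu : ContDiffOn ℝ ∞ u O) {a : ℝ} (ha : 0 < a) (c : E n) {x : E n}
    (hx : a⁻¹ • (x - c) ∈ O) :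
    lap (fun y => u (a⁻¹ • (y - c))) x = a⁻¹ ^ 2 * lap u (a⁻¹ • (x - c)) := by
  have hcont : Continuous (fun y : E n => a⁻¹ • (y - c)) := by fun_prop
  have key : ∀ (f : E n → ℝ), ContDiffOn ℝ ∞ f O → ∀ y : E n, a⁻¹ • (y - c) ∈ O →
      HasFDerivAt (fun y => f (a⁻¹ • (y - c)))
      ((fderiv ℝ f (a⁻¹ • (y - c))).comp (a⁻¹ • ContinuousLinearMap.id ℝ (E n))) y := by
    intro f hf y hy
    have h0 : HasFDerivAt (fun y : E n => a⁻¹ • (y - c)) (a⁻¹ • ContinuousLinearMap.id ℝ (E n)) y :=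
      ((hasFDerivAt_id y).sub_const c).const_smul a⁻¹
    exact (lapaux_diff hO hf hy).hasFDerivAt.comp y h0
  unfold lap
  rw [Finset.mul_sum]
  apply Finset.sum_congr rfl
  intro i _
  have h1 : (fun y => fderiv ℝ (fun y => u (a⁻¹ • (y - c))) y (EuclideanSpace.single i 1)) =ᶠ[𝓝 x]
      (fun y => a⁻¹ * (fun z => fderiv ℝ u z (EuclideanSpace.single i 1)) (a⁻¹ • (y - c))) := by
    filter_upwards [(hO.preimage hcont).mem_nhds hx] with y hy
    rw [(key u hu y hy).fderiv]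
    simp
  rw [h1.fderiv_eq]
  have h3 := lapaux_contDiffOn hO hu (EuclideanSpace.single i (1 : ℝ))
  have h4 := (key _ h3 x hx).const_mul a⁻¹
  have h5 : HasFDerivAt (fun y => a⁻¹ * (fun z => fderiv ℝ u z (EuclideanSpace.single i 1))
      (a⁻¹ • (y - c))) _ x := h4
  rw [h5.fderiv]
  simp
  ring

/-- Laplacian of a radial function -/
theorem lap_radial {n : ℕ} {I : Set ℝ} (hI : IsOpen I) {g : ℝ → ℝ} (hg : ContDiffOn ℝ ∞ g I)
    (c : E n) {x : E n} (hx : ‖x - c‖ ^ 2 ∈ I) :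
    lap (fun y => g (‖y - c‖ ^ 2)) x =
      4 * ‖x - c‖ ^ 2 * deriv (deriv g) (‖x - c‖ ^ 2) + 2 * n * deriv g (‖x - c‖ ^ 2) := by
  have hcont : Continuous (fun y : E n => ‖y - c‖ ^ 2) := by fun_prop
  have hg1 : ContDiffOn ℝ ∞ (deriv g) I := hg.deriv_of_isOpen hI (by simp)
  have hnd : ∀ y : E n, HasFDerivAt (fun y : E n => ‖y - c‖ ^ 2)
      (2 • (innerSL ℝ (y - c))) y := by
    intro y
    have := ((hasFDerivAt_id y).sub_const c).norm_sq
    simpa using this
  have key : ∀ (f : ℝ → ℝ), ContDiffOn ℝ ∞ f I → ∀ y : E n, ‖y - c‖ ^ 2 ∈ I → 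
      HasFDerivAt (fun y : E n => f (‖y - c‖ ^ 2))
        (deriv f (‖y - c‖ ^ 2) • (2 • (innerSL ℝ (y - c)))) y := by
    intro f hf y hy
    have h1 : HasDerivAt f (deriv f (‖y - c‖ ^ 2)) (‖y - c‖ ^ 2) :=
      ((hf.contDiffAt (hI.mem_nhds hy)).differentiableAt (by simp)).hasDerivAt
    exact h1.comp_hasFDerivAt y (hnd y)
  have hcoord : ∀ (i : Fin n) (y : E n),
      HasFDerivAt (fun y : E n => 2 * (y i - c i))
        ((2 : ℝ) • (EuclideanSpace.proj i : E n →L[ℝ] ℝ)) y := by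
    intro i y
    have h0 : HasFDerivAt (fun y : E n => y i) (EuclideanSpace.proj i : E n →L[ℝ] ℝ) y :=
      (EuclideanSpace.proj i : E n →L[ℝ] ℝ).hasFDerivAt
    have := (h0.sub_const (c i)).const_mul (2 : ℝ)
    simpa using this
  unfold lap
  have hterm : ∀ i : Fin n, fderiv ℝ (fun y => fderiv ℝ (fun y : E n => g (‖y - c‖ ^ 2)) y
      (EuclideanSpace.single i 1)) x (EuclideanSpace.single i 1) =
      4 * (x i - c i) ^ 2 * deriv (deriv g) (‖x - c‖ ^ 2) + 2 * deriv g (‖x - c‖ ^ 2) := by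
    intro i
    have hin : ∀ y : E n, inner ℝ y (EuclideanSpace.single i (1 : ℝ)) = y i := by
      intro y
      rw [EuclideanSpace.inner_single_right]
      simp
    have h1 : (fun y => fderiv ℝ (fun y : E n => g (‖y - c‖ ^ 2)) y
        (EuclideanSpace.single i 1)) =ᶠ[𝓝 x]
        (fun y => deriv g (‖y - c‖ ^ 2) * (2 * (y i - c i))) := by
      filter_upwards [(hI.preimage hcont).mem_nhds hx] with y hy
      rw [(key g hg y hy).fderiv]
      simp [hin]
    rw [h1.fderiv_eq]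
    have h2 := (key (deriv g) hg1 x hx).mul (hcoord i x)
    have h3 : HasFDerivAt (fun y : E n => deriv g (‖y - c‖ ^ 2) * (2 * (y i - c i))) _ x := h2
    rw [h3.fderiv]
    simp [hin]
    ring
  rw [Finset.sum_congr rfl (fun i _ => hterm i)]
  rw [Finset.sum_add_distrib, ← Finset.sum_mul, ← Finset.mul_sum]
  have hn : ‖x - c‖ ^ 2 = ∑ i, (x i - c i) ^ 2 := by
    rw [EuclideanSpace.norm_sq_eq]
    simp
  rw [← hn]
  simp
  ring

end Pool.Agent.Helper676.GF
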