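import Pool.Agent.Helper676.GFE
import Pool.Agent.Helper676.GFF
import Pool.Agent.Helper676.GFG

set_option autoImplicit false

/-! Extension of the weak formulation to test functions vanishing to fourth order on holes. -/

namespace Pool.Agent.Helper676.GF

open MeasureTheory Filter Topology Set Metric
open scoped ContDiff

noncomputable def lap4 {n : ℕ} (u : E n → ℝ) : E n → ℝ := lap (lap (lap (lap u)))

/-- weak solutions of `Δ⁴u = f` in `W̊^{4,2}(Ω)` (raw form) -/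
structure Sol (Ω : Set (E 22)) (f u : E 22 → ℝ) : Prop where
  li : LocallyIntegrableOn u Ω
  ex : ∃ (φ : ℕ → E 22 → ℝ) (B : ℝ), (∀ j, ContDiff ℝ ∞ (φ j) ∧ HasCompactSupport (φ j) ∧
      tsupport (φ j) ⊆ Ω) ∧ (∀ j, ∫ x, (lap (lap (φ j)) x) ^ 2 ≤ B) ∧
    ∀ L, IsCompact L → L ⊆ Ω → Tendsto (fun j => ∫ x in L, |φ j x - u x|) atTop (𝓝 0)
  weak : ∀ ψ, ContDiff ℝ ∞ ψ → HasCompactSupport ψ → tsupport ψ ⊆ Ω →
    ∫ x in Ω, u x * lap4 ψ x = ∫ x in Ω, f x * ψ x

lemma lap4_congr {n : ℕ} {u v : E n → ℝ} {x : E n} (h : u =ᶠ[𝓝 x] v) : lap4 u x = lap4 v x := by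
  have hc : ∀ u v : E n → ℝ, u =ᶠ[𝓝 x] v → lap u =ᶠ[𝓝 x] lap v := by
    intro u v h
    filter_upwards [h.eventually_nhds] with y hy
    exact lap_congr hy
  exact lap_congr (hc _ _ (hc _ _ (hc _ _ h)))

lemma lap4_smooth {n : ℕ} {O : Set (E n)} (hO : IsOpen O) {u : E n → ℝ}
    (hu : ContDiffOn ℝ ∞ u O) : ContDiffOn ℝ ∞ (lap4 u) O :=
  lap_smooth hO (lap_smooth hO (lap_smooth hO (lap_smooth hO hu)))

lemma lap_congr_on {n : ℕ} {O : Set (E n)} (hO : IsOpen O) {u v : E n → ℝ}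
    (h : ∀ x ∈ O, u x = v x) : ∀ x ∈ O, lap u x = lap v x := by
  intro x hx
  apply lap_congr
  filter_upwards [hO.mem_nhds hx] with y hy
  exact h y hy

lemma lap4_lin {n : ℕ} {O : Set (E n)} (hO : IsOpen O) {u v : E n → ℝ}
    (hu : ContDiffOn ℝ ∞ u O) (hv : ContDiffOn ℝ ∞ v O) (α β : ℝ) {x : E n} (hx : x ∈ O) :
    lap4 (fun y => α * u y + β * v y) x = α * lap4 u x + β * lap4 v x := by
  have h1 : ∀ u v : E n → ℝ, ContDiffOn ℝ ∞ u O → ContDiffOn ℝ ∞ v O → ∀ y ∈ O,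
      lap (fun y => α * u y + β * v y) y = (fun y => α * lap u y + β * lap v y) y :=
    fun u v hu hv y hy => lap_lin hO hu hv α β hy
  have hu1 := lap_smooth hO hu
  have hv1 := lap_smooth hO hv
  have hu2 := lap_smooth hO hu1
  have hv2 := lap_smooth hO hv1
  have hu3 := lap_smooth hO hu2
  have hv3 := lap_smooth hO hv2
  unfold lap4
  rw [lap_congr_on hO (lap_congr_on hO (lap_congr_on hO (h1 u v hu hv))) x hx,
    lap_congr_on hO (lap_congr_on hO (h1 _ _ hu1 hv1)) x hx,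
    lap_congr_on hO (h1 _ _ hu2 hv2) x hx, h1 _ _ hu3 hv3 x hx]

lemma lap4_sum {n : ℕ} {ι : Type*} (J : Finset ι) {O : Set (E n)} (hO : IsOpen O)
    {u : ι → E n → ℝ} (hu : ∀ j ∈ J, ContDiffOn ℝ ∞ (u j) O) {x : E n} (hx : x ∈ O) :
    lap4 (fun y => ∑ j ∈ J, u j y) x = ∑ j ∈ J, lap4 (u j) x := by
  classical
  induction J using Finset.induction with
  | empty =>
    simp only [Finset.sum_empty]
    have h0 : ContDiffOn ℝ ∞ (fun _ : E n => (0 : ℝ)) O := contDiffOn_const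
    have := lap4_lin hO h0 h0 0 0 hx
    simpa using this
  | insert a s ha ih =>
    rw [Finset.sum_insert ha, ← ih fun j hj => hu j (Finset.mem_insert_of_mem hj)]
    have h1 := hu a (Finset.mem_insert_self a s)
    have h2 : ContDiffOn ℝ ∞ (fun y => ∑ j ∈ s, u j y) O :=
      ContDiffOn.sum fun j hj => hu j (Finset.mem_insert_of_mem hj)
    have h3 := lap4_lin hO h1 h2 1 1 hx
    simp only [one_mul] at h3
    rw [← h3]
    congr 1
    ext y
    rw [Finset.sum_insert ha]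

/-- limit of pairings -/
lemma pair_lim {Ω : Set (E 22)} (hΩ : IsOpen Ω) {u w : E 22 → ℝ} {φ : ℕ → E 22 → ℝ}
    (hu : LocallyIntegrableOn u Ω) (hφ : ∀ j, Continuous (φ j))
    (hlim : ∀ L, IsCompact L → L ⊆ Ω → Tendsto (fun j => ∫ x in L, |φ j x - u x|) atTop (𝓝 0))
    (hw : ContinuousOn w Ω) {L : Set (E 22)} (hL : IsCompact L) (hLΩ : L ⊆ Ω)
    (h0 : ∀ x ∈ Ω, x ∉ L → w x = 0) :
    Tendsto (fun j => ∫ x in Ω, φ j x * w x) atTop (𝓝 (∫ x in Ω, u x * w x)) := by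
  have hres : ∀ v : E 22 → ℝ, ∫ x in Ω, v x * w x = ∫ x in L, v x * w x := by
    intro v
    apply setIntegral_eq_of_subset_of_forall_sdiff_eq_zero hΩ.measurableSet hLΩ
    intro x hx
    rw [h0 x hx.1 hx.2, mul_zero]
  simp only [hres]
  obtain ⟨M, hM⟩ := hL.exists_bound_of_continuousOn (hw.mono hLΩ)
  have huL : IntegrableOn u L := hu.integrableOn_compact_subset hLΩ hL
  have hφL : ∀ j, IntegrableOn (φ j) L := fun j => (hφ j).continuousOn.integrableOn_compact hL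
  have hwm : AEStronglyMeasurable w (volume.restrict L) :=
    (hw.mono hLΩ).aestronglyMeasurable hL.measurableSet
  have hint : ∀ v : E 22 → ℝ, IntegrableOn v L → IntegrableOn (fun x => v x * w x) L := by
    intro v hv
    refine Integrable.mul_bdd (c := M) hv hwm ?_
    filter_upwards [ae_restrict_mem hL.measurableSet] with x hx
    exact hM x hx
  rw [tendsto_iff_norm_sub_tendsto_zero]
  refine squeeze_zero (fun j => norm_nonneg _) (fun j => ?_)
    (by simpa using (hlim L hL hLΩ).mul_const (max M 0))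
  rw [← integral_sub (hint _ (hφL j)) (hint _ huL)]
  calc ‖∫ x in L, (φ j x * w x - u x * w x)‖ ≤ ∫ x in L, ‖φ j x * w x - u x * w x‖ :=
        norm_integral_le_integral_norm _
    _ ≤ ∫ x in L, |φ j x - u x| * max M 0 := by
        apply setIntegral_mono_on ((hint _ (hφL j)).sub (hint _ huL)).norm
          (((hφL j).sub huL).abs.mul_const _) hL.measurableSet
        intro x hx
        simp only [Pi.sub_apply]
        rw [← sub_mul, norm_mul, Real.norm_eq_abs]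
        exact mul_le_mul_of_nonneg_left ((hM x hx).trans (le_max_left _ _)) (abs_nonneg _)
    _ = _ := integral_mul_const _ _

lemma lap_test {φ : E 22 → ℝ} (h : ContDiff ℝ ∞ φ) (hc : HasCompactSupport φ) {O : Set (E 22)}
    (hs : tsupport φ ⊆ O) :
    ContDiff ℝ ∞ (lap φ) ∧ HasCompactSupport (lap φ) ∧ tsupport (lap φ) ⊆ O := by
  refine ⟨?_, ?_, (lap_tsupport φ).trans hs⟩
  · rw [← contDiffOn_univ]
    exact lap_smooth isOpen_univ h.contDiffOn
  · exact hc.isCompact.of_isClosed_subset (isClosed_tsupport _) (lap_tsupport φ)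

/-- moving two Laplacians -/
lemma ibp2 {O : Set (E 22)} (hO : IsOpen O) {φ ψ : E 22 → ℝ}
    (hφ : ContDiff ℝ ∞ φ) (hc : HasCompactSupport φ) (hs : tsupport φ ⊆ O)
    (hψ : ContDiffOn ℝ ∞ ψ O) :
    ∫ x, φ x * lap4 ψ x = ∫ x, lap (lap φ) x * lap (lap ψ) x := by
  have h1 := lap_smooth hO hψ
  have h2 := lap_smooth hO h1
  have h3 := lap_smooth hO h2
  obtain ⟨a1, a2, a3⟩ := lap_test hφ hc hs
  unfold lap4
  rw [lap_ibp hO hφ hc hs h3, lap_ibp hO a1 a2 a3 h2]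

/-- the scaled layer function has small energy -/
lemma energy_scale {Θ : E 22 → ℝ} (hΘ : ContDiffOn ℝ ∞ Θ {0}ᶜ)
    (hi : IntegrableOn (fun z => (lap (lap Θ) z) ^ 2) {z | 1 < ‖z‖}) {a : ℝ} (ha : 0 < a)
    (p : E 22) :
    IntegrableOn (fun x => (lap (lap (fun y => Θ (a⁻¹ • (y - p)))) x) ^ 2) {x | a < ‖x - p‖} ∧
    ∫ x in {x | a < ‖x - p‖}, (lap (lap (fun y => Θ (a⁻¹ • (y - p)))) x) ^ 2 =
      a ^ 14 * ∫ z in {z : E 22 | 1 < ‖z‖}, (lap (lap Θ) z) ^ 2 := by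
  have hO0 : IsOpen ({0}ᶜ : Set (E 22)) := isOpen_compl_singleton
  have hmem : ∀ x : E 22, x ≠ p → a⁻¹ • (x - p) ∈ ({0}ᶜ : Set (E 22)) := by
    intro x hx
    simp only [mem_compl_iff, mem_singleton_iff, smul_eq_zero, inv_eq_zero, sub_eq_zero, not_or]
    exact ⟨ha.ne', hx⟩
  have hl1 : ∀ x : E 22, x ≠ p → lap (fun y => Θ (a⁻¹ • (y - p))) x =
      a⁻¹ ^ 2 * lap Θ (a⁻¹ • (x - p)) := fun x hx => lap_scale hO0 hΘ ha p (hmem x hx)
  have hl2 : ∀ x : E 22, x ≠ p → lap (lap (fun y => Θ (a⁻¹ • (y - p)))) x =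
      a⁻¹ ^ 4 * lap (lap Θ) (a⁻¹ • (x - p)) := by
    intro x hx
    have hev : lap (fun y => Θ (a⁻¹ • (y - p))) =ᶠ[𝓝 x]
        fun x => a⁻¹ ^ 2 * lap Θ (a⁻¹ • (x - p)) + 0 * 0 := by
      filter_upwards [isOpen_compl_singleton.mem_nhds (show x ∈ ({p}ᶜ : Set (E 22)) from hx)]
        with y hy
      rw [hl1 y hy]; ring
    rw [lap_congr hev]
    have h1 : ContDiffOn ℝ ∞ (fun y => lap Θ (a⁻¹ • (y - p))) ({p}ᶜ : Set (E 22)) := by
      apply (lap_smooth hO0 hΘ).comp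
      · exact ((contDiff_id.sub contDiff_const).const_smul a⁻¹).contDiffOn
      · intro y hy; exact hmem y hy
    have h2 : ContDiffOn ℝ ∞ (fun _ : E 22 => (0 : ℝ)) ({p}ᶜ : Set (E 22)) := contDiffOn_const
    rw [lap_lin isOpen_compl_singleton h1 h2 (a⁻¹ ^ 2) 0 (show x ∈ ({p}ᶜ : Set (E 22)) from hx),
      lap_scale hO0 (lap_smooth hO0 hΘ) ha p (hmem x hx)]
    ring
  set F : E 22 → ℝ := {z : E 22 | 1 < ‖z‖}.indicator (fun z => (lap (lap Θ) z) ^ 2) with hF
  have hm1 : MeasurableSet {z : E 22 | 1 < ‖z‖} :=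
    (isOpen_lt continuous_const continuous_norm).measurableSet
  have hm2 : MeasurableSet {x : E 22 | a < ‖x - p‖} :=
    (isOpen_lt continuous_const (by fun_prop)).measurableSet
  have hind : {x : E 22 | a < ‖x - p‖}.indicator
      (fun x => (lap (lap (fun y => Θ (a⁻¹ • (y - p)))) x) ^ 2) =
      fun x => a⁻¹ ^ 8 * F (a⁻¹ • (x - p)) := by
    ext x
    have hiff : (a < ‖x - p‖) ↔ (1 < ‖a⁻¹ • (x - p)‖) := by
      rw [norm_smul, Real.norm_of_nonneg (inv_nonneg.2 ha.le), lt_inv_mul_iff₀ ha, mul_one]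
    by_cases hx : a < ‖x - p‖
    · have hxp : x ≠ p := by
        rintro rfl
        rw [sub_self, norm_zero] at hx
        linarith
      rw [indicator_of_mem (show x ∈ {x : E 22 | a < ‖x - p‖} from hx)]
      simp only [hF]
      rw [indicator_of_mem (show a⁻¹ • (x - p) ∈ {z : E 22 | 1 < ‖z‖} from hiff.1 hx), hl2 x hxp]
      ring
    · rw [indicator_of_notMem (show x ∉ {x : E 22 | a < ‖x - p‖} from hx)]
      simp only [hF]
      rw [indicator_of_notMem (show a⁻¹ • (x - p) ∉ {z : E 22 | 1 < ‖z‖} from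
        fun h => hx (hiff.2 h)), mul_zero]
  have hFi : Integrable F := (integrable_indicator_iff hm1).2 hi
  have hFs : Integrable (fun x => F (a⁻¹ • (x - p))) := by
    have h1 : Integrable (fun x => F (a⁻¹ • x)) := hFi.comp_smul (inv_ne_zero ha.ne')
    exact h1.comp_sub_right p
  constructor
  · rw [← integrable_indicator_iff hm2, hind]
    exact hFs.const_mul _
  · rw [← integral_indicator hm2, hind, integral_const_mul, ← integral_indicator hm1]
    have h1 : ∫ x, F (a⁻¹ • (x - p)) = ∫ x, F (a⁻¹ • x) :=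
      integral_sub_right_eq_self (fun x => F (a⁻¹ • x)) p
    rw [h1, Measure.integral_comp_inv_smul_of_nonneg _ _ ha.le]
    simp only [finrank_euclideanSpace, Fintype.card_fin, smul_eq_mul]
    rw [← mul_assoc]
    congr 1
    field_simp

/-- pairing of a test function with one layer -/
lemma layer_pair {φ : E 22 → ℝ} (hφ : ContDiff ℝ ∞ φ) (hc : HasCompactSupport φ)
    {Θ : E 22 → ℝ} (hΘ : ContDiffOn ℝ ∞ Θ {0}ᶜ)
    (hi : IntegrableOn (fun z => (lap (lap Θ) z) ^ 2) {z | 1 < ‖z‖}) {a : ℝ} (ha : 0 < a)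
    {p : E 22} (hs : tsupport φ ⊆ {x | a < ‖x - p‖}) {B : ℝ}
    (hB : ∫ x, (lap (lap φ) x) ^ 2 ≤ B) {l : ℝ} (hl : 0 < l) :
    |∫ x, φ x * lap4 (fun y => Θ (a⁻¹ • (y - p))) x| ≤
      (l * B + l⁻¹ * (a ^ 14 * ∫ z in {z : E 22 | 1 < ‖z‖}, (lap (lap Θ) z) ^ 2)) / 2 := by
  have hOp : IsOpen ({p}ᶜ : Set (E 22)) := isOpen_compl_singleton
  have hsp : tsupport φ ⊆ ({p}ᶜ : Set (E 22)) := by
    intro x hx
    have h1 : a < ‖x - p‖ := hs hx
    simp only [mem_compl_iff, mem_singleton_iff]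
    rintro rfl
    rw [sub_self, norm_zero] at h1
    linarith
  have hΘp : ContDiffOn ℝ ∞ (fun y => Θ (a⁻¹ • (y - p))) ({p}ᶜ : Set (E 22)) := by
    apply hΘ.comp
    · exact ((contDiff_id.sub contDiff_const).const_smul a⁻¹).contDiffOn
    · intro x hx
      simp only [mem_compl_iff, mem_singleton_iff, smul_eq_zero, inv_eq_zero, sub_eq_zero, not_or]
      exact ⟨ha.ne', hx⟩
  rw [ibp2 hOp hφ hc hsp hΘp]
  obtain ⟨e1, e2⟩ := energy_scale hΘ hi ha p
  set D : Set (E 22) := {x | a < ‖x - p‖} with hD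
  have hDm : MeasurableSet D := (isOpen_lt continuous_const (by fun_prop)).measurableSet
  obtain ⟨b1, b2, b3⟩ := lap_test hφ hc hs
  obtain ⟨c1, c2, c3⟩ := lap_test b1 b2 b3
  set w := lap (lap φ) with hw
  set v := lap (lap fun y => Θ (a⁻¹ • (y - p))) with hv
  have hwi : Integrable (fun x => w x ^ 2) := by
    have h1 : Continuous (fun x => w x ^ 2) := c1.continuous.pow 2
    apply h1.integrable_of_hasCompactSupport
    exact c2.comp_left (g := fun t : ℝ => t ^ 2) (by simp)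
  have hw0 : ∀ x, x ∉ D → w x = 0 := fun x hx => image_eq_zero_of_notMem_tsupport fun h => hx (c3 h)
  have e3 : ∫ x, w x * v x = ∫ x in D, w x * v x := by
    rw [← integral_indicator hDm]
    congr 1
    ext x
    by_cases hx : x ∈ D
    · rw [indicator_of_mem hx]
    · rw [indicator_of_notMem hx, hw0 x hx, zero_mul]
  rw [e3]
  have hl' : 0 < l⁻¹ := inv_pos.2 hl
  have hpt : ∀ x, |w x * v x| ≤ (l * w x ^ 2 + l⁻¹ * v x ^ 2) / 2 := by
    intro x
    rw [abs_mul]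
    have h1 : 0 ≤ l⁻¹ * (l * |w x| - |v x|) ^ 2 := by positivity
    have h2 : l⁻¹ * (l * |w x| - |v x|) ^ 2 = l * |w x| ^ 2 - 2 * (|w x| * |v x|) +
        l⁻¹ * |v x| ^ 2 := by
      field_simp
      ring
    rw [h2, sq_abs, sq_abs] at h1
    linarith
  have hI : IntegrableOn (fun x => (l * w x ^ 2 + l⁻¹ * v x ^ 2) / 2) D :=
    ((hwi.integrableOn.const_mul l).add (e1.const_mul l⁻¹)).div_const 2
  calc |∫ x in D, w x * v x| ≤ ∫ x in D, |w x * v x| := abs_integral_le_integral_abs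
    _ ≤ ∫ x in D, (l * w x ^ 2 + l⁻¹ * v x ^ 2) / 2 := by
        apply integral_mono_of_nonneg (ae_of_all _ fun x => abs_nonneg _) hI
        exact ae_of_all _ hpt
    _ = (l * (∫ x in D, w x ^ 2) + l⁻¹ * ∫ x in D, v x ^ 2) / 2 := by
        rw [integral_div, integral_add (hwi.integrableOn.const_mul l) (e1.const_mul l⁻¹),
          integral_const_mul, integral_const_mul]
    _ ≤ _ := by
        rw [← e2]
        have h1 : ∫ x in D, w x ^ 2 ≤ B :=
          (setIntegral_le_integral hwi (ae_of_all _ fun x => sq_nonneg _)).trans hB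
        have h2 := mul_le_mul_of_nonneg_left h1 hl.le
        linarith

/-- Laplacian of an inverse even power -/
lemma lap_invpow (k : ℕ) {z : E 22} (hz : z ≠ 0) :
    lap (fun y : E 22 => ((‖y‖ ^ 2) ^ k)⁻¹) z =
      4 * k * (k - 10) * ((‖z‖ ^ 2) ^ (k + 1))⁻¹ := by
  have hρ : 0 < ‖z‖ ^ 2 := by positivity
  have hd1 : ∀ k : ℕ, ∀ ρ : ℝ, 0 < ρ →
      HasDerivAt (fun ρ : ℝ => (ρ ^ k)⁻¹) (-(k * (ρ ^ (k + 1))⁻¹)) ρ := by
    intro k ρ hρ
    have h1 := (hasDerivAt_pow k ρ).fun_inv (pow_ne_zero k hρ.ne')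
    refine h1.congr_deriv ?_
    rcases Nat.eq_zero_or_pos k with rfl | hk
    · simp
    · obtain ⟨m, rfl⟩ := Nat.exists_eq_succ_of_ne_zero hk.ne'
      simp only [Nat.succ_eq_add_one, Nat.add_sub_cancel]
      field_simp
      ring
  have hs : ContDiffOn ℝ ∞ (fun ρ : ℝ => (ρ ^ k)⁻¹) (Ioi 0) := by
    intro ρ hρ
    exact ((contDiff_id.pow k).contDiffAt.inv (pow_ne_zero k (show (0:ℝ) < ρ from hρ).ne')).contDiffWithinAt
  have h := lap_radial (n := 22) isOpen_Ioi hs 0 (x := z) (by rw [sub_zero]; exact hρ)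
  simp only [sub_zero] at h
  have hdd : deriv (deriv (fun ρ : ℝ => (ρ ^ k)⁻¹)) (‖z‖ ^ 2) =
      k * (k + 1) * ((‖z‖ ^ 2) ^ (k + 2))⁻¹ := by
    have e : deriv (fun ρ : ℝ => (ρ ^ k)⁻¹) =ᶠ[𝓝 (‖z‖ ^ 2)]
        fun ρ => -(k * (ρ ^ (k + 1))⁻¹) := by
      filter_upwards [Ioi_mem_nhds hρ] with t ht
      exact (hd1 k t ht).deriv
    rw [e.deriv_eq]
    have h2 := ((hd1 (k + 1) _ hρ).const_mul (k : ℝ)).neg
    have h3 : HasDerivAt (fun ρ : ℝ => -((k : ℝ) * (ρ ^ (k + 1))⁻¹))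
        (-((k : ℝ) * -(((k + 1 : ℕ) : ℝ) * ((‖z‖ ^ 2) ^ (k + 1 + 1))⁻¹))) (‖z‖ ^ 2) := h2
    rw [h3.deriv]
    push_cast; ring
  rw [h, hdd, (hd1 k _ hρ).deriv]
  have : ((‖z‖ ^ 2) ^ (k + 1))⁻¹ = ‖z‖ ^ 2 * ((‖z‖ ^ 2) ^ (k + 2))⁻¹ := by
    field_simp
    ring
  rw [this]
  push_cast
  ring

lemma smooth_invpow (k : ℕ) : ContDiffOn ℝ ∞ (fun y : E 22 => ((‖y‖ ^ 2) ^ k)⁻¹) {0}ᶜ := by
  intro z hz
  have hz' : z ≠ 0 := hz
  have h1 : ContDiff ℝ ∞ (fun x : E 22 => ‖x‖ ^ 2) := contDiff_norm_sq ℝ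
  exact ((h1.pow k).contDiffAt.inv (by positivity)).contDiffWithinAt

lemma smooth_hr : ContDiffOn ℝ ∞ (fun y : E 22 => hr (‖y‖ ^ 2)) {0}ᶜ := by
  unfold hr
  exact (((contDiffOn_const.mul (smooth_invpow 7)).sub (contDiffOn_const.mul (smooth_invpow 8))).add
    (contDiffOn_const.mul (smooth_invpow 9))).sub (contDiffOn_const.mul (smooth_invpow 10))

/-- the capacitary potential is 4-harmonic -/
lemma lap4_hr {z : E 22} (hz : z ≠ 0) : lap4 (fun y : E 22 => hr (‖y‖ ^ 2)) z = 0 := by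
  have hO : IsOpen ({0}ᶜ : Set (E 22)) := isOpen_compl_singleton
  set P : ℕ → E 22 → ℝ := fun k y => ((‖y‖ ^ 2) ^ k)⁻¹ with hP
  have hPs : ∀ k, ContDiffOn ℝ ∞ (P k) {0}ᶜ := smooth_invpow
  have hlin : ∀ k l : ℕ, ∀ α β : ℝ, ∀ y ∈ ({0}ᶜ : Set (E 22)),
      lap (fun y => α * P k y + β * P l y) y =
        α * (4 * k * (k - 10)) * P (k + 1) y + β * (4 * l * (l - 10)) * P (l + 1) y := by
    intro k l α β y hy
    rw [lap_lin hO (hPs k) (hPs l) α β hy, lap_invpow k hy, lap_invpow l hy]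
    ring
  have hcomb : ∀ k l : ℕ, ∀ α β : ℝ, ContDiffOn ℝ ∞ (fun y => α * P k y + β * P l y) {0}ᶜ :=
    fun k l α β => (contDiffOn_const.mul (hPs k)).add (contDiffOn_const.mul (hPs l))
  have h2 : ∀ k l : ℕ, ∀ α β : ℝ, ∀ y ∈ ({0}ᶜ : Set (E 22)),
      lap4 (fun y => α * P k y + β * P l y) y =
        α * (4 * k * (k - 10)) * (4 * (k + 1) * (k - 9)) * (4 * (k + 2) * (k - 8)) *
          (4 * (k + 3) * (k - 7)) * P (k + 4) y +
        β * (4 * l * (l - 10)) * (4 * (l + 1) * (l - 9)) * (4 * (l + 2) * (l - 8)) *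
          (4 * (l + 3) * (l - 7)) * P (l + 4) y := by
    intro k l α β y hy
    unfold lap4
    rw [lap_congr_on hO (lap_congr_on hO (lap_congr_on hO (hlin k l α β))) y hy,
      lap_congr_on hO (lap_congr_on hO (hlin (k + 1) (l + 1) _ _)) y hy,
      lap_congr_on hO (hlin (k + 1 + 1) (l + 1 + 1) _ _) y hy,
      hlin (k + 1 + 1 + 1) (l + 1 + 1 + 1) _ _ y hy]
    push_cast
    ring
  have e : (fun y : E 22 => hr (‖y‖ ^ 2)) = fun y => 1 * (120 * P 7 y + (-315) * P 8 y) +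
      1 * (280 * P 9 y + (-84) * P 10 y) := by
    ext y
    simp only [hr, hP]
    ring
  rw [e, lap4_lin hO (hcomb 7 8 _ _) (hcomb 9 10 _ _) 1 1 hz, h2 _ _ _ _ _ hz, h2 _ _ _ _ _ hz]
  push_cast
  ring

/-- scaled version -/
lemma lap4_scale {u : E 22 → ℝ} (hu : ContDiffOn ℝ ∞ u {0}ᶜ) {a : ℝ} (ha : 0 < a) (p : E 22)
    {x : E 22} (hx : x ≠ p) :
    lap4 (fun y => u (a⁻¹ • (y - p))) x = a⁻¹ ^ 8 * lap4 u (a⁻¹ • (x - p)) := by
  have hO0 : IsOpen ({0}ᶜ : Set (E 22)) := isOpen_compl_singleton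
  have hOp : IsOpen ({p}ᶜ : Set (E 22)) := isOpen_compl_singleton
  have hmem : ∀ x ∈ ({p}ᶜ : Set (E 22)), a⁻¹ • (x - p) ∈ ({0}ᶜ : Set (E 22)) := by
    intro x hx
    simp only [mem_compl_iff, mem_singleton_iff, smul_eq_zero, inv_eq_zero, sub_eq_zero, not_or]
    exact ⟨ha.ne', hx⟩
  have hsc : ∀ v : E 22 → ℝ, ContDiffOn ℝ ∞ v {0}ᶜ →
      ContDiffOn ℝ ∞ (fun y => v (a⁻¹ • (y - p))) ({p}ᶜ : Set (E 22)) := fun v hv =>
    hv.comp ((contDiff_id.sub contDiff_const).const_smul a⁻¹).contDiffOn hmem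
  have hstep : ∀ v : E 22 → ℝ, ContDiffOn ℝ ∞ v {0}ᶜ → ∀ c : ℝ, ∀ y ∈ ({p}ᶜ : Set (E 22)),
      lap (fun y => c * v (a⁻¹ • (y - p))) y = c * a⁻¹ ^ 2 * lap v (a⁻¹ • (y - p)) := by
    intro v hv c y hy
    have h1 : (fun y => c * v (a⁻¹ • (y - p))) = fun y => c * v (a⁻¹ • (y - p)) + 0 * (0 : ℝ) := by
      ext y; ring
    rw [h1, lap_lin hOp (hsc v hv) (contDiffOn_const (c := (0 : ℝ))) c 0 hy,
      lap_scale hO0 hv ha p (hmem y hy)]
    ring
  have hx' : x ∈ ({p}ᶜ : Set (E 22)) := hx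
  have hu1 := lap_smooth hO0 hu
  have hu2 := lap_smooth hO0 hu1
  have hu3 := lap_smooth hO0 hu2
  have e0 : ∀ y ∈ ({p}ᶜ : Set (E 22)), lap (fun y => u (a⁻¹ • (y - p))) y =
      1 * a⁻¹ ^ 2 * lap u (a⁻¹ • (y - p)) := by
    intro y hy
    have := hstep u hu 1 y hy
    simpa using this
  unfold lap4
  rw [lap_congr_on hOp (lap_congr_on hOp (lap_congr_on hOp e0)) x hx',
    lap_congr_on hOp (lap_congr_on hOp (hstep _ hu1 _)) x hx',
    lap_congr_on hOp (hstep _ hu2 _) x hx', hstep _ hu3 _ x hx']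
  ring

/-- the weak formulation holds for test functions with capacitary profile at the holes -/
theorem weak_ext {ι : Type*} [DecidableEq ι] (J : Finset ι) (p : ι → E 22) (a κ : ι → ℝ)
    (ha : ∀ j ∈ J, 0 < a j) (hdisj : ∀ i ∈ J, ∀ j ∈ J, i ≠ j → 2 * a i + 2 * a j ≤ ‖p i - p j‖)
    {Ω : Set (E 22)} (hΩ : Ω = {x | ∀ j ∈ J, a j < ‖x - p j‖}) (hΩo : IsOpen Ω)
    {f u Ψ : E 22 → ℝ}
    (hs : Sol Ω f u) (hf : ∀ x, f x ≠ 0 → ∀ j ∈ J, 2 * a j ≤ ‖x - p j‖)
    (hΨ : ContDiffOn ℝ ∞ Ψ {x | ∀ j ∈ J, x ≠ p j}) {L0 : ℝ} (hΨL : ∀ x, L0 ≤ ‖x‖ → Ψ x = 0)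
    (hΨh : ∀ j ∈ J, ∀ x, x ≠ p j → ‖x - p j‖ ≤ 3 / 2 * a j →
      Ψ x = κ j * (1 - hr (‖(a j)⁻¹ • (x - p j)‖ ^ 2))) :
    ∫ x in Ω, u x * lap4 Ψ x = ∫ x in Ω, f x * Ψ x := by
  obtain ⟨Θ, hΘs, hΘ0, hΘ1, hΘi, hΘl⟩ := shell
  obtain ⟨φ, B, hφ, hφB, hφl⟩ := hs.ex
  set O : Set (E 22) := {x | ∀ j ∈ J, x ≠ p j} with hO
  have hOo : IsOpen O := by
    have : O = ⋂ j ∈ J, {p j}ᶜ := by ext x; simp [hO]
    rw [this]
    exact isOpen_biInter_finset fun j _ => isOpen_compl_singleton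
  have hΩO : Ω ⊆ O := by
    intro x hx j hj h
    rw [hΩ] at hx
    have := hx j hj
    rw [h, sub_self, norm_zero] at this
    linarith [ha j hj]
  -- the layers
  set T : ℕ → ι → E 22 → ℝ := fun i j x => Θ i ((a j)⁻¹ • (x - p j)) with hT
  have hTs : ∀ i, ∀ j ∈ J, ContDiffOn ℝ ∞ (T i j) O := by
    intro i j hj
    apply (hΘs i).comp
    · exact ((contDiff_id.sub contDiff_const).const_smul (a j)⁻¹).contDiffOn
    · intro x hx
      simp only [mem_compl_iff, mem_singleton_iff, smul_eq_zero, inv_eq_zero, sub_eq_zero, not_or]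
      exact ⟨(ha j hj).ne', hx j hj⟩
  have hnorm : ∀ j ∈ J, ∀ x, ‖(a j)⁻¹ • (x - p j)‖ = (a j)⁻¹ * ‖x - p j‖ := by
    intro j hj x
    rw [norm_smul, Real.norm_of_nonneg (inv_nonneg.2 (ha j hj).le)]
  have hT0 : ∀ i, ∀ j ∈ J, ∀ x, 3 / 2 * a j ≤ ‖x - p j‖ → T i j x = 0 := by
    intro i j hj x hx
    apply hΘ0
    rw [hnorm j hj, le_inv_mul_iff₀ (ha j hj)]
    linarith
  set W : ℕ → E 22 → ℝ := fun i x => ∑ j ∈ J, κ j * T i j x with hW
  have hWs : ∀ i, ContDiffOn ℝ ∞ (W i) O := fun i =>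
    ContDiffOn.sum fun j hj => contDiffOn_const.mul (hTs i j hj)
  -- near a hole
  have hnear : ∀ i, ∃ r > 1, ∀ j ∈ J, ∀ x, x ≠ p j → ‖x - p j‖ < r * a j → Ψ x = W i x := by
    intro i
    obtain ⟨r, hr, hr'⟩ := hΘ1 i
    refine ⟨min r (3 / 2), lt_min hr (by norm_num), ?_⟩
    intro j hj x hxp hx
    have haj := ha j hj
    have h1 : ‖x - p j‖ < r * a j :=
      hx.trans_le (mul_le_mul_of_nonneg_right (min_le_left _ _) haj.le)
    have h2 : ‖x - p j‖ < 3 / 2 * a j :=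
      hx.trans_le (mul_le_mul_of_nonneg_right (min_le_right _ _) haj.le)
    rw [hΨh j hj x hxp h2.le]
    simp only [hW]
    rw [Finset.sum_eq_single j]
    · congr 1
      symm
      apply hr'
      · simp only [ne_eq, smul_eq_zero, inv_eq_zero, sub_eq_zero, not_or]
        exact ⟨haj.ne', hxp⟩
      · rw [hnorm j hj, inv_mul_lt_iff₀ haj]
        linarith
    · intro k hk hkj
      rw [hT0 i k hk x, mul_zero]
      have h3 := hdisj k hk j hj hkj
      have h4 : ‖p k - p j‖ ≤ ‖x - p k‖ + ‖x - p j‖ := by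
        have : p k - p j = (x - p j) - (x - p k) := by abel
        rw [this]
        calc _ ≤ ‖x - p j‖ + ‖x - p k‖ := norm_sub_le _ _
          _ = _ := add_comm _ _
      have := ha k hk
      linarith
    · intro h; exact absurd hj h
  -- far away
  obtain ⟨L1, hL1, hL1'⟩ : ∃ L1 : ℝ, L0 ≤ L1 ∧ ∀ i, ∀ x, L1 ≤ ‖x‖ → W i x = 0 := by
    refine ⟨max L0 (∑ j ∈ J, (‖p j‖ + 2 * a j)), le_max_left _ _, ?_⟩
    intro i x hx
    simp only [hW]
    apply Finset.sum_eq_zero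
    intro j hj
    rw [hT0 i j hj x, mul_zero]
    have h1 : ‖p j‖ + 2 * a j ≤ ∑ j ∈ J, (‖p j‖ + 2 * a j) :=
      Finset.single_le_sum (f := fun j => ‖p j‖ + 2 * a j)
        (fun k hk => by have := ha k hk; positivity) hj
    have h2 : ‖p j‖ + 2 * a j ≤ ‖x‖ := h1.trans ((le_max_right _ _).trans hx)
    have h3 : ‖x‖ ≤ ‖x - p j‖ + ‖p j‖ := by
      calc ‖x‖ = ‖(x - p j) + p j‖ := by rw [sub_add_cancel]
        _ ≤ _ := norm_add_le _ _
    have := ha j hj
    linarith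
  -- the approximating test functions
  set ψ : ℕ → E 22 → ℝ := fun i => Ω.indicator (fun x => Ψ x - W i x) with hψ
  have hψK : ∀ i, ∃ K : Set (E 22), IsCompact K ∧ K ⊆ Ω ∧ ∀ x, x ∉ K → ψ i x = 0 := by
    intro i
    obtain ⟨r, hr, hr'⟩ := hnear i
    refine ⟨closedBall 0 L1 ∩ {x | ∀ j ∈ J, r * a j ≤ ‖x - p j‖}, ?_, ?_, ?_⟩
    · apply (isCompact_closedBall _ _).inter_right
      have : {x : E 22 | ∀ j ∈ J, r * a j ≤ ‖x - p j‖} = ⋂ j ∈ J, {x | r * a j ≤ ‖x - p j‖} := by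
        ext x; simp
      rw [this]
      exact isClosed_biInter fun j _ => isClosed_le continuous_const (by fun_prop)
    · intro x hx
      rw [hΩ]
      intro j hj
      have h1 := hx.2 j hj
      have h2 := ha j hj
      nlinarith
    · intro x hx
      simp only [hψ]
      by_cases hxΩ : x ∈ Ω
      · rw [indicator_of_mem hxΩ]
        by_cases hxL : ‖x‖ ≤ L1
        · have : ∃ j ∈ J, ‖x - p j‖ < r * a j := by
            by_contra hcon
            push Not at hcon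
            exact hx ⟨by simpa using hxL, hcon⟩
          obtain ⟨j, hj, hj'⟩ := this
          rw [hr' j hj x (hΩO hxΩ j hj) hj', sub_self]
        · push Not at hxL
          rw [hΨL x (hL1.trans hxL.le), hL1' i x hxL.le, sub_self]
      · exact indicator_of_notMem hxΩ _
  have hψd : ∀ i, ContDiff ℝ ∞ (ψ i) ∧ HasCompactSupport (ψ i) ∧ tsupport (ψ i) ⊆ Ω := by
    intro i
    obtain ⟨K, hK, hKΩ, hK0⟩ := hψK i
    have hts : tsupport (ψ i) ⊆ K := by
      refine closure_minimal ?_ hK.isClosed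
      intro x hx
      by_contra h
      exact hx (hK0 x h)
    refine ⟨?_, HasCompactSupport.intro hK hK0, hts.trans hKΩ⟩
    rw [contDiff_iff_contDiffAt]
    intro x
    by_cases hx : x ∈ Ω
    · have e : ψ i =ᶠ[𝓝 x] fun x => Ψ x - W i x := by
        filter_upwards [hΩo.mem_nhds hx] with y hy
        exact indicator_of_mem hy _
      refine ContDiffAt.congr_of_eventuallyEq ?_ e
      exact (hΨ.sub (hWs i)).contDiffAt (hOo.mem_nhds (hΩO hx))
    · have hx' : x ∈ Kᶜ := fun h => hx (hKΩ h)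
      have e : ψ i =ᶠ[𝓝 x] fun _ => 0 := by
        filter_upwards [hK.isClosed.isOpen_compl.mem_nhds hx'] with y hy
        exact hK0 y hy
      exact contDiffAt_const.congr_of_eventuallyEq e
  -- weak equation for `ψ i`
  have hfψ : ∀ i, ∫ x in Ω, f x * ψ i x = ∫ x in Ω, f x * Ψ x := by
    intro i
    apply setIntegral_congr_fun hΩo.measurableSet
    intro x hx
    simp only
    by_cases hfx : f x = 0
    · rw [hfx, zero_mul, zero_mul]
    · have h1 := hf x hfx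
      have h2 : W i x = 0 := by
        simp only [hW]
        apply Finset.sum_eq_zero
        intro j hj
        rw [hT0 i j hj x (by have := h1 j hj; have := ha j hj; linarith), mul_zero]
      simp only [hψ]
      rw [indicator_of_mem hx, h2, sub_zero]
  have hweak : ∀ i, ∫ x in Ω, u x * lap4 (ψ i) x = ∫ x in Ω, f x * Ψ x := by
    intro i
    obtain ⟨h1, h2, h3⟩ := hψd i
    rw [hs.weak (ψ i) h1 h2 h3, hfψ i]
  -- relation of the fourth iterates
  have hl4 : ∀ i, ∀ x ∈ Ω, lap4 (ψ i) x = lap4 Ψ x - lap4 (W i) x := by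
    intro i x hx
    have e : ψ i =ᶠ[𝓝 x] fun x => 1 * Ψ x + (-1) * W i x := by
      filter_upwards [hΩo.mem_nhds hx] with y hy
      simp only [hψ]
      rw [indicator_of_mem hy]; ring
    rw [lap4_congr e, lap4_lin hOo hΨ (hWs i) 1 (-1) (hΩO hx)]
    ring
  -- compact set carrying `lap4 Ψ` on `Ω`
  have hhr : ∀ j ∈ J, ∀ x ∈ Ω, ‖x - p j‖ < 3 / 2 * a j → lap4 Ψ x = 0 := by
    intro j hj x hx hxj
    have haj := ha j hj
    have hxp : x ≠ p j := hΩO hx j hj
    have e : Ψ =ᶠ[𝓝 x] fun x => κ j * 1 + (-κ j) * hr (‖(a j)⁻¹ • (x - p j)‖ ^ 2) := by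
      have h1 : ∀ᶠ y in 𝓝 x, ‖y - p j‖ < 3 / 2 * a j :=
        (isOpen_lt (by fun_prop) continuous_const).mem_nhds hxj
      have h2 : ∀ᶠ y in 𝓝 x, y ≠ p j := isOpen_compl_singleton.mem_nhds hxp
      filter_upwards [h1, h2] with y hy1 hy2
      rw [hΨh j hj y hy2 hy1.le]; ring
    have hOp : IsOpen ({p j}ᶜ : Set (E 22)) := isOpen_compl_singleton
    have hs1 : ContDiffOn ℝ ∞ (fun x => hr (‖(a j)⁻¹ • (x - p j)‖ ^ 2)) ({p j}ᶜ : Set (E 22)) := by
      apply smooth_hr.comp ((contDiff_id.sub contDiff_const).const_smul (a j)⁻¹).contDiffOn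
      intro y hy
      simp only [mem_compl_iff, mem_singleton_iff, smul_eq_zero, inv_eq_zero, sub_eq_zero, not_or]
      exact ⟨haj.ne', hy⟩
    rw [lap4_congr e, lap4_lin hOp (contDiffOn_const (c := (1 : ℝ))) hs1 (κ j) (-κ j) hxp]
    have h3 : lap4 (fun y => hr (‖(a j)⁻¹ • (y - p j)‖ ^ 2)) x = 0 := by
      have h4 := lap4_scale (u := fun z => hr (‖z‖ ^ 2)) smooth_hr haj (p j) hxp
      have h5 : (a j)⁻¹ • (x - p j) ≠ 0 := by
        simp only [ne_eq, smul_eq_zero, inv_eq_zero, sub_eq_zero, not_or]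
        exact ⟨haj.ne', hxp⟩
      rw [h4, lap4_hr h5, mul_zero]
    have h6 : lap4 (fun _ : E 22 => (1 : ℝ)) x = 0 := by
      have h0 : ContDiffOn ℝ ∞ (fun _ : E 22 => (0 : ℝ)) univ := contDiffOn_const
      have h1' : ∀ c : ℝ, ∀ y : E 22, lap (fun _ : E 22 => c) y = 0 := by
        intro c y; simp [lap]
      unfold lap4
      have : lap (fun _ : E 22 => (1 : ℝ)) = fun _ => 0 := funext fun y => h1' 1 y
      rw [this]
      have : lap (fun _ : E 22 => (0 : ℝ)) = fun _ => 0 := funext fun y => h1' 0 y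
      rw [this, this, this]
    rw [h3, h6]; ring
  have hA : Tendsto (fun m => ∫ x in Ω, φ m x * lap4 Ψ x) atTop (𝓝 (∫ x in Ω, u x * lap4 Ψ x)) := by
    refine pair_lim hΩo hs.li (fun j => (hφ j).1.continuous) hφl
      ((lap4_smooth hOo hΨ).continuousOn.mono hΩO)
      (L := closedBall 0 L0 ∩ {x | ∀ j ∈ J, 3 / 2 * a j ≤ ‖x - p j‖}) ?_ ?_ ?_
    · apply (isCompact_closedBall _ _).inter_right
      have : {x : E 22 | ∀ j ∈ J, 3 / 2 * a j ≤ ‖x - p j‖} =
          ⋂ j ∈ J, {x | 3 / 2 * a j ≤ ‖x - p j‖} := by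
        ext x; simp
      rw [this]
      exact isClosed_biInter fun j _ => isClosed_le continuous_const (by fun_prop)
    · intro x hx
      rw [hΩ]
      intro j hj
      have h1 := hx.2 j hj
      have h2 := ha j hj
      linarith
    · intro x hx hxL
      by_cases h1 : ∃ j ∈ J, ‖x - p j‖ < 3 / 2 * a j
      · obtain ⟨j, hj, h2⟩ := h1
        exact hhr j hj x hx h2
      · push Not at h1
        have h2 : L0 < ‖x‖ := by
          by_contra hcon
          exact hxL ⟨by simpa using not_lt.1 hcon, h1⟩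
        have e : Ψ =ᶠ[𝓝 x] fun _ => (0 : ℝ) := by
          filter_upwards [(isOpen_lt continuous_const continuous_norm).mem_nhds h2] with y hy
          exact hΨL y (le_of_lt hy)
        rw [lap4_congr e]
        have h1' : ∀ c : ℝ, ∀ y : E 22, lap (fun _ : E 22 => c) y = 0 := by
          intro c y; simp [lap]
        unfold lap4
        have : lap (fun _ : E 22 => (0 : ℝ)) = fun _ => 0 := funext fun y => h1' 0 y
        rw [this, this, this, this]
  have hBl : ∀ i, Tendsto (fun m => ∫ x in Ω, φ m x * lap4 (ψ i) x) atTop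
      (𝓝 (∫ x in Ω, f x * Ψ x)) := by
    intro i
    rw [← hweak i]
    obtain ⟨h1, h2, h3⟩ := hψd i
    obtain ⟨b1, b2, b3⟩ := lap_test h1 h2 h3
    obtain ⟨c1, c2, c3⟩ := lap_test b1 b2 b3
    obtain ⟨d1, d2, d3⟩ := lap_test c1 c2 c3
    obtain ⟨e1, e2, e3⟩ := lap_test d1 d2 d3
    refine pair_lim hΩo hs.li (fun j => (hφ j).1.continuous) hφl e1.continuous.continuousOn
      (L := tsupport (lap4 (ψ i))) e2.isCompact e3 ?_
    intro x _ hx
    exact image_eq_zero_of_notMem_tsupport hx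
  -- the difference
  set e : ℕ → ℝ := fun i => ∫ z in {z : E 22 | 1 < ‖z‖}, (lap (lap (Θ i)) z) ^ 2 with he
  have hdiff : ∀ i m, ∀ l : ℝ, 0 < l →
      |(∫ x in Ω, φ m x * lap4 Ψ x) - ∫ x in Ω, φ m x * lap4 (ψ i) x| ≤
        ∑ j ∈ J, |κ j| * ((l * B + l⁻¹ * (a j ^ 14 * e i)) / 2) := by
    intro i m l hl
    obtain ⟨g1, g2, g3⟩ := hφ m
    have g0 : ∀ x, x ∉ Ω → φ m x = 0 := fun x hx =>
      image_eq_zero_of_notMem_tsupport fun h => hx (g3 h)
    have hcl : ∀ w : E 22 → ℝ, ContinuousOn w Ω → Integrable (fun x => φ m x * w x) := by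
      intro w hw
      have hcont : Continuous (fun x => φ m x * w x) := by
        rw [continuous_iff_continuousAt]
        intro x
        by_cases hx : x ∈ Ω
        · exact g1.continuous.continuousAt.mul (hw.continuousAt (hΩo.mem_nhds hx))
        · have hx' : x ∈ (tsupport (φ m))ᶜ := fun h => hx (g3 h)
          have e : (fun x => φ m x * w x) =ᶠ[𝓝 x] fun _ => 0 := by
            filter_upwards [(isClosed_tsupport _).isOpen_compl.mem_nhds hx'] with y hy
            rw [image_eq_zero_of_notMem_tsupport hy, zero_mul]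
          exact continuousAt_const.congr e.symm
      exact hcont.integrable_of_hasCompactSupport (g2.mul_right (f' := w))
    have hfull : ∀ w : E 22 → ℝ, ∫ x in Ω, φ m x * w x = ∫ x, φ m x * w x := by
      intro w
      rw [← integral_indicator hΩo.measurableSet]
      congr 1
      ext x
      by_cases hx : x ∈ Ω
      · rw [indicator_of_mem hx]
      · rw [indicator_of_notMem hx, g0 x hx, zero_mul]
    have hc1 : ContinuousOn (lap4 Ψ) Ω := (lap4_smooth hOo hΨ).continuousOn.mono hΩO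
    have hc2 : ContinuousOn (lap4 (ψ i)) Ω := by
      have h1 := (lap4_smooth isOpen_univ (hψd i).1.contDiffOn).continuousOn
      exact h1.mono (subset_univ _)
    have hcT : ∀ j ∈ J, ContinuousOn (lap4 (T i j)) Ω := fun j hj =>
      (lap4_smooth hOo (hTs i j hj)).continuousOn.mono hΩO
    rw [hfull, hfull, ← integral_sub (hcl _ hc1) (hcl _ hc2)]
    have e1 : ∫ x, (φ m x * lap4 Ψ x - φ m x * lap4 (ψ i) x) =
        ∫ x, ∑ j ∈ J, κ j * (φ m x * lap4 (T i j) x) := by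
      congr 1
      ext x
      by_cases hx : x ∈ Ω
      · rw [hl4 i x hx]
        have h1 : lap4 (W i) x = ∑ j ∈ J, κ j * lap4 (T i j) x := by
          have h2 := lap4_sum J hOo (u := fun j x => κ j * T i j x)
            (fun j hj => contDiffOn_const.mul (hTs i j hj)) (hΩO hx)
          have h3 : W i = fun x => ∑ j ∈ J, κ j * T i j x := rfl
          rw [h3, h2]
          apply Finset.sum_congr rfl
          intro j hj
          have h4 := lap4_lin hOo (hTs i j hj) (contDiffOn_const (c := (0 : ℝ))) (κ j) 0 (hΩO hx)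
          simp only [mul_zero, add_zero, zero_mul] at h4
          exact h4
        rw [h1]
        have : φ m x * lap4 Ψ x - φ m x * (lap4 Ψ x - ∑ j ∈ J, κ j * lap4 (T i j) x) =
            φ m x * ∑ j ∈ J, κ j * lap4 (T i j) x := by ring
        rw [this, Finset.mul_sum]
        apply Finset.sum_congr rfl
        intro j _
        ring
      · rw [g0 x hx]; simp
    rw [e1, integral_finsetSum J fun j hj => (hcl _ (hcT j hj)).const_mul _]
    refine (Finset.abs_sum_le_sum_abs _ _).trans (Finset.sum_le_sum fun j hj => ?_)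
    rw [integral_const_mul, abs_mul]
    apply mul_le_mul_of_nonneg_left _ (abs_nonneg _)
    exact layer_pair g1 g2 (hΘs i) (hΘi i) (ha j hj) (fun x hx => by
      have := g3 hx
      rw [hΩ] at this
      exact this j hj) (hφB m) hl
  have hlim : ∀ i, ∀ l : ℝ, 0 < l →
      |(∫ x in Ω, u x * lap4 Ψ x) - ∫ x in Ω, f x * Ψ x| ≤
        ∑ j ∈ J, |κ j| * ((l * B + l⁻¹ * (a j ^ 14 * e i)) / 2) := by
    intro i l hl
    have h1 := (hA.sub (hBl i)).abs
    exact le_of_tendsto h1 (Eventually.of_forall fun m => hdiff i m l hl)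
  have hlim2 : ∀ l : ℝ, 0 < l →
      |(∫ x in Ω, u x * lap4 Ψ x) - ∫ x in Ω, f x * Ψ x| ≤ l * ((∑ j ∈ J, |κ j|) * B / 2) := by
    intro l hl
    have h1 : Tendsto (fun i => ∑ j ∈ J, |κ j| * ((l * B + l⁻¹ * (a j ^ 14 * e i)) / 2)) atTop
        (𝓝 (∑ j ∈ J, |κ j| * ((l * B + l⁻¹ * (a j ^ 14 * 0)) / 2))) := by
      apply tendsto_finsetSum
      intro j _
      exact ((((hΘl.const_mul (a j ^ 14)).const_mul l⁻¹).const_add (l * B)).div_const 2).const_mul _
    have h2 := ge_of_tendsto h1 (Eventually.of_forall fun i => hlim i l hl)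
    refine h2.trans (le_of_eq ?_)
    rw [Finset.sum_mul, Finset.sum_div, Finset.mul_sum]
    apply Finset.sum_congr rfl
    intro j _
    ring
  have h0 : |(∫ x in Ω, u x * lap4 Ψ x) - ∫ x in Ω, f x * Ψ x| ≤ 0 := by
    have h1 : Tendsto (fun l : ℝ => l * ((∑ j ∈ J, |κ j|) * B / 2)) (𝓝[>] 0) (𝓝 (0 * _)) :=
      (tendsto_id.mono_left nhdsWithin_le_nhds).mul_const _
    rw [zero_mul] at h1
    refine ge_of_tendsto h1 ?_
    filter_upwards [self_mem_nhdsWithin] with l hl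
    exact hlim2 l hl
  exact sub_eq_zero.1 (abs_eq_zero.1 (le_antisymm h0 (abs_nonneg _)))

end Pool.Agent.Helper676.GF
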