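import Pool.Agent.Helper676.GFPd

set_option autoImplicit false

/-! Proved by helper167 (job JL). -/

namespace Pool.Agent.Helper676.GF

open MeasureTheory Filter Topology Set Metric
open scoped ContDiff

theorem jl_pd_smooth {n : ℕ} (i : Fin n) {u : E n → ℝ} (hu : ContDiff ℝ ∞ u) :
    ContDiff ℝ ∞ (pd i u) := by
  have h : ContDiff ℝ ∞ (fun x => fderiv ℝ u x) := hu.fderiv_right (by norm_num)
  exact h.clm_apply contDiff_const

theorem jl_pd_compact {n : ℕ} (i : Fin n) {u : E n → ℝ} (hu : HasCompactSupport u) :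
    HasCompactSupport (pd i u) :=
  hu.fderiv_apply ℝ (EuclideanSpace.single i 1)

theorem jl_pd_tsupport {n : ℕ} (i : Fin n) (u : E n → ℝ) :
    tsupport (pd i u) ⊆ tsupport u :=
  tsupport_fderiv_apply_subset ℝ (EuclideanSpace.single i 1)

theorem jl_int {n : ℕ} {u v : E n → ℝ} (hu : ContDiff ℝ ∞ u) (hv : ContDiff ℝ ∞ v)
    (hc : HasCompactSupport u) : Integrable (fun x => u x * v x) :=
  (hu.continuous.mul hv.continuous).integrable_of_hasCompactSupport hc.mul_right

theorem jl_ibp {n : ℕ} (i : Fin n) {u v : E n → ℝ} (hu : ContDiff ℝ ∞ u) (hv : ContDiff ℝ ∞ v)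
    (hcu : HasCompactSupport u) :
    ∫ x, u x * pd i v x = - ∫ x, pd i u x * v x := by
  apply integral_mul_fderiv_eq_neg_fderiv_mul_of_integrable
  · exact jl_int (jl_pd_smooth i hu) hv (jl_pd_compact i hcu)
  · exact jl_int hu (jl_pd_smooth i hv) hcu
  · exact jl_int hu hv hcu
  · intro x _
    exact (hu.differentiable (by norm_num)) x
  · intro x _
    exact (hv.differentiable (by norm_num)) x

theorem jl_comm {n : ℕ} (i j : Fin n) {u : E n → ℝ} (hu : ContDiff ℝ ∞ u) :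
    pd i (pd j u) = pd j (pd i u) := by
  have hd : Differentiable ℝ (fderiv ℝ u) :=
    (hu.fderiv_right (m := ∞) (by norm_num)).differentiable (by norm_num)
  have key : ∀ (v w : E n) (x : E n), fderiv ℝ (fun y => fderiv ℝ u y v) x w =
      fderiv ℝ (fderiv ℝ u) x w v := by
    intro v w x
    rw [fderiv_clm_apply (hd x) (differentiableAt_const v)]
    simp
  funext x
  have hs := (hu.contDiffAt (x := x)).isSymmSndFDerivAt (by
    rw [minSmoothness_of_isRCLikeNormedField]; exact ENat.LEInfty.out)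
  calc pd i (pd j u) x = fderiv ℝ (fderiv ℝ u) x (EuclideanSpace.single i 1)
        (EuclideanSpace.single j 1) := key _ _ x
    _ = fderiv ℝ (fderiv ℝ u) x (EuclideanSpace.single j 1)
        (EuclideanSpace.single i 1) := hs.eq _ _
    _ = pd j (pd i u) x := (key _ _ x).symm

theorem jl_lap {n : ℕ} (u : E n → ℝ) : lap u = fun x => ∑ i, pd i (pd i u) x := rfl

theorem jl_sq {n : ℕ} (i j : Fin n) {w : E n → ℝ} (hw : ContDiff ℝ ∞ w)
    (hc : HasCompactSupport w) :
    ∫ x, (pd j (pd i w) x) ^ 2 = ∫ x, pd j (pd j w) x * pd i (pd i w) x := by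
  have h1 := jl_ibp j (u := pd j (pd i w)) (v := pd i w) (jl_pd_smooth j (jl_pd_smooth i hw))
    (jl_pd_smooth i hw) (jl_pd_compact j (jl_pd_compact i hc))
  have h2 : pd j (pd j (pd i w)) = pd i (pd j (pd j w)) := by
    rw [jl_comm j i hw, jl_comm j i (jl_pd_smooth j hw)]
  have h3 := jl_ibp i (u := pd j (pd j w)) (v := pd i w) (jl_pd_smooth j (jl_pd_smooth j hw))
    (jl_pd_smooth i hw) (jl_pd_compact j (jl_pd_compact j hc))
  rw [h2] at h1
  rw [h3, ← h1]
  congr 1
  funext x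
  ring

theorem jl_d2 {n : ℕ} {w : E n → ℝ} (hw : ContDiff ℝ ∞ w) (hc : HasCompactSupport w) :
    ∑ i, ∑ j, ∫ x, (pd j (pd i w) x) ^ 2 = ∫ x, (lap w x) ^ 2 := by
  have h1 : ∀ i j : Fin n, Integrable (fun x => pd j (pd j w) x * pd i (pd i w) x) := fun i j =>
    jl_int (jl_pd_smooth j (jl_pd_smooth j hw)) (jl_pd_smooth i (jl_pd_smooth i hw))
      (jl_pd_compact j (jl_pd_compact j hc))
  have h2 : ∀ x, (lap w x) ^ 2 = ∑ i, ∑ j, pd j (pd j w) x * pd i (pd i w) x := by
    intro x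
    rw [jl_lap, sq, Finset.sum_mul_sum, Finset.sum_comm]
  simp_rw [h2]
  rw [integral_finsetSum _ (fun i _ => integrable_finsetSum _ fun j _ => h1 i j)]
  apply Finset.sum_congr rfl
  intro i _
  rw [integral_finsetSum _ (fun j _ => h1 i j)]
  apply Finset.sum_congr rfl
  intro j _
  exact jl_sq i j hw hc

theorem jl_lap_smooth {n : ℕ} {u : E n → ℝ} (hu : ContDiff ℝ ∞ u) : ContDiff ℝ ∞ (lap u) := by
  rw [jl_lap]
  exact ContDiff.sum fun i _ => jl_pd_smooth i (jl_pd_smooth i hu)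

theorem jl_lap_compact {n : ℕ} {u : E n → ℝ} (hc : HasCompactSupport u) :
    HasCompactSupport (lap u) := by
  apply HasCompactSupport.intro' hc.isCompact (isClosed_tsupport u)
  intro x hx
  rw [jl_lap]
  apply Finset.sum_eq_zero
  intro i _
  apply image_eq_zero_of_notMem_tsupport
  intro h
  exact hx (jl_pd_tsupport i u (jl_pd_tsupport i (pd i u) h))

theorem jl_lap_pd {n : ℕ} (i : Fin n) {u : E n → ℝ} (hu : ContDiff ℝ ∞ u) :
    lap (pd i u) = pd i (lap u) := by
  funext x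
  have h1 : pd i (lap u) x = ∑ k, pd i (pd k (pd k u)) x := by
    rw [jl_lap]
    unfold pd
    rw [fderiv_fun_sum]
    · simp
    · intro k _
      exact ((jl_pd_smooth k (jl_pd_smooth k hu)).differentiable (by norm_num)) x
  rw [h1, jl_lap]
  apply Finset.sum_congr rfl
  intro k _
  rw [jl_comm k i hu, jl_comm k i (jl_pd_smooth k hu)]

theorem d2_id {w : E 22 → ℝ} (hw : ContDiff ℝ ∞ w) (hc : HasCompactSupport w) :
    ∑ i, ∑ j, ∫ x, (pd j (pd i w) x) ^ 2 = ∫ x, (lap w x) ^ 2 := jl_d2 hw hc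

theorem d4_id {φ : E 22 → ℝ} (hφ : ContDiff ℝ ∞ φ) (hc : HasCompactSupport φ) :
    ∑ i, ∑ j, ∑ k, ∑ l, ∫ x, (pd l (pd k (pd j (pd i φ))) x) ^ 2 = ∫ x, (lap (lap φ) x) ^ 2 := by
  rw [← jl_d2 (jl_lap_smooth hφ) (jl_lap_compact hc)]
  apply Finset.sum_congr rfl
  intro i _
  apply Finset.sum_congr rfl
  intro j _
  rw [jl_d2 (jl_pd_smooth j (jl_pd_smooth i hφ)) (jl_pd_compact j (jl_pd_compact i hc)),
    jl_lap_pd j (jl_pd_smooth i hφ), jl_lap_pd i hφ]

end Pool.Agent.Helper676.GF
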