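import Pool.Agent.Helper676.GFPd

set_option autoImplicit false

/-! Proved by helper536 (job JM). -/

namespace Pool.Agent.Helper676.GF

open MeasureTheory Filter Topology Set Metric
open scoped ContDiff

theorem pd_smooth {n : ℕ} {φ : E n → ℝ} (hφ : ContDiff ℝ ∞ φ) (i : Fin n) : ContDiff ℝ ∞ (pd i φ) := by
  unfold pd
  exact (hφ.fderiv_right (m := ∞) (by simp)).clm_apply contDiff_const

theorem norm_proj_le {n : ℕ} (i : Fin n) : ‖(EuclideanSpace.proj i : E n →L[ℝ] ℝ)‖ ≤ 1 := by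
  apply ContinuousLinearMap.opNorm_le_bound _ zero_le_one
  intro x
  rw [one_mul]
  exact PiLp.norm_apply_le x i

theorem fderiv_eq_sum {n : ℕ} (φ : E n → ℝ) :
    fderiv ℝ φ = fun y => ∑ i, pd i φ y • (EuclideanSpace.proj i : E n →L[ℝ] ℝ) := by
  funext y
  ext v
  have hv : v = ∑ i, v i • EuclideanSpace.single i (1 : ℝ) := by
    have := (EuclideanSpace.basisFun (Fin n) ℝ).sum_repr v
    simpa using this.symm
  conv_lhs => rw [hv]
  rw [map_sum, ContinuousLinearMap.sum_apply]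
  apply Finset.sum_congr rfl
  intro i _
  simp [pd, mul_comm]

theorem itf_succ_le {n : ℕ} {φ : E n → ℝ} (hφ : ContDiff ℝ ∞ φ) (k : ℕ) (x : E n) :
    ‖iteratedFDeriv ℝ (k + 1) φ x‖ ≤ ∑ i, ‖iteratedFDeriv ℝ k (pd i φ) x‖ := by
  rw [← norm_iteratedFDeriv_fderiv, fderiv_eq_sum φ]
  let L : Fin n → (ℝ →L[ℝ] (E n →L[ℝ] ℝ)) := fun i =>
    (ContinuousLinearMap.id ℝ ℝ).smulRight (EuclideanSpace.proj i : E n →L[ℝ] ℝ)
  have hL : ∀ i, ‖L i‖ ≤ 1 := by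
    intro i
    simp only [L]
    rw [ContinuousLinearMap.norm_smulRight_apply]
    calc ‖ContinuousLinearMap.id ℝ ℝ‖ * ‖(EuclideanSpace.proj i : E n →L[ℝ] ℝ)‖ ≤ 1 * 1 :=
          mul_le_mul ContinuousLinearMap.norm_id_le (norm_proj_le i) (norm_nonneg _) zero_le_one
      _ = 1 := one_mul 1
  have h1 : (fun y => ∑ i, pd i φ y • (EuclideanSpace.proj i : E n →L[ℝ] ℝ))
      = (fun y => ∑ i, (L i ∘ pd i φ) y) := by
    funext y
    apply Finset.sum_congr rfl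
    intro i _
    simp [L]
  have hcd : ∀ i, ContDiff ℝ ∞ (L i ∘ pd i φ) := fun i => (L i).contDiff.comp (pd_smooth hφ i)
  rw [h1, iteratedFDeriv_fun_sum_apply
    (fun j _ => ((hcd j).of_le (by exact_mod_cast le_top)).contDiffAt)]
  refine (norm_sum_le _ _).trans ?_
  apply Finset.sum_le_sum
  intro i _
  refine ((L i).norm_iteratedFDeriv_comp_left (N := ∞) (pd_smooth hφ i).contDiffAt
    (by exact_mod_cast le_top)).trans ?_
  calc ‖L i‖ * ‖iteratedFDeriv ℝ k (pd i φ) x‖ ≤ 1 * ‖iteratedFDeriv ℝ k (pd i φ) x‖ :=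
        mul_le_mul_of_nonneg_right (hL i) (norm_nonneg _)
    _ = _ := one_mul _

theorem cs22 (a : Fin 22 → ℝ) : (∑ i, a i) ^ 2 ≤ 22 * ∑ i, (a i) ^ 2 := by
  have := sq_sum_le_card_mul_sum_sq (s := (Finset.univ : Finset (Fin 22))) (f := a)
  simpa using this

theorem d4_norm {φ : E 22 → ℝ} (hφ : ContDiff ℝ ∞ φ) (x : E 22) :
    ‖iteratedFDeriv ℝ 4 φ x‖ ^ 2 ≤
      22 ^ 4 * ∑ i, ∑ j, ∑ k, ∑ l, (pd l (pd k (pd j (pd i φ))) x) ^ 2 := by
  have h : ∀ (k : ℕ) (f : E 22 → ℝ), ContDiff ℝ ∞ f →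
      ‖iteratedFDeriv ℝ (k + 1) f x‖ ^ 2 ≤ 22 * ∑ i, ‖iteratedFDeriv ℝ k (pd i f) x‖ ^ 2 := by
    intro k f hf
    refine (pow_le_pow_left₀ (norm_nonneg _) (itf_succ_le hf k x) 2).trans ?_
    exact cs22 _
  calc ‖iteratedFDeriv ℝ 4 φ x‖ ^ 2 ≤ 22 * ∑ i, ‖iteratedFDeriv ℝ 3 (pd i φ) x‖ ^ 2 := h 3 φ hφ
    _ ≤ 22 * ∑ i, (22 * ∑ j, ‖iteratedFDeriv ℝ 2 (pd j (pd i φ)) x‖ ^ 2) := by
        gcongr with i
        exact h 2 _ (pd_smooth hφ i)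
    _ ≤ 22 * ∑ i, (22 * ∑ j, (22 * ∑ k, ‖iteratedFDeriv ℝ 1 (pd k (pd j (pd i φ))) x‖ ^ 2)) := by
        gcongr with i _ j
        exact h 1 _ (pd_smooth (pd_smooth hφ i) j)
    _ ≤ 22 * ∑ i, (22 * ∑ j, (22 * ∑ k, (22 * ∑ l, ‖iteratedFDeriv ℝ 0 (pd l (pd k (pd j (pd i φ)))) x‖ ^ 2))) := by
        gcongr with i _ j _ k
        exact h 0 _ (pd_smooth (pd_smooth (pd_smooth hφ i) j) k)
    _ = _ := by
        simp only [norm_iteratedFDeriv_zero, Real.norm_eq_abs, sq_abs]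
        simp only [← Finset.mul_sum]
        ring


end Pool.Agent.Helper676.GF
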