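import Pool.Agent.Helper676.GFK
import Pool.Agent.Helper676.GFL
import Pool.Agent.Helper676.GFM
import Pool.Agent.Helper676.GF8

set_option autoImplicit false

/-! Energy inequalities and uniqueness. -/

namespace Pool.Agent.Helper676.GF

open MeasureTheory Filter Topology Set Metric
open scoped ContDiff

lemma pd_test (i : Fin 22) {φ : E 22 → ℝ} (hφ : ContDiff ℝ ∞ φ) (hc : HasCompactSupport φ) :
    ContDiff ℝ ∞ (pd i φ) ∧ HasCompactSupport (pd i φ) :=
  ⟨jl_pd_smooth i hφ, jl_pd_compact i hc⟩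

/-- Rellich-type inequality with weight -/
lemma rellich {φ : E 22 → ℝ} (hφ : ContDiff ℝ ∞ φ) (hc : HasCompactSupport φ) :
    ∫ x, φ x ^ 2 * ((1 + ‖x‖ ^ 2) ^ 4)⁻¹ ≤ ∫ x, (lap (lap φ) x) ^ 2 := by
  rw [← d4_id hφ hc]
  refine (hardy_w 4 (by norm_num) le_rfl hφ hc).trans (Finset.sum_le_sum fun i _ => ?_)
  obtain ⟨h1, c1⟩ := pd_test i hφ hc
  refine (hardy_w 3 (by norm_num) (by norm_num) h1 c1).trans (Finset.sum_le_sum fun j _ => ?_)
  obtain ⟨h2, c2⟩ := pd_test j h1 c1
  refine (hardy_w 2 (by norm_num) (by norm_num) h2 c2).trans (Finset.sum_le_sum fun k _ => ?_)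
  obtain ⟨h3, c3⟩ := pd_test k h2 c2
  refine (hardy_w 1 (by norm_num) (by norm_num) h3 c3).trans (Finset.sum_le_sum fun l _ => ?_)
  apply le_of_eq
  congr 1
  ext x
  simp

lemma sq_int {φ : E 22 → ℝ} (hφ : ContDiff ℝ ∞ φ) (hc : HasCompactSupport φ) :
    Integrable (fun x => (φ x) ^ 2) := by
  have h1 : Continuous (fun x => (φ x) ^ 2) := hφ.continuous.pow 2
  have h2 : HasCompactSupport (fun x => (φ x) ^ 2) :=
    hc.comp_left (g := fun t : ℝ => t ^ 2) (by norm_num)
  exact h1.integrable_of_hasCompactSupport h2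

/-- the full fourth derivative is controlled by `Δ²` -/
lemma d4_energy {φ : E 22 → ℝ} (hφ : ContDiff ℝ ∞ φ) (hc : HasCompactSupport φ) :
    ∫ x, ‖iteratedFDeriv ℝ 4 φ x‖ ^ 2 ≤ 22 ^ 4 * ∫ x, (lap (lap φ) x) ^ 2 := by
  rw [← d4_id hφ hc]
  have hi : ∀ i j k l : Fin 22, Integrable (fun x => (pd l (pd k (pd j (pd i φ))) x) ^ 2) := by
    intro i j k l
    obtain ⟨h1, c1⟩ := pd_test i hφ hc
    obtain ⟨h2, c2⟩ := pd_test j h1 c1
    obtain ⟨h3, c3⟩ := pd_test k h2 c2
    obtain ⟨h4, c4⟩ := pd_test l h3 c3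
    exact sq_int h4 c4
  calc ∫ x, ‖iteratedFDeriv ℝ 4 φ x‖ ^ 2
      ≤ ∫ x, 22 ^ 4 * ∑ i, ∑ j, ∑ k, ∑ l, (pd l (pd k (pd j (pd i φ))) x) ^ 2 := by
        apply integral_mono_of_nonneg
        · exact Eventually.of_forall fun x => sq_nonneg _
        · apply Integrable.const_mul
          exact integrable_finsetSum _ fun i _ => integrable_finsetSum _ fun j _ =>
            integrable_finsetSum _ fun k _ => integrable_finsetSum _ fun l _ => hi i j k l
        · exact Eventually.of_forall fun x => d4_norm hφ x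
    _ = _ := by
        rw [integral_const_mul]
        congr 1
        rw [integral_finsetSum _ fun i _ => integrable_finsetSum _ fun j _ =>
            integrable_finsetSum _ fun k _ => integrable_finsetSum _ fun l _ => hi i j k l]
        apply Finset.sum_congr rfl
        intro i _
        rw [integral_finsetSum _ fun j _ =>
            integrable_finsetSum _ fun k _ => integrable_finsetSum _ fun l _ => hi i j k l]
        apply Finset.sum_congr rfl
        intro j _
        rw [integral_finsetSum _ fun k _ => integrable_finsetSum _ fun l _ => hi i j k l]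
        apply Finset.sum_congr rfl
        intro k _
        rw [integral_finsetSum _ fun l _ => hi i j k l]

/-- uniqueness of the weak solution -/
theorem uniq {Ω : Set (E 22)} (hΩ : IsOpen Ω) {w : E 22 → ℝ} (hw : LocallyIntegrableOn w Ω)
    {φ : ℕ → E 22 → ℝ} (hφ : ∀ j, ContDiff ℝ ∞ (φ j) ∧ HasCompactSupport (φ j) ∧
      tsupport (φ j) ⊆ Ω)
    (hC : ∀ ε > 0, ∃ j₀, ∀ j ≥ j₀, ∀ k ≥ j₀,
      ∫ x, (lap (lap (fun z => φ j z - φ k z)) x) ^ 2 ≤ ε)
    (hL : ∀ L, IsCompact L → L ⊆ Ω → Tendsto (fun j => ∫ x in L, |φ j x - w x|) atTop (𝓝 0))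
    (h0 : ∀ ψ, ContDiff ℝ ∞ ψ → HasCompactSupport ψ → tsupport ψ ⊆ Ω →
      ∫ x in Ω, w x * lap4 ψ x = 0) :
    ∀ᵐ x ∂(volume.restrict Ω), w x = 0 := by
  -- energies
  have hlim : ∀ k, Tendsto (fun j => ∫ x, lap (lap (φ j)) x * lap (lap (φ k)) x) atTop (𝓝 0) := by
    intro k
    obtain ⟨h1, h2, h3⟩ := hφ k
    obtain ⟨b1, b2, b3⟩ := lap_test h1 h2 h3
    obtain ⟨c1, c2, c3⟩ := lap_test b1 b2 b3
    obtain ⟨d1, d2, d3⟩ := lap_test c1 c2 c3
    obtain ⟨e1, e2, e3⟩ := lap_test d1 d2 d3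
    have h4 := pair_lim hΩ hw (fun j => (hφ j).1.continuous) hL (w := lap4 (φ k))
      e1.continuous.continuousOn (L := tsupport (lap4 (φ k))) e2.isCompact e3
      (fun x _ hx => image_eq_zero_of_notMem_tsupport hx)
    rw [h0 (φ k) h1 h2 h3] at h4
    refine h4.congr fun j => ?_
    rw [← ibp2 isOpen_univ (hφ j).1 (hφ j).2.1 (subset_univ _) (hφ k).1.contDiffOn]
    apply setIntegral_eq_integral_of_forall_compl_eq_zero
    intro x hx
    rw [image_eq_zero_of_notMem_tsupport (fun h => hx ((hφ j).2.2 h)), zero_mul]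
  have hsm : ∀ j, ContDiff ℝ ∞ (lap (lap (φ j))) ∧ HasCompactSupport (lap (lap (φ j))) := by
    intro j
    obtain ⟨h1, h2, h3⟩ := hφ j
    obtain ⟨b1, b2, b3⟩ := lap_test h1 h2 h3
    obtain ⟨c1, c2, c3⟩ := lap_test b1 b2 b3
    exact ⟨c1, c2⟩
  have hen : ∀ ε > 0, ∃ j₀, ∀ k ≥ j₀, ∫ x, (lap (lap (φ k)) x) ^ 2 ≤ ε := by
    intro ε hε
    obtain ⟨j₀, hj₀⟩ := hC ε hε
    refine ⟨j₀, fun k hk => ?_⟩
    obtain ⟨s1, s2⟩ := hsm k
    have hi1 := sq_int s1 s2
    have key : ∀ j ≥ j₀, (∫ x, (lap (lap (φ k)) x) ^ 2) / 2 ≤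
        ε / 2 + ∫ x, lap (lap (φ j)) x * lap (lap (φ k)) x := by
      intro j hj
      obtain ⟨t1, t2⟩ := hsm j
      have hi2 : Integrable (fun x => lap (lap (φ j)) x * lap (lap (φ k)) x) :=
        (t1.continuous.mul s1.continuous).integrable_of_hasCompactSupport t2.mul_right
      have hd : ContDiff ℝ ∞ (fun z => φ j z - φ k z) := (hφ j).1.sub (hφ k).1
      have hdc : HasCompactSupport (fun z => φ j z - φ k z) := (hφ j).2.1.sub (hφ k).2.1
      obtain ⟨b1, b2, -⟩ := lap_test hd hdc (subset_univ _)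
      obtain ⟨c1, c2, -⟩ := lap_test b1 b2 (subset_univ _)
      have hi3 := sq_int c1 c2
      have h5 := hj₀ j hj k hk
      have h6 : ∫ x, (1 / 2 : ℝ) * (lap (lap (φ k)) x) ^ 2 ≤
          ∫ x, ((1 / 2 : ℝ) * (lap (lap (fun z => φ j z - φ k z)) x) ^ 2 +
            lap (lap (φ j)) x * lap (lap (φ k)) x) := by
        apply integral_mono (hi1.const_mul _) ((hi3.const_mul _).add hi2)
        intro x
        have e : lap (lap (fun z => φ j z - φ k z)) x =
            lap (lap (φ j)) x - lap (lap (φ k)) x := by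
          have h7 := lap2_lin isOpen_univ (hφ j).1.contDiffOn (hφ k).1.contDiffOn 1 (-1)
            (mem_univ x)
          have e2 : (fun z => φ j z - φ k z) = fun z => 1 * φ j z + (-1) * φ k z := by
            ext z; ring
          rw [e2, h7]; ring
        show (1 / 2 : ℝ) * (lap (lap (φ k)) x) ^ 2 ≤
          (1 / 2 : ℝ) * (lap (lap (fun z => φ j z - φ k z)) x) ^ 2 +
            lap (lap (φ j)) x * lap (lap (φ k)) x
        rw [e]
        nlinarith [sq_nonneg (lap (lap (φ j)) x)]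
      rw [integral_add (hi3.const_mul _) hi2, integral_const_mul, integral_const_mul] at h6
      linarith
    have h8 : Tendsto (fun j => ε / 2 + ∫ x, lap (lap (φ j)) x * lap (lap (φ k)) x) atTop
        (𝓝 (ε / 2 + 0)) := (hlim k).const_add _
    have h9 := le_of_tendsto_of_tendsto tendsto_const_nhds h8
      (eventually_atTop.2 ⟨j₀, fun j hj => key j hj⟩)
    linarith
  -- local convergence to zero
  have hloc : ∀ L, IsCompact L → L ⊆ Ω → ∫ x in L, |w x| = 0 := by
    intro L hLc hLΩ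
    have hwL : IntegrableOn w L := hw.integrableOn_compact_subset hLΩ hLc
    obtain ⟨M, hM0, hM⟩ : ∃ M > 0, ∀ x ∈ L, (1 + ‖x‖ ^ 2) ^ 4 ≤ M := by
      obtain ⟨M, hM⟩ := hLc.exists_bound_of_continuousOn
        (f := fun x : E 22 => (1 + ‖x‖ ^ 2) ^ 4) (by fun_prop)
      refine ⟨|M| + 1, by positivity, fun x hx => ?_⟩
      have h1 := hM x hx
      rw [Real.norm_of_nonneg (by positivity)] at h1
      have := le_abs_self M
      linarith
    have hle : ∀ δ > 0, ∫ x in L, |w x| ≤ δ := by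
      intro δ hδ
      obtain ⟨v, hv⟩ : ∃ v : ℝ, v = volume.real L := ⟨_, rfl⟩
      have hv0 : 0 ≤ v := by rw [hv]; positivity
      -- Young parameter
      obtain ⟨t, ht, htv⟩ : ∃ t > 0, t * v ≤ δ / 3 := by
        refine ⟨δ / (3 * (v + 1)), by positivity, ?_⟩
        rw [div_mul_eq_mul_div, div_le_iff₀ (by positivity)]
        nlinarith
      obtain ⟨j1, hj1⟩ := hen (t * (δ / 3) / M) (by positivity)
      have h1 := (hL L hLc hLΩ).eventually_lt_const (show (0 : ℝ) < δ / 3 by positivity)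
      obtain ⟨j2, hj2⟩ := eventually_atTop.1 h1
      obtain ⟨k, hk⟩ : ∃ k, k = max j1 j2 := ⟨_, rfl⟩
      have hk1 := hj1 k (by rw [hk]; exact le_max_left _ _)
      have hk2 := hj2 k (by rw [hk]; exact le_max_right _ _)
      have hφi : IntegrableOn (φ k) L := (hφ k).1.continuous.continuousOn.integrableOn_compact hLc
      have h2 : ∫ x in L, |w x| ≤ (∫ x in L, |φ k x - w x|) + ∫ x in L, |φ k x| := by
        have i1 : IntegrableOn (fun x => |φ k x - w x|) L := (hφi.sub hwL).abs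
        have i2 : IntegrableOn (fun x => |φ k x|) L := hφi.abs
        rw [← integral_add i1 i2]
        apply integral_mono hwL.abs (i1.add i2)
        intro x
        have h3 := abs_sub_abs_le_abs_sub (w x) (φ k x)
        rw [abs_sub_comm] at h3
        show |w x| ≤ |φ k x - w x| + |φ k x|
        linarith
      have hsqi := sq_int (hφ k).1 (hφ k).2.1
      have hwi : Integrable (fun x => φ k x ^ 2 * ((1 + ‖x‖ ^ 2) ^ 4)⁻¹) := by
        apply Continuous.integrable_of_hasCompactSupport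
        · apply ((hφ k).1.continuous.pow 2).mul
          apply Continuous.inv₀ (by fun_prop)
          intro x; positivity
        · exact ((hφ k).2.1.comp_left (g := fun t : ℝ => t ^ 2) (by norm_num)).mul_right
      have h4 : ∫ x in L, |φ k x| ≤ ∫ x in L, (t + t⁻¹ * M * (φ k x ^ 2 *
          ((1 + ‖x‖ ^ 2) ^ 4)⁻¹)) := by
        apply setIntegral_mono_on hφi.abs
        · exact (integrableOn_const hLc.measure_lt_top.ne).add
            (hwi.integrableOn.const_mul _)
        · exact hLc.measurableSet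
        · intro x hx
          have h5 := hM x hx
          have h6 : φ k x ^ 2 ≤ M * (φ k x ^ 2 * ((1 + ‖x‖ ^ 2) ^ 4)⁻¹) := by
            have h7 : 1 ≤ M * ((1 + ‖x‖ ^ 2) ^ 4)⁻¹ := by
              rw [← div_eq_mul_inv, one_le_div (by positivity)]
              exact h5
            nlinarith [sq_nonneg (φ k x)]
          have h8 : |φ k x| ≤ t + t⁻¹ * φ k x ^ 2 := by
            have h9 : t * |φ k x| ≤ t * (t + t⁻¹ * φ k x ^ 2) := by
              rw [mul_add, mul_inv_cancel_left₀ ht.ne', ← sq_abs (φ k x)]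
              nlinarith [sq_nonneg (t - |φ k x|), abs_nonneg (φ k x)]
            exact le_of_mul_le_mul_left h9 ht
          calc |φ k x| ≤ t + t⁻¹ * φ k x ^ 2 := h8
            _ ≤ t + t⁻¹ * (M * (φ k x ^ 2 * ((1 + ‖x‖ ^ 2) ^ 4)⁻¹)) := by gcongr
            _ = _ := by ring
      have h5 : ∫ x in L, (t + t⁻¹ * M * (φ k x ^ 2 * ((1 + ‖x‖ ^ 2) ^ 4)⁻¹)) ≤
          t * v + t⁻¹ * M * ∫ x, (lap (lap (φ k)) x) ^ 2 := by
        have i3 : IntegrableOn (fun _ : E 22 => t) L := integrableOn_const hLc.measure_lt_top.ne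
        have i4 : IntegrableOn (fun x => t⁻¹ * M * (φ k x ^ 2 * ((1 + ‖x‖ ^ 2) ^ 4)⁻¹)) L :=
          hwi.integrableOn.const_mul _
        rw [integral_add i3 i4, setIntegral_const, smul_eq_mul, ← hv, mul_comm v,
          integral_const_mul]
        have h6 : ∫ x in L, φ k x ^ 2 * ((1 + ‖x‖ ^ 2) ^ 4)⁻¹ ≤ ∫ x, (lap (lap (φ k)) x) ^ 2 :=
          (setIntegral_le_integral hwi (Eventually.of_forall fun x => by
            show 0 ≤ φ k x ^ 2 * ((1 + ‖x‖ ^ 2) ^ 4)⁻¹
            positivity)).trans (rellich (hφ k).1 (hφ k).2.1)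
        have h7 : 0 ≤ t⁻¹ * M := by positivity
        have := mul_le_mul_of_nonneg_left h6 h7
        linarith
      have h6 : t⁻¹ * M * ∫ x, (lap (lap (φ k)) x) ^ 2 ≤ δ / 3 := by
        calc t⁻¹ * M * ∫ x, (lap (lap (φ k)) x) ^ 2 ≤ t⁻¹ * M * (t * (δ / 3) / M) := by gcongr
          _ = δ / 3 := by field_simp
      linarith
    apply le_antisymm (le_of_forall_pos_le_add (by simpa using hle))
    exact integral_nonneg fun x => abs_nonneg _
  -- exhaustion
  have hex : ∃ K : ℕ → Set (E 22), (∀ i, IsCompact (K i) ∧ K i ⊆ Ω) ∧ Ω ⊆ ⋃ i, K i := by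
    haveI : LocallyCompactSpace Ω := hΩ.locallyCompactSpace
    refine ⟨fun i => Subtype.val '' (compactCovering Ω i), fun i => ⟨?_, ?_⟩, ?_⟩
    · exact (isCompact_compactCovering Ω i).image continuous_subtype_val
    · rintro _ ⟨y, _, rfl⟩
      exact y.2
    · intro x hx
      have h1 : (⟨x, hx⟩ : Ω) ∈ ⋃ i, compactCovering Ω i := by
        rw [iUnion_compactCovering]; exact mem_univ _
      obtain ⟨i, hi⟩ := mem_iUnion.1 h1
      exact mem_iUnion.2 ⟨i, ⟨x, hx⟩, hi, rfl⟩
  obtain ⟨K, hK, hKu⟩ := hex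
  have hres : ∀ i, ∀ᵐ x ∂(volume.restrict (K i)), w x = 0 := by
    intro i
    have h1 := hloc (K i) (hK i).1 (hK i).2
    have hwi : IntegrableOn w (K i) := hw.integrableOn_compact_subset (hK i).2 (hK i).1
    have h2 := (integral_eq_zero_iff_of_nonneg (fun x => abs_nonneg (w x)) hwi.abs).1 h1
    filter_upwards [h2] with x hx
    simpa using hx
  have h3 : ∀ᵐ x ∂(volume.restrict (⋃ i, K i)), w x = 0 := by
    rw [ae_restrict_iUnion_iff]
    exact hres
  exact ae_restrict_of_ae_restrict_of_subset hKu h3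

end Pool.Agent.Helper676.GF
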