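import Pool.Agent.Helper676.GF7
import Pool.Agent.Helper676.GF9

set_option autoImplicit false

/-! Primal version of the perforated domain argument. -/

namespace Pool.Agent.Helper676.GF

open MeasureTheory Filter Topology Set Metric
open scoped ContDiff

theorem assembly2 {ι : Type*} [DecidableEq ι] (J : Finset ι) (p : ι → E 22) (a κ : ι → ℝ)
    (ha : ∀ j ∈ J, 0 < a j) (hdisj : ∀ i ∈ J, ∀ j ∈ J, i ≠ j → 2 * a i + 2 * a j ≤ ‖p i - p j‖)
    {Ω : Set (E 22)} (hΩ : Ω = {x | ∀ j ∈ J, a j < ‖x - p j‖}) (hΩo : IsOpen Ω)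
    {F P θ χ : E 22 → ℝ} {L : ℝ}
    (hF0 : ∀ x, 0 ≤ F x) (hP : ContDiff ℝ ∞ P)
    (hθ : ContDiff ℝ ∞ θ) (hθ1 : ∀ x, ‖x‖ ≤ L → θ x = 1) (hθ0 : ∀ x, 2 * L ≤ ‖x‖ → θ x = 0)
    (hχ : ContDiff ℝ ∞ χ) (hχ1 : ∀ z, ‖z‖ ≤ 3 / 2 → χ z = 1) (hχ0 : ∀ z, 2 ≤ ‖z‖ → χ z = 0)
    (hL : 0 < L) (hpL : ∀ j ∈ J, ‖p j‖ + 2 * a j < L)
    (hPi : Integrable (fun x => F x * |lap4 P x|)) (M : ι → ℝ) (A : ℝ) (hA0 : 0 ≤ A)
    (hM0 : ∀ j ∈ J, 0 ≤ M j)
    (hM : ∀ j ∈ J, ∀ x, a j < ‖x - p j‖ → ‖x - p j‖ ≤ 2 * a j →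
      F x * |lap4 (fun y => χ ((a j)⁻¹ • (y - p j)) * Rk J p a κ P j y) x| ≤ M j)
    (hA : ∀ x, L ≤ ‖x‖ → ‖x‖ ≤ 2 * L →
      F x * |lap4 (fun y => θ y * Wk J p a κ P y) x| ≤ A) :
    ∃ Ψ : E 22 → ℝ, ContDiffOn ℝ ∞ Ψ {x | ∀ j ∈ J, x ≠ p j} ∧ (∀ x, 2 * L ≤ ‖x‖ → Ψ x = 0) ∧
      (∀ j ∈ J, ∀ x, x ≠ p j → ‖x - p j‖ ≤ 3 / 2 * a j →
        Ψ x = κ j * (1 - hr (‖(a j)⁻¹ • (x - p j)‖ ^ 2))) ∧
      (∀ x, ‖x‖ ≤ L → (∀ j ∈ J, 2 * a j ≤ ‖x - p j‖) → Ψ x = Wk J p a κ P x) ∧
      ∫ x in Ω, F x * |lap4 Ψ x| ≤ (∫ x, F x * |lap4 P x|) +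
      (∑ j ∈ J, volume.real (closedBall (p j) (2 * a j)) * M j +
        volume.real (closedBall (0 : E 22) (2 * L)) * A) := by
  classical
  set O : Set (E 22) := {x | ∀ j ∈ J, x ≠ p j} with hO
  have hOo : IsOpen O := avoid_open J p
  have hΩO : Ω ⊆ O := by
    intro x hx j hj h
    rw [hΩ] at hx
    have := hx j hj
    rw [h, sub_self, norm_zero] at this
    linarith [ha j hj]
  have hnorm : ∀ j ∈ J, ∀ x, ‖(a j)⁻¹ • (x - p j)‖ = (a j)⁻¹ * ‖x - p j‖ := by
    intro j hj x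
    rw [norm_smul, Real.norm_of_nonneg (inv_nonneg.2 (ha j hj).le)]
  have hχ0' : ∀ j ∈ J, ∀ x, 2 * a j ≤ ‖x - p j‖ → χ ((a j)⁻¹ • (x - p j)) = 0 := by
    intro j hj x hx
    apply hχ0
    rw [hnorm j hj, le_inv_mul_iff₀ (ha j hj)]
    linarith
  have hχ1' : ∀ j ∈ J, ∀ x, ‖x - p j‖ ≤ 3 / 2 * a j → χ ((a j)⁻¹ • (x - p j)) = 1 := by
    intro j hj x hx
    apply hχ1
    rw [hnorm j hj, inv_mul_le_iff₀ (ha j hj)]
    linarith
  have hWs : ContDiffOn ℝ ∞ (Wk J p a κ P) O := Wk_smooth J p a κ ha hP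
  have hRs : ∀ k, ContDiffOn ℝ ∞ (Rk J p a κ P k) O := fun k =>
    (Rk_smooth J p a κ ha hP k).mono fun x hx j hj => hx j (Finset.mem_of_mem_erase hj)
  have hθW : ContDiffOn ℝ ∞ (fun y => θ y * Wk J p a κ P y) O := hθ.contDiffOn.mul hWs
  have hχs : ∀ j, ContDiff ℝ ∞ (fun y => χ ((a j)⁻¹ • (y - p j))) := fun j =>
    hχ.comp ((contDiff_id.sub contDiff_const).const_smul (a j)⁻¹)
  have hχR : ∀ j, ContDiffOn ℝ ∞ (fun y => χ ((a j)⁻¹ • (y - p j)) * Rk J p a κ P j y) O :=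
    fun j => (hχs j).contDiffOn.mul (hRs j)
  set Ψ : E 22 → ℝ := fun x => θ x * Wk J p a κ P x -
    ∑ j ∈ J, χ ((a j)⁻¹ • (x - p j)) * Rk J p a κ P j x with hΨ
  have hΨs : ContDiffOn ℝ ∞ Ψ O := hθW.sub (ContDiffOn.sum fun j _ => hχR j)
  have hΨL : ∀ x, 2 * L ≤ ‖x‖ → Ψ x = 0 := by
    intro x hx
    simp only [hΨ]
    rw [hθ0 x hx, zero_mul, Finset.sum_eq_zero, sub_zero]
    intro j hj
    rw [hχ0' j hj x, zero_mul]
    have h1 := norm_sub_norm_le x (p j)
    have h2 := hpL j hj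
    have h3 := norm_nonneg (p j)
    linarith
  have hΨh : ∀ j ∈ J, ∀ x, x ≠ p j → ‖x - p j‖ ≤ 3 / 2 * a j →
      Ψ x = κ j * (1 - hr (‖(a j)⁻¹ • (x - p j)‖ ^ 2)) := by
    intro j hj x _ hx
    simp only [hΨ]
    have h1 : θ x = 1 := by
      apply hθ1
      have h1 := norm_sub_norm_le x (p j)
      have h2 := hpL j hj
      have h3 := ha j hj
      linarith
    rw [h1, one_mul, Finset.sum_eq_single_of_mem j hj, hχ1' j hj x hx, one_mul,
      Wk_sub_Rk J p a κ P hj x]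
    · rfl
    · intro k hk hkj
      rw [hχ0' k hk x, zero_mul]
      have h2 := hdisj k hk j hj hkj
      have h3 : ‖p k - p j‖ ≤ ‖x - p j‖ + ‖x - p k‖ := by
        calc ‖p k - p j‖ = ‖(x - p j) - (x - p k)‖ := by congr 1; abel
          _ ≤ _ := norm_sub_le _ _
      have h4 := ha j hj
      linarith
  have hval : ∀ x, ‖x‖ ≤ L → (∀ j ∈ J, 2 * a j ≤ ‖x - p j‖) → Ψ x = Wk J p a κ P x := by
    intro x hx1 hx2
    simp only [hΨ]
    rw [hθ1 x hx1, one_mul, Finset.sum_eq_zero, sub_zero]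
    intro j hj
    rw [hχ0' j hj x (hx2 j hj), zero_mul]
  refine ⟨Ψ, hΨs, hΨL, hΨh, hval, ?_⟩
  -- the dominating function
  set G : E 22 → ℝ := fun x => F x * |lap4 P x| +
    (∑ j ∈ J, (closedBall (p j) (2 * a j)).indicator (fun _ => M j) x +
      (closedBall (0 : E 22) (2 * L)).indicator (fun _ => A) x) with hG
  have hi1 : ∀ j ∈ J, Integrable (fun x => (closedBall (p j) (2 * a j)).indicator
      (fun _ => M j) x) := by
    intro j _
    rw [integrable_indicator_iff measurableSet_closedBall]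
    exact integrableOn_const measure_closedBall_lt_top.ne
  have hi2 : Integrable (fun x => (closedBall (0 : E 22) (2 * L)).indicator (fun _ => A) x) := by
    rw [integrable_indicator_iff measurableSet_closedBall]
    exact integrableOn_const measure_closedBall_lt_top.ne
  have hi3 : Integrable (fun x => ∑ j ∈ J, (closedBall (p j) (2 * a j)).indicator
      (fun _ => M j) x) := integrable_finsetSum J hi1
  have hGi : Integrable G := hPi.add (hi3.add hi2)
  have hG0 : ∀ x, 0 ≤ G x := by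
    intro x
    simp only [hG]
    have h1 : 0 ≤ F x * |lap4 P x| := mul_nonneg (hF0 x) (abs_nonneg _)
    have h2 : 0 ≤ ∑ j ∈ J, (closedBall (p j) (2 * a j)).indicator (fun _ => M j) x :=
      Finset.sum_nonneg fun j hj => Set.indicator_nonneg (fun _ _ => hM0 j hj) x
    have h3 : 0 ≤ (closedBall (0 : E 22) (2 * L)).indicator (fun _ => A) x :=
      Set.indicator_nonneg (fun _ _ => hA0) x
    linarith
  have hpt : ∀ x ∈ Ω, F x * |lap4 Ψ x| ≤ G x := by
    intro x hx
    have hxO : x ∈ O := hΩO hx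
    have h1 : lap4 Ψ x = lap4 (fun y => θ y * Wk J p a κ P y) x -
        ∑ j ∈ J, lap4 (fun y => χ ((a j)⁻¹ • (y - p j)) * Rk J p a κ P j y) x := by
      have e : Ψ = fun y => 1 * (θ y * Wk J p a κ P y) +
          (-1) * (∑ j ∈ J, χ ((a j)⁻¹ • (y - p j)) * Rk J p a κ P j y) := by
        ext y; simp only [hΨ]; ring
      rw [e, lap4_lin hOo hθW (ContDiffOn.sum fun j _ => hχR j) 1 (-1) hxO,
        lap4_sum J hOo (fun j _ => hχR j) hxO]
      ring
    have h2 : F x * |lap4 (fun y => θ y * Wk J p a κ P y) x| ≤ F x * |lap4 P x| +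
        (closedBall (0 : E 22) (2 * L)).indicator (fun _ => A) x := by
      have hnn : 0 ≤ F x * |lap4 P x| := mul_nonneg (hF0 x) (abs_nonneg _)
      have hnn2 : 0 ≤ (closedBall (0 : E 22) (2 * L)).indicator (fun _ => A) x :=
        Set.indicator_nonneg (fun _ _ => hA0) x
      rcases lt_or_ge ‖x‖ L with hxL | hxL
      · have e : (fun y => θ y * Wk J p a κ P y) =ᶠ[𝓝 x] Wk J p a κ P := by
          have : ball (0 : E 22) L ∈ 𝓝 x := isOpen_ball.mem_nhds (by simpa using hxL)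
          filter_upwards [this] with y hy
          rw [hθ1 y (by simpa using (mem_ball_zero_iff.1 hy).le), one_mul]
        rw [lap4_congr e, lap4_Wk J p a κ ha hP hxO]
        linarith
      · rcases le_or_gt ‖x‖ (2 * L) with hx2 | hx2
        · rw [Set.indicator_of_mem (by simpa using hx2)]
          have := hA x hxL hx2
          linarith
        · have e : (fun y => θ y * Wk J p a κ P y) =ᶠ[𝓝 x] fun _ => 0 := by
            have : {y : E 22 | 2 * L < ‖y‖} ∈ 𝓝 x :=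
              (isOpen_lt continuous_const continuous_norm).mem_nhds hx2
            filter_upwards [this] with y hy
            rw [hθ0 y (le_of_lt hy), zero_mul]
          rw [lap4_zero_of e, abs_zero, mul_zero]
          linarith
    have h3 : ∀ j ∈ J, F x * |lap4 (fun y => χ ((a j)⁻¹ • (y - p j)) * Rk J p a κ P j y) x| ≤
        (closedBall (p j) (2 * a j)).indicator (fun _ => M j) x := by
      intro j hj
      rcases le_or_gt ‖x - p j‖ (2 * a j) with hx2 | hx2
      · rw [Set.indicator_of_mem (by simpa [dist_eq_norm] using hx2)]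
        rw [hΩ] at hx
        exact hM j hj x (hx j hj) hx2
      · have e : (fun y => χ ((a j)⁻¹ • (y - p j)) * Rk J p a κ P j y) =ᶠ[𝓝 x] fun _ => 0 := by
          have : {y : E 22 | 2 * a j < ‖y - p j‖} ∈ 𝓝 x :=
            (isOpen_lt continuous_const (continuous_id.sub continuous_const).norm).mem_nhds hx2
          filter_upwards [this] with y hy
          rw [hχ0' j hj y (le_of_lt hy), zero_mul]
        rw [lap4_zero_of e, abs_zero, mul_zero]
        exact Set.indicator_nonneg (fun _ _ => hM0 j hj) x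
    rw [h1]
    calc F x * |lap4 (fun y => θ y * Wk J p a κ P y) x -
          ∑ j ∈ J, lap4 (fun y => χ ((a j)⁻¹ • (y - p j)) * Rk J p a κ P j y) x|
        ≤ F x * (|lap4 (fun y => θ y * Wk J p a κ P y) x| +
          ∑ j ∈ J, |lap4 (fun y => χ ((a j)⁻¹ • (y - p j)) * Rk J p a κ P j y) x|) := by
          apply mul_le_mul_of_nonneg_left _ (hF0 x)
          refine (abs_sub _ _).trans ?_
          gcongr
          exact Finset.abs_sum_le_sum_abs _ _
      _ = F x * |lap4 (fun y => θ y * Wk J p a κ P y) x| +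
          ∑ j ∈ J, F x * |lap4 (fun y => χ ((a j)⁻¹ • (y - p j)) * Rk J p a κ P j y) x| := by
          rw [mul_add, Finset.mul_sum]
      _ ≤ (F x * |lap4 P x| + (closedBall (0 : E 22) (2 * L)).indicator (fun _ => A) x) +
          ∑ j ∈ J, (closedBall (p j) (2 * a j)).indicator (fun _ => M j) x :=
          add_le_add h2 (Finset.sum_le_sum h3)
      _ = G x := by simp only [hG]; ring
  calc ∫ x in Ω, F x * |lap4 Ψ x| ≤ ∫ x in Ω, G x := by
        apply integral_mono_of_nonneg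
        · exact Eventually.of_forall fun x => mul_nonneg (hF0 x) (abs_nonneg _)
        · exact hGi.integrableOn
        · rw [EventuallyLE, ae_restrict_iff' hΩo.measurableSet]
          exact Eventually.of_forall hpt
    _ ≤ ∫ x, G x := setIntegral_le_integral hGi (Eventually.of_forall hG0)
    _ = _ := by
        have e1 : ∫ x, G x = (∫ x, F x * |lap4 P x|) +
            ∫ x, (∑ j ∈ J, (closedBall (p j) (2 * a j)).indicator (fun _ => M j) x +
              (closedBall (0 : E 22) (2 * L)).indicator (fun _ => A) x) :=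
          integral_add hPi (hi3.add hi2)
        rw [e1, integral_add hi3 hi2, integral_finsetSum J hi1]
        congr 1
        congr 1
        · apply Finset.sum_congr rfl
          intro j _
          rw [integral_indicator measurableSet_closedBall, setIntegral_const, smul_eq_mul]
        · rw [integral_indicator measurableSet_closedBall, setIntegral_const, smul_eq_mul]

end Pool.Agent.Helper676.GF
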