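import Pool.Agent.Helper676.GF10

set_option autoImplicit false

/-! The right-hand side, the weak equation, and the exchange of integrals. -/

namespace Pool.Agent.Helper676.GF

open MeasureTheory Filter Topology Set Metric
open scoped ContDiff

lemma lap4_const (c : ℝ) (x : E 22) : lap4 (fun _ : E 22 => c) x = 0 := by
  have h1' : ∀ c : ℝ, ∀ y : E 22, lap (fun _ : E 22 => c) y = 0 := by
    intro c y; simp [lap]
  unfold lap4
  have e1 : lap (fun _ : E 22 => c) = fun _ => 0 := funext fun y => h1' c y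
  have e2 : lap (fun _ : E 22 => (0 : ℝ)) = fun _ => 0 := funext fun y => h1' 0 y
  rw [e1, e2, e2, e2]

/-- `Δ⁴Ψ`, extended by zero outside `Ω`, is a test function on `Ω` -/
lemma rhs_test {ι : Type*} (J : Finset ι) (p : ι → E 22) (a κ : ι → ℝ)
    (ha : ∀ j ∈ J, 0 < a j) {Ω : Set (E 22)} (hΩ : Ω = {x | ∀ j ∈ J, a j < ‖x - p j‖})
    (hΩo : IsOpen Ω) {Ψ : E 22 → ℝ} (hΨ : ContDiffOn ℝ ∞ Ψ {x | ∀ j ∈ J, x ≠ p j}) {L0 : ℝ}
    (hΨL : ∀ x, L0 ≤ ‖x‖ → Ψ x = 0)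
    (hΨh : ∀ j ∈ J, ∀ x, x ≠ p j → ‖x - p j‖ ≤ 3 / 2 * a j →
      Ψ x = κ j * (1 - hr (‖(a j)⁻¹ • (x - p j)‖ ^ 2))) :
    ContDiff ℝ ∞ (Ω.indicator (lap4 Ψ)) ∧ HasCompactSupport (Ω.indicator (lap4 Ψ)) ∧
      tsupport (Ω.indicator (lap4 Ψ)) ⊆ Ω := by
  have hOo : IsOpen {x : E 22 | ∀ j ∈ J, x ≠ p j} := avoid_open J p
  have hΩO : Ω ⊆ {x : E 22 | ∀ j ∈ J, x ≠ p j} := by
    intro x hx j hj h
    rw [hΩ] at hx
    have := hx j hj
    rw [h, sub_self, norm_zero] at this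
    linarith [ha j hj]
  have hhr : ∀ j ∈ J, ∀ x ∈ Ω, ‖x - p j‖ < 3 / 2 * a j → lap4 Ψ x = 0 := by
    intro j hj x hx hxj
    have haj := ha j hj
    have hxp : x ≠ p j := hΩO hx j hj
    have e : Ψ =ᶠ[𝓝 x] fun x => κ j * 1 + (-κ j) * Hh (a j) (p j) x := by
      have h1 : ∀ᶠ y in 𝓝 x, ‖y - p j‖ < 3 / 2 * a j :=
        (isOpen_lt (by fun_prop) continuous_const).mem_nhds hxj
      have h2 : ∀ᶠ y in 𝓝 x, y ≠ p j := isOpen_compl_singleton.mem_nhds hxp
      filter_upwards [h1, h2] with y hy1 hy2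
      rw [hΨh j hj y hy2 hy1.le]
      unfold Hh
      ring
    have hOp : IsOpen ({p j}ᶜ : Set (E 22)) := isOpen_compl_singleton
    rw [lap4_congr e, lap4_lin hOp (contDiffOn_const (c := (1 : ℝ))) (Hh_smooth haj (p j))
      (κ j) (-κ j) hxp, lap4_Hh haj (p j) hxp, lap4_const]
    ring
  have hfar : ∀ x, L0 < ‖x‖ → lap4 Ψ x = 0 := by
    intro x hx
    apply lap4_zero_of
    filter_upwards [(isOpen_lt continuous_const continuous_norm).mem_nhds hx] with y hy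
    exact hΨL y (le_of_lt hy)
  obtain ⟨K, hKdef⟩ : ∃ K : Set (E 22),
      K = closedBall 0 L0 ∩ {x | ∀ j ∈ J, 3 / 2 * a j ≤ ‖x - p j‖} := ⟨_, rfl⟩
  have hK : IsCompact K := by
    rw [hKdef]
    apply (isCompact_closedBall _ _).inter_right
    have : {x : E 22 | ∀ j ∈ J, 3 / 2 * a j ≤ ‖x - p j‖} =
        ⋂ j ∈ J, {x | 3 / 2 * a j ≤ ‖x - p j‖} := by
      ext x; simp
    rw [this]
    exact isClosed_biInter fun j _ => isClosed_le continuous_const (by fun_prop)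
  have hKΩ : K ⊆ Ω := by
    intro x hx
    rw [hKdef] at hx
    rw [hΩ]
    intro j hj
    have h1 := hx.2 j hj
    have h2 := ha j hj
    linarith
  have hK0 : ∀ x, x ∉ K → Ω.indicator (lap4 Ψ) x = 0 := by
    intro x hx
    by_cases hxΩ : x ∈ Ω
    · rw [indicator_of_mem hxΩ]
      by_cases h1 : ∃ j ∈ J, ‖x - p j‖ < 3 / 2 * a j
      · obtain ⟨j, hj, h2⟩ := h1
        exact hhr j hj x hxΩ h2
      · push Not at h1
        apply hfar
        by_contra hcon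
        exact hx (by rw [hKdef]; exact ⟨by simpa using not_lt.1 hcon, h1⟩)
    · exact indicator_of_notMem hxΩ _
  have hts : tsupport (Ω.indicator (lap4 Ψ)) ⊆ K := by
    refine closure_minimal ?_ hK.isClosed
    intro x hx
    by_contra h
    exact hx (hK0 x h)
  refine ⟨?_, HasCompactSupport.intro hK hK0, hts.trans hKΩ⟩
  rw [contDiff_iff_contDiffAt]
  intro x
  by_cases hx : x ∈ Ω
  · have e : Ω.indicator (lap4 Ψ) =ᶠ[𝓝 x] lap4 Ψ := by
      filter_upwards [hΩo.mem_nhds hx] with y hy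
      exact indicator_of_mem hy _
    refine ContDiffAt.congr_of_eventuallyEq ?_ e
    exact (lap4_smooth hOo hΨ).contDiffAt (hOo.mem_nhds (hΩO hx))
  · have hx' : x ∈ Kᶜ := fun h => hx (hKΩ h)
    have e : Ω.indicator (lap4 Ψ) =ᶠ[𝓝 x] fun _ => 0 := by
      filter_upwards [hK.isClosed.isOpen_compl.mem_nhds hx'] with y hy
      exact hK0 y hy
    exact contDiffAt_const.congr_of_eventuallyEq e

/-- smooth functions satisfy the weak equation -/
lemma weak_of_smooth {Ω : Set (E 22)} (hΩ : IsOpen Ω) {Ψ : E 22 → ℝ} (hΨ : ContDiffOn ℝ ∞ Ψ Ω)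
    {ψ : E 22 → ℝ} (h1 : ContDiff ℝ ∞ ψ) (h2 : HasCompactSupport ψ) (h3 : tsupport ψ ⊆ Ω) :
    ∫ x in Ω, Ψ x * lap4 ψ x = ∫ x in Ω, Ω.indicator (lap4 Ψ) x * ψ x := by
  obtain ⟨b1, b2, b3⟩ := lap_test h1 h2 h3
  obtain ⟨c1, c2, c3⟩ := lap_test b1 b2 b3
  obtain ⟨d1, d2, d3⟩ := lap_test c1 c2 c3
  obtain ⟨e1, e2, e3⟩ := lap_test d1 d2 d3
  have hs1 := lap_smooth hΩ hΨ
  have hs2 := lap_smooth hΩ hs1
  have hs3 := lap_smooth hΩ hs2
  have hz : ∀ φ : E 22 → ℝ, tsupport φ ⊆ Ω → ∀ v : E 22 → ℝ,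
      ∫ x in Ω, φ x * v x = ∫ x, φ x * v x := by
    intro φ hφ v
    apply setIntegral_eq_integral_of_forall_compl_eq_zero
    intro x hx
    rw [image_eq_zero_of_notMem_tsupport (fun h => hx (hφ h)), zero_mul]
  calc ∫ x in Ω, Ψ x * lap4 ψ x = ∫ x in Ω, lap4 ψ x * Ψ x := by
        congr 1; ext x; ring
    _ = ∫ x, lap4 ψ x * Ψ x := hz _ e3 _
    _ = ∫ x, lap (lap (lap ψ)) x * lap Ψ x := (lap_ibp hΩ d1 d2 d3 hΨ).symm
    _ = ∫ x, lap (lap ψ) x * lap (lap Ψ) x := (lap_ibp hΩ c1 c2 c3 hs1).symm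
    _ = ∫ x, lap ψ x * lap (lap (lap Ψ)) x := (lap_ibp hΩ b1 b2 b3 hs2).symm
    _ = ∫ x, ψ x * lap4 Ψ x := (lap_ibp hΩ h1 h2 h3 hs3).symm
    _ = ∫ x in Ω, ψ x * lap4 Ψ x := (hz _ h3 _).symm
    _ = ∫ x in Ω, Ω.indicator (lap4 Ψ) x * ψ x := by
        apply setIntegral_congr_fun hΩ.measurableSet
        intro x hx
        simp only
        rw [indicator_of_mem hx, mul_comm]

/-- exchange of integrals -/
lemma swap {f h : E 22 → ℝ} (hf : Continuous f) (hfc : HasCompactSupport f) (hh : Continuous h)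
    (hhc : HasCompactSupport h) :
    ∫ x, f x * ∫ y, ((‖x - y‖ ^ 2) ^ 7)⁻¹ * h y =
      ∫ y, (∫ x, ((‖y - x‖ ^ 2) ^ 7)⁻¹ * f x) * h y := by
  obtain ⟨R, hR⟩ : ∃ R : ℝ, (∀ x, f x ≠ 0 → ‖x‖ ≤ R) ∧ ∀ x, h x ≠ 0 → ‖x‖ ≤ R := by
    obtain ⟨R1, h1⟩ := hfc.isCompact.isBounded.subset_closedBall (0 : E 22)
    obtain ⟨R2, h2⟩ := hhc.isCompact.isBounded.subset_closedBall (0 : E 22)
    refine ⟨max R1 R2, fun x hx => ?_, fun x hx => ?_⟩
    · have := h1 (subset_tsupport f hx)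
      rw [mem_closedBall_zero_iff] at this
      exact this.trans (le_max_left _ _)
    · have := h2 (subset_tsupport h hx)
      rw [mem_closedBall_zero_iff] at this
      exact this.trans (le_max_right _ _)
  obtain ⟨KB, hKB⟩ : ∃ KB : E 22 → ℝ, KB = (closedBall (0 : E 22) (2 * R)).indicator
    (fun z => ((‖z‖ ^ 2) ^ 7)⁻¹) := ⟨_, rfl⟩
  have hKBi : Integrable KB := by
    rw [hKB, integrable_indicator_iff measurableSet_closedBall]
    exact ker_li.integrableOn_isCompact (isCompact_closedBall _ _)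
  have hhi : Integrable h := hh.integrable_of_hasCompactSupport hhc
  have hconv := hhi.convolution_integrand (ContinuousLinearMap.mul ℝ ℝ) hKBi
  obtain ⟨Cf, hCf⟩ := hfc.exists_bound_of_continuous hf
  have hprod : Integrable (fun q : E 22 × E 22 => f q.1 * (h q.2 * KB (q.1 - q.2)))
      (volume.prod volume) := by
    apply Integrable.bdd_mul (c := Cf) hconv
    · exact (hf.comp continuous_fst).aestronglyMeasurable
    · exact Eventually.of_forall fun q => hCf q.1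
  have hsw := integral_integral_swap (f := fun x y => f x * (h y * KB (x - y))) hprod
  have hmem : ∀ x y, f x ≠ 0 → h y ≠ 0 → KB (x - y) = ((‖x - y‖ ^ 2) ^ 7)⁻¹ := by
    intro x y hx hy
    rw [hKB, indicator_of_mem]
    rw [mem_closedBall_zero_iff]
    have h1 := norm_sub_le x y
    have h2 := hR.1 x hx
    have h3 := hR.2 y hy
    linarith
  have e1 : (fun x => f x * ∫ y, ((‖x - y‖ ^ 2) ^ 7)⁻¹ * h y) =
      fun x => ∫ y, f x * (h y * KB (x - y)) := by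
    ext x
    rw [← integral_const_mul]
    congr 1
    ext y
    by_cases hx : f x = 0
    · rw [hx]; ring
    · by_cases hy : h y = 0
      · rw [hy]; ring
      · rw [hmem x y hx hy]; ring
  have e2 : (fun y => (∫ x, ((‖y - x‖ ^ 2) ^ 7)⁻¹ * f x) * h y) =
      fun y => ∫ x, f x * (h y * KB (x - y)) := by
    ext y
    rw [← integral_mul_const]
    congr 1
    ext x
    by_cases hx : f x = 0
    · rw [hx]; ring
    · by_cases hy : h y = 0
      · rw [hy]; ring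
      · rw [hmem x y hx hy, norm_sub_rev]; ring
  rw [e1, e2]
  exact hsw

end Pool.Agent.Helper676.GF
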