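import Pool.Agent.Helper676.GFC
import Pool.Agent.Helper676.GFG

set_option autoImplicit false

/-! The oscillating homogeneous solution of `Δ⁴Φ + A|x|⁻⁸Φ = 0` in dimension 22. -/

namespace Pool.Agent.Helper676.GF

open MeasureTheory Filter Topology Set Metric
open scoped ContDiff

/-- a complex exponent `s`, `-7 < Re s < 0`, with `y² + 12 y + 315 = 0` for `y = s (s+7)` -/
lemma exists_exponent : ∃ s : ℂ, -7 < s.re ∧ s.re < 0 ∧
    s * (s + 7) * (s * (s + 7) - 8) * (s * (s + 7) - 18) * (s * (s + 7) - 30) = -448875 := by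
  have h31 : (0 : ℝ) < Real.sqrt 31 := Real.sqrt_pos.2 (by norm_num)
  have h31' : Real.sqrt 31 ^ 2 = 31 := Real.sq_sqrt (by norm_num)
  set M := Real.sqrt 5089 with hM
  have hM0 : 0 < M := Real.sqrt_pos.2 (by norm_num)
  have hM2 : M ^ 2 = 5089 := Real.sq_sqrt (by norm_num)
  have hM3 : M < 73 := by nlinarith
  set p := Real.sqrt ((M / 4 + 25 / 4) / 2) with hp
  have hp0 : 0 < p := Real.sqrt_pos.2 (by positivity)
  have hp2 : p ^ 2 = (M / 4 + 25 / 4) / 2 := Real.sq_sqrt (by positivity)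
  have hp3 : p < 7 / 2 := by nlinarith
  set q := 3 * Real.sqrt 31 / (2 * p) with hq
  have hpq : 2 * p * q = 3 * Real.sqrt 31 := by rw [hq]; field_simp
  have hq2 : q ^ 2 = p ^ 2 - 25 / 4 := by
    have h1 : (2 * p * q) ^ 2 = 279 := by rw [hpq, mul_pow, h31']; norm_num
    have h2 : 4 * p ^ 2 * q ^ 2 = 279 := by rw [← h1]; ring
    have h3 : 4 * p ^ 2 * (p ^ 2 - 25 / 4) = 279 := by
      rw [hp2]
      nlinarith
    have h4 : 4 * p ^ 2 ≠ 0 := by positivity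
    exact mul_left_cancel₀ h4 (h2.trans h3.symm)
  refine ⟨⟨-(7 / 2) - p, -q⟩, by simp only; linarith, by simp only; linarith, ?_⟩
  have hy : (⟨-(7 / 2) - p, -q⟩ : ℂ) * (⟨-(7 / 2) - p, -q⟩ + 7) = ⟨-6, 3 * Real.sqrt 31⟩ := by
    apply Complex.ext
    · simp only [Complex.mul_re, Complex.add_re, Complex.add_im]
      norm_num
      nlinarith
    · simp only [Complex.mul_im, Complex.add_re, Complex.add_im]
      norm_num
      nlinarith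
  rw [hy]
  have e1 : (⟨-6, 3 * Real.sqrt 31⟩ : ℂ) = -6 + 3 * (Real.sqrt 31 : ℂ) * Complex.I := by
    apply Complex.ext <;> simp
  have e2 : ((Real.sqrt 31 : ℝ) : ℂ) ^ 2 = 31 := by
    rw [← Complex.ofReal_pow, h31']; norm_num
  rw [e1]
  set r : ℂ := ((Real.sqrt 31 : ℝ) : ℂ) with hr
  have e3 : (3 * r * Complex.I) ^ 2 = -279 := by
    rw [mul_pow, mul_pow, e2, Complex.I_sq]; norm_num
  have e4 : (-6 + 3 * r * Complex.I) ^ 2 + 12 * (-6 + 3 * r * Complex.I) + 315 = 0 := by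
    linear_combination e3
  have e5 : (-6 + 3 * r * Complex.I) * ((-6 + 3 * r * Complex.I) - 8) *
      ((-6 + 3 * r * Complex.I) - 18) * ((-6 + 3 * r * Complex.I) - 30) + 448875 =
      ((-6 + 3 * r * Complex.I) ^ 2 + 12 * (-6 + 3 * r * Complex.I) + 315) *
        ((-6 + 3 * r * Complex.I) ^ 2 - 68 * (-6 + 3 * r * Complex.I) + 1425) := by ring
  rw [e4, zero_mul] at e5
  linear_combination e5

/-- `Re (w ρ^s)` -/
noncomputable def Gc (w s : ℂ) (ρ : ℝ) : ℝ := (w * Complex.exp (s * (Real.log ρ : ℂ))).re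

lemma exp_sub_one {s : ℂ} {ρ : ℝ} (hρ : 0 < ρ) :
    Complex.exp ((s - 1) * (Real.log ρ : ℂ)) = Complex.exp (s * (Real.log ρ : ℂ)) * (ρ : ℂ)⁻¹ := by
  have e : (s - 1) * (Real.log ρ : ℂ) = s * (Real.log ρ : ℂ) - (Real.log ρ : ℂ) := by ring
  rw [e, Complex.exp_sub, ← Complex.ofReal_exp, Real.exp_log hρ, div_eq_mul_inv]

lemma hasDerivAt_Gc (w s : ℂ) {ρ : ℝ} (hρ : 0 < ρ) :
    HasDerivAt (Gc w s) (Gc (w * s) (s - 1) ρ) ρ := by
  have h1 : HasDerivAt (fun t : ℝ => (Real.log t : ℂ)) ((ρ⁻¹ : ℝ) : ℂ) ρ :=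
    (Real.hasDerivAt_log hρ.ne').ofReal_comp
  have h2 : HasDerivAt (fun t : ℝ => w * Complex.exp (s * (Real.log t : ℂ)))
      (w * (Complex.exp (s * (Real.log ρ : ℂ)) * (s * ((ρ⁻¹ : ℝ) : ℂ)))) ρ :=
    ((h1.const_mul s).cexp).const_mul w
  have h3 := Complex.reCLM.hasFDerivAt.comp_hasDerivAt ρ h2
  have e : Complex.reCLM (w * (Complex.exp (s * (Real.log ρ : ℂ)) * (s * ((ρ⁻¹ : ℝ) : ℂ)))) =
      Gc (w * s) (s - 1) ρ := by
    simp only [Gc, Complex.reCLM_apply]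
    rw [exp_sub_one hρ]
    congr 1
    push_cast
    ring
  rw [e] at h3
  exact h3

lemma Gc_shift (w s : ℂ) {ρ : ℝ} (hρ : 0 < ρ) (c : ℝ) :
    c * ρ * Gc w (s - 1) ρ = Gc (c * w) s ρ := by
  simp only [Gc]
  rw [exp_sub_one hρ]
  have e : (c : ℂ) * w * Complex.exp (s * (Real.log ρ : ℂ)) =
      ((c * ρ : ℝ) : ℂ) * (w * (Complex.exp (s * (Real.log ρ : ℂ)) * (ρ : ℂ)⁻¹)) := by
    have : (ρ : ℂ) ≠ 0 := by exact_mod_cast hρ.ne'
    push_cast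
    field_simp
  rw [e, Complex.re_ofReal_mul]

lemma Gc_add (w w' s : ℂ) (ρ : ℝ) : Gc w s ρ + Gc w' s ρ = Gc (w + w') s ρ := by
  simp only [Gc]; rw [add_mul, Complex.add_re]

lemma Gc_smul (w s : ℂ) (ρ : ℝ) (c : ℝ) : c * Gc w s ρ = Gc (c * w) s ρ := by
  simp only [Gc]; rw [mul_assoc, Complex.re_ofReal_mul]

lemma contDiffOn_Gc (w s : ℂ) : ContDiffOn ℝ ∞ (Gc w s) (Ioi 0) := by
  intro ρ hρ
  have hρ' : ρ ≠ 0 := (show (0 : ℝ) < ρ from hρ).ne'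
  apply ContDiffAt.contDiffWithinAt
  have h1 : ContDiffAt ℝ ∞ Real.log ρ := Real.contDiffAt_log.2 hρ'
  have h2 : ContDiffAt ℝ ∞ (fun t : ℝ => (Real.log t : ℂ)) ρ :=
    Complex.ofRealCLM.contDiff.contDiffAt.comp ρ h1
  have h3 : ContDiffAt ℝ ∞ (fun t : ℝ => w * Complex.exp (s * (Real.log t : ℂ))) ρ :=
    contDiffAt_const.mul (contDiffAt_const.mul h2).cexp
  exact Complex.reCLM.contDiff.contDiffAt.comp ρ h3

lemma deriv_Gc (w s : ℂ) {ρ : ℝ} (hρ : 0 < ρ) : deriv (Gc w s) ρ = Gc (w * s) (s - 1) ρ :=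
  (hasDerivAt_Gc w s hρ).deriv

lemma deriv2_Gc (w s : ℂ) {ρ : ℝ} (hρ : 0 < ρ) :
    deriv (deriv (Gc w s)) ρ = Gc (w * s * (s - 1)) (s - 1 - 1) ρ := by
  have e : deriv (Gc w s) =ᶠ[𝓝 ρ] Gc (w * s) (s - 1) := by
    filter_upwards [Ioi_mem_nhds hρ] with t ht
    exact deriv_Gc w s ht
  rw [e.deriv_eq, deriv_Gc _ _ hρ]

/-- the radial functions -/
noncomputable def Rc (w s : ℂ) (x : E 22) : ℝ := Gc w s (‖x‖ ^ 2)

lemma lap_Rc (w s : ℂ) {x : E 22} (hx : x ≠ 0) :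
    lap (Rc w s) x = Rc (w * (4 * (s * (s + 10)))) (s - 1) x := by
  have hρ : 0 < ‖x‖ ^ 2 := by positivity
  have h := lap_radial (n := 22) isOpen_Ioi (contDiffOn_Gc w s) 0 (x := x)
    (by rw [sub_zero]; exact hρ)
  simp only [sub_zero] at h
  have h' : lap (Rc w s) x = lap (fun y : E 22 => Gc w s (‖y‖ ^ 2)) x := rfl
  rw [h', h, deriv_Gc _ _ hρ, deriv2_Gc _ _ hρ, Gc_shift _ _ hρ, Gc_smul, Gc_add]
  simp only [Rc]
  congr 1
  push_cast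
  ring

lemma contDiffOn_Rc (w s : ℂ) : ContDiffOn ℝ ∞ (Rc w s) {0}ᶜ := by
  have h1 : ContDiff ℝ ∞ (fun x : E 22 => ‖x‖ ^ 2) := contDiff_norm_sq ℝ
  exact (contDiffOn_Gc w s).comp h1.contDiffOn (fun x hx => by
    have : x ≠ 0 := hx
    show 0 < ‖x‖ ^ 2
    positivity)

lemma lap4_Rc {s : ℂ} (hs : s * (s + 7) * (s * (s + 7) - 8) * (s * (s + 7) - 18) *
    (s * (s + 7) - 30) = -448875) {x : E 22} (hx : x ≠ 0) :
    lap (lap (lap (lap (Rc 1 s)))) x = -(114912000 * ((‖x‖ ^ 2) ^ 4)⁻¹) * Rc 1 s x := by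
  have hev : ∀ w s : ℂ, ∀ y : E 22, y ≠ 0 →
      lap (Rc w s) =ᶠ[𝓝 y] Rc (w * (4 * (s * (s + 10)))) (s - 1) := by
    intro w s y hy
    filter_upwards [isOpen_compl_singleton.mem_nhds hy] with z hz
    exact lap_Rc w s hz
  have hev2 : ∀ w s : ℂ, ∀ y : E 22, y ≠ 0 → lap (lap (Rc w s)) =ᶠ[𝓝 y]
      Rc (w * (4 * (s * (s + 10))) * (4 * ((s - 1) * (s - 1 + 10)))) (s - 1 - 1) := by
    intro w s y hy
    filter_upwards [isOpen_compl_singleton.mem_nhds hy] with z hz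
    rw [lap_congr (hev w s z hz), lap_Rc _ _ hz]
  have hev3 : ∀ w s : ℂ, ∀ y : E 22, y ≠ 0 → lap (lap (lap (Rc w s))) =ᶠ[𝓝 y]
      Rc (w * (4 * (s * (s + 10))) * (4 * ((s - 1) * (s - 1 + 10))) *
        (4 * ((s - 1 - 1) * (s - 1 - 1 + 10)))) (s - 1 - 1 - 1) := by
    intro w s y hy
    filter_upwards [isOpen_compl_singleton.mem_nhds hy] with z hz
    rw [lap_congr (hev2 w s z hz), lap_Rc _ _ hz]
  rw [lap_congr (hev3 1 s x hx), lap_Rc _ _ hx]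
  have e1 : (1 : ℂ) * (4 * (s * (s + 10))) * (4 * ((s - 1) * (s - 1 + 10))) *
        (4 * ((s - 1 - 1) * (s - 1 - 1 + 10))) *
        (4 * ((s - 1 - 1 - 1) * (s - 1 - 1 - 1 + 10))) = ((-114912000 : ℝ) : ℂ) := by
    have : (1 : ℂ) * (4 * (s * (s + 10))) * (4 * ((s - 1) * (s - 1 + 10))) *
        (4 * ((s - 1 - 1) * (s - 1 - 1 + 10))) *
        (4 * ((s - 1 - 1 - 1) * (s - 1 - 1 - 1 + 10))) =
        256 * (s * (s + 7) * (s * (s + 7) - 8) * (s * (s + 7) - 18) * (s * (s + 7) - 30)) := by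
      ring
    rw [this, hs]
    push_cast
    norm_num
  rw [e1]
  have hρ : 0 < ‖x‖ ^ 2 := by positivity
  have hρ' : ((‖x‖ ^ 2 : ℝ) : ℂ) ≠ 0 := by exact_mod_cast hρ.ne'
  simp only [Rc, Gc]
  rw [exp_sub_one hρ, exp_sub_one hρ, exp_sub_one hρ, exp_sub_one hρ, one_mul]
  have e2 : ((-114912000 : ℝ) : ℂ) * (Complex.exp (s * (Real.log (‖x‖ ^ 2) : ℂ)) *
      ((‖x‖ ^ 2 : ℝ) : ℂ)⁻¹ * ((‖x‖ ^ 2 : ℝ) : ℂ)⁻¹ * ((‖x‖ ^ 2 : ℝ) : ℂ)⁻¹ *
      ((‖x‖ ^ 2 : ℝ) : ℂ)⁻¹) = ((-(114912000 * ((‖x‖ ^ 2) ^ 4)⁻¹) : ℝ) : ℂ) *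
      Complex.exp (s * (Real.log (‖x‖ ^ 2) : ℂ)) := by
    push_cast
    field_simp
  rw [e2, Complex.re_ofReal_mul]

/-- derivative bounds for `Rc 1 s` -/
lemma Rc_bound (s : ℂ) (k : ℕ) : ∃ C : ℝ, 0 < C ∧ ∀ z : E 22, z ≠ 0 →
    ‖iteratedFDeriv ℝ k (Rc 1 s) z‖ ≤ C * ‖z‖ ^ (2 * s.re - k) := by
  set f : E 22 → ℂ := fun z => Complex.exp (s * (Real.log (‖z‖ ^ 2) : ℂ)) with hf
  have hfs : ContDiffOn ℝ ∞ f {0}ᶜ := by
    intro z hz
    have hz' : z ≠ 0 := hz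
    apply ContDiffAt.contDiffWithinAt
    have h1 : ContDiff ℝ ∞ (fun x : E 22 => ‖x‖ ^ 2) := contDiff_norm_sq ℝ
    have h2 : ContDiffAt ℝ ∞ (fun x : E 22 => Real.log (‖x‖ ^ 2)) z :=
      h1.contDiffAt.log (by positivity)
    have h3 : ContDiffAt ℝ ∞ (fun x : E 22 => (Real.log (‖x‖ ^ 2) : ℂ)) z :=
      Complex.ofRealCLM.contDiff.contDiffAt.comp z h2
    exact (contDiffAt_const.mul h3).cexp
  obtain ⟨C, hC, hb⟩ := hom_bound f hfs (fun t => Complex.exp (s * (Real.log (t ^ 2) : ℂ)))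
    (2 * s.re) (by
      intro t ht
      rw [Complex.norm_exp, Complex.re_mul_ofReal, Real.log_pow, Real.rpow_def_of_pos ht]
      congr 1; push_cast; ring) (by
      intro t ht z hz
      simp only [hf]
      rw [← Complex.exp_add, norm_smul, mul_pow, Real.norm_of_nonneg ht.le,
        Real.log_mul (by positivity) (by positivity)]
      congr 1; push_cast; ring) k
  refine ⟨C, hC, ?_⟩
  intro z hz
  have h1 : Rc 1 s = fun x => Complex.reCLM (f x) := by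
    ext x
    simp [Rc, Gc, hf]
  rw [h1]
  have h2 : ContDiffAt ℝ ∞ f z := hfs.contDiffAt (isOpen_compl_singleton.mem_nhds hz)
  have h3 := Complex.reCLM.iteratedFDeriv_comp_left (f := f) (x := z) h2 (i := k)
    (by exact_mod_cast le_top)
  have h4 : iteratedFDeriv ℝ k (fun x => Complex.reCLM (f x)) z =
      Complex.reCLM.compContinuousMultilinearMap (iteratedFDeriv ℝ k f z) := h3
  rw [h4]
  calc ‖Complex.reCLM.compContinuousMultilinearMap (iteratedFDeriv ℝ k f z)‖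
      ≤ ‖Complex.reCLM‖ * ‖iteratedFDeriv ℝ k f z‖ :=
        ContinuousLinearMap.norm_compContinuousMultilinearMap_le _ _
    _ = ‖iteratedFDeriv ℝ k f z‖ := by rw [Complex.reCLM_norm, one_mul]
    _ ≤ _ := hb z hz

end Pool.Agent.Helper676.GF
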