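import Pool.Agent.Helper676.GF1

set_option autoImplicit false

/-! Assembly of the perforated domain argument (deterministic part). -/

namespace Pool.Agent.Helper676.GF

open MeasureTheory Filter Topology Set Metric
open scoped ContDiff

/-- the capacitary potential of a hole -/
noncomputable def Hh (a : ℝ) (p : E 22) (x : E 22) : ℝ := hr (‖a⁻¹ • (x - p)‖ ^ 2)

lemma Hh_smooth {a : ℝ} (ha : 0 < a) (p : E 22) : ContDiffOn ℝ ∞ (Hh a p) {p}ᶜ := by
  apply smooth_hr.comp ((contDiff_id.sub contDiff_const).const_smul a⁻¹).contDiffOn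
  intro x hx
  simp only [mem_compl_iff, mem_singleton_iff, smul_eq_zero, inv_eq_zero, sub_eq_zero, not_or]
  exact ⟨ha.ne', hx⟩

lemma lap4_Hh {a : ℝ} (ha : 0 < a) (p : E 22) {x : E 22} (hx : x ≠ p) :
    lap4 (Hh a p) x = 0 := by
  have h := lap4_scale smooth_hr ha p hx
  have h2 : a⁻¹ • (x - p) ≠ 0 := by
    simp only [ne_eq, smul_eq_zero, inv_eq_zero, sub_eq_zero, not_or]
    exact ⟨ha.ne', hx⟩
  rw [lap4_hr h2, mul_zero] at h
  exact h

lemma lap4_zero_of {n : ℕ} {u : E n → ℝ} {x : E n} (h : u =ᶠ[𝓝 x] fun _ => 0) :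
    lap4 u x = 0 := by
  rw [lap4_congr h]
  have h0 : ContDiffOn ℝ ∞ (fun _ : E n => (0 : ℝ)) univ := contDiffOn_const
  have := lap4_lin isOpen_univ h0 h0 0 0 (mem_univ x)
  simpa using this

/-- the regular part near hole `k` -/
noncomputable def Rk {ι : Type*} [DecidableEq ι] (J : Finset ι) (p : ι → E 22) (a κ : ι → ℝ)
    (P : E 22 → ℝ) (k : ι) (x : E 22) : ℝ :=
  P x - κ k - ∑ l ∈ J.erase k, κ l * Hh (a l) (p l) x

/-- the outer part -/
noncomputable def Wk {ι : Type*} (J : Finset ι) (p : ι → E 22) (a κ : ι → ℝ)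
    (P : E 22 → ℝ) (x : E 22) : ℝ :=
  P x - ∑ l ∈ J, κ l * Hh (a l) (p l) x

lemma avoid_open {ι : Type*} (J : Finset ι) (p : ι → E 22) :
    IsOpen {x : E 22 | ∀ j ∈ J, x ≠ p j} := by
  have : {x : E 22 | ∀ j ∈ J, x ≠ p j} = ⋂ j ∈ J, {p j}ᶜ := by ext x; simp
  rw [this]
  exact isOpen_biInter_finset fun j _ => isOpen_compl_singleton

lemma sumH_smooth {ι : Type*} (J : Finset ι) (p : ι → E 22) (a κ : ι → ℝ)
    (ha : ∀ j ∈ J, 0 < a j) :
    ContDiffOn ℝ ∞ (fun x => ∑ l ∈ J, κ l * Hh (a l) (p l) x) {x : E 22 | ∀ j ∈ J, x ≠ p j} := by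
  apply ContDiffOn.sum
  intro j hj
  apply contDiffOn_const.mul
  apply (Hh_smooth (ha j hj) (p j)).mono
  intro x hx
  exact hx j hj

lemma Wk_smooth {ι : Type*} (J : Finset ι) (p : ι → E 22) (a κ : ι → ℝ)
    (ha : ∀ j ∈ J, 0 < a j) {P : E 22 → ℝ} (hP : ContDiff ℝ ∞ P) :
    ContDiffOn ℝ ∞ (Wk J p a κ P) {x : E 22 | ∀ j ∈ J, x ≠ p j} :=
  hP.contDiffOn.sub (sumH_smooth J p a κ ha)

lemma Rk_smooth {ι : Type*} [DecidableEq ι] (J : Finset ι) (p : ι → E 22) (a κ : ι → ℝ)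
    (ha : ∀ j ∈ J, 0 < a j) {P : E 22 → ℝ} (hP : ContDiff ℝ ∞ P) (k : ι) :
    ContDiffOn ℝ ∞ (Rk J p a κ P k) {x : E 22 | ∀ j ∈ J.erase k, x ≠ p j} :=
  (hP.sub contDiff_const).contDiffOn.sub
    (sumH_smooth (J.erase k) p a κ fun j hj => ha j (Finset.mem_of_mem_erase hj))

lemma Wk_sub_Rk {ι : Type*} [DecidableEq ι] (J : Finset ι) (p : ι → E 22) (a κ : ι → ℝ)
    (P : E 22 → ℝ) {k : ι} (hk : k ∈ J) (x : E 22) :
    Wk J p a κ P x - Rk J p a κ P k x = κ k * (1 - Hh (a k) (p k) x) := by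
  unfold Wk Rk
  rw [← Finset.add_sum_erase J (fun l => κ l * Hh (a l) (p l) x) hk]
  ring

lemma lap4_Wk {ι : Type*} (J : Finset ι) (p : ι → E 22) (a κ : ι → ℝ)
    (ha : ∀ j ∈ J, 0 < a j) {P : E 22 → ℝ} (hP : ContDiff ℝ ∞ P) {x : E 22}
    (hx : ∀ j ∈ J, x ≠ p j) : lap4 (Wk J p a κ P) x = lap4 P x := by
  have hO := avoid_open J p
  have h1 : Wk J p a κ P = fun y => 1 * P y + (-1) * (∑ l ∈ J, κ l * Hh (a l) (p l) y) := by
    ext y; unfold Wk; ring
  rw [h1, lap4_lin hO hP.contDiffOn (sumH_smooth J p a κ ha) 1 (-1) hx]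
  have h2 : ∀ j ∈ J, ContDiffOn ℝ ∞ (Hh (a j) (p j)) {x : E 22 | ∀ j ∈ J, x ≠ p j} :=
    fun j hj => (Hh_smooth (ha j hj) (p j)).mono fun x hx => hx j hj
  rw [lap4_sum J hO (u := fun l y => κ l * Hh (a l) (p l) y)
    (fun j hj => contDiffOn_const.mul (h2 j hj)) hx, Finset.sum_eq_zero]
  · ring
  · intro j hj
    have e : (fun y => κ j * Hh (a j) (p j) y) =
        fun y => κ j * Hh (a j) (p j) y + 0 * Hh (a j) (p j) y := by ext y; ring
    rw [e, lap4_lin hO (h2 j hj) (h2 j hj) _ _ hx, lap4_Hh (ha j hj) (p j) (hx j hj)]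
    ring

theorem assembly {ι : Type*} [DecidableEq ι] (J : Finset ι) (p : ι → E 22) (a κ : ι → ℝ)
    (ha : ∀ j ∈ J, 0 < a j) (hdisj : ∀ i ∈ J, ∀ j ∈ J, i ≠ j → 2 * a i + 2 * a j ≤ ‖p i - p j‖)
    {Ω : Set (E 22)} (hΩ : Ω = {x | ∀ j ∈ J, a j < ‖x - p j‖}) (hΩo : IsOpen Ω)
    {f u F P θ χ : E 22 → ℝ} (hs : Sol Ω f u)
    (hf : ∀ x, f x ≠ 0 → ∀ j ∈ J, 2 * a j ≤ ‖x - p j‖) {L : ℝ} (hL : 0 < L)
    (hfL : ∀ x, f x ≠ 0 → ‖x‖ ≤ L)
    (hF0 : ∀ x, 0 ≤ F x) (huF : ∀ x ∈ Ω, |u x| ≤ F x) (hP : ContDiff ℝ ∞ P)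
    (hθ : ContDiff ℝ ∞ θ) (hθ1 : ∀ x, ‖x‖ ≤ L → θ x = 1) (hθ0 : ∀ x, 2 * L ≤ ‖x‖ → θ x = 0)
    (hχ : ContDiff ℝ ∞ χ) (hχ1 : ∀ z, ‖z‖ ≤ 3 / 2 → χ z = 1) (hχ0 : ∀ z, 2 ≤ ‖z‖ → χ z = 0)
    (hpL : ∀ j ∈ J, ‖p j‖ + 2 * a j < L)
    (hPi : Integrable (fun x => F x * |lap4 P x|)) (M : ι → ℝ) (A : ℝ) (hA0 : 0 ≤ A)
    (hM0 : ∀ j ∈ J, 0 ≤ M j)
    (hM : ∀ j ∈ J, ∀ x, a j < ‖x - p j‖ → ‖x - p j‖ ≤ 2 * a j →
      F x * |lap4 (fun y => χ ((a j)⁻¹ • (y - p j)) * Rk J p a κ P j y) x| ≤ M j)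
    (hA : ∀ x, L ≤ ‖x‖ → ‖x‖ ≤ 2 * L →
      F x * |lap4 (fun y => θ y * Wk J p a κ P y) x| ≤ A) :
    |∫ x in Ω, f x * Wk J p a κ P x| ≤ (∫ x, F x * |lap4 P x|) +
      (∑ j ∈ J, volume.real (closedBall (p j) (2 * a j)) * M j +
        volume.real (closedBall (0 : E 22) (2 * L)) * A) := by
  classical
  set O : Set (E 22) := {x | ∀ j ∈ J, x ≠ p j} with hO
  have hOo : IsOpen O := avoid_open J p
  have hΩO : Ω ⊆ O := by
    intro x hx j hj h
    rw [hΩ] at hx
    have := hx j hj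
    rw [h, sub_self, norm_zero] at this
    linarith [ha j hj]
  have hnorm : ∀ j ∈ J, ∀ x, ‖(a j)⁻¹ • (x - p j)‖ = (a j)⁻¹ * ‖x - p j‖ := by
    intro j hj x
    rw [norm_smul, Real.norm_of_nonneg (inv_nonneg.2 (ha j hj).le)]
  have hχ0' : ∀ j ∈ J, ∀ x, 2 * a j ≤ ‖x - p j‖ → χ ((a j)⁻¹ • (x - p j)) = 0 := by
    intro j hj x hx
    apply hχ0
    rw [hnorm j hj, le_inv_mul_iff₀ (ha j hj)]
    linarith
  have hχ1' : ∀ j ∈ J, ∀ x, ‖x - p j‖ ≤ 3 / 2 * a j → χ ((a j)⁻¹ • (x - p j)) = 1 := by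
    intro j hj x hx
    apply hχ1
    rw [hnorm j hj, inv_mul_le_iff₀ (ha j hj)]
    linarith
  have hWs : ContDiffOn ℝ ∞ (Wk J p a κ P) O := Wk_smooth J p a κ ha hP
  have hRs : ∀ k, ContDiffOn ℝ ∞ (Rk J p a κ P k) O := fun k =>
    (Rk_smooth J p a κ ha hP k).mono fun x hx j hj => hx j (Finset.mem_of_mem_erase hj)
  have hθW : ContDiffOn ℝ ∞ (fun y => θ y * Wk J p a κ P y) O := hθ.contDiffOn.mul hWs
  have hχs : ∀ j, ContDiff ℝ ∞ (fun y => χ ((a j)⁻¹ • (y - p j))) := fun j =>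
    hχ.comp ((contDiff_id.sub contDiff_const).const_smul (a j)⁻¹)
  have hχR : ∀ j, ContDiffOn ℝ ∞ (fun y => χ ((a j)⁻¹ • (y - p j)) * Rk J p a κ P j y) O :=
    fun j => (hχs j).contDiffOn.mul (hRs j)
  set Ψ : E 22 → ℝ := fun x => θ x * Wk J p a κ P x -
    ∑ j ∈ J, χ ((a j)⁻¹ • (x - p j)) * Rk J p a κ P j x with hΨ
  have hΨs : ContDiffOn ℝ ∞ Ψ O := hθW.sub (ContDiffOn.sum fun j _ => hχR j)
  have hΨL : ∀ x, 2 * L ≤ ‖x‖ → Ψ x = 0 := by
    intro x hx
    simp only [hΨ]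
    rw [hθ0 x hx, zero_mul, Finset.sum_eq_zero, sub_zero]
    intro j hj
    rw [hχ0' j hj x, zero_mul]
    have h1 := norm_sub_norm_le x (p j)
    have h2 := hpL j hj
    have h3 := norm_nonneg (p j)
    linarith
  have hΨh : ∀ j ∈ J, ∀ x, x ≠ p j → ‖x - p j‖ ≤ 3 / 2 * a j →
      Ψ x = κ j * (1 - hr (‖(a j)⁻¹ • (x - p j)‖ ^ 2)) := by
    intro j hj x _ hx
    simp only [hΨ]
    have h1 : θ x = 1 := by
      apply hθ1
      have h1 := norm_sub_norm_le x (p j)
      have h2 := hpL j hj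
      have h3 := ha j hj
      linarith
    rw [h1, one_mul, Finset.sum_eq_single_of_mem j hj, hχ1' j hj x hx, one_mul,
      Wk_sub_Rk J p a κ P hj x]
    · rfl
    · intro k hk hkj
      rw [hχ0' k hk x, zero_mul]
      have h2 := hdisj k hk j hj hkj
      have h3 : ‖p k - p j‖ ≤ ‖x - p j‖ + ‖x - p k‖ := by
        calc ‖p k - p j‖ = ‖(x - p j) - (x - p k)‖ := by congr 1; abel
          _ ≤ _ := norm_sub_le _ _
      have h4 := ha j hj
      linarith
  have hweak := weak_ext J p a κ ha hdisj hΩ hΩo hs hf hΨs (L0 := 2 * L) hΨL hΨh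
  have hfΨ : ∫ x in Ω, f x * Wk J p a κ P x = ∫ x in Ω, f x * Ψ x := by
    congr 1
    ext x
    by_cases h : f x = 0
    · rw [h, zero_mul, zero_mul]
    · simp only [hΨ]
      rw [hθ1 x (hfL x h), one_mul, Finset.sum_eq_zero, sub_zero]
      intro j hj
      rw [hχ0' j hj x (hf x h j hj), zero_mul]
  rw [hfΨ, ← hweak]
  -- the dominating function
  set G : E 22 → ℝ := fun x => F x * |lap4 P x| +
    (∑ j ∈ J, (closedBall (p j) (2 * a j)).indicator (fun _ => M j) x +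
      (closedBall (0 : E 22) (2 * L)).indicator (fun _ => A) x) with hG
  have hi1 : ∀ j ∈ J, Integrable (fun x => (closedBall (p j) (2 * a j)).indicator
      (fun _ => M j) x) := by
    intro j _
    rw [integrable_indicator_iff measurableSet_closedBall]
    exact integrableOn_const measure_closedBall_lt_top.ne
  have hi2 : Integrable (fun x => (closedBall (0 : E 22) (2 * L)).indicator (fun _ => A) x) := by
    rw [integrable_indicator_iff measurableSet_closedBall]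
    exact integrableOn_const measure_closedBall_lt_top.ne
  have hi3 : Integrable (fun x => ∑ j ∈ J, (closedBall (p j) (2 * a j)).indicator
      (fun _ => M j) x) := integrable_finsetSum J hi1
  have hGi : Integrable G := hPi.add (hi3.add hi2)
  have hG0 : ∀ x, 0 ≤ G x := by
    intro x
    simp only [hG]
    have h1 : 0 ≤ F x * |lap4 P x| := mul_nonneg (hF0 x) (abs_nonneg _)
    have h2 : 0 ≤ ∑ j ∈ J, (closedBall (p j) (2 * a j)).indicator (fun _ => M j) x :=
      Finset.sum_nonneg fun j hj => Set.indicator_nonneg (fun _ _ => hM0 j hj) x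
    have h3 : 0 ≤ (closedBall (0 : E 22) (2 * L)).indicator (fun _ => A) x :=
      Set.indicator_nonneg (fun _ _ => hA0) x
    linarith
  have hpt : ∀ x ∈ Ω, ‖u x * lap4 Ψ x‖ ≤ G x := by
    intro x hx
    have hxO : x ∈ O := hΩO hx
    have h1 : lap4 Ψ x = lap4 (fun y => θ y * Wk J p a κ P y) x -
        ∑ j ∈ J, lap4 (fun y => χ ((a j)⁻¹ • (y - p j)) * Rk J p a κ P j y) x := by
      have e : Ψ = fun y => 1 * (θ y * Wk J p a κ P y) +
          (-1) * (∑ j ∈ J, χ ((a j)⁻¹ • (y - p j)) * Rk J p a κ P j y) := by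
        ext y; simp only [hΨ]; ring
      rw [e, lap4_lin hOo hθW (ContDiffOn.sum fun j _ => hχR j) 1 (-1) hxO,
        lap4_sum J hOo (fun j _ => hχR j) hxO]
      ring
    have h2 : F x * |lap4 (fun y => θ y * Wk J p a κ P y) x| ≤ F x * |lap4 P x| +
        (closedBall (0 : E 22) (2 * L)).indicator (fun _ => A) x := by
      have hnn : 0 ≤ F x * |lap4 P x| := mul_nonneg (hF0 x) (abs_nonneg _)
      have hnn2 : 0 ≤ (closedBall (0 : E 22) (2 * L)).indicator (fun _ => A) x :=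
        Set.indicator_nonneg (fun _ _ => hA0) x
      rcases lt_or_ge ‖x‖ L with hxL | hxL
      · have e : (fun y => θ y * Wk J p a κ P y) =ᶠ[𝓝 x] Wk J p a κ P := by
          have : ball (0 : E 22) L ∈ 𝓝 x := isOpen_ball.mem_nhds (by simpa using hxL)
          filter_upwards [this] with y hy
          rw [hθ1 y (by simpa using (mem_ball_zero_iff.1 hy).le), one_mul]
        rw [lap4_congr e, lap4_Wk J p a κ ha hP hxO]
        linarith
      · rcases le_or_gt ‖x‖ (2 * L) with hx2 | hx2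
        · rw [Set.indicator_of_mem (by simpa using hx2)]
          have := hA x hxL hx2
          linarith
        · have e : (fun y => θ y * Wk J p a κ P y) =ᶠ[𝓝 x] fun _ => 0 := by
            have : {y : E 22 | 2 * L < ‖y‖} ∈ 𝓝 x :=
              (isOpen_lt continuous_const continuous_norm).mem_nhds hx2
            filter_upwards [this] with y hy
            rw [hθ0 y (le_of_lt hy), zero_mul]
          rw [lap4_zero_of e, abs_zero, mul_zero]
          linarith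
    have h3 : ∀ j ∈ J, F x * |lap4 (fun y => χ ((a j)⁻¹ • (y - p j)) * Rk J p a κ P j y) x| ≤
        (closedBall (p j) (2 * a j)).indicator (fun _ => M j) x := by
      intro j hj
      rcases le_or_gt ‖x - p j‖ (2 * a j) with hx2 | hx2
      · rw [Set.indicator_of_mem (by simpa [dist_eq_norm] using hx2)]
        rw [hΩ] at hx
        exact hM j hj x (hx j hj) hx2
      · have e : (fun y => χ ((a j)⁻¹ • (y - p j)) * Rk J p a κ P j y) =ᶠ[𝓝 x] fun _ => 0 := by
          have : {y : E 22 | 2 * a j < ‖y - p j‖} ∈ 𝓝 x :=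
            (isOpen_lt continuous_const (continuous_id.sub continuous_const).norm).mem_nhds hx2
          filter_upwards [this] with y hy
          rw [hχ0' j hj y (le_of_lt hy), zero_mul]
        rw [lap4_zero_of e, abs_zero, mul_zero]
        exact Set.indicator_nonneg (fun _ _ => hM0 j hj) x
    rw [norm_mul, Real.norm_eq_abs, Real.norm_eq_abs, h1]
    calc |u x| * |lap4 (fun y => θ y * Wk J p a κ P y) x -
          ∑ j ∈ J, lap4 (fun y => χ ((a j)⁻¹ • (y - p j)) * Rk J p a κ P j y) x|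
        ≤ F x * (|lap4 (fun y => θ y * Wk J p a κ P y) x| +
          ∑ j ∈ J, |lap4 (fun y => χ ((a j)⁻¹ • (y - p j)) * Rk J p a κ P j y) x|) := by
          apply mul_le_mul (huF x hx) _ (abs_nonneg _) (hF0 x)
          refine (abs_sub _ _).trans ?_
          gcongr
          exact Finset.abs_sum_le_sum_abs _ _
      _ = F x * |lap4 (fun y => θ y * Wk J p a κ P y) x| +
          ∑ j ∈ J, F x * |lap4 (fun y => χ ((a j)⁻¹ • (y - p j)) * Rk J p a κ P j y) x| := by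
          rw [mul_add, Finset.mul_sum]
      _ ≤ (F x * |lap4 P x| + (closedBall (0 : E 22) (2 * L)).indicator (fun _ => A) x) +
          ∑ j ∈ J, (closedBall (p j) (2 * a j)).indicator (fun _ => M j) x :=
          add_le_add h2 (Finset.sum_le_sum h3)
      _ = G x := by simp only [hG]; ring
  calc |∫ x in Ω, u x * lap4 Ψ x| ≤ ∫ x in Ω, ‖u x * lap4 Ψ x‖ := by
        rw [← Real.norm_eq_abs]; exact norm_integral_le_integral_norm _
    _ ≤ ∫ x in Ω, G x := by
        apply integral_mono_of_nonneg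
        · exact Eventually.of_forall fun x => norm_nonneg _
        · exact hGi.integrableOn
        · rw [EventuallyLE, ae_restrict_iff' hΩo.measurableSet]
          exact Eventually.of_forall hpt
    _ ≤ ∫ x, G x := setIntegral_le_integral hGi (Eventually.of_forall hG0)
    _ = _ := by
        have e1 : ∫ x, G x = (∫ x, F x * |lap4 P x|) +
            ∫ x, (∑ j ∈ J, (closedBall (p j) (2 * a j)).indicator (fun _ => M j) x +
              (closedBall (0 : E 22) (2 * L)).indicator (fun _ => A) x) :=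
          integral_add hPi (hi3.add hi2)
        rw [e1, integral_add hi3 hi2, integral_finsetSum J hi1]
        congr 1
        congr 1
        · apply Finset.sum_congr rfl
          intro j _
          rw [integral_indicator measurableSet_closedBall, setIntegral_const, smul_eq_mul]
        · rw [integral_indicator measurableSet_closedBall, setIntegral_const, smul_eq_mul]

end Pool.Agent.Helper676.GF
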