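import Pool.Agent.Helper676.GFC
import Pool.Agent.Helper676.GF1

set_option autoImplicit false

/-! Proved by helper471 (job JJ). -/

namespace Pool.Agent.Helper676.GF

open MeasureTheory Filter Topology Set Metric
open scoped ContDiff

theorem norm_scale_le {n : ℕ} (F : E n → ℝ) (c : ℝ) (hc : c ≠ 0) (k : ℕ) (x : E n) :
    ‖iteratedFDeriv ℝ k (fun y => F (c • y)) x‖ ≤ |c| ^ k * ‖iteratedFDeriv ℝ k F (c • x)‖ := by
  let g : E n ≃L[ℝ] E n := ContinuousLinearEquiv.smulLeft (Units.mk0 c hc)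
  have hg : ∀ y, g y = c • y := fun y => rfl
  have h1 : iteratedFDeriv ℝ k (fun y => F (c • y)) x =
      (iteratedFDeriv ℝ k F (c • x)).compContinuousLinearMap fun _ => (g : E n →L[ℝ] E n) := by
    simp only [← iteratedFDerivWithin_univ]
    exact g.iteratedFDerivWithin_comp_right F uniqueDiffOn_univ (mem_univ (g x)) k
  have h2 : ‖(g : E n →L[ℝ] E n)‖ ≤ |c| := by
    refine ContinuousLinearMap.opNorm_le_bound _ (abs_nonneg c) fun y => ?_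
    rw [ContinuousLinearEquiv.coe_coe, hg, norm_smul, Real.norm_eq_abs]
  rw [h1]
  refine (ContinuousMultilinearMap.norm_compContinuousLinearMap_le _ _).trans ?_
  rw [Finset.prod_const, Finset.card_univ, Fintype.card_fin, mul_comm]
  gcongr

theorem contDiffOn_inv_pow (m : ℕ) : ContDiffOn ℝ ∞ (fun z : E 22 => ((‖z‖ ^ 2) ^ m)⁻¹) {0}ᶜ := by
  intro z hz
  have hz' : z ≠ 0 := hz
  refine ContDiffWithinAt.inv ?_ ?_
  · exact (((contDiff_norm_sq ℝ).pow m).contDiffAt).contDiffWithinAt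
  · positivity

theorem hr_bound (k : ℕ) : ∃ C : ℝ, 0 < C ∧ ∀ z : E 22, 1 ≤ ‖z‖ →
    ‖iteratedFDeriv ℝ k (fun y => hr (‖y‖ ^ 2)) z‖ ≤ C * (‖z‖ ^ (14 + k))⁻¹ := by
  have hb : ∀ m : ℕ, 7 ≤ m → ∃ C : ℝ, 0 < C ∧ ∀ z : E 22, 1 ≤ ‖z‖ →
      ‖iteratedFDeriv ℝ k (fun z : E 22 => ((‖z‖ ^ 2) ^ m)⁻¹) z‖ ≤ C * (‖z‖ ^ (14 + k))⁻¹ := by
    intro m hm
    obtain ⟨C, hC, h⟩ := hom_bound_real (fun z : E 22 => ((‖z‖ ^ 2) ^ m)⁻¹)
      (contDiffOn_inv_pow m) (2 * m) (by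
        intro t ht z hz
        show ((‖t • z‖ ^ 2) ^ m)⁻¹ = (t ^ (2 * m))⁻¹ * ((‖z‖ ^ 2) ^ m)⁻¹
        rw [norm_smul, Real.norm_eq_abs, abs_of_pos ht, mul_pow, mul_pow, mul_inv, ← pow_mul]) k
    refine ⟨C, hC, fun z hz => (h z (by intro h0; rw [h0, norm_zero] at hz; linarith)).trans ?_⟩
    have h0 : (0:ℝ) < ‖z‖ := by linarith
    gcongr
    · omega
  obtain ⟨C7, hC7, h7⟩ := hb 7 (by norm_num)
  obtain ⟨C8, hC8, h8⟩ := hb 8 (by norm_num)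
  obtain ⟨C9, hC9, h9⟩ := hb 9 (by norm_num)
  obtain ⟨C10, hC10, h10⟩ := hb 10 (by norm_num)
  refine ⟨120 * C7 + 315 * C8 + 280 * C9 + 84 * C10, by positivity, fun z hz => ?_⟩
  have hz0 : z ≠ 0 := by intro h0; rw [h0, norm_zero] at hz; linarith
  have hopen : IsOpen ({0}ᶜ : Set (E 22)) := isOpen_compl_singleton
  have cd : ∀ m : ℕ, ContDiffAt ℝ (k : ℕ∞) (fun z : E 22 => ((‖z‖ ^ 2) ^ m)⁻¹) z := fun m =>
    (((contDiffOn_inv_pow m).contDiffAt (hopen.mem_nhds hz0)).of_le (by exact_mod_cast le_top))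
  set f : ℕ → E 22 → ℝ := fun m z => ((‖z‖ ^ 2) ^ m)⁻¹ with hf
  have e : (fun y : E 22 => hr (‖y‖ ^ 2)) =
      ((120:ℝ) • f 7 + (-315:ℝ) • f 8) + ((280:ℝ) • f 9 + (-84 : ℝ) • f 10) := by
    funext y
    simp only [hf, hr, Pi.add_apply, Pi.smul_apply, smul_eq_mul]
    ring
  have c1 : ∀ (c : ℝ) (m : ℕ), ContDiffAt ℝ (k : ℕ∞) (c • f m) z := fun c m =>
    (cd m).const_smul c
  have c2 : ∀ (c c' : ℝ) (m m' : ℕ), ContDiffAt ℝ (k : ℕ∞) (c • f m + c' • f m') z :=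
    fun c c' m m' => (c1 c m).add (c1 c' m')
  rw [e, iteratedFDeriv_add_apply (c2 _ _ _ _) (c2 _ _ _ _),
    iteratedFDeriv_add_apply (c1 _ _) (c1 _ _), iteratedFDeriv_add_apply (c1 _ _) (c1 _ _),
    iteratedFDeriv_const_smul_apply (cd _), iteratedFDeriv_const_smul_apply (cd _),
    iteratedFDeriv_const_smul_apply (cd _), iteratedFDeriv_const_smul_apply (cd _)]
  refine (norm_add_le _ _).trans ?_
  refine (add_le_add (norm_add_le _ _) (norm_add_le _ _)).trans ?_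
  rw [norm_smul, norm_smul, norm_smul, norm_smul]
  have e7 := h7 z hz
  have e8 := h8 z hz
  have e9 := h9 z hz
  have e10 := h10 z hz
  have n1 : ‖(120:ℝ)‖ = 120 := by norm_num
  have n2 : ‖(-315:ℝ)‖ = 315 := by norm_num
  have n3 : ‖(280:ℝ)‖ = 280 := by norm_num
  have n4 : ‖(-84:ℝ)‖ = 84 := by norm_num
  rw [n1, n2, n3, n4]
  nlinarith [e7, e8, e9, e10]

theorem hole_bound (k : ℕ) : ∃ C : ℝ, 0 < C ∧ ∀ (a : ℝ) (p x : E 22), 0 < a → a ≤ ‖x - p‖ →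
    ‖iteratedFDeriv ℝ k (fun y => hr (‖a⁻¹ • (y - p)‖ ^ 2)) x‖ ≤
      C * (a ^ 14 * ((‖x - p‖ ^ 2) ^ 7)⁻¹) * (‖x - p‖ ^ k)⁻¹ := by
  obtain ⟨C, hC, h⟩ := hr_bound k
  refine ⟨C, hC, fun a p x ha hx => ?_⟩
  have e1 : iteratedFDeriv ℝ k (fun y => hr (‖a⁻¹ • (y - p)‖ ^ 2)) x =
      iteratedFDeriv ℝ k (fun y : E 22 => hr (‖a⁻¹ • y‖ ^ 2)) (x - p) :=
    iteratedFDeriv_comp_sub (f := fun y : E 22 => hr (‖a⁻¹ • y‖ ^ 2)) k p x
  rw [e1]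
  refine (norm_scale_le (fun y : E 22 => hr (‖y‖ ^ 2)) a⁻¹ (by positivity) k (x - p)).trans ?_
  have hn : ‖a⁻¹ • (x - p)‖ = a⁻¹ * ‖x - p‖ := by
    rw [norm_smul, Real.norm_eq_abs, abs_of_pos (by positivity)]
  have hz : 1 ≤ ‖a⁻¹ • (x - p)‖ := by
    rw [hn, inv_mul_eq_div, le_div_iff₀ ha]; linarith
  have h2 := h _ hz
  rw [abs_of_pos (show 0 < a⁻¹ by positivity)]
  refine (mul_le_mul_of_nonneg_left h2 (by positivity)).trans (le_of_eq ?_)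
  rw [hn]
  have hx0 : 0 < ‖x - p‖ := by linarith
  have hxn : ‖x - p‖ ≠ 0 := hx0.ne'
  have hane : a ≠ 0 := ha.ne'
  generalize ‖x - p‖ = r at *
  rw [mul_pow, pow_add, pow_add, ← pow_mul, inv_pow, inv_pow]
  field_simp

theorem hole_value (a : ℝ) (p x : E 22) (ha : 0 < a) (hx : a ≤ ‖x - p‖) :
    |hr (‖a⁻¹ • (x - p)‖ ^ 2) - 120 * a ^ 14 * ((‖x - p‖ ^ 2) ^ 7)⁻¹| ≤
      679 * (a ^ 2 / ‖x - p‖ ^ 2) * (a ^ 14 * ((‖x - p‖ ^ 2) ^ 7)⁻¹) := by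
  have hn : ‖a⁻¹ • (x - p)‖ = a⁻¹ * ‖x - p‖ := by
    rw [norm_smul, Real.norm_eq_abs, abs_of_pos (by positivity)]
  have hx0 : 0 < ‖x - p‖ := by linarith
  rw [hn]
  set t : ℝ := a ^ 2 / ‖x - p‖ ^ 2 with ht
  have ht0 : 0 ≤ t := by positivity
  have ht1 : t ≤ 1 := by
    rw [ht, div_le_one (by positivity)]
    gcongr
  have e1 : hr ((a⁻¹ * ‖x - p‖) ^ 2) = 120 * t ^ 7 - 315 * t ^ 8 + 280 * t ^ 9 - 84 * t ^ 10 := by
    have hi : (a⁻¹ * ‖x - p‖) ^ 2 = t⁻¹ := by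
      rw [ht]; field_simp
    rw [hi, hr]
    simp only [inv_pow, inv_inv]
  have e2 : a ^ 14 * ((‖x - p‖ ^ 2) ^ 7)⁻¹ = t ^ 7 := by
    rw [ht, div_pow, ← pow_mul, ← pow_mul, div_eq_mul_inv]
  rw [e1, mul_assoc 120, e2]
  have t7 : 0 ≤ t ^ 7 := by positivity
  have t8 : 0 ≤ t ^ 8 := by positivity
  have h9 : t ^ 9 ≤ t ^ 8 := pow_le_pow_of_le_one ht0 ht1 (by norm_num)
  have h10 : t ^ 10 ≤ t ^ 8 := pow_le_pow_of_le_one ht0 ht1 (by norm_num)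
  have t9 : 0 ≤ t ^ 9 := by positivity
  have t10 : 0 ≤ t ^ 10 := by positivity
  have e3 : 679 * t * t ^ 7 = 679 * t ^ 8 := by ring
  rw [e3, abs_le]
  constructor <;> linarith

theorem scale_bound {χ : E 22 → ℝ} (hχ : ContDiff ℝ ∞ χ) (hc : HasCompactSupport χ) (i : ℕ) :
    ∃ C : ℝ, 0 < C ∧ ∀ (a : ℝ) (p x : E 22), 0 < a →
      ‖iteratedFDeriv ℝ i (fun y => χ (a⁻¹ • (y - p))) x‖ ≤ C * (a ^ i)⁻¹ := by
  have hcont : Continuous (fun z => iteratedFDeriv ℝ i χ z) :=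
    hχ.continuous_iteratedFDeriv (by exact_mod_cast le_top)
  have hsupp : HasCompactSupport (fun z => iteratedFDeriv ℝ i χ z) := hc.iteratedFDeriv i
  obtain ⟨C, hC⟩ := hsupp.exists_bound_of_continuous hcont
  refine ⟨|C| + 1, by positivity, fun a p x ha => ?_⟩
  have e1 : iteratedFDeriv ℝ i (fun y => χ (a⁻¹ • (y - p))) x =
      iteratedFDeriv ℝ i (fun y : E 22 => χ (a⁻¹ • y)) (x - p) :=
    iteratedFDeriv_comp_sub (f := fun y : E 22 => χ (a⁻¹ • y)) i p x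
  rw [e1]
  refine (norm_scale_le χ a⁻¹ (by positivity) i (x - p)).trans ?_
  rw [abs_of_pos (show 0 < a⁻¹ by positivity), inv_pow, mul_comm]
  gcongr
  have := hC (a⁻¹ • (x - p))
  have h3 := le_abs_self C
  linarith

end Pool.Agent.Helper676.GF
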