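import Pool.Agent.Helper676.GFB
import Pool.Agent.Helper676.GFJ
import Pool.Agent.Helper676.GF4

set_option autoImplicit false

/-! Estimates near the holes. -/

namespace Pool.Agent.Helper676.GF

open MeasureTheory Filter Topology Set Metric
open scoped ContDiff

/-- radii of the holes -/
noncomputable def rad (c0 : ℝ) (V : E 22 → ℝ) (ε : ℝ) (k : Fin 22 → ℤ) : ℝ :=
  (V (pt ε k) * ε ^ 22 / (120 * c0)) ^ ((1 : ℝ) / 14)

lemma rad_pow {c0 : ℝ} (hc0 : 0 < c0) {V : E 22 → ℝ} (hV : ∀ x, 0 ≤ V x) {ε : ℝ} (hε : 0 < ε)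
    (k : Fin 22 → ℤ) : rad c0 V ε k ^ 14 = V (pt ε k) * ε ^ 22 / (120 * c0) := by
  unfold rad
  have h := hV (pt ε k)
  rw [← Real.rpow_natCast, ← Real.rpow_mul (by positivity)]
  norm_num

lemma rad_pos {c0 : ℝ} (hc0 : 0 < c0) {V : E 22 → ℝ} {ε : ℝ} (hε : 0 < ε)
    {k : Fin 22 → ℤ} (hk : 0 < V (pt ε k)) : 0 < rad c0 V ε k := by
  unfold rad
  apply Real.rpow_pos_of_pos
  positivity

lemma rad_nonneg {c0 : ℝ} (hc0 : 0 < c0) {V : E 22 → ℝ} (hV : ∀ x, 0 ≤ V x) {ε : ℝ} (hε : 0 < ε)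
    (k : Fin 22 → ℤ) : 0 ≤ rad c0 V ε k := by
  unfold rad
  apply Real.rpow_nonneg
  have := hV (pt ε k)
  positivity

lemma rad_le {c0 : ℝ} (hc0 : 0 < c0) {V : E 22 → ℝ} (hV : ∀ x, 0 ≤ V x) {Vm : ℝ} {ε : ℝ}
    (hε : 0 < ε) {k : Fin 22 → ℤ} (hk : V (pt ε k) ≤ Vm) {q : ℝ} (hq : 0 < q)
    (h : Vm * ε ^ 8 / (120 * c0) ≤ q ^ 14) : rad c0 V ε k ≤ q * ε := by
  apply le_of_pow_le_pow_left₀ (n := 14) (by norm_num) (by positivity)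
  rw [rad_pow hc0 hV hε k]
  calc V (pt ε k) * ε ^ 22 / (120 * c0) ≤ Vm * ε ^ 22 / (120 * c0) := by gcongr
    _ = Vm * ε ^ 8 / (120 * c0) * ε ^ 14 := by ring
    _ ≤ q ^ 14 * ε ^ 14 := by gcongr
    _ = (q * ε) ^ 14 := by ring

lemma small_eps (c0 Vm q : ℝ) (hq : 0 < q) : ∃ ε0 > 0, ∀ ε, 0 < ε → ε < ε0 →
    Vm * ε ^ 8 / (120 * c0) ≤ q ^ 14 := by
  have h : Tendsto (fun ε : ℝ => Vm * ε ^ 8 / (120 * c0)) (𝓝 0) (𝓝 (Vm * 0 ^ 8 / (120 * c0))) := by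
    apply Continuous.tendsto
    fun_prop
  have h2 : Vm * 0 ^ 8 / (120 * c0) < q ^ 14 := by
    have : 0 < q ^ 14 := by positivity
    simpa using this
  have h3 := h.eventually_lt_const h2
  obtain ⟨ε0, h0, h1⟩ := Metric.eventually_nhds_iff.1 h3
  refine ⟨ε0, h0, fun ε hε hε0 => (h1 ?_).le⟩
  rw [Real.dist_eq, sub_zero, abs_of_pos hε]
  exact hε0

lemma pt_dist {ε : ℝ} (hε : 0 < ε) {k l : Fin 22 → ℤ} (h : k ≠ l) : ε ≤ ‖pt ε k - pt ε l‖ := by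
  obtain ⟨i, hi⟩ := Function.ne_iff.1 h
  have h1 : ‖(pt ε k - pt ε l) i‖ ≤ ‖pt ε k - pt ε l‖ := PiLp.norm_apply_le _ i
  have h2 : (pt ε k - pt ε l) i = ε * ((k i : ℝ) - l i) := by
    simp [pt]; ring
  rw [h2, norm_mul, Real.norm_of_nonneg hε.le] at h1
  have h3 : (1 : ℝ) ≤ ‖(k i : ℝ) - l i‖ := by
    rw [Real.norm_eq_abs]
    have : (1 : ℤ) ≤ |k i - l i| := Int.one_le_abs (sub_ne_zero.2 hi)
    exact_mod_cast this
  nlinarith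

/-- data of the argument -/
structure Dat (c0 : ℝ) (Φc V N : E 22 → ℝ) (Vm Mf Rf : ℝ) : Prop where
  c0pos : 0 < c0
  V0 : ∀ x, 0 ≤ V x
  VVm : ∀ x, Φc x ≠ 0 → V x ≤ Vm
  Vm0 : 0 ≤ Vm
  Φs : ContDiff ℝ ∞ Φc
  Φcs : HasCompactSupport Φc
  Φb : ∀ x, |Φc x| ≤ Mf
  ΦR : ∀ x, Rf ≤ ‖x‖ → Φc x = 0
  Rf1 : 1 ≤ Rf
  gs : ContDiff ℝ ∞ (fun x => V x * Φc x)
  Ns : ContDiff ℝ ∞ N
  Nv : ∀ x, N x = c0⁻¹ * ∫ y, (V y * Φc y) * ((‖x - y‖ ^ 2) ^ 7)⁻¹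
  N4 : ∀ x, lap4 N x = V x * Φc x
  Nd : ∀ k : ℕ, ∃ C : ℝ, 0 < C ∧ ∀ x, 2 * Rf ≤ ‖x‖ →
          ‖iteratedFDeriv ℝ k N x‖ ≤ C * ((‖x‖ ^ 2) ^ 7)⁻¹

/-- the centers -/
def IsJ (Φc V : E 22 → ℝ) (ε : ℝ) (J : Finset (Fin 22 → ℤ)) : Prop :=
  ∀ k, k ∈ J ↔ V (pt ε k) * Φc (pt ε k) ≠ 0

lemma Dat.memJ {c0 : ℝ} {Φc V N : E 22 → ℝ} {Vm Mf Rf : ℝ} (D : Dat c0 Φc V N Vm Mf Rf)
    {ε : ℝ} {J : Finset (Fin 22 → ℤ)} (hJ : IsJ Φc V ε J) {k : Fin 22 → ℤ} (hk : k ∈ J) :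
    0 < V (pt ε k) ∧ V (pt ε k) ≤ Vm ∧ ‖pt ε k‖ ≤ Rf := by
  have h := (hJ k).1 hk
  have h1 : V (pt ε k) ≠ 0 := left_ne_zero_of_mul h
  have h2 : Φc (pt ε k) ≠ 0 := right_ne_zero_of_mul h
  refine ⟨lt_of_le_of_ne (D.V0 _) (Ne.symm h1), D.VVm _ h2, ?_⟩
  by_contra h3
  exact h2 (D.ΦR _ (le_of_lt (not_le.1 h3)))

/-- approximation of the potential -/
lemma pot_approx {c0 : ℝ} {Φc V N : E 22 → ℝ} {Vm Mf Rf : ℝ} (D : Dat c0 Φc V N Vm Mf Rf) :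
    ∀ η > 0, ∃ ε0 > 0, ∀ ε, 0 < ε → ε < ε0 → ∀ J, IsJ Φc V ε J → ∀ x,
      |N x - ∑ l ∈ J.filter (fun l => ε / 2 ≤ ‖x - pt ε l‖),
        Φc (pt ε l) * Hh (rad c0 V ε l) (pt ε l) x| ≤ η := by
  intro η hη
  have hc0 := D.c0pos
  have hMf : 0 ≤ Mf := (abs_nonneg _).trans (D.Φb 0)
  have hVm := D.Vm0
  obtain ⟨Cl, hCl0, hCl⟩ := lattice_bound Rf
  set B : ℝ := Mf * 679 * 4 * (Vm / (120 * c0)) * Cl with hB
  have hB0 : 0 ≤ B := by positivity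
  obtain ⟨q, hq, hq2, hqB⟩ : ∃ q : ℝ, 0 < q ∧ q ≤ 1 / 2 ∧ B * q ^ 2 ≤ η / 2 := by
    refine ⟨min (1 / 2) (η / (B + 1)), by positivity, min_le_left _ _, ?_⟩
    have h1 : min (1 / 2) (η / (B + 1)) ≤ 1 / 2 := min_le_left _ _
    have h2 : min (1 / 2) (η / (B + 1)) ≤ η / (B + 1) := min_le_right _ _
    have h0 : 0 < min (1 / 2) (η / (B + 1)) := by positivity
    calc B * min (1 / 2) (η / (B + 1)) ^ 2
        = B * (min (1 / 2) (η / (B + 1)) * min (1 / 2) (η / (B + 1))) := by ring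
      _ ≤ B * ((1 / 2) * (η / (B + 1))) := by gcongr
      _ = (B / (B + 1)) * (η / 2) := by field_simp
      _ ≤ 1 * (η / 2) := by
          gcongr
          rw [div_le_one (by positivity)]; linarith
      _ = η / 2 := one_mul _
  obtain ⟨ε1, hε1, h1⟩ := small_eps c0 Vm q hq
  have hgc : HasCompactSupport (fun x => V x * Φc x) := D.Φcs.mul_left
  obtain ⟨ε2, hε2, h2⟩ := riemann (fun x => V x * Φc x) D.gs.continuous hgc (c0 * (η / 2))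
    (by positivity)
  refine ⟨min (min ε1 ε2) 1, by positivity, ?_⟩
  intro ε hε hlt J hJ x
  have hlt1 : ε < ε1 := hlt.trans_le ((min_le_left _ _).trans (min_le_left _ _))
  have hlt2 : ε < ε2 := hlt.trans_le ((min_le_left _ _).trans (min_le_right _ _))
  have hlt3 : ε < 1 := hlt.trans_le (min_le_right _ _)
  set S := J.filter (fun l => ε / 2 ≤ ‖x - pt ε l‖) with hS
  have hSJ : ∀ l ∈ S, l ∈ J ∧ ε / 2 ≤ ‖x - pt ε l‖ := fun l hl => Finset.mem_filter.1 hl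
  have hmain := h2 ε hε hlt2 J (fun k hk => (hJ k).2 hk) x
  have e1 : ∑ l ∈ J, (if ε / 2 ≤ ‖x - pt ε l‖ then
      ε ^ 22 * ((V (pt ε l) * Φc (pt ε l)) * ((‖x - pt ε l‖ ^ 2) ^ 7)⁻¹) else 0) =
      c0 * ∑ l ∈ S, Φc (pt ε l) * (120 * rad c0 V ε l ^ 14 * ((‖x - pt ε l‖ ^ 2) ^ 7)⁻¹) := by
    rw [hS, ← Finset.sum_filter, Finset.mul_sum]
    apply Finset.sum_congr rfl
    intro l _
    rw [rad_pow hc0 D.V0 hε l]
    field_simp
  rw [e1] at hmain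
  have e2 : |N x - ∑ l ∈ S, Φc (pt ε l) *
      (120 * rad c0 V ε l ^ 14 * ((‖x - pt ε l‖ ^ 2) ^ 7)⁻¹)| ≤ η / 2 := by
    rw [D.Nv x]
    rw [abs_sub_comm] at hmain
    have : c0⁻¹ * (∫ y, (V y * Φc y) * ((‖x - y‖ ^ 2) ^ 7)⁻¹) - ∑ l ∈ S, Φc (pt ε l) *
      (120 * rad c0 V ε l ^ 14 * ((‖x - pt ε l‖ ^ 2) ^ 7)⁻¹) =
      c0⁻¹ * ((∫ y, (V y * Φc y) * ((‖x - y‖ ^ 2) ^ 7)⁻¹) - c0 * ∑ l ∈ S, Φc (pt ε l) *
      (120 * rad c0 V ε l ^ 14 * ((‖x - pt ε l‖ ^ 2) ^ 7)⁻¹)) := by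
      rw [mul_sub, inv_mul_cancel_left₀ hc0.ne']
    rw [this, abs_mul, abs_of_pos (inv_pos.2 hc0), inv_mul_le_iff₀ hc0]
    exact hmain
  have e3 : ∀ l ∈ S, |Φc (pt ε l) * (120 * rad c0 V ε l ^ 14 * ((‖x - pt ε l‖ ^ 2) ^ 7)⁻¹) -
      Φc (pt ε l) * Hh (rad c0 V ε l) (pt ε l) x| ≤
      (Mf * 679 * 4 * (Vm / (120 * c0)) * q ^ 2) * (ε ^ 22 * ((‖x - pt ε l‖ ^ 2) ^ 7)⁻¹) := by
    intro l hl
    obtain ⟨hlJ, hlx⟩ := hSJ l hl
    obtain ⟨hV1, hV2, _⟩ := D.memJ hJ hlJ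
    have ha := rad_pos hc0 hε hV1
    have haq := rad_le hc0 D.V0 hε hV2 hq (h1 ε hε hlt1)
    have hap := rad_pow hc0 D.V0 hε l
    obtain ⟨a, hadef⟩ : ∃ a, a = rad c0 V ε l := ⟨_, rfl⟩
    rw [← hadef] at ha haq hap ⊢
    have hax : a ≤ ‖x - pt ε l‖ := by nlinarith
    have hv := hole_value a (pt ε l) x ha hax
    rw [← mul_sub, abs_mul, abs_sub_comm]
    have hxp : 0 < ‖x - pt ε l‖ := ha.trans_le hax
    have h3 : a ^ 2 / ‖x - pt ε l‖ ^ 2 ≤ 4 * q ^ 2 := by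
      rw [div_le_iff₀ (by positivity)]
      calc a ^ 2 ≤ (q * ε) ^ 2 := by gcongr
        _ = 4 * q ^ 2 * (ε / 2) ^ 2 := by ring
        _ ≤ _ := by gcongr
    have h4 : a ^ 14 ≤ Vm / (120 * c0) * ε ^ 22 := by
      rw [hap]
      calc V (pt ε l) * ε ^ 22 / (120 * c0) ≤ Vm * ε ^ 22 / (120 * c0) := by gcongr
        _ = _ := by ring
    calc |Φc (pt ε l)| * |Hh a (pt ε l) x - 120 * a ^ 14 * ((‖x - pt ε l‖ ^ 2) ^ 7)⁻¹|
        ≤ Mf * (679 * (a ^ 2 / ‖x - pt ε l‖ ^ 2) * (a ^ 14 * ((‖x - pt ε l‖ ^ 2) ^ 7)⁻¹)) := by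
          apply mul_le_mul (D.Φb _) hv (abs_nonneg _) hMf
      _ ≤ Mf * (679 * (4 * q ^ 2) * ((Vm / (120 * c0) * ε ^ 22) *
          ((‖x - pt ε l‖ ^ 2) ^ 7)⁻¹)) := by gcongr
      _ = _ := by ring
  have e4 : ∑ l ∈ S, ε ^ 22 * ((‖x - pt ε l‖ ^ 2) ^ 7)⁻¹ ≤ Cl :=
    hCl ε hε hlt3.le S (fun k hk => (D.memJ hJ (hSJ k hk).1).2.2) x (fun k hk => (hSJ k hk).2)
  have e5 : |∑ l ∈ S, Φc (pt ε l) * (120 * rad c0 V ε l ^ 14 * ((‖x - pt ε l‖ ^ 2) ^ 7)⁻¹) -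
      ∑ l ∈ S, Φc (pt ε l) * Hh (rad c0 V ε l) (pt ε l) x| ≤ η / 2 := by
    rw [← Finset.sum_sub_distrib]
    refine (Finset.abs_sum_le_sum_abs _ _).trans ((Finset.sum_le_sum e3).trans ?_)
    rw [← Finset.mul_sum]
    calc (Mf * 679 * 4 * (Vm / (120 * c0)) * q ^ 2) *
          ∑ l ∈ S, ε ^ 22 * ((‖x - pt ε l‖ ^ 2) ^ 7)⁻¹
        ≤ (Mf * 679 * 4 * (Vm / (120 * c0)) * q ^ 2) * Cl := by gcongr
      _ = B * q ^ 2 := by rw [hB]; ring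
      _ ≤ _ := hqB
  calc |N x - ∑ l ∈ S, Φc (pt ε l) * Hh (rad c0 V ε l) (pt ε l) x|
      = |(N x - ∑ l ∈ S, Φc (pt ε l) *
      (120 * rad c0 V ε l ^ 14 * ((‖x - pt ε l‖ ^ 2) ^ 7)⁻¹)) +
      (∑ l ∈ S, Φc (pt ε l) * (120 * rad c0 V ε l ^ 14 * ((‖x - pt ε l‖ ^ 2) ^ 7)⁻¹) -
      ∑ l ∈ S, Φc (pt ε l) * Hh (rad c0 V ε l) (pt ε l) x)| := by congr 1; ring
    _ ≤ η / 2 + η / 2 := (abs_add_le _ _).trans (add_le_add e2 e5)
    _ = η := by ring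

lemma itf_sum {ι : Type*} (S : Finset ι) (c : ι → ℝ) (h : ι → E 22 → ℝ) (j : ℕ) {x : E 22}
    (hd : ∀ l ∈ S, ContDiffAt ℝ ∞ (h l) x) :
    ‖iteratedFDeriv ℝ j (fun y => ∑ l ∈ S, c l * h l y) x‖ ≤
      ∑ l ∈ S, |c l| * ‖iteratedFDeriv ℝ j (h l) x‖ := by
  have hj : (j : ℕ∞ω) ≤ ∞ := by exact_mod_cast le_top
  rw [iteratedFDeriv_fun_sum_apply (fun l hl => (contDiffAt_const.mul (hd l hl)).of_le hj)]
  refine (norm_sum_le _ _).trans (Finset.sum_le_sum fun l hl => ?_)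
  have : (fun y => c l * h l y) = c l • h l := rfl
  rw [this, iteratedFDeriv_const_smul_apply ((hd l hl).of_le hj), norm_smul, Real.norm_eq_abs]

/-- derivatives of the sum of capacitary potentials -/
lemma sum_deriv {c0 : ℝ} {Φc V N : E 22 → ℝ} {Vm Mf Rf : ℝ} (D : Dat c0 Φc V N Vm Mf Rf)
    (j : ℕ) : ∃ C > 0, ∀ ε, 0 < ε → ∀ J, IsJ Φc V ε J → ∀ S ⊆ J, ∀ x,
      (∀ l ∈ S, rad c0 V ε l ≤ ‖x - pt ε l‖) →
      ‖iteratedFDeriv ℝ j (fun y => ∑ l ∈ S, Φc (pt ε l) * Hh (rad c0 V ε l) (pt ε l) y) x‖ ≤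
        C * ∑ l ∈ S, ε ^ 22 * ((‖x - pt ε l‖ ^ 2) ^ 7)⁻¹ * (‖x - pt ε l‖ ^ j)⁻¹ := by
  have hc0 := D.c0pos
  have hMf : 0 ≤ Mf := (abs_nonneg _).trans (D.Φb 0)
  have hVm := D.Vm0
  obtain ⟨C, hC, hb⟩ := hole_bound j
  refine ⟨Mf * C * (Vm / (120 * c0)) + 1, by positivity, ?_⟩
  intro ε hε J hJ S hSJ x hx
  have hpos : ∀ l ∈ S, 0 < rad c0 V ε l := fun l hl =>
    rad_pos hc0 hε (D.memJ hJ (hSJ hl)).1
  have hd : ∀ l ∈ S, ContDiffAt ℝ ∞ (Hh (rad c0 V ε l) (pt ε l)) x := by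
    intro l hl
    apply (Hh_smooth (hpos l hl) (pt ε l)).contDiffAt
    apply isOpen_compl_singleton.mem_nhds
    intro h
    rw [mem_singleton_iff] at h
    have h1 := hx l hl
    rw [h, sub_self, norm_zero] at h1
    linarith [hpos l hl]
  refine (itf_sum S _ _ j hd).trans ?_
  rw [Finset.mul_sum]
  apply Finset.sum_le_sum
  intro l hl
  obtain ⟨hV1, hV2, _⟩ := D.memJ hJ (hSJ hl)
  have hap := rad_pow hc0 D.V0 hε l
  have h4 : rad c0 V ε l ^ 14 ≤ Vm / (120 * c0) * ε ^ 22 := by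
    rw [hap]
    calc V (pt ε l) * ε ^ 22 / (120 * c0) ≤ Vm * ε ^ 22 / (120 * c0) := by gcongr
      _ = _ := by ring
  have h5 := hb (rad c0 V ε l) (pt ε l) x (hpos l hl) (hx l hl)
  calc |Φc (pt ε l)| * ‖iteratedFDeriv ℝ j (Hh (rad c0 V ε l) (pt ε l)) x‖
      ≤ Mf * (C * (rad c0 V ε l ^ 14 * ((‖x - pt ε l‖ ^ 2) ^ 7)⁻¹) * (‖x - pt ε l‖ ^ j)⁻¹) :=
        mul_le_mul (D.Φb _) h5 (norm_nonneg _) hMf
    _ ≤ Mf * (C * ((Vm / (120 * c0) * ε ^ 22) * ((‖x - pt ε l‖ ^ 2) ^ 7)⁻¹) *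
          (‖x - pt ε l‖ ^ j)⁻¹) := by gcongr
    _ = (Mf * C * (Vm / (120 * c0))) *
          (ε ^ 22 * ((‖x - pt ε l‖ ^ 2) ^ 7)⁻¹ * (‖x - pt ε l‖ ^ j)⁻¹) := by ring
    _ ≤ _ := by
        apply mul_le_mul_of_nonneg_right _ (by positivity)
        linarith

/-- the estimate near the holes -/
lemma near_est {c0 : ℝ} {Φc V N : E 22 → ℝ} {Vm Mf Rf : ℝ} (D : Dat c0 Φc V N Vm Mf Rf)
    {χ : E 22 → ℝ} (hχ : ContDiff ℝ ∞ χ) (hχc : HasCompactSupport χ) :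
    ∀ η > 0, ∃ ε0 > 0, ∀ ε, 0 < ε → ε < ε0 → ∀ J, IsJ Φc V ε J → ∀ k ∈ J, ∀ x,
      rad c0 V ε k < ‖x - pt ε k‖ → ‖x - pt ε k‖ ≤ 2 * rad c0 V ε k →
      |lap4 (fun y => χ ((rad c0 V ε k)⁻¹ • (y - pt ε k)) *
        Rk J (pt ε) (rad c0 V ε) (fun k => Φc (pt ε k)) (fun y => Φc y + N y) k y) x| ≤
        η * (rad c0 V ε k ^ 8)⁻¹ := by
  have hc0 := D.c0pos
  have hMf : 0 ≤ Mf := (abs_nonneg _).trans (D.Φb 0)
  have hVm := D.Vm0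
  obtain ⟨Cl, hCl0, hCl⟩ := lattice_bound Rf
  -- constants
  choose Cχ hCχ0 hCχ using fun i => scale_bound hχ hχc i
  choose Cs hCs0 hCs using fun j => sum_deriv D j
  have hPs : ContDiff ℝ ∞ (fun y => Φc y + N y) := D.Φs.add D.Ns
  have hPb : ∀ j : ℕ, ∃ C : ℝ, 0 < C ∧ ∀ x, ‖x‖ ≤ Rf + 1 →
      ‖iteratedFDeriv ℝ j (fun y => Φc y + N y) x‖ ≤ C := by
    intro j
    have hc : ContinuousOn (fun x => iteratedFDeriv ℝ j (fun y => Φc y + N y) x)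
        (closedBall 0 (Rf + 1)) :=
      (hPs.continuous_iteratedFDeriv (by exact_mod_cast le_top)).continuousOn
    obtain ⟨C, hC⟩ := (isCompact_closedBall (0 : E 22) (Rf + 1)).exists_bound_of_continuousOn hc
    exact ⟨|C| + 1, by positivity, fun x hx => (hC x (by simpa using hx)).trans
      ((le_abs_self C).trans (by linarith))⟩
  choose Cp hCp0 hCp using hPb
  -- bound of the derivatives of the regular part
  set Cr : ℕ → ℝ := fun j => Cp j + Cs j * (2 ^ j * Cl) with hCr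
  have hCr0 : ∀ j, 0 < Cr j := fun j => by
    have := hCp0 j; have := hCs0 j
    simp only [hCr]; positivity
  set T : ℝ := (22 : ℝ) ^ 4 * ∑ i ∈ Finset.range 9, (Nat.choose 8 i : ℝ) * Cχ i * (Cr (8 - i) + 1)
    with hT
  have hT0 : 0 < T := by
    have : 0 < ∑ i ∈ Finset.range 9, (Nat.choose 8 i : ℝ) * Cχ i * (Cr (8 - i) + 1) := by
      apply Finset.sum_pos
      · intro i hi
        have h1 : 0 < (Nat.choose 8 i : ℝ) := by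
          have : 0 < Nat.choose 8 i := Nat.choose_pos (by
            have := Finset.mem_range.1 hi; omega)
          exact_mod_cast this
        have h2 := hCχ0 i
        have h3 := hCr0 (8 - i)
        positivity
      · exact ⟨0, by simp⟩
    positivity
  intro η hη
  obtain ⟨q, hq, hq8, hqT⟩ : ∃ q : ℝ, 0 < q ∧ q ≤ 1 / 8 ∧ T * q ≤ η := by
    refine ⟨min (1 / 8) (η / T), by positivity, min_le_left _ _, ?_⟩
    calc T * min (1 / 8) (η / T) ≤ T * (η / T) := by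
          gcongr; exact min_le_right _ _
      _ = η := by field_simp
  obtain ⟨ε1, hε1, h1⟩ := small_eps c0 Vm q hq
  obtain ⟨ε2, hε2, h2⟩ := pot_approx D (q / 2) (by positivity)
  -- uniform continuity
  obtain ⟨δ, hδ, h3⟩ : ∃ δ > 0, ∀ x y, ‖x - y‖ < δ → |Φc x - Φc y| < q / 2 := by
    have hu := D.Φcs.uniformContinuous_of_continuous D.Φs.continuous
    rw [Metric.uniformContinuous_iff] at hu
    obtain ⟨δ, hδ, h⟩ := hu (q / 2) (by positivity)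
    exact ⟨δ, hδ, fun x y hxy => by
      have := h (by rwa [dist_eq_norm] : dist x y < δ)
      rwa [Real.dist_eq] at this⟩
  refine ⟨min (min ε1 ε2) (min 1 δ), by positivity, ?_⟩
  intro ε hε hlt J hJ k hk x hx1 hx2
  have hlt1 : ε < ε1 := hlt.trans_le ((min_le_left _ _).trans (min_le_left _ _))
  have hlt2 : ε < ε2 := hlt.trans_le ((min_le_left _ _).trans (min_le_right _ _))
  have hlt3 : ε < 1 := hlt.trans_le ((min_le_right _ _).trans (min_le_left _ _))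
  have hlt4 : ε < δ := hlt.trans_le ((min_le_right _ _).trans (min_le_right _ _))
  obtain ⟨hV1, hV2, hkR⟩ := D.memJ hJ hk
  have ha := rad_pos hc0 hε hV1
  have haq := rad_le hc0 D.V0 hε hV2 hq (h1 ε hε hlt1)
  have hall : ∀ l ∈ J, 0 < rad c0 V ε l ∧ rad c0 V ε l ≤ q * ε := fun l hl =>
    ⟨rad_pos hc0 hε (D.memJ hJ hl).1, rad_le hc0 D.V0 hε (D.memJ hJ hl).2.1 hq (h1 ε hε hlt1)⟩
  have hqε : q * ε ≤ ε / 8 := by nlinarith
  have hxl : ∀ l ∈ J.erase k, ε / 2 ≤ ‖x - pt ε l‖ := by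
    intro l hl
    have h4 := pt_dist hε (Finset.ne_of_mem_erase hl)
    have h5 : ‖pt ε l - pt ε k‖ ≤ ‖x - pt ε k‖ + ‖x - pt ε l‖ := by
      calc ‖pt ε l - pt ε k‖ = ‖(x - pt ε k) - (x - pt ε l)‖ := by congr 1; abel
        _ ≤ _ := norm_sub_le _ _
    linarith
  have hfil : J.filter (fun l => ε / 2 ≤ ‖x - pt ε l‖) = J.erase k := by
    ext l
    rw [Finset.mem_filter, Finset.mem_erase]
    constructor
    · rintro ⟨h4, h5⟩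
      refine ⟨?_, h4⟩
      rintro rfl
      linarith
    · rintro ⟨h4, h5⟩
      exact ⟨h5, hxl l (Finset.mem_erase.2 ⟨h4, h5⟩)⟩
  obtain ⟨a, hadef⟩ : ∃ a : (Fin 22 → ℤ) → ℝ, a = rad c0 V ε := ⟨_, rfl⟩
  obtain ⟨P, hPdef⟩ : ∃ P : E 22 → ℝ, P = (fun y => Φc y + N y) := ⟨_, rfl⟩
  obtain ⟨κ, hκdef⟩ : ∃ κ : (Fin 22 → ℤ) → ℝ, κ = (fun k => Φc (pt ε k)) := ⟨_, rfl⟩
  have hR0 : |Rk J (pt ε) a κ P k x| ≤ q := by
    have h4 := h2 ε hε hlt2 J hJ x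
    rw [hfil] at h4
    have h5 := h3 x (pt ε k) (by linarith)
    unfold Rk
    rw [hPdef, hκdef, hadef]
    calc |Φc x + N x - Φc (pt ε k) -
          ∑ l ∈ J.erase k, Φc (pt ε l) * Hh (rad c0 V ε l) (pt ε l) x|
        = |(Φc x - Φc (pt ε k)) + (N x -
          ∑ l ∈ J.erase k, Φc (pt ε l) * Hh (rad c0 V ε l) (pt ε l) x)| := by congr 1; ring
      _ ≤ q / 2 + q / 2 := (abs_add_le _ _).trans (add_le_add h5.le h4)
      _ = q := by ring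
  have hxR : ‖x‖ ≤ Rf + 1 := by
    have h4 := norm_sub_norm_le x (pt ε k)
    linarith
  have hsum : ContDiffAt ℝ ∞ (fun y => ∑ l ∈ J.erase k, κ l * Hh (a l) (pt ε l) y) x := by
    apply (sumH_smooth (J.erase k) (pt ε) a κ ?_).contDiffAt
    · apply (avoid_open (J.erase k) (pt ε)).mem_nhds
      intro l hl h
      have h4 := hxl l hl
      rw [h, sub_self, norm_zero] at h4
      linarith
    · intro l hl
      rw [hadef]
      exact (hall l (Finset.mem_of_mem_erase hl)).1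
  have hlat : ∑ l ∈ J.erase k, ε ^ 22 * ((‖x - pt ε l‖ ^ 2) ^ 7)⁻¹ ≤ Cl :=
    hCl ε hε hlt3.le _ (fun l hl => (D.memJ hJ (Finset.mem_of_mem_erase hl)).2.2) x hxl
  have hRj : ∀ j, 1 ≤ j → ‖iteratedFDeriv ℝ j (Rk J (pt ε) a κ P k) x‖ ≤ Cr j * (ε ^ j)⁻¹ := by
    intro j hj
    have hjt : (j : ℕ∞ω) ≤ ∞ := by exact_mod_cast le_top
    have e1 : Rk J (pt ε) a κ P k = (P - fun _ => κ k) -
        fun y => ∑ l ∈ J.erase k, κ l * Hh (a l) (pt ε l) y := rfl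
    have hPat : ContDiffAt ℝ j P x := by
      rw [hPdef]; exact hPs.contDiffAt.of_le hjt
    have hcat : ContDiffAt ℝ j (fun _ : E 22 => κ k) x := contDiffAt_const
    have hPc : ContDiffAt ℝ j (P - fun _ => κ k) x := hPat.sub hcat
    rw [e1, iteratedFDeriv_sub_apply hPc (hsum.of_le hjt),
      iteratedFDeriv_sub_apply hPat hcat, iteratedFDeriv_const_of_ne (by omega)]
    simp only [Pi.zero_apply, sub_zero]
    have h4 := hCp j x hxR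
    have h5 := hCs j ε hε J hJ (J.erase k) (Finset.erase_subset _ _) x (by
      intro l hl
      have := hxl l hl
      have := (hall l (Finset.mem_of_mem_erase hl)).2
      linarith)
    have h6 : ∑ l ∈ J.erase k, ε ^ 22 * ((‖x - pt ε l‖ ^ 2) ^ 7)⁻¹ * (‖x - pt ε l‖ ^ j)⁻¹ ≤
        (2 ^ j * Cl) * (ε ^ j)⁻¹ := by
      calc ∑ l ∈ J.erase k, ε ^ 22 * ((‖x - pt ε l‖ ^ 2) ^ 7)⁻¹ * (‖x - pt ε l‖ ^ j)⁻¹
          ≤ ∑ l ∈ J.erase k, ε ^ 22 * ((‖x - pt ε l‖ ^ 2) ^ 7)⁻¹ * ((ε / 2) ^ j)⁻¹ := by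
            apply Finset.sum_le_sum
            intro l hl
            have := hxl l hl
            gcongr
        _ = (∑ l ∈ J.erase k, ε ^ 22 * ((‖x - pt ε l‖ ^ 2) ^ 7)⁻¹) * ((ε / 2) ^ j)⁻¹ := by
            rw [Finset.sum_mul]
        _ ≤ Cl * ((ε / 2) ^ j)⁻¹ := by gcongr
        _ = _ := by rw [div_pow, inv_div]; ring
    have h7 : (1 : ℝ) ≤ (ε ^ j)⁻¹ := (one_le_inv₀ (by positivity)).2 (pow_le_one₀ hε.le hlt3.le)
    have h4' : ‖iteratedFDeriv ℝ j P x‖ ≤ Cp j := by rw [hPdef]; exact h4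
    have h5' : ‖iteratedFDeriv ℝ j (fun y => ∑ l ∈ J.erase k, κ l * Hh (a l) (pt ε l) y) x‖ ≤
        Cs j * ((2 ^ j * Cl) * (ε ^ j)⁻¹) := by
      rw [hκdef, hadef]
      exact h5.trans (mul_le_mul_of_nonneg_left h6 (hCs0 j).le)
    calc ‖iteratedFDeriv ℝ j P x -
          iteratedFDeriv ℝ j (fun y => ∑ l ∈ J.erase k, κ l * Hh (a l) (pt ε l) y) x‖
        ≤ Cp j + Cs j * ((2 ^ j * Cl) * (ε ^ j)⁻¹) := (norm_sub_le _ _).trans (add_le_add h4' h5')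
      _ ≤ Cp j * (ε ^ j)⁻¹ + Cs j * ((2 ^ j * Cl) * (ε ^ j)⁻¹) := by
          have := hCp0 j
          nlinarith
      _ = Cr j * (ε ^ j)⁻¹ := by simp only [hCr]; ring
  -- the product
  have hO := avoid_open (J.erase k) (pt ε)
  have hxO : x ∈ {x : E 22 | ∀ j ∈ J.erase k, x ≠ pt ε j} := by
    intro l hl h
    have h4 := hxl l hl
    rw [h, sub_self, norm_zero] at h4
    linarith
  have hall' : ∀ j ∈ J, 0 < a j := by rw [hadef]; exact fun j hj => (hall j hj).1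
  have hRs : ContDiffOn ℝ ∞ (Rk J (pt ε) a κ P k) {x : E 22 | ∀ j ∈ J.erase k, x ≠ pt ε j} :=
    Rk_smooth J (pt ε) a κ hall' (by rw [hPdef]; exact hPs) k
  have hχs : ContDiff ℝ ∞ (fun y => χ ((a k)⁻¹ • (y - pt ε k))) :=
    hχ.comp ((contDiff_id.sub contDiff_const).const_smul (a k)⁻¹)
  rw [← hadef, ← hPdef, ← hκdef]
  rw [← hadef] at ha haq
  have hmul := lap4_mul_le hO hχs.contDiffOn hRs hxO
  refine hmul.trans ?_
  have hterm : ∀ i ∈ Finset.range 9, (Nat.choose 8 i : ℝ) *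
      ‖iteratedFDeriv ℝ i (fun y => χ ((a k)⁻¹ • (y - pt ε k))) x‖ *
        ‖iteratedFDeriv ℝ (8 - i) (Rk J (pt ε) a κ P k) x‖ ≤
      ((Nat.choose 8 i : ℝ) * Cχ i * (Cr (8 - i) + 1)) * (q * (a k ^ 8)⁻¹) := by
    intro i hi
    have hi' : i ≤ 8 := by have := Finset.mem_range.1 hi; omega
    have h4 := hCχ i (a k) (pt ε k) x ha
    have h5 : ‖iteratedFDeriv ℝ (8 - i) (Rk J (pt ε) a κ P k) x‖ ≤
        (Cr (8 - i) + 1) * (q * (a k ^ (8 - i))⁻¹) := by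
      rcases Nat.lt_or_ge i 8 with h | h
      · refine (hRj (8 - i) (by omega)).trans ?_
        have h6 : (ε ^ (8 - i))⁻¹ ≤ q * (a k ^ (8 - i))⁻¹ := by
          have h7 : a k ^ (8 - i) ≤ q * ε ^ (8 - i) := by
            calc a k ^ (8 - i) ≤ (q * ε) ^ (8 - i) := by gcongr
              _ = q ^ (8 - i) * ε ^ (8 - i) := by rw [mul_pow]
              _ ≤ q * ε ^ (8 - i) := by
                  gcongr
                  calc q ^ (8 - i) ≤ q ^ 1 := pow_le_pow_of_le_one hq.le (by linarith) (by omega)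
                    _ = q := pow_one q
          rw [inv_eq_one_div, inv_eq_one_div, mul_one_div, div_le_div_iff₀ (by positivity)
            (by positivity), one_mul]
          exact h7
        have h8 := hCr0 (8 - i)
        calc Cr (8 - i) * (ε ^ (8 - i))⁻¹ ≤ Cr (8 - i) * (q * (a k ^ (8 - i))⁻¹) := by gcongr
          _ ≤ _ := by
            apply mul_le_mul_of_nonneg_right _ (by positivity)
            linarith
      · have : i = 8 := le_antisymm hi' h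
        subst this
        rw [Nat.sub_self, norm_iteratedFDeriv_zero, Real.norm_eq_abs, pow_zero, inv_one, mul_one]
        have h8 := hCr0 0
        nlinarith
    have h9 := hCχ0 i
    calc (Nat.choose 8 i : ℝ) * ‖iteratedFDeriv ℝ i (fun y => χ ((a k)⁻¹ • (y - pt ε k))) x‖ *
          ‖iteratedFDeriv ℝ (8 - i) (Rk J (pt ε) a κ P k) x‖
        ≤ (Nat.choose 8 i : ℝ) * (Cχ i * (a k ^ i)⁻¹) *
          ((Cr (8 - i) + 1) * (q * (a k ^ (8 - i))⁻¹)) := by gcongr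
      _ = ((Nat.choose 8 i : ℝ) * Cχ i * (Cr (8 - i) + 1)) *
          (q * ((a k ^ i)⁻¹ * (a k ^ (8 - i))⁻¹)) := by ring
      _ = _ := by
          rw [← mul_inv, ← pow_add, Nat.add_sub_cancel' hi']
  calc (((22 : ℕ) : ℝ)) ^ 4 * ∑ i ∈ Finset.range 9, (Nat.choose 8 i : ℝ) *
      ‖iteratedFDeriv ℝ i (fun y => χ ((a k)⁻¹ • (y - pt ε k))) x‖ *
        ‖iteratedFDeriv ℝ (8 - i) (Rk J (pt ε) a κ P k) x‖
      ≤ (((22 : ℕ) : ℝ)) ^ 4 * ∑ i ∈ Finset.range 9,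
        ((Nat.choose 8 i : ℝ) * Cχ i * (Cr (8 - i) + 1)) * (q * (a k ^ 8)⁻¹) := by
        apply mul_le_mul_of_nonneg_left (Finset.sum_le_sum hterm) (by positivity)
    _ = T * q * (a k ^ 8)⁻¹ := by
        rw [← Finset.sum_mul, hT]
        push_cast
        ring
    _ ≤ η * (a k ^ 8)⁻¹ := by gcongr

end Pool.Agent.Helper676.GF
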