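import Pool.Agent.Helper676.GFDef

set_option autoImplicit false

/-! Proved by helper54 (job JD). -/

namespace Pool.Agent.Helper676.GF

open MeasureTheory Filter Topology Set Metric
open scoped ContDiff
open ContinuousLinearMap in

theorem cv_fderiv {n : ℕ} {G : Type} [NormedAddCommGroup G] [NormedSpace ℝ G]
    (K : E n → ℝ) (hK : LocallyIntegrable K) (g : E n → G)
    (hg : ContDiff ℝ ∞ g) (hc : HasCompactSupport g) :
    fderiv ℝ (fun x => ∫ y, K (x - y) • g y) = fun x => ∫ y, K (x - y) • fderiv ℝ g y := by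
  funext x
  have h1 : (fun x => ∫ y, K (x - y) • g y) = convolution K g (lsmul ℝ ℝ) volume := by
    funext x
    rw [convolution_lsmul_swap]
  rw [h1, (hc.hasFDerivAt_convolution_right (lsmul ℝ ℝ) hK (hg.of_le (by norm_cast)) x).fderiv,
    convolution_eq_swap]
  congr 1

theorem cv_bound (k : ℕ) : ∀ {n : ℕ} {G : Type} [NormedAddCommGroup G] [NormedSpace ℝ G]
    (K : E n → ℝ) (_ : LocallyIntegrable K) (g : E n → G)
    (_ : ContDiff ℝ ∞ g) (_ : HasCompactSupport g) (x : E n),
    ‖iteratedFDeriv ℝ k (fun x => ∫ y, K (x - y) • g y) x‖ ≤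
      ∫ y, |K (x - y)| * ‖iteratedFDeriv ℝ k g y‖ := by
  induction k with
  | zero =>
    intro n G _ _ K hK g hg hc x
    simp only [norm_iteratedFDeriv_zero]
    refine (norm_integral_le_integral_norm _).trans (le_of_eq ?_)
    refine integral_congr_ae (Eventually.of_forall fun y => ?_)
    simp only [norm_smul, Real.norm_eq_abs]
  | succ k ih =>
    intro n G _ _ K hK g hg hc x
    rw [← norm_iteratedFDeriv_fderiv, cv_fderiv K hK g hg hc]
    refine (ih K hK (fderiv ℝ g) (hg.fderiv_right (m := ∞) (by norm_cast)) (hc.fderiv ℝ) x).trans (le_of_eq ?_)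
    simp only [norm_iteratedFDeriv_fderiv]

theorem cv_int {n : ℕ} {G : Type} [NormedAddCommGroup G] [NormedSpace ℝ G]
    (K : E n → ℝ) (hK : LocallyIntegrable K) (g : E n → G)
    (hg : Continuous g) (hc : HasCompactSupport g) (x : E n) :
    Integrable fun y => K (x - y) • g y :=
  (hc.convolutionExists_right (ContinuousLinearMap.lsmul ℝ ℝ) hK hg x).integrable_swap

theorem cv_fderiv_apply {n : ℕ} (K : E n → ℝ) (hK : LocallyIntegrable K) (g : E n → ℝ)
    (hg : ContDiff ℝ ∞ g) (hc : HasCompactSupport g) (v : E n) :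
    (fun x => fderiv ℝ (fun x => ∫ y, K (x - y) • g y) x v) = fun x => ∫ y, K (x - y) • fderiv ℝ g y v := by
  rw [cv_fderiv K hK g hg hc]
  funext x
  have hi : Integrable fun y => K (x - y) • fderiv ℝ g y :=
    cv_int K hK _ ((hg.fderiv_right (m := ∞) (by norm_cast)).continuous) (hc.fderiv ℝ) x
  rw [ContinuousLinearMap.integral_apply hi]
  rfl

/-- convolution with a locally integrable kernel -/
theorem conv_smooth {n : ℕ} (K : E n → ℝ) (hK : LocallyIntegrable K) (g : E n → ℝ)
    (hg : ContDiff ℝ ∞ g) (hc : HasCompactSupport g) :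
    ContDiff ℝ ∞ (fun x => ∫ y, K (x - y) * g y) ∧
    (∀ x, lap (fun x => ∫ y, K (x - y) * g y) x = ∫ y, K (x - y) * lap g y) ∧
    (∀ k : ℕ, ∀ x, ‖iteratedFDeriv ℝ k (fun x => ∫ y, K (x - y) * g y) x‖ ≤
      ∫ y, |K (x - y)| * ‖iteratedFDeriv ℝ k g y‖) := by
  have hsm : (fun x => ∫ y, K (x - y) * g y) = fun x => ∫ y, K (x - y) • g y := rfl
  refine ⟨?_, ?_, ?_⟩
  · have h1 : (fun x => ∫ y, K (x - y) * g y) = convolution K g (ContinuousLinearMap.lsmul ℝ ℝ) volume := by
      funext x
      rw [convolution_lsmul_swap]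
      rfl
    rw [h1]
    exact hc.contDiff_convolution_right (ContinuousLinearMap.lsmul ℝ ℝ) hK hg
  · intro x
    unfold lap
    have key : ∀ v : E n, (fun x => fderiv ℝ (fun y => fderiv ℝ (fun x => ∫ y, K (x - y) * g y) y v) x v) =
        fun x => ∫ y, K (x - y) • fderiv ℝ (fun y => fderiv ℝ g y v) y v := by
      intro v
      have e1 := cv_fderiv_apply K hK g hg hc v
      have hg1 : ContDiff ℝ ∞ (fun y => fderiv ℝ g y v) :=
        (hg.fderiv_right (m := ∞) (by norm_cast)).clm_apply contDiff_const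
      have hc1 : HasCompactSupport (fun y => fderiv ℝ g y v) := hc.fderiv_apply ℝ v
      have e2 := cv_fderiv_apply K hK _ hg1 hc1 v
      rw [← e2]
      funext x
      have : (fun y => fderiv ℝ (fun x => ∫ y, K (x - y) * g y) y v) = fun x => ∫ y, K (x - y) • fderiv ℝ g y v := e1
      rw [this]
    have key' : ∀ v : E n, fderiv ℝ (fun y => fderiv ℝ (fun x => ∫ y, K (x - y) * g y) y v) x v =
        ∫ y, K (x - y) • fderiv ℝ (fun y => fderiv ℝ g y v) y v := fun v => congrFun (key v) x
    simp only [key']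
    rw [← integral_finsetSum]
    · refine integral_congr_ae (Eventually.of_forall fun y => ?_)
      simp only [smul_eq_mul, Finset.mul_sum]
    · intro i _
      have hg1 : ContDiff ℝ ∞ (fun y => fderiv ℝ g y (EuclideanSpace.single i 1)) :=
        (hg.fderiv_right (m := ∞) (by norm_cast)).clm_apply contDiff_const
      have hc1 : HasCompactSupport (fun y => fderiv ℝ g y (EuclideanSpace.single i 1)) := hc.fderiv_apply ℝ _
      exact cv_int K hK _ ((hg1.fderiv_right (m := ∞) (by norm_cast)).clm_apply contDiff_const).continuous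
        (hc1.fderiv_apply ℝ _) x
  · intro k x
    exact cv_bound k K hK g hg hc x

end Pool.Agent.Helper676.GF
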