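import Pool.Agent.Helper676.GFA
import Pool.Agent.Helper676.GFD
import Pool.Agent.Helper676.GFF
import Pool.Agent.Helper676.GFG

set_option autoImplicit false

/-! Proved by helper563 (job JI). -/

namespace Pool.Agent.Helper676.GF

open MeasureTheory Filter Topology Set Metric
open scoped ContDiff

theorem newton (c0 : ℝ) (hc0 : 0 < c0)
    (hfund : ∀ g : E 22 → ℝ, ContDiff ℝ ∞ g → HasCompactSupport g →
      ∀ x, ∫ y, ((‖x - y‖ ^ 2) ^ 7)⁻¹ * lap (lap (lap (lap g))) y = c0 * g x)
    (g : E 22 → ℝ) (hg : ContDiff ℝ ∞ g) (hc : HasCompactSupport g) :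
    ∃ N : E 22 → ℝ, ContDiff ℝ ∞ N ∧
      (∀ x, N x = c0⁻¹ * ∫ y, g y * ((‖x - y‖ ^ 2) ^ 7)⁻¹) ∧
      (∀ x, lap (lap (lap (lap N))) x = g x) ∧
      ∃ R : ℝ, 1 ≤ R ∧ (∀ x, R ≤ ‖x‖ → g x = 0) ∧
        ∀ k : ℕ, ∃ C : ℝ, 0 < C ∧ ∀ x, 2 * R ≤ ‖x‖ →
          ‖iteratedFDeriv ℝ k N x‖ ≤ C * ((‖x‖ ^ 2) ^ 7)⁻¹ := by
  have hls : ∀ u : E 22 → ℝ, ContDiff ℝ ∞ u → ContDiff ℝ ∞ (lap u) := by
    intro u hu
    rw [← contDiffOn_univ] at hu ⊢
    exact lap_smooth isOpen_univ hu
  have hlc : ∀ u : E 22 → ℝ, HasCompactSupport u → HasCompactSupport (lap u) := by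
    intro u hu
    exact IsCompact.of_isClosed_subset hu (isClosed_tsupport _) (lap_tsupport u)
  set K : E 22 → ℝ := fun z => ((‖z‖ ^ 2) ^ 7)⁻¹ with hKdef
  have hK : LocallyIntegrable K := ker_li
  set g1 : E 22 → ℝ := fun y => c0⁻¹ * g y with hg1def
  have hg1 : ContDiff ℝ ∞ g1 := contDiff_const.mul hg
  have hc1 : HasCompactSupport g1 := hc.mul_left
  have hsub1 : tsupport g1 ⊆ tsupport g := by
    apply closure_mono
    intro y hy
    rw [Function.mem_support] at hy ⊢
    intro h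
    exact hy (by simp [hg1def, h])
  obtain ⟨hN1, hN2, hN3⟩ := conv_smooth K hK g1 hg1 hc1
  have hlapc : ∀ u : E 22 → ℝ, ContDiff ℝ ∞ u → HasCompactSupport u →
      lap (fun x => ∫ y, K (x - y) * u y) = fun x => ∫ y, K (x - y) * lap u y := by
    intro u hu hcu
    funext x
    exact (conv_smooth K hK u hu hcu).2.1 x
  refine ⟨fun x => ∫ y, K (x - y) * g1 y, hN1, ?_, ?_, ?_⟩
  · intro x
    rw [← integral_const_mul]
    apply integral_congr_ae
    filter_upwards with y
    simp only [hKdef, hg1def]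
    ring
  · intro x
    rw [hlapc g1 hg1 hc1, hlapc _ (hls _ hg1) (hlc _ hc1),
      hlapc _ (hls _ (hls _ hg1)) (hlc _ (hlc _ hc1)),
      hlapc _ (hls _ (hls _ (hls _ hg1))) (hlc _ (hlc _ (hlc _ hc1)))]
    have h := hfund g1 hg1 hc1 x
    simp only [hKdef]
    rw [h]
    simp only [hg1def]
    field_simp
  · obtain ⟨R, hR1, hR2⟩ := (hc.isCompact.isBounded).subset_ball_lt 1 (0 : E 22)
    refine ⟨R, hR1.le, ?_, ?_⟩
    · intro x hx
      by_contra h
      have h2 : x ∈ tsupport g := subset_tsupport g h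
      have h3 := hR2 h2
      rw [mem_ball_zero_iff] at h3
      linarith
    · intro k
      have hDc : Continuous (iteratedFDeriv ℝ k g1) :=
        hg1.continuous_iteratedFDeriv (by exact_mod_cast le_top)
      have hDs : HasCompactSupport (iteratedFDeriv ℝ k g1) := hc1.iteratedFDeriv k
      have hDi : Integrable (fun y => ‖iteratedFDeriv ℝ k g1 y‖) :=
        (hDc.integrable_of_hasCompactSupport hDs).norm
      have hI0 : 0 ≤ ∫ y, ‖iteratedFDeriv ℝ k g1 y‖ := integral_nonneg fun y => norm_nonneg _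
      refine ⟨2 ^ 14 * (∫ y, ‖iteratedFDeriv ℝ k g1 y‖) + 1, by positivity, ?_⟩
      intro x hx
      have hx0 : 0 < ‖x‖ := by linarith
      have hKx : 0 < ((‖x‖ ^ 2) ^ 7)⁻¹ := by positivity
      calc ‖iteratedFDeriv ℝ k (fun x => ∫ y, K (x - y) * g1 y) x‖
          ≤ ∫ y, |K (x - y)| * ‖iteratedFDeriv ℝ k g1 y‖ := hN3 k x
        _ ≤ ∫ y, (2 ^ 14 * ((‖x‖ ^ 2) ^ 7)⁻¹) * ‖iteratedFDeriv ℝ k g1 y‖ := by
          apply integral_mono_of_nonneg
          · filter_upwards with y
            positivity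
          · exact hDi.const_mul _
          · filter_upwards with y
            by_cases hy : y ∈ tsupport g1
            · have h3 := hR2 (hsub1 hy)
              rw [mem_ball_zero_iff] at h3
              apply mul_le_mul_of_nonneg_right _ (norm_nonneg _)
              have h4 : ‖x‖ / 2 ≤ ‖x - y‖ := by
                have := norm_sub_norm_le x y
                linarith
              have h5 : 0 < ‖x‖ / 2 := by linarith
              simp only [hKdef]
              rw [abs_of_nonneg (by positivity)]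
              have h6 : ((‖x‖ / 2) ^ 2) ^ 7 ≤ (‖x - y‖ ^ 2) ^ 7 := by
                gcongr
              have h7 : ((‖x - y‖ ^ 2) ^ 7)⁻¹ ≤ (((‖x‖ / 2) ^ 2) ^ 7)⁻¹ :=
                inv_anti₀ (by positivity) h6
              refine h7.trans (le_of_eq ?_)
              field_simp
            · have h3 : iteratedFDeriv ℝ k g1 y = 0 := by
                by_contra h
                apply hy
                exact support_iteratedFDeriv_subset k h
              simp [h3]
        _ = (2 ^ 14 * ∫ y, ‖iteratedFDeriv ℝ k g1 y‖) * ((‖x‖ ^ 2) ^ 7)⁻¹ := by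
          rw [integral_const_mul]
          ring
        _ ≤ _ := by
          apply mul_le_mul_of_nonneg_right _ hKx.le
          linarith

end Pool.Agent.Helper676.GF
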