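import Pool.Agent.Helper676.GFD
import Pool.Agent.Helper676.GFI
import Pool.Agent.Helper676.GF5

set_option autoImplicit false

/-! Estimates far from the holes, the potential bound. -/

namespace Pool.Agent.Helper676.GF

open MeasureTheory Filter Topology Set Metric
open scoped ContDiff

lemma mass2 (R : ℝ) (hR : 0 ≤ R) : ∃ C > 0, ∀ ε, 0 < ε → ε ≤ 1 →
    ∀ S : Finset (Fin 22 → ℤ), (∀ k ∈ S, ‖pt ε k‖ ≤ R) → ∑ _k ∈ S, ε ^ 22 ≤ C := by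
  obtain ⟨C, hC, h⟩ := lattice_bound R
  refine ⟨C * (2 * R + 1) ^ 14, by positivity, ?_⟩
  intro ε hε hε1 S hS
  set x0 : E 22 := EuclideanSpace.single 0 (R + 1) with hx0
  have hn : ‖x0‖ = R + 1 := by
    rw [hx0, EuclideanSpace.norm_single, Real.norm_of_nonneg (by positivity)]
  have h1 : ∀ k ∈ S, 1 ≤ ‖x0 - pt ε k‖ := by
    intro k hk
    have := norm_sub_norm_le x0 (pt ε k)
    have := hS k hk
    linarith
  have h2 : ∀ k ∈ S, ‖x0 - pt ε k‖ ≤ 2 * R + 1 := by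
    intro k hk
    have := norm_sub_le x0 (pt ε k)
    have := hS k hk
    linarith
  have h3 := h ε hε hε1 S hS x0 (fun k hk => by have := h1 k hk; linarith)
  have h4 : ∀ k ∈ S, ε ^ 22 ≤ (ε ^ 22 * ((‖x0 - pt ε k‖ ^ 2) ^ 7)⁻¹) * (2 * R + 1) ^ 14 := by
    intro k hk
    have h5 := h1 k hk
    have h6 := h2 k hk
    have h7 : (‖x0 - pt ε k‖ ^ 2) ^ 7 ≤ (2 * R + 1) ^ 14 := by
      rw [← pow_mul]
      exact pow_le_pow_left₀ (norm_nonneg _) h6 14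
    have h8 : 0 < (‖x0 - pt ε k‖ ^ 2) ^ 7 := by positivity
    calc ε ^ 22 = ε ^ 22 * (((‖x0 - pt ε k‖ ^ 2) ^ 7)⁻¹ * (‖x0 - pt ε k‖ ^ 2) ^ 7) := by
          rw [inv_mul_cancel₀ h8.ne', mul_one]
      _ ≤ ε ^ 22 * (((‖x0 - pt ε k‖ ^ 2) ^ 7)⁻¹ * (2 * R + 1) ^ 14) := by gcongr
      _ = _ := by ring
  refine (Finset.sum_le_sum h4).trans ?_
  rw [← Finset.sum_mul]
  gcongr

lemma K_far {x y : E 22} {R : ℝ} (hy : ‖y‖ ≤ R) (hx : 2 * R ≤ ‖x‖) (hx0 : 0 < ‖x‖) :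
    ((‖x - y‖ ^ 2) ^ 7)⁻¹ ≤ 2 ^ 14 * ((‖x‖ ^ 2) ^ 7)⁻¹ := by
  have h1 : ‖x‖ / 2 ≤ ‖x - y‖ := by
    have := norm_sub_norm_le x y
    linarith
  have h2 : (‖x‖ ^ 2) ^ 7 ≤ 2 ^ 14 * (‖x - y‖ ^ 2) ^ 7 := by
    calc (‖x‖ ^ 2) ^ 7 = 2 ^ 14 * ((‖x‖ / 2) ^ 2) ^ 7 := by ring
      _ ≤ _ := by gcongr
  have h3 : 0 < ‖x - y‖ := by linarith [half_pos hx0]
  rw [inv_eq_one_div, inv_eq_one_div, mul_one_div, div_le_div_iff₀ (by positivity)
    (by positivity)]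
  linarith

lemma F_props {f : E 22 → ℝ} (hf : ContDiff ℝ ∞ f) (hc : HasCompactSupport f)
    (hf0 : ∀ x, 0 ≤ f x) (C : ℝ) (hC : 0 ≤ C) :
    Continuous (fun x : E 22 => C * ∫ y, ((‖x - y‖ ^ 2) ^ 7)⁻¹ * f y) ∧
    (∀ x : E 22, 0 ≤ C * ∫ y, ((‖x - y‖ ^ 2) ^ 7)⁻¹ * f y) ∧
    ∃ CF > 0, ∃ RF ≥ 1, (∀ x, f x ≠ 0 → ‖x‖ ≤ RF) ∧ ∀ x : E 22, RF ≤ ‖x‖ →
      C * ∫ y, ((‖x - y‖ ^ 2) ^ 7)⁻¹ * f y ≤ CF * ((‖x‖ ^ 2) ^ 7)⁻¹ := by
  have h := conv_smooth (fun z : E 22 => ((‖z‖ ^ 2) ^ 7)⁻¹) ker_li f hf hc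
  refine ⟨continuous_const.mul h.1.continuous, ?_, ?_⟩
  · intro x
    apply mul_nonneg hC
    apply integral_nonneg
    intro y
    exact mul_nonneg (by positivity) (hf0 y)
  · obtain ⟨R, hR⟩ := hc.isCompact.isBounded.subset_closedBall (0 : E 22)
    have hI : 0 ≤ ∫ y, f y := integral_nonneg hf0
    have hfR : ∀ y, f y ≠ 0 → ‖y‖ ≤ |R| + 1 := by
      intro y hy
      have := hR (subset_tsupport f hy)
      rw [mem_closedBall_zero_iff] at this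
      exact this.trans ((le_abs_self R).trans (by linarith))
    refine ⟨C * (2 ^ 14 * ∫ y, f y) + 1, by positivity, 2 * (|R| + 1), by
      have := abs_nonneg R; linarith, fun x hx => (hfR x hx).trans (by
      have := abs_nonneg R; linarith), ?_⟩
    intro x hx
    have hx0 : 0 < ‖x‖ := by have := abs_nonneg R; linarith
    have h1 : ∫ y, ((‖x - y‖ ^ 2) ^ 7)⁻¹ * f y ≤ ∫ y, (2 ^ 14 * ((‖x‖ ^ 2) ^ 7)⁻¹) * f y := by
      apply integral_mono_of_nonneg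
      · exact Eventually.of_forall fun y => mul_nonneg (by positivity) (hf0 y)
      · exact (hf.continuous.integrable_of_hasCompactSupport hc).const_mul _
      · apply Eventually.of_forall
        intro y
        simp only
        by_cases hy : f y = 0
        · rw [hy, mul_zero, mul_zero]
        · exact mul_le_mul_of_nonneg_right (K_far (hfR y hy) hx hx0) (hf0 y)
    rw [integral_const_mul] at h1
    calc C * ∫ y, ((‖x - y‖ ^ 2) ^ 7)⁻¹ * f y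
        ≤ C * ((2 ^ 14 * ((‖x‖ ^ 2) ^ 7)⁻¹) * ∫ y, f y) := by gcongr
      _ = (C * (2 ^ 14 * ∫ y, f y)) * ((‖x‖ ^ 2) ^ 7)⁻¹ := by ring
      _ ≤ _ := by
          apply mul_le_mul_of_nonneg_right _ (by positivity)
          linarith

/-- the estimate far from the holes -/
lemma far_est {c0 : ℝ} {Φc V N : E 22 → ℝ} {Vm Mf Rf : ℝ} (D : Dat c0 Φc V N Vm Mf Rf)
    {θ : E 22 → ℝ} (hθ : ContDiff ℝ ∞ θ) (hθc : HasCompactSupport θ) :
    ∃ C > 0, ∃ ε0 > 0, ∀ L, 2 * Rf + 2 ≤ L → ∀ ε, 0 < ε → ε < ε0 → ∀ J, IsJ Φc V ε J → ∀ x,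
      L ≤ ‖x‖ →
      |lap4 (fun y => θ (L⁻¹ • (y - 0)) *
        Wk J (pt ε) (rad c0 V ε) (fun k => Φc (pt ε k)) (fun y => Φc y + N y) y) x| ≤
        C * (L ^ 14)⁻¹ := by
  have hc0 := D.c0pos
  have hVm := D.Vm0
  have hRf := D.Rf1
  obtain ⟨Cm, hCm0, hCm⟩ := mass2 Rf (by linarith)
  choose Cθ hCθ0 hCθ using fun i => scale_bound hθ hθc i
  choose Cs hCs0 hCs using fun j => sum_deriv D j
  choose Cn hCn0 hCn using D.Nd
  set Cr : ℕ → ℝ := fun j => Cn j + Cs j * (2 ^ 14 * Cm) with hCr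
  have hCr0 : ∀ j, 0 < Cr j := fun j => by
    have := hCn0 j; have := hCs0 j
    simp only [hCr]; positivity
  set T : ℝ := (22 : ℝ) ^ 4 * ∑ i ∈ Finset.range 9, (Nat.choose 8 i : ℝ) * Cθ i * (Cr (8 - i))
    with hT
  have hT0 : 0 < T := by
    have : 0 < ∑ i ∈ Finset.range 9, (Nat.choose 8 i : ℝ) * Cθ i * (Cr (8 - i)) := by
      apply Finset.sum_pos
      · intro i hi
        have h1 : 0 < (Nat.choose 8 i : ℝ) := by
          have : 0 < Nat.choose 8 i := Nat.choose_pos (by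
            have := Finset.mem_range.1 hi; omega)
          exact_mod_cast this
        have h2 := hCθ0 i
        have h3 := hCr0 (8 - i)
        positivity
      · exact ⟨0, by simp⟩
    positivity
  obtain ⟨ε1, hε1, h1⟩ := small_eps c0 Vm 1 one_pos
  refine ⟨T, hT0, min ε1 1, by positivity, ?_⟩
  intro L hL ε hε hlt J hJ x hx
  have hlt1 : ε < ε1 := hlt.trans_le (min_le_left _ _)
  have hlt3 : ε < 1 := hlt.trans_le (min_le_right _ _)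
  have hall : ∀ l ∈ J, 0 < rad c0 V ε l ∧ rad c0 V ε l ≤ 1 := fun l hl =>
    ⟨rad_pos hc0 hε (D.memJ hJ hl).1, (rad_le hc0 D.V0 hε (D.memJ hJ hl).2.1 one_pos
      (h1 ε hε hlt1)).trans (by linarith)⟩
  have hxl : ∀ l ∈ J, 1 ≤ ‖x - pt ε l‖ := by
    intro l hl
    have := norm_sub_norm_le x (pt ε l)
    have := (D.memJ hJ hl).2.2
    linarith
  obtain ⟨a, hadef⟩ : ∃ a : (Fin 22 → ℤ) → ℝ, a = rad c0 V ε := ⟨_, rfl⟩
  obtain ⟨κ, hκdef⟩ : ∃ κ : (Fin 22 → ℤ) → ℝ, κ = (fun k => Φc (pt ε k)) := ⟨_, rfl⟩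
  have hPs : ContDiff ℝ ∞ (fun y => Φc y + N y) := D.Φs.add D.Ns
  obtain ⟨P, hPdef⟩ : ∃ P : E 22 → ℝ, P = (fun y => Φc y + N y) := ⟨_, rfl⟩
  rw [← hPdef] at hPs
  have hall' : ∀ j ∈ J, 0 < a j := by rw [hadef]; exact fun j hj => (hall j hj).1
  have hO := avoid_open J (pt ε)
  have hxO : x ∈ {x : E 22 | ∀ j ∈ J, x ≠ pt ε j} := by
    intro l hl h
    have h4 := hxl l hl
    rw [h, sub_self, norm_zero] at h4
    linarith
  have hsum : ContDiffAt ℝ ∞ (fun y => ∑ l ∈ J, κ l * Hh (a l) (pt ε l) y) x :=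
    (sumH_smooth J (pt ε) a κ hall').contDiffAt (hO.mem_nhds hxO)
  have hKx : ((‖x‖ ^ 2) ^ 7)⁻¹ ≤ (L ^ 14)⁻¹ := by
    rw [← pow_mul]
    have : 0 < L := by linarith
    gcongr
  have hRj : ∀ j, ‖iteratedFDeriv ℝ j (Wk J (pt ε) a κ P) x‖ ≤ Cr j * (L ^ 14)⁻¹ := by
    intro j
    have hjt : (j : ℕ∞ω) ≤ ∞ := by exact_mod_cast le_top
    have e1 : Wk J (pt ε) a κ P = P - fun y => ∑ l ∈ J, κ l * Hh (a l) (pt ε l) y := rfl
    have hPat : ContDiffAt ℝ j P x := hPs.contDiffAt.of_le hjt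
    rw [e1, iteratedFDeriv_sub_apply hPat (hsum.of_le hjt)]
    have hPN : P =ᶠ[𝓝 x] N := by
      have : {y : E 22 | Rf < ‖y‖} ∈ 𝓝 x :=
        (isOpen_lt continuous_const continuous_norm).mem_nhds (by
          show Rf < ‖x‖
          linarith)
      filter_upwards [this] with y hy
      rw [hPdef]
      simp only
      rw [D.ΦR y (le_of_lt hy), zero_add]
    have h4 : ‖iteratedFDeriv ℝ j P x‖ ≤ Cn j * (L ^ 14)⁻¹ := by
      rw [(hPN.iteratedFDeriv ℝ j).eq_of_nhds]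
      refine (hCn j x (by linarith)).trans ?_
      have := hCn0 j
      gcongr
    have h5 := hCs j ε hε J hJ J (Finset.Subset.refl J) x (by
      intro l hl
      have := hxl l hl
      have := (hall l hl).2
      linarith)
    have h6 : ∑ l ∈ J, ε ^ 22 * ((‖x - pt ε l‖ ^ 2) ^ 7)⁻¹ * (‖x - pt ε l‖ ^ j)⁻¹ ≤
        (2 ^ 14 * Cm) * (L ^ 14)⁻¹ := by
      calc ∑ l ∈ J, ε ^ 22 * ((‖x - pt ε l‖ ^ 2) ^ 7)⁻¹ * (‖x - pt ε l‖ ^ j)⁻¹
          ≤ ∑ l ∈ J, ε ^ 22 * (2 ^ 14 * ((‖x‖ ^ 2) ^ 7)⁻¹) * 1 := by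
            apply Finset.sum_le_sum
            intro l hl
            have h7 := hxl l hl
            have h8 := K_far (x := x) (D.memJ hJ hl).2.2 (by linarith) (by linarith)
            have h9 : (‖x - pt ε l‖ ^ j)⁻¹ ≤ 1 := inv_le_one_of_one_le₀ (one_le_pow₀ h7)
            gcongr
        _ = (∑ _l ∈ J, ε ^ 22) * (2 ^ 14 * ((‖x‖ ^ 2) ^ 7)⁻¹) := by
            rw [Finset.sum_mul]
            apply Finset.sum_congr rfl
            intro l _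
            ring
        _ ≤ Cm * (2 ^ 14 * (L ^ 14)⁻¹) := by
            have := hCm ε hε hlt3.le J (fun k hk => (D.memJ hJ hk).2.2)
            gcongr
        _ = _ := by ring
    have h5' : ‖iteratedFDeriv ℝ j (fun y => ∑ l ∈ J, κ l * Hh (a l) (pt ε l) y) x‖ ≤
        Cs j * ((2 ^ 14 * Cm) * (L ^ 14)⁻¹) := by
      rw [hκdef, hadef]
      exact h5.trans (mul_le_mul_of_nonneg_left h6 (hCs0 j).le)
    calc ‖iteratedFDeriv ℝ j P x -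
          iteratedFDeriv ℝ j (fun y => ∑ l ∈ J, κ l * Hh (a l) (pt ε l) y) x‖
        ≤ Cn j * (L ^ 14)⁻¹ + Cs j * ((2 ^ 14 * Cm) * (L ^ 14)⁻¹) :=
          (norm_sub_le _ _).trans (add_le_add h4 h5')
      _ = Cr j * (L ^ 14)⁻¹ := by simp only [hCr]; ring
  have hWs : ContDiffOn ℝ ∞ (Wk J (pt ε) a κ P) {x : E 22 | ∀ j ∈ J, x ≠ pt ε j} :=
    Wk_smooth J (pt ε) a κ hall' hPs
  have hθs : ContDiff ℝ ∞ (fun y : E 22 => θ (L⁻¹ • (y - 0))) :=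
    hθ.comp ((contDiff_id.sub contDiff_const).const_smul L⁻¹)
  rw [← hadef, ← hPdef, ← hκdef]
  have hmul := lap4_mul_le hO hθs.contDiffOn hWs hxO
  refine hmul.trans ?_
  have hL0 : 0 < L := by linarith
  have hterm : ∀ i ∈ Finset.range 9, (Nat.choose 8 i : ℝ) *
      ‖iteratedFDeriv ℝ i (fun y : E 22 => θ (L⁻¹ • (y - 0))) x‖ *
        ‖iteratedFDeriv ℝ (8 - i) (Wk J (pt ε) a κ P) x‖ ≤
      ((Nat.choose 8 i : ℝ) * Cθ i * Cr (8 - i)) * (L ^ 14)⁻¹ := by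
    intro i _
    have h4 := hCθ i L 0 x hL0
    have h5 := hRj (8 - i)
    have h6 : (L ^ i)⁻¹ ≤ 1 := inv_le_one_of_one_le₀ (one_le_pow₀ (by linarith))
    have h7 := hCθ0 i
    have h8 := hCr0 (8 - i)
    calc (Nat.choose 8 i : ℝ) * ‖iteratedFDeriv ℝ i (fun y : E 22 => θ (L⁻¹ • (y - 0))) x‖ *
          ‖iteratedFDeriv ℝ (8 - i) (Wk J (pt ε) a κ P) x‖
        ≤ (Nat.choose 8 i : ℝ) * (Cθ i * 1) * (Cr (8 - i) * (L ^ 14)⁻¹) := by
          gcongr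
          exact h4.trans (by gcongr)
      _ = _ := by ring
  calc (((22 : ℕ) : ℝ)) ^ 4 * ∑ i ∈ Finset.range 9, (Nat.choose 8 i : ℝ) *
      ‖iteratedFDeriv ℝ i (fun y : E 22 => θ (L⁻¹ • (y - 0))) x‖ *
        ‖iteratedFDeriv ℝ (8 - i) (Wk J (pt ε) a κ P) x‖
      ≤ (((22 : ℕ) : ℝ)) ^ 4 * ∑ i ∈ Finset.range 9,
        ((Nat.choose 8 i : ℝ) * Cθ i * Cr (8 - i)) * (L ^ 14)⁻¹ := by
        apply mul_le_mul_of_nonneg_left (Finset.sum_le_sum hterm) (by positivity)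
    _ = T * (L ^ 14)⁻¹ := by
        rw [← Finset.sum_mul, hT]
        push_cast
        ring

end Pool.Agent.Helper676.GF
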