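import Pool.Agent.Helper676.GF6

set_option autoImplicit false

/-! The limiting inequality. -/

namespace Pool.Agent.Helper676.GF

open MeasureTheory Filter Topology Set Metric
open scoped ContDiff

lemma lap4_test {φ : E 22 → ℝ} (h : ContDiff ℝ ∞ φ) (hc : HasCompactSupport φ) :
    ContDiff ℝ ∞ (lap4 φ) ∧ HasCompactSupport (lap4 φ) := by
  obtain ⟨a1, a2, -⟩ := lap_test h hc (subset_univ _)
  obtain ⟨b1, b2, -⟩ := lap_test a1 a2 (subset_univ _)
  obtain ⟨c1, c2, -⟩ := lap_test b1 b2 (subset_univ _)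
  obtain ⟨d1, d2, -⟩ := lap_test c1 c2 (subset_univ _)
  exact ⟨d1, d2⟩

lemma vol_ball (p : E 22) {r : ℝ} (hr : 0 ≤ r) :
    volume.real (closedBall p r) = r ^ 22 * volume.real (closedBall (0 : E 22) 1) := by
  rw [Measure.real, Measure.addHaar_closedBall volume p hr, ENNReal.toReal_mul,
    ENNReal.toReal_ofReal (by positivity), finrank_euclideanSpace_fin, Measure.real,
    Measure.addHaar_closedBall volume 0 zero_le_one]
  simp

theorem star {f Φc V : E 22 → ℝ} {τ Vm C : ℝ} (hτ : 0 < τ) (hC : 0 ≤ C)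
    (hf : ContDiff ℝ ∞ f) (hfc : HasCompactSupport f) (hf0 : ∀ x, 0 ≤ f x)
    (hΦ : ContDiff ℝ ∞ Φc) (hΦc : HasCompactSupport Φc) (hV0 : ∀ x, 0 ≤ V x)
    (hVm : ∀ x, Φc x ≠ 0 → V x ≤ Vm) (hg : ContDiff ℝ ∞ (fun x => V x * Φc x))
    (hsep : ∀ x y, f x ≠ 0 → V y * Φc y ≠ 0 → τ ≤ ‖x - y‖)
    (HB : ∀ Ω : Set (E 22), IsOpen Ω → tsupport f ⊆ Ω → ∃ u, Sol Ω f u ∧
      ∀ x ∈ Ω, |u x| ≤ C * ∫ y, ((‖x - y‖ ^ 2) ^ 7)⁻¹ * f y) :
    |∫ x, f x * Φc x| ≤ ∫ x, (C * ∫ y, ((‖x - y‖ ^ 2) ^ 7)⁻¹ * f y) *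
        |lap4 Φc x + V x * Φc x| := by
  obtain ⟨c0, hc0, hfund⟩ := fund
  have hgc : HasCompactSupport (fun x => V x * Φc x) := hΦc.mul_left
  obtain ⟨N, hNs, hNv, hN4, R0, hR01, hR0g, hNd⟩ := newton c0 hc0 hfund _ hg hgc
  obtain ⟨R1, hR1⟩ : ∃ R1 : ℝ, ∀ x, Φc x ≠ 0 → ‖x‖ ≤ R1 := by
    obtain ⟨R, hR⟩ := hΦc.isCompact.isBounded.subset_closedBall (0 : E 22)
    exact ⟨R, fun x hx => by simpa using hR (subset_tsupport Φc hx)⟩
  obtain ⟨Mf, hMf⟩ : ∃ Mf : ℝ, ∀ x, |Φc x| ≤ Mf := by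
    obtain ⟨C, hC⟩ := hΦc.exists_bound_of_continuous hΦ.continuous
    exact ⟨C, hC⟩
  obtain ⟨Rf, hRfdef⟩ : ∃ Rf : ℝ, Rf = max R0 (|R1| + 1) := ⟨_, rfl⟩
  have hRf0 : R0 ≤ Rf := by rw [hRfdef]; exact le_max_left _ _
  have hRf1 : |R1| + 1 ≤ Rf := by rw [hRfdef]; exact le_max_right _ _
  have D : Dat c0 Φc V N (max Vm 0) Mf Rf := by
    refine ⟨hc0, hV0, fun x hx => (hVm x hx).trans (le_max_left _ _), le_max_right _ _, hΦ, hΦc,
      hMf, ?_, hR01.trans hRf0, hg, hNs, hNv, hN4, ?_⟩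
    · intro x hx
      by_contra h
      have h1 := hR1 x h
      have h2 := le_abs_self R1
      linarith
    · intro k
      obtain ⟨C, hC, h⟩ := hNd k
      exact ⟨C, hC, fun x hx => h x (by linarith)⟩
  obtain ⟨hFc, hF0, CF, hCF, RF, hRF1, hfRF, hFfar⟩ := F_props hf hfc hf0 C hC
  obtain ⟨F, hFdef⟩ : ∃ F : E 22 → ℝ, F = fun x => C * ∫ y, ((‖x - y‖ ^ 2) ^ 7)⁻¹ * f y :=
    ⟨_, rfl⟩
  rw [← hFdef] at hFc
  have hF0' : ∀ x, 0 ≤ F x := by rw [hFdef]; exact hF0
  have hFfar' : ∀ x, RF ≤ ‖x‖ → F x ≤ CF * ((‖x‖ ^ 2) ^ 7)⁻¹ := by rw [hFdef]; exact hFfar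
  obtain ⟨FM, hFM0, hFM⟩ : ∃ FM > 0, ∀ x, ‖x‖ ≤ Rf + 2 → F x ≤ FM := by
    obtain ⟨M, hM⟩ := (isCompact_closedBall (0 : E 22) (Rf + 2)).exists_bound_of_continuousOn
      hFc.continuousOn
    refine ⟨|M| + 1, by positivity, fun x hx => ?_⟩
    have h1 := hM x (by simpa using hx)
    rw [Real.norm_eq_abs] at h1
    have h2 := le_abs_self (F x)
    have h3 := le_abs_self M
    linarith
  -- cut-offs
  obtain ⟨χ, hχ, hχc, hχ1, hχ0⟩ : ∃ χ : E 22 → ℝ, ContDiff ℝ ∞ χ ∧ HasCompactSupport χ ∧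
      (∀ z, ‖z‖ ≤ 3 / 2 → χ z = 1) ∧ ∀ z, 2 ≤ ‖z‖ → χ z = 0 := by
    let b : ContDiffBump (0 : E 22) := ⟨3 / 2, 2, by norm_num, by norm_num⟩
    exact ⟨b, b.contDiff, b.hasCompactSupport, fun z hz => b.one_of_mem_closedBall (by simpa using hz),
      fun z hz => b.zero_of_le_dist (by simpa using hz)⟩
  obtain ⟨θ, hθ, hθc, hθ1, hθ0⟩ : ∃ χ : E 22 → ℝ, ContDiff ℝ ∞ χ ∧ HasCompactSupport χ ∧
      (∀ z, ‖z‖ ≤ 1 → χ z = 1) ∧ ∀ z, 2 ≤ ‖z‖ → χ z = 0 := by
    let b : ContDiffBump (0 : E 22) := ⟨1, 2, by norm_num, by norm_num⟩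
    exact ⟨b, b.contDiff, b.hasCompactSupport, fun z hz => b.one_of_mem_closedBall (by simpa using hz),
      fun z hz => b.zero_of_le_dist (by simpa using hz)⟩
  obtain ⟨Cfar, hCfar, ε1, hε1, hfar⟩ := far_est D hθ hθc
  obtain ⟨Cm, hCm0, hCm⟩ := mass2 Rf (by linarith)
  obtain ⟨P, hPdef⟩ : ∃ P : E 22 → ℝ, P = (fun y => Φc y + N y) := ⟨_, rfl⟩
  have hPs : ContDiff ℝ ∞ P := by rw [hPdef]; exact hΦ.add hNs
  have hP4 : ∀ x, lap4 P x = lap4 Φc x + V x * Φc x := by
    intro x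
    have h1 := lap4_lin isOpen_univ hΦ.contDiffOn hNs.contDiffOn 1 1 (mem_univ x)
    simp only [one_mul] at h1
    rw [hPdef, h1]
    congr 1
    exact hN4 x
  obtain ⟨v, hv⟩ : ∃ v : ℝ, v = volume.real (closedBall (0 : E 22) 1) := ⟨_, rfl⟩
  have hv0 : 0 ≤ v := by rw [hv]; positivity
  have hPi : Integrable (fun x => F x * |lap4 P x|) := by
    have h4 := lap4_test hΦ hΦc
    have e : (fun x => F x * |lap4 P x|) = fun x => F x * |lap4 Φc x + V x * Φc x| := by
      ext x; rw [hP4 x]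
    rw [e]
    apply Continuous.integrable_of_hasCompactSupport
    · exact hFc.mul (h4.1.continuous.add hg.continuous).abs
    · apply HasCompactSupport.mul_left
      exact (h4.2.add hgc).norm
  have hgoal : ∀ δ > 0, |∫ x, f x * Φc x| ≤ (∫ x, F x * |lap4 P x|) + δ := by
    intro δ hδ
    -- choice of L
    obtain ⟨L, hL1, hL2, hL3⟩ : ∃ L : ℝ, 2 * Rf + 4 ≤ L ∧ RF ≤ L ∧
        v * 2 ^ 22 * CF * Cfar ≤ (δ / 3) * L := by
      refine ⟨max (2 * Rf + 4) (max RF (v * 2 ^ 22 * CF * Cfar / (δ / 3))), le_max_left _ _,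
        (le_max_left _ _).trans (le_max_right _ _), ?_⟩
      rw [← div_le_iff₀' (by positivity)]
      exact (le_max_right _ _).trans (le_max_right _ _)
    have hRfpos : 1 ≤ Rf := hR01.trans hRf0
    have hL0 : 1 ≤ L := by linarith
    -- choice of η
    have hIf : 0 ≤ ∫ x, f x := integral_nonneg hf0
    obtain ⟨η, hη, hη1, hη2⟩ : ∃ η > 0, v * 2 ^ 22 * FM * (max Vm 0 / (120 * c0)) * Cm * η ≤ δ / 3 ∧
        η * (∫ x, f x) ≤ δ / 3 := by
      have hm : 0 ≤ max Vm 0 := le_max_right _ _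
      have hB : 0 ≤ v * 2 ^ 22 * FM * (max Vm 0 / (120 * c0)) * Cm := by positivity
      obtain ⟨B, hBd⟩ : ∃ B, B = v * 2 ^ 22 * FM * (max Vm 0 / (120 * c0)) * Cm := ⟨_, rfl⟩
      rw [← hBd] at hB ⊢
      obtain ⟨I, hI⟩ : ∃ I, I = ∫ x, f x := ⟨_, rfl⟩
      rw [← hI] at hIf ⊢
      refine ⟨(δ / 3) / (B + I + 1), by positivity, ?_, ?_⟩
      · rw [mul_div_assoc', div_le_iff₀ (by positivity)]
        nlinarith
      · rw [div_mul_eq_mul_div, div_le_iff₀ (by positivity)]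
        nlinarith
    obtain ⟨ε2, hε2, hnear⟩ := near_est D hχ hχc η hη
    obtain ⟨ε3, hε3, hpot⟩ := pot_approx D η hη
    obtain ⟨ε4, hε4, hsm⟩ := small_eps c0 (max Vm 0) (1 / 8) (by norm_num)
    obtain ⟨ε, hεdef⟩ : ∃ ε : ℝ, ε = (min (min ε1 ε2) (min (min ε3 ε4) (min 1 τ))) / 2 := ⟨_, rfl⟩
    have hmin : 0 < min (min ε1 ε2) (min (min ε3 ε4) (min 1 τ)) := by positivity
    have hε : 0 < ε := by rw [hεdef]; positivity
    have hεlt : ε < min (min ε1 ε2) (min (min ε3 ε4) (min 1 τ)) := by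
      rw [hεdef]; linarith
    obtain ⟨⟨l1, l2⟩, ⟨l3, l4⟩, l5, l6⟩ : (ε < ε1 ∧ ε < ε2) ∧ (ε < ε3 ∧ ε < ε4) ∧ ε < 1 ∧ ε < τ := by
      simpa [lt_min_iff] using hεlt
    -- the index set
    obtain ⟨J, hJ⟩ : ∃ J, IsJ Φc V ε J := by
      have hfin : {k : Fin 22 → ℤ | V (pt ε k) * Φc (pt ε k) ≠ 0}.Finite := by
        apply (pt_finite ε Rf hε).subset
        intro k hk
        by_contra h
        apply hk
        rw [D.ΦR _ (le_of_lt (not_le.1 h)), mul_zero]
      exact ⟨hfin.toFinset, fun k => by simp⟩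
    have hall : ∀ l ∈ J, 0 < rad c0 V ε l ∧ rad c0 V ε l ≤ ε / 8 := fun l hl =>
      ⟨rad_pos hc0 hε (D.memJ hJ hl).1, (rad_le hc0 D.V0 hε (D.memJ hJ hl).2.1 (by norm_num)
        (hsm ε hε l4)).trans (by linarith)⟩
    obtain ⟨Ω, hΩ⟩ : ∃ Ω : Set (E 22), Ω = {x | ∀ j ∈ J, rad c0 V ε j < ‖x - pt ε j‖} := ⟨_, rfl⟩
    have hΩo : IsOpen Ω := by
      have : Ω = ⋂ j ∈ J, {x : E 22 | rad c0 V ε j < ‖x - pt ε j‖} := by ext x; simp [hΩ]
      rw [this]
      exact isOpen_biInter_finset fun j _ =>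
        isOpen_lt continuous_const (continuous_id.sub continuous_const).norm
    have hts : ∀ x ∈ tsupport f, ∀ j ∈ J, τ ≤ ‖x - pt ε j‖ := by
      intro x hx j hj
      have hcl : IsClosed {x : E 22 | τ ≤ ‖x - pt ε j‖} :=
        isClosed_le continuous_const (continuous_id.sub continuous_const).norm
      have : tsupport f ⊆ {x : E 22 | τ ≤ ‖x - pt ε j‖} := by
        apply closure_minimal _ hcl
        intro y hy
        exact hsep y (pt ε j) hy ((hJ j).1 hj)
      exact this hx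
    have hfΩ : tsupport f ⊆ Ω := by
      intro x hx
      rw [hΩ]
      intro j hj
      have h1 := hts x hx j hj
      have h2 := (hall j hj).2
      linarith
    obtain ⟨u, hu, hub⟩ := HB Ω hΩo hfΩ
    have hfar' := hfar L (by linarith) ε hε l1 J hJ
    have hnear' := hnear ε hε l2 J hJ
    have hpot' := hpot ε hε l3 J hJ
    rw [← hPdef] at hfar' hnear'
    obtain ⟨κ, hκ⟩ : ∃ κ : (Fin 22 → ℤ) → ℝ, κ = (fun k => Φc (pt ε k)) := ⟨_, rfl⟩
    rw [← hκ] at hfar' hnear'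
    have hass := assembly J (pt ε) (rad c0 V ε) κ (fun j hj => (hall j hj).1)
      (by
        intro i hi j hj hij
        have h1 := (hall i hi).2
        have h2 := (hall j hj).2
        have h3 := pt_dist hε hij
        linarith) hΩ hΩo (f := f) (u := u) (F := F) (P := P)
      (θ := fun y => θ (L⁻¹ • (y - 0))) (χ := χ) hu
      (by
        intro x hx j hj
        have h1 := hts x (subset_tsupport f hx) j hj
        have h2 := (hall j hj).2
        linarith) (L := L) (by linarith) (fun x hx => (hfRF x hx).trans hL2) hF0'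
      (by rw [hFdef]; exact hub) hPs
      (hθ.comp ((contDiff_id.sub contDiff_const).const_smul L⁻¹))
      (by
        intro x hx
        apply hθ1
        rw [sub_zero, norm_smul, Real.norm_of_nonneg (by positivity), inv_mul_le_iff₀ (by linarith)]
        linarith)
      (by
        intro x hx
        apply hθ0
        rw [sub_zero, norm_smul, Real.norm_of_nonneg (by positivity), le_inv_mul_iff₀ (by linarith)]
        linarith)
      hχ hχ1 hχ0
      (by
        intro j hj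
        have h1 := (D.memJ hJ hj).2.2
        have h2 := (hall j hj).2
        linarith) hPi (fun j => FM * (η * (rad c0 V ε j ^ 8)⁻¹))
      ((CF * (L ^ 14)⁻¹) * (Cfar * (L ^ 14)⁻¹)) (by positivity)
      (by
        intro j hj
        have h1 := (hall j hj).1
        positivity)
      (by
        intro j hj x hx1 hx2
        have h1 := hnear' j hj x hx1 hx2
        have h2 : ‖x‖ ≤ Rf + 2 := by
          have h3 := norm_sub_norm_le x (pt ε j)
          have h4 := (D.memJ hJ hj).2.2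
          have h5 := (hall j hj).2
          linarith
        exact mul_le_mul (hFM x h2) h1 (abs_nonneg _) hFM0.le)
      (by
        intro x hx1 hx2
        have h1 := hfar' x hx1
        have h2 : F x ≤ CF * (L ^ 14)⁻¹ := by
          refine (hFfar' x (hL2.trans hx1)).trans ?_
          rw [← pow_mul]
          gcongr
        exact mul_le_mul h2 h1 (abs_nonneg _) (by positivity))
    -- the error terms
    have hE1 : ∑ j ∈ J, volume.real (closedBall (pt ε j) (2 * rad c0 V ε j)) *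
        (FM * (η * (rad c0 V ε j ^ 8)⁻¹)) ≤ δ / 3 := by
      have h1 : ∀ j ∈ J, volume.real (closedBall (pt ε j) (2 * rad c0 V ε j)) *
          (FM * (η * (rad c0 V ε j ^ 8)⁻¹)) ≤
          (v * 2 ^ 22 * FM * (max Vm 0 / (120 * c0)) * η) * ε ^ 22 := by
        intro j hj
        have h2 := (hall j hj).1
        have h3 := rad_pow hc0 D.V0 hε j
        have h4 := (D.memJ hJ hj).2.1
        rw [vol_ball _ (by positivity), ← hv]
        obtain ⟨a, hadef⟩ : ∃ a, a = rad c0 V ε j := ⟨_, rfl⟩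
        rw [← hadef] at h2 h3 ⊢
        calc (2 * a) ^ 22 * v * (FM * (η * (a ^ 8)⁻¹))
            = (v * 2 ^ 22 * FM * η) * a ^ 14 := by
              field_simp
          _ = (v * 2 ^ 22 * FM * η) * (V (pt ε j) * ε ^ 22 / (120 * c0)) := by rw [h3]
          _ ≤ (v * 2 ^ 22 * FM * η) * (max Vm 0 * ε ^ 22 / (120 * c0)) := by gcongr
          _ = _ := by ring
      refine (Finset.sum_le_sum h1).trans ?_
      rw [← Finset.mul_sum]
      have h5 := hCm ε hε l5.le J (fun k hk => (D.memJ hJ hk).2.2)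
      have hm : 0 ≤ max Vm 0 := le_max_right _ _
      calc (v * 2 ^ 22 * FM * (max Vm 0 / (120 * c0)) * η) * ∑ _j ∈ J, ε ^ 22
          ≤ (v * 2 ^ 22 * FM * (max Vm 0 / (120 * c0)) * η) * Cm := by gcongr
        _ = v * 2 ^ 22 * FM * (max Vm 0 / (120 * c0)) * Cm * η := by ring
        _ ≤ _ := hη1
    have hE2 : volume.real (closedBall (0 : E 22) (2 * L)) *
        ((CF * (L ^ 14)⁻¹) * (Cfar * (L ^ 14)⁻¹)) ≤ δ / 3 := by
      rw [vol_ball _ (by positivity), ← hv]
      have h1 : (2 * L) ^ 22 * v * ((CF * (L ^ 14)⁻¹) * (Cfar * (L ^ 14)⁻¹)) =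
          (v * 2 ^ 22 * CF * Cfar) * (L ^ 6)⁻¹ := by
        field_simp
      rw [h1]
      calc (v * 2 ^ 22 * CF * Cfar) * (L ^ 6)⁻¹ ≤ ((δ / 3) * L) * (L ^ 6)⁻¹ := by gcongr
        _ = (δ / 3) * (L ^ 5)⁻¹ := by field_simp
        _ ≤ (δ / 3) * 1 := by
            gcongr
            exact inv_le_one_of_one_le₀ (one_le_pow₀ hL0)
        _ = _ := mul_one _
    -- the left-hand side
    have hfil : ∀ x, f x ≠ 0 → J.filter (fun l => ε / 2 ≤ ‖x - pt ε l‖) = J := by
      intro x hx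
      rw [Finset.filter_eq_self]
      intro l hl
      have h1 := hts x (subset_tsupport f hx) l hl
      linarith
    have hWd : ∀ x, |f x * Wk J (pt ε) (rad c0 V ε) κ P x - f x * Φc x| ≤ η * f x := by
      intro x
      by_cases hx : f x = 0
      · rw [hx]; simp
      · have h1 := hpot' x
        rw [hfil x hx] at h1
        rw [← mul_sub, abs_mul, abs_of_nonneg (hf0 x), mul_comm η]
        apply mul_le_mul_of_nonneg_left _ (hf0 x)
        have e : Wk J (pt ε) (rad c0 V ε) κ P x - Φc x =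
            N x - ∑ l ∈ J, Φc (pt ε l) * Hh (rad c0 V ε l) (pt ε l) x := by
          unfold Wk
          rw [hPdef, hκ]
          simp only
          ring
        rw [e]
        exact h1
    have hΩf : ∫ x in Ω, f x * Wk J (pt ε) (rad c0 V ε) κ P x =
        ∫ x, f x * Wk J (pt ε) (rad c0 V ε) κ P x := by
      apply setIntegral_eq_integral_of_forall_compl_eq_zero
      intro x hx
      have : f x = 0 := by
        by_contra h
        exact hx (hfΩ (subset_tsupport f h))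
      rw [this, zero_mul]
    have hWc : ContDiffOn ℝ ∞ (Wk J (pt ε) (rad c0 V ε) κ P) {x | ∀ j ∈ J, x ≠ pt ε j} :=
      Wk_smooth J (pt ε) (rad c0 V ε) κ (fun j hj => (hall j hj).1) hPs
    have hfWc : Continuous (fun x => f x * Wk J (pt ε) (rad c0 V ε) κ P x) := by
      apply ContinuousOn.continuous_of_tsupport_subset
        (hf.continuous.continuousOn.mul hWc.continuousOn) (avoid_open J (pt ε))
      refine (tsupport_mul_subset_left).trans ?_
      intro x hx j hj h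
      have h1 := hts x hx j hj
      rw [h, sub_self, norm_zero] at h1
      linarith
    have hi1 : Integrable (fun x => f x * Wk J (pt ε) (rad c0 V ε) κ P x) :=
      hfWc.integrable_of_hasCompactSupport hfc.mul_right
    have hi2 : Integrable (fun x => f x * Φc x) :=
      (hf.continuous.mul hΦ.continuous).integrable_of_hasCompactSupport hfc.mul_right
    have hi3 : Integrable f := hf.continuous.integrable_of_hasCompactSupport hfc
    have hE3 : |(∫ x, f x * Wk J (pt ε) (rad c0 V ε) κ P x) - ∫ x, f x * Φc x| ≤ δ / 3 := by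
      rw [← integral_sub hi1 hi2, ← Real.norm_eq_abs]
      refine (norm_integral_le_integral_norm _).trans (le_trans ?_ hη2)
      rw [← integral_const_mul]
      apply integral_mono (hi1.sub hi2).norm (hi3.const_mul η)
      intro x
      exact hWd x
    rw [hΩf] at hass
    rw [abs_sub_comm] at hE3
    have h7 : |∫ x, f x * Φc x| ≤ |(∫ x, f x * Φc x) -
        ∫ x, f x * Wk J (pt ε) (rad c0 V ε) κ P x| +
        |∫ x, f x * Wk J (pt ε) (rad c0 V ε) κ P x| := by
      have := abs_add_le ((∫ x, f x * Φc x) - ∫ x, f x * Wk J (pt ε) (rad c0 V ε) κ P x)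
        (∫ x, f x * Wk J (pt ε) (rad c0 V ε) κ P x)
      rwa [sub_add_cancel] at this
    linarith
  have hfin := le_of_forall_pos_le_add hgoal
  have e : (fun x => F x * |lap4 P x|) = fun x =>
      (C * ∫ y, ((‖x - y‖ ^ 2) ^ 7)⁻¹ * f y) * |lap4 Φc x + V x * Φc x| := by
    ext x; rw [hP4 x, hFdef]
  rw [e] at hfin
  exact hfin

end Pool.Agent.Helper676.GF
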