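import Pool.Agent.Helper676.GFDef

set_option autoImplicit false

/-! Proved by helper439 (job JA). -/

namespace Pool.Agent.Helper676.GF

open MeasureTheory Filter Topology Set Metric
open scoped ContDiff

theorem ker_bound (z : E 22) : ‖((‖z‖ ^ 2) ^ 7)⁻¹‖ ≤ 1 * ‖z‖ ^ (-(14 : ℝ)) := by
  rw [one_mul, Real.norm_of_nonneg (by positivity), ← pow_mul]
  rw [show (2 * 7 : ℕ) = 14 by norm_num, Real.rpow_neg (norm_nonneg z)]
  rw [show (14 : ℝ) = ((14 : ℕ) : ℝ) by norm_num, Real.rpow_natCast]

theorem ker_meas : AEStronglyMeasurable (fun z : E 22 => ((‖z‖ ^ 2) ^ 7)⁻¹) volume := by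
  apply Measurable.aestronglyMeasurable
  fun_prop

theorem ker_li : LocallyIntegrable (fun z : E 22 => ((‖z‖ ^ 2) ^ 7)⁻¹) := by
  refine locallyIntegrable_of_norm_le_rpow (C := 1) (α := 14) (by simp) (by simp; norm_num) ?_
    ker_meas
  exact Filter.Eventually.of_forall ker_bound

/-! ### calculus for the Laplacian -/

theorem pd_contDiff {n : ℕ} {f : E n → ℝ} (hf : ContDiff ℝ ∞ f) (v : E n) :
    ContDiff ℝ ∞ (fun y => fderiv ℝ f y v) :=
  (hf.fderiv_right (m := ∞) (by simp)).clm_apply contDiff_const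

theorem lap_contDiff {n : ℕ} {f : E n → ℝ} (hf : ContDiff ℝ ∞ f) : ContDiff ℝ ∞ (lap f) := by
  unfold lap
  refine ContDiff.sum fun i _ => ?_
  exact pd_contDiff (pd_contDiff hf _) _

theorem pd_compact {n : ℕ} {f : E n → ℝ} (hf : HasCompactSupport f) (v : E n) :
    HasCompactSupport (fun y => fderiv ℝ f y v) := hf.fderiv_apply ℝ v

theorem lap_compact {n : ℕ} {f : E n → ℝ} (hf : HasCompactSupport f) :
    HasCompactSupport (lap f) := by
  refine HasCompactSupport.intro' (K := tsupport f) hf (isClosed_tsupport f) ?_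
  intro x hx
  unfold lap
  refine Finset.sum_eq_zero fun i _ => ?_
  have h1 : tsupport (fun y => fderiv ℝ (fun y => fderiv ℝ f y (EuclideanSpace.single i 1)) y
      (EuclideanSpace.single i 1)) ⊆ tsupport f :=
    (tsupport_fderiv_apply_subset ℝ _).trans (tsupport_fderiv_apply_subset ℝ _)
  exact image_eq_zero_of_notMem_tsupport
    (f := fun y => fderiv ℝ (fun y => fderiv ℝ f y (EuclideanSpace.single i 1)) y
      (EuclideanSpace.single i 1)) (fun h => hx (h1 h))

/-- integration by parts -/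
theorem ibp {n : ℕ} {f g : E n → ℝ} (hf : ContDiff ℝ ∞ f) (hg : ContDiff ℝ ∞ g)
    (hgc : HasCompactSupport g) : ∫ y, f y * lap g y = ∫ y, lap f y * g y := by
  have hint : ∀ {a b : E n → ℝ}, ContDiff ℝ ∞ a → ContDiff ℝ ∞ b → HasCompactSupport b →
      Integrable (fun y => a y * b y) := by
    intro a b ha hb hbc
    exact (ha.continuous.mul hb.continuous).integrable_of_hasCompactSupport hbc.mul_left
  have h1 : ∀ i : Fin n, ∫ y, f y * fderiv ℝ (fun y => fderiv ℝ g y (EuclideanSpace.single i 1)) y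
      (EuclideanSpace.single i 1) = ∫ y, fderiv ℝ (fun y => fderiv ℝ f y (EuclideanSpace.single i 1)) y
      (EuclideanSpace.single i 1) * g y := by
    intro i
    obtain ⟨v, hv⟩ : ∃ v : E n, v = EuclideanSpace.single i 1 := ⟨_, rfl⟩
    rw [← hv]
    have e1 := integral_mul_fderiv_eq_neg_fderiv_mul_of_integrable (μ := (volume : Measure (E n)))
      (f := f) (g := fun y => fderiv ℝ g y v) (v := v)
      (hint (pd_contDiff hf v) (pd_contDiff hg v) (pd_compact hgc v))
      (hint hf (pd_contDiff (pd_contDiff hg v) v) (pd_compact (pd_compact hgc v) v))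
      (hint hf (pd_contDiff hg v) (pd_compact hgc v))
      (fun x _ => (hf.differentiable (by simp)) x)
      (fun x _ => ((pd_contDiff hg v).differentiable (by simp)) x)
    have e2 := integral_mul_fderiv_eq_neg_fderiv_mul_of_integrable (μ := (volume : Measure (E n)))
      (f := fun y => fderiv ℝ f y v) (g := g) (v := v)
      (hint (pd_contDiff (pd_contDiff hf v) v) hg hgc)
      (hint (pd_contDiff hf v) (pd_contDiff hg v) (pd_compact hgc v))
      (hint (pd_contDiff hf v) hg hgc)
      (fun x _ => ((pd_contDiff hf v).differentiable (by simp)) x)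
      (fun x _ => (hg.differentiable (by simp)) x)
    rw [e1, e2, neg_neg]
  unfold lap
  simp only [Finset.mul_sum, Finset.sum_mul]
  rw [integral_finsetSum, integral_finsetSum]
  · exact Finset.sum_congr rfl fun i _ => h1 i
  · intro i _
    exact hint (pd_contDiff (pd_contDiff hf _) _) hg hgc
  · intro i _
    exact hint hf (pd_contDiff (pd_contDiff hg _) _) (pd_compact (pd_compact hgc _) _)

theorem lap_add {n : ℕ} {f g : E n → ℝ} (hf : ContDiff ℝ ∞ f) (hg : ContDiff ℝ ∞ g) :
    lap (fun y => f y + g y) = fun y => lap f y + lap g y := by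
  funext x
  unfold lap
  rw [← Finset.sum_add_distrib]
  refine Finset.sum_congr rfl fun i _ => ?_
  have h1 : (fun y => fderiv ℝ (fun y => f y + g y) y (EuclideanSpace.single i 1)) =
      fun y => fderiv ℝ f y (EuclideanSpace.single i 1) + fderiv ℝ g y (EuclideanSpace.single i 1) := by
    funext y
    rw [fderiv_fun_add ((hf.differentiable (by simp)) y) ((hg.differentiable (by simp)) y)]
    rfl
  rw [h1, fderiv_fun_add (((pd_contDiff hf _).differentiable (by simp)) x)
    (((pd_contDiff hg _).differentiable (by simp)) x)]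
  rfl

theorem lap_mul {n : ℕ} {f : E n → ℝ} (c : ℝ) (hf : ContDiff ℝ ∞ f) :
    lap (fun y => c * f y) = fun y => c * lap f y := by
  funext x
  unfold lap
  rw [Finset.mul_sum]
  refine Finset.sum_congr rfl fun i _ => ?_
  have h1 : (fun y => fderiv ℝ (fun y => c * f y) y (EuclideanSpace.single i 1)) =
      fun y => c * fderiv ℝ f y (EuclideanSpace.single i 1) := by
    funext y
    rw [fderiv_const_mul ((hf.differentiable (by simp)) y)]
    rfl
  rw [h1, fderiv_const_mul (((pd_contDiff hf _).differentiable (by simp)) x)]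
  rfl

/-- the regularised squared distance -/
noncomputable def R {n : ℕ} (x : E n) (t : ℝ) (y : E n) : ℝ := ‖y - x‖ ^ 2 + t ^ 2

/-- its negative powers -/
noncomputable def P {n : ℕ} (x : E n) (t : ℝ) (p : ℕ) (y : E n) : ℝ := (R x t y ^ p)⁻¹

theorem R_pos {n : ℕ} (x : E n) {t : ℝ} (ht : 0 < t) (y : E n) : 0 < R x t y := by
  unfold R; positivity

theorem R_contDiff {n : ℕ} (x : E n) (t : ℝ) : ContDiff ℝ ∞ (R x t) := by
  unfold R
  exact ((contDiff_norm_sq ℝ).comp (contDiff_id.sub contDiff_const)).add contDiff_const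

theorem R_eq {n : ℕ} (x : E n) (t : ℝ) (y : E n) : R x t y = ∑ i, (y i - x i) ^ 2 + t ^ 2 := by
  unfold R
  rw [EuclideanSpace.norm_sq_eq]
  simp [sq_abs]

theorem R_fderiv {n : ℕ} (x : E n) (t : ℝ) (y : E n) (i : Fin n) :
    fderiv ℝ (R x t) y (EuclideanSpace.single i 1) = 2 * (y i - x i) := by
  have h1 : HasFDerivAt (R x t) (2 • (innerSL ℝ (y - x)).comp (ContinuousLinearMap.id ℝ (E n))) y := by
    unfold R
    have := ((hasStrictFDerivAt_norm_sq (y - x)).hasFDerivAt.comp y
      ((hasFDerivAt_id y).sub_const x)).add_const (t ^ 2)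
    exact this
  rw [h1.fderiv]
  simp [EuclideanSpace.inner_single_right]

theorem P_contDiff {n : ℕ} (x : E n) {t : ℝ} (ht : 0 < t) (p : ℕ) : ContDiff ℝ ∞ (P x t p) := by
  unfold P
  exact ((R_contDiff x t).pow p).inv fun y => (pow_pos (R_pos x ht y) p).ne'

theorem P_fderiv {n : ℕ} (x : E n) {t : ℝ} (ht : 0 < t) (p : ℕ) (y : E n) (i : Fin n) :
    fderiv ℝ (P x t p) y (EuclideanSpace.single i 1) =
      -(p : ℝ) * P x t (p + 1) y * (2 * (y i - x i)) := by
  have hR := R_pos x ht y
  have h1 : HasDerivAt (fun r : ℝ => (r ^ p)⁻¹) (-(p : ℝ) * (R x t y ^ (p + 1))⁻¹) (R x t y) := by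
    have h2 : HasDerivAt (fun r : ℝ => (r ^ p)⁻¹)
        (-((p : ℝ) * R x t y ^ (p - 1)) / (R x t y ^ p) ^ 2) (R x t y) :=
      (hasDerivAt_pow p (R x t y)).inv (pow_pos hR p).ne'
    refine h2.congr_deriv ?_
    rcases Nat.eq_zero_or_pos p with h0 | h0
    · subst h0; simp
    · obtain ⟨k, rfl⟩ := Nat.exists_eq_succ_of_ne_zero h0.ne'
      simp only [Nat.succ_eq_add_one, Nat.add_sub_cancel]
      field_simp
      ring
  have h3 : HasFDerivAt (P x t p) ((-(p : ℝ) * (R x t y ^ (p + 1))⁻¹) • fderiv ℝ (R x t) y) y :=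
    h1.comp_hasFDerivAt y (((R_contDiff x t).differentiable (by simp)) y).hasFDerivAt
  rw [h3.fderiv]
  show (-(p : ℝ) * (R x t y ^ (p + 1))⁻¹) * fderiv ℝ (R x t) y (EuclideanSpace.single i 1) = _
  rw [R_fderiv]
  rfl

theorem lap_P (x : E 22) {t : ℝ} (ht : 0 < t) (p : ℕ) :
    lap (P x t p) = fun y => (4 * (p : ℝ) * (p - 10)) * P x t (p + 1) y +
      (-(4 * (p : ℝ) * (p + 1) * t ^ 2)) * P x t (p + 2) y := by
  funext y
  have hR := R_pos x ht y
  unfold lap
  have h1 : ∀ i : Fin 22, fderiv ℝ (fun y => fderiv ℝ (P x t p) y (EuclideanSpace.single i 1)) y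
      (EuclideanSpace.single i 1) = (p : ℝ) * (p + 1) * P x t (p + 2) y * (4 * (y i - x i) ^ 2)
        - 2 * p * P x t (p + 1) y := by
    intro i
    have h2 : (fun y => fderiv ℝ (P x t p) y (EuclideanSpace.single i 1)) =
      fun y : E 22 => (-(p : ℝ) * P x t (p + 1) y) * (2 * (y i - x i)) := by
      funext y
      exact P_fderiv x ht p y i
    rw [h2]
    have h3 : HasFDerivAt (fun y : E 22 => 2 * (y i - x i))
        ((2 : ℝ) • (EuclideanSpace.proj i : E 22 →L[ℝ] ℝ)) y := by
      have := ((EuclideanSpace.proj i : E 22 →L[ℝ] ℝ).hasFDerivAt (x := y)).sub_const (x i)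
      exact this.const_mul 2
    have h4 : HasFDerivAt (fun y : E 22 => -(p : ℝ) * P x t (p + 1) y)
        ((-(p : ℝ)) • fderiv ℝ (P x t (p + 1)) y) y :=
      (((P_contDiff x ht (p + 1)).differentiable (by simp)) y).hasFDerivAt.const_mul _
    have h7 := (h4.mul h3).fderiv
    change fderiv ℝ (fun y : E 22 => (-(p : ℝ) * P x t (p + 1) y) * (2 * (y i - x i))) y = _ at h7
    rw [h7]
    simp only [add_apply, smul_apply, smul_eq_mul]
    rw [P_fderiv x ht (p + 1) y i]
    have h5 : (EuclideanSpace.proj i : E 22 →L[ℝ] ℝ) (EuclideanSpace.single i 1) = 1 := by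
      simp
    rw [h5]
    push_cast
    ring
  rw [Finset.sum_congr rfl fun i _ => h1 i, Finset.sum_sub_distrib, ← Finset.mul_sum, ← Finset.mul_sum]
  have h6 : ∑ i, (y i - x i) ^ 2 = R x t y - t ^ 2 := by rw [R_eq]; ring
  rw [h6]
  simp only [Finset.sum_const, Finset.card_univ, Fintype.card_fin, nsmul_eq_mul]
  have h7 : P x t (p + 2) y * R x t y = P x t (p + 1) y := by
    unfold P
    rw [show R x t y ^ (p + 2) = R x t y ^ (p + 1) * R x t y by ring]
    field_simp
  push_cast
  linear_combination (p : ℝ) * (p + 1) * 4 * h7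

theorem lap4_P (x : E 22) {t : ℝ} (ht : 0 < t) : lap (lap (lap (lap (P x t 7)))) =
    fun y => 30996725760 * (t ^ 8 * P x t 15 y) := by
  have hP := fun p => P_contDiff x ht p
  have hcP : ∀ (c : ℝ) (p : ℕ), ContDiff ℝ ∞ (fun y => c * P x t p y) := fun c p =>
    contDiff_const.mul (hP p)
  have hl : ∀ (c : ℝ) (p : ℕ), lap (fun y => c * P x t p y) =
      fun y => c * ((4 * (p : ℝ) * (p - 10)) * P x t (p + 1) y +
      (-(4 * (p : ℝ) * (p + 1) * t ^ 2)) * P x t (p + 2) y) := by
    intro c p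
    rw [lap_mul c (hP p), lap_P x ht p]
  have e1 : lap (P x t 7) = fun y => (-84) * P x t 8 y + (-(224 * t ^ 2)) * P x t 9 y := by
    rw [lap_P x ht 7]; funext y; push_cast; ring
  have e2 : lap (fun y => (-84) * P x t 8 y + (-(224 * t ^ 2)) * P x t 9 y) =
      fun y => (5376 * P x t 9 y + (32256 * t ^ 2) * P x t 10 y) + (80640 * t ^ 4) * P x t 11 y := by
    rw [lap_add (hcP _ _) (hcP _ _), hl, hl]; funext y; push_cast; ring
  have e3 : lap (fun y => (5376 * P x t 9 y + (32256 * t ^ 2) * P x t 10 y) +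
      (80640 * t ^ 4) * P x t 11 y) =
      fun y => (((-193536) * P x t 10 y + (-(1935360 * t ^ 2)) * P x t 11 y) +
        (-(10644480 * t ^ 4)) * P x t 12 y) + (-(42577920 * t ^ 6)) * P x t 13 y := by
    rw [lap_add ((hcP _ _).add (hcP _ _)) (hcP _ _), lap_add (hcP _ _) (hcP _ _), hl, hl, hl]
    funext y; push_cast; ring
  have e4 : lap (fun y => (((-193536) * P x t 10 y + (-(1935360 * t ^ 2)) * P x t 11 y) +
        (-(10644480 * t ^ 4)) * P x t 12 y) + (-(42577920 * t ^ 6)) * P x t 13 y) =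
      fun y => 30996725760 * (t ^ 8 * P x t 15 y) := by
    rw [lap_add (((hcP _ _).add (hcP _ _)).add (hcP _ _)) (hcP _ _),
      lap_add ((hcP _ _).add (hcP _ _)) (hcP _ _), lap_add (hcP _ _) (hcP _ _), hl, hl, hl, hl]
    funext y; push_cast; ring
  rw [e1, e2, e3, e4]

/-- the identity for `t > 0` -/
theorem fund_t {g : E 22 → ℝ} (hg : ContDiff ℝ ∞ g) (hgc : HasCompactSupport g) (x : E 22) {t : ℝ}
    (ht : 0 < t) : ∫ y, P x t 7 y * lap (lap (lap (lap g))) y =
      30996725760 * ∫ w : E 22, ((1 + ‖w‖ ^ 2) ^ 15)⁻¹ * g (x + t • w) := by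
  have hP := P_contDiff x ht 7
  have h1 := lap_contDiff hP
  have h2 := lap_contDiff h1
  have h3 := lap_contDiff h2
  have g1 := lap_contDiff hg
  have g2 := lap_contDiff g1
  have g3 := lap_contDiff g2
  have c1 := lap_compact hgc
  have c2 := lap_compact c1
  have c3 := lap_compact c2
  rw [ibp hP g3 c3, ibp h1 g2 c2, ibp h2 g1 c1, ibp h3 hg hgc, lap4_P x ht]
  have e1 : (fun y => 30996725760 * (t ^ 8 * P x t 15 y) * g y) =
      fun y => 30996725760 * (t ^ 8 * P x t 15 y * g y) := by funext y; ring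
  rw [e1, integral_const_mul]
  congr 1
  -- translate and scale
  have e2 : ∫ y, t ^ 8 * P x t 15 y * g y = ∫ y, t ^ 8 * P x t 15 (x + y) * g (x + y) :=
    (integral_add_left_eq_self (μ := (volume : Measure (E 22)))
      (fun y => t ^ 8 * P x t 15 y * g y) x).symm
  have e3 := Measure.integral_comp_smul (volume : Measure (E 22))
    (fun y => t ^ 8 * P x t 15 (x + y) * g (x + y)) t
  have e4 : Module.finrank ℝ (E 22) = 22 := by simp
  rw [e4, abs_of_nonneg (by positivity)] at e3
  rw [e2]
  have e5 : ∫ y, t ^ 8 * P x t 15 (x + y) * g (x + y) =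
      t ^ 22 * ∫ y : E 22, t ^ 8 * P x t 15 (x + t • y) * g (x + t • y) := by
    rw [e3, smul_eq_mul]
    field_simp
  rw [e5, ← integral_const_mul]
  congr 1
  funext w
  have e6 : P x t 15 (x + t • w) = (t ^ 30 * (1 + ‖w‖ ^ 2) ^ 15)⁻¹ := by
    unfold P R
    congr 1
    rw [add_sub_cancel_left, norm_smul, Real.norm_of_nonneg ht.le]
    ring
  rw [e6]
  field_simp

theorem fund : ∃ c0 : ℝ, 0 < c0 ∧ ∀ g : E 22 → ℝ, ContDiff ℝ ∞ g → HasCompactSupport g →
    ∀ x, ∫ y, ((‖x - y‖ ^ 2) ^ 7)⁻¹ * lap (lap (lap (lap g))) y = c0 * g x := by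
  have hI : Integrable (fun w : E 22 => ((1 + ‖w‖ ^ 2) ^ 15)⁻¹) := by
    have := integrable_rpow_neg_one_add_norm_sq (E := E 22) (μ := volume) (r := 30) (by simp; norm_num)
    refine this.congr (Filter.Eventually.of_forall fun w => ?_)
    simp only
    rw [show (-30 / 2 : ℝ) = -((15 : ℕ) : ℝ) by norm_num, Real.rpow_neg (by positivity),
      Real.rpow_natCast]
  have hIpos : 0 < ∫ w : E 22, ((1 + ‖w‖ ^ 2) ^ 15)⁻¹ := by
    rw [integral_pos_iff_support_of_nonneg (fun w => by positivity) hI]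
    have : Function.support (fun w : E 22 => ((1 + ‖w‖ ^ 2) ^ 15)⁻¹) = univ := by
      ext w
      simp only [Function.mem_support, mem_univ, iff_true]
      positivity
    rw [this]
    simp
  refine ⟨30996725760 * ∫ w : E 22, ((1 + ‖w‖ ^ 2) ^ 15)⁻¹, by positivity, ?_⟩
  intro g hg hgc x
  obtain ⟨G, hG⟩ : ∃ G, G = lap (lap (lap (lap g))) := ⟨_, rfl⟩
  have hGs : ContDiff ℝ ∞ G := by
    rw [hG]; exact lap_contDiff (lap_contDiff (lap_contDiff (lap_contDiff hg)))
  have hGc : HasCompactSupport G := by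
    rw [hG]; exact lap_compact (lap_compact (lap_compact (lap_compact hgc)))
  have hft : ∀ t : ℝ, 0 < t → ∫ y, P x t 7 y * G y =
      30996725760 * ∫ w : E 22, ((1 + ‖w‖ ^ 2) ^ 15)⁻¹ * g (x + t • w) := by
    intro t ht
    rw [hG]; exact fund_t hg hgc x ht
  rw [← hG]
  -- the right side converges
  obtain ⟨Cg, hCg⟩ := hg.continuous.bounded_above_of_compact_support hgc
  have hR : Tendsto (fun t : ℝ => 30996725760 * ∫ w : E 22, ((1 + ‖w‖ ^ 2) ^ 15)⁻¹ * g (x + t • w))
      (𝓝[>] 0) (𝓝 (30996725760 * ∫ w : E 22, ((1 + ‖w‖ ^ 2) ^ 15)⁻¹ * g x)) := by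
    refine Tendsto.const_mul _ ?_
    refine tendsto_integral_filter_of_dominated_convergence
      (fun w => ((1 + ‖w‖ ^ 2) ^ 15)⁻¹ * Cg) ?_ ?_ (hI.mul_const _) ?_
    · refine Filter.Eventually.of_forall fun t => ?_
      refine Continuous.aestronglyMeasurable ?_
      refine Continuous.mul ?_ (hg.continuous.comp (by fun_prop))
      exact Continuous.inv₀ (by fun_prop) (fun w => by positivity)
    · refine Filter.Eventually.of_forall fun t => Filter.Eventually.of_forall fun w => ?_
      rw [norm_mul, Real.norm_of_nonneg (by positivity)]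
      exact mul_le_mul_of_nonneg_left (hCg _) (by positivity)
    · refine Filter.Eventually.of_forall fun w => ?_
      refine Tendsto.const_mul _ ?_
      have : Tendsto (fun t : ℝ => g (x + t • w)) (𝓝 0) (𝓝 (g (x + (0 : ℝ) • w))) :=
        (hg.continuous.comp (by fun_prop : Continuous fun t : ℝ => x + t • w)).tendsto 0
      rw [zero_smul, add_zero] at this
      exact this.mono_left nhdsWithin_le_nhds
  -- the left side converges
  obtain ⟨CG, hCG⟩ := hGs.continuous.bounded_above_of_compact_support hGc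
  obtain ⟨ρ, hρ⟩ := hGc.isCompact.isBounded.subset_ball x
  have hker : IntegrableOn (fun z : E 22 => ((‖z‖ ^ 2) ^ 7)⁻¹) (ball 0 ρ) := by
    refine integrableOn_ball_of_norm_le_rpow (C := 1) (α := 14) (by simp) (by simp; norm_num) ?_
      ker_meas
    exact Filter.Eventually.of_forall ker_bound
  rw [← integrable_indicator_iff measurableSet_ball] at hker
  have hker2 := (hker.comp_sub_left x).mul_const CG
  have hL : Tendsto (fun t : ℝ => ∫ y, P x t 7 y * G y) (𝓝[>] 0)
      (𝓝 (∫ y, ((‖x - y‖ ^ 2) ^ 7)⁻¹ * G y)) := by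
    have hae : ∀ᵐ y ∂(volume : Measure (E 22)), y ≠ x := by
      have : (volume : Measure (E 22)) {x} = 0 := measure_singleton x
      exact compl_mem_ae_iff.mpr this
    refine tendsto_integral_filter_of_dominated_convergence _ ?_ ?_ hker2 ?_
    · filter_upwards [self_mem_nhdsWithin] with t ht
      exact ((P_contDiff x ht 7).continuous.mul hGs.continuous).aestronglyMeasurable
    · filter_upwards [self_mem_nhdsWithin] with t ht
      filter_upwards [hae] with y hy
      have hy' : 0 < ‖x - y‖ := norm_pos_iff.mpr (sub_ne_zero.mpr hy.symm)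
      have hPle : P x t 7 y ≤ ((‖x - y‖ ^ 2) ^ 7)⁻¹ := by
        unfold P R
        rw [norm_sub_rev y x]
        apply inv_anti₀ (by positivity)
        apply pow_le_pow_left₀ (by positivity)
        nlinarith [sq_nonneg t]
      have hP0 : 0 ≤ P x t 7 y := by
        unfold P
        have := R_pos x ht y
        positivity
      rw [norm_mul, Real.norm_of_nonneg hP0]
      by_cases hyB : y ∈ ball x ρ
      · have h1 : x - y ∈ ball (0 : E 22) ρ := by
          rw [mem_ball_zero_iff, norm_sub_rev]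
          rwa [mem_ball, dist_eq_norm] at hyB
        rw [indicator_of_mem h1]
        exact mul_le_mul hPle (hCG y) (norm_nonneg _) (by positivity)
      · have h2 : G y = 0 := by
          by_contra h0
          exact hyB (hρ (subset_tsupport _ h0))
        rw [h2, norm_zero, mul_zero]
        have hCG0 : 0 ≤ CG := (norm_nonneg _).trans (hCG y)
        refine mul_nonneg (indicator_nonneg (fun z _ => by positivity) _) hCG0
    · filter_upwards [hae] with y hy
      have hy' : 0 < ‖x - y‖ := norm_pos_iff.mpr (sub_ne_zero.mpr hy.symm)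
      refine Tendsto.mul_const _ ?_
      have hc : ContinuousAt (fun t : ℝ => P x t 7 y) 0 := by
        unfold P R
        apply ContinuousAt.inv₀
        · exact ((continuous_const.add (continuous_pow 2)).pow 7).continuousAt
        · rw [norm_sub_rev y x]; positivity
      have := hc.tendsto
      have e : P x 0 7 y = ((‖x - y‖ ^ 2) ^ 7)⁻¹ := by
        unfold P R; rw [norm_sub_rev y x]; simp
      rw [e] at this
      exact this.mono_left nhdsWithin_le_nhds
  have hR' := hR.congr' (f₂ := fun t : ℝ => ∫ y, P x t 7 y * G y) (by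
    filter_upwards [self_mem_nhdsWithin] with t ht
    exact (hft t ht).symm)
  have := tendsto_nhds_unique hL hR'
  rw [this, integral_mul_const]
  ring

end Pool.Agent.Helper676.GF
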