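import Pool.Agent.Helper676.GFDef

set_option autoImplicit false

/-! Proved by helper933 (job JB). -/

namespace Pool.Agent.Helper676.GF

open MeasureTheory Filter Topology Set Metric
open scoped ContDiff

/-- finitely many lattice points in a bounded set -/
theorem pt_finite (ε R : ℝ) (hε : 0 < ε) : {k : Fin 22 → ℤ | ‖pt ε k‖ ≤ R}.Finite := by
  apply Set.Finite.subset (Set.finite_Icc (fun _ : Fin 22 => -⌈R / ε⌉) (fun _ : Fin 22 => ⌈R / ε⌉))
  intro k hk
  have hk' : ‖pt ε k‖ ≤ R := hk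
  have h : ∀ i, |(k i : ℝ)| ≤ (⌈R / ε⌉ : ℝ) := by
    intro i
    have h1 : ‖(pt ε k) i‖ ≤ ‖pt ε k‖ := PiLp.norm_apply_le (pt ε k) i
    have h2 : (pt ε k) i = ε * (k i : ℝ) := rfl
    rw [h2, Real.norm_eq_abs, abs_mul, abs_of_pos hε] at h1
    have h3 : |(k i : ℝ)| ≤ R / ε := by
      rw [le_div_iff₀ hε]; linarith
    exact h3.trans (Int.le_ceil _)
  constructor
  · intro i
    have := (abs_le.mp (h i)).1
    have h4 : ((-⌈R / ε⌉ : ℤ) : ℝ) ≤ (k i : ℝ) := by push_cast; exact this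
    exact_mod_cast h4
  · intro i
    have := (abs_le.mp (h i)).2
    exact_mod_cast this

/-- the floor map -/
noncomputable def fl (ε : ℝ) (y : E 22) : Fin 22 → ℤ := fun i => ⌊y i / ε⌋

theorem fl_dist (ε : ℝ) (hε : 0 < ε) (y : E 22) : ‖y - pt ε (fl ε y)‖ ≤ 5 * ε := by
  rw [EuclideanSpace.norm_eq]
  apply Real.sqrt_le_iff.mpr
  refine ⟨by positivity, ?_⟩
  have h : ∀ i, ‖(y - pt ε (fl ε y)) i‖ ^ 2 ≤ ε ^ 2 := by
    intro i
    have h1 : (y - pt ε (fl ε y)) i = y i - ε * (⌊y i / ε⌋ : ℝ) := rfl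
    rw [h1, Real.norm_eq_abs, sq_abs]
    have h2 := Int.floor_le (y i / ε)
    have h3 := Int.lt_floor_add_one (y i / ε)
    rw [le_div_iff₀ hε] at h2
    rw [div_lt_iff₀ hε] at h3
    have h4 : 0 ≤ y i - ε * (⌊y i / ε⌋ : ℝ) := by linarith
    have h5 : y i - ε * (⌊y i / ε⌋ : ℝ) ≤ ε := by linarith
    exact pow_le_pow_left₀ h4 h5 2
  calc ∑ i, ‖(y - pt ε (fl ε y)) i‖ ^ 2 ≤ ∑ _i : Fin 22, ε ^ 2 := Finset.sum_le_sum (fun i _ => h i)
    _ = 22 * ε ^ 2 := by simp
    _ ≤ (5 * ε) ^ 2 := by nlinarith [sq_nonneg ε]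

theorem cube_eq (ε : ℝ) (hε : 0 < ε) (k : Fin 22 → ℤ) : {y : E 22 | fl ε y = k} =
    (@WithLp.ofLp 2 (Fin 22 → ℝ)) ⁻¹' (pi univ fun i => Ico (ε * (k i : ℝ)) (ε * (k i : ℝ) + ε)) := by
  ext y
  constructor
  · intro h i _
    have h0 : fl ε y = k := h
    have h1 : ⌊y i / ε⌋ = k i := congrFun h0 i
    rw [Int.floor_eq_iff, le_div_iff₀ hε, div_lt_iff₀ hε] at h1
    constructor
    · linarith [h1.1]
    · linarith [h1.2]
  · intro h
    show fl ε y = k
    funext i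
    have h1 := h i (mem_univ i)
    show ⌊y i / ε⌋ = k i
    rw [Int.floor_eq_iff, le_div_iff₀ hε, div_lt_iff₀ hε]
    obtain ⟨h2, h3⟩ := h1
    constructor
    · linarith
    · linarith

theorem cube_meas (ε : ℝ) (hε : 0 < ε) (k : Fin 22 → ℤ) : MeasurableSet {y : E 22 | fl ε y = k} := by
  rw [cube_eq ε hε k]
  exact (PiLp.volume_preserving_ofLp (Fin 22)).measurable (MeasurableSet.univ_pi (fun _ => measurableSet_Ico))

theorem cube_vol (ε : ℝ) (hε : 0 < ε) (k : Fin 22 → ℤ) : volume {y : E 22 | fl ε y = k} = ENNReal.ofReal (ε ^ 22) := by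
  rw [cube_eq ε hε k]
  rw [(PiLp.volume_preserving_ofLp (Fin 22)).measure_preimage
    (MeasurableSet.univ_pi (fun _ => measurableSet_Ico)).nullMeasurableSet]
  rw [Real.volume_pi_Ico]
  simp only [add_sub_cancel_left, Finset.prod_const, Finset.card_univ, Fintype.card_fin]
  rw [ENNReal.ofReal_pow hε.le]

theorem step_eq (ε : ℝ) (S : Finset (Fin 22 → ℤ)) (w : (Fin 22 → ℤ) → ℝ) :
    (fun y : E 22 => if fl ε y ∈ S then w (fl ε y) else 0) =
      fun y => ∑ k ∈ S, ({y : E 22 | fl ε y = k}).indicator (fun _ => w k) y := by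
  funext y
  simp only [Set.indicator_apply, Set.mem_ofPred_eq]
  rw [Finset.sum_ite_eq]

theorem step_integrable (ε : ℝ) (hε : 0 < ε) (S : Finset (Fin 22 → ℤ)) (w : (Fin 22 → ℤ) → ℝ) :
    Integrable (fun y : E 22 => if fl ε y ∈ S then w (fl ε y) else 0) := by
  rw [step_eq]
  apply integrable_finsetSum
  intro k _
  rw [integrable_indicator_iff (cube_meas ε hε k)]
  exact integrableOn_const (by rw [cube_vol ε hε k]; exact ENNReal.ofReal_ne_top)

theorem step_integral (ε : ℝ) (hε : 0 < ε) (S : Finset (Fin 22 → ℤ)) (w : (Fin 22 → ℤ) → ℝ) :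
    ∫ y : E 22, (if fl ε y ∈ S then w (fl ε y) else 0) = ∑ k ∈ S, ε ^ 22 * w k := by
  rw [step_eq]
  rw [integral_finsetSum]
  · apply Finset.sum_congr rfl
    intro k _
    rw [integral_indicator (cube_meas ε hε k), setIntegral_const]
    rw [measureReal_def, cube_vol ε hε k, ENNReal.toReal_ofReal (by positivity), smul_eq_mul]
  · intro k _
    rw [integrable_indicator_iff (cube_meas ε hε k)]
    exact integrableOn_const (by rw [cube_vol ε hε k]; exact ENNReal.ofReal_ne_top)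

/-- the dominating singular function -/
noncomputable def JJ (z : E 22) : ℝ := if ‖z‖ < 1 then (‖z‖ ^ 15)⁻¹ else 0

theorem JJ_nonneg (z : E 22) : 0 ≤ JJ z := by
  unfold JJ; split_ifs <;> positivity

theorem JJ_integrable : Integrable JJ := by
  have h := (MeasureTheory.integrable_fun_norm_addHaar (E := E 22) (F := ℝ) volume
    (f := fun t : ℝ => if t < 1 then (t ^ 15)⁻¹ else 0))
  apply h.2
  rw [finrank_euclideanSpace, Fintype.card_fin]
  have h2 : IntegrableOn (fun y : ℝ => y ^ 6) (Ioo 0 1) := by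
    apply (Continuous.integrableOn_Icc (by fun_prop)).mono_set Ioo_subset_Icc_self
  have h3 : (Ioo (0:ℝ) 1).indicator (fun y : ℝ => y ^ 6) =ᵐ[volume.restrict (Ioi 0)]
      (fun y : ℝ => y ^ (22 - 1) • (if y < 1 then (y ^ 15)⁻¹ else 0)) := by
    rw [Filter.EventuallyEq, ae_restrict_iff' measurableSet_Ioi]
    filter_upwards with y hy
    have hy0 : (0:ℝ) < y := hy
    rw [Set.indicator_apply]
    by_cases h1 : y < 1
    · rw [if_pos ⟨hy0, h1⟩, if_pos h1, smul_eq_mul]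
      field_simp
    · rw [if_neg (fun h => h1 h.2), if_neg h1, smul_zero]
  apply Integrable.congr _ h3
  rw [integrable_indicator_iff measurableSet_Ioo]
  exact h2.mono_measure (Measure.restrict_le_self)

theorem JJ_shift (x : E 22) : Integrable (fun y => JJ (x - y)) := JJ_integrable.comp_sub_left x

theorem JJ_shift_int (x : E 22) : ∫ y, JJ (x - y) = ∫ z, JJ z := integral_sub_left_eq_self JJ volume x

theorem K_le (z : E 22) : ((‖z‖ ^ 2) ^ 7)⁻¹ ≤ JJ z + 1 := by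
  unfold JJ
  rw [← pow_mul]
  by_cases h : ‖z‖ < 1
  · rw [if_pos h]
    rcases (norm_nonneg z).eq_or_lt with h0 | h0
    · rw [← h0]; norm_num
    · have : (‖z‖ ^ (2 * 7))⁻¹ = ‖z‖ * (‖z‖ ^ 15)⁻¹ := by field_simp
      rw [this]
      have h2 : 0 ≤ (‖z‖ ^ 15)⁻¹ := by positivity
      nlinarith
  · rw [if_neg h]
    push Not at h
    have : 1 ≤ ‖z‖ ^ (2 * 7) := one_le_pow₀ h
    have := inv_le_one_of_one_le₀ this
    linarith

theorem K_le_small (z : E 22) (r : ℝ) (hr : r ≤ 1) (hz : ‖z‖ < r) : ((‖z‖ ^ 2) ^ 7)⁻¹ ≤ r * JJ z := by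
  unfold JJ
  rw [← pow_mul]
  rw [if_pos (hz.trans_le hr)]
  rcases (norm_nonneg z).eq_or_lt with h0 | h0
  · rw [← h0]; norm_num
  · have : (‖z‖ ^ (2 * 7))⁻¹ = ‖z‖ * (‖z‖ ^ 15)⁻¹ := by field_simp
    rw [this]
    apply mul_le_mul_of_nonneg_right hz.le (by positivity)

theorem K_compare (ε : ℝ) (hε : 0 < ε) (x y p : E 22) (h1 : ε / 2 ≤ ‖x - p‖) (h2 : ‖y - p‖ ≤ 5 * ε)
    (hxy : y ≠ x) : ((‖x - p‖ ^ 2) ^ 7)⁻¹ ≤ 11 ^ 14 * ((‖x - y‖ ^ 2) ^ 7)⁻¹ := by
  have h3 : ‖x - y‖ ≤ 11 * ‖x - p‖ := by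
    calc ‖x - y‖ = ‖(x - p) - (y - p)‖ := by congr 1; abel
      _ ≤ ‖x - p‖ + ‖y - p‖ := norm_sub_le _ _
      _ ≤ 11 * ‖x - p‖ := by linarith
  have h4 : 0 < ‖x - y‖ := norm_pos_iff.mpr (sub_ne_zero.mpr (Ne.symm hxy))
  have h5 : 0 < ‖x - p‖ := by linarith
  rw [← pow_mul, ← pow_mul]
  have h6 : ‖x - y‖ ^ (2 * 7) ≤ 11 ^ 14 * ‖x - p‖ ^ (2 * 7) := by
    rw [← mul_pow]
    exact pow_le_pow_left₀ h4.le h3 14
  rw [inv_eq_one_div, inv_eq_one_div, mul_one_div, div_le_div_iff₀ (by positivity) (by positivity)]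
  linarith

/-- uniform bound of the singular lattice sums -/
theorem lattice_bound (R : ℝ) : ∃ C : ℝ, 0 < C ∧ ∀ ε, 0 < ε → ε ≤ 1 →
    ∀ S : Finset (Fin 22 → ℤ), (∀ k ∈ S, ‖pt ε k‖ ≤ R) →
    ∀ x, (∀ k ∈ S, ε / 2 ≤ ‖x - pt ε k‖) →
      ∑ k ∈ S, ε ^ 22 * ((‖x - pt ε k‖ ^ 2) ^ 7)⁻¹ ≤ C := by
  refine ⟨11 ^ 14 * ((∫ z, JJ z) + volume.real (closedBall (0 : E 22) (R + 5))) + 1, ?_, ?_⟩
  · have : 0 ≤ ∫ z, JJ z := integral_nonneg JJ_nonneg
    positivity
  intro ε hε hε1 S hS x hx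
  rw [← step_integral ε hε S (fun k => ((‖x - pt ε k‖ ^ 2) ^ 7)⁻¹)]
  have hne : ∀ᵐ y : E 22, y ≠ x := by
    rw [ae_iff]; simp
  have hb : Integrable (fun y => 11 ^ 14 * (JJ (x - y) + (closedBall (0 : E 22) (R + 5)).indicator (fun _ => (1:ℝ)) y)) := by
    apply Integrable.const_mul
    apply (JJ_shift x).add
    rw [integrable_indicator_iff measurableSet_closedBall]
    exact integrableOn_const measure_closedBall_lt_top.ne
  have hle : ∫ y : E 22, (if fl ε y ∈ S then ((‖x - pt ε (fl ε y)‖ ^ 2) ^ 7)⁻¹ else 0) ≤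
      ∫ y : E 22, 11 ^ 14 * (JJ (x - y) + (closedBall (0 : E 22) (R + 5)).indicator (fun _ => (1:ℝ)) y) := by
    apply integral_mono_ae (step_integrable ε hε S (fun k => ((‖x - pt ε k‖ ^ 2) ^ 7)⁻¹)) hb
    filter_upwards [hne] with y hy
    split_ifs with h
    · have h1 := K_compare ε hε x y (pt ε (fl ε y)) (hx _ h) (fl_dist ε hε y) hy
      refine h1.trans ?_
      apply mul_le_mul_of_nonneg_left _ (by positivity)
      rw [Set.indicator_of_mem]
      · exact K_le (x - y)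
      · rw [mem_closedBall_zero_iff]
        have h2 := hS _ h
        have h3 := fl_dist ε hε y
        have h4 : ‖y‖ ≤ ‖y - pt ε (fl ε y)‖ + ‖pt ε (fl ε y)‖ := by
          calc ‖y‖ = ‖(y - pt ε (fl ε y)) + pt ε (fl ε y)‖ := by congr 1; abel
            _ ≤ _ := norm_add_le _ _
        linarith
    · have h1 := JJ_nonneg (x - y)
      have h2 : 0 ≤ (closedBall (0 : E 22) (R + 5)).indicator (fun _ => (1:ℝ)) y :=
        Set.indicator_nonneg (fun _ _ => zero_le_one) y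
      positivity
  refine hle.trans ?_
  rw [integral_const_mul, integral_add (JJ_shift x), JJ_shift_int, integral_indicator measurableSet_closedBall, setIntegral_const]
  · simp
  · rw [integrable_indicator_iff measurableSet_closedBall]
    exact integrableOn_const measure_closedBall_lt_top.ne

theorem K_lip (δ : ℝ) (hδ : 0 < δ) (s t : ℝ) (hs : δ ≤ s) (ht : δ ≤ t) :
    |((s ^ 2) ^ 7)⁻¹ - ((t ^ 2) ^ 7)⁻¹| ≤ (14 * (δ⁻¹) ^ 15) * |s - t| := by
  have hs0 : 0 < s := by linarith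
  have ht0 : 0 < t := by linarith
  have h1 := abs_pow_sub_pow_le (s⁻¹) (t⁻¹) 14
  have h2 : s⁻¹ ≤ δ⁻¹ := by gcongr
  have h3 : t⁻¹ ≤ δ⁻¹ := by gcongr
  have h4 : max |s⁻¹| |t⁻¹| ≤ δ⁻¹ := by
    rw [abs_of_pos (by positivity), abs_of_pos (by positivity)]
    exact max_le h2 h3
  have h5 : |s⁻¹ - t⁻¹| ≤ (δ⁻¹) ^ 2 * |s - t| := by
    have : s⁻¹ - t⁻¹ = (s⁻¹ * t⁻¹) * (t - s) := by field_simp
    rw [this, abs_mul, abs_sub_comm t s]
    apply mul_le_mul_of_nonneg_right _ (abs_nonneg _)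
    rw [abs_of_pos (by positivity), sq]
    gcongr
  have h6 : ((s ^ 2) ^ 7)⁻¹ - ((t ^ 2) ^ 7)⁻¹ = s⁻¹ ^ 14 - t⁻¹ ^ 14 := by
    rw [← pow_mul, ← pow_mul, inv_pow, inv_pow]
  rw [h6]
  refine h1.trans ?_
  calc |s⁻¹ - t⁻¹| * ((14 : ℕ) : ℝ) * max |s⁻¹| |t⁻¹| ^ (14 - 1)
      ≤ ((δ⁻¹) ^ 2 * |s - t|) * ((14 : ℕ) : ℝ) * (δ⁻¹) ^ (14 - 1) := by gcongr
    _ = _ := by norm_num; ring

/-- Riemann sums with singular kernel converge uniformly -/
theorem riemann (g : E 22 → ℝ) (hg : Continuous g) (hc : HasCompactSupport g) :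
    ∀ η > 0, ∃ ε0 > 0, ∀ ε, 0 < ε → ε < ε0 → ∀ S : Finset (Fin 22 → ℤ),
      (∀ k, g (pt ε k) ≠ 0 → k ∈ S) → ∀ x : E 22,
      |∑ k ∈ S, (if ε / 2 ≤ ‖x - pt ε k‖ then
          ε ^ 22 * (g (pt ε k) * ((‖x - pt ε k‖ ^ 2) ^ 7)⁻¹) else 0) -
        ∫ y, g y * ((‖x - y‖ ^ 2) ^ 7)⁻¹| ≤ η := by
  intro η hη
  -- bounds on g
  obtain ⟨M, hM0, hM⟩ : ∃ M : ℝ, 0 < M ∧ ∀ y, |g y| ≤ M := by
    obtain ⟨C, hC⟩ := hc.exists_bound_of_continuous hg
    refine ⟨|C| + 1, by positivity, fun y => ?_⟩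
    have := hC y
    rw [Real.norm_eq_abs] at this
    have h2 := le_abs_self C
    linarith
  obtain ⟨R, hR⟩ : ∃ R : ℝ, ∀ y, g y ≠ 0 → ‖y‖ ≤ R := by
    obtain ⟨R, hR⟩ := hc.isCompact.isBounded.subset_closedBall (0 : E 22)
    refine ⟨R, fun y hy => ?_⟩
    have := hR (subset_tsupport g hy)
    rwa [mem_closedBall_zero_iff] at this
  have hguc : UniformContinuous g := hc.uniformContinuous_of_continuous hg
  set V := volume.real (closedBall (0 : E 22) (R + 5)) with hV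
  have hV0 : 0 ≤ V := measureReal_nonneg
  set I := ∫ z, JJ z with hI
  have hI0 : 0 ≤ I := integral_nonneg JJ_nonneg
  set C := M * (11 ^ 14 + 1) with hC
  have hC0 : 0 < C := by positivity
  -- choose r
  obtain ⟨r, hr0, hr1, hrη⟩ : ∃ r : ℝ, 0 < r ∧ r ≤ 1 ∧ C * r * I ≤ η / 2 := by
    refine ⟨min 1 (η / (2 * C * (I + 1))), ?_, min_le_left _ _, ?_⟩
    · apply lt_min one_pos; positivity
    · have h1 : min 1 (η / (2 * C * (I + 1))) ≤ η / (2 * C * (I + 1)) := min_le_right _ _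
      calc C * min 1 (η / (2 * C * (I + 1))) * I ≤ C * (η / (2 * C * (I + 1))) * I := by gcongr
        _ = η / 2 * (I / (I + 1)) := by field_simp
        _ ≤ η / 2 * 1 := by
          gcongr
          rw [div_le_one (by positivity)]; linarith
        _ = η / 2 := mul_one _
  -- choose s
  obtain ⟨s, hs0, hsη⟩ : ∃ s : ℝ, 0 < s ∧ s * V ≤ η / 2 := by
    refine ⟨η / (2 * (V + 1)), by positivity, ?_⟩
    have : η / (2 * (V + 1)) * V = η / 2 * (V / (V + 1)) := by field_simp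
    rw [this]
    calc η / 2 * (V / (V + 1)) ≤ η / 2 * 1 := by
          gcongr
          rw [div_le_one (by positivity)]; linarith
      _ = η / 2 := mul_one _
  -- Lipschitz/bound constants with δ = r/2
  set δ := r / 2 with hδ
  have hδ0 : 0 < δ := by positivity
  set A := (δ⁻¹) ^ 14 with hA
  have hA0 : 0 < A := by positivity
  set B := 14 * (δ⁻¹) ^ 15 with hB
  have hB0 : 0 < B := by positivity
  obtain ⟨τ, hτ0, hτ⟩ := Metric.uniformContinuous_iff.mp hguc (s / (2 * A)) (by positivity)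
  refine ⟨min (min 1 (r / 10)) (min (τ / 10) (s / (10 * M * B))), ?_, ?_⟩
  · apply lt_min (lt_min one_pos (by positivity)) (lt_min (by positivity) (by positivity))
  intro ε hε hε0 S hS x
  have he1 : ε < 1 := hε0.trans_le ((min_le_left _ _).trans (min_le_left _ _))
  have he2 : ε < r / 10 := hε0.trans_le ((min_le_left _ _).trans (min_le_right _ _))
  have he3 : ε < τ / 10 := hε0.trans_le ((min_le_right _ _).trans (min_le_left _ _))
  have he4 : ε < s / (10 * M * B) := hε0.trans_le ((min_le_right _ _).trans (min_le_right _ _))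
  set w : (Fin 22 → ℤ) → ℝ := fun k => if ε / 2 ≤ ‖x - pt ε k‖ then
      g (pt ε k) * ((‖x - pt ε k‖ ^ 2) ^ 7)⁻¹ else 0 with hw
  have hsum : ∑ k ∈ S, (if ε / 2 ≤ ‖x - pt ε k‖ then
          ε ^ 22 * (g (pt ε k) * ((‖x - pt ε k‖ ^ 2) ^ 7)⁻¹) else 0) = ∑ k ∈ S, ε ^ 22 * w k := by
    apply Finset.sum_congr rfl
    intro k _
    simp only [hw]
    split_ifs <;> simp
  rw [hsum, ← step_integral ε hε S w]
  have hball : Integrable ((closedBall (0 : E 22) (R + 5)).indicator (fun _ => (1:ℝ))) := by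
    rw [integrable_indicator_iff measurableSet_closedBall]
    exact integrableOn_const measure_closedBall_lt_top.ne
  have hgK : Integrable (fun y => g y * ((‖x - y‖ ^ 2) ^ 7)⁻¹) := by
    have hb : Integrable (fun y => M * (JJ (x - y) + (closedBall (0 : E 22) (R + 5)).indicator (fun _ => (1:ℝ)) y)) :=
      ((JJ_shift x).add hball).const_mul M
    apply hb.mono'
    · apply Measurable.aestronglyMeasurable
      have := hg.measurable
      fun_prop
    · filter_upwards with y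
      rw [Real.norm_eq_abs, abs_mul, abs_of_nonneg (by positivity : 0 ≤ ((‖x - y‖ ^ 2) ^ 7)⁻¹)]
      by_cases hy : g y = 0
      · rw [hy, abs_zero, zero_mul]
        have h1 := JJ_nonneg (x - y)
        have h2 : 0 ≤ (closedBall (0 : E 22) (R + 5)).indicator (fun _ => (1:ℝ)) y :=
          Set.indicator_nonneg (fun _ _ => zero_le_one) y
        positivity
      · rw [Set.indicator_of_mem (by rw [mem_closedBall_zero_iff]; linarith [hR y hy])]
        apply mul_le_mul (hM y) (K_le _) (by positivity) hM0.le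
  rw [← integral_sub (step_integrable ε hε S w) hgK]
  have hbound : Integrable (fun y => s * (closedBall (0 : E 22) (R + 5)).indicator (fun _ => (1:ℝ)) y
      + C * r * JJ (x - y)) := (hball.const_mul s).add ((JJ_shift x).const_mul (C * r))
  have hne : ∀ᵐ y : E 22, y ≠ x := by
    rw [ae_iff]; simp
  have hfin : ∫ y, (s * (closedBall (0 : E 22) (R + 5)).indicator (fun _ => (1:ℝ)) y
      + C * r * JJ (x - y)) = s * V + C * r * I := by
    rw [integral_add (hball.const_mul s) ((JJ_shift x).const_mul (C * r)), integral_const_mul, integral_const_mul,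
      JJ_shift_int, integral_indicator measurableSet_closedBall, setIntegral_const]
    simp [hV, hI]
  rw [← Real.norm_eq_abs]
  refine (norm_integral_le_of_norm_le hbound ?_).trans ?_
  · filter_upwards [hne] with y hy
    set p := pt ε (fl ε y) with hp
    have hyp : ‖y - p‖ ≤ 5 * ε := fl_dist ε hε y
    have hind0 : 0 ≤ (closedBall (0 : E 22) (R + 5)).indicator (fun _ => (1:ℝ)) y :=
      Set.indicator_nonneg (fun _ _ => zero_le_one) y
    have hJ0 := JJ_nonneg (x - y)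
    have hval : (if fl ε y ∈ S then w (fl ε y) else 0) =
        if ε / 2 ≤ ‖x - p‖ then g p * ((‖x - p‖ ^ 2) ^ 7)⁻¹ else 0 := by
      split_ifs with h1 h2 h3
      · simp only [hw]; rw [if_pos h2]
      · simp only [hw]; rw [if_neg h2]
      · have : g p = 0 := by
          by_contra h4
          exact h1 (hS _ h4)
        rw [this, zero_mul]
      · rfl
    rw [hval, Real.norm_eq_abs]
    have hpn : ‖y‖ ≤ ‖p‖ + 5 * ε := by
      calc ‖y‖ = ‖(y - p) + p‖ := by congr 1; abel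
        _ ≤ ‖y - p‖ + ‖p‖ := norm_add_le _ _
        _ ≤ _ := by linarith
    by_cases hyB : y ∈ closedBall (0 : E 22) (R + 5)
    · rw [Set.indicator_of_mem hyB, mul_one]
      by_cases hnear : ‖x - y‖ < r
      · -- near
        have hK := K_le_small (x - y) r hr1 hnear
        have hK0 : 0 ≤ ((‖x - y‖ ^ 2) ^ 7)⁻¹ := by positivity
        have h1 : |if ε / 2 ≤ ‖x - p‖ then g p * ((‖x - p‖ ^ 2) ^ 7)⁻¹ else 0| ≤
            M * (11 ^ 14 * ((‖x - y‖ ^ 2) ^ 7)⁻¹) := by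
          split_ifs with h2
          · rw [abs_mul, abs_of_nonneg (by positivity : 0 ≤ ((‖x - p‖ ^ 2) ^ 7)⁻¹)]
            apply mul_le_mul (hM p) (K_compare ε hε x y p h2 hyp hy) (by positivity) hM0.le
          · rw [abs_zero]; positivity
        have h2 : |g y * ((‖x - y‖ ^ 2) ^ 7)⁻¹| ≤ M * ((‖x - y‖ ^ 2) ^ 7)⁻¹ := by
          rw [abs_mul, abs_of_nonneg hK0]
          exact mul_le_mul_of_nonneg_right (hM y) hK0
        have h3 := abs_sub (if ε / 2 ≤ ‖x - p‖ then g p * ((‖x - p‖ ^ 2) ^ 7)⁻¹ else 0) (g y * ((‖x - y‖ ^ 2) ^ 7)⁻¹)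
        have h4 : C * ((‖x - y‖ ^ 2) ^ 7)⁻¹ ≤ C * (r * JJ (x - y)) := mul_le_mul_of_nonneg_left hK hC0.le
        have h5 : M * (11 ^ 14 * ((‖x - y‖ ^ 2) ^ 7)⁻¹) + M * ((‖x - y‖ ^ 2) ^ 7)⁻¹ = C * ((‖x - y‖ ^ 2) ^ 7)⁻¹ := by
          rw [hC]; ring
        have h6 : C * (r * JJ (x - y)) = C * r * JJ (x - y) := by ring
        linarith
      · -- far
        push Not at hnear
        have hxp : δ ≤ ‖x - p‖ := by
          have h1 : ‖x - y‖ ≤ ‖x - p‖ + ‖y - p‖ := by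
            calc ‖x - y‖ = ‖(x - p) - (y - p)‖ := by congr 1; abel
              _ ≤ _ := norm_sub_le _ _
          rw [hδ]; linarith
        have hxy' : δ ≤ ‖x - y‖ := by rw [hδ]; linarith
        have hchi : ε / 2 ≤ ‖x - p‖ := by rw [hδ] at hxp; linarith
        rw [if_pos hchi]
        have h1 : |g p - g y| ≤ s / (2 * A) := by
          have h2 : dist p y < τ := by
            rw [dist_comm, dist_eq_norm]; linarith
          have := hτ h2
          rw [Real.dist_eq] at this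
          exact this.le
        have h3 : |((‖x - p‖ ^ 2) ^ 7)⁻¹ - ((‖x - y‖ ^ 2) ^ 7)⁻¹| ≤ B * (5 * ε) := by
          refine (K_lip δ hδ0 _ _ hxp hxy').trans ?_
          apply mul_le_mul_of_nonneg_left _ hB0.le
          have h4 := abs_norm_sub_norm_le (x - p) (x - y)
          have h5 : (x - p) - (x - y) = y - p := by abel
          rw [h5] at h4
          linarith
        have h4 : |((‖x - p‖ ^ 2) ^ 7)⁻¹| ≤ A := by
          rw [abs_of_nonneg (by positivity), ← pow_mul, hA, inv_pow]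
          gcongr
        have h5 : g p * ((‖x - p‖ ^ 2) ^ 7)⁻¹ - g y * ((‖x - y‖ ^ 2) ^ 7)⁻¹ =
            (g p - g y) * ((‖x - p‖ ^ 2) ^ 7)⁻¹ + g y * (((‖x - p‖ ^ 2) ^ 7)⁻¹ - ((‖x - y‖ ^ 2) ^ 7)⁻¹) := by ring
        rw [h5]
        have h6 : |(g p - g y) * ((‖x - p‖ ^ 2) ^ 7)⁻¹| ≤ s / (2 * A) * A := by
          rw [abs_mul]; exact mul_le_mul h1 h4 (abs_nonneg _) (by positivity)
        have h7 : |g y * (((‖x - p‖ ^ 2) ^ 7)⁻¹ - ((‖x - y‖ ^ 2) ^ 7)⁻¹)| ≤ M * (B * (5 * ε)) := by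
          rw [abs_mul]; exact mul_le_mul (hM y) h3 (abs_nonneg _) hM0.le
        have h8 : s / (2 * A) * A = s / 2 := by field_simp
        have h9 : M * (B * (5 * ε)) ≤ s / 2 := by
          rw [lt_div_iff₀ (by positivity)] at he4
          linarith
        have h10 := abs_add_le ((g p - g y) * ((‖x - p‖ ^ 2) ^ 7)⁻¹) (g y * (((‖x - p‖ ^ 2) ^ 7)⁻¹ - ((‖x - y‖ ^ 2) ^ 7)⁻¹))
        have h11 : 0 ≤ C * r * JJ (x - y) := by positivity
        linarith
    · -- outside the ball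
      have hgy : g y = 0 := by
        by_contra h
        apply hyB
        rw [mem_closedBall_zero_iff]; linarith [hR y h]
      have hgp : g p = 0 := by
        by_contra h
        apply hyB
        rw [mem_closedBall_zero_iff]
        have := hR p h
        linarith
      rw [hgy, hgp]
      simp only [zero_mul, ite_self, sub_zero, abs_zero]
      positivity
  · rw [hfin]; linarith

end Pool.Agent.Helper676.GF
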