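import Pool.Agent.Helper676.GFDef

set_option autoImplicit false

/-! Proved by helper2 (job JC). -/

namespace Pool.Agent.Helper676.GF

open MeasureTheory Filter Topology Set Metric
open scoped ContDiff

/-- derivative bounds for homogeneous functions -/
theorem hom_bound {n : ℕ} (f : E n → ℂ) (hf : ContDiffOn ℝ ∞ f {0}ᶜ) (c : ℝ → ℂ) (σ : ℝ)
    (hc : ∀ t : ℝ, 0 < t → ‖c t‖ = t ^ σ)
    (hom : ∀ t : ℝ, 0 < t → ∀ z : E n, z ≠ 0 → f (t • z) = c t * f z) (k : ℕ) :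
    ∃ C : ℝ, 0 < C ∧ ∀ z : E n, z ≠ 0 → ‖iteratedFDeriv ℝ k f z‖ ≤ C * ‖z‖ ^ (σ - k) := by
  have hopen : IsOpen ({0}ᶜ : Set (E n)) := isOpen_compl_singleton
  have huniq : UniqueDiffOn ℝ ({0}ᶜ : Set (E n)) := hopen.uniqueDiffOn
  have hk : (k : WithTop ℕ∞) ≤ ∞ := by exact_mod_cast le_top
  have hcont : ContinuousOn (fun z => ‖iteratedFDerivWithin ℝ k f {0}ᶜ z‖) {0}ᶜ :=
    (hf.continuousOn_iteratedFDerivWithin hk huniq).norm
  have hsub : sphere (0 : E n) 1 ⊆ {0}ᶜ := by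
    intro z hz h
    rw [mem_singleton_iff] at h
    subst h
    simp at hz
  obtain ⟨C, hC⟩ := (isCompact_sphere (0 : E n) 1).bddAbove_image (hcont.mono hsub)
  refine ⟨max C 1, by positivity, ?_⟩
  intro z hz
  obtain ⟨t, htz⟩ : ∃ t, t = ‖z‖ := ⟨_, rfl⟩
  have ht : 0 < t := htz ▸ norm_pos_iff.2 hz
  have hz' : z ∈ ({0}ᶜ : Set (E n)) := hz
  have h1 : iteratedFDeriv ℝ k f z = iteratedFDerivWithin ℝ k f {0}ᶜ z :=
    (iteratedFDerivWithin_of_isOpen k hopen hz').symm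
  let g : E n →L[ℝ] E n := t⁻¹ • ContinuousLinearMap.id ℝ (E n)
  have hg : ∀ x, g x = t⁻¹ • x := fun x => rfl
  have hgne : ∀ x, x ≠ 0 → g x ≠ 0 := by
    intro x hx
    rw [hg]
    exact smul_ne_zero (inv_ne_zero ht.ne') hx
  have hpre : g ⁻¹' {0}ᶜ = ({0}ᶜ : Set (E n)) := by
    ext x
    simp only [mem_preimage, mem_compl_iff, mem_singleton_iff, hg]
    rw [smul_eq_zero]
    constructor
    · intro h h'; exact h (Or.inr h')
    · rintro h (h' | h')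
      · exact inv_ne_zero ht.ne' h'
      · exact h h'
  have h2 : iteratedFDerivWithin ℝ k f {0}ᶜ z =
      iteratedFDerivWithin ℝ k (c t • (f ∘ g)) {0}ᶜ z := by
    refine iteratedFDerivWithin_congr (fun x hx => ?_) hz' k
    have hx' : x ≠ 0 := hx
    simp only [Pi.smul_apply, Function.comp_apply, smul_eq_mul]
    rw [← hom t ht (g x) (hgne x hx'), hg, smul_smul, mul_inv_cancel₀ ht.ne', one_smul]
  have h3 : ContDiffOn ℝ ∞ (f ∘ g) {0}ᶜ := by
    have := hf.comp_continuousLinearMap g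
    rwa [hpre] at this
  have h4 : iteratedFDerivWithin ℝ k (f ∘ g) {0}ᶜ z =
      (iteratedFDerivWithin ℝ k f {0}ᶜ (g z)).compContinuousLinearMap fun _ => g := by
    have := g.iteratedFDerivWithin_comp_right hf huniq (by rw [hpre]; exact huniq)
      (x := z) (hgne z hz) hk
    rwa [hpre] at this
  have hgz : g z ∈ sphere (0 : E n) 1 := by
    rw [mem_sphere_zero_iff_norm, hg, norm_smul, norm_inv, Real.norm_of_nonneg ht.le, ← htz,
      inv_mul_cancel₀ ht.ne']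
  have h5 : ‖iteratedFDerivWithin ℝ k f {0}ᶜ (g z)‖ ≤ C := hC ⟨g z, hgz, rfl⟩
  have hgn : ‖g‖ ≤ t⁻¹ := by
    refine ContinuousLinearMap.opNorm_le_bound _ (by positivity) ?_
    intro x
    rw [hg, norm_smul, norm_inv, Real.norm_of_nonneg ht.le]
  have h6 : ‖iteratedFDerivWithin ℝ k (f ∘ g) {0}ᶜ z‖ ≤ C * (t⁻¹)^k := by
    rw [h4]
    refine (ContinuousMultilinearMap.norm_compContinuousLinearMap_le _ _).trans ?_
    rw [Finset.prod_const, Finset.card_univ, Fintype.card_fin]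
    exact mul_le_mul h5 (pow_le_pow_left₀ (norm_nonneg _) hgn k) (by positivity)
      ((norm_nonneg _).trans h5)
  rw [h1, h2, iteratedFDerivWithin_const_smul_apply ((h3 z hz').of_le hk) huniq hz', norm_smul,
    hc t ht, ← htz]
  have h7 : t ^ (σ - k) = t ^ σ * (t⁻¹)^k := by
    rw [Real.rpow_sub ht, Real.rpow_natCast, inv_pow]
    rfl
  rw [h7]
  have h8 : 0 ≤ t ^ σ := Real.rpow_nonneg ht.le σ
  calc t ^ σ * ‖iteratedFDerivWithin ℝ k (f ∘ g) {0}ᶜ z‖ ≤ t ^ σ * (C * (t⁻¹)^k) :=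
        mul_le_mul_of_nonneg_left h6 h8
    _ ≤ t ^ σ * (max C 1 * (t⁻¹)^k) := by
        apply mul_le_mul_of_nonneg_left _ h8
        exact mul_le_mul_of_nonneg_right (le_max_left _ _) (by positivity)
    _ = max C 1 * (t ^ σ * t⁻¹ ^ k) := by ring

/-- real valued version with integer exponents -/
theorem hom_bound_real {n : ℕ} (f : E n → ℝ) (hf : ContDiffOn ℝ ∞ f {0}ᶜ) (p : ℕ)
    (hom : ∀ t : ℝ, 0 < t → ∀ z : E n, z ≠ 0 → f (t • z) = (t ^ p)⁻¹ * f z) (k : ℕ) :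
    ∃ C : ℝ, 0 < C ∧ ∀ z : E n, z ≠ 0 → ‖iteratedFDeriv ℝ k f z‖ ≤ C * (‖z‖ ^ (p + k))⁻¹ := by
  have hF : ContDiffOn ℝ ∞ (Complex.ofRealLI ∘ f) {0}ᶜ :=
    (Complex.ofRealLI.contDiff).comp_contDiffOn hf
  obtain ⟨C, hC0, hC⟩ := hom_bound (Complex.ofRealLI ∘ f) hF (fun t => (((t ^ p)⁻¹ : ℝ) : ℂ)) (-(p:ℝ))
    (fun t ht => by
      rw [Complex.norm_real, Real.norm_of_nonneg (by positivity), Real.rpow_neg ht.le,
        Real.rpow_natCast])
    (fun t ht z hz => by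
      simp only [Function.comp_apply, Complex.ofRealLI_apply]
      rw [hom t ht z hz, Complex.ofReal_mul]) k
  refine ⟨C, hC0, fun z hz => ?_⟩
  have hopen : IsOpen ({0}ᶜ : Set (E n)) := isOpen_compl_singleton
  have hat : ContDiffAt ℝ ∞ f z := hf.contDiffAt (hopen.mem_nhds hz)
  have h1 := hC z hz
  rw [LinearIsometry.norm_iteratedFDeriv_comp_left Complex.ofRealLI hat (by exact_mod_cast le_top)] at h1
  refine h1.trans (le_of_eq ?_)
  congr 1
  have hz0 : 0 < ‖z‖ := norm_pos_iff.2 hz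
  have : (-(p:ℝ) - (k:ℝ)) = -((p + k : ℕ) : ℝ) := by push_cast; ring
  rw [this, Real.rpow_neg hz0.le, Real.rpow_natCast]

end Pool.Agent.Helper676.GF
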