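import Mathlib

set_option autoImplicit false

/-! Definitions for the polyharmonic Green function problem. -/

namespace Pool.Agent.Helper676.GF

open MeasureTheory Filter Topology Set Metric
open scoped ContDiff

abbrev E (n : ℕ) := EuclideanSpace ℝ (Fin n)

/-- the Laplacian `Δu = ∑ᵢ ∂ᵢ∂ᵢu` -/
noncomputable def lap {n : ℕ} (u : E n → ℝ) (x : E n) : ℝ :=
  ∑ i : Fin n, fderiv ℝ (fun y => fderiv ℝ u y (EuclideanSpace.single i 1)) x
    (EuclideanSpace.single i 1)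

/-- lattice points -/
noncomputable def pt (ε : ℝ) (k : Fin 22 → ℤ) : E 22 := WithLp.toLp 2 (fun i => ε * (k i : ℝ))

/-- capacitary potential of the unit ball for `Δ⁴` in dimension 22, as a function of `ρ = ‖z‖²` -/
noncomputable def hr (ρ : ℝ) : ℝ :=
  120 * (ρ ^ 7)⁻¹ - 315 * (ρ ^ 8)⁻¹ + 280 * (ρ ^ 9)⁻¹ - 84 * (ρ ^ 10)⁻¹

end Pool.Agent.Helper676.GF
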