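import Pool.Agent.Helper676.GFDef

set_option autoImplicit false

/-! Proved by helper49 (job JE). -/

namespace Pool.Agent.Helper676.GF

open MeasureTheory Filter Topology Set Metric
open scoped ContDiff

/-! ### helper lemmas -/

theorem lap_congr_h {n : ℕ} {u v : E n → ℝ} {x : E n} (h : u =ᶠ[𝓝 x] v) : lap u x = lap v x := by
  unfold lap
  refine Finset.sum_congr rfl fun i _ => ?_
  have h1 : (fun y => fderiv ℝ u y (EuclideanSpace.single i 1)) =ᶠ[𝓝 x]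
      (fun y => fderiv ℝ v y (EuclideanSpace.single i 1)) := by
    filter_upwards [h.eventuallyEq_nhds] with y hy
    rw [hy.fderiv_eq]
  rw [h1.fderiv_eq]

theorem inner_single_h {n : ℕ} (y : E n) (i : Fin n) :
    inner ℝ y (EuclideanSpace.single i (1:ℝ)) = y i := by
  rw [EuclideanSpace.inner_single_right]
  simp

theorem radial_fderiv_h {n : ℕ} {g g1 : ℝ → ℝ} (hg : ∀ ρ, 0 < ρ → HasDerivAt g (g1 ρ) ρ)
    {y : E n} (hy : y ≠ 0) (v : E n) :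
    fderiv ℝ (fun y : E n => g (‖y‖ ^ 2)) y v = g1 (‖y‖ ^ 2) * (2 * inner ℝ y v) := by
  have hpos : 0 < ‖y‖ ^ 2 := by
    have := norm_pos_iff.2 hy
    positivity
  have h1 : HasFDerivAt (fun y : E n => ‖y‖ ^ 2) (2 • (innerSL ℝ y)) y :=
    (hasStrictFDerivAt_norm_sq y).hasFDerivAt
  have h2 := (hg _ hpos).comp_hasFDerivAt y h1
  have h3 : HasFDerivAt (fun y : E n => g (‖y‖ ^ 2)) (g1 (‖y‖ ^ 2) • (2 • (innerSL ℝ y))) y := h2
  rw [h3.fderiv]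
  simp

theorem lap_radial_h {g g1 g2 : ℝ → ℝ} (hg : ∀ ρ, 0 < ρ → HasDerivAt g (g1 ρ) ρ)
    (hg1 : ∀ ρ, 0 < ρ → HasDerivAt g1 (g2 ρ) ρ) {x : E 22} (hx : x ≠ 0) :
    lap (fun y : E 22 => g (‖y‖ ^ 2)) x =
      4 * ‖x‖ ^ 2 * g2 (‖x‖ ^ 2) + 44 * g1 (‖x‖ ^ 2) := by
  unfold lap
  have hterm : ∀ i : Fin 22, fderiv ℝ (fun y => fderiv ℝ (fun y : E 22 => g (‖y‖ ^ 2)) y
      (EuclideanSpace.single i 1)) x (EuclideanSpace.single i 1) =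
      2 * g1 (‖x‖ ^ 2) + 4 * (x i) ^ 2 * g2 (‖x‖ ^ 2) := by
    intro i
    have h1 : (fun y => fderiv ℝ (fun y : E 22 => g (‖y‖ ^ 2)) y (EuclideanSpace.single i 1))
        =ᶠ[𝓝 x] (fun y : E 22 => g1 (‖y‖ ^ 2) * (2 * y i)) := by
      filter_upwards [isOpen_ne.mem_nhds hx] with y hy
      rw [radial_fderiv_h hg hy, inner_single_h]
    rw [h1.fderiv_eq]
    have hpos : 0 < ‖x‖ ^ 2 := by
      have := norm_pos_iff.2 hx
      positivity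
    have h2 : HasFDerivAt (fun y : E 22 => ‖y‖ ^ 2) (2 • (innerSL ℝ x)) x :=
      (hasStrictFDerivAt_norm_sq x).hasFDerivAt
    have h3 : HasFDerivAt (fun y : E 22 => g1 (‖y‖ ^ 2)) (g2 (‖x‖ ^ 2) • (2 • (innerSL ℝ x))) x :=
      (hg1 _ hpos).comp_hasFDerivAt x h2
    have h4 : HasFDerivAt (fun y : E 22 => 2 * y i)
        ((2:ℝ) • (EuclideanSpace.proj i : E 22 →L[ℝ] ℝ)) x :=
      ((EuclideanSpace.proj i : E 22 →L[ℝ] ℝ).hasFDerivAt).const_mul 2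
    have h5 := h3.mul h4
    have h6 : fderiv ℝ (fun y : E 22 => g1 (‖y‖ ^ 2) * (2 * y i)) x = _ := h5.fderiv
    rw [h6]
    have h8 := inner_single_h x i
    simp [h8]
    ring
  rw [Finset.sum_congr rfl fun i _ => hterm i, Finset.sum_add_distrib, Finset.sum_const,
    Finset.card_univ, Fintype.card_fin, nsmul_eq_mul]
  have h7 : ∑ i : Fin 22, 4 * (x i) ^ 2 * g2 (‖x‖ ^ 2) = 4 * ‖x‖ ^ 2 * g2 (‖x‖ ^ 2) := by
    rw [EuclideanSpace.norm_sq_eq, ← Finset.sum_mul, ← Finset.mul_sum]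
    simp
  rw [h7]
  push_cast
  ring

theorem lap_lap_radial_h {g g1 g2 g3 g4 : ℝ → ℝ} (hg : ∀ ρ, 0 < ρ → HasDerivAt g (g1 ρ) ρ)
    (hg1 : ∀ ρ, 0 < ρ → HasDerivAt g1 (g2 ρ) ρ) (hg2 : ∀ ρ, 0 < ρ → HasDerivAt g2 (g3 ρ) ρ)
    (hg3 : ∀ ρ, 0 < ρ → HasDerivAt g3 (g4 ρ) ρ) {x : E 22} (hx : x ≠ 0) :
    lap (lap (fun y : E 22 => g (‖y‖ ^ 2))) x =
      16 * (‖x‖ ^ 2) ^ 2 * g4 (‖x‖ ^ 2) + 384 * ‖x‖ ^ 2 * g3 (‖x‖ ^ 2) +
        2112 * g2 (‖x‖ ^ 2) := by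
  have h1 : lap (fun y : E 22 => g (‖y‖ ^ 2)) =ᶠ[𝓝 x]
      fun y : E 22 => (fun ρ => 4 * ρ * g2 ρ + 44 * g1 ρ) (‖y‖ ^ 2) := by
    filter_upwards [isOpen_ne.mem_nhds hx] with y hy
    exact lap_radial_h hg hg1 hy
  rw [lap_congr_h h1]
  have h2 : ∀ ρ, 0 < ρ → HasDerivAt (fun ρ => 4 * ρ * g2 ρ + 44 * g1 ρ)
      ((fun ρ => 4 * ρ * g3 ρ + 48 * g2 ρ) ρ) ρ := by
    intro ρ hρ
    have a := (((hasDerivAt_id ρ).const_mul 4).mul (hg2 ρ hρ)).add ((hg1 ρ hρ).const_mul 44)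
    refine (a.congr_deriv ?_)
    simp
    ring
  have h3 : ∀ ρ, 0 < ρ → HasDerivAt (fun ρ => 4 * ρ * g3 ρ + 48 * g2 ρ)
      ((fun ρ => 4 * ρ * g4 ρ + 52 * g3 ρ) ρ) ρ := by
    intro ρ hρ
    have a := (((hasDerivAt_id ρ).const_mul 4).mul (hg3 ρ hρ)).add ((hg2 ρ hρ).const_mul 48)
    refine (a.congr_deriv ?_)
    simp
    ring
  rw [lap_radial_h h2 h3 hx]
  ring


/-- product rule for a chain of derivatives -/
theorem chain_mul_h {f0 f1 f2 f3 f4 u0 u1 u2 u3 u4 : ℝ → ℝ}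
    (hf0 : ∀ ρ, 0 < ρ → HasDerivAt f0 (f1 ρ) ρ) (hf1 : ∀ ρ, 0 < ρ → HasDerivAt f1 (f2 ρ) ρ)
    (hf2 : ∀ ρ, 0 < ρ → HasDerivAt f2 (f3 ρ) ρ) (hf3 : ∀ ρ, 0 < ρ → HasDerivAt f3 (f4 ρ) ρ)
    (hu0 : ∀ ρ, 0 < ρ → HasDerivAt u0 (u1 ρ) ρ) (hu1 : ∀ ρ, 0 < ρ → HasDerivAt u1 (u2 ρ) ρ)
    (hu2 : ∀ ρ, 0 < ρ → HasDerivAt u2 (u3 ρ) ρ) (hu3 : ∀ ρ, 0 < ρ → HasDerivAt u3 (u4 ρ) ρ) :
    (∀ ρ, 0 < ρ → HasDerivAt (fun ρ => f0 ρ * u0 ρ) (f1 ρ * u0 ρ + f0 ρ * u1 ρ) ρ) ∧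
    (∀ ρ, 0 < ρ → HasDerivAt (fun ρ => f1 ρ * u0 ρ + f0 ρ * u1 ρ)
      (f2 ρ * u0 ρ + 2 * (f1 ρ * u1 ρ) + f0 ρ * u2 ρ) ρ) ∧
    (∀ ρ, 0 < ρ → HasDerivAt (fun ρ => f2 ρ * u0 ρ + 2 * (f1 ρ * u1 ρ) + f0 ρ * u2 ρ)
      (f3 ρ * u0 ρ + 3 * (f2 ρ * u1 ρ) + 3 * (f1 ρ * u2 ρ) + f0 ρ * u3 ρ) ρ) ∧
    (∀ ρ, 0 < ρ → HasDerivAt
      (fun ρ => f3 ρ * u0 ρ + 3 * (f2 ρ * u1 ρ) + 3 * (f1 ρ * u2 ρ) + f0 ρ * u3 ρ)
      (f4 ρ * u0 ρ + 4 * (f3 ρ * u1 ρ) + 6 * (f2 ρ * u2 ρ) + 4 * (f1 ρ * u3 ρ) + f0 ρ * u4 ρ)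
      ρ) := by
  refine ⟨fun ρ h => (hf0 ρ h).mul (hu0 ρ h), fun ρ h => ?_, fun ρ h => ?_, fun ρ h => ?_⟩
  · refine (((hf1 ρ h).mul (hu0 ρ h)).add ((hf0 ρ h).mul (hu1 ρ h))).congr_deriv ?_
    ring
  · refine ((((hf2 ρ h).mul (hu0 ρ h)).add (((hf1 ρ h).mul (hu1 ρ h)).const_mul 2)).add
      ((hf0 ρ h).mul (hu2 ρ h))).congr_deriv ?_
    ring
  · refine (((((hf3 ρ h).mul (hu0 ρ h)).add (((hf2 ρ h).mul (hu1 ρ h)).const_mul 3)).add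
      (((hf1 ρ h).mul (hu2 ρ h)).const_mul 3)).add ((hf0 ρ h).mul (hu3 ρ h))).congr_deriv ?_
    ring

/-- the derivatives of `1 - hr` -/
noncomputable def f1 (ρ : ℝ) : ℝ := 840 * ((ρ - 1) ^ 3 * (ρ ^ 11)⁻¹)
noncomputable def f2 (ρ : ℝ) : ℝ :=
  840 * (3 * (ρ - 1) ^ 2 * (ρ ^ 11)⁻¹ - 11 * (ρ - 1) ^ 3 * (ρ ^ 12)⁻¹)
noncomputable def f3 (ρ : ℝ) : ℝ :=
  840 * (6 * (ρ - 1) * (ρ ^ 11)⁻¹ - 66 * (ρ - 1) ^ 2 * (ρ ^ 12)⁻¹ +
    132 * (ρ - 1) ^ 3 * (ρ ^ 13)⁻¹)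
noncomputable def f4 (ρ : ℝ) : ℝ :=
  840 * (6 * (ρ ^ 11)⁻¹ - 198 * (ρ - 1) * (ρ ^ 12)⁻¹ + 1188 * (ρ - 1) ^ 2 * (ρ ^ 13)⁻¹ -
    1716 * (ρ - 1) ^ 3 * (ρ ^ 14)⁻¹)

theorem inv_pow_deriv_h (n : ℕ) {ρ : ℝ} (h : 0 < ρ) :
    HasDerivAt (fun ρ : ℝ => (ρ ^ (n + 1))⁻¹) (-((n + 1) * (ρ ^ (n + 2))⁻¹)) ρ := by
  have h1 := (hasDerivAt_pow (n + 1) ρ).inv (pow_ne_zero _ h.ne')
  refine h1.congr_deriv ?_
  push_cast
  field_simp
  ring

theorem f0_deriv_h {ρ : ℝ} (h : 0 < ρ) : HasDerivAt (fun ρ => 1 - hr ρ) (f1 ρ) ρ := by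
  have a7 := (inv_pow_deriv_h 6 h).const_mul 120
  have a8 := (inv_pow_deriv_h 7 h).const_mul 315
  have a9 := (inv_pow_deriv_h 8 h).const_mul 280
  have a10 := (inv_pow_deriv_h 9 h).const_mul 84
  have h1 := (((a7.sub a8).add a9).sub a10).const_sub 1
  refine h1.congr_deriv ?_
  unfold f1
  norm_num
  field_simp
  ring

theorem sub_pow_deriv_h (n : ℕ) (ρ : ℝ) :
    HasDerivAt (fun ρ : ℝ => (ρ - 1) ^ (n + 1)) ((n + 1) * (ρ - 1) ^ n) ρ := by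
  have h1 := ((hasDerivAt_id ρ).sub_const 1).pow (n + 1)
  refine h1.congr_deriv ?_
  simp

theorem f1_deriv_h {ρ : ℝ} (h : 0 < ρ) : HasDerivAt f1 (f2 ρ) ρ := by
  have h1 := ((sub_pow_deriv_h 2 ρ).mul (inv_pow_deriv_h 10 h)).const_mul 840
  refine h1.congr_deriv ?_
  unfold f2
  norm_num
  ring

theorem f2_deriv_h {ρ : ℝ} (h : 0 < ρ) : HasDerivAt f2 (f3 ρ) ρ := by
  have h1 := ((((sub_pow_deriv_h 1 ρ).const_mul 3).mul (inv_pow_deriv_h 10 h)).sub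
    (((sub_pow_deriv_h 2 ρ).const_mul 11).mul (inv_pow_deriv_h 11 h))).const_mul 840
  refine h1.congr_deriv ?_
  unfold f3
  norm_num
  ring

theorem f3_deriv_h {ρ : ℝ} (h : 0 < ρ) : HasDerivAt f3 (f4 ρ) ρ := by
  have b1 : HasDerivAt (fun ρ : ℝ => 6 * (ρ - 1)) 6 ρ := by
    have := ((hasDerivAt_id ρ).sub_const 1).const_mul 6
    simpa using this
  have h1 := (((b1.mul (inv_pow_deriv_h 10 h)).sub
    (((sub_pow_deriv_h 1 ρ).const_mul 66).mul (inv_pow_deriv_h 11 h))).add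
    (((sub_pow_deriv_h 2 ρ).const_mul 132).mul (inv_pow_deriv_h 12 h))).const_mul 840
  refine h1.congr_deriv ?_
  unfold f4
  norm_num
  ring

/-- the cut-off -/
noncomputable def sc (t : ℝ) : ℝ := Real.smoothTransition (2 - t)

theorem sc_smooth : ContDiff ℝ ∞ sc := by
  unfold sc
  exact Real.smoothTransition.contDiff.comp (contDiff_const.sub contDiff_id)

theorem sc_deriv_h (k : ℕ) (t : ℝ) :
    HasDerivAt (iteratedDeriv k sc) (iteratedDeriv (k + 1) sc t) t := by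
  rw [iteratedDeriv_succ]
  apply DifferentiableAt.hasDerivAt
  exact (sc_smooth.differentiable_iteratedDeriv k (by exact_mod_cast WithTop.coe_lt_top _)) t

theorem sc_zero {t : ℝ} (h : 2 < t) (k : ℕ) : iteratedDeriv k sc t = 0 := by
  have h1 : sc =ᶠ[𝓝 t] fun _ => (0:ℝ) := by
    filter_upwards [Ioi_mem_nhds h] with y hy
    unfold sc
    apply Real.smoothTransition.zero_of_nonpos
    have : (2:ℝ) < y := hy
    linarith
  rw [h1.iteratedDeriv_eq]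
  simp [iteratedDeriv_const]

theorem sc_bound : ∃ M : ℝ, 0 ≤ M ∧ ∀ k ≤ 4, ∀ t ∈ Icc (0:ℝ) 2, |iteratedDeriv k sc t| ≤ M := by
  have h1 : ∀ k : ℕ, ∃ M : ℝ, ∀ t ∈ Icc (0:ℝ) 2, |iteratedDeriv k sc t| ≤ M := by
    intro k
    have hc : Continuous (iteratedDeriv k sc) :=
      continuous_iff_continuousAt.2 fun t => (sc_deriv_h k t).continuousAt
    obtain ⟨M, hM⟩ := isCompact_Icc.exists_bound_of_continuousOn (s := Icc (0:ℝ) 2) hc.continuousOn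
    exact ⟨M, fun t ht => by simpa using hM t ht⟩
  choose M hM using h1
  refine ⟨∑ k ∈ Finset.range 5, |M k|, by positivity, fun k hk t ht => ?_⟩
  refine ((hM k t ht).trans (le_abs_self _)).trans ?_
  exact Finset.single_le_sum (f := fun k => |M k|) (fun i _ => abs_nonneg _)
    (Finset.mem_range.2 (by omega))

/-- scaled derivatives of the cut-off -/
noncomputable def uc (τ : ℝ) (k : ℕ) (ρ : ℝ) : ℝ := iteratedDeriv k sc ((ρ - 1) / τ) / τ ^ k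

theorem uc_deriv_h {τ : ℝ} (k : ℕ) (ρ : ℝ) :
    HasDerivAt (uc τ k) (uc τ (k + 1) ρ) ρ := by
  have h1 : HasDerivAt (fun ρ : ℝ => (ρ - 1) / τ) (1 / τ) ρ :=
    ((hasDerivAt_id ρ).sub_const 1).div_const τ
  have h2 := ((sc_deriv_h k ((ρ - 1) / τ)).comp ρ h1).div_const (τ ^ k)
  refine h2.congr_deriv ?_
  unfold uc
  rw [pow_succ]
  ring

theorem inv_pow_le_h {ρ : ℝ} (h : 1 ≤ ρ) (k : ℕ) : 0 ≤ (ρ ^ k)⁻¹ ∧ (ρ ^ k)⁻¹ ≤ 1 := by
  have h1 : 1 ≤ ρ ^ k := one_le_pow₀ h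
  exact ⟨by positivity, inv_le_one_of_one_le₀ h1⟩

theorem term_h {p y b : ℝ} (hp : 0 ≤ p) (hpb : p ≤ b) (hy : 0 ≤ y ∧ y ≤ 1) :
    0 ≤ p * y ∧ p * y ≤ b :=
  ⟨mul_nonneg hp hy.1, (mul_le_of_le_one_right hp hy.2).trans hpb⟩

theorem f_bounds_h {ρ : ℝ} (h1 : 1 ≤ ρ) (h2 : ρ ≤ 2) :
    |1 - hr ρ| ≤ 3000000 * (ρ - 1) ^ 4 ∧ |f1 ρ| ≤ 3000000 * (ρ - 1) ^ 3 ∧
    |f2 ρ| ≤ 3000000 * (ρ - 1) ^ 2 ∧ |f3 ρ| ≤ 3000000 * (ρ - 1) ^ 1 ∧
    |f4 ρ| ≤ 3000000 * (ρ - 1) ^ 0 := by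
  have hx0 : 0 ≤ ρ - 1 := by linarith
  have hx1 : ρ - 1 ≤ 1 := by linarith
  have hρ : 0 < ρ := by linarith
  refine ⟨?_, ?_, ?_, ?_, ?_⟩
  · have e : 1 - hr ρ = (ρ - 1) ^ 4 * ((ρ ^ 4)⁻¹ + 4 * (ρ ^ 5)⁻¹ + 10 * (ρ ^ 6)⁻¹ +
        20 * (ρ ^ 7)⁻¹ + 35 * (ρ ^ 8)⁻¹ + 56 * (ρ ^ 9)⁻¹ + 84 * (ρ ^ 10)⁻¹) := by
      unfold hr
      field_simp
      ring
    have a4 := inv_pow_le_h h1 4
    have a5 := inv_pow_le_h h1 5
    have a6 := inv_pow_le_h h1 6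
    have a7 := inv_pow_le_h h1 7
    have a8 := inv_pow_le_h h1 8
    have a9 := inv_pow_le_h h1 9
    have a10 := inv_pow_le_h h1 10
    rw [e, abs_of_nonneg (by positivity), mul_comm]
    apply mul_le_mul_of_nonneg_right _ (by positivity)
    linarith [a4.2, a5.2, a6.2, a7.2, a8.2, a9.2, a10.2]
  · unfold f1
    have t1 := term_h (p := (ρ - 1) ^ 3) (by positivity) le_rfl (inv_pow_le_h h1 11)
    rw [abs_of_nonneg (by linarith [t1.1])]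
    nlinarith [t1.1, t1.2]
  · unfold f2
    have p3 : (ρ - 1) ^ 3 ≤ (ρ - 1) ^ 2 := pow_le_pow_of_le_one hx0 hx1 (by norm_num)
    have t1 := term_h (p := 3 * (ρ - 1) ^ 2) (b := 3 * (ρ - 1) ^ 2) (by positivity) le_rfl
      (inv_pow_le_h h1 11)
    have t2 := term_h (p := 11 * (ρ - 1) ^ 3) (b := 11 * (ρ - 1) ^ 2) (by positivity)
      (by linarith) (inv_pow_le_h h1 12)
    have hp : 0 ≤ (ρ - 1) ^ 2 := by positivity
    rw [abs_le]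
    constructor <;> linarith [t1.1, t1.2, t2.1, t2.2]
  · unfold f3
    have p3 : (ρ - 1) ^ 3 ≤ (ρ - 1) ^ 1 := pow_le_pow_of_le_one hx0 hx1 (by norm_num)
    have p2 : (ρ - 1) ^ 2 ≤ (ρ - 1) ^ 1 := pow_le_pow_of_le_one hx0 hx1 (by norm_num)
    have t1 := term_h (p := 6 * (ρ - 1)) (b := 6 * (ρ - 1) ^ 1) (by positivity) (by simp)
      (inv_pow_le_h h1 11)
    have t2 := term_h (p := 66 * (ρ - 1) ^ 2) (b := 66 * (ρ - 1) ^ 1) (by positivity)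
      (by linarith) (inv_pow_le_h h1 12)
    have t3 := term_h (p := 132 * (ρ - 1) ^ 3) (b := 132 * (ρ - 1) ^ 1) (by positivity)
      (by linarith) (inv_pow_le_h h1 13)
    have hp : 0 ≤ (ρ - 1) ^ 1 := by positivity
    rw [abs_le]
    constructor <;> linarith [t1.1, t1.2, t2.1, t2.2, t3.1, t3.2]
  · unfold f4
    have p3 : (ρ - 1) ^ 3 ≤ 1 := pow_le_one₀ hx0 hx1
    have p2 : (ρ - 1) ^ 2 ≤ 1 := pow_le_one₀ hx0 hx1
    have t1 := term_h (p := 6) (b := 6) (by positivity) (by simp)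
      (inv_pow_le_h h1 11)
    have t2 := term_h (p := 198 * (ρ - 1)) (b := 198) (by positivity)
      (by linarith) (inv_pow_le_h h1 12)
    have t3 := term_h (p := 1188 * (ρ - 1) ^ 2) (b := 1188) (by positivity)
      (by linarith) (inv_pow_le_h h1 13)
    have t4 := term_h (p := 1716 * (ρ - 1) ^ 3) (b := 1716) (by positivity)
      (by linarith) (inv_pow_le_h h1 14)
    rw [abs_le, pow_zero]
    constructor <;> linarith [t1.1, t1.2, t2.1, t2.2, t3.1, t3.2, t4.1, t4.2]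

theorem prod_bound_h {K M x τ f s : ℝ} (hK : 0 ≤ K) (hM : 0 ≤ M) (hx : 0 ≤ x) (hx1 : x ≤ 1)
    (hτ : 0 < τ) (hxτ : x ≤ 2 * τ) {a j : ℕ} (hja : j ≤ a) (ha : a ≤ 4) (hf : |f| ≤ K * x ^ a)
    (hs : |s| ≤ M) : |f * (s / τ ^ j)| ≤ 16 * (K * M) := by
  obtain ⟨b, rfl⟩ := Nat.exists_eq_add_of_le hja
  have h1 : x ^ (j + b) ≤ 16 * τ ^ j := by
    rw [pow_add]
    have h2 : x ^ b ≤ 1 := pow_le_one₀ hx hx1
    have h3 : x ^ j ≤ (2 * τ) ^ j := pow_le_pow_left₀ hx hxτ j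
    have h4 : (2 * τ) ^ j ≤ 16 * τ ^ j := by
      rw [mul_pow]
      apply mul_le_mul_of_nonneg_right _ (by positivity)
      calc (2:ℝ) ^ j ≤ 2 ^ 4 := pow_le_pow_right₀ (by norm_num) (by omega)
        _ = 16 := by norm_num
    calc x ^ j * x ^ b ≤ x ^ j * 1 := mul_le_mul_of_nonneg_left h2 (by positivity)
      _ ≤ 16 * τ ^ j := by rw [mul_one]; exact h3.trans h4
  rw [abs_mul, abs_div, abs_of_pos (pow_pos hτ j), ← mul_div_assoc, div_le_iff₀ (pow_pos hτ j)]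
  calc |f| * |s| ≤ (K * x ^ (j + b)) * M := mul_le_mul hf hs (abs_nonneg _) (by positivity)
    _ = (K * M) * x ^ (j + b) := by ring
    _ ≤ (K * M) * (16 * τ ^ j) := mul_le_mul_of_nonneg_left h1 (by positivity)
    _ = 16 * (K * M) * τ ^ j := by ring

noncomputable def g2c (τ ρ : ℝ) : ℝ :=
  f2 ρ * uc τ 0 ρ + 2 * (f1 ρ * uc τ 1 ρ) + (1 - hr ρ) * uc τ 2 ρ
noncomputable def g3c (τ ρ : ℝ) : ℝ :=
  f3 ρ * uc τ 0 ρ + 3 * (f2 ρ * uc τ 1 ρ) + 3 * (f1 ρ * uc τ 2 ρ) + (1 - hr ρ) * uc τ 3 ρ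
noncomputable def g4c (τ ρ : ℝ) : ℝ :=
  f4 ρ * uc τ 0 ρ + 4 * (f3 ρ * uc τ 1 ρ) + 6 * (f2 ρ * uc τ 2 ρ) + 4 * (f1 ρ * uc τ 3 ρ) +
    (1 - hr ρ) * uc τ 4 ρ
noncomputable def GG (τ ρ : ℝ) : ℝ :=
  16 * ρ ^ 2 * g4c τ ρ + 384 * ρ * g3c τ ρ + 2112 * g2c τ ρ

theorem laplap_Theta (τ : ℝ) {x : E 22} (hx : x ≠ 0) :
    lap (lap (fun y : E 22 => (1 - hr (‖y‖ ^ 2)) * uc τ 0 (‖y‖ ^ 2))) x = GG τ (‖x‖ ^ 2) := by
  obtain ⟨a, b, c, d⟩ := chain_mul_h (f0 := fun ρ => 1 - hr ρ) (u0 := uc τ 0) (fun ρ h => f0_deriv_h h)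
    (fun ρ h => f1_deriv_h h) (fun ρ h => f2_deriv_h h) (fun ρ h => f3_deriv_h h)
    (fun ρ _ => uc_deriv_h (τ := τ) 0 ρ) (fun ρ _ => uc_deriv_h 1 ρ) (fun ρ _ => uc_deriv_h 2 ρ)
    (fun ρ _ => uc_deriv_h 3 ρ)
  exact lap_lap_radial_h a b c d hx

theorem GG_zero {τ ρ : ℝ} (hτ : 0 < τ) (hρ : 1 + 2 * τ < ρ) : GG τ ρ = 0 := by
  have h1 : 2 < (ρ - 1) / τ := by
    rw [lt_div_iff₀ hτ]; linarith
  have h2 : ∀ k, uc τ k ρ = 0 := fun k => by unfold uc; rw [sc_zero h1, zero_div]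
  unfold GG g4c g3c g2c
  simp only [h2]
  ring

theorem GG_bound : ∃ C : ℝ, 0 ≤ C ∧ ∀ τ ρ : ℝ, 0 < τ → τ ≤ 1 / 2 → 1 ≤ ρ → ρ ≤ 1 + 2 * τ →
    |GG τ ρ| ≤ C := by
  obtain ⟨M, hM, hs⟩ := sc_bound
  refine ⟨64 * (16 * (16 * (3000000 * M))) + 768 * (8 * (16 * (3000000 * M))) +
    2112 * (4 * (16 * (3000000 * M))), by positivity, fun τ ρ hτ hτ2 h1 h2 => ?_⟩
  have hρ2 : ρ ≤ 2 := by linarith
  obtain ⟨b0, b1, b2, b3, b4⟩ := f_bounds_h h1 hρ2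
  have hx : 0 ≤ ρ - 1 := by linarith
  have hx1 : ρ - 1 ≤ 1 := by linarith
  have hxτ : ρ - 1 ≤ 2 * τ := by linarith
  have ht : (ρ - 1) / τ ∈ Icc (0:ℝ) 2 := by
    constructor
    · positivity
    · rw [div_le_iff₀ hτ]; exact hxτ
  have hsk : ∀ k ≤ 4, |iteratedDeriv k sc ((ρ - 1) / τ)| ≤ M := fun k hk => hs k hk _ ht
  have key : ∀ {f : ℝ} {a : ℕ}, |f| ≤ 3000000 * (ρ - 1) ^ a → a ≤ 4 → ∀ j ≤ a,
      |f * uc τ j ρ| ≤ 16 * (3000000 * M) := by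
    intro f a hf ha j hj
    exact prod_bound_h (by norm_num) hM hx hx1 hτ hxτ hj ha hf (hsk j (by omega))
  set B := 16 * (3000000 * M) with hB
  have hB0 : 0 ≤ B := by positivity
  have k40 := key b4 (by norm_num) 0 (by norm_num)
  have k31 := key b3 (by norm_num) 1 (by norm_num)
  have k30 := key b3 (by norm_num) 0 (by norm_num)
  have k22 := key b2 (by norm_num) 2 (by norm_num)
  have k21 := key b2 (by norm_num) 1 (by norm_num)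
  have k20 := key b2 (by norm_num) 0 (by norm_num)
  have k13 := key b1 (by norm_num) 3 (by norm_num)
  have k12 := key b1 (by norm_num) 2 (by norm_num)
  have k11 := key b1 (by norm_num) 1 (by norm_num)
  have k04 := key b0 (by norm_num) 4 (by norm_num)
  have k03 := key b0 (by norm_num) 3 (by norm_num)
  have k02 := key b0 (by norm_num) 2 (by norm_num)
  have c4 : |g4c τ ρ| ≤ 16 * B := by
    unfold g4c
    rw [abs_le] at k40 k31 k22 k13 k04 ⊢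
    constructor <;> linarith [k40.1, k40.2, k31.1, k31.2, k22.1, k22.2, k13.1, k13.2, k04.1, k04.2]
  have c3 : |g3c τ ρ| ≤ 8 * B := by
    unfold g3c
    rw [abs_le] at k30 k21 k12 k03 ⊢
    constructor <;> linarith [k30.1, k30.2, k21.1, k21.2, k12.1, k12.2, k03.1, k03.2]
  have c2 : |g2c τ ρ| ≤ 4 * B := by
    unfold g2c
    rw [abs_le] at k20 k11 k02 ⊢
    constructor <;> linarith [k20.1, k20.2, k11.1, k11.2, k02.1, k02.2]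
  unfold GG
  have e4 : |16 * ρ ^ 2 * g4c τ ρ| ≤ 64 * (16 * B) := by
    rw [abs_mul, abs_of_nonneg (by positivity : (0:ℝ) ≤ 16 * ρ ^ 2)]
    apply mul_le_mul _ c4 (abs_nonneg _) (by norm_num)
    nlinarith
  have e3 : |384 * ρ * g3c τ ρ| ≤ 768 * (8 * B) := by
    rw [abs_mul, abs_of_nonneg (by positivity : (0:ℝ) ≤ 384 * ρ)]
    apply mul_le_mul _ c3 (abs_nonneg _) (by norm_num)
    linarith
  have e2 : |2112 * g2c τ ρ| ≤ 2112 * (4 * B) := by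
    rw [abs_mul, abs_of_nonneg (by norm_num : (0:ℝ) ≤ 2112)]
    exact mul_le_mul_of_nonneg_left c2 (by norm_num)
  refine (abs_add_le _ _).trans (add_le_add ((abs_add_le _ _).trans (add_le_add e4 e3)) e2)

theorem GG_cont (τ : ℝ) : ContinuousOn (GG τ) (Ioi 0) := by
  have c0 : ContinuousOn (fun ρ => 1 - hr ρ) (Ioi 0) :=
    fun ρ h => (f0_deriv_h h).continuousAt.continuousWithinAt
  have c1 : ContinuousOn f1 (Ioi 0) := fun ρ h => (f1_deriv_h h).continuousAt.continuousWithinAt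
  have c2 : ContinuousOn f2 (Ioi 0) := fun ρ h => (f2_deriv_h h).continuousAt.continuousWithinAt
  have c3 : ContinuousOn f3 (Ioi 0) := fun ρ h => (f3_deriv_h h).continuousAt.continuousWithinAt
  have c4 : ContinuousOn f4 (Ioi 0) := by
    unfold f4
    have hne : ∀ k : ℕ, ContinuousOn (fun ρ : ℝ => (ρ ^ k)⁻¹) (Ioi 0) := fun k =>
      (continuous_pow k).continuousOn.inv₀ fun ρ h => pow_ne_zero _ (ne_of_gt h)
    have a11 := hne 11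
    have a12 := hne 12
    have a13 := hne 13
    have a14 := hne 14
    fun_prop
  have u : ∀ k, ContinuousOn (uc τ k) (Ioi 0) := fun k ρ _ =>
    (uc_deriv_h k ρ).continuousAt.continuousWithinAt
  have u0 := u 0
  have u1 := u 1
  have u2 := u 2
  have u3 := u 3
  have u4 := u 4
  unfold GG g4c g3c g2c
  fun_prop


/-- boundary layer cut-off of `1 - hr(‖z‖²)` at the unit sphere with small `Δ²`-energy -/
theorem shell2 : ∃ Θ : ℕ → E 22 → ℝ, (∀ j, ContDiffOn ℝ ∞ (Θ j) {0}ᶜ) ∧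
    (∀ j z, 3 / 2 ≤ ‖z‖ → Θ j z = 0) ∧
    (∀ j, ∃ r > 1, ∀ z, z ≠ 0 → ‖z‖ < r → Θ j z = 1 - hr (‖z‖ ^ 2)) ∧
    (∀ j, IntegrableOn (fun z => (lap (lap (Θ j)) z) ^ 2) {z | 1 < ‖z‖}) ∧
    Tendsto (fun j => ∫ z in {z : E 22 | 1 < ‖z‖}, (lap (lap (Θ j)) z) ^ 2) atTop (𝓝 0) ∧
    ∀ ρ > 1, ∀ᶠ j in atTop, ∀ z, ρ ≤ ‖z‖ → Θ j z = 0 := by
  obtain ⟨C, hC0, hC⟩ := GG_bound
  set τ : ℕ → ℝ := fun j => 1 / ((j:ℝ) + 2) with hτdef
  have hτ : ∀ j, 0 < τ j := fun j => by simp only [hτdef]; positivity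
  have hτ2 : ∀ j, τ j ≤ 1 / 2 := fun j => by
    simp only [hτdef]
    apply one_div_le_one_div_of_le (by norm_num)
    have : (0:ℝ) ≤ j := Nat.cast_nonneg j
    linarith
  have hS : MeasurableSet {z : E 22 | 1 < ‖z‖} := measurableSet_lt measurable_const measurable_norm
  have hne : ∀ z : E 22, z ∈ {z : E 22 | 1 < ‖z‖} → z ≠ 0 := by
    intro z hz h0
    rw [h0] at hz
    simp at hz
    linarith
  have hval : ∀ j, ∀ z : E 22, z ∈ {z : E 22 | 1 < ‖z‖} →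
      (lap (lap (fun y : E 22 => (1 - hr (‖y‖ ^ 2)) * uc (τ j) 0 (‖y‖ ^ 2))) z) ^ 2 =
        GG (τ j) (‖z‖ ^ 2) ^ 2 := fun j z hz => by rw [laplap_Theta _ (hne z hz)]
  have hmeas : ∀ j, AEStronglyMeasurable
      (fun z => (lap (lap (fun y : E 22 => (1 - hr (‖y‖ ^ 2)) * uc (τ j) 0 (‖y‖ ^ 2))) z) ^ 2)
      (volume.restrict {z : E 22 | 1 < ‖z‖}) := by
    intro j
    have h1 : ContinuousOn (fun z : E 22 => GG (τ j) (‖z‖ ^ 2) ^ 2) {z : E 22 | 1 < ‖z‖} := by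
      apply ContinuousOn.pow
      apply (GG_cont (τ j)).comp (by fun_prop)
      intro z hz
      have : (1:ℝ) < ‖z‖ := hz
      change (0:ℝ) < ‖z‖ ^ 2
      positivity
    refine (h1.aestronglyMeasurable hS).congr ?_
    exact (ae_restrict_of_forall_mem hS fun z hz => (hval j z hz).symm)
  have hbd : ∀ j, ∀ᵐ z ∂(volume.restrict {z : E 22 | 1 < ‖z‖}),
      ‖(lap (lap (fun y : E 22 => (1 - hr (‖y‖ ^ 2)) * uc (τ j) 0 (‖y‖ ^ 2))) z) ^ 2‖ ≤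
        (closedBall (0 : E 22) 2).indicator (fun _ => C ^ 2) z := by
    intro j
    refine ae_restrict_of_forall_mem hS fun z hz => ?_
    rw [hval j z hz, Real.norm_of_nonneg (sq_nonneg _)]
    have hz1 : (1:ℝ) < ‖z‖ := hz
    by_cases h : ‖z‖ ^ 2 ≤ 1 + 2 * τ j
    · have hmem : z ∈ closedBall (0 : E 22) 2 := by
        rw [mem_closedBall_zero_iff]
        have := hτ2 j
        nlinarith
      rw [indicator_of_mem hmem]
      have := hC (τ j) (‖z‖ ^ 2) (hτ j) (hτ2 j) (by nlinarith) h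
      rw [← sq_abs]
      exact pow_le_pow_left₀ (abs_nonneg _) this 2
    · rw [GG_zero (hτ j) (not_le.1 h)]
      simp only [ne_eq, OfNat.ofNat_ne_zero, not_false_eq_true, zero_pow]
      exact indicator_nonneg (fun _ _ => sq_nonneg C) z
  have hint : Integrable ((closedBall (0 : E 22) 2).indicator (fun _ => C ^ 2))
      (volume.restrict {z : E 22 | 1 < ‖z‖}) := by
    apply Integrable.restrict
    rw [integrable_indicator_iff measurableSet_closedBall]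
    exact integrableOn_const (measure_closedBall_lt_top).ne
  have hτlim : Tendsto (fun j => 1 + 2 * τ j) atTop (𝓝 (1 + 2 * 0)) := by
    apply Tendsto.const_add
    apply Tendsto.const_mul
    have h1 : Tendsto (fun j : ℕ => (j:ℝ) + 2) atTop atTop :=
      tendsto_atTop_add_const_right _ _ tendsto_natCast_atTop_atTop
    have h2 := h1.inv_tendsto_atTop
    have h3 : τ = (fun j : ℕ => (j:ℝ) + 2)⁻¹ := by
      funext j
      simp [hτdef]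
    rw [h3]
    exact h2
  refine ⟨fun j z => (1 - hr (‖z‖ ^ 2)) * uc (τ j) 0 (‖z‖ ^ 2), ?_, ?_, ?_, ?_, ?_, ?_⟩
  · intro j
    have h2 : ContDiff ℝ ∞ (fun z : E 22 => ‖z‖ ^ 2) := contDiff_norm_sq ℝ
    apply ContDiffOn.mul
    · unfold hr
      have h3 : ∀ k : ℕ, ContDiffOn ℝ ∞ (fun z : E 22 => ((‖z‖ ^ 2) ^ k)⁻¹) {0}ᶜ := by
        intro k
        apply (h2.pow k).contDiffOn.inv
        intro z hz
        have : 0 < ‖z‖ := norm_pos_iff.2 hz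
        positivity
      exact contDiffOn_const.sub ((((contDiffOn_const.mul (h3 7)).sub
        (contDiffOn_const.mul (h3 8))).add (contDiffOn_const.mul (h3 9))).sub
        (contDiffOn_const.mul (h3 10)))
    · have h4 : (fun z : E 22 => uc (τ j) 0 (‖z‖ ^ 2)) =
          fun z : E 22 => sc ((‖z‖ ^ 2 - 1) / τ j) := by
        funext z
        simp [uc]
      rw [h4]
      exact (sc_smooth.comp ((h2.sub contDiff_const).div_const _)).contDiffOn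
  · intro j z hz
    have h1 : 2 < (‖z‖ ^ 2 - 1) / τ j := by
      rw [lt_div_iff₀ (hτ j)]
      have := hτ2 j
      nlinarith
    change (1 - hr (‖z‖ ^ 2)) * uc (τ j) 0 (‖z‖ ^ 2) = 0
    unfold uc
    rw [sc_zero h1, zero_div, mul_zero]
  · intro j
    refine ⟨Real.sqrt (1 + τ j), ?_, ?_⟩
    · rw [gt_iff_lt, Real.lt_sqrt (by norm_num)]
      linarith [hτ j]
    · intro z _ hz
      have h1 : ‖z‖ ^ 2 < 1 + τ j := by
        rw [Real.lt_sqrt (norm_nonneg _)] at hz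
        exact hz
      have h2 : (‖z‖ ^ 2 - 1) / τ j ≤ 1 := by
        rw [div_le_one (hτ j)]; linarith
      change (1 - hr (‖z‖ ^ 2)) * uc (τ j) 0 (‖z‖ ^ 2) = _
      have h3 : uc (τ j) 0 (‖z‖ ^ 2) = 1 := by
        simp only [uc, iteratedDeriv_zero, pow_zero, div_one, sc]
        apply Real.smoothTransition.one_of_one_le
        linarith
      rw [h3, mul_one]
  · intro j
    exact hint.mono' (hmeas j) (hbd j)
  · have hlim := tendsto_integral_of_dominated_convergence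
      (F := fun j z => (lap (lap (fun y : E 22 => (1 - hr (‖y‖ ^ 2)) * uc (τ j) 0 (‖y‖ ^ 2))) z) ^ 2)
      (f := fun _ => (0:ℝ)) (μ := volume.restrict {z : E 22 | 1 < ‖z‖})
      ((closedBall (0 : E 22) 2).indicator (fun _ => C ^ 2)) hmeas hint hbd ?_
    · simpa using hlim
    · refine ae_restrict_of_forall_mem hS fun z hz => ?_
      have hz1 : (1:ℝ) < ‖z‖ := hz
      have hev : ∀ᶠ j in atTop, 1 + 2 * τ j < ‖z‖ ^ 2 := by
        apply hτlim.eventually_lt_const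
        nlinarith
      refine tendsto_const_nhds.congr' ?_
      filter_upwards [hev] with j hj
      rw [hval j z hz, GG_zero (hτ j) hj]
      norm_num
  · intro ρ hρ
    have hev : ∀ᶠ j in atTop, 1 + 2 * τ j < ρ ^ 2 := by
      apply hτlim.eventually_lt_const
      nlinarith
    filter_upwards [hev] with j hj z hz
    have h1 : 2 < (‖z‖ ^ 2 - 1) / τ j := by
      rw [lt_div_iff₀ (hτ j)]
      nlinarith
    change (1 - hr (‖z‖ ^ 2)) * uc (τ j) 0 (‖z‖ ^ 2) = 0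
    unfold uc
    rw [sc_zero h1, zero_div, mul_zero]

/-- boundary layer cut-off of `1 - hr(‖z‖²)` at the unit sphere with small `Δ²`-energy -/
theorem shell : ∃ Θ : ℕ → E 22 → ℝ, (∀ j, ContDiffOn ℝ ∞ (Θ j) {0}ᶜ) ∧
    (∀ j z, 3 / 2 ≤ ‖z‖ → Θ j z = 0) ∧
    (∀ j, ∃ r > 1, ∀ z, z ≠ 0 → ‖z‖ < r → Θ j z = 1 - hr (‖z‖ ^ 2)) ∧
    (∀ j, IntegrableOn (fun z => (lap (lap (Θ j)) z) ^ 2) {z | 1 < ‖z‖}) ∧
    Tendsto (fun j => ∫ z in {z : E 22 | 1 < ‖z‖}, (lap (lap (Θ j)) z) ^ 2) atTop (𝓝 0) := by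
  obtain ⟨Θ, h1, h2, h3, h4, h5, -⟩ := shell2
  exact ⟨Θ, h1, h2, h3, h4, h5⟩

end Pool.Agent.Helper676.GF
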