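import Pool.Agent.Helper676.GFA
import Pool.Agent.Helper676.GFF
import Pool.Agent.Helper676.GFG

set_option autoImplicit false

/-! Proved by helper26 (job JH). -/

namespace Pool.Agent.Helper676.GF

open MeasureTheory Filter Topology Set Metric
open scoped ContDiff

/-! ### helper lemmas -/

theorem gf_lap_ev {n : ℕ} {u v : E n → ℝ} {x : E n} (h : u =ᶠ[𝓝 x] v) : lap u =ᶠ[𝓝 x] lap v :=
  (eventually_eventually_nhds.mpr h).mono (fun _ hy => lap_congr hy)

theorem gf_lap4_congr {n : ℕ} {u v : E n → ℝ} {x : E n} (h : u =ᶠ[𝓝 x] v) :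
    lap (lap (lap (lap u))) x = lap (lap (lap (lap v))) x :=
  lap_congr (gf_lap_ev (gf_lap_ev (gf_lap_ev h)))

theorem gf_lap_zero {n : ℕ} : lap (fun _ : E n => (0:ℝ)) = fun _ => 0 := by
  funext x; simp [lap]

theorem gf_lap4_zero {n : ℕ} (x : E n) : lap (lap (lap (lap (fun _ : E n => (0:ℝ))))) x = 0 := by
  rw [gf_lap_zero, gf_lap_zero, gf_lap_zero, gf_lap_zero]

theorem gf_le (j : ℕ) : (j : WithTop ℕ∞) ≤ ∞ := by
  exact_mod_cast (le_top : ((j : ℕ) : ℕ∞) ≤ ⊤)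

/-- the fixed bump -/
noncomputable def gfb : ContDiffBump (0 : E 22) := ⟨1, 2, one_pos, one_lt_two⟩

theorem gfb_bound (j : ℕ) : ∃ D : ℝ, ∀ x, ‖iteratedFDeriv ℝ j (gfb : E 22 → ℝ) x‖ ≤ D := by
  have hc : Continuous (iteratedFDeriv ℝ j (gfb : E 22 → ℝ)) :=
    (gfb.contDiff (n := ⊤)).continuous_iteratedFDeriv (gf_le j)
  exact (gfb.hasCompactSupport.iteratedFDeriv j).exists_bound_of_continuous hc

theorem gfb_bound' (j : ℕ) :
    ∃ D : ℝ, ∀ x, ‖iteratedFDeriv ℝ j (fun y : E 22 => 1 - gfb y) x‖ ≤ D := by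
  obtain ⟨D, hD⟩ := gfb_bound j
  rcases Nat.eq_zero_or_pos j with h | h
  · subst h
    refine ⟨1, fun x => ?_⟩
    rw [norm_iteratedFDeriv_zero, Real.norm_eq_abs, abs_le]
    have h1 : 0 ≤ gfb x := gfb.nonneg
    have h2 : gfb x ≤ 1 := gfb.le_one
    constructor <;> linarith
  · refine ⟨D, fun x => ?_⟩
    have h1 : iteratedFDeriv ℝ j (fun y : E 22 => 1 - gfb y) x
        = iteratedFDeriv ℝ j (fun _ : E 22 => (1:ℝ)) x - iteratedFDeriv ℝ j (gfb : E 22 → ℝ) x :=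
      iteratedFDeriv_sub_apply (f := fun _ : E 22 => (1:ℝ)) (g := (gfb : E 22 → ℝ))
        contDiffAt_const (((gfb.contDiff (n := ⊤)).of_le (gf_le j)).contDiffAt)
    rw [h1, iteratedFDeriv_const_of_ne h.ne']
    simp only [Pi.zero_apply, zero_sub, norm_neg]
    exact hD x

theorem gf_region (Φ : E 22 → ℝ) (σ : ℝ) (hσ2 : σ < 0)
    (hs : ContDiffOn ℝ ∞ Φ {0}ᶜ)
    (hb : ∀ k : ℕ, ∃ C : ℝ, 0 < C ∧ ∀ z : E 22, z ≠ 0 →
      ‖iteratedFDeriv ℝ k Φ z‖ ≤ C * ‖z‖ ^ (2 * σ - k))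
    (ψ : E 22 → ℝ) (hψ : ContDiff ℝ ∞ ψ)
    (hψb : ∀ j : ℕ, ∃ D : ℝ, ∀ x, ‖iteratedFDeriv ℝ j ψ x‖ ≤ D) :
    ∃ C1 : ℝ, 0 ≤ C1 ∧ ∀ s : ℝ, 0 < s → ∀ x : E 22, s ≤ ‖x‖ →
      |lap (lap (lap (lap (fun y => Φ y * ψ (s⁻¹ • y))))) x| ≤ C1 * s ^ (2 * σ - 8) := by
  choose C hC0 hC using hb
  choose D hD using hψb
  have hD0 : ∀ j, 0 ≤ D j := fun j => (norm_nonneg _).trans (hD j 0)
  refine ⟨((22 : ℕ) : ℝ) ^ 4 * ∑ i ∈ Finset.range 9, (Nat.choose 8 i : ℝ) * C i * D (8 - i), ?_, ?_⟩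
  · apply mul_nonneg (by positivity)
    apply Finset.sum_nonneg
    intro i _
    exact mul_nonneg (mul_nonneg (by positivity) (hC0 i).le) (hD0 _)
  · intro s hs0 x hx
    have hx0 : x ≠ 0 := by
      intro h
      rw [h, norm_zero] at hx
      linarith
    have hsm : ContDiff ℝ ∞ (fun y : E 22 => ψ (s⁻¹ • y)) := hψ.comp (contDiff_const_smul s⁻¹)
    have h1 := lap4_mul_le (n := 22) (O := {0}ᶜ) isOpen_compl_singleton (u := Φ)
      (v := fun y => ψ (s⁻¹ • y)) hs hsm.contDiffOn (x := x) (by simpa using hx0)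
    refine h1.trans ?_
    rw [mul_assoc]
    apply mul_le_mul_of_nonneg_left _ (by positivity)
    rw [Finset.sum_mul]
    apply Finset.sum_le_sum
    intro i hi
    have hi8 : i ≤ 8 := by
      have := Finset.mem_range.mp hi
      omega
    have h2 : ‖iteratedFDeriv ℝ i Φ x‖ ≤ C i * s ^ (2 * σ - i) := by
      refine (hC i x hx0).trans ?_
      apply mul_le_mul_of_nonneg_left _ (hC0 i).le
      apply Real.rpow_le_rpow_of_nonpos hs0 hx
      have : (0:ℝ) ≤ i := Nat.cast_nonneg i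
      linarith
    have h3 : ‖iteratedFDeriv ℝ (8 - i) (fun y : E 22 => ψ (s⁻¹ • y)) x‖
        ≤ D (8 - i) * s ^ (-((8:ℝ) - i)) := by
      rw [iteratedFDeriv_comp_const_smul s⁻¹ (hψ.of_le (gf_le _))]
      rw [norm_smul, norm_pow, norm_inv, Real.norm_of_nonneg hs0.le, mul_comm]
      apply mul_le_mul (hD _ _) _ (by positivity) (hD0 _)
      rw [Real.rpow_neg hs0.le]
      have : ((8:ℝ) - i) = ((8 - i : ℕ) : ℝ) := by
        rw [Nat.cast_sub hi8]; norm_num
      rw [this, Real.rpow_natCast, inv_pow]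
    calc (Nat.choose 8 i : ℝ) * ‖iteratedFDeriv ℝ i Φ x‖ *
          ‖iteratedFDeriv ℝ (8 - i) (fun y : E 22 => ψ (s⁻¹ • y)) x‖
        ≤ (Nat.choose 8 i : ℝ) * (C i * s ^ (2 * σ - i)) * (D (8 - i) * s ^ (-((8:ℝ) - i))) := by
          apply mul_le_mul _ h3 (norm_nonneg _)
          · apply mul_nonneg (by positivity)
            exact mul_nonneg (hC0 i).le (by positivity)
          · exact mul_le_mul_of_nonneg_left h2 (by positivity)
      _ = (Nat.choose 8 i : ℝ) * C i * D (8 - i) * (s ^ (2 * σ - i) * s ^ (-((8:ℝ) - i))) := by ring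
      _ = (Nat.choose 8 i : ℝ) * C i * D (8 - i) * s ^ (2 * σ - 8) := by
          rw [← Real.rpow_add hs0]
          congr 2
          ring

theorem gf_kappa : Tendsto (fun τ : ℝ => ∫ z in closedBall (0:E 22) (4*τ), ((‖z‖^2)^7)⁻¹)
    (𝓝[>] 0) (𝓝 0) := by
  have hK : Integrable (fun z : E 22 => ((‖z‖ ^ 2) ^ 7)⁻¹) (volume.restrict (closedBall 0 1)) :=
    ker_li.integrableOn_isCompact (isCompact_closedBall _ _)
  have h4 : Tendsto (fun τ : ℝ => 4 * τ) (𝓝[>] 0) (𝓝 0) := by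
    have : Tendsto (fun τ : ℝ => 4 * τ) (𝓝 0) (𝓝 (4 * 0)) := tendsto_id.const_mul 4
    rw [mul_zero] at this
    exact this.mono_left nhdsWithin_le_nhds
  have h4' : Tendsto (fun τ : ℝ => ENNReal.ofReal ((4 * τ)^22) * volume (ball (0:E 22) 1)) (𝓝[>] 0)
      (𝓝 0) := by
    have h5 : Tendsto (fun τ : ℝ => ENNReal.ofReal ((4 * τ)^22)) (𝓝[>] 0) (𝓝 0) := by
      have h6 : Tendsto (fun τ : ℝ => (4 * τ)^22) (𝓝[>] 0) (𝓝 0) := by
        have := h4.pow 22
        simpa using this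
      have := ENNReal.tendsto_ofReal h6
      simpa using this
    have := ENNReal.Tendsto.mul_const (b := volume (ball (0:E 22) 1)) h5
      (Or.inr measure_ball_lt_top.ne)
    simpa using this
  have hmeas : Tendsto ((volume.restrict (closedBall (0:E 22) 1)) ∘ fun τ : ℝ =>
      closedBall (0:E 22) (4 * τ)) (𝓝[>] 0) (𝓝 0) := by
    apply tendsto_of_tendsto_of_tendsto_of_le_of_le' tendsto_const_nhds h4'
    · exact Filter.Eventually.of_forall fun _ => zero_le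
    · filter_upwards [self_mem_nhdsWithin] with τ hτ
      have hτ0 : (0:ℝ) < τ := hτ
      calc (volume.restrict (closedBall (0:E 22) 1)) (closedBall (0:E 22) (4 * τ))
          ≤ volume (closedBall (0:E 22) (4 * τ)) := Measure.restrict_apply_le _ _
        _ = _ := by
          rw [Measure.addHaar_closedBall _ _ (by positivity)]
          simp
  have h6 := hK.tendsto_setIntegral_nhds_zero hmeas
  apply h6.congr'
  have h7 : ∀ᶠ τ : ℝ in 𝓝[>] 0, 4 * τ < 1 := h4.eventually (gt_mem_nhds one_pos)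
  filter_upwards [h7] with τ hτ
  rw [Measure.restrict_restrict_of_subset (closedBall_subset_closedBall hτ.le)]

theorem gf_tau (Φ : E 22 → ℝ) (hs : ContDiffOn ℝ ∞ Φ {0}ᶜ) (x0 : E 22) (hx0 : ‖x0‖ = 1)
    (hx1 : Φ x0 = 1) (B : ℝ) :
    ∃ τ : ℝ, 0 < τ ∧ τ < 1/100 ∧ (∀ x ∈ closedBall x0 (3*τ), 3/4 ≤ Φ x ∧ Φ x ≤ 2) ∧
      B * ∫ z in closedBall (0:E 22) (4*τ), ((‖z‖^2)^7)⁻¹ ≤ 1/4 := by
  have hne : x0 ∈ ({0}ᶜ : Set (E 22)) := by
    intro h
    have h' : x0 = 0 := h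
    rw [h', norm_zero] at hx0
    exact zero_ne_one hx0
  have hcont : ContinuousAt Φ x0 :=
    hs.continuousOn.continuousAt (isOpen_compl_singleton.mem_nhds hne)
  have hev : ∀ᶠ x in 𝓝 x0, dist (Φ x) (Φ x0) < 1/4 :=
    (Metric.tendsto_nhds.mp hcont) (1/4) (by norm_num)
  obtain ⟨r, hr, hball⟩ := Metric.eventually_nhds_iff_ball.mp hev
  have e1 : ∀ᶠ τ : ℝ in 𝓝[>] 0, τ < r / 4 :=
    nhdsWithin_le_nhds (gt_mem_nhds (by positivity))
  have e2 : ∀ᶠ τ : ℝ in 𝓝[>] 0, τ < 1 / 100 :=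
    nhdsWithin_le_nhds (gt_mem_nhds (by norm_num))
  have e3 : ∀ᶠ τ : ℝ in 𝓝[>] 0, B * ∫ z in closedBall (0:E 22) (4*τ), ((‖z‖^2)^7)⁻¹ < 1/4 := by
    have := gf_kappa.const_mul B
    rw [mul_zero] at this
    exact this.eventually (gt_mem_nhds (by norm_num))
  have e0 : ∀ᶠ τ : ℝ in 𝓝[>] 0, τ ∈ Ioi (0:ℝ) := self_mem_nhdsWithin
  obtain ⟨τ, ⟨⟨h0, h1⟩, h2⟩, h3⟩ := (((e0.and e1).and e2).and e3).exists
  have h0' : (0:ℝ) < τ := h0
  refine ⟨τ, h0', h2, ?_, h3.le⟩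
  intro x hx
  have h4 := hball x (by
    rw [mem_closedBall] at hx
    rw [mem_ball]
    linarith)
  rw [hx1, Real.dist_eq, abs_lt] at h4
  constructor <;> linarith

theorem gf_F_nonneg (f : E 22 → ℝ) (hf0 : ∀ y, 0 ≤ f y) (x : E 22) :
    0 ≤ ∫ y, ((‖x - y‖ ^ 2) ^ 7)⁻¹ * f y :=
  integral_nonneg fun y => mul_nonneg (by positivity) (hf0 y)

theorem gf_F_bound1 (f : E 22 → ℝ) (hf0 : ∀ y, 0 ≤ f y) (hf1 : ∀ y, f y ≤ 1) (x0 : E 22) (τ : ℝ)
    (hf : ∀ y, y ∉ closedBall x0 τ → f y = 0) (x : E 22) (B : ℝ) (hB0 : 0 ≤ B)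
    (hB : ∀ y ∈ closedBall x0 τ, ((‖x - y‖ ^ 2) ^ 7)⁻¹ ≤ B) :
    ∫ y, ((‖x - y‖ ^ 2) ^ 7)⁻¹ * f y ≤ B * volume.real (closedBall x0 τ) := by
  calc ∫ y, ((‖x - y‖ ^ 2) ^ 7)⁻¹ * f y ≤ ∫ y, (closedBall x0 τ).indicator (fun _ => B) y := by
        apply integral_mono_of_nonneg
        · exact Filter.Eventually.of_forall fun y => mul_nonneg (by positivity) (hf0 y)
        · exact (integrable_indicator_iff measurableSet_closedBall).mpr
            (integrableOn_const measure_closedBall_lt_top.ne)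
        · refine Filter.Eventually.of_forall fun y => ?_
          show ((‖x - y‖ ^ 2) ^ 7)⁻¹ * f y ≤ (closedBall x0 τ).indicator (fun _ => B) y
          by_cases hy : y ∈ closedBall x0 τ
          · rw [indicator_of_mem hy]
            calc ((‖x - y‖ ^ 2) ^ 7)⁻¹ * f y ≤ B * 1 :=
                  mul_le_mul (hB y hy) (hf1 y) (hf0 y) hB0
              _ = B := mul_one B
          · rw [indicator_of_notMem hy, hf y hy, mul_zero]
    _ = B * volume.real (closedBall x0 τ) := by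
        rw [integral_indicator_const _ measurableSet_closedBall, smul_eq_mul, mul_comm]

theorem gf_F_bound2 (f : E 22 → ℝ) (hf0 : ∀ y, 0 ≤ f y) (hf1 : ∀ y, f y ≤ 1) (x0 : E 22) (τ : ℝ)
    (hf : ∀ y, y ∉ closedBall x0 τ → f y = 0) (x : E 22) (hx : x ∈ closedBall x0 (3 * τ)) :
    ∫ y, ((‖x - y‖ ^ 2) ^ 7)⁻¹ * f y ≤ ∫ z in closedBall (0:E 22) (4*τ), ((‖z‖^2)^7)⁻¹ := by
  set k1 : E 22 → ℝ := (closedBall (0:E 22) (4*τ)).indicator (fun z => ((‖z‖^2)^7)⁻¹) with hk1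
  have hint : Integrable k1 :=
    (integrable_indicator_iff measurableSet_closedBall).mpr
      (ker_li.integrableOn_isCompact (isCompact_closedBall _ _))
  have hk0 : ∀ z, 0 ≤ k1 z := fun z => indicator_nonneg (fun _ _ => by positivity) z
  calc ∫ y, ((‖x - y‖ ^ 2) ^ 7)⁻¹ * f y ≤ ∫ y, k1 (x - y) := by
        apply integral_mono_of_nonneg
        · exact Filter.Eventually.of_forall fun y => mul_nonneg (by positivity) (hf0 y)
        · exact hint.comp_sub_left x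
        · refine Filter.Eventually.of_forall fun y => ?_
          show ((‖x - y‖ ^ 2) ^ 7)⁻¹ * f y ≤ k1 (x - y)
          by_cases hy : y ∈ closedBall x0 τ
          · have hmem : x - y ∈ closedBall (0:E 22) (4*τ) := by
              rw [mem_closedBall] at hx hy
              rw [mem_closedBall, dist_zero_right, ← dist_eq_norm]
              have := dist_triangle_right x y x0
              linarith
            rw [hk1, indicator_of_mem hmem]
            exact mul_le_of_le_one_right (by positivity) (hf1 y)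
          · rw [hf y hy, mul_zero]
            exact hk0 _
    _ = ∫ z, k1 z := integral_sub_left_eq_self k1 volume x
    _ = _ := by rw [hk1, integral_indicator measurableSet_closedBall]

theorem gf_P (Φ : E 22 → ℝ) (σ A C0 : ℝ) (hσ2 : σ < 0) (hA : 0 < A) (hC00 : 0 < C0)
    (hC0 : ∀ z : E 22, z ≠ 0 → ‖iteratedFDeriv ℝ 0 Φ z‖ ≤ C0 * ‖z‖ ^ (2 * σ - (0:ℕ)))
    (s : ℝ) (hs0 : 0 < s) (x : E 22) (hx : s ≤ ‖x‖) (q : ℝ) (hq : |q| ≤ 1) :
    |A * ((‖x‖ ^ 2) ^ 4)⁻¹ * (Φ x * q)| ≤ A * C0 * s ^ (2 * σ - 8) := by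
  have hx0 : x ≠ 0 := by
    intro h
    rw [h, norm_zero] at hx
    linarith
  have h1 := hC0 x hx0
  rw [norm_iteratedFDeriv_zero, Real.norm_eq_abs, Nat.cast_zero, sub_zero] at h1
  have h2 : |Φ x| ≤ C0 * s ^ (2 * σ) := by
    refine h1.trans (mul_le_mul_of_nonneg_left ?_ hC00.le)
    exact Real.rpow_le_rpow_of_nonpos hs0 hx (by linarith)
  have h3 : ((‖x‖ ^ 2) ^ 4)⁻¹ ≤ s ^ (-(8:ℝ)) := by
    rw [Real.rpow_neg hs0.le]
    have h4 : s ^ (8:ℝ) = (s^2)^4 := by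
      rw [← pow_mul]; exact_mod_cast Real.rpow_natCast s 8
    rw [h4]
    gcongr
  rw [abs_mul, abs_mul, abs_mul, abs_of_pos hA, abs_of_nonneg (by positivity : 0 ≤ ((‖x‖ ^ 2) ^ 4)⁻¹)]
  calc A * ((‖x‖ ^ 2) ^ 4)⁻¹ * (|Φ x| * |q|)
      ≤ A * s ^ (-(8:ℝ)) * ((C0 * s ^ (2 * σ)) * 1) := by
        apply mul_le_mul
        · exact mul_le_mul_of_nonneg_left h3 hA.le
        · exact mul_le_mul h2 hq (abs_nonneg _) (by positivity)
        · positivity
        · positivity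
    _ = A * C0 * (s ^ (2 * σ) * s ^ (-(8:ℝ))) := by ring
    _ = A * C0 * s ^ (2 * σ - 8) := by
        rw [← Real.rpow_add hs0]
        congr 1

theorem gf_gfb_one {s : ℝ} (hs : 0 < s) {x : E 22} (hx : ‖x‖ ≤ s) : gfb (s⁻¹ • x) = 1 := by
  apply gfb.one_of_mem_closedBall
  rw [mem_closedBall, dist_zero_right, norm_smul, norm_inv, Real.norm_of_nonneg hs.le]
  show s⁻¹ * ‖x‖ ≤ 1
  rw [inv_mul_le_iff₀ hs]
  linarith

theorem gf_gfb_zero {s : ℝ} (hs : 0 < s) {x : E 22} (hx : 2 * s ≤ ‖x‖) : gfb (s⁻¹ • x) = 0 := by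
  apply gfb.zero_of_le_dist
  rw [dist_zero_right, norm_smul, norm_inv, Real.norm_of_nonneg hs.le]
  show 2 ≤ s⁻¹ * ‖x‖
  rw [le_inv_mul_iff₀ hs]
  linarith

/-- the cut-off function -/
noncomputable def gfc (Φ : E 22 → ℝ) (δ R : ℝ) (x : E 22) : ℝ :=
  Φ x * ((1 - gfb (δ⁻¹ • x)) * gfb (R⁻¹ • x))

theorem gfc_small {Φ : E 22 → ℝ} {δ R : ℝ} (hδ : 0 < δ) {x : E 22} (hx : ‖x‖ ≤ δ) :
    gfc Φ δ R x = 0 := by
  rw [gfc, gf_gfb_one hδ hx]; ring

theorem gfc_large {Φ : E 22 → ℝ} {δ R : ℝ} (hR : 0 < R) {x : E 22} (hx : 2 * R ≤ ‖x‖) :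
    gfc Φ δ R x = 0 := by
  rw [gfc, gf_gfb_zero hR hx]; ring

theorem gfc_mid {Φ : E 22 → ℝ} {δ R : ℝ} (hδ : 0 < δ) (hR : 0 < R) {x : E 22} (hx : 2 * δ ≤ ‖x‖)
    (hx' : ‖x‖ ≤ R) : gfc Φ δ R x = Φ x := by
  rw [gfc, gf_gfb_zero hδ hx, gf_gfb_one hR hx']; ring

theorem gf_contDiff_scaled (s : ℝ) : ContDiff ℝ ∞ (fun y : E 22 => gfb (s⁻¹ • y)) :=
  (gfb.contDiff (n := ⊤)).comp (contDiff_const_smul s⁻¹)

theorem gf_contDiffAt_cut {Φ : E 22 → ℝ} (hs : ContDiffOn ℝ ∞ Φ {0}ᶜ) {δ R : ℝ} {x : E 22}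
    (hx : x ≠ 0) : ContDiffAt ℝ ∞ (gfc Φ δ R) x := by
  have h1 : ContDiffAt ℝ ∞ Φ x := hs.contDiffAt (isOpen_compl_singleton.mem_nhds (by simpa using hx))
  exact h1.mul ((contDiffAt_const.sub (gf_contDiff_scaled δ).contDiffAt).mul
    (gf_contDiff_scaled R).contDiffAt)

theorem gf_ev_small {Φ : E 22 → ℝ} {δ R : ℝ} (hδ : 0 < δ) {x : E 22} (hx : ‖x‖ < δ) :
    gfc Φ δ R =ᶠ[𝓝 x] fun _ => 0 := by
  filter_upwards [(isOpen_lt continuous_norm continuous_const).mem_nhds hx] with y hy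
  exact gfc_small hδ (le_of_lt hy)

theorem gf_ev_large {Φ : E 22 → ℝ} {δ R : ℝ} (hR : 0 < R) {x : E 22} (hx : 2 * R < ‖x‖) :
    gfc Φ δ R =ᶠ[𝓝 x] fun _ => 0 := by
  filter_upwards [(isOpen_lt continuous_const continuous_norm).mem_nhds hx] with y hy
  exact gfc_large hR (le_of_lt hy)

theorem gfc_contDiff {Φ : E 22 → ℝ} (hs : ContDiffOn ℝ ∞ Φ {0}ᶜ) {δ R : ℝ} (hδ : 0 < δ) :
    ContDiff ℝ ∞ (gfc Φ δ R) := by
  rw [contDiff_iff_contDiffAt]
  intro x
  by_cases hx : x = 0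
  · apply contDiffAt_const.congr_of_eventuallyEq (gf_ev_small hδ _)
    rw [hx, norm_zero]; exact hδ
  · exact gf_contDiffAt_cut hs hx

/-- the bracket -/
theorem gf_bracket (Φ : E 22 → ℝ) (σ A : ℝ) (hσ2 : σ < 0) (hA : 0 < A)
    (h4 : ∀ x : E 22, x ≠ 0 →
      lap (lap (lap (lap Φ))) x = -(A * ((‖x‖ ^ 2) ^ 4)⁻¹) * Φ x)
    (C0 : ℝ) (hC00 : 0 < C0)
    (hC0 : ∀ z : E 22, z ≠ 0 → ‖iteratedFDeriv ℝ 0 Φ z‖ ≤ C0 * ‖z‖ ^ (2 * σ - (0:ℕ)))
    (C1 : ℝ) (hC10 : 0 ≤ C1) (hC1 : ∀ s : ℝ, 0 < s → ∀ x : E 22, s ≤ ‖x‖ →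
      |lap (lap (lap (lap (fun y => Φ y * (1 - gfb (s⁻¹ • y)))))) x| ≤ C1 * s ^ (2 * σ - 8))
    (C2 : ℝ) (hC20 : 0 ≤ C2) (hC2 : ∀ s : ℝ, 0 < s → ∀ x : E 22, s ≤ ‖x‖ →
      |lap (lap (lap (lap (fun y => Φ y * gfb (s⁻¹ • y))))) x| ≤ C2 * s ^ (2 * σ - 8))
    (δ R : ℝ) (hδ : 0 < δ) (hδR : 2 * δ < R) (x : E 22) :
    |lap (lap (lap (lap (gfc Φ δ R)))) x + A * ((‖x‖ ^ 2) ^ 4)⁻¹ * gfc Φ δ R x| ≤
      (closedBall (0 : E 22) (2 * δ)).indicator (fun _ => (C1 + A * C0) * δ ^ (2 * σ - 8)) x +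
      (closedBall (0 : E 22) (2 * R) ∩ {x | R ≤ ‖x‖}).indicator
        (fun _ => (C2 + A * C0) * R ^ (2 * σ - 8)) x := by
  have hR : 0 < R := by linarith
  have n1 : 0 ≤ (C1 + A * C0) * δ ^ (2 * σ - 8) := by positivity
  have n2 : 0 ≤ (C2 + A * C0) * R ^ (2 * σ - 8) := by positivity
  have i1 : 0 ≤ (closedBall (0 : E 22) (2 * δ)).indicator
      (fun _ => (C1 + A * C0) * δ ^ (2 * σ - 8)) x := indicator_nonneg (fun _ _ => n1) x
  have i2 : 0 ≤ (closedBall (0 : E 22) (2 * R) ∩ {x | R ≤ ‖x‖}).indicator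
        (fun _ => (C2 + A * C0) * R ^ (2 * σ - 8)) x := indicator_nonneg (fun _ _ => n2) x
  have hg0 : ∀ y : E 22, 0 ≤ gfb y := fun y => gfb.nonneg
  have hg1 : ∀ y : E 22, gfb y ≤ 1 := fun y => gfb.le_one
  rcases lt_or_ge ‖x‖ δ with c1 | c1
  · rw [gf_lap4_congr (gf_ev_small hδ c1), gf_lap4_zero, gfc_small hδ c1.le, mul_zero, add_zero,
      abs_zero]
    linarith
  rcases le_or_gt ‖x‖ (2 * δ) with c2 | c2
  · have hev : gfc Φ δ R =ᶠ[𝓝 x] fun y => Φ y * (1 - gfb (δ⁻¹ • y)) := by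
      have hlt : ‖x‖ < R := by linarith
      filter_upwards [(isOpen_lt continuous_norm continuous_const).mem_nhds hlt] with y hy
      rw [gfc, gf_gfb_one hR (le_of_lt hy), mul_one]
    have hmem : x ∈ closedBall (0 : E 22) (2 * δ) := by
      rw [mem_closedBall, dist_zero_right]; exact c2
    rw [gf_lap4_congr hev]
    have b1 := hC1 δ hδ x c1
    have b2 := gf_P Φ σ A C0 hσ2 hA hC00 hC0 δ hδ x c1
      ((1 - gfb (δ⁻¹ • x)) * gfb (R⁻¹ • x)) (by
        rw [abs_mul]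
        have e1 : |1 - gfb (δ⁻¹ • x)| ≤ 1 := by
          rw [abs_le]
          constructor <;> linarith [hg0 (δ⁻¹ • x), hg1 (δ⁻¹ • x)]
        have e2 : |gfb (R⁻¹ • x)| ≤ 1 := by
          rw [abs_le]
          constructor <;> linarith [hg0 (R⁻¹ • x), hg1 (R⁻¹ • x)]
        calc |1 - gfb (δ⁻¹ • x)| * |gfb (R⁻¹ • x)| ≤ 1 * 1 :=
              mul_le_mul e1 e2 (abs_nonneg _) (by norm_num)
          _ = 1 := by norm_num)
    rw [indicator_of_mem hmem]
    calc _ ≤ |lap (lap (lap (lap (fun y => Φ y * (1 - gfb (δ⁻¹ • y)))))) x|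
            + |A * ((‖x‖ ^ 2) ^ 4)⁻¹ * gfc Φ δ R x| := abs_add_le _ _
      _ ≤ C1 * δ ^ (2 * σ - 8) + A * C0 * δ ^ (2 * σ - 8) := add_le_add b1 b2
      _ = (C1 + A * C0) * δ ^ (2 * σ - 8) := by ring
      _ ≤ _ := by linarith
  rcases lt_or_ge ‖x‖ R with c3 | c3
  · have hev : gfc Φ δ R =ᶠ[𝓝 x] Φ := by
      filter_upwards [(isOpen_lt continuous_norm continuous_const).mem_nhds c3,
        (isOpen_lt continuous_const continuous_norm).mem_nhds c2] with y hy hy'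
      exact gfc_mid hδ hR (le_of_lt hy') (le_of_lt hy)
    have hx0 : x ≠ 0 := by
      intro h
      rw [h, norm_zero] at c1
      linarith
    rw [gf_lap4_congr hev, h4 x hx0, hev.eq_of_nhds]
    have : -(A * ((‖x‖ ^ 2) ^ 4)⁻¹) * Φ x + A * ((‖x‖ ^ 2) ^ 4)⁻¹ * Φ x = 0 := by ring
    rw [this, abs_zero]
    linarith
  rcases le_or_gt ‖x‖ (2 * R) with c4 | c4
  · have hev : gfc Φ δ R =ᶠ[𝓝 x] fun y => Φ y * gfb (R⁻¹ • y) := by
      filter_upwards [(isOpen_lt continuous_const continuous_norm).mem_nhds c2] with y hy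
      rw [gfc, gf_gfb_zero hδ (le_of_lt hy), sub_zero, one_mul]
    have hmem : x ∈ closedBall (0 : E 22) (2 * R) ∩ {x | R ≤ ‖x‖} := by
      refine ⟨?_, c3⟩
      rw [mem_closedBall, dist_zero_right]; exact c4
    rw [gf_lap4_congr hev]
    have b1 := hC2 R hR x c3
    have b2 := gf_P Φ σ A C0 hσ2 hA hC00 hC0 R hR x c3
      ((1 - gfb (δ⁻¹ • x)) * gfb (R⁻¹ • x)) (by
        rw [abs_mul]
        have e1 : |1 - gfb (δ⁻¹ • x)| ≤ 1 := by
          rw [abs_le]
          constructor <;> linarith [hg0 (δ⁻¹ • x), hg1 (δ⁻¹ • x)]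
        have e2 : |gfb (R⁻¹ • x)| ≤ 1 := by
          rw [abs_le]
          constructor <;> linarith [hg0 (R⁻¹ • x), hg1 (R⁻¹ • x)]
        calc |1 - gfb (δ⁻¹ • x)| * |gfb (R⁻¹ • x)| ≤ 1 * 1 :=
              mul_le_mul e1 e2 (abs_nonneg _) (by norm_num)
          _ = 1 := by norm_num)
    rw [indicator_of_mem hmem]
    calc _ ≤ |lap (lap (lap (lap (fun y => Φ y * gfb (R⁻¹ • y))))) x|
            + |A * ((‖x‖ ^ 2) ^ 4)⁻¹ * gfc Φ δ R x| := abs_add_le _ _
      _ ≤ C2 * R ^ (2 * σ - 8) + A * C0 * R ^ (2 * σ - 8) := add_le_add b1 b2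
      _ = (C2 + A * C0) * R ^ (2 * σ - 8) := by ring
      _ ≤ _ := by linarith
  · rw [gf_lap4_congr (gf_ev_large hR c4), gf_lap4_zero, gfc_large hR c4.le, mul_zero, add_zero,
      abs_zero]
    linarith


set_option maxHeartbeats 4000000 in
theorem choose_data (Φ : E 22 → ℝ) (σ A : ℝ) (hσ1 : -7 < σ) (hσ2 : σ < 0) (hA : 0 < A)
    (hs : ContDiffOn ℝ ∞ Φ {0}ᶜ)
    (h4 : ∀ x : E 22, x ≠ 0 →
      lap (lap (lap (lap Φ))) x = -(A * ((‖x‖ ^ 2) ^ 4)⁻¹) * Φ x)
    (hb : ∀ k : ℕ, ∃ C : ℝ, 0 < C ∧ ∀ z : E 22, z ≠ 0 →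
      ‖iteratedFDeriv ℝ k Φ z‖ ≤ C * ‖z‖ ^ (2 * σ - k))
    (x0 : E 22) (hx0 : ‖x0‖ = 1) (hx1 : Φ x0 = 1) (C : ℝ) (hC : 0 < C) :
    ∃ (f Φc V : E 22 → ℝ) (τ Vm : ℝ), 0 < τ ∧ ContDiff ℝ ∞ f ∧ HasCompactSupport f ∧
      (∀ x, 0 ≤ f x) ∧ ContDiff ℝ ∞ Φc ∧ HasCompactSupport Φc ∧ (∀ x, 0 ≤ V x) ∧
      (∀ x, Φc x ≠ 0 → V x ≤ Vm) ∧ ContDiff ℝ ∞ (fun x => V x * Φc x) ∧
      (∀ x y, f x ≠ 0 → V y * Φc y ≠ 0 → τ ≤ ‖x - y‖) ∧
      ∫ x, (C * ∫ y, ((‖x - y‖ ^ 2) ^ 7)⁻¹ * f y) *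
        |lap (lap (lap (lap Φc))) x + V x * Φc x| < |∫ x, f x * Φc x| := by
  obtain ⟨C1, hC10, hC1⟩ := gf_region Φ σ hσ2 hs hb (fun y => 1 - gfb y)
    (contDiff_const.sub (gfb.contDiff (n := ⊤))) gfb_bound'
  obtain ⟨C2, hC20, hC2⟩ := gf_region Φ σ hσ2 hs hb gfb (gfb.contDiff (n := ⊤)) gfb_bound
  obtain ⟨C0, hC00, hC0⟩ := hb 0
  obtain ⟨τ, hτ0, hτ1, hΦτ, hκ⟩ := gf_tau Φ hs x0 hx0 hx1 (C * (A * 2^9) * 6^22)
  set κ : ℝ := ∫ z in closedBall (0:E 22) (4*τ), ((‖z‖^2)^7)⁻¹ with hκdef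
  have hκ0 : 0 ≤ κ := integral_nonneg fun z => by positivity
  let bf : ContDiffBump x0 := ⟨τ/2, τ, by positivity, by linarith⟩
  let bg : ContDiffBump x0 := ⟨2*τ, 3*τ, by positivity, by linarith⟩
  set vo : ℝ := volume.real (ball (0:E 22) 1) with hvodef
  have hvo : 0 < vo := by
    rw [hvodef, measureReal_def]
    exact ENNReal.toReal_pos (measure_ball_pos volume _ one_pos).ne' measure_ball_lt_top.ne
  have hvol : ∀ (c : E 22) (r : ℝ), 0 ≤ r → volume.real (closedBall c r) = r^22 * vo := by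
    intro c r hr
    rw [Measure.addHaar_real_closedBall _ _ hr]
    simp [hvodef]
  set v1 : ℝ := volume.real (closedBall x0 τ) with hv1
  have hv10 : 0 ≤ v1 := measureReal_nonneg
  set η : ℝ := 1/8 * (τ/2)^22 * vo with hη
  have hη0 : 0 < η := by positivity
  -- choice of δ
  obtain ⟨δ, hδ0, hδ1, hδ2⟩ : ∃ δ : ℝ, 0 < δ ∧ δ < 1/4 ∧
      C * (4^14 * v1) * (C1 + A * C0) * 2^22 * vo * δ ^ (2 * σ + 14) < η := by
    have e0 : ∀ᶠ δ : ℝ in 𝓝[>] 0, δ ∈ Ioi (0:ℝ) := self_mem_nhdsWithin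
    have e1 : ∀ᶠ δ : ℝ in 𝓝[>] 0, δ < 1/4 := nhdsWithin_le_nhds (gt_mem_nhds (by norm_num))
    have e2 : ∀ᶠ δ : ℝ in 𝓝[>] 0,
        C * (4^14 * v1) * (C1 + A * C0) * 2^22 * vo * δ ^ (2 * σ + 14) < η := by
      have ht : Tendsto (fun δ : ℝ => δ ^ (2 * σ + 14)) (𝓝 0) (𝓝 0) := by
        have := (Real.continuousAt_rpow_const 0 (2 * σ + 14) (Or.inr (by linarith))).tendsto
        rwa [Real.zero_rpow (by linarith)] at this
      have ht2 := ht.const_mul (C * (4^14 * v1) * (C1 + A * C0) * 2^22 * vo)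
      rw [mul_zero] at ht2
      exact nhdsWithin_le_nhds (ht2.eventually (gt_mem_nhds hη0))
    obtain ⟨δ, ⟨h0, h1⟩, h2⟩ := ((e0.and e1).and e2).exists
    exact ⟨δ, h0, h1, h2⟩
  -- choice of R
  obtain ⟨R, hR1, hR2⟩ : ∃ R : ℝ, 4 < R ∧
      C * (2^14 * v1) * (C2 + A * C0) * 2^22 * vo * R ^ (2 * σ) < η := by
    have e1 : ∀ᶠ R : ℝ in atTop, 4 < R := eventually_gt_atTop 4
    have e2 : ∀ᶠ R : ℝ in atTop,
        C * (2^14 * v1) * (C2 + A * C0) * 2^22 * vo * R ^ (2 * σ) < η := by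
      have ht : Tendsto (fun R : ℝ => R ^ (2 * σ)) atTop (𝓝 0) := by
        have := tendsto_rpow_neg_atTop (y := -(2 * σ)) (by linarith)
        rwa [neg_neg] at this
      have ht2 := ht.const_mul (C * (2^14 * v1) * (C2 + A * C0) * 2^22 * vo)
      rw [mul_zero] at ht2
      exact ht2.eventually (gt_mem_nhds hη0)
    obtain ⟨R, h1, h2⟩ := (e1.and e2).exists
    exact ⟨R, h1, h2⟩
  have hR0 : 0 < R := by linarith
  set V : E 22 → ℝ := fun x => A * ((‖x‖ ^ 2) ^ 4)⁻¹ * (1 - bg x) with hV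
  have hbf0 : ∀ x, 0 ≤ bf x := fun x => bf.nonneg
  have hbf1 : ∀ x, bf x ≤ 1 := fun x => bf.le_one
  have hbg0 : ∀ x, 0 ≤ bg x := fun x => bg.nonneg
  have hbg1 : ∀ x, bg x ≤ 1 := fun x => bg.le_one
  have hbfz : ∀ y, y ∉ closedBall x0 τ → bf y = 0 := by
    intro y hy
    apply bf.zero_of_le_dist
    rw [mem_closedBall, not_le] at hy
    exact hy.le
  have hbgz : ∀ y, y ∉ closedBall x0 (3 * τ) → bg y = 0 := by
    intro y hy
    apply bg.zero_of_le_dist
    rw [mem_closedBall, not_le] at hy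
    exact hy.le
  have hnorm : ∀ r : ℝ, ∀ y ∈ closedBall x0 r, 1 - r ≤ ‖y‖ ∧ ‖y‖ ≤ 1 + r := by
    intro r y hy
    rw [mem_closedBall, dist_eq_norm] at hy
    constructor
    · have := norm_sub_norm_le x0 y
      rw [norm_sub_rev] at this
      linarith
    · have := norm_sub_norm_le y x0
      linarith
  have hΦcs : ContDiff ℝ ∞ (gfc Φ δ R) := gfc_contDiff hs hδ0
  have hΦcc : HasCompactSupport (gfc Φ δ R) := by
    apply HasCompactSupport.intro (isCompact_closedBall (0 : E 22) (2 * R))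
    intro x hx
    rw [mem_closedBall, dist_zero_right, not_le] at hx
    exact gfc_large hR0 hx.le
  have hcut : ∀ x : E 22, |gfc Φ δ R x| ≤ |Φ x| := by
    intro x
    rw [gfc, abs_mul]
    apply mul_le_of_le_one_right (abs_nonneg _)
    have a1 : 0 ≤ gfb (δ⁻¹ • x) := gfb.nonneg
    have a2 : gfb (δ⁻¹ • x) ≤ 1 := gfb.le_one
    have a3 : 0 ≤ gfb (R⁻¹ • x) := gfb.nonneg
    have a4 : gfb (R⁻¹ • x) ≤ 1 := gfb.le_one
    rw [abs_of_nonneg (mul_nonneg (by linarith) a3)]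
    calc (1 - gfb (δ⁻¹ • x)) * gfb (R⁻¹ • x) ≤ 1 * 1 :=
          mul_le_mul (by linarith) a4 a3 (by norm_num)
      _ = 1 := by norm_num
  refine ⟨bf, gfc Φ δ R, V, τ, A * ((δ ^ 2) ^ 4)⁻¹, hτ0, bf.contDiff (n := ⊤), bf.hasCompactSupport,
    hbf0, hΦcs, hΦcc, ?_, ?_, ?_, ?_, ?_⟩
  · intro x
    have := hbg1 x
    exact mul_nonneg (by positivity) (by linarith)
  · intro x hx
    have hδx : δ ≤ ‖x‖ := by
      by_contra hcon
      exact hx (gfc_small hδ0 (le_of_lt (not_le.mp hcon)))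
    have h5 : ((‖x‖ ^ 2) ^ 4)⁻¹ ≤ ((δ ^ 2) ^ 4)⁻¹ := by gcongr
    calc A * ((‖x‖ ^ 2) ^ 4)⁻¹ * (1 - bg x) ≤ A * ((‖x‖ ^ 2) ^ 4)⁻¹ * 1 :=
          mul_le_mul_of_nonneg_left (by linarith [hbg0 x]) (by positivity)
      _ ≤ A * ((δ ^ 2) ^ 4)⁻¹ := by
          rw [mul_one]
          exact mul_le_mul_of_nonneg_left h5 hA.le
  · rw [contDiff_iff_contDiffAt]
    intro x
    by_cases hx : x = 0
    · have hev : (fun x => V x * gfc Φ δ R x) =ᶠ[𝓝 x] fun _ => 0 := by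
        have : ‖x‖ < δ := by rw [hx, norm_zero]; exact hδ0
        filter_upwards [gf_ev_small (Φ := Φ) (R := R) hδ0 this] with y hy
        rw [hy, mul_zero]
      exact contDiffAt_const.congr_of_eventuallyEq hev
    · have h5 : ContDiffAt ℝ ∞ V x := by
        have h6 : ContDiffAt ℝ ∞ (fun y : E 22 => ((‖y‖ ^ 2) ^ 4)⁻¹) x := by
          apply ContDiffAt.inv
          · exact ((contDiff_norm_sq ℝ).pow 4).contDiffAt
          · have : 0 < ‖x‖ := norm_pos_iff.mpr hx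
            positivity
        exact (contDiffAt_const.mul h6).mul (contDiffAt_const.sub (bg.contDiff (n := ⊤)).contDiffAt)
      exact h5.mul hΦcs.contDiffAt
  · intro x y hx hy
    have h5 : x ∈ closedBall x0 τ := by
      by_contra hcon
      exact hx (hbfz x hcon)
    have h6 : y ∉ closedBall x0 (2 * τ) := by
      intro hcon
      apply hy
      have : bg y = 1 := bg.one_of_mem_closedBall hcon
      show A * ((‖y‖ ^ 2) ^ 4)⁻¹ * (1 - bg y) * _ = 0
      rw [this]; ring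
    rw [mem_closedBall] at h5 h6
    rw [not_le] at h6
    have h7 := dist_triangle_left y x0 x
    rw [← dist_eq_norm]
    linarith
  · -- the final inequality
    set a1 : ℝ := C * (4^14 * v1) * ((C1 + A * C0) * δ ^ (2 * σ - 8)) with ha1
    set a2 : ℝ := C * ((2/R)^14 * v1) * ((C2 + A * C0) * R ^ (2 * σ - 8)) with ha2
    set a3 : ℝ := C * κ * (A * 2^9) with ha3
    have ha10 : 0 ≤ a1 := by positivity
    have ha20 : 0 ≤ a2 := by positivity
    have ha30 : 0 ≤ a3 := by positivity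
    set S1 : Set (E 22) := closedBall (0 : E 22) (2 * δ) with hS1
    set S2 : Set (E 22) := closedBall (0 : E 22) (2 * R) ∩ {x | R ≤ ‖x‖} with hS2
    set S3 : Set (E 22) := closedBall x0 (3 * τ) with hS3
    have mS1 : MeasurableSet S1 := measurableSet_closedBall
    have mS2 : MeasurableSet S2 :=
      measurableSet_closedBall.inter (measurableSet_le measurable_const measurable_norm)
    have mS3 : MeasurableSet S3 := measurableSet_closedBall
    have fS1 : volume S1 ≠ ⊤ := measure_closedBall_lt_top.ne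
    have fS2 : volume S2 ≠ ⊤ :=
      ((measure_mono inter_subset_left).trans_lt measure_closedBall_lt_top).ne
    have fS3 : volume S3 ≠ ⊤ := measure_closedBall_lt_top.ne
    have I1 : Integrable (S1.indicator (fun _ => a1)) :=
      (integrable_indicator_iff mS1).mpr (integrableOn_const fS1)
    have I2 : Integrable (S2.indicator (fun _ => a2)) :=
      (integrable_indicator_iff mS2).mpr (integrableOn_const fS2)
    have I3 : Integrable (S3.indicator (fun _ => a3)) :=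
      (integrable_indicator_iff mS3).mpr (integrableOn_const fS3)
    have hF0 : ∀ x, 0 ≤ C * ∫ y, ((‖x - y‖ ^ 2) ^ 7)⁻¹ * bf y := fun x =>
      mul_nonneg hC.le (gf_F_nonneg bf hbf0 x)
    have hF1 : ∀ x ∈ S1, C * ∫ y, ((‖x - y‖ ^ 2) ^ 7)⁻¹ * bf y ≤ C * (4^14 * v1) := by
      intro x hx
      apply mul_le_mul_of_nonneg_left _ hC.le
      apply gf_F_bound1 bf hbf0 hbf1 x0 τ hbfz x (4^14) (by positivity)
      intro y hy
      rw [hS1, mem_closedBall, dist_zero_right] at hx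
      have h5 := (hnorm τ y hy).1
      have h6 : 1/4 ≤ ‖x - y‖ := by
        have := norm_sub_norm_le y x
        rw [norm_sub_rev] at this
        linarith
      have h7 : ((4:ℝ)^14) = (((1/4:ℝ)^2)^7)⁻¹ := by norm_num
      rw [h7]
      gcongr
    have hF2 : ∀ x ∈ S2, C * ∫ y, ((‖x - y‖ ^ 2) ^ 7)⁻¹ * bf y ≤ C * ((2/R)^14 * v1) := by
      intro x hx
      apply mul_le_mul_of_nonneg_left _ hC.le
      apply gf_F_bound1 bf hbf0 hbf1 x0 τ hbfz x ((2/R)^14) (by positivity)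
      intro y hy
      have hx2 : R ≤ ‖x‖ := hx.2
      have h5 := (hnorm τ y hy).2
      have h6 : R/2 ≤ ‖x - y‖ := by
        have := norm_sub_norm_le x y
        linarith
      have h7 : ((2/R:ℝ)^14) = (((R/2:ℝ)^2)^7)⁻¹ := by
        rw [← pow_mul, ← inv_pow, inv_div]
      rw [h7]
      gcongr
    have hF3 : ∀ x ∈ S3, C * ∫ y, ((‖x - y‖ ^ 2) ^ 7)⁻¹ * bf y ≤ C * κ := by
      intro x hx
      apply mul_le_mul_of_nonneg_left _ hC.le
      exact gf_F_bound2 bf hbf0 hbf1 x0 τ hbfz x hx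
    have hE : ∀ x, |lap (lap (lap (lap (gfc Φ δ R)))) x + V x * gfc Φ δ R x| ≤
        S1.indicator (fun _ => (C1 + A * C0) * δ ^ (2 * σ - 8)) x +
        S2.indicator (fun _ => (C2 + A * C0) * R ^ (2 * σ - 8)) x +
        S3.indicator (fun _ => A * 2^9) x := by
      intro x
      have h5 := gf_bracket Φ σ A hσ2 hA h4 C0 hC00 hC0 C1 hC10 hC1 C2 hC20 hC2 δ R hδ0
        (by linarith) x
      have h6 : lap (lap (lap (lap (gfc Φ δ R)))) x + V x * gfc Φ δ R x =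
          (lap (lap (lap (lap (gfc Φ δ R)))) x + A * ((‖x‖ ^ 2) ^ 4)⁻¹ * gfc Φ δ R x)
          + -(A * ((‖x‖ ^ 2) ^ 4)⁻¹ * gfc Φ δ R x * bg x) := by
        simp only [hV]; ring
      rw [h6]
      refine (abs_add_le _ _).trans (add_le_add h5 ?_)
      rw [abs_neg]
      by_cases hx : x ∈ S3
      · rw [indicator_of_mem hx, abs_mul, abs_mul, abs_mul, abs_of_pos hA,
          abs_of_nonneg (by positivity : 0 ≤ ((‖x‖ ^ 2) ^ 4)⁻¹), abs_of_nonneg (hbg0 x)]
        have h7 : ((‖x‖ ^ 2) ^ 4)⁻¹ ≤ 2^8 := by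
          have h8 := (hnorm (3 * τ) x hx).1
          have h9 : 1/2 ≤ ‖x‖ := by linarith
          have h10 : ((2:ℝ)^8) = (((1/2:ℝ)^2)^4)⁻¹ := by norm_num
          rw [h10]
          gcongr
        have h11 : |gfc Φ δ R x| ≤ 2 := by
          refine (hcut x).trans ?_
          have := hΦτ x hx
          rw [abs_of_nonneg (by linarith)]
          exact this.2
        calc A * ((‖x‖ ^ 2) ^ 4)⁻¹ * |gfc Φ δ R x| * bg x ≤ A * 2^8 * 2 * 1 := by
              apply mul_le_mul _ (hbg1 x) (hbg0 x) (by positivity)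
              apply mul_le_mul _ h11 (abs_nonneg _) (by positivity)
              exact mul_le_mul_of_nonneg_left h7 hA.le
          _ = A * 2^9 := by ring
      · rw [indicator_of_notMem hx, hbgz x hx, mul_zero, abs_zero]
    have hmaj : ∀ x, (C * ∫ y, ((‖x - y‖ ^ 2) ^ 7)⁻¹ * bf y) *
        |lap (lap (lap (lap (gfc Φ δ R)))) x + V x * gfc Φ δ R x| ≤
        S1.indicator (fun _ => a1) x + S2.indicator (fun _ => a2) x +
          S3.indicator (fun _ => a3) x := by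
      intro x
      refine (mul_le_mul_of_nonneg_left (hE x) (hF0 x)).trans ?_
      rw [mul_add, mul_add]
      apply add_le_add
      · apply add_le_add
        · by_cases hx : x ∈ S1
          · rw [indicator_of_mem hx, indicator_of_mem hx]
            exact mul_le_mul_of_nonneg_right (hF1 x hx) (by positivity)
          · rw [indicator_of_notMem hx, indicator_of_notMem hx, mul_zero]
        · by_cases hx : x ∈ S2
          · rw [indicator_of_mem hx, indicator_of_mem hx]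
            exact mul_le_mul_of_nonneg_right (hF2 x hx) (by positivity)
          · rw [indicator_of_notMem hx, indicator_of_notMem hx, mul_zero]
      · by_cases hx : x ∈ S3
        · rw [indicator_of_mem hx, indicator_of_mem hx]
          exact mul_le_mul_of_nonneg_right (hF3 x hx) (by positivity)
        · rw [indicator_of_notMem hx, indicator_of_notMem hx, mul_zero]
    have hLHS : ∫ x, (C * ∫ y, ((‖x - y‖ ^ 2) ^ 7)⁻¹ * bf y) *
        |lap (lap (lap (lap (gfc Φ δ R)))) x + V x * gfc Φ δ R x| ≤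
        a1 * ((2 * δ)^22 * vo) + a2 * ((2 * R)^22 * vo) + a3 * ((3 * τ)^22 * vo) := by
      calc _ ≤ ∫ x, (S1.indicator (fun _ => a1) x + S2.indicator (fun _ => a2) x +
          S3.indicator (fun _ => a3) x) := by
            apply integral_mono_of_nonneg
            · exact Filter.Eventually.of_forall fun x => mul_nonneg (hF0 x) (abs_nonneg _)
            · exact (I1.add I2).add I3
            · exact Filter.Eventually.of_forall hmaj
        _ = (∫ x, S1.indicator (fun _ => a1) x) + (∫ x, S2.indicator (fun _ => a2) x) +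
            ∫ x, S3.indicator (fun _ => a3) x := by
            have I12 : Integrable (fun x => S1.indicator (fun _ => a1) x +
              S2.indicator (fun _ => a2) x) := I1.add I2
            rw [integral_add I12 I3, integral_add I1 I2]
        _ ≤ _ := by
            rw [integral_indicator_const _ mS1, integral_indicator_const _ mS2,
              integral_indicator_const _ mS3, smul_eq_mul, smul_eq_mul, smul_eq_mul]
            have q2 : volume.real S2 ≤ (2 * R)^22 * vo := by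
              rw [← hvol 0 (2 * R) (by positivity)]
              exact measureReal_mono inter_subset_left measure_closedBall_lt_top.ne
            rw [hS1, hS3, hvol 0 (2 * δ) (by positivity), hvol x0 (3 * τ) (by positivity)]
            nlinarith [mul_le_mul_of_nonneg_right q2 ha20]
    have hRHS : 3/4 * ((τ/2)^22 * vo) ≤ ∫ x, bf x * gfc Φ δ R x := by
      have hmidval : ∀ x ∈ closedBall x0 τ, gfc Φ δ R x = Φ x := by
        intro x hx
        have h5 := hnorm τ x hx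
        exact gfc_mid hδ0 hR0 (by linarith) (by linarith)
      calc 3/4 * ((τ/2)^22 * vo) = ∫ x, (closedBall x0 (τ/2)).indicator (fun _ => (3/4 : ℝ)) x := by
            rw [integral_indicator_const _ measurableSet_closedBall, smul_eq_mul,
              hvol x0 (τ/2) (by positivity), mul_comm]
        _ ≤ ∫ x, bf x * gfc Φ δ R x := by
            apply integral_mono
            · exact (integrable_indicator_iff measurableSet_closedBall).mpr
                (integrableOn_const measure_closedBall_lt_top.ne)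
            · exact (bf.continuous.mul hΦcs.continuous).integrable_of_hasCompactSupport
                hΦcc.mul_left
            · intro x
              show (closedBall x0 (τ/2)).indicator (fun _ => (3/4 : ℝ)) x ≤ bf x * gfc Φ δ R x
              by_cases hx : x ∈ closedBall x0 τ
              · have h5 : 3/4 ≤ gfc Φ δ R x := by
                  rw [hmidval x hx]
                  exact (hΦτ x (closedBall_subset_closedBall (by linarith) hx)).1
                by_cases hx' : x ∈ closedBall x0 (τ/2)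
                · rw [indicator_of_mem hx']
                  have : bf x = 1 := bf.one_of_mem_closedBall hx'
                  rw [this, one_mul]
                  exact h5
                · rw [indicator_of_notMem hx']
                  exact mul_nonneg (hbf0 x) (by linarith)
              · have hx' : x ∉ closedBall x0 (τ/2) := fun h =>
                  hx (closedBall_subset_closedBall (by linarith) h)
                rw [indicator_of_notMem hx', hbfz x hx, zero_mul]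
    have hT1 : a1 * ((2 * δ)^22 * vo) < η := by
      have : a1 * ((2 * δ)^22 * vo) =
          C * (4^14 * v1) * (C1 + A * C0) * 2^22 * vo * δ ^ (2 * σ + 14) := by
        have h5 : δ ^ (2 * σ + 14) = δ ^ (2 * σ - 8) * δ ^ 22 := by
          rw [← Real.rpow_natCast δ 22, ← Real.rpow_add hδ0]
          congr 1
          push_cast; ring
        rw [h5, ha1]; ring
      rw [this]; exact hδ2
    have hT2 : a2 * ((2 * R)^22 * vo) < η := by
      have : a2 * ((2 * R)^22 * vo) =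
          C * (2^14 * v1) * (C2 + A * C0) * 2^22 * vo * R ^ (2 * σ) := by
        have h5 : R ^ (2 * σ) = R ^ (2 * σ - 8) * R ^ 8 := by
          rw [← Real.rpow_natCast R 8, ← Real.rpow_add hR0]
          congr 1
          push_cast; ring
        rw [h5, ha2]
        field_simp
      rw [this]; exact hR2
    have hT3 : a3 * ((3 * τ)^22 * vo) ≤ 1/4 * ((τ/2)^22 * vo) := by
      have : a3 * ((3 * τ)^22 * vo) = (C * (A * 2^9) * 6^22 * κ) * ((τ/2)^22 * vo) := by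
        rw [ha3]; ring
      rw [this]
      exact mul_le_mul_of_nonneg_right hκ (by positivity)
    have hpos : 0 < (τ/2)^22 * vo := by positivity
    calc _ ≤ _ := hLHS
      _ < 3/4 * ((τ/2)^22 * vo) := by
        have : η = 1/8 * ((τ/2)^22 * vo) := by rw [hη]; ring
        linarith
      _ ≤ ∫ x, bf x * gfc Φ δ R x := hRHS
      _ ≤ _ := le_abs_self _

end Pool.Agent.Helper676.GF
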