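import Pool.Agent.Helper676.GFPd

set_option autoImplicit false

/-! Proved by helper389 (job JK). -/

namespace Pool.Agent.Helper676.GF

open MeasureTheory Filter Topology Set Metric
open scoped ContDiff

namespace HardyAux

noncomputable def W {n : ℕ} (k : ℕ) (x : E n) : ℝ := ((1 + ‖x‖ ^ 2) ^ k)⁻¹

theorem w_pos {n : ℕ} (x : E n) : 0 < 1 + ‖x‖ ^ 2 := by positivity

theorem W_pos {n : ℕ} (k : ℕ) (x : E n) : 0 < W k x := inv_pos.mpr (pow_pos (w_pos x) k)

theorem W_succ {n : ℕ} (k : ℕ) (x : E n) : W (k + 1) x * (1 + ‖x‖ ^ 2) = W k x := by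
  unfold W
  have := w_pos x
  field_simp
  ring

theorem W_contDiff {n : ℕ} (k : ℕ) : ContDiff ℝ ∞ (W k : E n → ℝ) := by
  unfold W
  apply ContDiff.inv
  · exact (contDiff_const.add (contDiff_norm_sq ℝ)).pow k
  · intro x
    exact (pow_pos (w_pos x) k).ne'

theorem coord_contDiff {n : ℕ} (i : Fin n) : ContDiff ℝ ∞ (fun x : E n => x i) :=
  (EuclideanSpace.proj i : E n →L[ℝ] ℝ).contDiff

theorem fderiv_X {n : ℕ} (k : ℕ) (i : Fin n) (x : E n) :
    fderiv ℝ (fun y : E n => y i * W k y) x (EuclideanSpace.single i 1) =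
      W k x - 2 * k * (x i) ^ 2 * W (k + 1) x := by
  have h1 : HasFDerivAt (fun y : E n => y i) (EuclideanSpace.proj i : E n →L[ℝ] ℝ) x :=
    (EuclideanSpace.proj i : E n →L[ℝ] ℝ).hasFDerivAt
  have h2 : HasFDerivAt (fun y : E n => ‖y‖ ^ 2) (2 • innerSL ℝ x) x :=
    (hasStrictFDerivAt_norm_sq x).hasFDerivAt
  have h3 : HasDerivAt (fun t : ℝ => ((1 + t) ^ k)⁻¹)
      (-(k * (1 + ‖x‖ ^ 2) ^ (k - 1) * 1) / ((1 + ‖x‖ ^ 2) ^ k) ^ 2) (‖x‖ ^ 2) := by
    have h4 : HasDerivAt (fun t : ℝ => (1 + t) ^ k) (k * (1 + ‖x‖ ^ 2) ^ (k - 1) * 1) (‖x‖ ^ 2) :=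
      ((hasDerivAt_id _).const_add 1).pow k
    exact h4.inv (pow_pos (w_pos x) k).ne'
  have h5 : HasFDerivAt (fun y : E n => W k y)
      ((-(k * (1 + ‖x‖ ^ 2) ^ (k - 1) * 1) / ((1 + ‖x‖ ^ 2) ^ k) ^ 2) • (2 • innerSL ℝ x)) x := by
    have h9 := HasDerivAt.comp_hasFDerivAt (h₂ := fun t : ℝ => ((1 + t) ^ k)⁻¹)
      (f := fun y : E n => ‖y‖ ^ 2) x h3 h2
    exact h9
  have h6 := (h1.mul h5).fderiv
  have h7 : (fun y : E n => y i * W k y) = (fun y : E n => y i) * (fun y : E n => W k y) := rfl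
  rw [h7, h6]
  have h8 : inner ℝ x (EuclideanSpace.single i (1:ℝ)) = x i := by
    rw [EuclideanSpace.inner_single_right]; simp
  have h9 : (EuclideanSpace.proj i : E n →L[ℝ] ℝ) (EuclideanSpace.single i (1 : ℝ)) = 1 := by simp
  simp only [add_apply, smul_apply, innerSL_apply_apply, smul_eq_mul, nsmul_eq_mul, h8, h9]
  rcases k with _ | k
  · simp [W]
  · have hw := w_pos x
    unfold W
    push_cast
    field_simp
    ring

end HardyAux

open HardyAux


/-- weighted Hardy inequality -/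
theorem hardy_w (k : ℕ) (hk : 1 ≤ k) (hk4 : k ≤ 4) {φ : E 22 → ℝ} (hφ : ContDiff ℝ ∞ φ)
    (hc : HasCompactSupport φ) :
    ∫ x, φ x ^ 2 * ((1 + ‖x‖ ^ 2) ^ k)⁻¹ ≤
      ∑ i, ∫ x, (pd i φ x) ^ 2 * ((1 + ‖x‖ ^ 2) ^ (k - 1))⁻¹ := by
  obtain ⟨m, rfl⟩ : ∃ m, k = m + 1 := ⟨k - 1, by omega⟩
  rw [show m + 1 - 1 = m by omega]
  change ∫ x, φ x ^ 2 * W (m + 1) x ≤ ∑ i, ∫ x, (pd i φ x) ^ 2 * W m x
  set e : Fin 22 → E 22 := fun i => EuclideanSpace.single i 1 with he
  have hpc : ∀ i, Continuous (fun x => pd i φ x) := fun i => by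
    have h1 : Continuous (fderiv ℝ φ) := hφ.continuous_fderiv (by simp)
    exact h1.clm_apply continuous_const
  have hWc : ∀ k, Continuous (W k : E 22 → ℝ) := fun k => (W_contDiff k).continuous
  have hcc : ∀ i, Continuous (fun x : E 22 => x i) := fun i => (coord_contDiff i).continuous
  have hφc : Continuous φ := hφ.continuous
  -- integrability of continuous functions multiplied by φ
  have hint : ∀ g : E 22 → ℝ, Continuous g → Integrable (fun x => φ x * g x) := fun g hg =>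
    (hφc.mul hg).integrable_of_hasCompactSupport hc.mul_right
  have hpint : ∀ i (g : E 22 → ℝ), Continuous g → Integrable (fun x => pd i φ x * g x) := by
    intro i g hg
    have h1 : HasCompactSupport (fun x => pd i φ x) := by
      have h2 : HasCompactSupport (fderiv ℝ φ) := hc.fderiv (𝕜 := ℝ)
      exact h2.comp_left (g := fun L : E 22 →L[ℝ] ℝ => L (EuclideanSpace.single i 1)) (by simp)
    exact ((hpc i).mul hg).integrable_of_hasCompactSupport h1.mul_right
  -- integration by parts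
  have hibp : ∀ i, ∫ x, φ x ^ 2 * (W (m + 1) x - 2 * ((m + 1 : ℕ) : ℝ) * (x i) ^ 2 * W (m + 2) x) =
      - ∫ x, 2 * φ x * pd i φ x * (x i * W (m + 1) x) := by
    intro i
    have hd1 : Differentiable ℝ (fun x => φ x ^ 2) := (hφ.pow 2).differentiable (by simp)
    have hd2 : Differentiable ℝ (fun y : E 22 => y i * W (m + 1) y) :=
      ((coord_contDiff i).mul (W_contDiff (m + 1))).differentiable (by simp)
    have hf1 : ∀ x, fderiv ℝ (fun x => φ x ^ 2) x (EuclideanSpace.single i 1) =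
        2 * φ x * pd i φ x := by
      intro x
      have h1 : HasFDerivAt φ (fderiv ℝ φ x) x := (hφ.differentiable (by simp) x).hasFDerivAt
      have h2 := (h1.pow 2).fderiv
      rw [h2]
      simp [pd]
    have key := integral_mul_fderiv_eq_neg_fderiv_mul_of_integrable (μ := volume) (𝕜 := ℝ)
      (f := fun x => φ x ^ 2) (g := fun y : E 22 => y i * W (m + 1) y)
      (v := EuclideanSpace.single i (1 : ℝ)) ?_ ?_ ?_
      (fun x _ => hd1 x) (fun x _ => hd2 x)
    · simp only [hf1] at key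
      rw [← key]
      congr 1
      funext x
      rw [fderiv_X]
    · simp only [hf1]
      have : (fun x : E 22 => 2 * φ x * pd i φ x * (x i * W (m + 1) x)) =
          fun x => φ x * (2 * pd i φ x * (x i * W (m + 1) x)) := by funext x; ring
      rw [this]
      exact hint _ ((continuous_const.mul (hpc i)).mul ((hcc i).mul (hWc _)))
    · have : (fun x : E 22 => φ x ^ 2 * fderiv ℝ (fun y : E 22 => y i * W (m + 1) y) x
          (EuclideanSpace.single i 1)) =
          fun x => φ x * (φ x * (W (m + 1) x - 2 * ((m + 1 : ℕ) : ℝ) * (x i) ^ 2 * W (m + 1 + 1) x)) := by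
        funext x; rw [fderiv_X]; ring
      rw [this]
      exact hint _ (hφc.mul ((hWc _).sub ((continuous_const.mul ((hcc i).pow 2)).mul (hWc _))))
    · have : (fun x : E 22 => φ x ^ 2 * (x i * W (m + 1) x)) =
          fun x => φ x * (φ x * (x i * W (m + 1) x)) := by funext x; ring
      rw [this]
      exact hint _ (hφc.mul ((hcc i).mul (hWc _)))
  set A := ∫ x, φ x ^ 2 * W (m + 1) x with hA
  -- integrability facts
  have iA : Integrable (fun x => φ x ^ 2 * W (m + 1) x) := by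
    have : (fun x => φ x ^ 2 * W (m + 1) x) = fun x => φ x * (φ x * W (m + 1) x) := by
      funext x; ring
    rw [this]; exact hint _ (hφc.mul (hWc _))
  have i1 : ∀ i, Integrable (fun x : E 22 => φ x ^ 2 *
      (W (m + 1) x - 2 * ((m + 1 : ℕ) : ℝ) * (x i) ^ 2 * W (m + 2) x)) := by
    intro i
    have : (fun x : E 22 => φ x ^ 2 *
      (W (m + 1) x - 2 * ((m + 1 : ℕ) : ℝ) * (x i) ^ 2 * W (m + 2) x)) =
        fun x => φ x * (φ x * (W (m + 1) x - 2 * ((m + 1 : ℕ) : ℝ) * (x i) ^ 2 * W (m + 2) x)) := by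
      funext x; ring
    rw [this]
    exact hint _ (hφc.mul ((hWc _).sub ((continuous_const.mul ((hcc i).pow 2)).mul (hWc _))))
  have i2 : ∀ i, Integrable (fun x : E 22 => 2 * φ x * pd i φ x * (x i * W (m + 1) x)) := by
    intro i
    have : (fun x : E 22 => 2 * φ x * pd i φ x * (x i * W (m + 1) x)) =
        fun x => φ x * (2 * pd i φ x * (x i * W (m + 1) x)) := by funext x; ring
    rw [this]
    exact hint _ ((continuous_const.mul (hpc i)).mul ((hcc i).mul (hWc _)))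
  have i3 : ∀ i, Integrable (fun x : E 22 => (pd i φ x) ^ 2 * W m x) := by
    intro i
    have : (fun x : E 22 => (pd i φ x) ^ 2 * W m x) =
        fun x => pd i φ x * (pd i φ x * W m x) := by funext x; ring
    rw [this]
    exact hpint i _ ((hpc i).mul (hWc _))
  have hnorm : ∀ x : E 22, ‖x‖ ^ 2 = ∑ i, (x i) ^ 2 := fun x => by
    rw [EuclideanSpace.norm_sq_eq]; simp
  have hsum : ∑ i, ∫ x, φ x ^ 2 * (W (m + 1) x - 2 * ((m + 1 : ℕ) : ℝ) * (x i) ^ 2 * W (m + 2) x) =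
      ∑ i, - ∫ x, 2 * φ x * pd i φ x * (x i * W (m + 1) x) :=
    Finset.sum_congr rfl fun i _ => hibp i
  rw [← integral_finsetSum _ (fun i _ => i1 i), Finset.sum_neg_distrib,
    ← integral_finsetSum _ (fun i _ => i2 i)] at hsum
  have hlow : 14 * A ≤ ∫ x, ∑ i, φ x ^ 2 *
      (W (m + 1) x - 2 * ((m + 1 : ℕ) : ℝ) * (x i) ^ 2 * W (m + 2) x) := by
    rw [hA, ← integral_const_mul]
    apply integral_mono (iA.const_mul 14) (integrable_finsetSum _ fun i _ => i1 i)
    intro x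
    have e1 : ∑ i, φ x ^ 2 * (W (m + 1) x - 2 * ((m + 1 : ℕ) : ℝ) * (x i) ^ 2 * W (m + 2) x) =
        φ x ^ 2 * (22 * W (m + 1) x - 2 * ((m + 1 : ℕ) : ℝ) * ‖x‖ ^ 2 * W (m + 2) x) := by
      rw [← Finset.mul_sum, Finset.sum_sub_distrib, hnorm, Finset.sum_const, Finset.card_univ,
        Fintype.card_fin, nsmul_eq_mul, Finset.mul_sum, Finset.sum_mul]
      norm_num
    simp only
    rw [e1]
    have h1 : ‖x‖ ^ 2 * W (m + 2) x ≤ W (m + 1) x := by
      rw [← W_succ (m + 1) x]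
      have := (W_pos (m + 2) x).le
      nlinarith
    have h2 : ((m + 1 : ℕ) : ℝ) ≤ 4 := by exact_mod_cast hk4
    have h3 : (0 : ℝ) ≤ ((m + 1 : ℕ) : ℝ) := Nat.cast_nonneg _
    have h4 := (W_pos (m + 1) x).le
    have h5 : 14 * W (m + 1) x ≤ 22 * W (m + 1) x - 2 * ((m + 1 : ℕ) : ℝ) * ‖x‖ ^ 2 * W (m + 2) x := by
      have h6 : ((m + 1 : ℕ) : ℝ) * (‖x‖ ^ 2 * W (m + 2) x) ≤ 4 * W (m + 1) x :=
        mul_le_mul h2 h1 (mul_nonneg (sq_nonneg _) (W_pos _ _).le) (by norm_num)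
      nlinarith
    calc 14 * (φ x ^ 2 * W (m + 1) x) = φ x ^ 2 * (14 * W (m + 1) x) := by ring
      _ ≤ _ := mul_le_mul_of_nonneg_left h5 (sq_nonneg _)
  have hupp : - ∫ x, ∑ i, 2 * φ x * pd i φ x * (x i * W (m + 1) x) ≤
      7 * A + (1 / 7) * ∑ i, ∫ x, (pd i φ x) ^ 2 * W m x := by
    rw [← integral_neg, hA, ← integral_const_mul, ← integral_finsetSum _ (fun i _ => i3 i),
      ← integral_const_mul, ← integral_add (iA.const_mul 7)
        ((integrable_finsetSum _ fun i _ => i3 i).const_mul (1 / 7))]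
    apply integral_mono (integrable_finsetSum _ fun i _ => i2 i).neg
      ((iA.const_mul 7).add ((integrable_finsetSum _ fun i _ => i3 i).const_mul (1 / 7)))
    intro x
    simp only [Pi.neg_apply, Pi.add_apply]
    set b := ∑ i, x i * pd i φ x with hb
    have e1 : ∑ i, 2 * φ x * pd i φ x * (x i * W (m + 1) x) = 2 * φ x * b * W (m + 1) x := by
      rw [hb, Finset.mul_sum, Finset.sum_mul]
      exact Finset.sum_congr rfl fun i _ => by ring
    have e2 : ∑ i, (pd i φ x) ^ 2 * W m x = (∑ i, (pd i φ x) ^ 2) * W m x := by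
      rw [Finset.sum_mul]
    rw [e1, e2]
    have h1 : b ^ 2 ≤ ‖x‖ ^ 2 * ∑ i, (pd i φ x) ^ 2 := by
      rw [hnorm]
      exact Finset.sum_mul_sq_le_sq_mul_sq _ _ _
    have hS : 0 ≤ ∑ i, (pd i φ x) ^ 2 := Finset.sum_nonneg fun i _ => sq_nonneg _
    have h2 : b ^ 2 * W (m + 1) x ≤ (∑ i, (pd i φ x) ^ 2) * W m x := by
      rw [← W_succ m x]
      have h3 := (W_pos (m + 1) x).le
      have h4 : b ^ 2 ≤ (∑ i, (pd i φ x) ^ 2) * (1 + ‖x‖ ^ 2) := by nlinarith
      calc b ^ 2 * W (m + 1) x ≤ ((∑ i, (pd i φ x) ^ 2) * (1 + ‖x‖ ^ 2)) * W (m + 1) x :=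
            mul_le_mul_of_nonneg_right h4 h3
        _ = _ := by ring
    have h5 : -(2 * φ x * b) ≤ 7 * φ x ^ 2 + 1 / 7 * b ^ 2 := by
      nlinarith [sq_nonneg (7 * φ x + b)]
    have h6 := mul_le_mul_of_nonneg_right h5 (W_pos (m + 1) x).le
    nlinarith
  have hB : 0 ≤ ∑ i, ∫ x, (pd i φ x) ^ 2 * W m x :=
    Finset.sum_nonneg fun i _ => integral_nonneg fun x => mul_nonneg (sq_nonneg _) (W_pos _ _).le
  have : 14 * A ≤ 7 * A + (1 / 7) * ∑ i, ∫ x, (pd i φ x) ^ 2 * W m x :=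
    hlow.trans (hsum.le.trans hupp)
  linarith

end Pool.Agent.Helper676.GF
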