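import Pool.Agent.Helper676.GFDef

set_option autoImplicit false

/-! Partial derivatives. -/

namespace Pool.Agent.Helper676.GF

/-- the partial derivative -/
noncomputable def pd {n : ℕ} (i : Fin n) (u : E n → ℝ) (x : E n) : ℝ :=
  fderiv ℝ u x (EuclideanSpace.single i 1)

end Pool.Agent.Helper676.GF
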