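import Mathlib

set_option autoImplicit false

/-! Basic calculus: gradients, gluing, powers of the positive part. -/

namespace Pool.Agent.Helper676.PC

open MeasureTheory Filter Topology Set InnerProductSpace

/-- `ℝⁿ`. -/
abbrev E (n : ℕ) := EuclideanSpace ℝ (Fin n)

variable {n : ℕ}

lemma grad_def (f : E n → ℝ) (x : E n) : gradient f x = (toDual ℝ (E n)).symm (fderiv ℝ f x) := rfl

lemma norm_grad (f : E n → ℝ) (x : E n) : ‖gradient f x‖ = ‖fderiv ℝ f x‖ := by
  rw [grad_def, LinearIsometryEquiv.norm_map]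

lemma inner_grad (f : E n → ℝ) (x v : E n) : inner ℝ (gradient f x) v = fderiv ℝ f x v := by
  exact inner_gradient_left

lemma grad_mul {f g : E n → ℝ} {x : E n} (hf : DifferentiableAt ℝ f x)
    (hg : DifferentiableAt ℝ g x) :
    gradient (fun y => f y * g y) x = f x • gradient g x + g x • gradient f x := by
  simp only [grad_def]
  rw [fderiv_fun_mul hf hg]
  simp

lemma grad_add {f g : E n → ℝ} {x : E n} (hf : DifferentiableAt ℝ f x)
    (hg : DifferentiableAt ℝ g x) :
    gradient (fun y => f y + g y) x = gradient f x + gradient g x := by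
  simp only [grad_def]
  rw [fderiv_fun_add hf hg]
  simp

lemma grad_sub {f g : E n → ℝ} {x : E n} (hf : DifferentiableAt ℝ f x)
    (hg : DifferentiableAt ℝ g x) :
    gradient (fun y => f y - g y) x = gradient f x - gradient g x := by
  simp only [grad_def]
  rw [fderiv_fun_sub hf hg]
  simp

lemma grad_const_mul {f : E n → ℝ} {x : E n} (c : ℝ) (hf : DifferentiableAt ℝ f x) :
    gradient (fun y => c * f y) x = c • gradient f x := by
  simp only [grad_def]
  rw [fderiv_const_mul hf]
  simp

lemma grad_neg {f : E n → ℝ} {x : E n} :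
    gradient (fun y => - f y) x = - gradient f x := by
  simp only [grad_def]
  rw [fderiv_fun_neg]
  simp

lemma grad_sub_const {f : E n → ℝ} {x : E n} (c : ℝ) :
    gradient (fun y => f y - c) x = gradient f x := by
  simp only [grad_def]
  rw [fderiv_sub_const]

lemma grad_comp {Φ : ℝ → ℝ} {c : ℝ} {u : E n → ℝ} {x : E n} (hΦ : HasDerivAt Φ c (u x))
    (hu : DifferentiableAt ℝ u x) :
    gradient (fun y => Φ (u y)) x = c • gradient u x := by
  simp only [grad_def]
  have := (hΦ.comp_hasFDerivAt x hu.hasFDerivAt).fderiv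
  have e : (fun y => Φ (u y)) = Φ ∘ u := rfl
  rw [e, this]
  simp

lemma grad_congr {f g : E n → ℝ} {x : E n} (h : f =ᶠ[𝓝 x] g) : gradient f x = gradient g x := by
  simp only [grad_def]
  rw [h.fderiv_eq]

lemma grad_zero_of_eventually {f : E n → ℝ} {x : E n} (h : ∀ᶠ y in 𝓝 x, f y = 0) :
    gradient f x = 0 := by
  have : f =ᶠ[𝓝 x] fun _ => 0 := h
  rw [grad_congr this]
  simp [grad_def]

lemma continuous_grad {f : E n → ℝ} (hf : ContDiff ℝ 1 f) : Continuous (gradient f) :=
  (toDual ℝ (E n)).symm.continuous.comp (hf.continuous_fderiv (by norm_num))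

lemma continuousOn_grad {f : E n → ℝ} {O : Set (E n)} (hO : IsOpen O) (hf : ContDiffOn ℝ 1 f O) :
    ContinuousOn (gradient f) O :=
  (toDual ℝ (E n)).symm.continuous.comp_continuousOn
    (hf.continuousOn_fderiv_of_isOpen hO (by norm_num))

lemma hasCompactSupport_grad {f : E n → ℝ} (hf : HasCompactSupport f) :
    HasCompactSupport (gradient f) := by
  have := hf.fderiv (𝕜 := ℝ)
  exact this.comp_left (g := fun L => (toDual ℝ (E n)).symm L) (by simp)

lemma tsupport_grad {f : E n → ℝ} : tsupport (gradient f) ⊆ tsupport f := by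
  refine (closure_mono ?_).trans_eq (closure_closure (s := Function.support f))
  intro x hx
  by_contra h
  apply hx
  apply grad_zero_of_eventually
  have : (tsupport f)ᶜ ∈ 𝓝 x := (isClosed_tsupport f).isOpen_compl.mem_nhds h
  filter_upwards [this] with y hy
  exact image_eq_zero_of_notMem_tsupport hy

lemma grad_eq_zero_of_notMem {f : E n → ℝ} {x : E n} (hx : x ∉ tsupport f) :
    gradient f x = 0 := by
  have : x ∉ tsupport (gradient f) := fun h => hx (tsupport_grad h)
  exact image_eq_zero_of_notMem_tsupport this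

/-- gluing: a function which is `C¹` on an open set and vanishes outside a compact subset. -/
lemma glue {F : E n → ℝ} {O K : Set (E n)} (hO : IsOpen O) (hK : IsCompact K) (hKO : K ⊆ O)
    {m : WithTop ℕ∞} (hF : ContDiffOn ℝ m F O) (h0 : ∀ x, x ∉ K → F x = 0) :
    ContDiff ℝ m F ∧ HasCompactSupport F ∧ tsupport F ⊆ K := by
  have hs : tsupport F ⊆ K := by
    refine closure_minimal ?_ hK.isClosed
    intro x hx
    by_contra h
    exact hx (h0 x h)
  refine ⟨?_, HasCompactSupport.of_support_subset_isCompact hK (subset_closure.trans hs), hs⟩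
  rw [contDiff_iff_contDiffAt]
  intro x
  by_cases hx : x ∈ O
  · exact hF.contDiffAt (hO.mem_nhds hx)
  · have hx' : x ∈ Kᶜ := fun h => hx (hKO h)
    have : F =ᶠ[𝓝 x] fun _ => 0 := by
      filter_upwards [hK.isClosed.isOpen_compl.mem_nhds hx'] with y hy
      exact h0 y hy
    exact contDiffAt_const.congr_of_eventuallyEq this

/-! ### powers of the positive part -/

lemma hasDerivAt_pp (m : ℕ) (s : ℝ) :
    HasDerivAt (fun s : ℝ => (max s 0) ^ (m + 2)) ((m + 2 : ℝ) * (max s 0) ^ (m + 1)) s := by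
  rcases lt_trichotomy s 0 with hs | hs | hs
  · have e : (fun s : ℝ => (max s 0) ^ (m + 2)) =ᶠ[𝓝 s] fun _ => 0 := by
      filter_upwards [Iio_mem_nhds hs] with t ht
      rw [max_eq_right (le_of_lt ht)]; simp
    have : HasDerivAt (fun _ : ℝ => (0:ℝ)) 0 s := hasDerivAt_const s 0
    refine (this.congr_of_eventuallyEq e).congr_deriv ?_
    rw [max_eq_right hs.le]; simp
  · subst hs
    rw [hasDerivAt_iff_isLittleO_nhds_zero]
    simp only [zero_add, max_self, ne_eq, Nat.add_eq_zero_iff, OfNat.ofNat_ne_zero, and_false,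
      not_false_eq_true, zero_pow, sub_zero, one_ne_zero, mul_zero, smul_eq_mul]
    rw [Asymptotics.isLittleO_iff]
    intro c hc
    have h1 : ∀ᶠ h : ℝ in 𝓝 0, |h| < min c 1 := by
      have := Metric.ball_mem_nhds (0:ℝ) (lt_min hc one_pos)
      filter_upwards [this] with h hh
      simpa using hh
    filter_upwards [h1] with h hh
    have h2 : 0 ≤ max h 0 := le_max_right _ _
    have h3 : max h 0 ≤ |h| := max_le (le_abs_self h) (abs_nonneg h)
    have h4 : |h| < c := lt_of_lt_of_le hh (min_le_left _ _)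
    have h5 : |h| < 1 := lt_of_lt_of_le hh (min_le_right _ _)
    rw [Real.norm_eq_abs, Real.norm_eq_abs, abs_of_nonneg (pow_nonneg h2 _)]
    calc (max h 0) ^ (m + 2) ≤ |h| ^ (m + 2) := pow_le_pow_left₀ h2 h3 _
      _ = |h| ^ m * (|h| * |h|) := by ring
      _ ≤ 1 * (|h| * |h|) := by
          apply mul_le_mul_of_nonneg_right _ (by positivity)
          exact pow_le_one₀ (abs_nonneg h) h5.le
      _ ≤ c * |h| := by rw [one_mul]; exact mul_le_mul_of_nonneg_right h4.le (abs_nonneg h)
  · have e : (fun s : ℝ => (max s 0) ^ (m + 2)) =ᶠ[𝓝 s] fun s => s ^ (m + 2) := by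
      filter_upwards [Ioi_mem_nhds hs] with t ht
      rw [max_eq_left (le_of_lt ht)]
    have : HasDerivAt (fun s : ℝ => s ^ (m + 2)) (((m + 2 : ℕ) : ℝ) * s ^ (m + 2 - 1)) s :=
      hasDerivAt_pow (m + 2) s
    refine (this.congr_of_eventuallyEq e).congr_deriv ?_
    rw [max_eq_left hs.le]; push_cast; rfl

lemma contDiff_pp (m : ℕ) : ContDiff ℝ 1 (fun s : ℝ => (max s 0) ^ (m + 2)) := by
  rw [contDiff_one_iff_deriv]
  refine ⟨fun s => (hasDerivAt_pp m s).differentiableAt, ?_⟩
  have : deriv (fun s : ℝ => (max s 0) ^ (m + 2)) = fun s => (m + 2 : ℝ) * (max s 0) ^ (m + 1) :=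
    funext fun s => (hasDerivAt_pp m s).deriv
  rw [this]
  fun_prop

end Pool.Agent.Helper676.PC
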