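import Pool.Agent.Helper676.PC0

set_option autoImplicit false

/-! Translation estimate, Nash and Faber-Krahn type inequalities, Poincaré inequalities. -/

namespace Pool.Agent.Helper676.PC

open MeasureTheory Filter Topology Set InnerProductSpace

variable {n : ℕ}

lemma sq_integral_le {q : ℝ → ℝ} (hq : ContinuousOn q (Icc 0 1)) :
    (∫ t in (0:ℝ)..1, q t) ^ 2 ≤ ∫ t in (0:ℝ)..1, (q t) ^ 2 := by
  have hq' : ContinuousOn q (uIcc 0 1) := by rwa [uIcc_of_le zero_le_one]
  set c := ∫ t in (0:ℝ)..1, q t with hc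
  have h1 : 0 ≤ ∫ t in (0:ℝ)..1, (q t - c) ^ 2 :=
    intervalIntegral.integral_nonneg zero_le_one (fun t _ => sq_nonneg _)
  have i1 : IntervalIntegrable (fun t => (q t) ^ 2) volume 0 1 := (hq'.pow 2).intervalIntegrable
  have i2 : IntervalIntegrable (fun t => 2 * c * q t) volume 0 1 :=
    (continuousOn_const.mul hq').intervalIntegrable
  have i3 : IntervalIntegrable (fun _ : ℝ => c ^ 2) volume 0 1 := intervalIntegrable_const
  have h2 : ∫ t in (0:ℝ)..1, (q t - c) ^ 2 =
      (∫ t in (0:ℝ)..1, (q t) ^ 2) - 2 * c * c + c ^ 2 := by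
    have : (fun t => (q t - c) ^ 2) = fun t => (q t) ^ 2 - 2 * c * q t + c ^ 2 := by
      ext t; ring
    rw [this, intervalIntegral.integral_add (i1.sub i2) i3, intervalIntegral.integral_sub i1 i2,
      intervalIntegral.integral_const_mul, ← hc]
    simp
  rw [h2] at h1
  nlinarith

/-- pointwise: squared increments -/
lemma incr_sq_le {B : Set (E n)} (hB : IsOpen B) (hc : Convex ℝ B) {f : E n → ℝ}
    (hf : ContDiffOn ℝ 1 f B) {x h : E n} (hx : x ∈ B) (hxh : x + h ∈ B) :
    ENNReal.ofReal ((f (x + h) - f x) ^ 2) ≤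
      ENNReal.ofReal (‖h‖ ^ 2) * ∫⁻ t in Ioc (0:ℝ) 1, ENNReal.ofReal (‖gradient f (x + t • h)‖ ^ 2) := by
  have hmem : ∀ t ∈ Icc (0:ℝ) 1, x + t • h ∈ B := by
    intro t ht
    have := hc hx hxh (sub_nonneg.2 ht.2) ht.1 (by ring)
    have e : (1 - t) • x + t • (x + h) = x + t • h := by
      rw [smul_add, ← add_assoc, ← add_smul]; simp
    rwa [e] at this
  have hcont : ContinuousOn (fun t : ℝ => gradient f (x + t • h)) (Icc 0 1) := by
    apply (continuousOn_grad hB hf).comp (by fun_prop) hmem
  have hd : ∀ t ∈ uIcc (0:ℝ) 1, HasDerivAt (fun t : ℝ => f (x + t • h))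
      (inner ℝ (gradient f (x + t • h)) h) t := by
    intro t ht
    rw [uIcc_of_le zero_le_one] at ht
    have h1 : HasFDerivAt f (fderiv ℝ f (x + t • h)) (x + t • h) :=
      ((hf.differentiableOn (by norm_num)).differentiableAt
        (hB.mem_nhds (hmem t ht))).hasFDerivAt
    have h2 : HasDerivAt (fun t : ℝ => x + t • h) h t := by
      simpa using ((hasDerivAt_id t).smul_const h).const_add x
    have := h1.comp_hasDerivAt t h2
    rw [inner_grad]
    exact this
  have hq : ContinuousOn (fun t : ℝ => inner ℝ (gradient f (x + t • h)) h) (Icc 0 1) :=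
    hcont.inner continuousOn_const
  have hftc := intervalIntegral.integral_eq_sub_of_hasDerivAt hd
    (by apply ContinuousOn.intervalIntegrable; rwa [uIcc_of_le zero_le_one])
  have h3 := sq_integral_le hq
  rw [hftc] at h3
  simp only [one_smul, zero_smul, add_zero] at h3
  have hn : ContinuousOn (fun t : ℝ => ‖gradient f (x + t • h)‖ ^ 2) (Icc 0 1) := (hcont.norm).pow 2
  have h4 : ∫ t in (0:ℝ)..1, (inner ℝ (gradient f (x + t • h)) h) ^ 2 ≤
      ∫ t in (0:ℝ)..1, ‖h‖ ^ 2 * ‖gradient f (x + t • h)‖ ^ 2 := by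
    apply intervalIntegral.integral_mono_on zero_le_one
    · apply ContinuousOn.intervalIntegrable; rw [uIcc_of_le zero_le_one]; exact hq.pow 2
    · apply ContinuousOn.intervalIntegrable; rw [uIcc_of_le zero_le_one]
      exact continuousOn_const.mul hn
    · intro t ht
      have := abs_real_inner_le_norm (gradient f (x + t • h)) h
      rw [← sq_abs, ← mul_pow]
      apply pow_le_pow_left₀ (abs_nonneg _)
      rw [mul_comm]; exact this
  rw [intervalIntegral.integral_const_mul] at h4
  have h5 : ENNReal.ofReal (∫ t in (0:ℝ)..1, ‖gradient f (x + t • h)‖ ^ 2) =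
      ∫⁻ t in Ioc (0:ℝ) 1, ENNReal.ofReal (‖gradient f (x + t • h)‖ ^ 2) := by
    rw [intervalIntegral.integral_of_le zero_le_one]
    apply ofReal_integral_eq_lintegral_ofReal
    · exact (hn.integrableOn_Icc).mono_set Ioc_subset_Icc_self
    · exact ae_of_all _ (fun t => by positivity)
  rw [← h5, ← ENNReal.ofReal_mul (by positivity)]
  exact ENNReal.ofReal_le_ofReal (h3.trans h4)

lemma meas_grad (f : E n → ℝ) : Measurable (gradient f) :=
  (toDual ℝ (E n)).symm.continuous.measurable.comp (measurable_fderiv ℝ f)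

/-- translation estimate -/
lemma trans_le {B : Set (E n)} (hB : IsOpen B) (hc : Convex ℝ B) {f : E n → ℝ}
    (hf : ContDiffOn ℝ 1 f B) (h : E n) :
    ∫⁻ x in {x | x ∈ B ∧ x + h ∈ B}, ENNReal.ofReal ((f (x + h) - f x) ^ 2) ≤
      ENNReal.ofReal (‖h‖ ^ 2) * ∫⁻ x in B, ENNReal.ofReal (‖gradient f x‖ ^ 2) := by
  classical
  set g : E n → ENNReal := B.indicator (fun x => ENNReal.ofReal (‖gradient f x‖ ^ 2)) with hg
  have hgm : Measurable g := by
    apply Measurable.indicator _ hB.measurableSet
    exact ENNReal.measurable_ofReal.comp ((meas_grad f).norm.pow_const 2)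
  have hS : MeasurableSet {x | x ∈ B ∧ x + h ∈ B} :=
    hB.measurableSet.inter ((measurable_add_const h) hB.measurableSet)
  have e1 : ∫⁻ x in {x | x ∈ B ∧ x + h ∈ B}, ENNReal.ofReal ((f (x + h) - f x) ^ 2) ≤
      ∫⁻ x in {x | x ∈ B ∧ x + h ∈ B}, ENNReal.ofReal (‖h‖ ^ 2) *
        ∫⁻ t in Ioc (0:ℝ) 1, g (x + t • h) := by
    apply setLIntegral_mono' hS
    intro x hx
    refine (incr_sq_le hB hc hf hx.1 hx.2).trans ?_
    refine mul_le_mul' le_rfl ?_
    apply le_of_eq
    apply setLIntegral_congr_fun measurableSet_Ioc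
    intro t ht
    have hm : x + t • h ∈ B := by
      have := hc hx.1 hx.2 (sub_nonneg.2 ht.2) ht.1.le (by ring)
      have e : (1 - t) • x + t • (x + h) = x + t • h := by
        rw [smul_add, ← add_assoc, ← add_smul]; simp
      rwa [e] at this
    simp only [hg]
    rw [indicator_of_mem hm]
  refine e1.trans ?_
  have e2 : ∫⁻ x in {x | x ∈ B ∧ x + h ∈ B}, ENNReal.ofReal (‖h‖ ^ 2) *
        ∫⁻ t in Ioc (0:ℝ) 1, g (x + t • h) ≤
      ∫⁻ x : E n, ENNReal.ofReal (‖h‖ ^ 2) * ∫⁻ t in Ioc (0:ℝ) 1, g (x + t • h) :=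
    setLIntegral_le_lintegral _ _
  refine e2.trans ?_
  have hm2 : Measurable (fun p : E n × ℝ => g (p.1 + p.2 • h)) := by
    apply hgm.comp
    fun_prop
  rw [lintegral_const_mul _ (by exact Measurable.lintegral_prod_right' (ν := volume.restrict (Ioc (0:ℝ) 1)) hm2)]
  refine mul_le_mul' le_rfl ?_
  rw [lintegral_lintegral_swap]
  · have : ∀ t : ℝ, ∫⁻ x : E n, g (x + t • h) = ∫⁻ x, g x := fun t =>
      lintegral_add_right_eq_self g (t • h)
    simp only [this]
    rw [lintegral_const]
    simp only [hg]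
    rw [lintegral_indicator hB.measurableSet]
    simp
  · exact hm2.aemeasurable

/-- translation estimate, whole space -/
lemma trans_le_univ {f : E n → ℝ} (hf : ContDiff ℝ 1 f) (hc : HasCompactSupport f) (h : E n) :
    ∫ x, (f (x + h) - f x) ^ 2 ≤ ‖h‖ ^ 2 * ∫ x, ‖gradient f x‖ ^ 2 := by
  have h1 := trans_le (B := univ) isOpen_univ convex_univ hf.contDiffOn h
  simp only [mem_univ, and_self, setOf_true, Measure.restrict_univ] at h1
  have hcg : HasCompactSupport (fun x => ‖gradient f x‖ ^ 2) :=
    (hasCompactSupport_grad hc).comp_left (g := fun v => ‖v‖ ^ 2) (by simp)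
  have ig : Integrable (fun x => ‖gradient f x‖ ^ 2) :=
    ((continuous_grad hf).norm.pow 2).integrable_of_hasCompactSupport hcg
  have hct : HasCompactSupport (fun x => f (x + h)) :=
    hc.comp_homeomorph (Homeomorph.addRight h)
  have hcd : Continuous (fun x => f (x + h) - f x) :=
    (hf.continuous.comp (by fun_prop)).sub hf.continuous
  have id : Integrable (fun x => (f (x + h) - f x) ^ 2) := by
    apply Continuous.integrable_of_hasCompactSupport
    · exact hcd.pow 2
    · exact (hct.sub hc).comp_left (g := fun v : ℝ => v ^ 2) (by norm_num)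
  rw [← ofReal_integral_eq_lintegral_ofReal id (ae_of_all _ fun x => sq_nonneg _),
    ← ofReal_integral_eq_lintegral_ofReal ig (ae_of_all _ fun x => by positivity),
    ← ENNReal.ofReal_mul (by positivity)] at h1
  exact (ENNReal.ofReal_le_ofReal_iff (mul_nonneg (by positivity)
    (integral_nonneg fun x => by positivity))).1 h1

lemma hcs_sq {f : E n → ℝ} (hc : HasCompactSupport f) : HasCompactSupport (fun x => f x ^ 2) := by
  have := hc.comp_left (g := fun v : ℝ => v ^ 2) (by norm_num)
  exact this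

lemma integrable_sq {f : E n → ℝ} (hf : Continuous f) (hc : HasCompactSupport f) :
    Integrable (fun x => f x ^ 2) := by
  have h1 : Continuous (fun x => f x ^ 2) := by fun_prop
  exact h1.integrable_of_hasCompactSupport (hcs_sq hc)

lemma corr_eq {f : E n → ℝ} (hf : Continuous f) (hc : HasCompactSupport f) (h : E n) :
    ∫ x, f x * f (x + h) = (∫ x, f x ^ 2) - 1 / 2 * ∫ x, (f (x + h) - f x) ^ 2 := by
  have hct : HasCompactSupport (fun x => f (x + h)) :=
    hc.comp_homeomorph (Homeomorph.addRight h)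
  have hfc : Continuous (fun x => f (x + h)) := hf.comp (by fun_prop)
  have i1 : Integrable (fun x => f x ^ 2) := integrable_sq hf hc
  have i2 : Integrable (fun x => f (x + h) ^ 2) := integrable_sq hfc hct
  have i3 : Integrable (fun x => f x * f (x + h)) :=
    (hf.mul hfc).integrable_of_hasCompactSupport hc.mul_right
  have e : (fun x => (f (x + h) - f x) ^ 2) =
      fun x => f (x + h) ^ 2 + f x ^ 2 - 2 * (f x * f (x + h)) := by ext x; ring
  have et : ∫ x, f (x + h) ^ 2 = ∫ x, f x ^ 2 :=
    integral_add_right_eq_self (fun x => f x ^ 2) h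
  have i12 : Integrable (fun x => f (x + h) ^ 2 + f x ^ 2) := i2.add i1
  rw [e, integral_sub i12 (i3.const_mul 2), integral_add i2 i1, integral_const_mul, et]
  ring

/-- Nash type inequality. -/
lemma nash {f : E n → ℝ} (hf : ContDiff ℝ 1 f) (hc : HasCompactSupport f) {ε : ℝ} (hε : 0 < ε) :
    ∫ x, f x ^ 2 ≤ ε ^ 2 / 2 * (∫ x, ‖gradient f x‖ ^ 2) +
      (volume.real (Metric.ball (0 : E n) ε))⁻¹ * (∫ x, |f x|) ^ 2 := by
  set V := volume.real (Metric.ball (0 : E n) ε) with hV
  have hVpos : 0 < V := by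
    rw [hV, measureReal_def]
    exact ENNReal.toReal_pos (Metric.measure_ball_pos volume _ hε).ne' measure_ball_lt_top.ne
  have hfi : Integrable f := hf.continuous.integrable_of_hasCompactSupport hc
  have hfa : Integrable (fun x => |f x|) := hfi.abs
  set J := ∫ x, ‖gradient f x‖ ^ 2 with hJ
  have hJ0 : 0 ≤ J := integral_nonneg fun x => by positivity
  -- product integrability
  have hP : Integrable (fun p : E n × E n => |f p.1| * |f (p.1 + p.2)|) (volume.prod volume) := by
    have h1 : Integrable (fun p : E n × E n => |f p.1| * |f p.2|) (volume.prod volume) :=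
      hfa.mul_prod hfa
    have h2 := measurePreserving_prod_add (volume : Measure (E n)) (volume : Measure (E n))
    exact (h2.integrable_comp h1.aestronglyMeasurable).2 h1
  have hPI : ∫ h, ∫ x, |f x| * |f (x + h)| = (∫ x, |f x|) ^ 2 := by
    rw [integral_integral_swap]
    · have : ∀ x : E n, ∫ h : E n, |f x| * |f (x + h)| = |f x| * ∫ y, |f y| := by
        intro x
        rw [integral_const_mul]
        congr 1
        exact integral_add_left_eq_self (fun y => |f y|) x
      simp only [this]
      rw [integral_mul_const, sq]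
    · exact hP.swap
  have hcabs : Integrable (fun h : E n => ∫ x, |f x| * |f (x + h)|) := hP.swap.integral_prod_left
  have hP' : Integrable (fun p : E n × E n => f p.1 * f (p.1 + p.2)) (volume.prod volume) := by
    have h1 : Integrable (fun p : E n × E n => f p.1 * f p.2) (volume.prod volume) :=
      hfi.mul_prod hfi
    have h2 := measurePreserving_prod_add (volume : Measure (E n)) (volume : Measure (E n))
    exact (h2.integrable_comp h1.aestronglyMeasurable).2 h1
  have hcor : Integrable (fun h : E n => ∫ x, f x * f (x + h)) := hP'.swap.integral_prod_left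
  have hlow : ∀ h ∈ Metric.ball (0 : E n) ε,
      (∫ x, f x ^ 2) - ε ^ 2 / 2 * J ≤ ∫ x, f x * f (x + h) := by
    intro h hh
    rw [corr_eq hf.continuous hc h]
    have h1 := trans_le_univ hf hc h
    have h2 : ‖h‖ < ε := by simpa using hh
    have h3 : ‖h‖ ^ 2 ≤ ε ^ 2 := pow_le_pow_left₀ (norm_nonneg _) h2.le 2
    have h4 : ‖h‖ ^ 2 * J ≤ ε ^ 2 * J := mul_le_mul_of_nonneg_right h3 hJ0
    linarith
  have hA : ((∫ x, f x ^ 2) - ε ^ 2 / 2 * J) * V ≤ (∫ x, |f x|) ^ 2 := by
    calc ((∫ x, f x ^ 2) - ε ^ 2 / 2 * J) * V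
        = ∫ h in Metric.ball (0 : E n) ε, ((∫ x, f x ^ 2) - ε ^ 2 / 2 * J) := by
          rw [setIntegral_const, hV, smul_eq_mul, mul_comm]
      _ ≤ ∫ h in Metric.ball (0 : E n) ε, ∫ x, f x * f (x + h) := by
          apply setIntegral_mono_on _ hcor.integrableOn measurableSet_ball hlow
          exact integrableOn_const (measure_ball_lt_top.ne) (by simp)
      _ ≤ ∫ h in Metric.ball (0 : E n) ε, ∫ x, |f x| * |f (x + h)| := by
          apply setIntegral_mono hcor.integrableOn hcabs.integrableOn
          intro h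
          have hfc : Continuous (fun x => f (x + h)) := hf.continuous.comp (by fun_prop)
          apply integral_mono
          · exact (hf.continuous.mul hfc).integrable_of_hasCompactSupport hc.mul_right
          · exact (hf.continuous.abs.mul hfc.abs).integrable_of_hasCompactSupport
              (HasCompactSupport.mul_right (hc.comp_left (g := fun v : ℝ => |v|) (by simp)))
          · intro x
            simp only
            rw [← abs_mul]
            exact le_abs_self _
      _ ≤ ∫ h, ∫ x, |f x| * |f (x + h)| := by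
          apply setIntegral_le_integral hcabs
          exact ae_of_all _ fun h => integral_nonneg fun x => by positivity
      _ = _ := hPI
  have : (∫ x, f x ^ 2) - ε ^ 2 / 2 * J ≤ V⁻¹ * (∫ x, |f x|) ^ 2 := by
    rw [inv_mul_eq_div, le_div_iff₀ hVpos]
    exact hA
  linarith

/-- Faber-Krahn type inequality -/
lemma faberKrahn {f : E n → ℝ} (hf : ContDiff ℝ 1 f) (hc : HasCompactSupport f) {ε : ℝ}
    (hε : 0 < ε) {S : Set (E n)} (hS : MeasurableSet S) (hfS : ∀ x, x ∉ S → f x = 0)
    (hvol : volume.real S ≤ volume.real (Metric.ball (0 : E n) ε) / 2) (hSf : volume S ≠ ⊤) :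
    ∫ x, f x ^ 2 ≤ ε ^ 2 * (∫ x, ‖gradient f x‖ ^ 2) := by
  have h1 := nash hf hc hε
  set V := volume.real (Metric.ball (0 : E n) ε) with hV
  have hVpos : 0 < V := by
    rw [hV, measureReal_def]
    exact ENNReal.toReal_pos (Metric.measure_ball_pos volume _ hε).ne' measure_ball_lt_top.ne
  -- Cauchy-Schwarz
  have h2 : (∫ x, |f x|) ^ 2 ≤ volume.real S * ∫ x, f x ^ 2 := by
    have i1 : Integrable (fun x => f x ^ 2) := integrable_sq hf.continuous hc
    have i2 : Integrable (fun x => |f x|) :=
      (hf.continuous.integrable_of_hasCompactSupport hc).abs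
    set A := ∫ x, |f x| with hA
    set μ := volume.real S with hμ
    have hμ0 : 0 ≤ μ := measureReal_nonneg
    have e1 : A = ∫ x in S, |f x| := by
      rw [hA, ← integral_indicator hS]
      congr 1
      ext x
      by_cases hx : x ∈ S
      · rw [indicator_of_mem hx]
      · rw [indicator_of_notMem hx, hfS x hx, abs_zero]
    have e2 : ∫ x, f x ^ 2 = ∫ x in S, f x ^ 2 := by
      rw [← integral_indicator hS]
      congr 1
      ext x
      by_cases hx : x ∈ S
      · rw [indicator_of_mem hx]
      · rw [indicator_of_notMem hx, hfS x hx]; simp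
    -- for all s: 0 ≤ ∫_S (s - |f|)^2
    have h3 : ∀ s : ℝ, 0 ≤ s ^ 2 * μ - 2 * s * A + ∫ x, f x ^ 2 := by
      intro s
      have h4 : 0 ≤ ∫ x in S, (s - |f x|) ^ 2 := integral_nonneg fun x => sq_nonneg _
      have e3 : ∫ x in S, (s - |f x|) ^ 2 = s ^ 2 * μ - 2 * s * A + ∫ x, f x ^ 2 := by
        have : (fun x => (s - |f x|) ^ 2) = fun x => s ^ 2 - 2 * s * |f x| + f x ^ 2 := by
          ext x
          have := sq_abs (f x)
          nlinarith
        rw [this, integral_add, integral_sub, integral_const_mul, setIntegral_const, ← e1, ← e2]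
        · rw [smul_eq_mul]; ring
        · exact integrableOn_const hSf (by simp)
        · exact (i2.const_mul _).integrableOn
        · exact (integrableOn_const hSf (by simp)).sub (i2.const_mul _).integrableOn
        · exact i1.integrableOn
      rwa [e3] at h4
    rcases hμ0.eq_or_lt with h0 | h0
    · -- μ = 0
      rw [← h0]
      have hAn : 0 ≤ A := integral_nonneg fun x => abs_nonneg _
      have hI : 0 ≤ ∫ x, f x ^ 2 := integral_nonneg fun x => sq_nonneg _
      have hA0 : A = 0 := by
        by_contra hne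
        have hApos : 0 < A := lt_of_le_of_ne hAn (Ne.symm hne)
        have := h3 ((∫ x, f x ^ 2 + 1) / A + ((∫ x, f x ^ 2) + 1) / A)
        have h5 := h3 (((∫ x, f x ^ 2) + 1) / A)
        rw [← h0] at h5
        have : 2 * (((∫ x, f x ^ 2) + 1) / A) * A = 2 * ((∫ x, f x ^ 2) + 1) := by
          field_simp
        nlinarith
      rw [hA0]; simp
    · have := h3 (A / μ)
      have e4 : (A / μ) ^ 2 * μ - 2 * (A / μ) * A = - (A ^ 2 / μ) := by
        field_simp; ring
      rw [e4] at this
      have : A ^ 2 / μ ≤ ∫ x, f x ^ 2 := by linarith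
      rw [div_le_iff₀ h0] at this
      linarith
  have hI : 0 ≤ ∫ x, f x ^ 2 := integral_nonneg fun x => sq_nonneg _
  have h3 : V⁻¹ * (∫ x, |f x|) ^ 2 ≤ 1 / 2 * ∫ x, f x ^ 2 := by
    calc V⁻¹ * (∫ x, |f x|) ^ 2 ≤ V⁻¹ * (volume.real S * ∫ x, f x ^ 2) := by gcongr
      _ ≤ V⁻¹ * (V / 2 * ∫ x, f x ^ 2) := by gcongr
      _ = 1 / 2 * ∫ x, f x ^ 2 := by field_simp
  linarith

/-- Friedrichs inequality -/
lemma friedrichs {f : E n → ℝ} (hf : ContDiff ℝ 1 f) (hc : HasCompactSupport f) {h : E n}
    (hh : ∀ x, f x * f (x + h) = 0) :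
    ∫ x, f x ^ 2 ≤ ‖h‖ ^ 2 * (∫ x, ‖gradient f x‖ ^ 2) := by
  have h1 := corr_eq hf.continuous hc h
  have h2 := trans_le_univ hf hc h
  simp only [hh, integral_zero] at h1
  have hJ0 : 0 ≤ ∫ x, ‖gradient f x‖ ^ 2 := integral_nonneg fun x => by positivity
  nlinarith [mul_nonneg (sq_nonneg ‖h‖) hJ0]

end Pool.Agent.Helper676.PC
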