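import Pool.Agent.Helper676.PC4

set_option autoImplicit false

/-! Parabolic energy estimates. -/

namespace Pool.Agent.Helper676.PC

open MeasureTheory Filter Topology Set InnerProductSpace Metric

variable {n : ℕ}

/-- `g ∘ u` on `Ω`, zero outside -/
noncomputable def TT (Ω : Set (E n)) (u : E n → ℝ) (g : ℝ → ℝ) : E n → ℝ :=
  Ω.indicator (fun x => g (u x))

lemma TT_mem {Ω : Set (E n)} {u : E n → ℝ} {g : ℝ → ℝ} {x : E n} (hx : x ∈ Ω) :
    TT Ω u g x = g (u x) := indicator_of_mem hx _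

lemma TT_notMem {Ω : Set (E n)} {u : E n → ℝ} {g : ℝ → ℝ} {x : E n} (hx : x ∉ Ω) :
    TT Ω u g x = 0 := indicator_of_notMem hx _

lemma TT_zero {Ω : Set (E n)} {u : E n → ℝ} {g : ℝ → ℝ} {k : ℝ} (hg : ∀ s, s ≤ k → g s = 0)
    {x : E n} (hx : ¬ (x ∈ Ω ∧ k ≤ u x)) : TT Ω u g x = 0 := by
  by_cases hxΩ : x ∈ Ω
  · rw [TT_mem hxΩ]
    apply hg
    by_contra h
    exact hx ⟨hxΩ, (not_le.1 h).le⟩
  · exact TT_notMem hxΩ

lemma TT_cont {Ω : Set (E n)} (hΩ : IsOpen Ω) {u : E n → ℝ} (hu : ContinuousOn u Ω) {g : ℝ → ℝ}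
    {k : ℝ} (hgc : Continuous g) (hg : ∀ s, s ≤ k → g s = 0)
    (hK : IsCompact {x | x ∈ Ω ∧ k ≤ u x}) :
    Continuous (TT Ω u g) ∧ HasCompactSupport (TT Ω u g) ∧
      tsupport (TT Ω u g) ⊆ {x | x ∈ Ω ∧ k ≤ u x} := by
  have h1 := glue0 (F := TT Ω u g) hΩ hK (fun x hx => hx.1)
    ((hgc.comp_continuousOn hu).congr fun x hx => TT_mem hx) (fun x hx => TT_zero hg hx)
  refine ⟨h1.1, h1.2, ?_⟩
  refine closure_minimal ?_ hK.isClosed
  intro x hx
  by_contra h
  exact hx (TT_zero hg h)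

lemma TT_C1 {Ω : Set (E n)} (hΩ : IsOpen Ω) {u : E n → ℝ} (hu : ContDiffOn ℝ 1 u Ω)
    {g g' : ℝ → ℝ} {k : ℝ} (hgd : ∀ s, HasDerivAt g (g' s) s) (hg'c : Continuous g')
    (hg : ∀ s, s ≤ k → g s = 0) (hg' : ∀ s, s ≤ k → g' s = 0)
    (hK : IsCompact {x | x ∈ Ω ∧ k ≤ u x}) :
    ContDiff ℝ 1 (TT Ω u g) ∧ ∀ x, gradient (TT Ω u g) x = TT Ω u g' x • gradient u x := by
  have hgC : ContDiff ℝ 1 g := by
    rw [contDiff_one_iff_deriv]
    refine ⟨fun s => (hgd s).differentiableAt, ?_⟩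
    have : deriv g = g' := funext fun s => (hgd s).deriv
    rw [this]; exact hg'c
  have h1 : ContDiffOn ℝ 1 (TT Ω u g) Ω :=
    (hgC.comp_contDiffOn hu).congr fun x hx => TT_mem hx
  obtain ⟨h2, h3, h4⟩ := glue hΩ hK (fun x hx => hx.1) h1 (fun x hx => TT_zero hg hx)
  refine ⟨h2, ?_⟩
  intro x
  by_cases hx : x ∈ Ω
  · have e : TT Ω u g =ᶠ[𝓝 x] fun y => g (u y) := by
      filter_upwards [hΩ.mem_nhds hx] with y hy
      exact TT_mem hy
    have hd : DifferentiableAt ℝ u x :=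
      (hu.differentiableOn (by norm_num)).differentiableAt (hΩ.mem_nhds hx)
    rw [grad_congr e, grad_comp (hgd (u x)) hd, TT_mem hx]
  · rw [TT_notMem hx, grad_eq_zero_of_notMem fun h => hx (h4 h).1, zero_smul]

/-- parabolic data -/
structure Par (Ω : Set (E n)) (K t0 T : ℝ) (a : E n → ℝ) (y yt : E n → ℝ → ℝ)
    (F : E n → ℝ → E n) : Prop where
  aC : ContinuousOn a Ω
  aK : ∀ x ∈ Ω, K⁻¹ ≤ a x ∧ a x ≤ K
  yC : ContinuousOn (fun q : E n × ℝ => y q.1 q.2) (closure Ω ×ˢ Icc t0 T)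
  y0 : ∀ x ∈ closure Ω, y x t0 = 0
  yb : ∀ x ∈ frontier Ω, ∀ t ∈ Icc t0 T, y x t = 0
  y1 : ∀ t ∈ Ioo t0 T, ContDiffOn ℝ 1 (fun x => y x t) Ω
  yd : ∀ x ∈ Ω, ∀ t ∈ Ioo t0 T, HasDerivAt (y x) (yt x t) t
  ytC : ContinuousOn (fun q : E n × ℝ => yt q.1 q.2) (Ω ×ˢ Ioo t0 T)
  FC : ∀ t ∈ Ioo t0 T, ContinuousOn (fun x => F x t) Ω
  weak : ∀ t ∈ Ioo t0 T, ∀ ψ : E n → ℝ, ContDiff ℝ 1 ψ → HasCompactSupport ψ → tsupport ψ ⊆ Ω →
    ∫ x, yt x t * ψ x = -(∫ x, a x * inner ℝ (gradient (fun x => y x t) x) (gradient ψ x)) -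
      ∫ x, inner ℝ (F x t) (gradient ψ x)

/-- spacetime superlevel compact set, projected to space -/
lemma Par.cpt {Ω : Set (E n)} {K t0 T : ℝ} {a : E n → ℝ} {y yt : E n → ℝ → ℝ}
    {F : E n → ℝ → E n} (h : Par Ω K t0 T a y yt F) (hb : Bornology.IsBounded Ω) (hΩ : IsOpen Ω)
    {k : ℝ} (hk : 0 < k) :
    ∃ Q : Set (E n), IsCompact Q ∧ Q ⊆ Ω ∧ ∀ x ∈ Ω, ∀ t ∈ Icc t0 T, k ≤ y x t → x ∈ Q := by
  have hc : IsCompact (closure Ω ×ˢ Icc t0 T) :=
    (Metric.isCompact_of_isClosed_isBounded isClosed_closure hb.closure).prod isCompact_Icc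
  set Z := (closure Ω ×ˢ Icc t0 T) ∩ (fun q : E n × ℝ => y q.1 q.2) ⁻¹' (Ici k) with hZ
  have hZc : IsCompact Z :=
    hc.of_isClosed_subset (h.yC.preimage_isClosed_of_isClosed hc.isClosed isClosed_Ici)
      inter_subset_left
  refine ⟨Prod.fst '' Z, hZc.image continuous_fst, ?_, ?_⟩
  · rintro _ ⟨⟨x, t⟩, hq, rfl⟩
    by_contra hx
    have hxf : x ∈ frontier Ω := by
      rw [hΩ.frontier_eq]; exact ⟨hq.1.1, hx⟩
    have h1 := h.yb x hxf t hq.1.2
    have h2 : k ≤ y x t := hq.2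
    rw [h1] at h2
    linarith
  · intro x hx t ht hkx
    exact ⟨(x, t), ⟨⟨subset_closure hx, ht⟩, hkx⟩, rfl⟩

lemma Par.level {Ω : Set (E n)} {K t0 T : ℝ} {a : E n → ℝ} {y yt : E n → ℝ → ℝ}
    {F : E n → ℝ → E n} (h : Par Ω K t0 T a y yt F) (hb : Bornology.IsBounded Ω) (hΩ : IsOpen Ω)
    {k : ℝ} (hk : 0 < k) {t : ℝ} (ht : t ∈ Icc t0 T) : IsCompact {x | x ∈ Ω ∧ k ≤ y x t} := by
  have hyc : ContinuousOn (fun x => y x t) (closure Ω) := by
    have : ContinuousOn (fun x : E n => ((x, t) : E n × ℝ)) (closure Ω) := by fun_prop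
    exact h.yC.comp this (fun x hx => ⟨hx, ht⟩)
  have hcl : IsClosed (closure Ω ∩ (fun x => y x t) ⁻¹' (Ici k)) :=
    hyc.preimage_isClosed_of_isClosed isClosed_closure isClosed_Ici
  have e : {x | x ∈ Ω ∧ k ≤ y x t} = closure Ω ∩ (fun x => y x t) ⁻¹' (Ici k) := by
    ext x
    constructor
    · intro hx; exact ⟨subset_closure hx.1, hx.2⟩
    · intro hx
      refine ⟨?_, hx.2⟩
      by_contra hxΩ
      have hxf : x ∈ frontier Ω := by rw [hΩ.frontier_eq]; exact ⟨hx.1, hxΩ⟩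
      have h1 := h.yb x hxf t ht
      have h2 : k ≤ y x t := hx.2
      rw [h1] at h2
      linarith
  rw [e]
  exact Metric.isCompact_of_isClosed_isBounded hcl (hb.closure.subset inter_subset_left)

/-- time derivative of `∫ g(y)` -/
lemma Par.deriv {Ω : Set (E n)} {K t0 T : ℝ} {a : E n → ℝ} {y yt : E n → ℝ → ℝ}
    {F : E n → ℝ → E n} (h : Par Ω K t0 T a y yt F) (hb : Bornology.IsBounded Ω) (hΩ : IsOpen Ω)
    {g g' : ℝ → ℝ} {k : ℝ} (hk : 0 < k) (hgd : ∀ s, HasDerivAt g (g' s) s)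
    (hg'c : Continuous g') (hg : ∀ s, s ≤ k → g s = 0) (hg' : ∀ s, s ≤ k → g' s = 0) :
    ContinuousOn (fun t => ∫ x, TT Ω (fun x => y x t) g x) (Icc t0 T) ∧
    ∀ t ∈ Ioo t0 T, HasDerivAt (fun t => ∫ x, TT Ω (fun x => y x t) g x)
      (∫ x, yt x t * TT Ω (fun x => y x t) g' x) t := by
  obtain ⟨Q, hQc, hQΩ, hQ⟩ := h.cpt hb hΩ hk
  have hgc : Continuous g := continuous_iff_continuousAt.2 fun s => (hgd s).continuousAt
  have hTQ : ∀ (g1 : ℝ → ℝ), (∀ s, s ≤ k → g1 s = 0) → ∀ t ∈ Icc t0 T, ∀ x, x ∉ Q →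
      TT Ω (fun x => y x t) g1 x = 0 := by
    intro g1 hg1 t ht x hx
    apply TT_zero hg1
    intro h'
    exact hx (hQ x h'.1 t ht h'.2)
  have heq : ∀ t ∈ Icc t0 T, ∫ x, TT Ω (fun x => y x t) g x = ∫ x in Q, g (y x t) := by
    intro t ht
    rw [← integral_indicator hQc.measurableSet]
    congr 1; ext x
    by_cases hx : x ∈ Q
    · rw [indicator_of_mem hx, TT_mem (hQΩ hx)]
    · rw [indicator_of_notMem hx, hTQ g hg t ht x hx]
  have hycx : ∀ t ∈ Icc t0 T, ContinuousOn (fun x => y x t) Q := by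
    intro t ht
    have : ContinuousOn (fun x : E n => ((x, t) : E n × ℝ)) Q := by fun_prop
    exact h.yC.comp this (fun x hx => ⟨subset_closure (hQΩ hx), ht⟩)
  have hprod : IsCompact (Q ×ˢ Icc t0 T) := hQc.prod isCompact_Icc
  have hsub : Q ×ˢ Icc t0 T ⊆ closure Ω ×ˢ Icc t0 T :=
    prod_mono (hQΩ.trans subset_closure) subset_rfl
  constructor
  · have hcont : ContinuousOn (fun t => ∫ x in Q, g (y x t)) (Icc t0 T) := by
      obtain ⟨M, hM⟩ := hprod.exists_bound_of_continuousOn (hgc.comp_continuousOn (h.yC.mono hsub))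
      apply continuousOn_of_dominated (bound := fun _ => M)
      · intro t ht
        exact (hgc.comp_continuousOn (hycx t ht)).aestronglyMeasurable hQc.measurableSet
      · intro t ht
        rw [ae_restrict_iff' hQc.measurableSet]
        exact ae_of_all _ fun x hx => hM (x, t) ⟨hx, ht⟩
      · exact integrableOn_const hQc.measure_lt_top.ne enorm_ne_top
      · rw [ae_restrict_iff' hQc.measurableSet]
        refine ae_of_all _ fun x hx => ?_
        have : ContinuousOn (fun t : ℝ => ((x, t) : E n × ℝ)) (Icc t0 T) := by fun_prop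
        exact hgc.comp_continuousOn (h.yC.comp this (fun t ht => ⟨subset_closure (hQΩ hx), ht⟩))
    exact hcont.congr heq
  · intro t ht
    obtain ⟨ε, hε, hεs⟩ := Metric.isOpen_iff.1 isOpen_Ioo t ht
    set s := closedBall t (ε / 2) with hs
    have hss : s ⊆ Ioo t0 T := (closedBall_subset_ball (by linarith)).trans hεs
    have hsn : s ∈ 𝓝 t := closedBall_mem_nhds t (by positivity)
    have hsc : IsCompact (Q ×ˢ s) := hQc.prod (isCompact_closedBall _ _)
    have hc1 : ContinuousOn (fun q : E n × ℝ => g' (y q.1 q.2) * yt q.1 q.2) (Q ×ˢ s) := by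
      apply ContinuousOn.mul
      · exact hg'c.comp_continuousOn (h.yC.mono (prod_mono (hQΩ.trans subset_closure)
          (hss.trans Ioo_subset_Icc_self)))
      · exact h.ytC.mono (prod_mono hQΩ hss)
    obtain ⟨M, hM⟩ := hsc.exists_bound_of_continuousOn hc1
    have key := (hasDerivAt_integral_of_dominated_loc_of_deriv_le
      (μ := volume.restrict Q) (F := fun t x => g (y x t)) (F' := fun t x => g' (y x t) * yt x t)
      (x₀ := t) (s := s) (bound := fun _ => M) hsn ?_ ?_ ?_ ?_ ?_ ?_).2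
    · have e1 : ∫ x, yt x t * TT Ω (fun x => y x t) g' x = ∫ x in Q, g' (y x t) * yt x t := by
        rw [← integral_indicator hQc.measurableSet]
        congr 1; ext x
        by_cases hx : x ∈ Q
        · rw [indicator_of_mem hx, TT_mem (hQΩ hx), mul_comm]
        · rw [indicator_of_notMem hx, hTQ g' hg' t (Ioo_subset_Icc_self ht) x hx, mul_zero]
      rw [e1]
      apply key.congr_of_eventuallyEq
      filter_upwards [isOpen_Ioo.mem_nhds ht] with t' ht'
      exact heq t' (Ioo_subset_Icc_self ht')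
    · filter_upwards [isOpen_Ioo.mem_nhds ht] with t' ht'
      exact (hgc.comp_continuousOn (hycx t' (Ioo_subset_Icc_self ht'))).aestronglyMeasurable
        hQc.measurableSet
    · exact (hgc.comp_continuousOn (hycx t (Ioo_subset_Icc_self ht))).integrableOn_compact hQc
    · have : ContinuousOn (fun x : E n => ((x, t) : E n × ℝ)) Q := by fun_prop
      exact (hc1.comp this fun x hx => ⟨hx, mem_closedBall_self (by positivity)⟩).aestronglyMeasurable
        hQc.measurableSet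
    · rw [ae_restrict_iff' hQc.measurableSet]
      exact ae_of_all _ fun x hx t' ht' => hM (x, t') ⟨hx, ht'⟩
    · exact integrableOn_const hQc.measure_lt_top.ne enorm_ne_top
    · rw [ae_restrict_iff' hQc.measurableSet]
      exact ae_of_all _ fun x hx t' ht' =>
        (hgd (y x t')).comp t' (h.yd x (hQΩ hx) t' (hss ht'))

/-- energy inequality -/
lemma Par.energy {Ω : Set (E n)} {K t0 T : ℝ} (hK : 1 ≤ K) {a : E n → ℝ} {y yt : E n → ℝ → ℝ}
    {F : E n → ℝ → E n} (h : Par Ω K t0 T a y yt F) (hb : Bornology.IsBounded Ω) (hΩ : IsOpen Ω)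
    {g g' : ℝ → ℝ} {k : ℝ} (hk : 0 < k) (hgd : ∀ s, HasDerivAt g (g' s) s)
    (hg'c : Continuous g') (hg : ∀ s, s ≤ k → g s = 0) (hg' : ∀ s, s ≤ k → g' s = 0)
    (hg'0 : ∀ s, 0 ≤ g' s) {t : ℝ} (ht : t ∈ Ioo t0 T) :
    ∫ x, yt x t * TT Ω (fun x => y x t) g x ≤
      -(1 / 2 * K⁻¹ * ∫ x, TT Ω (fun x => y x t) g' x * ‖gradient (fun x => y x t) x‖ ^ 2) +
      1 / 2 * K * ∫ x, TT Ω (fun x => y x t) g' x * ‖F x t‖ ^ 2 := by
  have hK0 : 0 < K := by linarith
  have ht' : t ∈ Icc t0 T := Ioo_subset_Icc_self ht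
  have hcpt := h.level hb hΩ hk ht'
  set u : E n → ℝ := fun x => y x t with hu
  have huC := h.y1 t ht
  have hgc : Continuous g := continuous_iff_continuousAt.2 fun s => (hgd s).continuousAt
  obtain ⟨hψC, hgrad⟩ := TT_C1 hΩ huC hgd hg'c hg hg' hcpt
  obtain ⟨-, hψc, hψt⟩ := TT_cont hΩ huC.continuousOn hgc hg hcpt
  obtain ⟨hχC, hχc, hχt⟩ := TT_cont hΩ huC.continuousOn hg'c hg' hcpt
  set χ := TT Ω u g' with hχ
  have hχ0 : ∀ x, 0 ≤ χ x := fun x => indicator_nonneg (fun _ _ => hg'0 _) x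
  have hsub : {x | x ∈ Ω ∧ k ≤ u x} ⊆ Ω := fun x hx => hx.1
  rw [h.weak t ht _ hψC hψc (hψt.trans hsub)]
  have hgu := continuousOn_grad hΩ huC
  have hχz : ∀ x, x ∉ {x | x ∈ Ω ∧ k ≤ u x} → χ x = 0 := fun x hx => TT_zero hg' hx
  have i1 : Integrable (fun x => χ x * ‖gradient u x‖ ^ 2) := by
    have := glue0 (F := fun x => χ x * ‖gradient u x‖ ^ 2) hΩ hcpt hsub
      (hχC.continuousOn.mul (hgu.norm.pow 2)) (fun x hx => by simp [hχz x hx])
    exact this.1.integrable_of_hasCompactSupport this.2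
  have i2 : Integrable (fun x => χ x * ‖F x t‖ ^ 2) := by
    have := glue0 (F := fun x => χ x * ‖F x t‖ ^ 2) hΩ hcpt hsub
      (hχC.continuousOn.mul ((h.FC t ht).norm.pow 2)) (fun x hx => by simp [hχz x hx])
    exact this.1.integrable_of_hasCompactSupport this.2
  have hgz : ∀ x, x ∉ {x | x ∈ Ω ∧ k ≤ u x} → gradient (TT Ω u g) x = 0 := by
    intro x hx
    have h1 := hgrad x
    rw [hχz x hx, zero_smul] at h1
    exact h1
  have i3 : Integrable (fun x => a x * inner ℝ (gradient u x) (gradient (TT Ω u g) x)) := by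
    have := glue0 (F := fun x => a x * inner ℝ (gradient u x) (gradient (TT Ω u g) x)) hΩ hcpt hsub
      (h.aC.mul (hgu.inner (continuous_grad hψC).continuousOn))
      (fun x hx => by simp [hgz x hx])
    exact this.1.integrable_of_hasCompactSupport this.2
  have i4 : Integrable (fun x => inner ℝ (F x t) (gradient (TT Ω u g) x)) := by
    have := glue0 (F := fun x => inner ℝ (F x t) (gradient (TT Ω u g) x)) hΩ hcpt hsub
      ((h.FC t ht).inner (continuous_grad hψC).continuousOn)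
      (fun x hx => by simp [hgz x hx])
    exact this.1.integrable_of_hasCompactSupport this.2
  have e1 : -(∫ x, a x * inner ℝ (gradient u x) (gradient (TT Ω u g) x)) -
      (∫ x, inner ℝ (F x t) (gradient (TT Ω u g) x)) =
      ∫ x, (-(a x * inner ℝ (gradient u x) (gradient (TT Ω u g) x)) -
        inner ℝ (F x t) (gradient (TT Ω u g) x)) := by
    have i3n : Integrable (fun x => -(a x * inner ℝ (gradient u x) (gradient (TT Ω u g) x))) :=
      i3.neg
    rw [integral_sub i3n i4, integral_neg]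
  have e2 : -(1 / 2 * K⁻¹ * ∫ x, χ x * ‖gradient u x‖ ^ 2) +
      1 / 2 * K * (∫ x, χ x * ‖F x t‖ ^ 2) =
      ∫ x, (-(1 / 2 * K⁻¹ * (χ x * ‖gradient u x‖ ^ 2)) + 1 / 2 * K * (χ x * ‖F x t‖ ^ 2)) := by
    have i1n : Integrable (fun x => -(1 / 2 * K⁻¹ * (χ x * ‖gradient u x‖ ^ 2))) :=
      (i1.const_mul (1 / 2 * K⁻¹)).neg
    rw [integral_add i1n (i2.const_mul _), integral_neg, integral_const_mul,
      integral_const_mul]
  rw [e1, e2]
  apply integral_mono (i3.neg.sub i4) ((i1.const_mul _).neg.add (i2.const_mul _))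
  intro x
  have hgx : gradient (TT Ω u g) x = χ x • gradient u x := hgrad x
  simp only [Pi.sub_apply, Pi.neg_apply, Pi.add_apply]
  by_cases hx : x ∈ Ω
  · obtain ⟨ha1, ha2⟩ := h.aK x hx
    rw [hgx, inner_smul_right, inner_smul_right, real_inner_self_eq_norm_sq]
    have hχx := hχ0 x
    set N := ‖gradient u x‖ with hN
    set G := ‖F x t‖ with hG
    have h1 := abs_real_inner_le_norm (F x t) (gradient u x)
    have h2 : -(inner ℝ (F x t) (gradient u x)) ≤ G * N := (neg_le_abs _).trans h1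
    have h3 : K⁻¹ * (χ x * N ^ 2) ≤ a x * (χ x * N ^ 2) := by gcongr
    have h4 : χ x * (-(inner ℝ (F x t) (gradient u x))) ≤ χ x * (G * N) :=
      mul_le_mul_of_nonneg_left h2 hχx
    have h5 : 0 ≤ (K⁻¹ * N - G) ^ 2 * K * χ x := by positivity
    have h6 : (K⁻¹ * N - G) ^ 2 * K * χ x = (K⁻¹ * K) * K⁻¹ * (χ x * N ^ 2) -
        2 * (K⁻¹ * K) * (χ x * (G * N)) + K * (χ x * G ^ 2) := by ring
    rw [inv_mul_cancel₀ hK0.ne'] at h6
    rw [h6] at h5
    linarith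
  · have h8 : χ x = 0 := TT_notMem hx
    rw [hgx, h8]; simp

end Pool.Agent.Helper676.PC
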