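import Pool.Agent.Helper676.PC10

set_option autoImplicit false

/-! One step of the parabolic Moser-Alikakos iteration. -/

namespace Pool.Agent.Helper676.PC

open MeasureTheory Filter Topology Set InnerProductSpace Metric

variable {n : ℕ}

lemma ode_le {S S' : ℝ → ℝ} {t0 T R : ℝ} (hc : ContinuousOn S (Icc t0 T))
    (hd : ∀ t ∈ Ioo t0 T, HasDerivAt S (S' t) t) (hle : ∀ t ∈ Ioo t0 T, S' t ≤ - S t + R)
    (h0 : S t0 ≤ R) : ∀ t ∈ Icc t0 T, S t ≤ R := by
  intro t ht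
  have hanti : AntitoneOn (fun t => Real.exp t * (S t - R)) (Icc t0 T) := by
    apply antitoneOn_of_deriv_nonpos (convex_Icc _ _)
    · exact Real.continuous_exp.continuousOn.mul (hc.sub continuousOn_const)
    · intro s hs
      rw [interior_Icc] at hs
      exact ((Real.hasDerivAt_exp s).mul ((hd s hs).sub_const R)).differentiableAt.differentiableWithinAt
    · intro s hs
      rw [interior_Icc] at hs
      have h1 := ((Real.hasDerivAt_exp s).mul ((hd s hs).sub_const R)).deriv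
      have e : (fun t => Real.exp t * (S t - R)) = (Real.exp * fun t => S t - R) := rfl
      rw [e, h1]
      have h2 := hle s hs
      have h3 := Real.exp_pos s
      nlinarith
  have h1 := hanti (left_mem_Icc.2 (ht.1.trans ht.2)) ht ht.1
  simp only at h1
  have h2 : Real.exp t0 * (S t0 - R) ≤ 0 :=
    mul_nonpos_of_nonneg_of_nonpos (Real.exp_pos _).le (by linarith)
  have h3 : Real.exp t * (S t - R) ≤ 0 := h1.trans h2
  by_contra hcon
  have h4 : 0 < Real.exp t * (S t - R) := mul_pos (Real.exp_pos _) (by linarith [not_le.1 hcon])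
  linarith

lemma growth_le {S S' : ℝ → ℝ} {t0 T c : ℝ} (hc : ContinuousOn S (Icc t0 T))
    (hd : ∀ t ∈ Ioo t0 T, HasDerivAt S (S' t) t) (hle : ∀ t ∈ Ioo t0 T, S' t ≤ c)
    (h0 : S t0 ≤ 0) (hc0 : 0 ≤ c) : ∀ t ∈ Icc t0 T, S t ≤ c * (T - t0) := by
  intro t ht
  have hanti : AntitoneOn (fun t => S t - c * t) (Icc t0 T) := by
    apply antitoneOn_of_deriv_nonpos (convex_Icc _ _)
    · exact hc.sub (by fun_prop)
    · intro s hs
      rw [interior_Icc] at hs
      exact ((hd s hs).sub ((hasDerivAt_id s).const_mul c)).differentiableAt.differentiableWithinAt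
    · intro s hs
      rw [interior_Icc] at hs
      have h1 := ((hd s hs).sub ((hasDerivAt_id s).const_mul c)).deriv
      have e : (fun t => S t - c * t) = (S - fun t => c * id t) := rfl
      rw [e, h1]
      have h2 := hle s hs
      simp only [mul_one]
      linarith
  have h1 := hanti (left_mem_Icc.2 (ht.1.trans ht.2)) ht ht.1
  simp only at h1
  have h2 : c * (t - t0) ≤ c * (T - t0) := mul_le_mul_of_nonneg_left (by linarith [ht.2]) hc0
  linarith

/-- `(s-2)_+^j` -/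
noncomputable def pw (j : ℕ) (s : ℝ) : ℝ := (max (s - 2) 0) ^ j

lemma hasDerivAt_shift (c : ℝ) (j : ℕ) (s : ℝ) :
    HasDerivAt (fun s : ℝ => (max (s - c) 0) ^ (j + 2)) ((j + 2 : ℝ) * (max (s - c) 0) ^ (j + 1)) s := by
  have h1 : HasDerivAt (fun s : ℝ => s - c) 1 s := (hasDerivAt_id s).sub_const c
  have h2 := HasDerivAt.comp s (hasDerivAt_pp j (s - c)) h1
  rw [mul_one] at h2
  exact h2

lemma hasDerivAt_pw (j : ℕ) (s : ℝ) :
    HasDerivAt (pw (j + 2)) ((j + 2 : ℝ) * pw (j + 1) s) s := hasDerivAt_shift 2 j s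

lemma pw_cont (j : ℕ) : Continuous (pw j) := by unfold pw; fun_prop

lemma pw_nonneg (j : ℕ) (s : ℝ) : 0 ≤ pw j s := pow_nonneg (le_max_right _ _) _

lemma pw_zero (j : ℕ) {s : ℝ} (hs : s ≤ 2) : pw (j + 1) s = 0 := by
  unfold pw; rw [max_eq_right (by linarith)]; simp

/-- the base functions -/
noncomputable def f3 (s : ℝ) : ℝ := 1 / 6 * ((max (s - 1) 0) ^ 3 - (max (s - 2) 0) ^ 3)
noncomputable def f2 (s : ℝ) : ℝ := 1 / 2 * ((max (s - 1) 0) ^ 2 - (max (s - 2) 0) ^ 2)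
noncomputable def f1 (s : ℝ) : ℝ := max (s - 1) 0 - max (s - 2) 0

lemma hasDerivAt_f3 (s : ℝ) : HasDerivAt f3 (f2 s) s := by
  have h1 := hasDerivAt_shift 1 1 s
  have h2 := hasDerivAt_shift 2 1 s
  have h3 := (h1.sub h2).const_mul (1 / 6)
  refine h3.congr_deriv ?_
  unfold f2; push_cast; ring

lemma hasDerivAt_f2 (s : ℝ) : HasDerivAt f2 (f1 s) s := by
  have h1 := hasDerivAt_shift 1 0 s
  have h2 := hasDerivAt_shift 2 0 s
  have h3 := (h1.sub h2).const_mul (1 / 2)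
  refine h3.congr_deriv ?_
  unfold f1; push_cast; ring

lemma f1_cont : Continuous f1 := by unfold f1; fun_prop
lemma f2_cont : Continuous f2 := by unfold f2; fun_prop
lemma f3_zero : ∀ s, s ≤ 1 → f3 s = 0 := by
  intro s hs; unfold f3; rw [max_eq_right (by linarith), max_eq_right (by linarith)]; simp
lemma f2_zero : ∀ s, s ≤ 1 → f2 s = 0 := by
  intro s hs; unfold f2; rw [max_eq_right (by linarith), max_eq_right (by linarith)]; simp
lemma f1_zero : ∀ s, s ≤ 1 → f1 s = 0 := by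
  intro s hs; unfold f1; rw [max_eq_right (by linarith), max_eq_right (by linarith)]; simp
lemma f1_nonneg (s : ℝ) : 0 ≤ f1 s := by
  unfold f1
  have : max (s - 2) 0 ≤ max (s - 1) 0 := max_le_max (by linarith) le_rfl
  linarith
lemma f1_le_one (s : ℝ) : f1 s ≤ 1 := by
  unfold f1
  have : max (s - 1) 0 ≤ max (s - 2) 0 + 1 := by
    apply max_le
    · have := le_max_left (s - 2) 0; linarith
    · have := le_max_right (s - 2) 0; linarith
  linarith
lemma f1_eq_one {s : ℝ} (hs : 2 ≤ s) : f1 s = 1 := by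
  unfold f1; rw [max_eq_left (by linarith), max_eq_left (by linarith)]; ring
lemma f3_nonneg (s : ℝ) : 0 ≤ f3 s := by
  unfold f3
  have h1 : max (s - 2) 0 ≤ max (s - 1) 0 := max_le_max (by linarith) le_rfl
  have h2 : 0 ≤ max (s - 2) 0 := le_max_right _ _
  have := pow_le_pow_left₀ h2 h1 3
  linarith
lemma pw2_le (s : ℝ) : pw 2 s ≤ 2 * f3 s := by
  unfold pw f3
  rcases le_total s 2 with h | h
  · rw [max_eq_right (show s - 2 ≤ 0 by linarith)]
    have : 0 ≤ (max (s - 1) 0) ^ 3 := pow_nonneg (le_max_right _ _) _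
    nlinarith
  · rw [max_eq_left (show 0 ≤ s - 2 by linarith), max_eq_left (show 0 ≤ s - 1 by linarith)]
    nlinarith

/-- the form bounds assumed of `F` -/
structure FB (Ω : Set (E n)) (C1 κ t0 T : ℝ) (F : E n → ℝ → E n) : Prop where
  H1 : ∀ t ∈ Ioo t0 T, ∀ (j : ℕ) (Ψ e : E n → ℝ), ContDiff ℝ 1 Ψ → HasCompactSupport Ψ →
      tsupport Ψ ⊆ Ω → (∀ x, 0 ≤ Ψ x) → Integrable e → (∀ x, 0 ≤ e x) →
      (∀ x, ‖gradient Ψ x‖ ^ 2 ≤ 4 * Ψ x * e x) →
      ∫ x, Ψ x * ‖F x t‖ ^ 2 ≤ C1 * (κ ^ (2 * j) * (∫ x, e x) + 64 ^ j * ∫ x, Ψ x)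
  H2 : ∀ t ∈ Ioo t0 T, ∀ Ψ : E n → ℝ, Continuous Ψ → HasCompactSupport Ψ →
      tsupport Ψ ⊆ Ω → (∀ x, 0 ≤ Ψ x) → (∀ x, Ψ x ≤ 1) → ∫ x, Ψ x * ‖F x t‖ ^ 2 ≤ C1

section step

variable {Ω : Set (E n)} {K t0 T C1 κ : ℝ} {a : E n → ℝ} {y yt : E n → ℝ → ℝ} {F : E n → ℝ → E n}

/-- the base energy -/
lemma base_deriv (hK : 1 ≤ K) (h : Par Ω K t0 T a y yt F) (hF : FB Ω C1 κ t0 T F)
    (hb : Bornology.IsBounded Ω) (hΩ : IsOpen Ω) {t : ℝ} (ht : t ∈ Ioo t0 T) :
    ∫ x, yt x t * TT Ω (fun x => y x t) f2 x ≤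
      -(1 / 2 * K⁻¹ * ∫ x, TT Ω (fun x => y x t) f1 x * ‖gradient (fun x => y x t) x‖ ^ 2) +
      1 / 2 * K * C1 := by
  have h1 := h.energy hK hb hΩ one_pos hasDerivAt_f2 f1_cont f2_zero f1_zero f1_nonneg ht
  have hcpt := h.level hb hΩ one_pos (Ioo_subset_Icc_self ht)
  obtain ⟨h2, h3, h4⟩ := TT_cont hΩ (h.y1 t ht).continuousOn f1_cont f1_zero hcpt
  have h5 := hF.H2 t ht _ h2 h3 (h4.trans fun x hx => hx.1)
    (fun x => indicator_nonneg (fun _ _ => f1_nonneg _) x)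
    (fun x => by
      by_cases hx : x ∈ Ω
      · rw [TT_mem hx]; exact f1_le_one _
      · rw [TT_notMem hx]; norm_num)
  have h6 : 1 / 2 * K * ∫ x, TT Ω (fun x => y x t) f1 x * ‖F x t‖ ^ 2 ≤ 1 / 2 * K * C1 :=
    mul_le_mul_of_nonneg_left h5 (by linarith)
  linarith

lemma base_bound (hK : 1 ≤ K) (hT : t0 ≤ T) (h : Par Ω K t0 T a y yt F) (hF : FB Ω C1 κ t0 T F)
    (hb : Bornology.IsBounded Ω) (hΩ : IsOpen Ω) (hC1 : 0 ≤ C1) :
    ∀ t ∈ Icc t0 T, ∫ x, TT Ω (fun x => y x t) f3 x ≤ 1 / 2 * K * C1 * (T - t0) := by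
  obtain ⟨h1, h2⟩ := h.deriv hb hΩ one_pos hasDerivAt_f3 f2_cont f3_zero f2_zero
  apply growth_le h1 h2
  · intro t ht
    have h3 := base_deriv hK h hF hb hΩ ht
    have h4 : 0 ≤ 1 / 2 * K⁻¹ *
        ∫ x, TT Ω (fun x => y x t) f1 x * ‖gradient (fun x => y x t) x‖ ^ 2 := by
      apply mul_nonneg (by positivity)
      apply integral_nonneg
      intro x
      exact mul_nonneg (indicator_nonneg (fun _ _ => f1_nonneg _) x) (sq_nonneg _)
    linarith
  · apply le_of_eq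
    have : ∀ x, TT Ω (fun x => y x t0) f3 x = 0 := by
      intro x
      by_cases hx : x ∈ Ω
      · rw [TT_mem hx, h.y0 x (subset_closure hx)]
        exact f3_zero 0 (by norm_num)
      · exact TT_notMem hx
    simp [this]
  · positivity

/-- one step of the iteration -/
lemma moser_step (hK : 1 ≤ K) (hT : t0 ≤ T) (h : Par Ω K t0 T a y yt F) (hF : FB Ω C1 κ t0 T F)
    (hb : Bornology.IsBounded Ω) (hΩ : IsOpen Ω) (hC1 : 0 < C1) (μ j : ℕ)
    (hj : 4 * K ^ 2 * C1 * κ ^ (2 * j) * (μ + 2 : ℝ) ^ 2 ≤ 1) {Z L : ℝ}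
    (hL : L = 2 * K * (μ + 2 : ℝ) ^ 2 * C1 * 64 ^ j)
    (hZ : ∀ t ∈ Ioo t0 T, ∫ x, TT Ω (fun x => y x t) (pw (μ + 2)) x ≤ Z) :
    ∀ t ∈ Ioo t0 T, ∫ x, TT Ω (fun x => y x t) (pw (2 * μ + 4)) x ≤
      (μ + 2 : ℝ) ^ 2 * (1 / 2 * K * C1 * (T - t0)) +
      (K * (L + 1) ^ 2 * (volume.real (ball (0 : E n) (1 / (K * (L + 1)))))⁻¹ * Z ^ 2 +
        L * volume.real Ω + 1 / 2 * K * (μ + 2 : ℝ) ^ 2 * C1) := by
  have hK0 : 0 < K := by linarith
  set m : ℝ := (μ + 2 : ℝ) with hm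
  have hm2 : 2 ≤ m := by
    have : (0:ℝ) ≤ μ := Nat.cast_nonneg μ
    linarith
  have hL0 : 0 < L := by rw [hL]; positivity
  set ε := 1 / (K * (L + 1)) with hε
  have hε0 : 0 < ε := by positivity
  set V := volume.real Ω with hV
  have hV0 : 0 ≤ V := measureReal_nonneg
  set Vε := volume.real (ball (0 : E n) ε) with hVε
  have hVε0 : 0 < Vε := volReal_ball_pos n hε0
  set CH := 1 / 2 * K * C1 * (T - t0) with hCH
  have hCH0 : 0 ≤ CH := by
    have : 0 ≤ T - t0 := by linarith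
    positivity
  set R := m ^ 2 * CH + (K * (L + 1) ^ 2 * Vε⁻¹ * Z ^ 2 + L * V + 1 / 2 * K * m ^ 2 * C1) with hR
  have hR0 : 0 ≤ R := by positivity
  have hHb := base_bound hK hT h hF hb hΩ hC1.le
  have hH0 : ∀ t, 0 ≤ ∫ x, TT Ω (fun x => y x t) f3 x := fun t =>
    integral_nonneg fun x => indicator_nonneg (fun _ _ => f3_nonneg _) x
  obtain ⟨dH1, dH2⟩ := h.deriv hb hΩ one_pos hasDerivAt_f3 f2_cont f3_zero f2_zero
  -- derivative of S
  have hgd : ∀ s, HasDerivAt (pw (2 * μ + 4)) ((2 * m) * pw (2 * μ + 3) s) s := by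
    intro s
    have := hasDerivAt_pw (2 * μ + 2) s
    refine this.congr_deriv ?_
    rw [hm]; push_cast; ring
  have hgd2 : ∀ s, HasDerivAt (fun s => (2 * m) * pw (2 * μ + 3) s)
      ((2 * m) * ((2 * m - 1) * pw (2 * μ + 2) s)) s := by
    intro s
    have := (hasDerivAt_pw (2 * μ + 1) s).const_mul (2 * m)
    refine this.congr_deriv ?_
    rw [hm]; push_cast; ring
  have hgd3 : ∀ s, HasDerivAt (pw (2 * μ + 2)) ((2 * (m - 1)) * pw (2 * μ + 1) s) s := by
    intro s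
    have := hasDerivAt_pw (2 * μ) s
    refine this.congr_deriv ?_
    rw [hm]; push_cast; ring
  have hgd4 : ∀ s, HasDerivAt (pw (μ + 2)) (m * pw (μ + 1) s) s := by
    intro s
    have := hasDerivAt_pw μ s
    refine this.congr_deriv ?_
    rw [hm]
  obtain ⟨dS1, dS2⟩ := h.deriv hb hΩ two_pos hgd (continuous_const.mul (pw_cont _))
    (fun s hs => pw_zero _ hs) (fun s hs => by rw [pw_zero _ hs, mul_zero])
  have hfinal := ode_le (S := fun t => (∫ x, TT Ω (fun x => y x t) (pw (2 * μ + 4)) x) +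
      m ^ 2 * ∫ x, TT Ω (fun x => y x t) f3 x)
    (S' := fun t => (∫ x, yt x t * TT Ω (fun x => y x t) (fun s => (2 * m) * pw (2 * μ + 3) s) x) +
      m ^ 2 * ∫ x, yt x t * TT Ω (fun x => y x t) f2 x) (t0 := t0) (T := T) (R := R)
    (dS1.add (continuousOn_const.mul dH1))
    (fun t ht => (dS2 t ht).add ((dH2 t ht).const_mul _)) ?_ ?_
  · intro t ht
    have h1 := hfinal t (Ioo_subset_Icc_self ht)
    have h2 := hH0 t
    have h3 : 0 ≤ m ^ 2 * ∫ x, TT Ω (fun x => y x t) f3 x := mul_nonneg (sq_nonneg _) h2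
    linarith
  · -- the differential inequality
    intro t ht
    have ht' := Ioo_subset_Icc_self ht
    set u : E n → ℝ := fun x => y x t with hu
    have huC : ContDiffOn ℝ 1 u Ω := h.y1 t ht
    have hc1 : IsCompact {x | x ∈ Ω ∧ 1 ≤ u x} := h.level hb hΩ one_pos ht'
    have hc2 : IsCompact {x | x ∈ Ω ∧ 2 ≤ u x} := h.level hb hΩ two_pos ht'
    have hs1 : {x | x ∈ Ω ∧ 1 ≤ u x} ⊆ Ω := fun x hx => hx.1
    have hs2 : {x | x ∈ Ω ∧ 2 ≤ u x} ⊆ Ω := fun x hx => hx.1
    have hgu := continuousOn_grad hΩ huC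
    -- energies
    set EH := ∫ x, TT Ω u f1 x * ‖gradient u x‖ ^ 2 with hEH
    set Em := ∫ x, TT Ω u (pw (2 * μ + 2)) x * ‖gradient u x‖ ^ 2 with hEm
    set P := ∫ x, TT Ω u (pw (2 * μ + 2)) x * ‖F x t‖ ^ 2 with hP
    set S := ∫ x, TT Ω u (pw (2 * μ + 4)) x with hS
    set I := ∫ x, TT Ω u (pw (2 * μ + 2)) x with hI
    have hTT0 : ∀ (j : ℕ) x, 0 ≤ TT Ω u (pw j) x := fun j x =>
      indicator_nonneg (fun _ _ => pw_nonneg _ _) x
    have hf10 : ∀ x, 0 ≤ TT Ω u f1 x := fun x => indicator_nonneg (fun _ _ => f1_nonneg _) x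
    have hEH0 : 0 ≤ EH := integral_nonneg fun x => mul_nonneg (hf10 x) (sq_nonneg _)
    have hEm0 : 0 ≤ Em := integral_nonneg fun x => mul_nonneg (hTT0 _ x) (sq_nonneg _)
    have hS0 : 0 ≤ S := integral_nonneg fun x => hTT0 _ x
    -- (g)
    have hg := base_deriv hK h hF hb hΩ ht
    -- (a)
    have ha := h.energy hK hb hΩ two_pos hgd2
      (continuous_const.mul (continuous_const.mul (pw_cont _)))
      (fun s hs => by rw [pw_zero _ hs, mul_zero])
      (fun s hs => by rw [pw_zero _ hs]; simp)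
      (fun s => mul_nonneg (by linarith) (mul_nonneg (by linarith) (pw_nonneg _ _))) ht
    have hfac : ∀ (G : E n → ℝ), ∫ x, TT Ω u (fun s => 2 * m * ((2 * m - 1) * pw (2 * μ + 2) s)) x *
        G x = 2 * m * (2 * m - 1) * ∫ x, TT Ω u (pw (2 * μ + 2)) x * G x := by
      intro G
      rw [← integral_const_mul]
      congr 1; ext x
      by_cases hx : x ∈ Ω
      · rw [TT_mem hx, TT_mem hx]; ring
      · rw [TT_notMem hx, TT_notMem hx]; ring
    rw [hfac, hfac] at ha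
    -- integrability facts
    obtain ⟨c1, c1', c1t⟩ := TT_cont hΩ huC.continuousOn f1_cont f1_zero hc1
    obtain ⟨c2, c2', c2t⟩ := TT_cont hΩ huC.continuousOn (pw_cont (2 * μ + 2))
      (fun s hs => pw_zero _ hs) hc2
    obtain ⟨c4, c4', c4t⟩ := TT_cont hΩ huC.continuousOn (pw_cont (2 * μ + 4))
      (fun s hs => pw_zero _ hs) hc2
    have iE1 : Integrable (fun x => TT Ω u f1 x * ‖gradient u x‖ ^ 2) := by
      have := glue0 (F := fun x => TT Ω u f1 x * ‖gradient u x‖ ^ 2) hΩ hc1 hs1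
        (c1.continuousOn.mul (hgu.norm.pow 2)) (fun x hx => by simp [TT_zero f1_zero hx])
      exact this.1.integrable_of_hasCompactSupport this.2
    have iEm : Integrable (fun x => TT Ω u (pw (2 * μ + 2)) x * ‖gradient u x‖ ^ 2) := by
      have := glue0 (F := fun x => TT Ω u (pw (2 * μ + 2)) x * ‖gradient u x‖ ^ 2) hΩ hc2 hs2
        (c2.continuousOn.mul (hgu.norm.pow 2))
        (fun x hx => by simp [TT_zero (fun s hs => pw_zero _ hs) hx])
      exact this.1.integrable_of_hasCompactSupport this.2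
    have iI : Integrable (TT Ω u (pw (2 * μ + 2))) := c2.integrable_of_hasCompactSupport c2'
    have iS : Integrable (TT Ω u (pw (2 * μ + 4))) := c4.integrable_of_hasCompactSupport c4'
    -- (b)
    obtain ⟨d2, d2g⟩ := TT_C1 hΩ huC hgd3 (continuous_const.mul (pw_cont _))
      (fun s hs => pw_zero _ hs) (fun s hs => by rw [pw_zero _ hs, mul_zero]) hc2
    set e : E n → ℝ := fun x => (m - 1) ^ 2 * (TT Ω u (pw (2 * μ + 2)) x * ‖gradient u x‖ ^ 2 +
      TT Ω u f1 x * ‖gradient u x‖ ^ 2) with he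
    have hie : Integrable e := (iEm.add iE1).const_mul _
    have he0 : ∀ x, 0 ≤ e x := fun x => mul_nonneg (sq_nonneg _)
      (add_nonneg (mul_nonneg (hTT0 _ x) (sq_nonneg _)) (mul_nonneg (hf10 x) (sq_nonneg _)))
    have hge : ∀ x, ‖gradient (TT Ω u (pw (2 * μ + 2))) x‖ ^ 2 ≤
        4 * TT Ω u (pw (2 * μ + 2)) x * e x := by
      intro x
      rw [d2g x]
      by_cases hx : x ∈ Ω
      · simp only [he]
        rw [TT_mem hx, TT_mem hx, TT_mem hx, norm_smul, mul_pow, Real.norm_eq_abs, sq_abs]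
        set N := ‖gradient u x‖ ^ 2 with hN
        have hN0 : 0 ≤ N := sq_nonneg _
        rcases le_total (u x) 2 with h2 | h2
        · rw [pw_zero _ h2, pw_zero _ h2]
          simp
        · have hz0 : 0 ≤ u x - 2 := by linarith
          have e1 : pw (2 * μ + 2) (u x) = (u x - 2) ^ (2 * μ + 2) := by
            unfold pw; rw [max_eq_left hz0]
          have e2 : pw (2 * μ + 1) (u x) = (u x - 2) ^ (2 * μ + 1) := by
            unfold pw; rw [max_eq_left hz0]
          rw [f1_eq_one h2, e1, e2]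
          set z := u x - 2 with hz
          have h3 : (2 * (m - 1) * z ^ (2 * μ + 1)) ^ 2 * N =
              4 * z ^ (2 * μ + 2) * ((m - 1) ^ 2 * (z ^ (2 * μ) * N)) := by
            have : (z ^ (2 * μ + 1)) ^ 2 = z ^ (2 * μ + 2) * z ^ (2 * μ) := by
              rw [← pow_mul, ← pow_add]; congr 1; ring
            rw [mul_pow, this]; ring
          rw [h3]
          have h4 : z ^ (2 * μ) ≤ z ^ (2 * μ + 2) + 1 := by
            rcases le_total z 1 with hz1 | hz1
            · have : z ^ (2 * μ) ≤ 1 := pow_le_one₀ hz0 hz1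
              have h6 : 0 ≤ z ^ (2 * μ + 2) := pow_nonneg hz0 _
              linarith
            · have : z ^ (2 * μ) ≤ z ^ (2 * μ + 2) := pow_le_pow_right₀ hz1 (by omega)
              linarith
          have h5 : z ^ (2 * μ) * N ≤ z ^ (2 * μ + 2) * N + 1 * N := by
            have := mul_le_mul_of_nonneg_right h4 hN0
            linarith
          have h6 : 0 ≤ z ^ (2 * μ + 2) := pow_nonneg hz0 _
          gcongr
      · rw [TT_notMem hx, TT_notMem hx]; simp
    have hbnd := hF.H1 t ht j _ e d2 c2' (c2t.trans hs2) (hTT0 _) hie he0 hge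
    have hie' : ∫ x, e x = (m - 1) ^ 2 * (Em + EH) := by
      simp only [he]
      rw [integral_const_mul, integral_add iEm iE1]
    rw [hie'] at hbnd
    -- (c)
    have hc : I ≤ S + V := by
      have hVI : Integrable (Ω.indicator (fun _ : E n => (1:ℝ))) :=
        (integrable_indicator_iff hΩ.measurableSet).2
          (integrableOn_const hb.measure_lt_top.ne enorm_ne_top)
      have e1 : S + V = ∫ x, (TT Ω u (pw (2 * μ + 4)) x + Ω.indicator (fun _ => (1:ℝ)) x) := by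
        rw [integral_add iS hVI, integral_indicator hΩ.measurableSet]
        simp [hV, hS]
      rw [e1]
      apply integral_mono iI (iS.add hVI)
      intro x
      simp only [Pi.add_apply]
      by_cases hx : x ∈ Ω
      · rw [TT_mem hx, TT_mem hx, indicator_of_mem hx]
        unfold pw
        set z := max (u x - 2) 0 with hz
        have hz0 : 0 ≤ z := le_max_right _ _
        rcases le_total z 1 with hz1 | hz1
        · have : z ^ (2 * μ + 2) ≤ 1 := pow_le_one₀ hz0 hz1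
          have h6 : 0 ≤ z ^ (2 * μ + 4) := pow_nonneg hz0 _
          linarith
        · have : z ^ (2 * μ + 2) ≤ z ^ (2 * μ + 4) := pow_le_pow_right₀ hz1 (by omega)
          linarith
      · rw [TT_notMem hx, TT_notMem hx, indicator_of_notMem hx]; simp
    -- (e)
    obtain ⟨d4, d4g⟩ := TT_C1 hΩ huC hgd4 (continuous_const.mul (pw_cont _))
      (fun s hs => pw_zero _ hs) (fun s hs => by rw [pw_zero _ hs, mul_zero]) hc2
    obtain ⟨c5, c5', c5t⟩ := TT_cont hΩ huC.continuousOn (pw_cont (μ + 2))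
      (fun s hs => pw_zero _ hs) hc2
    have hnash := nash d4 c5' hε0
    have e1 : ∫ x, TT Ω u (pw (μ + 2)) x ^ 2 = ∫ x, TT Ω u (pw (2 * μ + 4)) x := by
      congr 1; ext x
      by_cases hx : x ∈ Ω
      · rw [TT_mem hx, TT_mem hx]; unfold pw; rw [← pow_mul]; congr 1; ring
      · rw [TT_notMem hx, TT_notMem hx]; simp
    have e2 : ∫ x, ‖gradient (TT Ω u (pw (μ + 2))) x‖ ^ 2 = m ^ 2 * Em := by
      rw [hEm, ← integral_const_mul]; congr 1; ext x
      rw [d4g x]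
      by_cases hx : x ∈ Ω
      · rw [TT_mem hx, TT_mem hx, norm_smul, mul_pow, Real.norm_eq_abs, sq_abs, mul_pow]
        unfold pw
        rw [← pow_mul, show (μ + 1) * 2 = 2 * μ + 2 by ring]; ring
      · rw [TT_notMem hx, TT_notMem hx]; simp
    have e3 : (∫ x, |TT Ω u (pw (μ + 2)) x|) ^ 2 ≤ Z ^ 2 := by
      have h1 : ∫ x, |TT Ω u (pw (μ + 2)) x| = ∫ x, TT Ω u (pw (μ + 2)) x := by
        congr 1; ext x; exact abs_of_nonneg (hTT0 _ x)
      rw [h1]
      exact pow_le_pow_left₀ (integral_nonneg fun x => hTT0 _ x) (hZ t ht) 2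
    rw [e1, e2] at hnash
    have hnash2 : S ≤ ε ^ 2 / 2 * (m ^ 2 * Em) + Vε⁻¹ * Z ^ 2 := by
      refine hnash.trans ?_
      have : Vε⁻¹ * (∫ x, |TT Ω u (pw (μ + 2)) x|) ^ 2 ≤ Vε⁻¹ * Z ^ 2 :=
        mul_le_mul_of_nonneg_left e3 (by positivity)
      linarith
    have hHt := hHb t ht'
    -- algebra
    set A1 := ∫ x, yt x t * TT Ω u (fun s => (2 * m) * pw (2 * μ + 3) s) x with hA1
    set A2 := ∫ x, yt x t * TT Ω u f2 x with hA2
    set Hv := ∫ x, TT Ω u f3 x with hHv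
    have hP0 : 0 ≤ P := integral_nonneg fun x => mul_nonneg (hTT0 _ x) (sq_nonneg _)
    have hq0 : 0 ≤ κ ^ (2 * j) := by rw [mul_comm, pow_mul]; exact sq_nonneg _
    have hI0 : 0 ≤ I := integral_nonneg fun x => hTT0 _ x
    set q := κ ^ (2 * j) with hq
    set W : ℝ := 64 ^ j with hW
    have hW0 : 0 < W := by positivity
    have hm0 : 0 < m := by linarith
    have s1 : P ≤ C1 * (q * (m ^ 2 * (Em + EH)) + W * (S + V)) := by
      refine hbnd.trans ?_
      have : (m - 1) ^ 2 ≤ m ^ 2 := pow_le_pow_left₀ (by linarith) (by linarith) 2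
      gcongr
    have s2 : 1 / 2 * K * (2 * m * (2 * m - 1) * P) ≤ 2 * K * m ^ 2 * P := by
      have : 1 / 2 * K * (2 * m * (2 * m - 1) * P) = 2 * K * m ^ 2 * P - K * m * P := by ring
      rw [this]
      have : 0 ≤ K * m * P := by positivity
      linarith
    have s3 : 2 * K * m ^ 2 * P ≤ 1 / 2 * K⁻¹ * m ^ 2 * (Em + EH) + L * (S + V) := by
      have h1 : 2 * K * m ^ 2 * P ≤
          2 * K * m ^ 2 * (C1 * (q * (m ^ 2 * (Em + EH)) + W * (S + V))) :=
        mul_le_mul_of_nonneg_left s1 (by positivity)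
      refine h1.trans ?_
      have h2 : 2 * K * m ^ 2 * (C1 * (q * (m ^ 2 * (Em + EH)) + W * (S + V))) =
          (4 * K ^ 2 * C1 * q * m ^ 2) * (1 / 2 * K⁻¹ * m ^ 2 * (Em + EH)) + L * (S + V) := by
        rw [hL]; field_simp; ring
      rw [h2]
      have h3 : (4 * K ^ 2 * C1 * q * m ^ 2) * (1 / 2 * K⁻¹ * m ^ 2 * (Em + EH)) ≤
          1 * (1 / 2 * K⁻¹ * m ^ 2 * (Em + EH)) :=
        mul_le_mul_of_nonneg_right hj (by positivity)
      linarith
    have s4 : K⁻¹ * m ^ 2 * Em ≤ 1 / 2 * K⁻¹ * (2 * m * (2 * m - 1) * Em) := by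
      have : 1 / 2 * K⁻¹ * (2 * m * (2 * m - 1) * Em) - K⁻¹ * m ^ 2 * Em =
          K⁻¹ * m * (m - 1) * Em := by ring
      have h2 : 0 ≤ K⁻¹ * m * (m - 1) * Em := by
        have : 0 ≤ m - 1 := by linarith
        positivity
      linarith
    have s5 : K * (L + 1) ^ 2 * (S - Vε⁻¹ * Z ^ 2) ≤ 1 / 2 * K⁻¹ * m ^ 2 * Em := by
      have h1 : S - Vε⁻¹ * Z ^ 2 ≤ ε ^ 2 / 2 * (m ^ 2 * Em) := by linarith
      have h2 := mul_le_mul_of_nonneg_left h1 (by positivity : 0 ≤ K * (L + 1) ^ 2)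
      refine h2.trans (le_of_eq ?_)
      rw [hε]; field_simp
    have s6 : (L + 1) * S ≤ K * (L + 1) ^ 2 * S := by
      have h1 : L + 1 ≤ K * (L + 1) ^ 2 := by
        have h2 : 1 ≤ K * (L + 1) := one_le_mul_of_one_le_of_one_le hK (by linarith)
        have h3 : (L + 1) * 1 ≤ (L + 1) * (K * (L + 1)) :=
          mul_le_mul_of_nonneg_left h2 (by linarith)
        linarith
      exact mul_le_mul_of_nonneg_right h1 hS0
    have s7 : m ^ 2 * A2 ≤ m ^ 2 * (-(1 / 2 * K⁻¹ * EH) + 1 / 2 * K * C1) :=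
      mul_le_mul_of_nonneg_left hg (by positivity)
    have s8 : m ^ 2 * Hv ≤ m ^ 2 * CH := mul_le_mul_of_nonneg_left hHt (by positivity)
    rw [hR]
    have s9 : A1 ≤ -(1 / 2 * K⁻¹ * (2 * m * (2 * m - 1) * Em)) +
        1 / 2 * K * (2 * m * (2 * m - 1) * P) := ha
    linarith [s1, s2, s3, s4, s5, s6, s7, s8, s9]
  · -- initial value
    have h1 : ∀ x, TT Ω (fun x => y x t0) (pw (2 * μ + 4)) x = 0 := by
      intro x
      by_cases hx : x ∈ Ω
      · rw [TT_mem hx, h.y0 x (subset_closure hx)]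
        exact pw_zero _ (by norm_num)
      · exact TT_notMem hx
    have h2 : ∀ x, TT Ω (fun x => y x t0) f3 x = 0 := by
      intro x
      by_cases hx : x ∈ Ω
      · rw [TT_mem hx, h.y0 x (subset_closure hx)]
        exact f3_zero 0 (by norm_num)
      · exact TT_notMem hx
    simp only [h1, h2, integral_zero, mul_zero, add_zero]
    exact hR0

end step

end Pool.Agent.Helper676.PC
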