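import Pool.Agent.Helper676.PC11

set_option autoImplicit false

/-! The parabolic sup bound. -/

namespace Pool.Agent.Helper676.PC

open MeasureTheory Filter Topology Set InnerProductSpace Metric

variable {n : ℕ}

/-- one sided parabolic sup bound -/
theorem par_sup {K C1 κ t0 T : ℝ} (hK : 1 ≤ K) (hC1 : 0 < C1) (hκ0 : 0 < κ) (hκ1 : κ < 1)
    (hT : t0 < T) {Ω : Set (E n)} (hΩ : IsOpen Ω) (hb : Bornology.IsBounded Ω) :
    ∃ Λ : ℝ, 0 < Λ ∧ ∀ (a : E n → ℝ) (y yt : E n → ℝ → ℝ) (F : E n → ℝ → E n),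
      Par Ω K t0 T a y yt F → FB Ω C1 κ t0 T F → ∀ x ∈ Ω, ∀ t ∈ Icc t0 T, y x t ≤ Λ := by
  have hK0 : 0 < K := by linarith
  -- choice of the exponents
  obtain ⟨J, hJ⟩ : ∃ J : ℕ, κ ^ (2 * J) ≤ 1 / 4 := by
    obtain ⟨J, hJ⟩ := exists_pow_lt_of_lt_one (show (0:ℝ) < 1/4 by norm_num) hκ1
    refine ⟨J, ?_⟩
    calc κ ^ (2 * J) ≤ κ ^ J := pow_le_pow_of_le_one hκ0.le hκ1.le (by omega)
      _ ≤ 1 / 4 := hJ.le
  obtain ⟨J0, hJ0⟩ : ∃ J0 : ℕ, 4 * K ^ 2 * C1 * κ ^ (2 * J0) ≤ 1 := by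
    obtain ⟨J0, hJ0⟩ := exists_pow_lt_of_lt_one
      (show (0:ℝ) < 1 / (4 * K ^ 2 * C1) by positivity) hκ1
    refine ⟨J0, ?_⟩
    have h1 : κ ^ (2 * J0) ≤ κ ^ J0 := pow_le_pow_of_le_one hκ0.le hκ1.le (by omega)
    have h2 : κ ^ (2 * J0) ≤ 1 / (4 * K ^ 2 * C1) := h1.trans hJ0.le
    rw [le_div_iff₀ (by positivity)] at h2
    linarith
  set L0 := 2 * K * C1 * 64 ^ J0 with hL0
  have hL00 : 0 < L0 := by positivity
  set D0 : ℝ := 4 * 64 ^ J with hD0
  have hD04 : 4 ≤ D0 := by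
    have : (1:ℝ) ≤ 64 ^ J := one_le_pow₀ (by norm_num)
    rw [hD0]; linarith
  have hD01 : 1 ≤ D0 := by linarith
  set D := D0 ^ (n + 2) with hD
  have hD0D : D0 ≤ D := by
    rw [hD]; exact le_self_pow₀ hD01 (by omega)
  have hD1 : 1 ≤ D := hD01.trans hD0D
  set CH := 1 / 2 * K * C1 * (T - t0) with hCH
  have hCH0 : 0 ≤ CH := by
    have : 0 ≤ T - t0 := by linarith
    positivity
  set V := volume.real Ω with hV
  have hV0 : 0 ≤ V := measureReal_nonneg
  set V1 := volume.real (ball (0 : E n) 1) with hV1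
  have hV10 : 0 < V1 := volReal_ball_pos n one_pos
  set A := CH + K ^ (n + 1) * (L0 + 1) ^ (n + 2) / V1 + (L0 + 1) * V + 1 / 2 * K * C1 + 1 with hA
  have hA1 : 1 ≤ A := by
    have h1 : 0 ≤ K ^ (n + 1) * (L0 + 1) ^ (n + 2) / V1 := by positivity
    have h2 : 0 ≤ (L0 + 1) * V := by positivity
    have h3 : 0 ≤ 1 / 2 * K * C1 := by positivity
    rw [hA]; linarith
  set Λ := A * D ^ 2 * max 1 (2 * CH) with hΛ
  have hΛ1 : 1 ≤ Λ := by
    have h1 : 1 ≤ A * D ^ 2 := one_le_mul_of_one_le_of_one_le hA1 (one_le_pow₀ hD1)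
    exact one_le_mul_of_one_le_of_one_le h1 (le_max_left _ _)
  refine ⟨2 + Λ, by linarith, ?_⟩
  intro a y yt F h hF
  -- the iteration
  have key : ∀ i : ℕ, 1 ≤ Λ ^ (2 ^ i) / (A * D ^ (i + 2)) ∧
      ∀ t ∈ Ioo t0 T, ∫ x, TT Ω (fun x => y x t) (pw (2 ^ (i + 1))) x ≤
        Λ ^ (2 ^ i) / (A * D ^ (i + 2)) := by
    intro i
    induction i with
    | zero =>
      have e1 : Λ ^ (2 ^ 0) / (A * D ^ (0 + 2)) = max 1 (2 * CH) := by
        rw [hΛ]; simp only [pow_zero, pow_one, zero_add]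
        have : A ≠ 0 := by linarith
        have : D ≠ 0 := by linarith
        field_simp
      rw [e1]
      refine ⟨le_max_left _ _, ?_⟩
      intro t ht
      have hH := base_bound hK hT.le h hF hb hΩ hC1.le t (Ioo_subset_Icc_self ht)
      refine le_trans ?_ (le_max_right _ _)
      have hc1 := h.level hb hΩ one_pos (Ioo_subset_Icc_self ht)
      have hc2 := h.level hb hΩ two_pos (Ioo_subset_Icc_self ht)
      have hf3c : Continuous f3 := by unfold f3; fun_prop
      obtain ⟨c1, c1', -⟩ := TT_cont hΩ (h.y1 t ht).continuousOn hf3c f3_zero hc1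
      obtain ⟨c2, c2', -⟩ := TT_cont hΩ (h.y1 t ht).continuousOn (pw_cont 2)
        (fun s hs => pw_zero _ hs) hc2
      calc ∫ x, TT Ω (fun x => y x t) (pw (2 ^ (0 + 1))) x
          ≤ ∫ x, 2 * TT Ω (fun x => y x t) f3 x := by
            apply integral_mono (c2.integrable_of_hasCompactSupport c2')
              ((c1.integrable_of_hasCompactSupport c1').const_mul 2)
            intro x
            by_cases hx : x ∈ Ω
            · simp only
              rw [TT_mem hx, TT_mem hx]; exact pw2_le _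
            · simp only
              rw [TT_notMem hx, TT_notMem hx]; simp
        _ = 2 * ∫ x, TT Ω (fun x => y x t) f3 x := integral_const_mul _ _
        _ ≤ 2 * CH := by linarith
    | succ i ih =>
      obtain ⟨ih1, ih2⟩ := ih
      set Z := Λ ^ (2 ^ i) / (A * D ^ (i + 2)) with hZ
      have hADp : 0 < A * D ^ (i + 2) := by positivity
      have hm2 : 2 ≤ 2 ^ (i + 1) := by
        have := Nat.one_le_two_pow (n := i)
        rw [pow_succ]; omega
      obtain ⟨μ, hμ⟩ : ∃ μ : ℕ, 2 ^ (i + 1) = μ + 2 := ⟨2 ^ (i + 1) - 2, by omega⟩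
      have hmr : (μ + 2 : ℝ) = 2 ^ (i + 1) := by
        have : ((μ + 2 : ℕ) : ℝ) = ((2 ^ (i + 1) : ℕ) : ℝ) := by rw [hμ]
        push_cast at this
        exact this
      have hm4 : (μ + 2 : ℝ) ^ 2 = 4 ^ (i + 1) := by
        rw [hmr, ← pow_mul, mul_comm, pow_mul]; norm_num
      set j := J0 + (i + 1) * J with hj
      have hjle : 4 * K ^ 2 * C1 * κ ^ (2 * j) * (μ + 2 : ℝ) ^ 2 ≤ 1 := by
        rw [hm4]
        have e1 : κ ^ (2 * j) = κ ^ (2 * J0) * (κ ^ (2 * J)) ^ (i + 1) := by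
          rw [← pow_mul, ← pow_add]; congr 1; rw [hj]; ring
        rw [e1]
        have e2 : 4 * K ^ 2 * C1 * (κ ^ (2 * J0) * (κ ^ (2 * J)) ^ (i + 1)) * 4 ^ (i + 1) =
            (4 * K ^ 2 * C1 * κ ^ (2 * J0)) * (κ ^ (2 * J) * 4) ^ (i + 1) := by
          rw [mul_pow]; ring
        rw [e2]
        have h1 : (κ ^ (2 * J) * 4) ^ (i + 1) ≤ 1 := pow_le_one₀ (by positivity) (by linarith)
        have h2 : 0 ≤ 4 * K ^ 2 * C1 * κ ^ (2 * J0) := by positivity
        exact mul_le_one₀ hJ0 (by positivity) h1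
      set L := 2 * K * (μ + 2 : ℝ) ^ 2 * C1 * 64 ^ j with hL
      have hLe : L = L0 * D0 ^ (i + 1) := by
        rw [hL, hm4, hL0, hD0, hj, mul_pow, pow_add, ← pow_mul, mul_comm J (i + 1)]; ring
      have hD0i : 1 ≤ D0 ^ (i + 1) := one_le_pow₀ hD01
      have hL1 : L + 1 ≤ (L0 + 1) * D0 ^ (i + 1) := by
        rw [hLe]; linarith
      have hLpos : 0 < L := by rw [hLe]; positivity
      have hstep := moser_step hK hT.le h hF hb hΩ hC1 μ j hjle hL (Z := Z)
        (fun t ht => by have := ih2 t ht; rwa [hμ] at this)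
      have hZ1 : 1 ≤ Z := ih1
      have hZ2 : 1 ≤ Z ^ 2 := one_le_pow₀ hZ1
      have hDi : D0 ^ (i + 1) ≤ D ^ (i + 1) := pow_le_pow_left₀ (by linarith) hD0D _
      have h4D : (4:ℝ) ^ (i + 1) ≤ D ^ (i + 1) := pow_le_pow_left₀ (by norm_num) (hD04.trans hD0D) _
      have hbig : (μ + 2 : ℝ) ^ 2 * CH +
          (K * (L + 1) ^ 2 * (volume.real (ball (0 : E n) (1 / (K * (L + 1)))))⁻¹ * Z ^ 2 +
          L * V + 1 / 2 * K * (μ + 2 : ℝ) ^ 2 * C1) ≤ A * D ^ (i + 1) * Z ^ 2 := by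
        have t1 : (μ + 2 : ℝ) ^ 2 * CH ≤ CH * (D ^ (i + 1) * Z ^ 2) := by
          rw [hm4]
          have : (4:ℝ) ^ (i + 1) ≤ D ^ (i + 1) * Z ^ 2 := by
            calc (4:ℝ) ^ (i + 1) = 4 ^ (i + 1) * 1 := by ring
              _ ≤ D ^ (i + 1) * Z ^ 2 := by gcongr
          nlinarith
        have t2 : K * (L + 1) ^ 2 * (volume.real (ball (0 : E n) (1 / (K * (L + 1)))))⁻¹ * Z ^ 2 ≤
            K ^ (n + 1) * (L0 + 1) ^ (n + 2) / V1 * (D ^ (i + 1) * Z ^ 2) := by
          rw [volReal_ball n (by positivity)]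
          have e1 : K * (L + 1) ^ 2 * ((1 / (K * (L + 1))) ^ n * V1)⁻¹ =
              K ^ (n + 1) * (L + 1) ^ (n + 2) / V1 := by
            rw [one_div, inv_pow, mul_inv, inv_inv, mul_pow]
            field_simp
            ring
          rw [e1]
          have e2 : (L + 1) ^ (n + 2) ≤ (L0 + 1) ^ (n + 2) * D ^ (i + 1) := by
            calc (L + 1) ^ (n + 2) ≤ ((L0 + 1) * D0 ^ (i + 1)) ^ (n + 2) :=
                  pow_le_pow_left₀ (by linarith) hL1 _
              _ = (L0 + 1) ^ (n + 2) * D ^ (i + 1) := by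
                  rw [mul_pow, hD, ← pow_mul, ← pow_mul, mul_comm (i + 1)]
          calc K ^ (n + 1) * (L + 1) ^ (n + 2) / V1 * Z ^ 2
              ≤ K ^ (n + 1) * ((L0 + 1) ^ (n + 2) * D ^ (i + 1)) / V1 * Z ^ 2 := by gcongr
            _ = _ := by ring
        have t3 : L * V ≤ (L0 + 1) * V * (D ^ (i + 1) * Z ^ 2) := by
          have : L ≤ (L0 + 1) * (D ^ (i + 1) * Z ^ 2) := by
            calc L ≤ (L0 + 1) * D0 ^ (i + 1) := by linarith
              _ = (L0 + 1) * (D0 ^ (i + 1) * 1) := by ring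
              _ ≤ _ := by gcongr
          calc L * V ≤ (L0 + 1) * (D ^ (i + 1) * Z ^ 2) * V := by gcongr
            _ = _ := by ring
        have t4 : 1 / 2 * K * (μ + 2 : ℝ) ^ 2 * C1 ≤ 1 / 2 * K * C1 * (D ^ (i + 1) * Z ^ 2) := by
          rw [hm4]
          have : (4:ℝ) ^ (i + 1) ≤ D ^ (i + 1) * Z ^ 2 := by
            calc (4:ℝ) ^ (i + 1) = 4 ^ (i + 1) * 1 := by ring
              _ ≤ D ^ (i + 1) * Z ^ 2 := by gcongr
          calc 1 / 2 * K * 4 ^ (i + 1) * C1 = 1 / 2 * K * C1 * 4 ^ (i + 1) := by ring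
            _ ≤ _ := by gcongr
        have t5 : 0 ≤ D ^ (i + 1) * Z ^ 2 := by positivity
        rw [hA]
        linarith
      have e3 : Λ ^ (2 ^ (i + 1)) / (A * D ^ (i + 1 + 2)) = A * D ^ (i + 1) * Z ^ 2 := by
        rw [hZ, pow_succ 2 i, pow_mul Λ, div_pow, mul_pow]
        field_simp
        ring
      rw [e3]
      constructor
      · have h1 : 1 ≤ A * D ^ (i + 1) := one_le_mul_of_one_le_of_one_le hA1 (one_le_pow₀ hD1)
        exact one_le_mul_of_one_le_of_one_le h1 hZ2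
      · intro t ht
        have h1 := (hstep t ht).trans hbig
        have h2 : 2 ^ (i + 1 + 1) = 2 * μ + 4 := by rw [pow_succ, hμ]; ring
        rw [h2]
        exact h1
  -- pointwise bound for `t < T`
  have hpt : ∀ x ∈ Ω, ∀ t ∈ Ioo t0 T, y x t ≤ 2 + Λ := by
    intro x0 hx0 t ht
    by_contra hcon
    push Not at hcon
    obtain ⟨l, hl1, hl2⟩ := exists_between hcon
    set u : E n → ℝ := fun x => y x t with hu
    have huC : ContDiffOn ℝ 1 u Ω := h.y1 t ht
    set U := {x | x ∈ Ω ∧ l < u x} with hU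
    have hUo : IsOpen U := by
      have : U = Ω ∩ u ⁻¹' (Ioi l) := by ext x; rfl
      rw [this]
      exact huC.continuousOn.isOpen_inter_preimage hΩ isOpen_Ioi
    have hUpos : 0 < volume U := hUo.measure_pos volume ⟨x0, hx0, hl2⟩
    have hUfin : volume U ≠ ⊤ :=
      ((measure_mono fun x hx => hx.1).trans_lt (hb.measure_lt_top)).ne
    have hUr : 0 < volume.real U := ENNReal.toReal_pos hUpos.ne' hUfin
    set ρ := (l - 2) / Λ with hρ
    have hΛ0 : 0 < Λ := by linarith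
    have hρ1 : 1 < ρ := by rw [hρ, lt_div_iff₀ hΛ0]; linarith
    have hall : ∀ i : ℕ, ρ ^ (2 ^ (i + 1)) * volume.real U ≤ 1 := by
      intro i
      have h1 := (key i).2 t ht
      have h2 : Λ ^ (2 ^ i) / (A * D ^ (i + 2)) ≤ Λ ^ (2 ^ (i + 1)) := by
        have h3 : Λ ^ (2 ^ i) / (A * D ^ (i + 2)) ≤ Λ ^ (2 ^ i) := by
          apply div_le_self (by positivity)
          exact one_le_mul_of_one_le_of_one_le hA1 (one_le_pow₀ hD1)
        refine h3.trans (pow_le_pow_right₀ hΛ1 ?_)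
        exact Nat.pow_le_pow_right (by norm_num) (by omega)
      have hc2 := h.level hb hΩ two_pos (Ioo_subset_Icc_self ht)
      have h2i : 1 ≤ 2 ^ (i + 1) := Nat.one_le_two_pow
      obtain ⟨r, hr⟩ : ∃ r : ℕ, 2 ^ (i + 1) = r + 1 := ⟨2 ^ (i + 1) - 1, by omega⟩
      obtain ⟨c2, c2', -⟩ := TT_cont hΩ huC.continuousOn (pw_cont (2 ^ (i + 1)))
        (fun s hs => by rw [hr]; exact pw_zero _ hs) hc2
      have h4 : (l - 2) ^ (2 ^ (i + 1)) * volume.real U ≤
          ∫ x, TT Ω u (pw (2 ^ (i + 1))) x := by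
        calc (l - 2) ^ (2 ^ (i + 1)) * volume.real U
            = ∫ x in U, (l - 2) ^ (2 ^ (i + 1)) := by
              rw [setIntegral_const, smul_eq_mul, mul_comm]
          _ ≤ ∫ x in U, TT Ω u (pw (2 ^ (i + 1))) x := by
              apply setIntegral_mono_on (integrableOn_const hUfin enorm_ne_top)
                (c2.integrable_of_hasCompactSupport c2').integrableOn hUo.measurableSet
              intro x hx
              rw [TT_mem hx.1]
              unfold pw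
              apply pow_le_pow_left₀ (by linarith)
              exact le_max_of_le_left (by linarith [hx.2])
          _ ≤ _ := by
              apply setIntegral_le_integral (c2.integrable_of_hasCompactSupport c2')
              exact ae_of_all _ fun x => indicator_nonneg (fun _ _ => pw_nonneg _ _) x
      have h5 : (l - 2) ^ (2 ^ (i + 1)) * volume.real U ≤ Λ ^ (2 ^ (i + 1)) :=
        h4.trans (h1.trans h2)
      rw [hρ, div_pow, div_mul_eq_mul_div, div_le_one (by positivity)]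
      exact h5
    have hlim : Tendsto (fun i : ℕ => ρ ^ (2 ^ (i + 1)) * volume.real U) atTop atTop := by
      apply Tendsto.atTop_mul_const hUr
      have h1 : Tendsto (fun i : ℕ => 2 ^ (i + 1)) atTop atTop :=
        (tendsto_pow_atTop_atTop_of_one_lt (by norm_num : 1 < 2)).comp (tendsto_add_atTop_nat 1)
      exact (tendsto_pow_atTop_atTop_of_one_lt hρ1).comp h1
    obtain ⟨i, hi⟩ := (hlim.eventually_gt_atTop 1).exists
    exact absurd (hall i) (not_le.2 hi)
  intro x hx t ht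
  have hcont : ContinuousOn (fun t => y x t) (Icc t0 T) := by
    have : ContinuousOn (fun t : ℝ => ((x, t) : E n × ℝ)) (Icc t0 T) := by fun_prop
    exact h.yC.comp this (fun t ht => ⟨subset_closure hx, ht⟩)
  have hcl : IsClosed (Icc t0 T ∩ (fun t => y x t) ⁻¹' (Iic (2 + Λ))) :=
    hcont.preimage_isClosed_of_isClosed isClosed_Icc isClosed_Iic
  have hsub : Ioo t0 T ⊆ Icc t0 T ∩ (fun t => y x t) ⁻¹' (Iic (2 + Λ)) :=
    fun s hs => ⟨Ioo_subset_Icc_self hs, hpt x hx s hs⟩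
  have h1 := closure_minimal hsub hcl
  rw [closure_Ioo hT.ne] at h1
  exact (h1 ht).2

end Pool.Agent.Helper676.PC
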