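import Pool.Agent.Helper676.PC9
import Pool.Agent.Helper676.PC12

set_option autoImplicit false

/-! Lipschitz dependence of parabolic solutions on the coefficient, in the sup norm. -/

namespace Pool.Agent.Helper676.PC

open MeasureTheory Filter Topology Set InnerProductSpace Metric

variable {n : ℕ}

lemma Par.smul {Ω : Set (E n)} {K t0 T : ℝ} {a : E n → ℝ} {y yt : E n → ℝ → ℝ}
    {F : E n → ℝ → E n} (hΩ : IsOpen Ω) (h : Par Ω K t0 T a y yt F) (c : ℝ) :
    Par Ω K t0 T a (fun x t => c * y x t) (fun x t => c * yt x t) (fun x t => c • F x t) where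
  aC := h.aC
  aK := h.aK
  yC := continuousOn_const.mul h.yC
  y0 := fun x hx => by rw [h.y0 x hx, mul_zero]
  yb := fun x hx t ht => by rw [h.yb x hx t ht, mul_zero]
  y1 := fun t ht => contDiffOn_const.mul (h.y1 t ht)
  yd := fun x hx t ht => (h.yd x hx t ht).const_mul c
  ytC := continuousOn_const.mul h.ytC
  FC := fun t ht => (h.FC t ht).const_smul c
  weak := by
    intro t ht ψ h1 h2 h3
    have e := h.weak t ht ψ h1 h2 h3
    have e1 : ∫ x, c * yt x t * ψ x = c * ∫ x, yt x t * ψ x := by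
      rw [← integral_const_mul]; congr 1; ext x; ring
    have e2 : ∫ x, a x * inner ℝ (gradient (fun x => c * y x t) x) (gradient ψ x) =
        c * ∫ x, a x * inner ℝ (gradient (fun x => y x t) x) (gradient ψ x) := by
      rw [← integral_const_mul]; congr 1; ext x
      by_cases hx : x ∈ Ω
      · have hd : DifferentiableAt ℝ (fun x => y x t) x :=
          ((h.y1 t ht).differentiableOn (by norm_num)).differentiableAt (hΩ.mem_nhds hx)
        rw [grad_const_mul c hd, inner_smul_left]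
        simp only [conj_trivial]; ring
      · have : gradient ψ x = 0 := grad_eq_zero_of_notMem fun h' => hx (h3 h')
        rw [this]; simp
    have e3 : ∫ x, inner ℝ (c • F x t) (gradient ψ x) =
        c * ∫ x, inner ℝ (F x t) (gradient ψ x) := by
      rw [← integral_const_mul]; congr 1; ext x
      rw [inner_smul_left]; simp
    rw [e1, e2, e3, e]; ring

/-- Sup-norm Lipschitz estimate. -/
theorem sup_diff (hn : 0 < n) {K : ℝ} (hK : 1 ≤ K) {Ω : Set (E n)} (hΩ : IsOpen Ω)
    (hb : Bornology.IsBounded Ω) {r0 : ℝ} (hr0 : 0 < r0)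
    (hcork : ∀ y ∈ frontier Ω, ∀ r : ℝ, 0 < r → r ≤ r0 → ∃ z : E n, ball z (r / 8) ⊆ ball y r \ Ω)
    {t0 T : ℝ} (hT : t0 < T) :
    ∃ C : ℝ, 0 < C ∧ ∀ (a1 a2 : E n → ℝ) (M B : ℝ) (p y yt : E n → ℝ → ℝ) (k : ℝ → ℝ),
      0 < M → 0 < B → ContinuousOn a2 Ω → (∀ x ∈ Ω, |a1 x - a2 x| ≤ M) →
      (∀ t ∈ Ioo t0 T, Ell Ω K B a2 (Ω.indicator (fun x => p x t - k t))) →
      Par Ω K t0 T a1 y yt (fun x t => (a1 x - a2 x) • gradient (fun x => p x t) x) →
      ∀ x ∈ Ω, ∀ t ∈ Icc t0 T, |y x t| ≤ C * M * B := by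
  have hK0 : 0 < K := by linarith
  obtain ⟨Cf, κ, hCf, hκ0, hκ1, hform⟩ := form_bound hn hK hΩ hr0 hcork
  set C1 := Cf + 2 * K * volume.real Ω with hC1
  have hV0 : 0 ≤ volume.real Ω := measureReal_nonneg
  have hC1pos : 0 < C1 := by positivity
  obtain ⟨Λ, hΛ, hsup⟩ := par_sup (n := n) hK hC1pos hκ0 hκ1 hT hΩ hb
  refine ⟨Λ, hΛ, ?_⟩
  intro a1 a2 M B p y yt k hM hB ha2 hfM hell hpar
  -- gradient of the indicator function
  have hgw : ∀ t, ∀ x ∈ Ω, gradient (Ω.indicator (fun x => p x t - k t)) x =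
      gradient (fun x => p x t) x := by
    intro t x hx
    have e : Ω.indicator (fun x => p x t - k t) =ᶠ[𝓝 x] fun x => p x t - k t := by
      filter_upwards [hΩ.mem_nhds hx] with z hz
      exact indicator_of_mem hz _
    rw [grad_congr e, grad_sub_const]
  -- form bounds for scaled F
  have hFB : ∀ c : ℝ, |c| = (M * B)⁻¹ → FB Ω C1 κ t0 T
      (fun x t => c • ((a1 x - a2 x) • gradient (fun x => p x t) x)) := by
    intro c hc
    have hpt : ∀ t ∈ Ioo t0 T, ∀ Ψ : E n → ℝ, Continuous Ψ → HasCompactSupport Ψ →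
        tsupport Ψ ⊆ Ω → (∀ x, 0 ≤ Ψ x) →
        ∫ x, Ψ x * ‖c • ((a1 x - a2 x) • gradient (fun x => p x t) x)‖ ^ 2 ≤
          (B ^ 2)⁻¹ * ∫ x, Ψ x * ‖gradient (Ω.indicator (fun x => p x t - k t)) x‖ ^ 2 := by
      intro t ht Ψ h1 h2 h3 h4
      set w := Ω.indicator (fun x => p x t - k t) with hw
      have hE := hell t ht
      have i1 : Integrable (fun x => Ψ x * ‖gradient w x‖ ^ 2) := by
        have := glue0 (F := fun x => Ψ x * ‖gradient w x‖ ^ 2) hΩ h2.isCompact h3
          (h1.continuousOn.mul ((continuousOn_grad hΩ hE.w1).norm.pow 2))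
          (fun x hx => by simp [image_eq_zero_of_notMem_tsupport hx])
        exact this.1.integrable_of_hasCompactSupport this.2
      have i2 : Integrable (fun x => Ψ x *
          ‖c • ((a1 x - a2 x) • gradient (fun x => p x t) x)‖ ^ 2) := by
        have hgp : ContinuousOn (fun x => gradient (fun x => p x t) x) Ω :=
          (continuousOn_grad hΩ hE.w1).congr fun x hx => (hgw t x hx).symm
        have := glue0 (F := fun x => Ψ x *
          ‖c • ((a1 x - a2 x) • gradient (fun x => p x t) x)‖ ^ 2) hΩ h2.isCompact h3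
          (h1.continuousOn.mul ((((hpar.aC.sub ha2).smul hgp).const_smul c).norm.pow 2))
          (fun x hx => by simp [image_eq_zero_of_notMem_tsupport hx])
        exact this.1.integrable_of_hasCompactSupport this.2
      rw [← integral_const_mul]
      apply integral_mono i2 (i1.const_mul _)
      intro x
      simp only
      by_cases hx : x ∈ Ω
      · rw [hgw t x hx, norm_smul, norm_smul, Real.norm_eq_abs, Real.norm_eq_abs, hc]
        set N := ‖gradient (fun x => p x t) x‖ with hN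
        have hN0 : 0 ≤ N := norm_nonneg _
        have h5 : (M * B)⁻¹ * (|a1 x - a2 x| * N) ≤ B⁻¹ * N := by
          have h6 := hfM x hx
          calc (M * B)⁻¹ * (|a1 x - a2 x| * N) ≤ (M * B)⁻¹ * (M * N) := by gcongr
            _ = B⁻¹ * N := by field_simp
        have h6 : ((M * B)⁻¹ * (|a1 x - a2 x| * N)) ^ 2 ≤ (B⁻¹ * N) ^ 2 :=
          pow_le_pow_left₀ (by positivity) h5 2
        calc Ψ x * ((M * B)⁻¹ * (|a1 x - a2 x| * N)) ^ 2 ≤ Ψ x * (B⁻¹ * N) ^ 2 :=
              mul_le_mul_of_nonneg_left h6 (h4 x)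
          _ = _ := by rw [mul_pow, inv_pow]; ring
      · have : Ψ x = 0 := image_eq_zero_of_notMem_tsupport fun h' => hx (h3 h')
        rw [this]; simp
    constructor
    · intro t ht j Ψ e h1 h2 h3 h4 h5 h6 h7
      have q1 := hpt t ht Ψ h1.continuous h2 h3 h4
      have q2 := hform B a2 _ (hell t ht) j Ψ e h1 h2 h3 h4 h5 h6 h7
      have q3 : 0 ≤ κ ^ (2 * j) * (∫ x, e x) + 64 ^ j * ∫ x, Ψ x := by
        have : 0 ≤ ∫ x, e x := integral_nonneg fun x => h6 x
        have : 0 ≤ ∫ x, Ψ x := integral_nonneg fun x => h4 x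
        positivity
      calc _ ≤ _ := q1
        _ ≤ (B ^ 2)⁻¹ * (Cf * B ^ 2 * (κ ^ (2 * j) * (∫ x, e x) + 64 ^ j * ∫ x, Ψ x)) := by
            gcongr
        _ = Cf * (κ ^ (2 * j) * (∫ x, e x) + 64 ^ j * ∫ x, Ψ x) := by field_simp
        _ ≤ _ := by
            apply mul_le_mul_of_nonneg_right _ q3
            rw [hC1]
            have : 0 ≤ 2 * K * volume.real Ω := by positivity
            linarith
    · intro t ht Ψ h1 h2 h3 h4 h5
      have q1 := hpt t ht Ψ h1 h2 h3 h4
      have q2 := total_energy hK hΩ hb (hell t ht) h1 h2 h3 h4 h5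
      calc _ ≤ _ := q1
        _ ≤ (B ^ 2)⁻¹ * (2 * K * B ^ 2 * volume.real Ω) := by gcongr
        _ = 2 * K * volume.real Ω := by field_simp
        _ ≤ _ := by rw [hC1]; linarith
  have hMB : 0 < M * B := by positivity
  intro x hx t ht
  have h1 := hsup a1 _ _ _ (hpar.smul hΩ (M * B)⁻¹) (hFB _ (abs_of_pos (by positivity))) x hx t ht
  have h2 := hsup a1 _ _ _ (hpar.smul hΩ (-(M * B)⁻¹))
    (hFB _ (by rw [abs_neg]; exact abs_of_pos (by positivity))) x hx t ht
  rw [inv_mul_le_iff₀ hMB] at h1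
  rw [neg_mul, ← mul_neg, inv_mul_le_iff₀ hMB] at h2
  rw [abs_le]
  constructor <;> nlinarith

end Pool.Agent.Helper676.PC
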