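import Pool.Agent.Helper676.PC5

set_option autoImplicit false

/-! Lower bound for solutions of `div(a∇U) ≤ c(U+δ)` with boundary values `1`. -/

namespace Pool.Agent.Helper676.PC

open MeasureTheory Filter Topology Set InnerProductSpace Metric

variable {n : ℕ}

lemma exists_cutoff_bdd {Ω : Set (E n)} (hb : Bornology.IsBounded Ω) :
    ∃ ζ : E n → ℝ, ContDiff ℝ 1 ζ ∧ HasCompactSupport ζ ∧ ∀ x ∈ Ω, ζ x = 1 := by
  obtain ⟨R, hR⟩ := hb.subset_closedBall (0 : E n)
  let b : ContDiffBump (0 : E n) := ⟨max R 1, max R 1 + 1, by positivity, by linarith⟩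
  refine ⟨b, b.contDiff, b.hasCompactSupport, ?_⟩
  intro x hx
  exact b.one_of_mem_closedBall (closedBall_subset_closedBall (le_max_left _ _) (hR hx))

lemma Xi_ge' (w : ℝ) : w - 1 ≤ Xi w := by
  unfold Xi
  have h1 : max w 0 ≤ Real.sqrt (1 + (max w 0) ^ 2) := by
    apply Real.le_sqrt_of_sq_le; linarith
  have h2 : w ≤ max w 0 := le_max_left _ _
  linarith

/-- lower bound -/
theorem lower_bound (hn : 0 < n) {K : ℝ} (hK : 1 ≤ K) {Ω : Set (E n)} (hΩ : IsOpen Ω)
    (hb : Bornology.IsBounded Ω) {e1 : ℝ} (he1 : 0 < e1) :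
    ∃ c0 : ℝ, 0 < c0 ∧ ∀ (c : ℝ), c0 ≤ c → ∀ (a U : E n → ℝ) (δ : ℝ), 0 < δ →
      ContinuousOn a Ω → (∀ x ∈ Ω, K⁻¹ ≤ a x ∧ a x ≤ K) → ContDiffOn ℝ 1 U Ω →
      ContinuousOn U (closure Ω) → (∀ x ∈ Ω, 0 ≤ U x) → (∀ x ∈ frontier Ω, U x = 1) →
      (∀ ψ : E n → ℝ, ContDiff ℝ 1 ψ → HasCompactSupport ψ → tsupport ψ ⊆ Ω → (∀ x, 0 ≤ ψ x) →
        -(∫ x, a x * inner ℝ (gradient U x) (gradient ψ x)) ≤ c * ∫ x, (U x + δ) * ψ x) →
      ∀ x ∈ Ω, Real.exp (-(2 * e1 * c)) ≤ U x + δ := by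
  have hK0 : 0 < K := by linarith
  obtain ⟨ζ, hζ, hζc, hζ1⟩ := exists_cutoff_bdd hb
  obtain ⟨A1, hA1⟩ : ∃ A1, A1 = ∫ x, ζ x ^ 2 := ⟨_, rfl⟩
  obtain ⟨A2, hA2⟩ : ∃ A2, A2 = ∫ x, ‖gradient ζ x‖ ^ 2 := ⟨_, rfl⟩
  have hA10 : 0 ≤ A1 := by rw [hA1]; exact integral_nonneg fun x => sq_nonneg _
  have hA20 : 0 ≤ A2 := by rw [hA2]; exact integral_nonneg fun x => sq_nonneg _
  obtain ⟨E1, hE1⟩ : ∃ E1, E1 = 2 * K * A1 + 4 * K ^ 4 * A2 := ⟨_, rfl⟩
  have hE10 : 0 ≤ E1 := by rw [hE1]; positivity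
  -- a long vector
  obtain ⟨R, hR⟩ := hb.subset_closedBall (0 : E n)
  obtain ⟨h, hh⟩ : ∃ h : E n, ∀ x ∈ Ω, x + h ∉ Ω := by
    refine ⟨EuclideanSpace.single ⟨0, hn⟩ (2 * |R| + 1), ?_⟩
    intro x hx hxh
    have h1 : ‖x‖ ≤ R := by simpa using hR hx
    have h2 : ‖x + EuclideanSpace.single ⟨0, hn⟩ (2 * |R| + 1)‖ ≤ R := by simpa using hR hxh
    have h3 : ‖(EuclideanSpace.single ⟨0, hn⟩ (2 * |R| + 1) : E n)‖ = 2 * |R| + 1 := by
      rw [PiLp.norm_single, Real.norm_of_nonneg (by positivity)]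
    have h4 : ‖(EuclideanSpace.single ⟨0, hn⟩ (2 * |R| + 1) : E n)‖ ≤
        ‖x + EuclideanSpace.single ⟨0, hn⟩ (2 * |R| + 1)‖ + ‖x‖ := by
      have : (EuclideanSpace.single ⟨0, hn⟩ (2 * |R| + 1) : E n) =
          (x + EuclideanSpace.single ⟨0, hn⟩ (2 * |R| + 1)) - x := by abel
      calc _ = ‖(x + EuclideanSpace.single ⟨0, hn⟩ (2 * |R| + 1)) - x‖ := by rw [← this]
        _ ≤ _ := norm_sub_le _ _
    have h5 := le_abs_self R
    rw [h3] at h4
    linarith
  obtain ⟨CF, hCF⟩ : ∃ CF, CF = ‖h‖ ^ 2 := ⟨_, rfl⟩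
  have hCF0 : 0 ≤ CF := by rw [hCF]; exact sq_nonneg _
  have hCST0 : 0 < CST n K := by unfold CST; positivity
  obtain ⟨η, hη⟩ : ∃ η, η = Real.sqrt (e1 / CST n K) := ⟨_, rfl⟩
  have hη0 : 0 < η := by rw [hη]; exact Real.sqrt_pos.2 (by positivity)
  have hη2 : CST n K * η ^ 2 = e1 := by
    rw [hη, Real.sq_sqrt (by positivity)]; field_simp
  obtain ⟨Vη, hVη⟩ : ∃ Vη, Vη = volume.real (ball (0 : E n) η) := ⟨_, rfl⟩
  have hVη0 : 0 < Vη := by rw [hVη]; exact volReal_ball_pos n hη0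
  refine ⟨max 1 (max (2 / e1) (8 * CF * E1 / (e1 ^ 2 * Vη))), by positivity, ?_⟩
  intro c hc a U δ hδ ha haK hU hUc hU0 hU1 hweak
  have hc1 : 1 ≤ c := (le_max_left _ _).trans hc
  have hc2 : 2 / e1 ≤ c := ((le_max_left _ _).trans (le_max_right _ _)).trans hc
  have hc3 : 8 * CF * E1 / (e1 ^ 2 * Vη) ≤ c :=
    ((le_max_right _ _).trans (le_max_right _ _)).trans hc
  have hc0 : 0 < c := by linarith
  set v : E n → ℝ := fun x => U x + δ with hv
  have hvC : ContDiffOn ℝ 1 v Ω := hU.add contDiffOn_const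
  have hv0 : ∀ x ∈ Ω, 0 < v x := fun x hx => by have := hU0 x hx; simp only [hv]; linarith
  have hgv : ∀ x, gradient v x = gradient U x := by
    intro x
    have e : v = fun y => U y - (-δ) := by ext y; simp [hv]
    rw [e, grad_sub_const]
  have hsep : ∀ x ∈ (univ : Set (E n)), x ∉ Ω → ∀ᶠ y in 𝓝 x, y ∈ Ω → 1 < v y := by
    intro x _ hx
    by_cases hxc : x ∈ closure Ω
    · have hxf : x ∈ frontier Ω := by rw [hΩ.frontier_eq]; exact ⟨hxc, hx⟩
      have h1 : ContinuousWithinAt v (closure Ω) x := (hUc x hxc).add continuousWithinAt_const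
      have h2 : 1 < v x := by simp only [hv]; rw [hU1 x hxf]; linarith
      have h3 := h1.eventually (lt_mem_nhds h2)
      rw [eventually_nhdsWithin_iff] at h3
      filter_upwards [h3] with y hy hyΩ
      exact hy (subset_closure hyΩ)
    · filter_upwards [isClosed_closure.isOpen_compl.mem_nhds hxc] with y hy hyΩ
      exact absurd (subset_closure hyΩ) hy
  have hweakv : ∀ ψ : E n → ℝ, ContDiff ℝ 1 ψ → HasCompactSupport ψ → tsupport ψ ⊆ Ω →
      (∀ x, 0 ≤ ψ x) → -(∫ x, a x * inner ℝ (gradient v x) (gradient ψ x)) ≤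
        c * ∫ x, v x * ψ x := by
    intro ψ h1 h2 h3 h4
    simp only [hgv]
    exact hweak ψ h1 h2 h3 h4
  have hlog : ∫ x, ζ x ^ 2 * ‖gradient (WW Ω v) x‖ ^ 2 ≤ 2 * K * c * A1 + 4 * K ^ 4 * A2 := by
    rw [hA1, hA2]
    exact log_energy hK hΩ (subset_univ Ω) ha haK hvC hv0 hsep hc0.le hweakv hζ hζc
      (subset_univ _)
  obtain ⟨W, hW⟩ : ∃ W, W = WW Ω v := ⟨_, rfl⟩
  rw [← hW] at hlog
  -- compact level sets
  have hcpt : ∀ k : ℝ, 0 ≤ k → IsCompact {x | x ∈ Ω ∧ k ≤ -(Real.log (v x))} := by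
    intro k hk
    have hvc : ContinuousOn v (closure Ω) := hUc.add continuousOn_const
    have hcl : IsClosed (closure Ω ∩ v ⁻¹' (Iic (Real.exp (-k)))) :=
      hvc.preimage_isClosed_of_isClosed isClosed_closure isClosed_Iic
    have e : {x | x ∈ Ω ∧ k ≤ -(Real.log (v x))} = closure Ω ∩ v ⁻¹' (Iic (Real.exp (-k))) := by
      ext x
      constructor
      · intro hx
        refine ⟨subset_closure hx.1, ?_⟩
        have h1 : Real.log (v x) ≤ -k := by linarith [hx.2]
        exact (Real.log_le_iff_le_exp (hv0 x hx.1)).1 h1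
      · intro hx
        have hxΩ : x ∈ Ω := by
          by_contra hcon
          have hxf : x ∈ frontier Ω := by rw [hΩ.frontier_eq]; exact ⟨hx.1, hcon⟩
          have h2 : 1 < v x := by simp only [hv]; rw [hU1 x hxf]; linarith
          have h3 : v x ≤ Real.exp (-k) := hx.2
          have h4 : Real.exp (-k) ≤ 1 := Real.exp_le_one_iff.2 (by linarith)
          linarith
        refine ⟨hxΩ, ?_⟩
        have h3 : v x ≤ Real.exp (-k) := hx.2
        have := (Real.log_le_iff_le_exp (hv0 x hxΩ)).2 h3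
        linarith
    rw [e]
    exact Metric.isCompact_of_isClosed_isBounded hcl (hb.closure.subset inter_subset_left)
  have hWC : ContDiff ℝ 1 W := by
    rw [← contDiffOn_univ, hW]
    exact WW_contDiffOn hΩ hvC hv0 hsep
  have hW0 : ∀ x, x ∉ {x | x ∈ Ω ∧ 0 ≤ -(Real.log (v x))} → W x = 0 := by
    intro x hx
    by_cases hxΩ : x ∈ Ω
    · simp only [hW, WW]
      rw [indicator_of_mem hxΩ]
      apply Xi_of_nonpos
      by_contra hcon
      exact hx ⟨hxΩ, (not_le.1 hcon).le⟩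
    · rw [hW]; exact indicator_of_notMem hxΩ _
  have hWc : HasCompactSupport W := HasCompactSupport.intro (hcpt 0 le_rfl) hW0
  have hgW0 : ∀ x, x ∉ Ω → gradient W x = 0 := by
    intro x hx
    rw [hW]
    exact grad_WW_zero hsep (mem_univ x) hx
  have hen : ∫ x, ‖gradient W x‖ ^ 2 ≤ c * E1 := by
    have e : ∫ x, ζ x ^ 2 * ‖gradient W x‖ ^ 2 = ∫ x, ‖gradient W x‖ ^ 2 := by
      congr 1; ext x
      by_cases hx : x ∈ Ω
      · rw [hζ1 x hx]; ring
      · rw [hgW0 x hx]; simp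
    have h1 : 4 * K ^ 4 * A2 ≤ c * (4 * K ^ 4 * A2) :=
      le_mul_of_one_le_left (by positivity) hc1
    calc ∫ x, ‖gradient W x‖ ^ 2 = ∫ x, ζ x ^ 2 * ‖gradient W x‖ ^ 2 := e.symm
      _ ≤ 2 * K * c * A1 + 4 * K ^ 4 * A2 := hlog
      _ ≤ 2 * K * c * A1 + c * (4 * K ^ 4 * A2) := by gcongr
      _ = c * E1 := by rw [hE1]; ring
  have hfr : ∫ x, W x ^ 2 ≤ CF * (c * E1) := by
    have h1 := friedrichs hWC hWc (h := h) (fun x => by
      by_cases hx : x ∈ Ω
      · have : W (x + h) = 0 := hW0 _ (fun h' => hh x hx h'.1)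
        rw [this, mul_zero]
      · have : W x = 0 := hW0 _ (fun h' => hx h'.1)
        rw [this, zero_mul])
    rw [← hCF] at h1
    exact h1.trans (mul_le_mul_of_nonneg_left hen hCF0)
  -- measure of the superlevel set
  set l : E n → ℝ := fun x => -(Real.log (v x)) with hl
  have hlC : ContDiffOn ℝ 1 l Ω := (hvC.log fun x hx => (hv0 x hx).ne').neg
  set k0 := e1 * c with hk0
  have hk02 : 2 ≤ k0 := by
    rw [hk0]
    rw [div_le_iff₀ he1] at hc2
    linarith
  set S := {x | x ∈ Ω ∧ k0 < l x} with hS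
  have hSm : MeasurableSet S := by
    have : S = Ω ∩ l ⁻¹' (Ioi k0) := by ext x; rfl
    rw [this]
    exact (hlC.continuousOn.isOpen_inter_preimage hΩ isOpen_Ioi).measurableSet
  have hSfin : volume S ≠ ⊤ :=
    ((measure_mono fun x hx => hx.1).trans_lt hb.measure_lt_top).ne
  have hWi := integrable_sq hWC.continuous hWc
  have hSvol : volume.real S ≤ Vη / 2 := by
    have h1 : (k0 / 2) ^ 2 * volume.real S ≤ CF * (c * E1) := by
      refine le_trans ?_ hfr
      calc (k0 / 2) ^ 2 * volume.real S = ∫ x in S, (k0 / 2) ^ 2 := by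
            rw [setIntegral_const, smul_eq_mul, mul_comm]
        _ ≤ ∫ x in S, W x ^ 2 := by
            apply setIntegral_mono_on (integrableOn_const hSfin enorm_ne_top) hWi.integrableOn hSm
            intro x hx
            apply pow_le_pow_left₀ (by positivity)
            simp only [hW, WW]
            rw [indicator_of_mem hx.1]
            have h1 := Xi_ge' (-(Real.log (v x)))
            have h2 : k0 < -(Real.log (v x)) := hx.2
            linarith
        _ ≤ _ := setIntegral_le_integral hWi (ae_of_all _ fun x => sq_nonneg _)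
    rw [div_le_iff₀ (by positivity)] at hc3
    have h2 : (k0 / 2) ^ 2 * volume.real S ≤ (k0 / 2) ^ 2 * (Vη / 2) := by
      refine h1.trans ?_
      have e : (k0 / 2) ^ 2 * (Vη / 2) = c * (c * (e1 ^ 2 * Vη)) / 8 := by rw [hk0]; ring
      rw [e]
      have : c * (8 * CF * E1) ≤ c * (c * (e1 ^ 2 * Vη)) := mul_le_mul_of_nonneg_left hc3 hc0.le
      nlinarith
    exact le_of_mul_le_mul_left h2 (by positivity)
  have hSvol' : volume {x | x ∈ Ω ∧ k0 < l x} ≤ ENNReal.ofReal (Vη / 2) := by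
    rw [← ENNReal.ofReal_toReal hSfin]
    exact ENNReal.ofReal_le_ofReal hSvol
  -- weak inequality for `l`
  have hgl : ∀ x ∈ Ω, gradient l x = (-(v x)⁻¹) • gradient v x := by
    intro x hx
    have hd : DifferentiableAt ℝ v x :=
      (hvC.differentiableOn (by norm_num)).differentiableAt (hΩ.mem_nhds hx)
    have h1 : HasDerivAt (fun s : ℝ => -(Real.log s)) (-(v x)⁻¹) (v x) :=
      (Real.hasDerivAt_log (hv0 x hx).ne').neg
    exact grad_comp h1 hd
  have hweakl : ∀ ψ : E n → ℝ, ContDiff ℝ 1 ψ → HasCompactSupport ψ → tsupport ψ ⊆ Ω →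
      (∀ x, 0 ≤ ψ x) → ∫ x, a x * inner ℝ (gradient l x) (gradient ψ x) ≤
        (∫ x, inner ℝ ((fun _ => (0 : E n)) x) (gradient ψ x)) + c * ∫ x, ψ x := by
    intro ψ h1 h2 h3 h4
    set χ : E n → ℝ := fun x => ψ x * (v x)⁻¹ with hχ
    obtain ⟨hχ1, hχ2, hχ3⟩ := glue (F := χ) (m := 1) hΩ h2.isCompact h3
      (h1.contDiffOn.mul (hvC.inv fun x hx => (hv0 x hx).ne'))
      (fun x hx => by simp only [hχ]; rw [image_eq_zero_of_notMem_tsupport hx, zero_mul])
    have hχ0 : ∀ x, 0 ≤ χ x := by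
      intro x
      by_cases hx : x ∈ Ω
      · exact mul_nonneg (h4 x) (inv_nonneg.2 (hv0 x hx).le)
      · simp only [hχ]
        rw [image_eq_zero_of_notMem_tsupport fun h' => hx (h3 h'), zero_mul]
    have hw := hweakv χ hχ1 hχ2 (hχ3.trans h3) hχ0
    have e2 : ∫ x, v x * χ x = ∫ x, ψ x := by
      congr 1; ext x
      by_cases hx : x ∈ Ω
      · simp only [hχ]
        have := (hv0 x hx).ne'
        field_simp
      · simp only [hχ]
        rw [image_eq_zero_of_notMem_tsupport fun h' => hx (h3 h')]; simp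
    rw [e2] at hw
    have gψ0 : ∀ x, x ∉ tsupport ψ → gradient ψ x = 0 := fun x hx => grad_eq_zero_of_notMem hx
    have gχ0 : ∀ x, x ∉ tsupport ψ → gradient χ x = 0 := fun x hx =>
      grad_eq_zero_of_notMem fun h' => hx (hχ3 h')
    have i1 : Integrable (fun x => a x * inner ℝ (gradient l x) (gradient ψ x)) := by
      have := glue0 (F := fun x => a x * inner ℝ (gradient l x) (gradient ψ x)) hΩ h2.isCompact h3
        (ha.mul ((continuousOn_grad hΩ hlC).inner (continuous_grad h1).continuousOn))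
        (fun x hx => by simp [gψ0 x hx])
      exact this.1.integrable_of_hasCompactSupport this.2
    have i2 : Integrable (fun x => a x * inner ℝ (gradient v x) (gradient χ x)) := by
      have := glue0 (F := fun x => a x * inner ℝ (gradient v x) (gradient χ x)) hΩ h2.isCompact h3
        (ha.mul ((continuousOn_grad hΩ hvC).inner (continuous_grad hχ1).continuousOn))
        (fun x hx => by simp [gχ0 x hx])
      exact this.1.integrable_of_hasCompactSupport this.2
    have hmono : ∫ x, a x * inner ℝ (gradient l x) (gradient ψ x) ≤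
        -(∫ x, a x * inner ℝ (gradient v x) (gradient χ x)) := by
      rw [← integral_neg]
      apply integral_mono i1 i2.neg
      intro x
      simp only [Pi.neg_apply]
      by_cases hx : x ∈ Ω
      · have hvx := hv0 x hx
        have hd : DifferentiableAt ℝ v x :=
          (hvC.differentiableOn (by norm_num)).differentiableAt (hΩ.mem_nhds hx)
        have hψd : DifferentiableAt ℝ ψ x := h1.differentiable (by norm_num) x
        have h5 : HasDerivAt (fun s : ℝ => s⁻¹) (-((v x) ^ 2)⁻¹) (v x) := hasDerivAt_inv hvx.ne'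
        have e3 : gradient χ x = (v x)⁻¹ • gradient ψ x + (ψ x * (-((v x) ^ 2)⁻¹)) • gradient v x := by
          have hinv : DifferentiableAt ℝ (fun y => (v y)⁻¹) x := hd.inv hvx.ne'
          rw [hχ, grad_mul hψd hinv, grad_comp h5 hd, smul_smul, add_comm]
        rw [e3, hgl x hx, inner_add_right, inner_smul_right, inner_smul_right, inner_smul_left,
          real_inner_self_eq_norm_sq]
        simp only [conj_trivial]
        have ha0 : 0 ≤ a x := (inv_pos.2 hK0).le.trans (haK x hx).1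
        have h6 : 0 ≤ a x * (ψ x * ((v x) ^ 2)⁻¹ * ‖gradient v x‖ ^ 2) := by
          have := h4 x
          positivity
        nlinarith
      · rw [gψ0 x (fun h' => hx (h3 h')), gχ0 x (fun h' => hx (h3 h'))]; simp
    have e4 : ∫ x, inner ℝ ((fun _ => (0 : E n)) x) (gradient ψ x) = 0 := by simp
    rw [e4]
    linarith
  rw [hVη] at hSvol'
  have hst := stampacchia hn hK (k0 := k0) (β := 0) (Λ := c) (ε := η) (b := fun _ => 0) hΩ ha haK
    hlC continuousOn_const (fun x _ => by simp) le_rfl hc0.le hη0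
    (fun k hk => hcpt k (by linarith)) hweakl hSvol'
  intro x hx
  have h1 := hst x hx
  have h2 : CST n K * (η * (0 + η * c)) = e1 * c := by
    have : CST n K * (η * (0 + η * c)) = (CST n K * η ^ 2) * c := by ring
    rw [this, hη2]
  rw [h2] at h1
  have h3 : -(2 * e1 * c) ≤ Real.log (v x) := by
    have : l x = -(Real.log (v x)) := rfl
    rw [hk0] at h1
    linarith
  have h4 := Real.exp_le_exp.2 h3
  rwa [Real.exp_log (hv0 x hx)] at h4

end Pool.Agent.Helper676.PC
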