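import Pool.Agent.Helper676.PCDef

set_option autoImplicit false

/-! Parabolic maximum principle (proved by helper856). -/

namespace Pool.Agent.Helper676.PC

open MeasureTheory Filter Topology Set Metric

/-- second derivative test at a local maximum -/
lemma deriv2_nonpos {g : ℝ → ℝ} {s : ℝ} (hg : IsLocalMax g s) (hc : ContinuousAt g s) :
    deriv (deriv g) s ≤ 0 := by
  by_contra h
  push Not at h
  have h1 : deriv g s = 0 := hg.deriv_eq_zero
  have h2 : IsLocalMin g s := isLocalMin_of_deriv_deriv_pos h h1 hc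
  have h3 : g =ᶠ[𝓝 s] fun _ => g s := by
    filter_upwards [hg, h2] with x hx hx'
    exact le_antisymm hx hx'
  have h4 : deriv g =ᶠ[𝓝 s] deriv (fun _ => g s) := h3.deriv
  have h5 : deriv (deriv g) s = deriv (deriv (fun _ => g s)) s := h4.deriv_eq
  have h6 : deriv (deriv (fun _ : ℝ => g s)) s = 0 := by simp
  linarith

lemma div_nonpos' {n : ℕ} {Ω : Set (E n)} (hO : IsOpen Ω) {a u : E n → ℝ}
    (ha : ContDiffOn ℝ 1 a Ω) (hpos : ∀ x ∈ Ω, 0 < a x) (hu : ContDiffOn ℝ 2 u Ω)
    {x : E n} (hx : x ∈ Ω) (hmax : IsLocalMax u x) : divAGrad a u x ≤ 0 := by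
  unfold divAGrad
  apply Finset.sum_nonpos
  intro i _
  set e : E n := EuclideanSpace.single i 1 with he
  have hΩ := hO.mem_nhds hx
  have hua : ContDiffAt ℝ 2 u x := hu.contDiffAt hΩ
  have hd : DifferentiableAt ℝ (fun y => fderiv ℝ u y e) x := by
    have := (hua.fderiv_right (m := 1) (by norm_num)).differentiableAt one_ne_zero
    exact this.clm_apply (differentiableAt_const _)
  have had : DifferentiableAt ℝ a x := (ha.contDiffAt hΩ).differentiableAt one_ne_zero
  have hgrad : fderiv ℝ u x = 0 := hmax.fderiv_eq_zero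
  rw [fderiv_fun_mul had hd]
  simp only [hgrad, add_apply, smul_apply, smul_eq_mul,
    zero_apply, zero_mul, add_zero]
  set g : ℝ → ℝ := fun s => u (x + s • e) with hg
  have hline : ∀ s : ℝ, HasDerivAt (fun s : ℝ => x + s • e) e s := by
    intro s
    have := ((hasDerivAt_id s).smul_const e).const_add x
    simpa using this
  have hlc : ContinuousAt (fun s : ℝ => x + s • e) 0 := (hline 0).continuousAt
  have hx0 : x + (0 : ℝ) • e = x := by simp
  have htend : Tendsto (fun s : ℝ => x + s • e) (𝓝 0) (𝓝 x) := by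
    have := hlc.tendsto
    rwa [hx0] at this
  have hev : ∀ᶠ s in 𝓝 (0 : ℝ), x + s • e ∈ Ω := htend hΩ
  have hg1 : deriv g =ᶠ[𝓝 0] fun s => fderiv ℝ u (x + s • e) e := by
    filter_upwards [hev] with s hs
    have h1 : HasFDerivAt u (fderiv ℝ u (x + s • e)) (x + s • e) :=
      ((hu.contDiffAt (hO.mem_nhds hs)).differentiableAt two_ne_zero).hasFDerivAt
    exact (h1.comp_hasDerivAt s (hline s)).deriv
  have hg2 : deriv (deriv g) 0 = fderiv ℝ (fun y => fderiv ℝ u y e) x e := by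
    rw [hg1.deriv_eq]
    have h1 : HasFDerivAt (fun y => fderiv ℝ u y e) (fderiv ℝ (fun y => fderiv ℝ u y e) x)
        (x + (0 : ℝ) • e) := by
      rw [hx0]
      exact hd.hasFDerivAt
    exact (h1.comp_hasDerivAt (0 : ℝ) (hline 0)).deriv
  have hgmax : IsLocalMax g 0 := by
    have h1 : ∀ᶠ y in 𝓝 x, u y ≤ u x := hmax
    have h2 := htend.eventually h1
    filter_upwards [h2] with s hs
    simp only [hg, hx0]
    exact hs
  have hgc : ContinuousAt g 0 := by
    have h1 : ContinuousAt u (x + (0 : ℝ) • e) := by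
      rw [hx0]
      exact hua.continuousAt
    exact ContinuousAt.comp (f := fun s : ℝ => x + s • e) (g := u) h1 hlc
  have h3 := deriv2_nonpos hgmax hgc
  rw [hg2] at h3
  exact mul_nonpos_of_nonneg_of_nonpos (hpos x hx).le h3

/-- parabolic maximum principle -/
theorem maxPrinciple {n : ℕ} {Ω : Set (E n)} (hO : IsOpen Ω) (hb : Bornology.IsBounded Ω)
    {t0 T : ℝ} (hT : t0 < T) {a : E n → ℝ} (ha : ContDiffOn ℝ 1 a Ω) (hpos : ∀ x ∈ Ω, 0 < a x)
    {w wt : E n → ℝ → ℝ}
    (hc : ContinuousOn (fun q : E n × ℝ => w q.1 q.2) (closure Ω ×ˢ Icc t0 T))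
    (hx : ∀ t ∈ Ioo t0 T, ContDiffOn ℝ 2 (fun x => w x t) Ω)
    (ht : ∀ x ∈ Ω, ∀ t ∈ Ioo t0 T, HasDerivAt (w x) (wt x t) t)
    (heq : ∀ x ∈ Ω, ∀ t ∈ Ioo t0 T, wt x t ≤ divAGrad a (fun x => w x t) x)
    {M : ℝ} (hM0 : ∀ x ∈ closure Ω, w x t0 ≤ M)
    (hMb : ∀ x ∈ frontier Ω, ∀ t ∈ Icc t0 T, w x t ≤ M) :
    ∀ x ∈ closure Ω, ∀ t ∈ Icc t0 T, w x t ≤ M := by
  have key : ∀ t1 ∈ Ioo t0 T, ∀ η > 0, ∀ x ∈ closure Ω, ∀ t ∈ Icc t0 t1,
      w x t - η * (t - t0) ≤ M := by
    intro t1 ht1 η hη x hxc t htc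
    have hcomp : IsCompact (closure Ω ×ˢ Icc t0 t1) :=
      (Metric.isCompact_of_isClosed_isBounded isClosed_closure hb.closure).prod isCompact_Icc
    have hne : (closure Ω ×ˢ Icc t0 t1).Nonempty := ⟨(x, t), hxc, htc⟩
    have hcont : ContinuousOn (fun q : E n × ℝ => w q.1 q.2 - η * (q.2 - t0))
        (closure Ω ×ˢ Icc t0 t1) := by
      apply ContinuousOn.sub
      · exact hc.mono (prod_mono_right (Icc_subset_Icc_right ht1.2.le))
      · fun_prop
    obtain ⟨⟨x', t'⟩, ⟨hx', ht'⟩, hmax⟩ := hcomp.exists_isMaxOn hne hcont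
    have hx'' : x' ∈ closure Ω := hx'
    have ht'' : t' ∈ Icc t0 t1 := ht'
    have hmax' : ∀ y ∈ closure Ω, ∀ s ∈ Icc t0 t1,
        w y s - η * (s - t0) ≤ w x' t' - η * (t' - t0) := fun y hy s hs => hmax (a := (y, s)) ⟨hy, hs⟩
    refine (hmax' x hxc t htc).trans ?_
    by_cases hfr : x' ∈ frontier Ω
    · have h1 := hMb x' hfr t' ⟨ht''.1, ht''.2.trans ht1.2.le⟩
      have h2 : 0 ≤ η * (t' - t0) := mul_nonneg hη.le (sub_nonneg.2 ht''.1)
      linarith
    have hxΩ : x' ∈ Ω := by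
      by_contra h
      exact hfr ⟨hx'', by rwa [hO.interior_eq]⟩
    rcases eq_or_lt_of_le ht''.1 with h0 | h0
    · have h1 := hM0 x' hx''
      rw [← h0]
      simpa using h1
    · exfalso
      have htT : t' ∈ Ioo t0 T := ⟨h0, ht''.2.trans_lt ht1.2⟩
      have hwt : η ≤ wt x' t' := by
        have hd : HasDerivAt (fun s => w x' s - η * (s - t0)) (wt x' t' - η) t' := by
          have h1 := (ht x' hxΩ t' htT).fun_sub (((hasDerivAt_id' t').sub_const t0).const_mul η)
          rw [mul_one] at h1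
          exact h1
        have hlm : IsLocalMaxOn (fun s => w x' s - η * (s - t0)) (Icc t0 t') t' := by
          have : IsMaxOn (fun s => w x' s - η * (s - t0)) (Icc t0 t') t' := by
            intro s hs
            exact hmax' x' hx'' s ⟨hs.1, hs.2.trans ht''.2⟩
          exact this.localize
        have h2 := hlm.hasFDerivWithinAt_nonpos (hd.hasFDerivAt.hasFDerivWithinAt)
          (y := t0 - t') (sub_mem_posTangentConeAt_of_segment_subset (by
            rw [segment_symm, segment_eq_Icc h0.le]))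
        simp at h2
        nlinarith
      have hlmx : IsLocalMax (fun y => w y t') x' := by
        filter_upwards [hO.mem_nhds hxΩ] with y hy
        have := hmax' y (subset_closure hy) t' ht''
        linarith
      have hsp : divAGrad a (fun x => w x t') x' ≤ 0 :=
        div_nonpos' hO ha hpos (hx t' htT) hxΩ hlmx
      have := heq x' hxΩ t' htT
      linarith
  have key2 : ∀ x ∈ closure Ω, ∀ t ∈ Ioo t0 T, w x t ≤ M := by
    intro x hxc t htc
    apply le_of_forall_pos_le_add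
    intro ε hε
    have hpos' : 0 < t - t0 := sub_pos.2 htc.1
    have := key t htc (ε / (t - t0)) (by positivity) x hxc t ⟨htc.1.le, le_rfl⟩
    rw [div_mul_cancel₀ _ hpos'.ne'] at this
    linarith
  intro x hxc t htc
  rcases eq_or_lt_of_le htc.1 with h0 | h0
  · rw [← h0]; exact hM0 x hxc
  rcases eq_or_lt_of_le htc.2 with h1 | h1
  · subst h1
    have hcw : ContinuousWithinAt (fun s => w x s) (Ioo t0 t) t := by
      have h2 : ContinuousWithinAt (fun q : E n × ℝ => w q.1 q.2) (closure Ω ×ˢ Icc t0 t) (x, t) :=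
        hc (x, t) ⟨hxc, htc⟩
      have h3 : ContinuousWithinAt (fun s : ℝ => (x, s)) (Ioo t0 t) t := by fun_prop
      exact ContinuousWithinAt.comp (g := fun q : E n × ℝ => w q.1 q.2)
        (f := fun s : ℝ => (x, s)) h2 h3 (fun s hs => ⟨hxc, hs.1.le, hs.2.le⟩)
    have hnb : (𝓝[Ioo t0 t] t).NeBot := right_nhdsWithin_Ioo_neBot h0
    refine le_of_tendsto hcw ?_
    filter_upwards [self_mem_nhdsWithin] with s hs
    exact key2 x hxc s hs
  · exact key2 x hxc t ⟨h0, h1⟩

end Pool.Agent.Helper676.PC
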