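import Pool.Agent.Helper676.PCDef

set_option autoImplicit false

/-! Integration by parts (proved by helper939). -/

namespace Pool.Agent.Helper676.PC

open MeasureTheory Filter Topology Set Metric

theorem wc_gradient_apply {n : ℕ} (u : E n → ℝ) (x : E n) (i : Fin n) :
    (gradient u x) i = fderiv ℝ u x (EuclideanSpace.single i 1) := by
  have h1 : inner ℝ (gradient u x) (EuclideanSpace.single i (1 : ℝ)) =
      fderiv ℝ u x (EuclideanSpace.single i 1) := by
    unfold gradient
    exact InnerProductSpace.toDual_symm_apply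
  rw [← h1, EuclideanSpace.inner_single_right]
  simp

theorem wc_inner {n : ℕ} (u ψ : E n → ℝ) (x : E n) :
    inner ℝ (gradient u x) (gradient ψ x) = ∑ i : Fin n,
      fderiv ℝ u x (EuclideanSpace.single i 1) * fderiv ℝ ψ x (EuclideanSpace.single i 1) := by
  rw [PiLp.inner_apply]
  apply Finset.sum_congr rfl
  intro i _
  rw [wc_gradient_apply, wc_gradient_apply, real_inner_comm]
  rfl
  
theorem wc_integrable {n : ℕ} {K : Set (E n)} (hK : IsCompact K) {F G : E n → ℝ}
    (hF : ContinuousOn F K) (hG : ContinuousOn G K) (hs : ∀ x, x ∉ K → G x = 0) :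
    Integrable (fun x => F x * G x) := by
  have h1 : IntegrableOn (fun x => F x * G x) K := (hF.mul hG).integrableOn_compact hK
  rwa [integrableOn_iff_integrable_of_support_subset] at h1
  intro x hx
  by_contra hxK
  apply hx
  simp only [hs x hxK, mul_zero]

/-- integration by parts against a compactly supported test function -/
theorem weak_of_classical {n : ℕ} {O : Set (E n)} (hO : IsOpen O) {a u ψ : E n → ℝ}
    (ha : ContDiffOn ℝ 1 a O) (hu : ContDiffOn ℝ 2 u O) (hψ : ContDiff ℝ 1 ψ)
    (hc : HasCompactSupport ψ) (hs : tsupport ψ ⊆ O) :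
    ∫ x, a x * inner ℝ (gradient u x) (gradient ψ x) = - ∫ x, divAGrad a u x * ψ x := by
  have hK : IsCompact (tsupport ψ) := hc
  have hF : ∀ i : Fin n, ContDiffOn ℝ 1
      (fun y => a y * fderiv ℝ u y (EuclideanSpace.single i 1)) O := by
    intro i
    have h1 : ContDiffOn ℝ 1 (fderiv ℝ u) O := hu.fderiv_of_isOpen hO (by norm_num)
    exact ha.mul (h1.clm_apply contDiffOn_const)
  have hF' : ∀ i : Fin n, ContinuousOn
      (fun x => fderiv ℝ (fun y => a y * fderiv ℝ u y (EuclideanSpace.single i 1)) x
        (EuclideanSpace.single i 1)) O := by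
    intro i
    have h1 : ContDiffOn ℝ 0 (fderiv ℝ (fun y => a y * fderiv ℝ u y (EuclideanSpace.single i 1))) O :=
      (hF i).fderiv_of_isOpen hO (by norm_num)
    exact h1.continuousOn.clm_apply continuousOn_const
  have hψ' : ∀ i : Fin n, Continuous (fun x => fderiv ℝ ψ x (EuclideanSpace.single i 1)) := by
    intro i
    exact (hψ.continuous_fderiv (by norm_num)).clm_apply continuous_const
  have hψ0 : ∀ x, x ∉ tsupport ψ → ψ x = 0 := fun x hx => image_eq_zero_of_notMem_tsupport hx
  have hψ'0 : ∀ i : Fin n, ∀ x, x ∉ tsupport ψ →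
      fderiv ℝ ψ x (EuclideanSpace.single i 1) = 0 := by
    intro i x hx
    rw [fderiv_of_notMem_tsupport ℝ hx]
    rfl
  have hi1 : ∀ i : Fin n, Integrable (fun x => (a x * fderiv ℝ u x (EuclideanSpace.single i 1)) *
      fderiv ℝ ψ x (EuclideanSpace.single i 1)) := fun i =>
    wc_integrable hK ((hF i).continuousOn.mono hs) (hψ' i).continuousOn (hψ'0 i)
  have hi2 : ∀ i : Fin n, Integrable (fun x =>
      fderiv ℝ (fun y => a y * fderiv ℝ u y (EuclideanSpace.single i 1)) x
        (EuclideanSpace.single i 1) * ψ x) := fun i =>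
    wc_integrable hK ((hF' i).mono hs) hψ.continuous.continuousOn hψ0
  have hi3 : ∀ i : Fin n, Integrable (fun x =>
      (a x * fderiv ℝ u x (EuclideanSpace.single i 1)) * ψ x) := fun i =>
    wc_integrable hK ((hF i).continuousOn.mono hs) hψ.continuous.continuousOn hψ0
  have hibp : ∀ i : Fin n, ∫ x, (a x * fderiv ℝ u x (EuclideanSpace.single i 1)) *
      fderiv ℝ ψ x (EuclideanSpace.single i 1) = - ∫ x,
      fderiv ℝ (fun y => a y * fderiv ℝ u y (EuclideanSpace.single i 1)) x
        (EuclideanSpace.single i 1) * ψ x := by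
    intro i
    apply integral_mul_fderiv_eq_neg_fderiv_mul_of_integrable (hi2 i) (hi1 i) (hi3 i)
    · intro x hx
      exact ((hF i).contDiffAt (hO.mem_nhds (hs hx))).differentiableAt (by norm_num)
    · intro x _
      exact hψ.contDiffAt.differentiableAt (by norm_num)
  have e1 : (fun x => a x * inner ℝ (gradient u x) (gradient ψ x)) = fun x => ∑ i : Fin n,
      (a x * fderiv ℝ u x (EuclideanSpace.single i 1)) *
      fderiv ℝ ψ x (EuclideanSpace.single i 1) := by
    funext x
    rw [wc_inner, Finset.mul_sum]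
    apply Finset.sum_congr rfl
    intro i _
    ring
  have e2 : (fun x => divAGrad a u x * ψ x) = fun x => ∑ i : Fin n,
      fderiv ℝ (fun y => a y * fderiv ℝ u y (EuclideanSpace.single i 1)) x
        (EuclideanSpace.single i 1) * ψ x := by
    funext x
    unfold divAGrad
    rw [Finset.sum_mul]
  rw [e1, e2, integral_finsetSum _ (fun i _ => hi1 i), integral_finsetSum _ (fun i _ => hi2 i),
    ← Finset.sum_neg_distrib]
  exact Finset.sum_congr rfl (fun i _ => hibp i)

end Pool.Agent.Helper676.PC
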