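import Pool.Agent.Helper676.PC13
import Pool.Agent.Helper676.PC14
import Pool.Agent.Helper676.PCB
import Pool.Agent.Helper676.PCH

set_option autoImplicit false

/-! Classical solutions with zero initial data and space-independent lateral data. -/

namespace Pool.Agent.Helper676.PC

open MeasureTheory Filter Topology Set InnerProductSpace Metric

variable {n : ℕ}

/-- linearity of `divAGrad` in the second argument -/
lemma divAGrad_lin {Ω : Set (E n)} (hΩ : IsOpen Ω) {a u v : E n → ℝ} (ha : ContDiffOn ℝ 1 a Ω)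
    (hu : ContDiffOn ℝ 2 u Ω) (hv : ContDiffOn ℝ 2 v Ω) (α β : ℝ) {x : E n} (hx : x ∈ Ω) :
    divAGrad a (fun y => α * u y + β * v y) x = α * divAGrad a u x + β * divAGrad a v x := by
  have had : DifferentiableAt ℝ a x := (ha.contDiffAt (hΩ.mem_nhds hx)).differentiableAt one_ne_zero
  have hfd : ∀ w : E n → ℝ, ContDiffOn ℝ 2 w Ω → ∀ e : E n,
      DifferentiableAt ℝ (fun y => a y * fderiv ℝ w y e) x := by
    intro w hw e
    have h1 : ContDiffOn ℝ 1 (fderiv ℝ w) Ω := hw.fderiv_of_isOpen hΩ (by norm_num)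
    have h2 : ContDiffOn ℝ 1 (fun y => a y * fderiv ℝ w y e) Ω :=
      ha.mul (h1.clm_apply contDiffOn_const)
    exact (h2.contDiffAt (hΩ.mem_nhds hx)).differentiableAt one_ne_zero
  unfold divAGrad
  rw [Finset.mul_sum, Finset.mul_sum, ← Finset.sum_add_distrib]
  apply Finset.sum_congr rfl
  intro i _
  have e1 : (fun y => a y * fderiv ℝ (fun y => α * u y + β * v y) y (EuclideanSpace.single i 1))
      =ᶠ[𝓝 x] fun y => α * (a y * fderiv ℝ u y (EuclideanSpace.single i 1)) +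
        β * (a y * fderiv ℝ v y (EuclideanSpace.single i 1)) := by
    filter_upwards [hΩ.mem_nhds hx] with y hy
    have hud : DifferentiableAt ℝ u y := (hu.contDiffAt (hΩ.mem_nhds hy)).differentiableAt two_ne_zero
    have hvd : DifferentiableAt ℝ v y := (hv.contDiffAt (hΩ.mem_nhds hy)).differentiableAt two_ne_zero
    rw [fderiv_fun_add (hud.const_mul α) (hvd.const_mul β), fderiv_const_mul hud,
      fderiv_const_mul hvd]
    simp only [add_apply, smul_apply, smul_eq_mul]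
    ring
  rw [e1.fderiv_eq, fderiv_fun_add ((hfd u hu _).const_mul α) ((hfd v hv _).const_mul β),
    fderiv_const_mul (hfd u hu _), fderiv_const_mul (hfd v hv _)]
  simp only [add_apply, smul_apply, smul_eq_mul]

/-- expansion of `divAGrad` -/
lemma divAGrad_expand {Ω : Set (E n)} (hΩ : IsOpen Ω) {a u : E n → ℝ} (ha : ContDiffOn ℝ 1 a Ω)
    (hu : ContDiffOn ℝ 2 u Ω) {x : E n} (hx : x ∈ Ω) :
    divAGrad a u x = ∑ i : Fin n, (a x * fderiv ℝ (fderiv ℝ u) x (EuclideanSpace.single i 1)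
      (EuclideanSpace.single i 1) + fderiv ℝ u x (EuclideanSpace.single i 1) *
        fderiv ℝ a x (EuclideanSpace.single i 1)) := by
  have had : DifferentiableAt ℝ a x := (ha.contDiffAt (hΩ.mem_nhds hx)).differentiableAt one_ne_zero
  have h1 : ContDiffOn ℝ 1 (fderiv ℝ u) Ω := hu.fderiv_of_isOpen hΩ (by norm_num)
  have h2 : DifferentiableAt ℝ (fderiv ℝ u) x :=
    (h1.contDiffAt (hΩ.mem_nhds hx)).differentiableAt one_ne_zero
  unfold divAGrad
  apply Finset.sum_congr rfl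
  intro i _
  have h3 : DifferentiableAt ℝ (fun y => fderiv ℝ u y (EuclideanSpace.single i 1)) x :=
    h2.clm_apply (differentiableAt_const _)
  rw [fderiv_fun_mul had h3, fderiv_clm_apply h2 (differentiableAt_const _)]
  simp

/-- classical solutions with zero initial data at `t0` and lateral data `κ` -/
structure HS (Ω : Set (E n)) (t0 T : ℝ) (a : E n → ℝ) (w wt : E n → ℝ → ℝ) (κ : ℝ → ℝ) :
    Prop where
  wC : ContinuousOn (fun q : E n × ℝ => w q.1 q.2) (closure Ω ×ˢ Icc t0 T)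
  w0 : ∀ x ∈ closure Ω, w x t0 = 0
  wb : ∀ x ∈ frontier Ω, ∀ t ∈ Icc t0 T, w x t = κ t
  w2 : ∀ t ∈ Ioc t0 T, ContDiffOn ℝ 2 (fun x => w x t) Ω
  wd : ∀ x ∈ Ω, ∀ t ∈ Ioo t0 T, HasDerivAt (w x) (wt x t) t
  wtC : ContinuousOn (fun q : E n × ℝ => wt q.1 q.2) (Ω ×ˢ Ioc t0 T)
  pde : ∀ x ∈ Ω, ∀ t ∈ Ioc t0 T, wt x t = divAGrad a (fun y => w y t) x

lemma HS.le {Ω : Set (E n)} (hO : IsOpen Ω) (hb : Bornology.IsBounded Ω) {t0 T : ℝ} (hT : t0 < T)
    {a : E n → ℝ} (ha : ContDiffOn ℝ 1 a Ω) (hpos : ∀ x ∈ Ω, 0 < a x) {w wt : E n → ℝ → ℝ}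
    {κ : ℝ → ℝ} (h : HS Ω t0 T a w wt κ) {M : ℝ} (hM : 0 ≤ M) (hκ : ∀ t ∈ Icc t0 T, κ t ≤ M) :
    ∀ x ∈ closure Ω, ∀ t ∈ Icc t0 T, w x t ≤ M :=
  maxPrinciple hO hb hT ha hpos h.wC (fun t ht => h.w2 t ⟨ht.1, ht.2.le⟩) h.wd
    (fun x hx t ht => (h.pde x hx t ⟨ht.1, ht.2.le⟩).le)
    (fun x hx => by rw [h.w0 x hx]; exact hM)
    (fun x hx t ht => by rw [h.wb x hx t ht]; exact hκ t ht)

lemma HS.restrict {Ω : Set (E n)} {t0 T T1 : ℝ} (hT : T1 ≤ T)
    {a : E n → ℝ} {w wt : E n → ℝ → ℝ} {κ : ℝ → ℝ} (h : HS Ω t0 T a w wt κ) :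
    HS Ω t0 T1 a w wt κ where
  wC := h.wC.mono (prod_mono_right (Icc_subset_Icc_right hT))
  w0 := h.w0
  wb := fun x hx t ht => h.wb x hx t ⟨ht.1, ht.2.trans hT⟩
  w2 := fun t ht => h.w2 t ⟨ht.1, ht.2.trans hT⟩
  wd := fun x hx t ht => h.wd x hx t ⟨ht.1, ht.2.trans_le hT⟩
  wtC := h.wtC.mono (prod_mono_right (Ioc_subset_Ioc_right hT))
  pde := fun x hx t ht => h.pde x hx t ⟨ht.1, ht.2.trans hT⟩

/-- combination of a solution and its time translate -/
lemma HS.comb {Ω : Set (E n)} (hO : IsOpen Ω) {t0 T : ℝ}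
    {a : E n → ℝ} (ha : ContDiffOn ℝ 1 a Ω) {w wt : E n → ℝ → ℝ} {κ : ℝ → ℝ}
    (h : HS Ω t0 T a w wt κ) {t1 s : ℝ} (hs : 0 ≤ s) (hst : t0 + s ≤ t1) (α β : ℝ)
    (h1 : ∀ x ∈ closure Ω, w x t1 = 0) (h2 : ∀ x ∈ closure Ω, w x (t1 - s) = 0) :
    HS Ω t1 T a (fun x t => α * w x t + β * w x (t - s))
      (fun x t => α * wt x t + β * wt x (t - s)) (fun t => α * κ t + β * κ (t - s)) where
  wC := by
    have e1 : ContinuousOn (fun q : E n × ℝ => w q.1 q.2) (closure Ω ×ˢ Icc t1 T) :=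
      h.wC.mono (prod_mono_right (Icc_subset_Icc_left (by linarith)))
    have e2 : ContinuousOn (fun q : E n × ℝ => w q.1 (q.2 - s)) (closure Ω ×ˢ Icc t1 T) :=
      h.wC.comp (f := fun q : E n × ℝ => (q.1, q.2 - s)) (by fun_prop)
        (fun q hq => ⟨hq.1, by have := hq.2.1; simp only; linarith,
          by have := hq.2.2; simp only; linarith⟩)
    exact (continuousOn_const.mul e1).add (continuousOn_const.mul e2)
  w0 := fun x hx => by simp only [h1 x hx, h2 x hx]; ring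
  wb := fun x hx t ht => by
    rw [h.wb x hx t ⟨by linarith [ht.1], ht.2⟩, h.wb x hx (t - s) ⟨by linarith [ht.1],
      by linarith [ht.2]⟩]
  w2 := fun t ht => by
    have e1 := h.w2 t ⟨by linarith [ht.1], ht.2⟩
    have e2 := h.w2 (t - s) ⟨by linarith [ht.1], by linarith [ht.2]⟩
    exact (contDiffOn_const.mul e1).add (contDiffOn_const.mul e2)
  wd := fun x hx t ht => by
    have e1 := h.wd x hx t ⟨by linarith [ht.1], ht.2⟩
    have e2 := h.wd x hx (t - s) ⟨by linarith [ht.1], by linarith [ht.2]⟩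
    have e3 : HasDerivAt (fun t => w x (t - s)) (wt x (t - s)) t := by
      have := e2.comp_sub_const t s
      exact this
    exact (e1.const_mul α).add (e3.const_mul β)
  wtC := by
    have e1 : ContinuousOn (fun q : E n × ℝ => wt q.1 q.2) (Ω ×ˢ Ioc t1 T) :=
      h.wtC.mono (prod_mono_right (Ioc_subset_Ioc_left (by linarith)))
    have e2 : ContinuousOn (fun q : E n × ℝ => wt q.1 (q.2 - s)) (Ω ×ˢ Ioc t1 T) :=
      h.wtC.comp (f := fun q : E n × ℝ => (q.1, q.2 - s)) (by fun_prop)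
        (fun q hq => ⟨hq.1, by have := hq.2.1; simp only; linarith,
          by have := hq.2.2; simp only; linarith⟩)
    exact (continuousOn_const.mul e1).add (continuousOn_const.mul e2)
  pde := fun x hx t ht => by
    have m1 : t ∈ Ioc t0 T := ⟨by linarith [ht.1], ht.2⟩
    have m2 : t - s ∈ Ioc t0 T := ⟨by linarith [ht.1], by linarith [ht.2]⟩
    rw [h.pde x hx t m1, h.pde x hx (t - s) m2,
      divAGrad_lin hO ha (h.w2 t m1) (h.w2 (t - s) m2) α β hx]

lemma HS.abs_le {Ω : Set (E n)} (hO : IsOpen Ω) (hb : Bornology.IsBounded Ω) {t0 T : ℝ}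
    (hT : t0 < T) {a : E n → ℝ} (ha : ContDiffOn ℝ 1 a Ω) (hpos : ∀ x ∈ Ω, 0 < a x)
    {w wt : E n → ℝ → ℝ} {κ : ℝ → ℝ} (h : HS Ω t0 T a w wt κ) {M : ℝ} (hM : 0 ≤ M)
    (hκ : ∀ t ∈ Icc t0 T, |κ t| ≤ M) :
    ∀ x ∈ closure Ω, ∀ t ∈ Icc t0 T, |w x t| ≤ M := by
  intro x hx t ht
  have h1 := h.le hO hb hT ha hpos hM (fun t ht => (le_abs_self _).trans (hκ t ht)) x hx t ht
  have h2 := (h.comb hO ha (t1 := t0) le_rfl (by linarith) (-1) 0 h.w0
    (fun x hx => by rw [sub_zero]; exact h.w0 x hx)).le hO hb hT ha hpos hM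
    (fun t ht => by
      have := (neg_le_abs (κ t)).trans (hκ t ht)
      linarith) x hx t ht
  rw [_root_.abs_le]
  constructor <;> linarith

lemma tendsto_left {f : ℝ → ℝ} {f' t t0 : ℝ} (h : HasDerivWithinAt f f' (Ioc t0 t) t)
    (ht : t0 < t) : Tendsto (fun h => h⁻¹ * f t + (-h⁻¹) * f (t - h)) (𝓝[>] 0) (𝓝 f') := by
  rw [hasDerivWithinAt_iff_tendsto_slope] at h
  have h1 : Tendsto (fun h : ℝ => t - h) (𝓝[>] 0) (𝓝[Ioc t0 t \ {t}] t) := by
    rw [tendsto_nhdsWithin_iff]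
    constructor
    · have : Tendsto (fun h : ℝ => t - h) (𝓝 0) (𝓝 (t - 0)) := by
        exact (continuous_const.sub continuous_id).tendsto 0
      rw [sub_zero] at this
      exact this.mono_left nhdsWithin_le_nhds
    · filter_upwards [Ioo_mem_nhdsGT (sub_pos.2 ht)] with h hh
      refine ⟨⟨by linarith [hh.2], by linarith [hh.1]⟩, ?_⟩
      simp only [mem_singleton_iff]
      intro hcon
      linarith [hh.1]
  refine (h.comp h1).congr' ?_
  filter_upwards [self_mem_nhdsWithin] with h hh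
  have hh' : (0 : ℝ) < h := hh
  simp only [Function.comp_apply, slope_def_field]
  have : t - h - t = -h := by ring
  rw [this]
  field_simp
  ring

lemma HS.deriv_le {Ω : Set (E n)} (hO : IsOpen Ω) (hb : Bornology.IsBounded Ω) {t0 T : ℝ}
    {a : E n → ℝ} (ha : ContDiffOn ℝ 1 a Ω) (hpos : ∀ x ∈ Ω, 0 < a x)
    {w wt : E n → ℝ → ℝ} {κ : ℝ → ℝ} (h : HS Ω t0 T a w wt κ) {t1 : ℝ} (h01 : t0 < t1)
    (h1T : t1 < T) (hz : ∀ x ∈ closure Ω, ∀ t ∈ Icc t0 t1, w x t = 0) {L : ℝ} (hL : 0 ≤ L)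
    (hκ : ∀ t t', |κ t - κ t'| ≤ L * |t - t'|) :
    ∀ x ∈ Ω, ∀ t ∈ Ioo t1 T, |wt x t| ≤ L := by
  intro x hx t ht
  have hd := h.wd x hx t ⟨h01.trans ht.1, ht.2⟩
  have hlim := tendsto_left (hd.hasDerivWithinAt (s := Ioc t1 t)) ht.1
  refine le_of_tendsto hlim.abs ?_
  filter_upwards [Ioo_mem_nhdsGT (sub_pos.2 h01)] with s hs
  have hs0 : 0 < s := hs.1
  have hq := (h.comb hO ha (t1 := t1) (s := s) hs.1.le (by linarith [hs.2]) s⁻¹ (-s⁻¹)
    (fun x hx => hz x hx t1 ⟨h01.le, le_rfl⟩)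
    (fun x hx => hz x hx _ ⟨by linarith [hs.2], by linarith [hs.1]⟩)).abs_le hO hb h1T ha hpos hL
    (fun τ _ => by
      have h1 := hκ τ (τ - s)
      have e : s⁻¹ * κ τ + -s⁻¹ * κ (τ - s) = s⁻¹ * (κ τ - κ (τ - s)) := by ring
      rw [e, abs_mul, abs_of_pos (inv_pos.2 hs0), inv_mul_le_iff₀ hs0]
      have h2 : |τ - (τ - s)| = s := by
        have : τ - (τ - s) = s := by ring
        rw [this, abs_of_pos hs0]
      rw [h2] at h1
      linarith)
  exact hq x (subset_closure hx) t ⟨ht.1.le, ht.2.le⟩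

/-- weak form -/
lemma HS.weak {Ω : Set (E n)} (hO : IsOpen Ω) {t0 T : ℝ}
    {a : E n → ℝ} (ha : ContDiffOn ℝ 1 a Ω) {w wt : E n → ℝ → ℝ} {κ : ℝ → ℝ}
    (h : HS Ω t0 T a w wt κ) {t : ℝ} (ht : t ∈ Ioc t0 T) {ψ : E n → ℝ} (hψ : ContDiff ℝ 1 ψ)
    (hc : HasCompactSupport ψ) (hs : tsupport ψ ⊆ Ω) :
    ∫ x, a x * inner ℝ (gradient (fun x => w x t) x) (gradient ψ x) = -∫ x, wt x t * ψ x := by
  rw [weak_of_classical hO ha (h.w2 t ht) hψ hc hs]
  congr 2
  ext x
  by_cases hx : x ∈ Ω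
  · rw [h.pde x hx t ht]
  · rw [image_eq_zero_of_notMem_tsupport fun h' => hx (hs h'), mul_zero, mul_zero]

lemma HS.ell {Ω : Set (E n)} (hO : IsOpen Ω) {t0 T K : ℝ}
    {a : E n → ℝ} (ha : ContDiffOn ℝ 1 a Ω) (haK : ∀ x ∈ Ω, K⁻¹ ≤ a x ∧ a x ≤ K)
    {w wt : E n → ℝ → ℝ} {κ : ℝ → ℝ} (h : HS Ω t0 T a w wt κ) {t : ℝ} (ht : t ∈ Ioc t0 T)
    {B : ℝ} (hB : 0 ≤ B) (hwB : ∀ x ∈ closure Ω, |w x t| ≤ B) (hκB : |κ t| ≤ B)
    (hwtB : ∀ x ∈ Ω, |wt x t| ≤ B) :
    Ell Ω K (2 * B) a (Ω.indicator (fun x => w x t - κ t)) where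
  aC := ha.continuousOn
  aK := haK
  wC := by
    have hwc : ContinuousOn (fun x => w x t - κ t) (closure Ω) := by
      have : ContinuousOn (fun x => w x t) (closure Ω) :=
        h.wC.comp (f := fun x : E n => (x, t)) (by fun_prop) (fun x hx => ⟨hx, ht.1.le, ht.2⟩)
      exact this.sub continuousOn_const
    exact continuous_indicator (fun x hx => by
      rw [h.wb x hx t ⟨ht.1.le, ht.2⟩, sub_self]) hwc
  w0 := fun x hx => indicator_of_notMem hx _
  w1 := by
    have : ContDiffOn ℝ 1 (fun x => w x t - κ t) Ω :=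
      ((h.w2 t ht).of_le (by norm_num)).sub contDiffOn_const
    exact this.congr fun x hx => indicator_of_mem hx _
  wB := by
    intro x
    by_cases hx : x ∈ Ω
    · rw [indicator_of_mem hx]
      have h1 := hwB x (subset_closure hx)
      calc |w x t - κ t| ≤ |w x t| + |κ t| := abs_sub _ _
        _ ≤ 2 * B := by linarith
    · rw [indicator_of_notMem hx, abs_zero]; positivity
  weak := by
    intro ψ h1 h2 h3
    have e1 : ∫ x, a x * inner ℝ (gradient (Ω.indicator (fun x => w x t - κ t)) x) (gradient ψ x) =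
        ∫ x, a x * inner ℝ (gradient (fun x => w x t) x) (gradient ψ x) := by
      congr 1; ext x
      by_cases hx : x ∈ Ω
      · have e : Ω.indicator (fun x => w x t - κ t) =ᶠ[𝓝 x] fun x => w x t - κ t := by
          filter_upwards [hO.mem_nhds hx] with z hz
          exact indicator_of_mem hz _
        rw [grad_congr e, grad_sub_const]
      · have : gradient ψ x = 0 := grad_eq_zero_of_notMem fun h' => hx (h3 h')
        rw [this]; simp
    rw [e1, h.weak hO ha ht h1 h2 h3, abs_neg]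
    have hwtc : ContinuousOn (fun x => wt x t) Ω :=
      h.wtC.comp (f := fun x : E n => (x, t)) (by fun_prop) (fun x hx => ⟨hx, ht⟩)
    have i1 : Integrable (fun x => wt x t * ψ x) := by
      have := glue0 (F := fun x => wt x t * ψ x) hO h2.isCompact h3
        (hwtc.mul h1.continuous.continuousOn)
        (fun x hx => by rw [image_eq_zero_of_notMem_tsupport hx, mul_zero])
      exact this.1.integrable_of_hasCompactSupport this.2
    have i2 : Integrable (fun x => |ψ x|) :=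
      (h1.continuous.integrable_of_hasCompactSupport h2).abs
    have i3 : 0 ≤ ∫ x, |ψ x| := integral_nonneg fun x => abs_nonneg _
    calc |∫ x, wt x t * ψ x| ≤ ∫ x, |wt x t * ψ x| := abs_integral_le_integral_abs
      _ ≤ ∫ x, B * |ψ x| := by
          apply integral_mono i1.abs (i2.const_mul _)
          intro x
          simp only
          by_cases hx : x ∈ Ω
          · rw [abs_mul]
            exact mul_le_mul_of_nonneg_right (hwtB x hx) (abs_nonneg _)
          · rw [image_eq_zero_of_notMem_tsupport fun h' => hx (h3 h')]; simp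
      _ = B * ∫ x, |ψ x| := integral_const_mul _ _
      _ ≤ 2 * B * ∫ x, |ψ x| := by nlinarith

/-- difference of two solutions -/
lemma HS.par {Ω : Set (E n)} (hO : IsOpen Ω) {t0 T K : ℝ}
    {a1 a2 : E n → ℝ} (ha1 : ContDiffOn ℝ 1 a1 Ω) (ha2 : ContDiffOn ℝ 1 a2 Ω)
    (haK : ∀ x ∈ Ω, K⁻¹ ≤ a1 x ∧ a1 x ≤ K)
    {p1 p1t p2 p2t : E n → ℝ → ℝ} {κ : ℝ → ℝ} (h1 : HS Ω t0 T a1 p1 p1t κ)
    (h2 : HS Ω t0 T a2 p2 p2t κ) :
    Par Ω K t0 T a1 (fun x t => p1 x t - p2 x t) (fun x t => p1t x t - p2t x t)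
      (fun x t => (a1 x - a2 x) • gradient (fun x => p2 x t) x) where
  aC := ha1.continuousOn
  aK := haK
  yC := h1.wC.sub h2.wC
  y0 := fun x hx => by rw [h1.w0 x hx, h2.w0 x hx, sub_self]
  yb := fun x hx t ht => by rw [h1.wb x hx t ht, h2.wb x hx t ht, sub_self]
  y1 := fun t ht => ((h1.w2 t ⟨ht.1, ht.2.le⟩).sub (h2.w2 t ⟨ht.1, ht.2.le⟩)).of_le (by norm_num)
  yd := fun x hx t ht => (h1.wd x hx t ht).sub (h2.wd x hx t ht)
  ytC := (h1.wtC.sub h2.wtC).mono (prod_mono_right Ioo_subset_Ioc_self)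
  FC := fun t ht => (ha1.continuousOn.sub ha2.continuousOn).smul
    (continuousOn_grad hO ((h2.w2 t ⟨ht.1, ht.2.le⟩).of_le (by norm_num)))
  weak := by
    intro t ht ψ hψ hc hs
    have ht' : t ∈ Ioc t0 T := ⟨ht.1, ht.2.le⟩
    have q1 := h1.weak hO ha1 ht' hψ hc hs
    have q2 := h2.weak hO ha2 ht' hψ hc hs
    have c1 : ContinuousOn (fun x => p1t x t) Ω :=
      h1.wtC.comp (f := fun x : E n => (x, t)) (by fun_prop) (fun x hx => ⟨hx, ht'⟩)
    have c2 : ContinuousOn (fun x => p2t x t) Ω :=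
      h2.wtC.comp (f := fun x : E n => (x, t)) (by fun_prop) (fun x hx => ⟨hx, ht'⟩)
    have i0 : ∀ f : E n → ℝ, ContinuousOn f Ω → Integrable (fun x => f x * ψ x) := by
      intro f hf
      have := glue0 (F := fun x => f x * ψ x) hO hc.isCompact hs
        (hf.mul hψ.continuous.continuousOn)
        (fun x hx => by rw [image_eq_zero_of_notMem_tsupport hx, mul_zero])
      exact this.1.integrable_of_hasCompactSupport this.2
    have g1 : ContinuousOn (gradient (fun x => p1 x t)) Ω :=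
      continuousOn_grad hO ((h1.w2 t ht').of_le (by norm_num))
    have g2 : ContinuousOn (gradient (fun x => p2 x t)) Ω :=
      continuousOn_grad hO ((h2.w2 t ht').of_le (by norm_num))
    have iG : ∀ G : E n → E n, ContinuousOn G Ω →
        Integrable (fun x => inner ℝ (G x) (gradient ψ x)) := by
      intro G hG
      have := glue0 (F := fun x => (inner ℝ (G x) (gradient ψ x) : ℝ)) hO hc.isCompact hs
        (hG.inner (continuous_grad hψ).continuousOn)
        (fun x hx => by rw [grad_eq_zero_of_notMem hx, inner_zero_right])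
      exact this.1.integrable_of_hasCompactSupport this.2
    have e0 : ∫ x, (p1t x t - p2t x t) * ψ x =
        (∫ x, p1t x t * ψ x) - ∫ x, p2t x t * ψ x := by
      rw [← integral_sub (i0 _ c1) (i0 _ c2)]
      congr 1; ext x; ring
    have j1 := iG (fun x => a1 x • gradient (fun x => p1 x t) x) (ha1.continuousOn.smul g1)
    have j2 := iG (fun x => a2 x • gradient (fun x => p2 x t) x) (ha2.continuousOn.smul g2)
    have j3 := iG (fun x => (a1 x - a2 x) • gradient (fun x => p2 x t) x)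
      ((ha1.continuousOn.sub ha2.continuousOn).smul g2)
    have e1 : ∫ x, a1 x * inner ℝ (gradient (fun x => p1 x t - p2 x t) x) (gradient ψ x) =
        ∫ x, (inner ℝ (a1 x • gradient (fun x => p1 x t) x) (gradient ψ x) -
          inner ℝ (a2 x • gradient (fun x => p2 x t) x) (gradient ψ x) -
          inner ℝ ((a1 x - a2 x) • gradient (fun x => p2 x t) x) (gradient ψ x)) := by
      congr 1; ext x
      by_cases hx : x ∈ Ω
      · have d1 : DifferentiableAt ℝ (fun x => p1 x t) x :=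
          ((h1.w2 t ht').contDiffAt (hO.mem_nhds hx)).differentiableAt two_ne_zero
        have d2 : DifferentiableAt ℝ (fun x => p2 x t) x :=
          ((h2.w2 t ht').contDiffAt (hO.mem_nhds hx)).differentiableAt two_ne_zero
        rw [grad_sub d1 d2, inner_sub_left, inner_smul_left, inner_smul_left, inner_smul_left]
        simp only [conj_trivial]
        ring
      · have : gradient ψ x = 0 := grad_eq_zero_of_notMem fun h' => hx (hs h')
        rw [this]; simp
    have e2 : ∫ x, inner ℝ (a1 x • gradient (fun x => p1 x t) x) (gradient ψ x) =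
        ∫ x, a1 x * inner ℝ (gradient (fun x => p1 x t) x) (gradient ψ x) := by
      congr 1; ext x; rw [inner_smul_left]; simp
    have e3 : ∫ x, inner ℝ (a2 x • gradient (fun x => p2 x t) x) (gradient ψ x) =
        ∫ x, a2 x * inner ℝ (gradient (fun x => p2 x t) x) (gradient ψ x) := by
      congr 1; ext x; rw [inner_smul_left]; simp
    have e4 : ∫ x, (inner ℝ (a1 x • gradient (fun x => p1 x t) x) (gradient ψ x) -
          inner ℝ (a2 x • gradient (fun x => p2 x t) x) (gradient ψ x) -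
          inner ℝ ((a1 x - a2 x) • gradient (fun x => p2 x t) x) (gradient ψ x)) =
        (∫ x, (inner ℝ (a1 x • gradient (fun x => p1 x t) x) (gradient ψ x) -
          inner ℝ (a2 x • gradient (fun x => p2 x t) x) (gradient ψ x))) -
        ∫ x, inner ℝ ((a1 x - a2 x) • gradient (fun x => p2 x t) x) (gradient ψ x) :=
      integral_sub (j1.sub j2) j3
    rw [e1, e4, integral_sub j1 j2, e2, e3, q1, q2, e0]
    ring

end Pool.Agent.Helper676.PC
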