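import Pool.Agent.Helper676.PCDef

set_option autoImplicit false

/-! Divergence identity at a maximum point (proved by helper345). -/

namespace Pool.Agent.Helper676.PC



theorem divAGrad_at_max {n : ℕ} {Ω : Set (E n)} (hΩ : IsOpen Ω) {a1 a2 u : E n → ℝ}
    (ha1 : ContDiffOn ℝ 1 a1 Ω) (ha2 : ContDiffOn ℝ 1 a2 Ω) (hu : ContDiffOn ℝ 2 u Ω)
    (hpos : ∀ x ∈ Ω, 0 < a1 x) {x0 : E n} (hx0 : x0 ∈ Ω)
    (hmax : ∀ x ∈ Ω, |(a1 x - a2 x) / a1 x| ≤ |(a1 x0 - a2 x0) / a1 x0|) :
    divAGrad a1 u x0 - divAGrad a2 u x0 = (a1 x0 - a2 x0) / a1 x0 * divAGrad a1 u x0 := by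
  have hnhds : Ω ∈ nhds x0 := hΩ.mem_nhds hx0
  have hd1 : DifferentiableAt ℝ a1 x0 := (ha1.contDiffAt hnhds).differentiableAt one_ne_zero
  have hd2 : DifferentiableAt ℝ a2 x0 := (ha2.contDiffAt hnhds).differentiableAt one_ne_zero
  have hu2 : ContDiffAt ℝ 2 u x0 := hu.contDiffAt hnhds
  have hw : ∀ v : E n, DifferentiableAt ℝ (fun y => fderiv ℝ u y v) x0 := by
    intro v
    have h1 : ContDiffAt ℝ 1 (fderiv ℝ u) x0 := hu2.fderiv_right (by norm_num)
    have h2 : DifferentiableAt ℝ (fderiv ℝ u) x0 := h1.differentiableAt one_ne_zero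
    exact h2.clm_apply (differentiableAt_const v)
  set r : E n → ℝ := fun x => (a1 x - a2 x) / a1 x with hr
  have hrd : DifferentiableAt ℝ r x0 := by
    have h1 : DifferentiableAt ℝ (fun x => (a1 x)⁻¹) x0 := hd1.inv (hpos x0 hx0).ne'
    have h2 : DifferentiableAt ℝ (fun x => (a1 x - a2 x) * (a1 x)⁻¹) x0 := (hd1.sub hd2).mul h1
    simpa only [hr, div_eq_mul_inv] using h2
  have hr0 : fderiv ℝ r x0 = 0 := by
    rcases le_total 0 (r x0) with h | h
    · apply IsLocalMax.fderiv_eq_zero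
      filter_upwards [hnhds] with x hx
      have := hmax x hx
      have h1 : |r x0| = r x0 := abs_of_nonneg h
      calc r x ≤ |r x| := le_abs_self _
        _ ≤ |r x0| := this
        _ = r x0 := h1
    · apply IsLocalMin.fderiv_eq_zero
      filter_upwards [hnhds] with x hx
      have := hmax x hx
      have h1 : |r x0| = - r x0 := abs_of_nonpos h
      have h2 : |r x| ≤ |r x0| := this
      have h3 := neg_abs_le (r x)
      linarith
  have hkey : ∀ v : E n, fderiv ℝ (fun y => a2 y * fderiv ℝ u y v) x0 v =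
      (1 - r x0) * fderiv ℝ (fun y => a1 y * fderiv ℝ u y v) x0 v := by
    intro v
    have he : (fun y => a2 y * fderiv ℝ u y v) =ᶠ[nhds x0]
        (fun y => (1 - r y) * (a1 y * fderiv ℝ u y v)) := by
      filter_upwards [hnhds] with y hy
      have := (hpos y hy).ne'
      simp only [hr]
      field_simp
      ring
    have hs : HasFDerivAt (fun y => 1 - r y) (0 : E n →L[ℝ] ℝ) x0 := by
      have h1 := hrd.hasFDerivAt
      rw [hr0] at h1
      simpa using h1.const_sub 1
    have hp : DifferentiableAt ℝ (fun y => a1 y * fderiv ℝ u y v) x0 := hd1.mul (hw v)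
    rw [he.fderiv_eq, (hs.fun_mul hp.hasFDerivAt).fderiv]
    simp
  have h2 : divAGrad a2 u x0 = (1 - r x0) * divAGrad a1 u x0 := by
    unfold divAGrad
    rw [Finset.mul_sum]
    exact Finset.sum_congr rfl (fun i _ => hkey _)
  rw [h2]
  ring

end Pool.Agent.Helper676.PC
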