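import Pool.Agent.Helper676.PCDef

set_option autoImplicit false

/-! Boundary data with exponential growth (proved by helper711). -/

namespace Pool.Agent.Helper676.PC



/-- boundary data with exponential growth -/
noncomputable def GG (χ : ℝ → ℝ) (c T t : ℝ) : ℝ := χ t * Real.exp (c * (t - T))

/-- corrected time difference of `GG` -/
noncomputable def kap (χ : ℝ → ℝ) (c T s t : ℝ) : ℝ :=
  s⁻¹ * GG χ c T t + (-(s⁻¹ * Real.exp (c * s))) * GG χ c T (t - s)

theorem kap_eq (χ : ℝ → ℝ) (c T s t : ℝ) :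
    kap χ c T s t = Real.exp (c * (t - T)) * (s⁻¹ * (χ t - χ (t - s))) := by
  have h : Real.exp (c * s) * Real.exp (c * (t - s - T)) = Real.exp (c * (t - T)) := by
    rw [← Real.exp_add]; ring_nf
  unfold kap GG
  rw [← h]
  have : Real.exp (c * (t - T)) = Real.exp (c * s) * Real.exp (c * (t - s - T)) := h.symm
  ring

theorem kappa_bounds (T : ℝ) (hT : 0 < T) :
    ∃ χ : ℝ → ℝ, ∃ C : ℝ, 0 < C ∧ Continuous χ ∧ (∀ t, 0 ≤ χ t) ∧ (∀ t, t ≤ T / 4 → χ t = 0) ∧
      (∀ t, T / 2 ≤ t → χ t = 1) ∧
      ∀ c s : ℝ, 0 ≤ c → 0 < s → Real.exp (c * s) ≤ 2 →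
        (∀ t, |kap χ c T s t| ≤ C * (1 + c) * Real.exp (-(c * T / 2))) ∧
        (∀ t t', |kap χ c T s t - kap χ c T s t'| ≤
          C * (1 + c) * Real.exp (-(c * T / 2)) * |t - t'|) := by
  let χ : ℝ → ℝ := fun t => Real.smoothTransition ((t - T / 4) / (T / 4))
  have hsm : ContDiff ℝ 2 χ := by
    have h1 : ContDiff ℝ 2 Real.smoothTransition := Real.smoothTransition.contDiff (n := 2)
    have h2 : ContDiff ℝ 2 (fun t : ℝ => (t - T / 4) / (T / 4)) :=
      (contDiff_id.sub contDiff_const).div_const _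
    exact h1.comp h2
  have h0 : ∀ t, t ≤ T / 4 → χ t = 0 := by
    intro t ht
    refine Real.smoothTransition.zero_of_nonpos ?_
    exact div_nonpos_of_nonpos_of_nonneg (by linarith) (by linarith)
  have h1 : ∀ t, T / 2 ≤ t → χ t = 1 := by
    intro t ht
    refine Real.smoothTransition.one_of_one_le ?_
    rw [le_div_iff₀ (by linarith)]
    linarith
  have hd1 : Differentiable ℝ χ := hsm.differentiable (by norm_num)
  have hs1 : ContDiff ℝ 1 (deriv χ) := by
    have : ContDiff ℝ (1 + 1) χ := by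
      convert hsm using 1
      norm_num
    exact (contDiff_succ_iff_deriv.1 this).2.2
  have hd2 : Differentiable ℝ (deriv χ) := hs1.differentiable (by norm_num)
  have hc2 : Continuous (deriv (deriv χ)) := hs1.continuous_deriv (by norm_num)
  have hz1 : ∀ t, t ∉ Set.Icc (T / 4) (T / 2) → deriv χ t = 0 := by
    intro t ht
    rw [Set.mem_Icc, not_and_or, not_le, not_le] at ht
    rcases ht with ht | ht
    · have : χ =ᶠ[nhds t] fun _ => (0 : ℝ) := by
        filter_upwards [Iio_mem_nhds ht] with x hx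
        exact h0 x (le_of_lt hx)
      rw [this.deriv_eq]; simp
    · have : χ =ᶠ[nhds t] fun _ => (1 : ℝ) := by
        filter_upwards [Ioi_mem_nhds ht] with x hx
        exact h1 x (le_of_lt hx)
      rw [this.deriv_eq]; simp
  have hz1' : ∀ t, T / 2 ≤ t → deriv χ t = 0 := by
    intro t ht
    rcases ht.eq_or_lt with h | h
    · have hcl : closure (Set.Ioi (T / 2)) ⊆ {x | deriv χ x = 0} := by
        apply closure_minimal
        · intro x hx
          exact hz1 x (fun hh => by rw [Set.mem_Ioi] at hx; linarith [hh.2])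
        · exact isClosed_eq hs1.continuous continuous_const
      rw [closure_Ioi] at hcl
      exact hcl (Set.mem_Ici.2 ht)
    · exact hz1 t (fun hh => by linarith [hh.2])
  have hcs1 : HasCompactSupport (deriv χ) := HasCompactSupport.intro isCompact_Icc hz1
  have hcs2 : HasCompactSupport (deriv (deriv χ)) := hcs1.deriv
  obtain ⟨C1, hC1⟩ := hs1.continuous.bounded_above_of_compact_support hcs1
  obtain ⟨C2, hC2⟩ := hc2.bounded_above_of_compact_support hcs2
  have hC1n : 0 ≤ C1 := (norm_nonneg _).trans (hC1 0)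
  have hC2n : 0 ≤ C2 := (norm_nonneg _).trans (hC2 0)
  have hL1 : ∀ x y, |χ x - χ y| ≤ C1 * |x - y| := by
    intro x y
    have := (convex_univ (𝕜 := ℝ) (E := ℝ)).norm_image_sub_le_of_norm_hasDerivWithin_le (f := χ) (f' := deriv χ)
      (C := C1) (x := y) (y := x) (fun z _ => (hd1 z).hasDerivAt.hasDerivWithinAt)
      (fun z _ => hC1 z) (Set.mem_univ _) (Set.mem_univ _)
    simpa [Real.norm_eq_abs] using this
  have hL2 : ∀ x y, |deriv χ x - deriv χ y| ≤ C2 * |x - y| := by
    intro x y
    have := (convex_univ (𝕜 := ℝ) (E := ℝ)).norm_image_sub_le_of_norm_hasDerivWithin_le (f := deriv χ)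
      (f' := deriv (deriv χ))
      (C := C2) (x := y) (y := x) (fun z _ => (hd2 z).hasDerivAt.hasDerivWithinAt)
      (fun z _ => hC2 z) (Set.mem_univ _) (Set.mem_univ _)
    simpa [Real.norm_eq_abs] using this
  refine ⟨χ, 2 * (C1 + C2) + 1, by linarith, hsm.continuous,
    fun t => Real.smoothTransition.nonneg _, h0, h1, ?_⟩
  intro c s hc hs hcs
  have hE : 0 < Real.exp (-(c * T / 2)) := Real.exp_pos _
  have hexp : ∀ t, t < T / 2 + s → Real.exp (c * (t - T)) ≤ 2 * Real.exp (-(c * T / 2)) := by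
    intro t ht
    have h2 : c * (t - T) ≤ c * s + -(c * T / 2) := by nlinarith
    calc Real.exp (c * (t - T)) ≤ Real.exp (c * s + -(c * T / 2)) := Real.exp_le_exp.2 h2
      _ = Real.exp (c * s) * Real.exp (-(c * T / 2)) := Real.exp_add _ _
      _ ≤ 2 * Real.exp (-(c * T / 2)) := mul_le_mul_of_nonneg_right hcs hE.le
  -- main bounds
  have hB1 : ∀ t, |Real.exp (c * (t - T)) * (s⁻¹ * (χ t - χ (t - s)))| ≤
      2 * C1 * Real.exp (-(c * T / 2)) := by
    intro t
    rcases lt_or_ge t (T / 2 + s) with ht | ht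
    · have h2 := hL1 t (t - s)
      rw [sub_sub_cancel, abs_of_pos hs] at h2
      rw [abs_mul, abs_mul, abs_of_pos (Real.exp_pos _), abs_of_pos (inv_pos.2 hs)]
      have h3 : s⁻¹ * |χ t - χ (t - s)| ≤ C1 := by
        rw [inv_mul_le_iff₀ hs]; linarith
      calc Real.exp (c * (t - T)) * (s⁻¹ * |χ t - χ (t - s)|)
          ≤ (2 * Real.exp (-(c * T / 2))) * C1 :=
            mul_le_mul (hexp t ht) h3 (by positivity) (by positivity)
        _ = 2 * C1 * Real.exp (-(c * T / 2)) := by ring
    · rw [h1 t (by linarith), h1 (t - s) (by linarith)]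
      simp only [sub_self, mul_zero, abs_zero]
      positivity
  have hB2 : ∀ t, |Real.exp (c * (t - T)) * (s⁻¹ * (deriv χ t - deriv χ (t - s)))| ≤
      2 * C2 * Real.exp (-(c * T / 2)) := by
    intro t
    rcases lt_or_ge t (T / 2 + s) with ht | ht
    · have h2 := hL2 t (t - s)
      rw [sub_sub_cancel, abs_of_pos hs] at h2
      rw [abs_mul, abs_mul, abs_of_pos (Real.exp_pos _), abs_of_pos (inv_pos.2 hs)]
      have h3 : s⁻¹ * |deriv χ t - deriv χ (t - s)| ≤ C2 := by
        rw [inv_mul_le_iff₀ hs]; linarith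
      calc Real.exp (c * (t - T)) * (s⁻¹ * |deriv χ t - deriv χ (t - s)|)
          ≤ (2 * Real.exp (-(c * T / 2))) * C2 :=
            mul_le_mul (hexp t ht) h3 (by positivity) (by positivity)
        _ = 2 * C2 * Real.exp (-(c * T / 2)) := by ring
    · rw [hz1' t (by linarith), hz1' (t - s) (by linarith)]
      simp only [sub_self, mul_zero, abs_zero]
      positivity
  constructor
  · intro t
    rw [kap_eq]
    refine (hB1 t).trans ?_
    have : 2 * C1 ≤ (2 * (C1 + C2) + 1) * (1 + c) := by nlinarith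
    exact mul_le_mul_of_nonneg_right this hE.le
  · intro t t'
    have hder : ∀ x, HasDerivAt (kap χ c T s)
        (c * (Real.exp (c * (x - T)) * (s⁻¹ * (χ x - χ (x - s)))) +
          Real.exp (c * (x - T)) * (s⁻¹ * (deriv χ x - deriv χ (x - s)))) x := by
      intro x
      have hfun : kap χ c T s = fun t => Real.exp (c * (t - T)) * (s⁻¹ * (χ t - χ (t - s))) := by
        funext t; exact kap_eq χ c T s t
      rw [hfun]
      have e1 : HasDerivAt (fun t : ℝ => Real.exp (c * (t - T))) (Real.exp (c * (x - T)) * c) x := by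
        have := ((hasDerivAt_id x).sub_const T).const_mul c
        simpa using this.exp
      have e2 : HasDerivAt (fun t : ℝ => χ (t - s)) (deriv χ (x - s)) x := by
        exact HasDerivAt.comp_sub_const x s (hd1 (x - s)).hasDerivAt
      have e3 := (((hd1 x).hasDerivAt.sub e2).const_mul s⁻¹)
      have e4 := e1.mul e3
      refine HasDerivAt.congr_deriv (f := fun t => Real.exp (c * (t - T)) * (s⁻¹ * (χ t - χ (t - s)))) e4 ?_
      simp only [Pi.sub_apply]
      ring
    have hbd : ∀ x, ‖c * (Real.exp (c * (x - T)) * (s⁻¹ * (χ x - χ (x - s)))) +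
          Real.exp (c * (x - T)) * (s⁻¹ * (deriv χ x - deriv χ (x - s)))‖ ≤
          (2 * (C1 + C2) + 1) * (1 + c) * Real.exp (-(c * T / 2)) := by
      intro x
      refine (norm_add_le _ _).trans ?_
      rw [Real.norm_eq_abs, Real.norm_eq_abs, abs_mul c, abs_of_nonneg hc]
      have a1 := mul_le_mul_of_nonneg_left (hB1 x) hc
      have a2 := hB2 x
      have a3 : c * (2 * C1) + 2 * C2 ≤ (2 * (C1 + C2) + 1) * (1 + c) := by nlinarith [mul_nonneg hc hC1n, mul_nonneg hc hC2n]
      have a4 := mul_le_mul_of_nonneg_right a3 hE.le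
      linarith
    have := (convex_univ (𝕜 := ℝ) (E := ℝ)).norm_image_sub_le_of_norm_hasDerivWithin_le
      (f := kap χ c T s) (x := t') (y := t) (fun z _ => (hder z).hasDerivWithinAt)
      (fun z _ => hbd z) (Set.mem_univ _) (Set.mem_univ _)
    simpa [Real.norm_eq_abs] using this

end Pool.Agent.Helper676.PC
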