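import Pool.Agent.Helper676.PC1

set_option autoImplicit false

/-! Poincaré inequality for functions vanishing on a set of positive measure. -/

namespace Pool.Agent.Helper676.PC

open MeasureTheory Filter Topology Set InnerProductSpace Metric

variable {n : ℕ}

lemma meas_indicator_of_continuousOn {α : Type*} [TopologicalSpace α] [MeasurableSpace α]
    [BorelSpace α] [Zero α] {f : E n → α} {B : Set (E n)} (hB : IsOpen B) (hf : ContinuousOn f B) :
    Measurable (B.indicator f) := by
  classical
  have h1 : Measurable (B.piecewise f (fun _ => (0 : α))) :=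
    hf.measurable_piecewise continuousOn_const hB.measurableSet
  rwa [← piecewise_eq_indicator]

/-- Poincaré inequality on balls for functions vanishing on `S`. -/
lemma poincare_vanish {R : ℝ} {f : E n → ℝ} (hf : ContDiffOn ℝ 1 f (ball (0 : E n) R))
    {S : Set (E n)} (hS : MeasurableSet S) (hSB : S ⊆ ball (0 : E n) R) (hfS : ∀ x ∈ S, f x = 0) :
    volume S * ∫⁻ x in ball (0 : E n) R, ENNReal.ofReal (f x ^ 2) ≤
      ENNReal.ofReal ((2 * R) ^ 2) * volume (ball (0 : E n) (2 * R)) *
        ∫⁻ x in ball (0 : E n) R, ENNReal.ofReal (‖gradient f x‖ ^ 2) := by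
  set B := ball (0 : E n) R with hBdef
  have hB : IsOpen B := isOpen_ball
  have hcv : Convex ℝ B := convex_ball _ _
  set J := ∫⁻ x in B, ENNReal.ofReal (‖gradient f x‖ ^ 2) with hJ
  set F : E n → ENNReal := B.indicator (fun x => ENNReal.ofReal (f x ^ 2)) with hF
  have hFm : Measurable F := meas_indicator_of_continuousOn hB
    (ENNReal.continuous_ofReal.comp_continuousOn (hf.continuousOn.pow 2))
  set G : E n → ENNReal := S.indicator (fun _ => 1) with hG
  have hGm : Measurable G := measurable_const.indicator hS
  -- LHS as a double integral
  have e1 : volume S * ∫⁻ x in B, ENNReal.ofReal (f x ^ 2) =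
      ∫⁻ h : E n, ∫⁻ x : E n, F x * G (x + h) := by
    rw [lintegral_lintegral_swap]
    · have : ∀ x : E n, ∫⁻ h : E n, F x * G (x + h) = F x * volume S := by
        intro x
        rw [lintegral_const_mul]
        · congr 1
          have : ∫⁻ h : E n, G (x + h) = ∫⁻ h, G h := lintegral_add_left_eq_self G x
          rw [this, hG, lintegral_indicator hS]
          simp
        · exact hGm.comp (measurable_const_add x)
      simp only [this]
      rw [lintegral_mul_const _ hFm, hF, lintegral_indicator hB.measurableSet, mul_comm]
    · apply Measurable.aemeasurable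
      apply Measurable.mul
      · exact hFm.comp measurable_snd
      · exact hGm.comp (measurable_snd.add measurable_fst)
  rw [e1]
  have key : ∀ h : E n, ∫⁻ x : E n, F x * G (x + h) ≤
      (ball (0 : E n) (2 * R)).indicator (fun _ => ENNReal.ofReal ((2 * R) ^ 2) * J) h := by
    intro h
    by_cases hh : h ∈ ball (0 : E n) (2 * R)
    · rw [indicator_of_mem hh]
      have hn : ‖h‖ < 2 * R := by simpa using hh
      calc ∫⁻ x : E n, F x * G (x + h)
          ≤ ∫⁻ x : E n, {x | x ∈ B ∧ x + h ∈ B}.indicator
              (fun x => ENNReal.ofReal ((f (x + h) - f x) ^ 2)) x := by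
            apply lintegral_mono
            intro x
            by_cases hx : x ∈ B
            · by_cases hxh : x + h ∈ S
              · have hxB : x + h ∈ B := hSB hxh
                have hm : x ∈ {x | x ∈ B ∧ x + h ∈ B} := ⟨hx, hxB⟩
                simp only [hF, hG]
                rw [indicator_of_mem hm, indicator_of_mem hx, indicator_of_mem hxh, hfS _ hxh]
                simp
              · simp only [hG]
                rw [indicator_of_notMem hxh]; simp
            · simp only [hF]
              rw [indicator_of_notMem hx]; simp
        _ = ∫⁻ x in {x | x ∈ B ∧ x + h ∈ B}, ENNReal.ofReal ((f (x + h) - f x) ^ 2) := by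
            rw [lintegral_indicator]
            exact hB.measurableSet.inter ((measurable_add_const h) hB.measurableSet)
        _ ≤ ENNReal.ofReal (‖h‖ ^ 2) * J := trans_le hB hcv hf h
        _ ≤ ENNReal.ofReal ((2 * R) ^ 2) * J := by
            refine mul_le_mul' (ENNReal.ofReal_le_ofReal ?_) le_rfl
            exact pow_le_pow_left₀ (norm_nonneg _) hn.le 2
    · rw [indicator_of_notMem hh]
      apply le_of_eq
      rw [lintegral_eq_zero_iff]
      · filter_upwards with x
        by_contra hne
        simp only [Pi.zero_apply, mul_eq_zero, not_or] at hne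
        have hx : x ∈ B := by
          by_contra h'
          exact hne.1 (by simp only [hF]; rw [indicator_of_notMem h'])
        have hxh : x + h ∈ S := by
          by_contra h'
          exact hne.2 (by simp only [hG]; rw [indicator_of_notMem h'])
        apply hh
        have h1 : ‖x‖ < R := by simpa [hBdef] using hx
        have h2 : ‖x + h‖ < R := by simpa [hBdef] using hSB hxh
        have : ‖h‖ ≤ ‖x + h‖ + ‖x‖ := by
          have : h = (x + h) - x := by abel
          calc ‖h‖ = ‖(x + h) - x‖ := by rw [← this]
            _ ≤ _ := norm_sub_le _ _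
        simp only [mem_ball, dist_zero_right]
        linarith
      · exact hFm.mul (hGm.comp (measurable_add_const h))
  calc ∫⁻ h : E n, ∫⁻ x : E n, F x * G (x + h)
      ≤ ∫⁻ h : E n, (ball (0 : E n) (2 * R)).indicator
          (fun _ => ENNReal.ofReal ((2 * R) ^ 2) * J) h := lintegral_mono key
    _ = ENNReal.ofReal ((2 * R) ^ 2) * J * volume (ball (0 : E n) (2 * R)) := by
        rw [lintegral_indicator isOpen_ball.measurableSet, lintegral_const]
        simp
    _ = _ := by ring

end Pool.Agent.Helper676.PC
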