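import Pool.Agent.Helper676.PC2

set_option autoImplicit false

/-! Truncated powers and the Stampacchia sup estimate. -/

namespace Pool.Agent.Helper676.PC

open MeasureTheory Filter Topology Set InnerProductSpace Metric

variable {n : ℕ}

/-- truncated power `(u-k)_+^m` on `O`, zero outside. -/
noncomputable def zp (O : Set (E n)) (u : E n → ℝ) (k : ℝ) (m : ℕ) : E n → ℝ :=
  O.indicator (fun x => (max (u x - k) 0) ^ m)

lemma zp_mem {O : Set (E n)} {u : E n → ℝ} {k : ℝ} {m : ℕ} {x : E n} (hx : x ∈ O) :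
    zp O u k m x = (max (u x - k) 0) ^ m := indicator_of_mem hx _

lemma zp_notMem {O : Set (E n)} {u : E n → ℝ} {k : ℝ} {m : ℕ} {x : E n} (hx : x ∉ O) :
    zp O u k m x = 0 := indicator_of_notMem hx _

lemma zp_nonneg {O : Set (E n)} {u : E n → ℝ} {k : ℝ} {m : ℕ} {x : E n} :
    0 ≤ zp O u k m x :=
  indicator_nonneg (fun _ _ => pow_nonneg (le_max_right _ _) _) _

lemma zp_glue {O : Set (E n)} (hO : IsOpen O) {u : E n → ℝ} (hu : ContDiffOn ℝ 1 u O) {k : ℝ}
    (hK : IsCompact {x | x ∈ O ∧ k ≤ u x}) (m : ℕ) :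
    ContDiff ℝ 1 (zp O u k (m + 2)) ∧ HasCompactSupport (zp O u k (m + 2)) ∧
      tsupport (zp O u k (m + 2)) ⊆ {x | x ∈ O ∧ k ≤ u x} := by
  apply glue hO hK (fun x hx => hx.1)
  · have h1 : ContDiffOn ℝ 1 (fun x => (max (u x - k) 0) ^ (m + 2)) O :=
      (contDiff_pp m).comp_contDiffOn (hu.sub contDiffOn_const)
    refine h1.congr fun x hx => zp_mem hx
  · intro x hx
    by_cases hxO : x ∈ O
    · have : u x < k := by
        by_contra h
        exact hx ⟨hxO, not_lt.1 h⟩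
      rw [zp_mem hxO, max_eq_right (by linarith)]
      simp
    · exact zp_notMem hxO

lemma grad_zp {O : Set (E n)} (hO : IsOpen O) {u : E n → ℝ} (hu : ContDiffOn ℝ 1 u O) {k : ℝ}
    (m : ℕ) {x : E n} (hx : x ∈ O) :
    gradient (zp O u k (m + 2)) x = ((m + 2 : ℝ) * (max (u x - k) 0) ^ (m + 1)) • gradient u x := by
  have e : zp O u k (m + 2) =ᶠ[𝓝 x] fun y => (fun s : ℝ => (max s 0) ^ (m + 2)) (u y - k) := by
    filter_upwards [hO.mem_nhds hx] with y hy
    exact zp_mem hy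
  have hd : DifferentiableAt ℝ u x :=
    (hu.differentiableOn (by norm_num)).differentiableAt (hO.mem_nhds hx)
  rw [grad_congr e, grad_comp (hasDerivAt_pp m (u x - k)) (hd.sub_const k), grad_sub_const]

lemma grad_zp_notMem {O : Set (E n)} (hO : IsOpen O) {u : E n → ℝ} (hu : ContDiffOn ℝ 1 u O)
    {k : ℝ} (hK : IsCompact {x | x ∈ O ∧ k ≤ u x}) (m : ℕ) {x : E n} (hx : x ∉ O) :
    gradient (zp O u k (m + 2)) x = 0 :=
  grad_eq_zero_of_notMem fun h => hx ((zp_glue hO hu hK m).2.2 h).1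

lemma volReal_ball (n : ℕ) {r : ℝ} (hr : 0 < r) :
    volume.real (ball (0 : E n) r) = r ^ n * volume.real (ball (0 : E n) 1) := by
  rw [measureReal_def, Measure.addHaar_ball_of_pos _ _ hr, ENNReal.toReal_mul,
    ENNReal.toReal_ofReal (by positivity), measureReal_def]
  simp

lemma volReal_ball_pos (n : ℕ) {r : ℝ} (hr : 0 < r) : 0 < volume.real (ball (0 : E n) r) := by
  rw [measureReal_def]
  exact ENNReal.toReal_pos (Metric.measure_ball_pos volume _ hr).ne' measure_ball_lt_top.ne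

lemma young4 {s z : ℝ} (hs : 0 ≤ s) (hz : 0 ≤ z) : 4 * s * z ^ 3 ≤ z ^ 4 / 4 + 1728 * s ^ 4 := by
  have : z ^ 4 / 4 - 4 * s * z ^ 3 + 1728 * s ^ 4 =
      (z - 12 * s) ^ 2 * (z ^ 2 + 8 * s * z + 48 * s ^ 2) / 4 := by ring
  have h2 : 0 ≤ (z - 12 * s) ^ 2 * (z ^ 2 + 8 * s * z + 48 * s ^ 2) / 4 := by positivity
  linarith

lemma glue0 {α : Type*} [TopologicalSpace α] [Zero α] {F : E n → α} {O K : Set (E n)}
    (hO : IsOpen O) (hK : IsCompact K) (hKO : K ⊆ O)
    (hF : ContinuousOn F O) (h0 : ∀ x, x ∉ K → F x = 0) :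
    Continuous F ∧ HasCompactSupport F := by
  refine ⟨?_, HasCompactSupport.intro hK h0⟩
  rw [continuous_iff_continuousAt]
  intro x
  by_cases hx : x ∈ O
  · exact hF.continuousAt (hO.mem_nhds hx)
  · have hx' : x ∈ Kᶜ := fun h => hx (hKO h)
    have : F =ᶠ[𝓝 x] fun _ => 0 := by
      filter_upwards [hK.isClosed.isOpen_compl.mem_nhds hx'] with y hy
      exact h0 y hy
    exact continuousAt_const.congr this.symm

/-- Energy estimate at one level. -/
lemma level_estimate {K : ℝ} (hK : 1 ≤ K) {O : Set (E n)} {a u : E n → ℝ} {b : E n → E n}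
    {k β Λ ε : ℝ} (hO : IsOpen O) (ha : ContinuousOn a O) (haK : ∀ x ∈ O, K⁻¹ ≤ a x ∧ a x ≤ K)
    (hu : ContDiffOn ℝ 1 u O) (hb : ContinuousOn b O) (hbβ : ∀ x ∈ O, ‖b x‖ ≤ β) (hβ : 0 ≤ β)
    (hΛ : 0 ≤ Λ) (hε : 0 < ε) (hcpt : IsCompact {x | x ∈ O ∧ k ≤ u x})
    (hweak : ∀ ψ : E n → ℝ, ContDiff ℝ 1 ψ → HasCompactSupport ψ → tsupport ψ ⊆ O →
      (∀ x, 0 ≤ ψ x) → ∫ x, a x * inner ℝ (gradient u x) (gradient ψ x) ≤
        (∫ x, inner ℝ (b x) (gradient ψ x)) + Λ * ∫ x, ψ x)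
    (hvol : volume.real {x | x ∈ O ∧ k < u x} ≤ volume.real (ball (0 : E n) ε) / 2) :
    ∫ x, zp O u k 2 x ^ 2 ≤ 3456 * K ^ 4 * (ε * (β + ε * Λ)) ^ 4 *
      volume.real {x | x ∈ O ∧ k < u x} := by
  have hK0 : 0 < K := by linarith
  have hKi : 0 < K⁻¹ := inv_pos.2 hK0
  set S := {x | x ∈ O ∧ k < u x} with hSdef
  set Kc := {x | x ∈ O ∧ k ≤ u x} with hKc
  have hKcO : Kc ⊆ O := fun x hx => hx.1
  have hSK : S ⊆ Kc := fun x hx => ⟨hx.1, hx.2.le⟩
  have hSopen : IsOpen S := by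
    have : S = O ∩ u ⁻¹' (Ioi k) := by ext x; rfl
    rw [this]
    exact hu.continuousOn.isOpen_inter_preimage hO isOpen_Ioi
  have hSfin : volume S ≠ ⊤ := ((measure_mono hSK).trans_lt hcpt.measure_lt_top).ne
  obtain ⟨hφ1, hφ2, hφ3⟩ := zp_glue hO hu hcpt 0
  obtain ⟨hψ1, hψ2, hψ3⟩ := zp_glue hO hu hcpt 1
  simp only [Nat.reduceAdd, zero_add] at hφ1 hφ2 hφ3 hψ1 hψ2 hψ3
  set φ := zp O u k 2 with hφ
  set ψ := zp O u k 3 with hψ
  have hw := hweak ψ hψ1 hψ2 (hψ3.trans hKcO) (fun x => zp_nonneg)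
  -- gradients
  have gφ : ∀ x ∈ O, gradient φ x = (2 * (max (u x - k) 0)) • gradient u x := by
    intro x hx
    have := grad_zp hO hu (k := k) 0 hx
    simpa using this
  have gψ : ∀ x ∈ O, gradient ψ x = (3 * (max (u x - k) 0) ^ 2) • gradient u x := by
    intro x hx
    have := grad_zp hO hu (k := k) 1 hx
    rw [hψ]
    convert this using 2
    norm_num
  have gφ0 : ∀ x, x ∉ O → gradient φ x = 0 := fun x hx => grad_zp_notMem hO hu hcpt 0 hx
  have gψ0 : ∀ x, x ∉ O → gradient ψ x = 0 := fun x hx => grad_zp_notMem hO hu hcpt 1 hx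
  -- the dissipation
  set D : E n → ℝ := fun x => ‖gradient φ x‖ ^ 2 / 4 with hD
  have hDc : Continuous D := by
    have := (continuous_grad hφ1).norm
    simp only [hD]; fun_prop
  have hDi : Integrable D := by
    apply hDc.integrable_of_hasCompactSupport
    exact (hasCompactSupport_grad hφ2).comp_left (g := fun v => ‖v‖ ^ 2 / 4) (by simp)
  have hφi : Integrable φ := hφ1.continuous.integrable_of_hasCompactSupport hφ2
  have hψi : Integrable ψ := hψ1.continuous.integrable_of_hasCompactSupport hψ2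
  have hψt : ∀ x, x ∉ Kc → gradient ψ x = 0 := fun x hx =>
    grad_eq_zero_of_notMem fun h => hx (hψ3 h)
  have hI1 : Integrable (fun x => a x * inner ℝ (gradient u x) (gradient ψ x)) := by
    have := glue0 (F := fun x => a x * inner ℝ (gradient u x) (gradient ψ x)) hO hcpt hKcO
      (ha.mul ((continuousOn_grad hO hu).inner (continuous_grad hψ1).continuousOn))
      (fun x hx => by simp [hψt x hx])
    exact this.1.integrable_of_hasCompactSupport this.2
  have hI2 : Integrable (fun x => inner ℝ (b x) (gradient ψ x)) := by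
    have := glue0 (F := fun x => inner ℝ (b x) (gradient ψ x)) hO hcpt hKcO
      (hb.inner (continuous_grad hψ1).continuousOn)
      (fun x hx => by simp [hψt x hx])
    exact this.1.integrable_of_hasCompactSupport this.2
  have p1 : ∀ x, 3 * K⁻¹ * D x ≤ a x * inner ℝ (gradient u x) (gradient ψ x) := by
    intro x
    by_cases hx : x ∈ O
    · simp only [hD]
      rw [gφ x hx, gψ x hx, norm_smul, inner_smul_right, real_inner_self_eq_norm_sq,
        Real.norm_of_nonneg (by positivity : 0 ≤ 2 * max (u x - k) 0)]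
      have h1 := (haK x hx).1
      have h2 : 0 ≤ (max (u x - k) 0) ^ 2 * ‖gradient u x‖ ^ 2 := by positivity
      nlinarith
    · simp only [hD]
      rw [gφ0 x hx, gψ0 x hx]; simp
  have p2 : ∀ x, inner ℝ (b x) (gradient ψ x) ≤ 3 / 2 * K⁻¹ * D x + 3 / 2 * K * β ^ 2 * φ x := by
    intro x
    by_cases hx : x ∈ O
    · simp only [hD]
      rw [gφ x hx, gψ x hx, norm_smul, inner_smul_right,
        Real.norm_of_nonneg (by positivity : 0 ≤ 2 * max (u x - k) 0), hφ, zp_mem hx]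
      have h1 := real_inner_le_norm (b x) (gradient u x)
      have h2 := hbβ x hx
      set z := max (u x - k) 0 with hz
      set N := ‖gradient u x‖ with hN
      have h3 : inner ℝ (b x) (gradient u x) ≤ β * N :=
        h1.trans (mul_le_mul_of_nonneg_right h2 (norm_nonneg _))
      have h4 : β * N ≤ 1 / 2 * K⁻¹ * N ^ 2 + 1 / 2 * K * β ^ 2 := by
        have h5 : 0 ≤ (K⁻¹ * N - β) ^ 2 * K := by positivity
        have h6 : K⁻¹ * K = 1 := inv_mul_cancel₀ hK0.ne'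
        have h7 : (K⁻¹ * N - β) ^ 2 * K = K⁻¹ * N ^ 2 * (K⁻¹ * K) - 2 * (K⁻¹ * K) * N * β + K * β ^ 2 := by
          ring
        rw [h6] at h7
        rw [h7] at h5
        linarith
      have h5 : 0 ≤ 3 * z ^ 2 := by positivity
      calc 3 * z ^ 2 * inner ℝ (b x) (gradient u x)
          ≤ 3 * z ^ 2 * (1 / 2 * K⁻¹ * N ^ 2 + 1 / 2 * K * β ^ 2) :=
            mul_le_mul_of_nonneg_left (h3.trans h4) h5
        _ = _ := by ring
    · simp only [hD]
      rw [gφ0 x hx, gψ0 x hx, hφ, zp_notMem hx]; simp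
  have q1 : 3 * K⁻¹ * ∫ x, D x ≤ 3 / 2 * K⁻¹ * (∫ x, D x) + 3 / 2 * K * β ^ 2 * (∫ x, φ x) +
      Λ * ∫ x, ψ x := by
    calc 3 * K⁻¹ * ∫ x, D x = ∫ x, 3 * K⁻¹ * D x := by rw [integral_const_mul]
      _ ≤ ∫ x, a x * inner ℝ (gradient u x) (gradient ψ x) :=
          integral_mono (hDi.const_mul _) hI1 p1
      _ ≤ _ := hw
      _ ≤ (∫ x, (3 / 2 * K⁻¹ * D x + 3 / 2 * K * β ^ 2 * φ x)) + Λ * ∫ x, ψ x := by
          have := integral_mono hI2 ((hDi.const_mul (3 / 2 * K⁻¹)).add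
            (hφi.const_mul (3 / 2 * K * β ^ 2))) p2
          simp only [Pi.add_apply] at this
          linarith
      _ = _ := by
          rw [integral_add (hDi.const_mul _) (hφi.const_mul _), integral_const_mul,
            integral_const_mul]
  have hψ0 : 0 ≤ ∫ x, ψ x := integral_nonneg fun x => zp_nonneg
  have q2 : ∫ x, D x ≤ K ^ 2 * β ^ 2 * (∫ x, φ x) + K * Λ * ∫ x, ψ x := by
    have h1 : 3 / 2 * K⁻¹ * ∫ x, D x ≤ 3 / 2 * K * β ^ 2 * (∫ x, φ x) + Λ * ∫ x, ψ x := by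
      linarith
    have h2 : K * (3 / 2 * K⁻¹ * ∫ x, D x) ≤
        K * (3 / 2 * K * β ^ 2 * (∫ x, φ x) + Λ * ∫ x, ψ x) :=
      mul_le_mul_of_nonneg_left h1 hK0.le
    have h3 : K * (3 / 2 * K⁻¹ * ∫ x, D x) = 3 / 2 * ∫ x, D x := by
      field_simp
    rw [h3] at h2
    have h4 : 0 ≤ K * (Λ * ∫ x, ψ x) := by positivity
    nlinarith
  -- Faber-Krahn
  have hφS : ∀ x, x ∉ S → φ x = 0 := by
    intro x hx
    by_cases hxO : x ∈ O
    · rw [hφ, zp_mem hxO]
      have : u x ≤ k := by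
        by_contra h
        exact hx ⟨hxO, not_le.1 h⟩
      rw [max_eq_right (by linarith)]; simp
    · exact zp_notMem hxO
  have q3 := faberKrahn hφ1 hφ2 hε hSopen.measurableSet hφS hvol hSfin
  have q4 : ∫ x, ‖gradient φ x‖ ^ 2 = 4 * ∫ x, D x := by
    rw [← integral_const_mul]; congr 1; ext x; simp only [hD]; ring
  rw [q4] at q3
  set c := ε ^ 2 * K ^ 2 * β ^ 2 with hc
  set s := ε ^ 2 * K * Λ with hs
  have hs0 : 0 ≤ s := by positivity
  have hc0 : 0 ≤ c := by positivity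
  have q5 : ∫ x, φ x ^ 2 ≤ 4 * c * (∫ x, φ x) + 4 * s * ∫ x, ψ x := by
    have h1 : ε ^ 2 * (4 * ∫ x, D x) ≤ ε ^ 2 * (4 * (K ^ 2 * β ^ 2 * (∫ x, φ x) +
        K * Λ * ∫ x, ψ x)) := by gcongr
    refine q3.trans (h1.trans (le_of_eq ?_))
    rw [hc, hs]; ring
  have hφsq : Integrable (fun x => φ x ^ 2) := integrable_sq hφ1.continuous hφ2
  have hSi : Integrable (S.indicator (fun _ => (1:ℝ))) :=
    (integrable_indicator_iff hSopen.measurableSet).2 (integrableOn_const hSfin (by simp))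
  have p3 : ∀ x, 4 * c * φ x + 4 * s * ψ x ≤ 1 / 2 * φ x ^ 2 +
      (16 * c ^ 2 + 1728 * s ^ 4) * S.indicator (fun _ => (1:ℝ)) x := by
    intro x
    by_cases hx : x ∈ S
    · rw [indicator_of_mem hx, hφ, hψ, zp_mem hx.1, zp_mem hx.1]
      set z := max (u x - k) 0 with hz
      have hz0 : 0 ≤ z := le_max_right _ _
      have h1 := young4 hs0 hz0
      nlinarith [sq_nonneg (z ^ 2 / 2 - 4 * c)]
    · rw [indicator_of_notMem hx, hφS x hx]
      have : ψ x = 0 := by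
        by_cases hxO : x ∈ O
        · rw [hψ, zp_mem hxO]
          have : u x ≤ k := by
            by_contra h
            exact hx ⟨hxO, not_le.1 h⟩
          rw [max_eq_right (by linarith)]; simp
        · exact zp_notMem hxO
      rw [this]; simp
  have q6 : 4 * c * (∫ x, φ x) + 4 * s * (∫ x, ψ x) ≤ 1 / 2 * (∫ x, φ x ^ 2) +
      (16 * c ^ 2 + 1728 * s ^ 4) * volume.real S := by
    have h1 := integral_mono ((hφi.const_mul (4 * c)).add (hψi.const_mul (4 * s)))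
      ((hφsq.const_mul (1 / 2)).add (hSi.const_mul (16 * c ^ 2 + 1728 * s ^ 4))) p3
    simp only [Pi.add_apply] at h1
    rw [integral_add (hφi.const_mul _) (hψi.const_mul _),
      integral_add (hφsq.const_mul _) (hSi.const_mul _), integral_const_mul, integral_const_mul,
      integral_const_mul, integral_const_mul, integral_indicator hSopen.measurableSet] at h1
    simpa using h1
  have q7 : ∫ x, φ x ^ 2 ≤ (32 * c ^ 2 + 3456 * s ^ 4) * volume.real S := by linarith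
  refine q7.trans ?_
  apply mul_le_mul_of_nonneg_right _ measureReal_nonneg
  have h1 : 3456 * K ^ 4 * (ε * (β + ε * Λ)) ^ 4 - (32 * c ^ 2 + 3456 * s ^ 4) =
      K ^ 4 * ε ^ 4 * (3424 * β ^ 4 + 3456 * (4 * β ^ 3 * (ε * Λ) + 6 * β ^ 2 * (ε * Λ) ^ 2
        + 4 * β * (ε * Λ) ^ 3)) := by
    rw [hc, hs]; ring
  have h2 : 0 ≤ K ^ 4 * ε ^ 4 * (3424 * β ^ 4 + 3456 * (4 * β ^ 3 * (ε * Λ) +
      6 * β ^ 2 * (ε * Λ) ^ 2 + 4 * β * (ε * Λ) ^ 3)) := by positivity
  linarith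

end Pool.Agent.Helper676.PC
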