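import Pool.Agent.Helper676.PC3

set_option autoImplicit false

/-! Stampacchia's sup estimate. -/

namespace Pool.Agent.Helper676.PC

open MeasureTheory Filter Topology Set InnerProductSpace Metric

variable {n : ℕ}

/-- the constant in the sup estimate -/
noncomputable def CST (n : ℕ) (K : ℝ) : ℝ := 884736 * 2 ^ n * K

/-- Stampacchia's sup estimate. -/
lemma stampacchia (hn : 0 < n) {K : ℝ} (hK : 1 ≤ K) {O : Set (E n)} {a u : E n → ℝ} {b : E n → E n}
    {k0 β Λ ε : ℝ} (hO : IsOpen O) (ha : ContinuousOn a O) (haK : ∀ x ∈ O, K⁻¹ ≤ a x ∧ a x ≤ K)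
    (hu : ContDiffOn ℝ 1 u O) (hb : ContinuousOn b O) (hbβ : ∀ x ∈ O, ‖b x‖ ≤ β) (hβ : 0 ≤ β)
    (hΛ : 0 ≤ Λ) (hε : 0 < ε) (hcpt : ∀ k, k0 < k → IsCompact {x | x ∈ O ∧ k ≤ u x})
    (hweak : ∀ ψ : E n → ℝ, ContDiff ℝ 1 ψ → HasCompactSupport ψ → tsupport ψ ⊆ O →
      (∀ x, 0 ≤ ψ x) → ∫ x, a x * inner ℝ (gradient u x) (gradient ψ x) ≤
        (∫ x, inner ℝ (b x) (gradient ψ x)) + Λ * ∫ x, ψ x)
    (hvol : volume {x | x ∈ O ∧ k0 < u x} ≤
      ENNReal.ofReal (volume.real (ball (0 : E n) ε) / 2)) :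
    ∀ x ∈ O, u x ≤ k0 + CST n K * (ε * (β + ε * Λ)) := by
  have hK0 : 0 < K := by linarith
  set q := ε * (β + ε * Λ) with hq
  have hq0 : 0 ≤ q := by positivity
  have hC1 : 1 ≤ CST n K := by
    have : (1:ℝ) ≤ 2 ^ n := one_le_pow₀ (by norm_num)
    simp only [CST]
    nlinarith
  -- it suffices to prove it with an extra `η`
  suffices H : ∀ η : ℝ, 0 < η → ∀ x ∈ O, u x ≤ k0 + (CST n K * q + η) by
    intro x hx
    apply le_of_forall_pos_le_add
    intro η hη
    have := H η hη x hx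
    linarith
  intro η hη
  set d := CST n K * q + η with hd
  have hd0 : 0 < d := by positivity
  set lev : ℕ → ℝ := fun j => k0 + d * (1 - (1/2) ^ (j + 1)) with hlev
  have hlevk0 : ∀ j, k0 < lev j := by
    intro j
    have : ((1:ℝ)/2) ^ (j + 1) < 1 := pow_lt_one₀ (by norm_num) (by norm_num) (by omega)
    simp only [hlev]
    have : 0 < d * (1 - (1/2) ^ (j + 1)) := mul_pos hd0 (by linarith)
    linarith
  have hlevd : ∀ j, lev j < k0 + d := by
    intro j
    have : (0:ℝ) < (1/2) ^ (j + 1) := by positivity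
    simp only [hlev]
    nlinarith
  have hstep : ∀ j, lev (j + 1) - lev j = d * (1/2) ^ (j + 2) := by
    intro j; simp only [hlev]; ring
  set μ : ℕ → ℝ := fun j => volume.real {x | x ∈ O ∧ lev j < u x} with hμ
  have hfin : ∀ j, volume {x | x ∈ O ∧ lev j < u x} ≠ ⊤ := by
    intro j
    have hsub : {x | x ∈ O ∧ lev j < u x} ⊆ {x | x ∈ O ∧ lev j ≤ u x} :=
      fun x hx => ⟨hx.1, hx.2.le⟩
    exact ((measure_mono hsub).trans_lt (hcpt _ (hlevk0 j)).measure_lt_top).ne
  have hV0 : 0 ≤ volume.real (ball (0 : E n) ε) := measureReal_nonneg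
  have h0 : μ 0 ≤ volume.real (ball (0 : E n) ε) / 2 := by
    have hsub : {x | x ∈ O ∧ lev 0 < u x} ⊆ {x | x ∈ O ∧ k0 < u x} :=
      fun x hx => ⟨hx.1, (hlevk0 0).trans hx.2⟩
    have h1 : volume {x | x ∈ O ∧ lev 0 < u x} ≤
        ENNReal.ofReal (volume.real (ball (0 : E n) ε) / 2) := (measure_mono hsub).trans hvol
    have h2 := ENNReal.toReal_mono ENNReal.ofReal_ne_top h1
    rwa [ENNReal.toReal_ofReal (by positivity)] at h2
  -- the recursion
  have hrec : ∀ j, μ j ≤ volume.real (ball (0 : E n) (ε * (1/2) ^ j)) / 2 := by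
    intro j
    induction j with
    | zero => simpa using h0
    | succ j ih =>
      have hεj : 0 < ε * (1/2) ^ j := by positivity
      have hεj1 : 0 < ε * (1/2) ^ (j + 1) := by positivity
      have h1 := level_estimate hK hO ha haK hu hb hbβ hβ hΛ hεj (hcpt _ (hlevk0 j)) hweak ih
      -- Chebyshev
      have h2 : (d * (1/2) ^ (j + 2)) ^ 4 * μ (j + 1) ≤ ∫ x, zp O u (lev j) 2 x ^ 2 := by
        obtain ⟨hφ1, hφ2, hφ3⟩ := zp_glue hO hu (hcpt _ (hlevk0 j)) 0
        simp only [zero_add] at hφ1 hφ2 hφ3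
        have hi := integrable_sq hφ1.continuous hφ2
        have hSm : MeasurableSet {x | x ∈ O ∧ lev (j + 1) < u x} := by
          have : {x | x ∈ O ∧ lev (j + 1) < u x} = O ∩ u ⁻¹' (Ioi (lev (j + 1))) := by ext x; rfl
          rw [this]
          exact (hu.continuousOn.isOpen_inter_preimage hO isOpen_Ioi).measurableSet
        calc (d * (1/2) ^ (j + 2)) ^ 4 * μ (j + 1)
            = ∫ x in {x | x ∈ O ∧ lev (j + 1) < u x}, (d * (1/2) ^ (j + 2)) ^ 4 := by
              rw [setIntegral_const, smul_eq_mul, mul_comm]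
          _ ≤ ∫ x in {x | x ∈ O ∧ lev (j + 1) < u x}, zp O u (lev j) 2 x ^ 2 := by
              apply setIntegral_mono_on _ hi.integrableOn hSm
              · intro x hx
                rw [zp_mem hx.1]
                have h3 : d * (1/2) ^ (j + 2) ≤ max (u x - lev j) 0 := by
                  rw [← hstep j]
                  exact le_max_of_le_left (by linarith [hx.2])
                calc (d * (1/2) ^ (j + 2)) ^ 4 ≤ (max (u x - lev j) 0) ^ 4 :=
                      pow_le_pow_left₀ (by positivity) h3 4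
                  _ = _ := by ring
              · exact integrableOn_const (hfin _) enorm_ne_top
          _ ≤ _ := setIntegral_le_integral hi (ae_of_all _ fun x => by positivity)
      have h3 : (ε * (1/2) ^ j * (β + ε * (1/2) ^ j * Λ)) ≤ (1/2) ^ j * q := by
        rw [hq]
        have h4 : ((1:ℝ)/2) ^ j ≤ 1 := pow_le_one₀ (by norm_num) (by norm_num)
        have h5 : ε * (1/2) ^ j * Λ ≤ ε * Λ := by
          have : ε * (1/2) ^ j ≤ ε := by nlinarith
          exact mul_le_mul_of_nonneg_right this hΛ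
        calc ε * (1/2) ^ j * (β + ε * (1/2) ^ j * Λ) ≤ ε * (1/2) ^ j * (β + ε * Λ) := by gcongr
          _ = _ := by ring
      have hμj : 0 ≤ μ j := measureReal_nonneg
      have h4 : (d * (1/2) ^ (j + 2)) ^ 4 * μ (j + 1) ≤
          3456 * K ^ 4 * ((1/2) ^ j * q) ^ 4 * μ j := by
        refine h2.trans (h1.trans ?_)
        gcongr
      -- simplify
      have h5 : d ^ 4 * μ (j + 1) ≤ 884736 * K ^ 4 * q ^ 4 * μ j := by
        have e1 : (d * (1/2) ^ (j + 2)) ^ 4 * μ (j + 1) =
            ((1/2) ^ j) ^ 4 * (1/256) * (d ^ 4 * μ (j + 1)) := by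
          rw [pow_add]; ring
        have e2 : 3456 * K ^ 4 * ((1/2) ^ j * q) ^ 4 * μ j =
            ((1/2) ^ j) ^ 4 * (1/256) * (884736 * K ^ 4 * q ^ 4 * μ j) := by ring
        rw [e1, e2] at h4
        exact le_of_mul_le_mul_left h4 (by positivity)
      have h6 : 884736 * K ^ 4 * q ^ 4 * (2 ^ n) ≤ d ^ 4 := by
        have h7 : (CST n K * q) ^ 4 ≤ d ^ 4 := by
          apply pow_le_pow_left₀ (by positivity)
          rw [hd]; linarith
        refine le_trans ?_ h7
        simp only [CST]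
        have h8 : (1:ℝ) ≤ 2 ^ n := one_le_pow₀ (by norm_num)
        have e3 : (884736 * 2 ^ n * K * q) ^ 4 =
            884736 * K ^ 4 * q ^ 4 * 2 ^ n * (884736 ^ 3 * (2 ^ n) ^ 3) := by ring
        rw [e3]
        have h9 : (1:ℝ) ≤ 884736 ^ 3 * (2 ^ n) ^ 3 := by
          have : (1:ℝ) ≤ (2 ^ n) ^ 3 := one_le_pow₀ h8
          nlinarith
        have h10 : 0 ≤ 884736 * K ^ 4 * q ^ 4 * 2 ^ n := by positivity
        nlinarith
      have h7 : μ (j + 1) ≤ μ j / 2 ^ n := by
        rw [le_div_iff₀ (by positivity)]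
        have hμj1 : 0 ≤ μ (j + 1) := measureReal_nonneg
        have h8 : d ^ 4 * (μ (j + 1) * 2 ^ n) ≤ d ^ 4 * μ j := by
          calc d ^ 4 * (μ (j + 1) * 2 ^ n) = (d ^ 4 * μ (j + 1)) * 2 ^ n := by ring
            _ ≤ (884736 * K ^ 4 * q ^ 4 * μ j) * 2 ^ n := by gcongr
            _ = (884736 * K ^ 4 * q ^ 4 * 2 ^ n) * μ j := by ring
            _ ≤ d ^ 4 * μ j := by gcongr
        exact le_of_mul_le_mul_left h8 (by positivity)
      refine h7.trans ?_
      have e4 : volume.real (ball (0 : E n) (ε * (1/2) ^ (j + 1))) =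
          volume.real (ball (0 : E n) (ε * (1/2) ^ j)) / 2 ^ n := by
        rw [volReal_ball n hεj1, volReal_ball n hεj]
        rw [pow_succ, ← mul_assoc, mul_pow (ε * (1/2) ^ j), one_div, inv_pow 2 n]
        ring
      rw [e4]
      calc μ j / 2 ^ n ≤ (volume.real (ball (0 : E n) (ε * (1/2) ^ j)) / 2) / 2 ^ n := by gcongr
        _ = _ := by ring
  -- conclusion
  intro x hx
  by_contra hcon
  push Not at hcon
  set S := {y | y ∈ O ∧ k0 + d < u y} with hS
  have hSopen : IsOpen S := by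
    have : S = O ∩ u ⁻¹' (Ioi (k0 + d)) := by ext x; rfl
    rw [this]
    exact hu.continuousOn.isOpen_inter_preimage hO isOpen_Ioi
  have hSpos : 0 < volume S := hSopen.measure_pos volume ⟨x, hx, hcon⟩
  have hSle : ∀ j, volume.real S ≤ volume.real (ball (0 : E n) ε) / 2 * ((1/2) ^ n) ^ j := by
    intro j
    have h1 : volume.real S ≤ μ j :=
      measureReal_mono (fun y hy => ⟨hy.1, (hlevd j).trans hy.2⟩) (hfin j)
    have h2 := hrec j
    have hεj : 0 < ε * (1/2) ^ j := by positivity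
    rw [volReal_ball n hεj, mul_pow, ← pow_mul, mul_comm j n, pow_mul] at h2
    rw [volReal_ball n hε]
    linarith
  have hlim : Tendsto (fun j : ℕ => volume.real (ball (0 : E n) ε) / 2 * ((1/2) ^ n) ^ j) atTop
      (𝓝 (volume.real (ball (0 : E n) ε) / 2 * 0)) := by
    apply Tendsto.const_mul
    apply tendsto_pow_atTop_nhds_zero_of_lt_one (by positivity)
    exact pow_lt_one₀ (by norm_num) (by norm_num) hn.ne'
  have h1 : volume.real S ≤ 0 := by
    have := ge_of_tendsto' hlim hSle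
    simpa using this
  have hsub0 : S ⊆ {x | x ∈ O ∧ lev 0 < u x} := fun y hy => ⟨hy.1, (hlevd 0).trans hy.2⟩
  have hSfin : volume S ≠ ⊤ :=
    ((measure_mono hsub0).trans_lt (lt_top_iff_ne_top.2 (hfin 0))).ne
  have h2 : 0 < volume.real S := ENNReal.toReal_pos hSpos.ne' hSfin
  linarith

end Pool.Agent.Helper676.PC
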