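import Pool.Agent.Helper676.PC4

set_option autoImplicit false

/-! The logarithmic energy estimate. -/

namespace Pool.Agent.Helper676.PC

open MeasureTheory Filter Topology Set InnerProductSpace Metric

variable {n : ℕ}

/-- `Ξ(w) = √(1+w₊²) - 1` -/
noncomputable def Xi (w : ℝ) : ℝ := Real.sqrt (1 + (max w 0) ^ 2) - 1

/-- `Φ(w) = w₊² / (1+w₊²)` -/
noncomputable def Phi (w : ℝ) : ℝ := (max w 0) ^ 2 / (1 + (max w 0) ^ 2)

lemma hasDerivAt_pos2 (w : ℝ) : HasDerivAt (fun s : ℝ => (max s 0) ^ 2) (2 * max w 0) w := by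
  have := hasDerivAt_pp 0 w
  simpa using this

lemma contDiff_pos2 : ContDiff ℝ 1 (fun s : ℝ => (max s 0) ^ 2) := contDiff_pp 0

lemma hasDerivAt_Xi (w : ℝ) :
    HasDerivAt Xi (max w 0 / Real.sqrt (1 + (max w 0) ^ 2)) w := by
  have h1 : HasDerivAt (fun s : ℝ => 1 + (max s 0) ^ 2) (2 * max w 0) w :=
    (hasDerivAt_pos2 w).const_add 1
  have hpos : 0 < 1 + (max w 0) ^ 2 := by positivity
  have h2 := (h1.sqrt hpos.ne').sub_const 1
  refine h2.congr_deriv ?_
  have : 0 < Real.sqrt (1 + (max w 0) ^ 2) := Real.sqrt_pos.2 hpos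
  field_simp

lemma contDiff_Xi : ContDiff ℝ 1 Xi := by
  unfold Xi
  apply ContDiff.sub _ contDiff_const
  apply ContDiff.sqrt (contDiff_const.add contDiff_pos2)
  intro x
  positivity

lemma contDiff_Phi : ContDiff ℝ 1 Phi := by
  unfold Phi
  apply ContDiff.div contDiff_pos2 (contDiff_const.add contDiff_pos2)
  intro x
  positivity

lemma hasDerivAt_Phi (w : ℝ) :
    HasDerivAt Phi (2 * max w 0 / (1 + (max w 0) ^ 2) ^ 2) w := by
  have h1 : HasDerivAt (fun s : ℝ => 1 + (max s 0) ^ 2) (2 * max w 0) w :=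
    (hasDerivAt_pos2 w).const_add 1
  have hpos : 0 < 1 + (max w 0) ^ 2 := by positivity
  have h2 := (hasDerivAt_pos2 w).div h1 hpos.ne'
  refine h2.congr_deriv ?_
  ring

lemma Phi_nonneg (w : ℝ) : 0 ≤ Phi w := by unfold Phi; positivity

lemma Phi_le_one (w : ℝ) : Phi w ≤ 1 := by
  unfold Phi
  rw [div_le_one (by positivity)]
  linarith

lemma Xi'_sq (w : ℝ) : (max w 0 / Real.sqrt (1 + (max w 0) ^ 2)) ^ 2 = Phi w := by
  rw [div_pow, Real.sq_sqrt (by positivity), Phi]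

lemma Phi_of_nonpos {w : ℝ} (hw : w ≤ 0) : Phi w = 0 := by
  unfold Phi; rw [max_eq_right hw]; simp

lemma Xi_of_nonpos {w : ℝ} (hw : w ≤ 0) : Xi w = 0 := by
  unfold Xi; rw [max_eq_right hw]; simp

lemma Xi_nonneg (w : ℝ) : 0 ≤ Xi w := by
  unfold Xi
  have : 1 ≤ Real.sqrt (1 + (max w 0) ^ 2) := by
    rw [Real.one_le_sqrt]; nlinarith [sq_nonneg (max w 0)]
  linarith

/-- `Ξ(-log v)` on `O`, zero outside. -/
noncomputable def WW (O : Set (E n)) (v : E n → ℝ) : E n → ℝ :=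
  O.indicator (fun x => Xi (-(Real.log (v x))))

lemma WW_contDiffOn_O {O : Set (E n)} {v : E n → ℝ} (hv : ContDiffOn ℝ 1 v O)
    (hv0 : ∀ x ∈ O, 0 < v x) : ContDiffOn ℝ 1 (WW O v) O := by
  have h1 : ContDiffOn ℝ 1 (fun x => Xi (-(Real.log (v x)))) O :=
    contDiff_Xi.comp_contDiffOn (hv.log fun x hx => (hv0 x hx).ne').neg
  exact h1.congr fun x hx => indicator_of_mem hx _

lemma WW_contDiffOn {B O : Set (E n)} (hO : IsOpen O) {v : E n → ℝ} (hv : ContDiffOn ℝ 1 v O)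
    (hv0 : ∀ x ∈ O, 0 < v x) (hsep : ∀ x ∈ B, x ∉ O → ∀ᶠ y in 𝓝 x, y ∈ O → 1 < v y) :
    ContDiffOn ℝ 1 (WW O v) B := by
  intro x hx
  by_cases hxO : x ∈ O
  · exact ((WW_contDiffOn_O hv hv0).contDiffAt (hO.mem_nhds hxO)).contDiffWithinAt
  · have : WW O v =ᶠ[𝓝 x] fun _ => 0 := by
      filter_upwards [hsep x hx hxO] with y hy
      by_cases hyO : y ∈ O
      · simp only [WW]
        rw [indicator_of_mem hyO]
        exact Xi_of_nonpos (by have := Real.log_pos (hy hyO); linarith)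
      · exact indicator_of_notMem hyO _
    exact (contDiffAt_const.congr_of_eventuallyEq this).contDiffWithinAt

lemma grad_WW {O : Set (E n)} (hO : IsOpen O) {v : E n → ℝ} (hv : ContDiffOn ℝ 1 v O)
    (hv0 : ∀ x ∈ O, 0 < v x) {x : E n} (hx : x ∈ O) :
    gradient (WW O v) x = (-((max (-(Real.log (v x))) 0 /
      Real.sqrt (1 + (max (-(Real.log (v x))) 0) ^ 2)) / v x)) • gradient v x := by
  have e : WW O v =ᶠ[𝓝 x] fun y => (fun s : ℝ => Xi (-(Real.log s))) (v y) := by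
    filter_upwards [hO.mem_nhds hx] with y hy
    exact indicator_of_mem hy _
  have hd : DifferentiableAt ℝ v x :=
    (hv.differentiableOn (by norm_num)).differentiableAt (hO.mem_nhds hx)
  have hvx := hv0 x hx
  have h1 : HasDerivAt (fun s : ℝ => -(Real.log s)) (-(v x)⁻¹) (v x) :=
    (Real.hasDerivAt_log hvx.ne').neg
  have h2 : HasDerivAt (fun s : ℝ => Xi (-(Real.log s)))
      ((max (-(Real.log (v x))) 0 / Real.sqrt (1 + (max (-(Real.log (v x))) 0) ^ 2)) *
        (-(v x)⁻¹)) (v x) := by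
    have h3 := HasDerivAt.comp (v x) (hasDerivAt_Xi (-(Real.log (v x)))) h1
    exact h3
  rw [grad_congr e, grad_comp h2 hd]
  congr 1
  rw [div_eq_mul_inv _ (v x)]; ring

lemma grad_WW_zero {B O : Set (E n)} {v : E n → ℝ}
    (hsep : ∀ x ∈ B, x ∉ O → ∀ᶠ y in 𝓝 x, y ∈ O → 1 < v y) {x : E n} (hx : x ∈ B) (hxO : x ∉ O) :
    gradient (WW O v) x = 0 := by
  apply grad_zero_of_eventually
  filter_upwards [hsep x hx hxO] with y hy
  by_cases hyO : y ∈ O
  · simp only [WW]
    rw [indicator_of_mem hyO]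
    exact Xi_of_nonpos (by have := Real.log_pos (hy hyO); linarith)
  · exact indicator_of_notMem hyO _

/-- The logarithmic energy estimate. -/
lemma log_energy {K : ℝ} (hK : 1 ≤ K) {B O : Set (E n)} (hO : IsOpen O) (hOB : O ⊆ B)
    {a v : E n → ℝ} (ha : ContinuousOn a O) (haK : ∀ x ∈ O, K⁻¹ ≤ a x ∧ a x ≤ K)
    (hv : ContDiffOn ℝ 1 v O) (hv0 : ∀ x ∈ O, 0 < v x)
    (hsep : ∀ x ∈ B, x ∉ O → ∀ᶠ y in 𝓝 x, y ∈ O → 1 < v y) {c : ℝ} (hc : 0 ≤ c)
    (hweak : ∀ ψ : E n → ℝ, ContDiff ℝ 1 ψ → HasCompactSupport ψ → tsupport ψ ⊆ O →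
      (∀ x, 0 ≤ ψ x) → -(∫ x, a x * inner ℝ (gradient v x) (gradient ψ x)) ≤
        c * ∫ x, v x * ψ x)
    {ζ : E n → ℝ} (hζ : ContDiff ℝ 1 ζ) (hζc : HasCompactSupport ζ) (hζB : tsupport ζ ⊆ B) :
    ∫ x, ζ x ^ 2 * ‖gradient (WW O v) x‖ ^ 2 ≤
      2 * K * c * (∫ x, ζ x ^ 2) + 4 * K ^ 4 * ∫ x, ‖gradient ζ x‖ ^ 2 := by
  have hK0 : 0 < K := by linarith
  set Kc := {x | x ∈ O ∧ x ∈ tsupport ζ ∧ v x ≤ 1} with hKc
  have hKcO : Kc ⊆ O := fun x hx => hx.1
  have hKcpt : IsCompact Kc := by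
    apply hζc.isCompact.of_isClosed_subset _ (fun x hx => hx.2.1)
    rw [← isSeqClosed_iff_isClosed]
    intro y x hy hlim
    have h1 : x ∈ tsupport ζ := (isClosed_tsupport ζ).mem_of_tendsto hlim
      (Eventually.of_forall fun j => (hy j).2.1)
    have h2 : x ∈ O := by
      by_contra h
      have h3 := hlim.eventually (hsep x (hζB h1) h)
      obtain ⟨j, hj⟩ := h3.exists
      exact absurd (hj (hy j).1) (not_lt.2 (hy j).2.2)
    refine ⟨h2, h1, ?_⟩
    have h3 : Tendsto (fun j => v (y j)) atTop (𝓝 (v x)) :=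
      (hv.continuousOn.continuousAt (hO.mem_nhds h2)).tendsto.comp hlim
    exact le_of_tendsto h3 (Eventually.of_forall fun j => (hy j).2.2)
  -- the test function
  set ψ : E n → ℝ := O.indicator (fun x => ζ x ^ 2 * (Phi (-(Real.log (v x))) / v x)) with hψ
  have hψO : ContDiffOn ℝ 1 ψ O := by
    have h1 : ContDiffOn ℝ 1 (fun x => ζ x ^ 2 * (Phi (-(Real.log (v x))) / v x)) O := by
      apply ContDiffOn.mul (hζ.pow 2).contDiffOn
      apply ContDiffOn.div _ hv (fun x hx => (hv0 x hx).ne')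
      exact contDiff_Phi.comp_contDiffOn (hv.log fun x hx => (hv0 x hx).ne').neg
    exact h1.congr fun x hx => indicator_of_mem hx _
  have hψ0 : ∀ x, x ∉ Kc → ψ x = 0 := by
    intro x hx
    by_cases hxO : x ∈ O
    · simp only [hψ]
      rw [indicator_of_mem hxO]
      by_cases hxt : x ∈ tsupport ζ
      · have : 1 < v x := by
          by_contra h
          exact hx ⟨hxO, hxt, not_lt.1 h⟩
        rw [Phi_of_nonpos (by have := Real.log_pos this; linarith)]
        simp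
      · rw [image_eq_zero_of_notMem_tsupport hxt]; simp
    · exact indicator_of_notMem hxO _
  obtain ⟨hψ1, hψ2, hψ3⟩ := glue hO hKcpt hKcO hψO hψ0
  have hψn : ∀ x, 0 ≤ ψ x := by
    intro x
    apply indicator_nonneg
    intro y hy
    exact mul_nonneg (sq_nonneg _) (div_nonneg (Phi_nonneg _) (hv0 y hy).le)
  have hw := hweak ψ hψ1 hψ2 (hψ3.trans hKcO) hψn
  have gψ0 : ∀ x, x ∉ Kc → gradient ψ x = 0 := fun x hx =>
    grad_eq_zero_of_notMem fun h => hx (hψ3 h)
  have hWO := WW_contDiffOn_O hv hv0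
  set W := WW O v with hW
  -- gradient of ψ on O
  have gψ : ∀ x ∈ O, gradient ψ x =
      (2 * ζ x * (Phi (-(Real.log (v x))) / v x)) • gradient ζ x +
      (ζ x ^ 2 * (-((2 * max (-(Real.log (v x))) 0 / (1 + (max (-(Real.log (v x))) 0) ^ 2) ^ 2 +
        Phi (-(Real.log (v x)))) / v x ^ 2))) • gradient v x := by
    intro x hx
    have hvx := hv0 x hx
    have hd : DifferentiableAt ℝ v x :=
      (hv.differentiableOn (by norm_num)).differentiableAt (hO.mem_nhds hx)
    have hζd : DifferentiableAt ℝ ζ x := hζ.differentiable (by norm_num) x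
    have e : ψ =ᶠ[𝓝 x] fun y => (fun s : ℝ => s ^ 2) (ζ y) *
        (fun s : ℝ => Phi (-(Real.log s)) / s) (v y) := by
      filter_upwards [hO.mem_nhds hx] with y hy
      exact indicator_of_mem hy _
    have h1 : HasDerivAt (fun s : ℝ => -(Real.log s)) (-(v x)⁻¹) (v x) :=
      (Real.hasDerivAt_log hvx.ne').neg
    have h2 : HasDerivAt (fun s : ℝ => Phi (-(Real.log s)))
        ((2 * max (-(Real.log (v x))) 0 / (1 + (max (-(Real.log (v x))) 0) ^ 2) ^ 2) *
          (-(v x)⁻¹)) (v x) := by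
      have h3 := HasDerivAt.comp (v x) (hasDerivAt_Phi (-(Real.log (v x)))) h1
      exact h3
    have h3 : HasDerivAt (fun s : ℝ => Phi (-(Real.log s)) / s)
        (-((2 * max (-(Real.log (v x))) 0 / (1 + (max (-(Real.log (v x))) 0) ^ 2) ^ 2 +
        Phi (-(Real.log (v x)))) / v x ^ 2)) (v x) := by
      refine (h2.div (hasDerivAt_id (v x)) hvx.ne').congr_deriv ?_
      simp only [id]
      field_simp
      ring
    have h4 : HasDerivAt (fun s : ℝ => s ^ 2) (2 * ζ x) (ζ x) := by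
      simpa using hasDerivAt_pow 2 (ζ x)
    rw [grad_congr e, grad_mul, grad_comp h3 hd, grad_comp h4 hζd]
    · rw [smul_smul, smul_smul, add_comm]
      congr 2
      ring
    · exact h4.differentiableAt.comp x hζd
    · exact h3.differentiableAt.comp x hd
  have gW : ∀ x ∈ O, ‖gradient W x‖ ^ 2 = Phi (-(Real.log (v x))) * (‖gradient v x‖ / v x) ^ 2 := by
    intro x hx
    rw [hW, grad_WW hO hv hv0 hx, norm_smul, mul_pow, norm_neg, norm_div,
      Real.norm_of_nonneg (hv0 x hx).le, div_pow, Real.norm_eq_abs, sq_abs, Xi'_sq, div_pow]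
    ring
  have gW0 : ∀ x, x ∉ Kc → ζ x ^ 2 * ‖gradient W x‖ ^ 2 = 0 := by
    intro x hx
    by_cases hxt : x ∈ tsupport ζ
    · by_cases hxO : x ∈ O
      · have : 1 < v x := by
          by_contra h
          exact hx ⟨hxO, hxt, not_lt.1 h⟩
        rw [gW x hxO, Phi_of_nonpos (by have := Real.log_pos this; linarith)]
        simp
      · rw [hW, grad_WW_zero hsep (hζB hxt) hxO]; simp
    · rw [image_eq_zero_of_notMem_tsupport hxt]; simp
  have hDi : Integrable (fun x => ζ x ^ 2 * ‖gradient W x‖ ^ 2) := by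
    have := glue0 (F := fun x => ζ x ^ 2 * ‖gradient W x‖ ^ 2) hO hKcpt hKcO
      ((hζ.continuous.pow 2).continuousOn.mul ((continuousOn_grad hO hWO).norm.pow 2)) gW0
    exact this.1.integrable_of_hasCompactSupport this.2
  have hI1 : Integrable (fun x => a x * inner ℝ (gradient v x) (gradient ψ x)) := by
    have := glue0 (F := fun x => a x * inner ℝ (gradient v x) (gradient ψ x)) hO hKcpt hKcO
      (ha.mul ((continuousOn_grad hO hv).inner (continuous_grad hψ1).continuousOn))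
      (fun x hx => by simp [gψ0 x hx])
    exact this.1.integrable_of_hasCompactSupport this.2
  have hI2 : Integrable (fun x => v x * ψ x) := by
    have := glue0 (F := fun x => v x * ψ x) hO hKcpt hKcO
      (hv.continuousOn.mul hψ1.continuous.continuousOn)
      (fun x hx => by simp [hψ0 x hx])
    exact this.1.integrable_of_hasCompactSupport this.2
  have hζi : Integrable (fun x => ζ x ^ 2) := integrable_sq hζ.continuous hζc
  have hgi : Integrable (fun x => ‖gradient ζ x‖ ^ 2) := by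
    have h1 : Continuous (fun x => ‖gradient ζ x‖ ^ 2) := (continuous_grad hζ).norm.pow 2
    apply h1.integrable_of_hasCompactSupport
    exact (hasCompactSupport_grad hζc).comp_left (g := fun v => ‖v‖ ^ 2) (by simp)
  -- pointwise lower bound
  have p1 : ∀ x, 1 / 2 * K⁻¹ * (ζ x ^ 2 * ‖gradient W x‖ ^ 2) - 2 * K ^ 3 * ‖gradient ζ x‖ ^ 2 ≤
      -(a x * inner ℝ (gradient v x) (gradient ψ x)) := by
    intro x
    by_cases hxK : x ∈ Kc
    · have hx := hKcO hxK
      have hvx := hv0 x hx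
      obtain ⟨ha1, ha2⟩ := haK x hx
      have ha0 : 0 < a x := lt_of_lt_of_le (inv_pos.2 hK0) ha1
      rw [gψ x hx, inner_add_right, inner_smul_right, inner_smul_right,
        real_inner_self_eq_norm_sq, gW x hx]
      set P := Phi (-(Real.log (v x))) with hP
      set Q := 2 * max (-(Real.log (v x))) 0 / (1 + (max (-(Real.log (v x))) 0) ^ 2) ^ 2 with hQ
      have hP0 : 0 ≤ P := Phi_nonneg _
      have hP1 : P ≤ 1 := Phi_le_one _
      have hQ0 : 0 ≤ Q := by positivity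
      set N := ‖gradient v x‖ with hN
      set M := ‖gradient ζ x‖ with hM
      have hN0 : 0 ≤ N := norm_nonneg _
      have hM0 : 0 ≤ M := norm_nonneg _
      have hin : |inner ℝ (gradient v x) (gradient ζ x)| ≤ N * M := abs_real_inner_le_norm _ _
      set I := inner ℝ (gradient v x) (gradient ζ x) with hI
      set g := N / v x with hg
      have hg0 : 0 ≤ g := by positivity
      have e1 : -(a x * (2 * ζ x * (P / v x) * I + ζ x ^ 2 * -((Q + P) / v x ^ 2) * N ^ 2)) =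
          a x * (ζ x ^ 2 * (Q + P) * g ^ 2) - 2 * (a x * (ζ x * P * (I / v x))) := by
        rw [hg]; field_simp; ring
      rw [e1]
      have h1 : a x * (ζ x * P * (I / v x)) ≤ K * (|ζ x| * P * (g * M)) := by
        have h2 : ζ x * P * (I / v x) ≤ |ζ x| * P * (g * M) := by
          have h3 : |I / v x| ≤ g * M := by
            rw [abs_div, abs_of_pos hvx, hg, div_mul_eq_mul_div]
            gcongr
          calc ζ x * P * (I / v x) ≤ |ζ x * P * (I / v x)| := le_abs_self _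
            _ = |ζ x| * P * |I / v x| := by rw [abs_mul, abs_mul, abs_of_nonneg hP0]
            _ ≤ |ζ x| * P * (g * M) := by gcongr
        calc a x * (ζ x * P * (I / v x)) ≤ a x * (|ζ x| * P * (g * M)) := by gcongr
          _ ≤ K * (|ζ x| * P * (g * M)) := by gcongr
      have h2 : K⁻¹ * (ζ x ^ 2 * (P * g ^ 2)) ≤ a x * (ζ x ^ 2 * (Q + P) * g ^ 2) := by
        have h3 : ζ x ^ 2 * (P * g ^ 2) ≤ ζ x ^ 2 * (Q + P) * g ^ 2 := by
          have : 0 ≤ ζ x ^ 2 * Q * g ^ 2 := by positivity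
          nlinarith
        calc K⁻¹ * (ζ x ^ 2 * (P * g ^ 2)) ≤ a x * (ζ x ^ 2 * (P * g ^ 2)) := by gcongr
          _ ≤ _ := by gcongr
      have h3 : 2 * (K * (|ζ x| * P * (g * M))) ≤
          1 / 2 * K⁻¹ * (ζ x ^ 2 * (P * g ^ 2)) + 2 * K ^ 3 * M ^ 2 := by
        have h4 : 0 ≤ (1 / 2 * K⁻¹ * (|ζ x| * g) - K * M) ^ 2 * (2 * K) * P := by positivity
        have h5 : (1 / 2 * K⁻¹ * (|ζ x| * g) - K * M) ^ 2 * (2 * K) * P =
            1 / 2 * (K⁻¹ * K) * K⁻¹ * (|ζ x| ^ 2 * (P * g ^ 2)) -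
              2 * (K⁻¹ * K) * (K * (|ζ x| * P * (g * M))) + 2 * K ^ 3 * M ^ 2 * P := by ring
        rw [inv_mul_cancel₀ hK0.ne', sq_abs] at h5
        rw [h5] at h4
        have h6 : 2 * K ^ 3 * M ^ 2 * P ≤ 2 * K ^ 3 * M ^ 2 := by
          have : 0 ≤ 2 * K ^ 3 * M ^ 2 := by positivity
          nlinarith
        linarith
      linarith
    · rw [gψ0 x hxK, gW0 x hxK]
      simp only [mul_zero, zero_sub, inner_zero_right, neg_zero, Left.neg_nonpos_iff]
      positivity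
  have p2 : ∀ x, v x * ψ x ≤ ζ x ^ 2 := by
    intro x
    by_cases hx : x ∈ O
    · simp only [hψ]
      rw [indicator_of_mem hx]
      have hvx := hv0 x hx
      have : v x * (ζ x ^ 2 * (Phi (-(Real.log (v x))) / v x)) =
          ζ x ^ 2 * Phi (-(Real.log (v x))) := by field_simp
      rw [this]
      have h1 := Phi_le_one (-(Real.log (v x)))
      nlinarith [sq_nonneg (ζ x)]
    · simp only [hψ]
      rw [indicator_of_notMem hx]; simp; positivity
  have q1 : 1 / 2 * K⁻¹ * (∫ x, ζ x ^ 2 * ‖gradient W x‖ ^ 2) -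
      2 * K ^ 3 * (∫ x, ‖gradient ζ x‖ ^ 2) ≤ c * ∫ x, ζ x ^ 2 := by
    have h1 := integral_mono ((hDi.const_mul (1 / 2 * K⁻¹)).sub (hgi.const_mul (2 * K ^ 3)))
      hI1.neg p1
    simp only [Pi.sub_apply, Pi.neg_apply] at h1
    rw [integral_sub (hDi.const_mul _) (hgi.const_mul _), integral_const_mul, integral_const_mul,
      integral_neg] at h1
    have h2 : ∫ x, v x * ψ x ≤ ∫ x, ζ x ^ 2 := integral_mono hI2 hζi p2
    have h3 : c * ∫ x, v x * ψ x ≤ c * ∫ x, ζ x ^ 2 := mul_le_mul_of_nonneg_left h2 hc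
    linarith
  have q2 : 2 * K * (1 / 2 * K⁻¹ * (∫ x, ζ x ^ 2 * ‖gradient W x‖ ^ 2)) ≤
      2 * K * (c * (∫ x, ζ x ^ 2) + 2 * K ^ 3 * (∫ x, ‖gradient ζ x‖ ^ 2)) :=
    mul_le_mul_of_nonneg_left (by linarith) (by positivity)
  have e2 : 2 * K * (1 / 2 * K⁻¹ * (∫ x, ζ x ^ 2 * ‖gradient W x‖ ^ 2)) =
      ∫ x, ζ x ^ 2 * ‖gradient W x‖ ^ 2 := by field_simp
  rw [e2] at q2
  linarith

end Pool.Agent.Helper676.PC
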