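import Pool.Agent.Helper676.PC5

set_option autoImplicit false

/-! Decrease of oscillation, unit scale. -/

namespace Pool.Agent.Helper676.PC

open MeasureTheory Filter Topology Set InnerProductSpace Metric

variable {n : ℕ}

lemma exists_cutoff (n : ℕ) : ∃ ζ : E n → ℝ, ContDiff ℝ 1 ζ ∧ HasCompactSupport ζ ∧
    tsupport ζ ⊆ ball (0 : E n) 1 ∧ (∀ x ∈ ball (0 : E n) (3/4), ζ x = 1) := by
  let b : ContDiffBump (0 : E n) := ⟨3/4, 7/8, by norm_num, by norm_num⟩
  refine ⟨b, b.contDiff, b.hasCompactSupport, ?_, ?_⟩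
  · rw [b.tsupport_eq]
    exact closedBall_subset_ball (by norm_num)
  · intro x hx
    exact b.one_of_mem_closedBall (ball_subset_closedBall hx)

lemma Xi_ge (w : ℝ) : w - 1 ≤ Xi w := by
  unfold Xi
  have h1 : max w 0 ≤ Real.sqrt (1 + (max w 0) ^ 2) := by
    apply Real.le_sqrt_of_sq_le; linarith
  have h2 : w ≤ max w 0 := le_max_left _ _
  linarith

lemma contDiff_normsq : ContDiff ℝ 1 (fun x : E n => ‖x‖ ^ 2) := contDiff_norm_sq ℝ

lemma grad_normsq (x : E n) : gradient (fun x : E n => ‖x‖ ^ 2) x = (2:ℝ) • x := by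
  apply HasGradientAt.gradient
  rw [hasGradientAt_iff_hasFDerivAt]
  have := (hasStrictFDerivAt_norm_sq x).hasFDerivAt
  refine this.congr_fderiv ?_
  ext y
  simp [inner_smul_left]

/-- Decrease of oscillation at unit scale. -/
theorem osc_unit (hn : 0 < n) {K : ℝ} (hK : 1 ≤ K) {θ : ℝ} (hθ : 0 < θ) :
    ∃ δ l0 : ℝ, 0 < δ ∧ δ < 1 ∧ 0 < l0 ∧ ∀ (O : Set (E n)) (a u : E n → ℝ), IsOpen O →
      O ⊆ ball (0 : E n) 1 → ContinuousOn a O → (∀ x ∈ O, K⁻¹ ≤ a x ∧ a x ≤ K) →
      ContDiffOn ℝ 1 u O → ContinuousOn u (ball (0 : E n) 1) →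
      (∀ x ∈ ball (0 : E n) 1, u x ≤ 1) → (∀ x ∈ ball (0 : E n) 1, 0 < u x → x ∈ O) →
      (∀ ψ : E n → ℝ, ContDiff ℝ 1 ψ → HasCompactSupport ψ → tsupport ψ ⊆ O →
        (∀ x, 0 ≤ ψ x) → ∫ x, a x * inner ℝ (gradient u x) (gradient ψ x) ≤ l0 * ∫ x, ψ x) →
      ENNReal.ofReal θ ≤ volume {x | x ∈ ball (0 : E n) (3/4) ∧ u x ≤ 0} →
      ∀ x ∈ ball (0 : E n) (1/4), u x ≤ 1 - δ := by
  have hK0 : 0 < K := by linarith
  obtain ⟨ζ, hζ, hζc, hζB, hζ1⟩ := exists_cutoff n
  set A1 := ∫ x, ζ x ^ 2 with hA1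
  set A2 := ∫ x, ‖gradient ζ x‖ ^ 2 with hA2
  have hA10 : 0 ≤ A1 := integral_nonneg fun x => sq_nonneg _
  have hA20 : 0 ≤ A2 := integral_nonneg fun x => sq_nonneg _
  set E1 := 2 * K * A1 + 4 * K ^ 4 * A2 with hE1
  have hE10 : 0 ≤ E1 := by positivity
  set E2 := (3/2) ^ 2 * volume.real (ball (0 : E n) (3/2)) * E1 / θ with hE2
  have hE20 : 0 ≤ E2 := by
    have : 0 ≤ volume.real (ball (0 : E n) (3/2)) := measureReal_nonneg
    positivity
  have hCST0 : 0 < CST n K := by unfold CST; positivity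
  set η := min 1 (1 / (4 * CST n K * (3 * K + 1))) with hη
  have hη0 : 0 < η := by
    apply lt_min one_pos; positivity
  have hη1 : η ≤ 1 := min_le_left _ _
  have hη2 : CST n K * (η * (3 * K + η * 1)) ≤ 1 / 4 := by
    have h1 : η ≤ 1 / (4 * CST n K * (3 * K + 1)) := min_le_right _ _
    calc CST n K * (η * (3 * K + η * 1)) ≤ CST n K * (η * (3 * K + 1)) := by
          gcongr; linarith
      _ ≤ CST n K * (1 / (4 * CST n K * (3 * K + 1)) * (3 * K + 1)) := by gcongr
      _ = 1 / 4 := by field_simp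
  set Vη := volume.real (ball (0 : E n) η) with hVη
  have hVη0 : 0 < Vη := volReal_ball_pos n hη0
  set s := Real.sqrt (2 * E2 / Vη) + 1 with hs
  have hs1 : 1 ≤ s := by have := Real.sqrt_nonneg (2 * E2 / Vη); linarith
  have hs2 : E2 ≤ s ^ 2 * (Vη / 2) := by
    have h1 : 2 * E2 / Vη ≤ s ^ 2 := by
      have h2 := Real.sq_sqrt (show 0 ≤ 2 * E2 / Vη by positivity)
      have h3 := Real.sqrt_nonneg (2 * E2 / Vη)
      rw [hs]; nlinarith
    rw [div_le_iff₀ hVη0] at h1
    linarith
  set e0 := Real.exp (-(s + 2)) / 2 with he0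
  have he00 : 0 < e0 := by positivity
  have he01 : e0 < 1 / 2 := by
    have : Real.exp (-(s + 2)) < 1 := by
      rw [Real.exp_lt_one_iff]; linarith
    rw [he0]; linarith
  refine ⟨5 / 8 * e0, e0, by positivity, by linarith, he00, ?_⟩
  intro O a u hO hOB ha haK hu huc hu1 huO hweak hvol
  -- the function v
  set v : E n → ℝ := fun x => (1 + e0) - u x with hv
  have hvC : ContDiffOn ℝ 1 v O := contDiffOn_const.sub hu
  have hv0 : ∀ x ∈ O, 0 < v x := by
    intro x hx
    have := hu1 x (hOB hx)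
    simp only [hv]; linarith
  have hsep : ∀ x ∈ ball (0 : E n) 1, x ∉ O → ∀ᶠ y in 𝓝 x, y ∈ O → 1 < v y := by
    intro x hx hxO
    have h1 : u x ≤ 0 := by
      by_contra h
      exact hxO (huO x hx (not_le.1 h))
    have h2 : ContinuousAt u x := huc.continuousAt (isOpen_ball.mem_nhds hx)
    filter_upwards [h2.eventually_lt_const (show u x < e0 by linarith)] with y hy _
    simp only [hv]; linarith
  have hgv : ∀ x ∈ O, gradient v x = - gradient u x := by
    intro x hx
    have e : v = fun y => (fun _ : E n => (1 + e0)) y - u y := rfl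
    rw [e, grad_sub (differentiableAt_const _)
      ((hu.differentiableOn (by norm_num)).differentiableAt (hO.mem_nhds hx))]
    simp [grad_def]
  have hweakv : ∀ ψ : E n → ℝ, ContDiff ℝ 1 ψ → HasCompactSupport ψ → tsupport ψ ⊆ O →
      (∀ x, 0 ≤ ψ x) → -(∫ x, a x * inner ℝ (gradient v x) (gradient ψ x)) ≤
        1 * ∫ x, v x * ψ x := by
    intro ψ h1 h2 h3 h4
    have e1 : -(∫ x, a x * inner ℝ (gradient v x) (gradient ψ x)) =
        ∫ x, a x * inner ℝ (gradient u x) (gradient ψ x) := by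
      rw [← integral_neg]
      congr 1
      ext x
      by_cases hx : x ∈ O
      · rw [hgv x hx, inner_neg_left]; ring
      · rw [grad_eq_zero_of_notMem (fun h => hx (h3 h))]; simp
    rw [e1, one_mul]
    refine (hweak ψ h1 h2 h3 h4).trans ?_
    rw [← integral_const_mul]
    have hvψ := glue0 (F := fun x => v x * ψ x) hO h2.isCompact h3
      (hvC.continuousOn.mul h1.continuous.continuousOn)
      (fun x hx => by rw [image_eq_zero_of_notMem_tsupport hx]; simp)
    apply integral_mono ((h1.continuous.integrable_of_hasCompactSupport h2).const_mul _)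
      (hvψ.1.integrable_of_hasCompactSupport hvψ.2)
    intro x
    by_cases hx : x ∈ O
    · simp only
      apply mul_le_mul_of_nonneg_right _ (h4 x)
      have := hu1 x (hOB hx)
      simp only [hv]; linarith
    · simp only
      rw [image_eq_zero_of_notMem_tsupport (fun h => hx (h3 h))]; simp
  have hlog := log_energy hK hO hOB ha haK hvC hv0 hsep zero_le_one hweakv hζ hζc hζB
  rw [mul_one] at hlog
  set W := WW O v with hW
  have hWB : ContDiffOn ℝ 1 W (ball (0 : E n) 1) := WW_contDiffOn hO hvC hv0 hsep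
  have hB34 : ball (0 : E n) (3/4) ⊆ ball (0 : E n) 1 := ball_subset_ball (by norm_num)
  -- energy on the ball of radius 3/4
  have hen : ∫⁻ x in ball (0 : E n) (3/4), ENNReal.ofReal (‖gradient W x‖ ^ 2) ≤
      ENNReal.ofReal E1 := by
    have hcont : Continuous (fun x => ζ x ^ 2 * ‖gradient W x‖ ^ 2) ∧
        HasCompactSupport (fun x => ζ x ^ 2 * ‖gradient W x‖ ^ 2) := by
      apply glue0 (O := ball (0 : E n) 1) isOpen_ball hζc.isCompact hζB
      · exact (hζ.continuous.pow 2).continuousOn.mul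
          ((continuousOn_grad isOpen_ball hWB).norm.pow 2)
      · intro x hx
        rw [image_eq_zero_of_notMem_tsupport hx]; simp
    have hint := hcont.1.integrable_of_hasCompactSupport hcont.2 (μ := volume)
    calc ∫⁻ x in ball (0 : E n) (3/4), ENNReal.ofReal (‖gradient W x‖ ^ 2)
        = ∫⁻ x in ball (0 : E n) (3/4), ENNReal.ofReal (ζ x ^ 2 * ‖gradient W x‖ ^ 2) := by
          apply setLIntegral_congr_fun measurableSet_ball
          intro x hx
          simp only
          rw [hζ1 x hx]; simp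
      _ ≤ ∫⁻ x, ENNReal.ofReal (ζ x ^ 2 * ‖gradient W x‖ ^ 2) := setLIntegral_le_lintegral _ _
      _ = ENNReal.ofReal (∫ x, ζ x ^ 2 * ‖gradient W x‖ ^ 2) := by
          rw [ofReal_integral_eq_lintegral_ofReal hint (ae_of_all _ fun x => by positivity)]
      _ ≤ ENNReal.ofReal E1 := ENNReal.ofReal_le_ofReal hlog
  -- Poincaré
  set S := {x | x ∈ ball (0 : E n) (3/4) ∧ u x ≤ 0} with hS
  have hSm : MeasurableSet S := by
    have h1 : S = ball (0 : E n) (3/4) \ (ball (0 : E n) 1 ∩ u ⁻¹' (Ioi 0)) := by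
      ext x
      simp only [hS, mem_setOf_eq, mem_diff, mem_inter_iff, mem_preimage, mem_Ioi, not_and, not_lt]
      constructor
      · intro h; exact ⟨h.1, fun _ => h.2⟩
      · intro h; exact ⟨h.1, h.2 (hB34 h.1)⟩
    rw [h1]
    exact measurableSet_ball.diff
      (huc.isOpen_inter_preimage isOpen_ball isOpen_Ioi).measurableSet
  have hWS : ∀ x ∈ S, W x = 0 := by
    intro x hx
    by_cases hxO : x ∈ O
    · simp only [hW, WW]
      rw [indicator_of_mem hxO]
      apply Xi_of_nonpos
      have : 1 < v x := by simp only [hv]; linarith [hx.2]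
      have := Real.log_pos this
      linarith
    · exact indicator_of_notMem hxO _
  have hpo := poincare_vanish (R := 3/4) (hWB.mono hB34) hSm (fun x hx => hx.1) hWS
  have hpo2 : ENNReal.ofReal θ * ∫⁻ x in ball (0 : E n) (3/4), ENNReal.ofReal (W x ^ 2) ≤
      ENNReal.ofReal ((3/2) ^ 2 * volume.real (ball (0 : E n) (3/2)) * E1) := by
    refine (mul_le_mul' hvol le_rfl).trans (hpo.trans ?_)
    have e2 : (2 * (3/4) : ℝ) = 3/2 := by norm_num
    rw [e2, ENNReal.ofReal_mul (by positivity), ENNReal.ofReal_mul (by positivity)]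
    refine mul_le_mul' (mul_le_mul' le_rfl ?_) hen
    rw [measureReal_def, ENNReal.ofReal_toReal measure_ball_lt_top.ne]
  -- Chebyshev
  set D := {x | x ∈ O ∩ ball (0 : E n) (3/4) ∧ 1 - e0 < u x} with hD
  have hDsub : D ⊆ ball (0 : E n) (3/4) := fun x hx => hx.1.2
  have hDm : MeasurableSet D := by
    have : D = (O ∩ ball (0 : E n) (3/4)) ∩ u ⁻¹' (Ioi (1 - e0)) := by ext x; rfl
    rw [this]
    exact ((hu.continuousOn.mono inter_subset_left).isOpen_inter_preimage
      (hO.inter isOpen_ball) isOpen_Ioi).measurableSet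
  have hWD : ∀ x ∈ D, s ≤ W x := by
    intro x hx
    simp only [hW, WW]
    rw [indicator_of_mem hx.1.1]
    have h1 : v x < 2 * e0 := by simp only [hv]; linarith [hx.2]
    have h2 : Real.log (v x) < -(s + 2) := by
      have h3 : Real.log (v x) < Real.log (2 * e0) := Real.log_lt_log (hv0 x hx.1.1) h1
      have h4 : 2 * e0 = Real.exp (-(s + 2)) := by rw [he0]; ring
      rwa [h4, Real.log_exp] at h3
    have h3 := Xi_ge (-(Real.log (v x)))
    linarith
  have hDvol : volume D ≤ ENNReal.ofReal (Vη / 2) := by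
    have h1 : ENNReal.ofReal (s ^ 2) * volume D ≤
        ∫⁻ x in ball (0 : E n) (3/4), ENNReal.ofReal (W x ^ 2) := by
      calc ENNReal.ofReal (s ^ 2) * volume D = ∫⁻ x in D, ENNReal.ofReal (s ^ 2) := by
            rw [lintegral_const]; simp
        _ ≤ ∫⁻ x in D, ENNReal.ofReal (W x ^ 2) := by
            apply setLIntegral_mono' hDm
            intro x hx
            apply ENNReal.ofReal_le_ofReal
            exact pow_le_pow_left₀ (by linarith) (hWD x hx) 2
        _ ≤ _ := lintegral_mono_set hDsub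
    have h2 : ENNReal.ofReal θ * (ENNReal.ofReal (s ^ 2) * volume D) ≤
        ENNReal.ofReal ((3/2) ^ 2 * volume.real (ball (0 : E n) (3/2)) * E1) :=
      (mul_le_mul' le_rfl h1).trans hpo2
    have hfin : volume D ≠ ⊤ := ((measure_mono hDsub).trans_lt measure_ball_lt_top).ne
    have h3 : θ * (s ^ 2 * volume.real D) ≤
        (3/2) ^ 2 * volume.real (ball (0 : E n) (3/2)) * E1 := by
      have h4 := ENNReal.toReal_mono ENNReal.ofReal_ne_top h2
      rw [ENNReal.toReal_mul, ENNReal.toReal_mul, ENNReal.toReal_ofReal hθ.le,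
        ENNReal.toReal_ofReal (by positivity), ENNReal.toReal_ofReal (by positivity)] at h4
      exact h4
    have h4 : s ^ 2 * volume.real D ≤ E2 := by
      rw [hE2, le_div_iff₀ hθ]
      linarith
    have h5 : s ^ 2 * volume.real D ≤ s ^ 2 * (Vη / 2) := h4.trans hs2
    have h6 : volume.real D ≤ Vη / 2 := le_of_mul_le_mul_left h5 (by positivity)
    rw [← ENNReal.ofReal_toReal hfin]
    exact ENNReal.ofReal_le_ofReal h6
  -- De Giorgi's first lemma through Stampacchia
  set O' := O ∩ ball (0 : E n) (3/4) with hO'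
  have hO'o : IsOpen O' := hO.inter isOpen_ball
  set u' : E n → ℝ := fun x => (1 / e0) * (u x - (1 - e0)) - 2 * ‖x‖ ^ 2 with hu'
  have hu'C : ContDiffOn ℝ 1 u' O' := by
    apply ContDiffOn.sub
    · exact contDiffOn_const.mul ((hu.mono inter_subset_left).sub contDiffOn_const)
    · exact contDiffOn_const.mul contDiff_normsq.contDiffOn
  have hu'grad : ∀ x ∈ O', gradient u' x = (1 / e0) • gradient u x - (4:ℝ) • x := by
    intro x hx
    have hd : DifferentiableAt ℝ u x :=
      (hu.differentiableOn (by norm_num)).differentiableAt (hO.mem_nhds hx.1)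
    have hd2 : DifferentiableAt ℝ (fun x : E n => ‖x‖ ^ 2) x :=
      contDiff_normsq.differentiable (by norm_num) x
    have e1 : u' = fun x => (fun x => (1 / e0) * (u x - (1 - e0))) x -
        (fun x => 2 * ‖x‖ ^ 2) x := rfl
    rw [e1, grad_sub ((hd.sub_const _).const_mul _) (hd2.const_mul _),
      grad_const_mul _ (hd.sub_const _), grad_sub_const, grad_const_mul _ hd2, grad_normsq,
      smul_smul]
    norm_num
  have hcptT : ∀ k, 0 < k → IsCompact {x | x ∈ O' ∧ k ≤ u' x} := by
    intro k hk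
    have hcu' : ContinuousOn u' (closedBall (0 : E n) (3/4)) := by
      have h1 : ContinuousOn u (closedBall (0 : E n) (3/4)) :=
        huc.mono (closedBall_subset_ball (by norm_num))
      apply ContinuousOn.sub
      · exact continuousOn_const.mul (h1.sub continuousOn_const)
      · exact (by fun_prop : Continuous fun x : E n => 2 * ‖x‖ ^ 2).continuousOn
    have e1 : {x | x ∈ O' ∧ k ≤ u' x} = closedBall (0 : E n) (3/4) ∩ u' ⁻¹' (Ici k) := by
      ext x
      simp only [mem_setOf_eq, mem_inter_iff, mem_preimage, mem_Ici]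
      constructor
      · intro h
        exact ⟨ball_subset_closedBall h.1.2, h.2⟩
      · intro h
        have hxB : x ∈ ball (0 : E n) 1 := closedBall_subset_ball (by norm_num) h.1
        have h1 : (1 / e0) * (u x - (1 - e0)) ≤ 1 := by
          rw [one_div, inv_mul_le_iff₀ he00]
          linarith [hu1 x hxB]
        have h2 : k ≤ (1 / e0) * (u x - (1 - e0)) - 2 * ‖x‖ ^ 2 := h.2
        have h3 : ‖x‖ < 3/4 := by
          by_contra hcon
          have : (3/4 : ℝ) ^ 2 ≤ ‖x‖ ^ 2 := pow_le_pow_left₀ (by norm_num) (not_lt.1 hcon) 2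
          nlinarith
        have h4 : 0 < u x := by
          have h5 : 0 < (1 / e0) * (u x - (1 - e0)) := by nlinarith [sq_nonneg ‖x‖]
          have h6 : 0 < u x - (1 - e0) := by
            by_contra hcon
            have : (1 / e0) * (u x - (1 - e0)) ≤ 0 :=
              mul_nonpos_of_nonneg_of_nonpos (by positivity) (not_lt.1 hcon)
            linarith
          linarith
        exact ⟨⟨huO x hxB h4, by simpa using h3⟩, h.2⟩
    rw [e1]
    exact (isCompact_closedBall (0 : E n) (3/4)).of_isClosed_subset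
      (hcu'.preimage_isClosed_of_isClosed isClosed_closedBall isClosed_Ici) inter_subset_left
  have hbc : ContinuousOn (fun x : E n => (-(4 * a x)) • x) O' :=
    ((continuousOn_const.mul (ha.mono inter_subset_left)).neg).smul continuousOn_id
  have hbβ : ∀ x ∈ O', ‖(-(4 * a x)) • x‖ ≤ 3 * K := by
    intro x hx
    have h1 := haK x hx.1
    have h2 : ‖x‖ < 3/4 := by simpa using hx.2
    have ha0 : 0 ≤ a x := (inv_pos.2 hK0).le.trans h1.1
    rw [norm_smul, norm_neg, norm_mul, Real.norm_of_nonneg ha0]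
    have h3 : ‖(4:ℝ)‖ = 4 := by norm_num
    rw [h3]
    calc 4 * a x * ‖x‖ ≤ 4 * K * (3/4) := by gcongr; exact h1.2
      _ = 3 * K := by ring
  have hweak' : ∀ ψ : E n → ℝ, ContDiff ℝ 1 ψ → HasCompactSupport ψ → tsupport ψ ⊆ O' →
      (∀ x, 0 ≤ ψ x) → ∫ x, a x * inner ℝ (gradient u' x) (gradient ψ x) ≤
        (∫ x, inner ℝ ((-(4 * a x)) • x) (gradient ψ x)) + 1 * ∫ x, ψ x := by
    intro ψ h1 h2 h3 h4
    have h3' : tsupport ψ ⊆ O := h3.trans inter_subset_left
    have hw := hweak ψ h1 h2 h3' h4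
    have hψt : ∀ x, x ∉ tsupport ψ → gradient ψ x = 0 := fun x hx => grad_eq_zero_of_notMem hx
    have hi1 : Integrable (fun x => a x * inner ℝ (gradient u x) (gradient ψ x)) := by
      have := glue0 (F := fun x => a x * inner ℝ (gradient u x) (gradient ψ x)) hO
        h2.isCompact h3'
        (ha.mul ((continuousOn_grad hO hu).inner (continuous_grad h1).continuousOn))
        (fun x hx => by simp [hψt x hx])
      exact this.1.integrable_of_hasCompactSupport this.2
    have hi2 : Integrable (fun x => inner ℝ ((-(4 * a x)) • x) (gradient ψ x)) := by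
      have := glue0 (F := fun x => inner ℝ ((-(4 * a x)) • x) (gradient ψ x)) hO'o
        h2.isCompact h3 (hbc.inner (continuous_grad h1).continuousOn)
        (fun x hx => by simp [hψt x hx])
      exact this.1.integrable_of_hasCompactSupport this.2
    have e1 : (fun x => a x * inner ℝ (gradient u' x) (gradient ψ x)) =
        fun x => (1 / e0) * (a x * inner ℝ (gradient u x) (gradient ψ x)) +
          inner ℝ ((-(4 * a x)) • x) (gradient ψ x) := by
      ext x
      by_cases hx : x ∈ O'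
      · rw [hu'grad x hx, inner_sub_left, inner_smul_left, inner_smul_left, inner_smul_left]
        simp only [conj_trivial]
        ring
      · rw [hψt x (fun h => hx (h3 h))]; simp
    rw [e1, integral_add (hi1.const_mul _) hi2, integral_const_mul, one_mul]
    have h5 : (1 / e0) * ∫ x, a x * inner ℝ (gradient u x) (gradient ψ x) ≤ ∫ x, ψ x := by
      rw [one_div, inv_mul_le_iff₀ he00]
      exact hw
    linarith
  have hDvol' : volume {x | x ∈ O' ∧ 0 < u' x} ≤ ENNReal.ofReal (Vη / 2) := by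
    refine (measure_mono ?_).trans hDvol
    intro x hx
    refine ⟨hx.1, ?_⟩
    have h2 : 0 < (1 / e0) * (u x - (1 - e0)) - 2 * ‖x‖ ^ 2 := hx.2
    have h5 : 0 < (1 / e0) * (u x - (1 - e0)) := by nlinarith [sq_nonneg ‖x‖]
    by_contra hcon
    have : (1 / e0) * (u x - (1 - e0)) ≤ 0 :=
      mul_nonpos_of_nonneg_of_nonpos (by positivity) (by linarith [not_lt.1 hcon])
    linarith
  have hst := stampacchia hn hK (k0 := 0) (β := 3 * K) (Λ := 1) (ε := η) hO'o
    (ha.mono inter_subset_left) (fun x hx => haK x hx.1) hu'C hbc hbβ (by positivity) zero_le_one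
    hη0 hcptT hweak' hDvol'
  intro x hx
  by_cases hxO : x ∈ O
  · have hx' : x ∈ O' := ⟨hxO, ball_subset_ball (by norm_num) hx⟩
    have h1 := hst x hx'
    have h2 : (1 / e0) * (u x - (1 - e0)) - 2 * ‖x‖ ^ 2 ≤ 1 / 4 := by
      have h3 : (1 / e0) * (u x - (1 - e0)) - 2 * ‖x‖ ^ 2 = u' x := rfl
      rw [h3]
      linarith
    have h3 : ‖x‖ < 1/4 := by simpa using hx
    have h4 : ‖x‖ ^ 2 ≤ (1/4) ^ 2 := pow_le_pow_left₀ (norm_nonneg _) h3.le 2
    have h5 : (1 / e0) * (u x - (1 - e0)) ≤ 3 / 8 := by nlinarith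
    rw [one_div, inv_mul_le_iff₀ he00] at h5
    linarith
  · have h1 : u x ≤ 0 := by
      by_contra h
      exact hxO (huO x (ball_subset_ball (by norm_num) hx) (not_le.1 h))
    nlinarith

end Pool.Agent.Helper676.PC
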