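import Pool.Agent.Helper676.PC6

set_option autoImplicit false

/-! Decrease of oscillation, all scales. -/

namespace Pool.Agent.Helper676.PC

open MeasureTheory Filter Topology Set InnerProductSpace Metric

variable {n : ℕ}

lemma grad_affine {u : E n → ℝ} {x0 : E n} {r : ℝ} {y : E n}
    (hu : DifferentiableAt ℝ u (x0 + r • y)) :
    gradient (fun y => u (x0 + r • y)) y = r • gradient u (x0 + r • y) := by
  have h1 : HasFDerivAt (fun y : E n => x0 + r • y) (r • ContinuousLinearMap.id ℝ (E n)) y := by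
    simpa using ((hasFDerivAt_id y).const_smul r).const_add x0
  have h2 := (hu.hasFDerivAt.comp y h1).fderiv
  have e : (fun y => u (x0 + r • y)) = u ∘ fun y => x0 + r • y := rfl
  rw [grad_def, grad_def, e, h2]
  have : (fderiv ℝ u (x0 + r • y)).comp (r • ContinuousLinearMap.id ℝ (E n)) =
      r • fderiv ℝ u (x0 + r • y) := by
    ext z; simp
  rw [this, map_smulₛₗ]
  simp

lemma integral_affine (F : E n → ℝ) (x0 : E n) {r : ℝ} (hr : 0 < r) :
    ∫ y, F (x0 + r • y) = (r ^ n)⁻¹ * ∫ x, F x := by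
  have h1 := Measure.integral_comp_smul (volume : Measure (E n)) (fun x => F (x0 + x)) r
  rw [h1, integral_add_left_eq_self F x0]
  rw [abs_of_pos (by positivity)]
  simp

lemma volume_affine (S : Set (E n)) (x0 : E n) {r : ℝ} (hr : 0 < r) :
    volume ((fun y : E n => x0 + r • y) ⁻¹' S) = ENNReal.ofReal ((r ^ n)⁻¹) * volume S := by
  have e : (fun y : E n => x0 + r • y) ⁻¹' S =
      (fun y : E n => r • y) ⁻¹' ((fun y => x0 + y) ⁻¹' S) := rfl
  rw [e, Measure.addHaar_preimage_smul _ hr.ne', measure_preimage_add]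
  rw [abs_of_pos (by positivity)]
  simp

/-- Decrease of oscillation at scale `r`. -/
theorem osc_scaled (hn : 0 < n) {K : ℝ} (hK : 1 ≤ K) {θ : ℝ} (hθ : 0 < θ) :
    ∃ δ l0 : ℝ, 0 < δ ∧ δ < 1 ∧ 0 < l0 ∧ ∀ (x0 : E n) (r : ℝ), 0 < r →
      ∀ (O : Set (E n)) (a u : E n → ℝ), IsOpen O →
      O ⊆ ball x0 r → ContinuousOn a O → (∀ x ∈ O, K⁻¹ ≤ a x ∧ a x ≤ K) →
      ContDiffOn ℝ 1 u O → ContinuousOn u (ball x0 r) →
      (∀ x ∈ ball x0 r, u x ≤ 1) → (∀ x ∈ ball x0 r, 0 < u x → x ∈ O) →
      (∀ ψ : E n → ℝ, ContDiff ℝ 1 ψ → HasCompactSupport ψ → tsupport ψ ⊆ O →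
        (∀ x, 0 ≤ ψ x) → ∫ x, a x * inner ℝ (gradient u x) (gradient ψ x) ≤
          l0 / r ^ 2 * ∫ x, ψ x) →
      ENNReal.ofReal (θ * r ^ n) ≤ volume {x | x ∈ ball x0 (3/4 * r) ∧ u x ≤ 0} →
      ∀ x ∈ ball x0 (1/4 * r), u x ≤ 1 - δ := by
  obtain ⟨δ, l0, hδ, hδ1, hl0, H⟩ := osc_unit hn hK hθ
  refine ⟨δ, l0, hδ, hδ1, hl0, ?_⟩
  intro x0 r hr O a u hO hOB ha haK hu huc hu1 huO hweak hvol
  set A : E n → E n := fun y => x0 + r • y with hA
  have hAc : Continuous A := by simp only [hA]; fun_prop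
  have hAd : ContDiff ℝ 1 A := by simp only [hA]; fun_prop
  have hball : ∀ (ρ : ℝ) (y : E n), y ∈ ball (0 : E n) ρ ↔ A y ∈ ball x0 (ρ * r) := by
    intro ρ y
    simp only [hA, mem_ball, dist_eq_norm, sub_zero, add_sub_cancel_left, norm_smul,
      Real.norm_of_nonneg hr.le]
    rw [mul_comm r]
    exact (mul_lt_mul_iff_left₀ hr).symm
  have hAinv : ∀ x : E n, A (r⁻¹ • (x - x0)) = x := by
    intro x
    simp only [hA]
    rw [smul_smul, mul_inv_cancel₀ hr.ne', one_smul]
    abel
  have key := H (A ⁻¹' O) (fun y => a (A y)) (fun y => u (A y)) (hO.preimage hAc)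
    (fun y hy => by
      rw [hball, one_mul]; exact hOB hy)
    (ha.comp hAc.continuousOn (fun y hy => hy)) (fun y hy => haK _ hy)
    (hu.comp hAd.contDiffOn (fun y hy => hy))
    (huc.comp hAc.continuousOn (fun y hy => by
      have := (hball 1 y).1 hy
      rwa [one_mul] at this))
    (fun y hy => hu1 _ (by have := (hball 1 y).1 hy; rwa [one_mul] at this))
    (fun y hy h => huO _ (by have := (hball 1 y).1 hy; rwa [one_mul] at this) h)
    ?_ ?_
  · intro x hx
    have h1 := key (r⁻¹ • (x - x0)) ((hball _ _).2 (by rw [hAinv]; exact hx))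
    simpa [hAinv] using h1
  · -- weak inequality
    intro ψ' h1 h2 h3 h4
    set ψ : E n → ℝ := fun x => ψ' (r⁻¹ • (x - x0)) with hψ
    have hψ' : ∀ y, ψ (A y) = ψ' y := by
      intro y
      simp only [hψ, hA, add_sub_cancel_left]
      rw [smul_smul, inv_mul_cancel₀ hr.ne', one_smul]
    have hψC : ContDiff ℝ 1 ψ := h1.comp (by fun_prop)
    let e : E n ≃ₜ E n :=
      { toFun := A
        invFun := fun x => r⁻¹ • (x - x0)
        left_inv := fun y => by
          simp only [hA, add_sub_cancel_left]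
          rw [smul_smul, inv_mul_cancel₀ hr.ne', one_smul]
        right_inv := hAinv
        continuous_toFun := hAc
        continuous_invFun := by fun_prop }
    have hψc : HasCompactSupport ψ := h2.comp_homeomorph e.symm
    have hψts : tsupport ψ = e '' tsupport ψ' := by
      have : ψ = ψ' ∘ e.symm := rfl
      rw [this, tsupport_comp_eq_preimage ψ' e.symm, Homeomorph.image_eq_preimage_symm]
    have hψt : tsupport ψ ⊆ O := by
      rw [hψts]
      rintro x ⟨y, hy, rfl⟩
      exact h3 hy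
    have hw := hweak ψ hψC hψc hψt (fun x => h4 _)
    have e1 : ∫ y, a (A y) * inner ℝ (gradient (fun y => u (A y)) y) (gradient ψ' y) =
        ∫ y, (fun x => r ^ 2 * (a x * inner ℝ (gradient u x) (gradient ψ x))) (x0 + r • y) := by
      congr 1
      ext y
      have e2 : gradient ψ' y = r • gradient ψ (x0 + r • y) := by
        have : ψ' = fun y => ψ (x0 + r • y) := funext fun y => (hψ' y).symm
        conv_lhs => rw [this]
        exact grad_affine (hψC.differentiable (by norm_num) _)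
      by_cases hy : A y ∈ O
      · have e3 : gradient (fun y => u (A y)) y = r • gradient u (x0 + r • y) :=
          grad_affine ((hu.differentiableOn (by norm_num)).differentiableAt (hO.mem_nhds hy))
        rw [e2, e3, inner_smul_left, inner_smul_right]
        simp only [hA, conj_trivial]
        ring
      · have h5 : gradient ψ (x0 + r • y) = 0 := grad_eq_zero_of_notMem fun h => hy (hψt h)
        rw [e2]
        simp only [h5, smul_zero, inner_zero_right, mul_zero]
    have e1' := e1.trans (integral_affine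
      (fun x => r ^ 2 * (a x * inner ℝ (gradient u x) (gradient ψ x))) x0 hr)
    rw [e1', integral_const_mul]
    have e2 : ∫ y, ψ' y = (r ^ n)⁻¹ * ∫ x, ψ x := by
      rw [← integral_affine ψ x0 hr]
      congr 1; ext y; exact (hψ' y).symm
    rw [e2]
    have h6 : r ^ 2 * ∫ x, a x * inner ℝ (gradient u x) (gradient ψ x) ≤
        r ^ 2 * (l0 / r ^ 2 * ∫ x, ψ x) := mul_le_mul_of_nonneg_left hw (by positivity)
    have e3 : r ^ 2 * (l0 / r ^ 2 * ∫ x, ψ x) = l0 * ∫ x, ψ x := by field_simp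
    rw [e3] at h6
    calc (r ^ n)⁻¹ * (r ^ 2 * ∫ x, a x * inner ℝ (gradient u x) (gradient ψ x))
        ≤ (r ^ n)⁻¹ * (l0 * ∫ x, ψ x) := mul_le_mul_of_nonneg_left h6 (by positivity)
      _ = _ := by ring
  · -- measure
    have e1 : {y | y ∈ ball (0 : E n) (3/4) ∧ u (A y) ≤ 0} =
        A ⁻¹' {x | x ∈ ball x0 (3/4 * r) ∧ u x ≤ 0} := by
      ext y
      simp only [mem_preimage]
      constructor
      · intro h; exact ⟨(hball _ _).1 h.1, h.2⟩
      · intro h; exact ⟨(hball _ _).2 h.1, h.2⟩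
    rw [e1]
    have e2 := volume_affine {x | x ∈ ball x0 (3/4 * r) ∧ u x ≤ 0} x0 hr
    rw [e2]
    calc ENNReal.ofReal θ = ENNReal.ofReal ((r ^ n)⁻¹) * ENNReal.ofReal (θ * r ^ n) := by
          rw [← ENNReal.ofReal_mul (by positivity)]
          congr 1
          field_simp
      _ ≤ _ := mul_le_mul' le_rfl hvol

end Pool.Agent.Helper676.PC
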