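import Pool.Agent.Helper676.PC7

set_option autoImplicit false

/-! Uniform modulus of continuity for bounded solutions vanishing on the boundary. -/

namespace Pool.Agent.Helper676.PC

open MeasureTheory Filter Topology Set InnerProductSpace Metric

variable {n : ℕ}

/-- data for the elliptic estimates: `|div(a∇w)| ≤ B` weakly, `w = 0` outside `Ω`, `|w| ≤ B`. -/
structure Ell (Ω : Set (E n)) (K B : ℝ) (a w : E n → ℝ) : Prop where
  aC : ContinuousOn a Ω
  aK : ∀ x ∈ Ω, K⁻¹ ≤ a x ∧ a x ≤ K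
  wC : Continuous w
  w0 : ∀ x, x ∉ Ω → w x = 0
  w1 : ContDiffOn ℝ 1 w Ω
  wB : ∀ x, |w x| ≤ B
  weak : ∀ ψ : E n → ℝ, ContDiff ℝ 1 ψ → HasCompactSupport ψ → tsupport ψ ⊆ Ω →
    |∫ x, a x * inner ℝ (gradient w x) (gradient ψ x)| ≤ B * ∫ x, |ψ x|

lemma Ell.neg {Ω : Set (E n)} {K B : ℝ} {a w : E n → ℝ} (h : Ell Ω K B a w) :
    Ell Ω K B a (fun x => - w x) where
  aC := h.aC
  aK := h.aK
  wC := h.wC.neg
  w0 := fun x hx => by rw [h.w0 x hx, neg_zero]
  w1 := h.w1.neg
  wB := fun x => by rw [abs_neg]; exact h.wB x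
  weak := by
    intro ψ h1 h2 h3
    have e : ∫ x, a x * inner ℝ (gradient (fun x => - w x) x) (gradient ψ x) =
        - ∫ x, a x * inner ℝ (gradient w x) (gradient ψ x) := by
      rw [← integral_neg]
      congr 1; ext x
      rw [grad_neg, inner_neg_left]; ring
    rw [e, abs_neg]
    exact h.weak ψ h1 h2 h3

lemma scale_weak {Ω O : Set (E n)} {K B : ℝ} {a w : E n → ℝ} (hΩ : IsOpen Ω) (h : Ell Ω K B a w)
    (hOΩ : O ⊆ Ω) {c m : ℝ} (hm : 0 < m) {L : ℝ} (hL : B ≤ L * m) :
    ∀ ψ : E n → ℝ, ContDiff ℝ 1 ψ → HasCompactSupport ψ → tsupport ψ ⊆ O →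
        (∀ x, 0 ≤ ψ x) →
        ∫ x, a x * inner ℝ (gradient (fun x => m⁻¹ * (w x - c)) x) (gradient ψ x) ≤
          L * ∫ x, ψ x := by
  intro ψ h1 h2 h3 h4
  have e1 : ∫ x, a x * inner ℝ (gradient (fun x => m⁻¹ * (w x - c)) x) (gradient ψ x) =
      m⁻¹ * ∫ x, a x * inner ℝ (gradient w x) (gradient ψ x) := by
    rw [← integral_const_mul]
    congr 1; ext x
    by_cases hx : x ∈ Ω
    · have hd : DifferentiableAt ℝ w x :=
        (h.w1.differentiableOn (by norm_num)).differentiableAt (hΩ.mem_nhds hx)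
      rw [grad_const_mul _ (hd.sub_const c), grad_sub_const, inner_smul_left]
      simp only [conj_trivial]; ring
    · have : gradient ψ x = 0 := grad_eq_zero_of_notMem fun h' => hx (hOΩ (h3 h'))
      rw [this]; simp
  rw [e1]
  have h5 := h.weak ψ h1 h2 (h3.trans hOΩ)
  have h6 : ∫ x, |ψ x| = ∫ x, ψ x := by
    congr 1; ext x; exact abs_of_nonneg (h4 x)
  rw [h6] at h5
  have h7 : 0 ≤ ∫ x, ψ x := integral_nonneg h4
  rw [inv_mul_le_iff₀ hm]
  calc ∫ x, a x * inner ℝ (gradient w x) (gradient ψ x)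
      ≤ |∫ x, a x * inner ℝ (gradient w x) (gradient ψ x)| := le_abs_self _
    _ ≤ B * ∫ x, ψ x := h5
    _ ≤ (L * m) * ∫ x, ψ x := mul_le_mul_of_nonneg_right hL h7
    _ = _ := by ring

/-- one step of the oscillation decay -/
lemma osc_step (hn : 0 < n) {K : ℝ} (hK : 1 ≤ K) {Ω : Set (E n)} (hΩ : IsOpen Ω) {r0 : ℝ}
    (hcork : ∀ y ∈ frontier Ω, ∀ r : ℝ, 0 < r → r ≤ r0 → ∃ z : E n, ball z (r / 8) ⊆ ball y r \ Ω) :
    ∃ δ C1 : ℝ, 0 < δ ∧ δ < 1 ∧ 0 < C1 ∧ ∀ (B : ℝ) (a w : E n → ℝ), Ell Ω K B a w →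
      ∀ (x0 : E n) (r A : ℝ), 0 < r → r ≤ r0 →
      (∀ x' ∈ ball x0 r, ∀ x'' ∈ ball x0 r, w x' - w x'' ≤ A) →
      ∀ x' ∈ ball x0 (r / 8), ∀ x'' ∈ ball x0 (r / 8),
        w x' - w x'' ≤ (1 - δ / 2) * A + C1 * B * r ^ 2 := by
  set V1 := volume.real (ball (0 : E n) 1) with hV1
  have hV10 : 0 < V1 := volReal_ball_pos n one_pos
  set θ := (1/32) ^ n * V1 / 2 with hθ
  have hθ0 : 0 < θ := by positivity
  obtain ⟨δ, l0, hδ, hδ1, hl0, H⟩ := osc_scaled hn hK hθ0
  refine ⟨δ, 2 / l0, hδ, hδ1, by positivity, ?_⟩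
  intro B a w h x0 r A hr hrr0 hA x' hx' x'' hx''
  have hB0 : 0 ≤ B := (abs_nonneg _).trans (h.wB x0)
  have hA0 : 0 ≤ A := by
    have := hA x0 (mem_ball_self hr) x0 (mem_ball_self hr)
    linarith
  have hvb : ∀ (z : E n) {ρ : ℝ}, 0 < ρ → volume (ball z ρ) = ENNReal.ofReal (ρ ^ n * V1) := by
    intro z ρ hρ
    have e1 : volume (ball z ρ) = volume (ball (0 : E n) ρ) := Measure.addHaar_ball_center _ _ _
    rw [e1, ← volReal_ball n hρ, measureReal_def, ENNReal.ofReal_toReal measure_ball_lt_top.ne]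
  have hr8 : ball x0 (r / 8) ⊆ ball x0 r := ball_subset_ball (by linarith)
  by_cases hI : ball x0 (r / 2) ⊆ Ω
  · -- interior case
    set ρ := r / 2 with hρ
    have hρ0 : 0 < ρ := by positivity
    have hρr : ball x0 ρ ⊆ ball x0 r := ball_subset_ball (by linarith)
    set m := A / 2 with hm
    by_cases hsmall : l0 / ρ ^ 2 * m < B
    · have h1 := hA x' (hr8 hx') x'' (hr8 hx'')
      have h2 : A ≤ 2 / l0 * B * r ^ 2 := by
        have h3 : l0 * m < B * ρ ^ 2 := by
          rw [div_mul_eq_mul_div, div_lt_iff₀ (by positivity)] at hsmall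
          exact hsmall
        have h4 : l0 * A ≤ l0 * (2 / l0 * B * r ^ 2) := by
          have e : l0 * (2 / l0 * B * r ^ 2) = 2 * B * r ^ 2 := by field_simp
          rw [e]
          have e2 : ρ ^ 2 = r ^ 2 / 4 := by rw [hρ]; ring
          have e3 : l0 * A = 2 * (l0 * m) := by rw [hm]; ring
          rw [e3]; rw [e2] at h3
          nlinarith [mul_nonneg hB0 (sq_nonneg r)]
        exact le_of_mul_le_mul_left h4 hl0
      have h3 : 0 ≤ (1 - δ / 2) * A := mul_nonneg (by linarith) hA0
      linarith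
    · push Not at hsmall
      rcases hA0.eq_or_lt with hAz | hApos
      · have h1 := hA x' (hr8 hx') x'' (hr8 hx'')
        rw [← hAz] at h1 ⊢
        have : 0 ≤ 2 / l0 * B * r ^ 2 := by positivity
        linarith
      have hm0 : 0 < m := by positivity
      set M := sSup (w '' ball x0 ρ) with hM
      have hbdd : BddAbove (w '' ball x0 ρ) :=
        ⟨B, by rintro _ ⟨x, _, rfl⟩; exact (abs_le.1 (h.wB x)).2⟩
      have hwM : ∀ x ∈ ball x0 ρ, w x ≤ M := fun x hx => le_csSup hbdd ⟨x, hx, rfl⟩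
      have hMw : ∀ x ∈ ball x0 ρ, M - A ≤ w x := by
        intro x hx
        have : M ≤ w x + A := by
          refine csSup_le (Set.Nonempty.image w ⟨x0, mem_ball_self hρ0⟩) ?_
          rintro _ ⟨y, hy, rfl⟩
          have := hA y (hρr hy) x (hρr hx)
          linarith
        linarith
      set u : E n → ℝ := fun x => m⁻¹ * (w x - (M - m)) with hu
      set u2 : E n → ℝ := fun x => m⁻¹ * (- w x - (-(M - m))) with hu2
      have hu12 : ∀ x, u2 x = - u x := fun x => by simp only [hu, hu2]; ring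
      have hρ4 : (1/4 : ℝ) * ρ = r / 8 := by rw [hρ]; ring
      have huw : ∀ x, w x = M - m + m * u x := by
        intro x; simp only [hu]; field_simp; ring
      -- measure dichotomy
      have hball34 : ball x0 (3/4 * ρ) ⊆ {x | x ∈ ball x0 (3/4 * ρ) ∧ u x ≤ 0} ∪
          {x | x ∈ ball x0 (3/4 * ρ) ∧ u2 x ≤ 0} := by
        intro x hx
        rcases le_total (u x) 0 with h1 | h1
        · exact Or.inl ⟨hx, h1⟩
        · exact Or.inr ⟨hx, by rw [hu12]; linarith⟩
      have hdich : ENNReal.ofReal (θ * ρ ^ n) ≤ volume {x | x ∈ ball x0 (3/4 * ρ) ∧ u x ≤ 0} ∨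
          ENNReal.ofReal (θ * ρ ^ n) ≤ volume {x | x ∈ ball x0 (3/4 * ρ) ∧ u2 x ≤ 0} := by
        by_contra hcon
        push Not at hcon
        have h1 := (measure_mono (μ := volume) hball34).trans (measure_union_le _ _)
        rw [hvb x0 (by positivity : 0 < 3/4 * ρ)] at h1
        have h2 := h1.trans_lt (ENNReal.add_lt_add hcon.1 hcon.2)
        rw [← ENNReal.ofReal_add (by positivity) (by positivity),
          ENNReal.ofReal_lt_ofReal_iff (by positivity)] at h2
        have h3 : θ * ρ ^ n + θ * ρ ^ n ≤ (3/4 * ρ) ^ n * V1 := by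
          rw [hθ, mul_pow]
          have : ((1:ℝ)/32) ^ n ≤ (3/4) ^ n := pow_le_pow_left₀ (by norm_num) (by norm_num) n
          have h4 : 0 ≤ ρ ^ n * V1 := by positivity
          nlinarith
        linarith
      have huc : ContinuousOn u (ball x0 ρ) :=
        (continuous_const.mul (h.wC.sub continuous_const)).continuousOn
      have hu2c : ContinuousOn u2 (ball x0 ρ) :=
        (continuous_const.mul (h.wC.neg.sub continuous_const)).continuousOn
      have huC : ContDiffOn ℝ 1 u (ball x0 ρ) :=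
        contDiffOn_const.mul ((h.w1.mono hI).sub contDiffOn_const)
      have hu2C : ContDiffOn ℝ 1 u2 (ball x0 ρ) :=
        contDiffOn_const.mul ((h.w1.mono hI).neg.sub contDiffOn_const)
      have hu1 : ∀ x ∈ ball x0 ρ, u x ≤ 1 := by
        intro x hx
        simp only [hu]
        rw [inv_mul_le_iff₀ hm0]
        linarith [hwM x hx]
      have hu21 : ∀ x ∈ ball x0 ρ, u2 x ≤ 1 := by
        intro x hx
        simp only [hu2]
        rw [inv_mul_le_iff₀ hm0]
        have := hMw x hx
        rw [hm]; linarith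
      rcases hdich with hd | hd
      · have key := H x0 ρ hρ0 (ball x0 ρ) a u isOpen_ball subset_rfl (h.aC.mono hI)
          (fun x hx => h.aK x (hI hx)) huC huc hu1 (fun x hx _ => hx)
          (scale_weak hΩ h hI hm0 hsmall) hd
        have h1 := key x' (by rw [hρ4]; exact hx')
        have h2 := hMw x'' (by apply ball_subset_ball _ hx''; rw [hρ]; linarith)
        have h3 := huw x'
        have h4 : m * u x' ≤ m * (1 - δ) := mul_le_mul_of_nonneg_left h1 hm0.le
        have h5 : 0 ≤ 2 / l0 * B * r ^ 2 := by positivity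
        have h6 : m = A / 2 := hm
        nlinarith
      · have key := H x0 ρ hρ0 (ball x0 ρ) a u2 isOpen_ball subset_rfl (h.aC.mono hI)
          (fun x hx => h.aK x (hI hx)) hu2C hu2c hu21 (fun x hx _ => hx)
          (scale_weak hΩ h.neg hI hm0 hsmall) hd
        have h1 := key x'' (by rw [hρ4]; exact hx'')
        rw [hu12] at h1
        have h2 := hwM x' (by apply ball_subset_ball _ hx'; rw [hρ]; linarith)
        have h3 := huw x''
        have h4 : m * (-u x'') ≤ m * (1 - δ) := mul_le_mul_of_nonneg_left h1 hm0.le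
        have h5 : 0 ≤ 2 / l0 * B * r ^ 2 := by positivity
        have h6 : m = A / 2 := hm
        nlinarith
  · -- boundary case
    have hr2 : ball x0 (r / 2) ⊆ ball x0 r := ball_subset_ball (by linarith)
    obtain ⟨p, hp, hpΩ⟩ := not_subset.1 hI
    by_cases hempty : (ball x0 (r / 2) ∩ Ω).Nonempty
    · have hfr : (ball x0 (r / 2) ∩ frontier Ω).Nonempty := by
        by_contra hno
        rw [not_nonempty_iff_eq_empty] at hno
        have h1 : ball x0 (r / 2) ⊆ Ω ∪ (closure Ω)ᶜ := by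
          intro x hx
          by_cases hxΩ : x ∈ Ω
          · exact Or.inl hxΩ
          · right
            intro hxc
            have : x ∈ ball x0 (r / 2) ∩ frontier Ω := ⟨hx, by
              rw [hΩ.frontier_eq]; exact ⟨hxc, hxΩ⟩⟩
            rw [hno] at this
            exact this
        have h2 : Disjoint Ω (closure Ω)ᶜ :=
          disjoint_compl_right_iff_subset.2 subset_closure
        have h3 := (convex_ball x0 (r / 2)).isPreconnected.subset_left_of_subset_union hΩ
          isClosed_closure.isOpen_compl h2 h1 hempty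
        exact hpΩ (h3 hp)
      obtain ⟨y, hy, hyf⟩ := hfr
      obtain ⟨z, hz⟩ := hcork y hyf (r / 4) (by positivity) (by linarith)
      -- one sided estimate
      have one : ∀ w' : E n → ℝ, Ell Ω K B a w' → ∀ M : ℝ, 0 ≤ M → (∀ x ∈ ball x0 r, w' x ≤ M) →
          ∀ x ∈ ball x0 (r / 8), w' x ≤ (1 - δ) * M + B * r ^ 2 / l0 := by
        intro w' hw' M hM0 hM x hx
        by_cases hsm : M ≤ B * r ^ 2 / l0
        · have h1 := hM x (hr8 hx)
          have : 0 ≤ (1 - δ) * M := mul_nonneg (by linarith) hM0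
          linarith
        · push Not at hsm
          have hMpos : 0 < M := lt_of_le_of_lt (by positivity) hsm
          have hBL : B ≤ l0 / r ^ 2 * M := by
            rw [div_lt_iff₀ hl0] at hsm
            rw [div_mul_eq_mul_div, le_div_iff₀ (by positivity)]
            linarith
          have key := H x0 r hr (Ω ∩ ball x0 r) a (fun x => M⁻¹ * (w' x - 0))
            (hΩ.inter isOpen_ball) inter_subset_right (hw'.aC.mono inter_subset_left)
            (fun x hx => hw'.aK x hx.1)
            (contDiffOn_const.mul ((hw'.w1.mono inter_subset_left).sub contDiffOn_const))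
            ((continuous_const.mul (hw'.wC.sub continuous_const)).continuousOn)
            (fun x hx => by
              rw [inv_mul_le_iff₀ hMpos]; linarith [hM x hx])
            (fun x hx h0 => by
              refine ⟨?_, hx⟩
              by_contra hxΩ
              simp only [hw'.w0 x hxΩ] at h0
              simp at h0)
            (scale_weak hΩ hw' inter_subset_left hMpos hBL)
            (by
              have hsub : ball z (r / 4 / 8) ⊆
                  {x | x ∈ ball x0 (3/4 * r) ∧ M⁻¹ * (w' x - 0) ≤ 0} := by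
                intro x hx
                have h1 := hz hx
                refine ⟨?_, ?_⟩
                · have h2 : dist x y < r / 4 := h1.1
                  have h3 : dist y x0 < r / 2 := hy
                  have := dist_triangle x y x0
                  simp only [mem_ball]; linarith
                · rw [hw'.w0 x h1.2]; simp
              refine le_trans ?_ (measure_mono hsub)
              rw [hvb z (by positivity)]
              apply ENNReal.ofReal_le_ofReal
              have e : (r / 4 / 8) ^ n = (1/32) ^ n * r ^ n := by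
                rw [← mul_pow]; congr 1; ring
              rw [e, hθ]
              have : 0 ≤ (1 / 32) ^ n * V1 * r ^ n := by positivity
              nlinarith)
          have h1 := key x (ball_subset_ball (by linarith) hx)
          rw [sub_zero, inv_mul_le_iff₀ hMpos] at h1
          have h2 : 0 ≤ B * r ^ 2 / l0 := by positivity
          linarith
      set Mp := sSup (w '' ball x0 r) with hMp
      set Mm := sSup ((fun x => - w x) '' ball x0 r) with hMm
      have hbp : BddAbove (w '' ball x0 r) :=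
        ⟨B, by rintro _ ⟨x, _, rfl⟩; exact (abs_le.1 (h.wB x)).2⟩
      have hbm : BddAbove ((fun x => - w x) '' ball x0 r) :=
        ⟨B, by rintro _ ⟨x, _, rfl⟩; simp only; linarith [(abs_le.1 (h.wB x)).1]⟩
      have hwp : ∀ x ∈ ball x0 r, w x ≤ Mp := fun x hx => le_csSup hbp ⟨x, hx, rfl⟩
      have hwm : ∀ x ∈ ball x0 r, - w x ≤ Mm := fun x hx => le_csSup hbm ⟨x, hx, rfl⟩
      have hp0 : w p = 0 := h.w0 p hpΩ
      have hMp0 : 0 ≤ Mp := by have := hwp p (hr2 hp); rwa [hp0] at this
      have hMm0 : 0 ≤ Mm := by have := hwm p (hr2 hp); rwa [hp0, neg_zero] at this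
      have hsum : Mp + Mm ≤ A := by
        have h1 : Mm ≤ A - Mp := by
          refine csSup_le (Set.Nonempty.image _ ⟨x0, mem_ball_self hr⟩) ?_
          rintro _ ⟨x, hx, rfl⟩
          have h2 : Mp ≤ A + w x := by
            refine csSup_le (Set.Nonempty.image w ⟨x0, mem_ball_self hr⟩) ?_
            rintro _ ⟨y, hy, rfl⟩
            have := hA y hy x hx
            linarith
          simp only; linarith
        linarith
      have h1 := one w h Mp hMp0 hwp x' hx'
      have h2 := one _ h.neg Mm hMm0 hwm x'' hx''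
      have h3 : (1 - δ) * (Mp + Mm) ≤ (1 - δ) * A :=
        mul_le_mul_of_nonneg_left hsum (by linarith)
      have h4 : (1 - δ) * A ≤ (1 - δ / 2) * A := mul_le_mul_of_nonneg_right (by linarith) hA0
      have h5 : 2 / l0 * B * r ^ 2 = 2 * (B * r ^ 2 / l0) := by ring
      rw [h5]
      linarith
    · have hz : ∀ x ∈ ball x0 (r / 2), w x = 0 := by
        intro x hx
        apply h.w0
        intro hxΩ
        exact hempty ⟨x, hx, hxΩ⟩
      rw [hz x' (ball_subset_ball (by linarith) hx'), hz x'' (ball_subset_ball (by linarith) hx'')]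
      have h1 : 0 ≤ (1 - δ / 2) * A := mul_nonneg (by linarith) hA0
      have h2 : 0 ≤ 2 / l0 * B * r ^ 2 := by positivity
      linarith

/-- uniform modulus of continuity -/
theorem modulus (hn : 0 < n) {K : ℝ} (hK : 1 ≤ K) {Ω : Set (E n)} (hΩ : IsOpen Ω) {r0 : ℝ}
    (hr0 : 0 < r0)
    (hcork : ∀ y ∈ frontier Ω, ∀ r : ℝ, 0 < r → r ≤ r0 → ∃ z : E n, ball z (r / 8) ⊆ ball y r \ Ω) :
    ∃ C κ : ℝ, 0 < C ∧ 0 < κ ∧ κ < 1 ∧ ∀ (B : ℝ) (a w : E n → ℝ), Ell Ω K B a w →
      ∀ (j : ℕ) (x0 : E n), ∀ x' ∈ ball x0 (r0 / 8 ^ j), ∀ x'' ∈ ball x0 (r0 / 8 ^ j),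
        w x' - w x'' ≤ C * B * κ ^ j := by
  obtain ⟨δ, C1, hδ, hδ1, hC1, H⟩ := osc_step hn hK hΩ hcork
  refine ⟨2 + 4 * C1 * r0 ^ 2 / δ, 1 - δ / 4, by positivity, by linarith, by linarith, ?_⟩
  intro B a w h j
  have hB0 : 0 ≤ B := (abs_nonneg _).trans (h.wB 0)
  set C := 2 + 4 * C1 * r0 ^ 2 / δ with hC
  set κ := 1 - δ / 4 with hκ
  have hκ1 : 3/4 ≤ κ := by rw [hκ]; linarith
  induction j with
  | zero =>
    intro x0 x' _ x'' _
    have h1 := (abs_le.1 (h.wB x')).2
    have h2 := (abs_le.1 (h.wB x'')).1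
    have h3 : 2 * B ≤ C * B := by
      apply mul_le_mul_of_nonneg_right _ hB0
      rw [hC]
      have : 0 ≤ 4 * C1 * r0 ^ 2 / δ := by positivity
      linarith
    simp only [pow_zero, mul_one]
    linarith
  | succ j ih =>
    intro x0 x' hx' x'' hx''
    have hrj : 0 < r0 / 8 ^ j := by positivity
    have hrj1 : r0 / 8 ^ j ≤ r0 := div_le_self hr0.le (one_le_pow₀ (by norm_num))
    have e : r0 / 8 ^ (j + 1) = r0 / 8 ^ j / 8 := by rw [pow_succ]; field_simp
    rw [e] at hx' hx''
    have h1 := H B a w h x0 (r0 / 8 ^ j) (C * B * κ ^ j) hrj hrj1 (ih x0) x' hx' x'' hx''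
    refine h1.trans ?_
    have h2 : C1 * B * (r0 / 8 ^ j) ^ 2 ≤ C1 * B * r0 ^ 2 * κ ^ j := by
      have h3 : (r0 / 8 ^ j) ^ 2 = r0 ^ 2 * (1/64) ^ j := by
        rw [div_pow, ← pow_mul, mul_comm j 2, pow_mul, one_div, inv_pow]; norm_num
        rfl
      rw [h3]
      have h4 : ((1:ℝ)/64) ^ j ≤ κ ^ j := pow_le_pow_left₀ (by norm_num) (by linarith) j
      calc C1 * B * (r0 ^ 2 * (1/64) ^ j) ≤ C1 * B * (r0 ^ 2 * κ ^ j) := by gcongr
        _ = _ := by ring
    have h3 : C1 * r0 ^ 2 ≤ C * (δ / 4) := by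
      rw [hC, add_mul]
      have : 4 * C1 * r0 ^ 2 / δ * (δ / 4) = C1 * r0 ^ 2 := by field_simp
      rw [this]; linarith
    have h4 : C1 * B * r0 ^ 2 * κ ^ j ≤ C * (δ / 4) * B * κ ^ j := by
      have : 0 ≤ B * κ ^ j := by
        have : 0 ≤ κ ^ j := pow_nonneg (by linarith) j
        positivity
      nlinarith
    have e2 : C * B * κ ^ (j + 1) = (1 - δ / 2) * (C * B * κ ^ j) + C * (δ / 4) * B * κ ^ j := by
      rw [pow_succ, hκ]; ring
    rw [e2]
    linarith

end Pool.Agent.Helper676.PC
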