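import Pool.Agent.Helper676.PCDef

set_option autoImplicit false

/-! Mollification (proved by helper856). -/

namespace Pool.Agent.Helper676.PC

open MeasureTheory Filter Topology Set Metric

/-- scale one -/
theorem mollify_one (n : ℕ) : ∃ C : ℝ, 0 < C ∧ ∀ w : E n → ℝ, Continuous w → ∀ B : ℝ,
    (∀ x, |w x| ≤ B) → ∀ ω : ℝ, (∀ x y, dist x y ≤ 1 → |w x - w y| ≤ ω) →
    ∃ p : E n → ℝ, ContDiff ℝ 1 p ∧ (∀ x, |w x - p x| ≤ ω) ∧ ∀ x, ‖fderiv ℝ p x‖ ≤ C * B := by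
  let φ : ContDiffBump (0 : E n) := ⟨1 / 2, 1, by norm_num, by norm_num⟩
  set ρ : E n → ℝ := φ.normed volume with hρ
  have hρc : HasCompactSupport ρ := φ.hasCompactSupport_normed
  have hρs : ContDiff ℝ 1 ρ := φ.contDiff_normed
  have hfc : HasCompactSupport (fderiv ℝ ρ) := hρc.fderiv ℝ
  have hfcont : Continuous (fderiv ℝ ρ) := hρs.continuous_fderiv one_ne_zero
  have hint : Integrable (fun t => ‖fderiv ℝ ρ t‖) :=
    (hfcont.integrable_of_hasCompactSupport hfc).norm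
  refine ⟨(∫ t, ‖fderiv ℝ ρ t‖) + 1, by positivity, ?_⟩
  intro w hw B hB ω hω
  have hB0 : 0 ≤ B := (abs_nonneg _).trans (hB 0)
  have hloc : LocallyIntegrable w volume := hw.locallyIntegrable
  refine ⟨MeasureTheory.convolution ρ w (ContinuousLinearMap.lsmul ℝ ℝ) volume, ?_, ?_, ?_⟩
  · exact hρc.contDiff_convolution_left _ hρs hloc
  · intro x
    have h := φ.dist_normed_convolution_le (μ := volume) (x₀ := x) (g := w) (ε := ω)
      hw.aestronglyMeasurable (by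
        intro y hy
        rw [Real.dist_eq]
        apply hω
        exact (mem_ball.1 hy).le)
    rw [Real.dist_eq, abs_sub_comm] at h
    exact h
  · intro x
    have hd := hρc.hasFDerivAt_convolution_left (ContinuousLinearMap.lsmul ℝ ℝ) hρs hloc x
    rw [hd.fderiv]
    have hb : ‖∫ t, ((ContinuousLinearMap.lsmul ℝ ℝ : ℝ →L[ℝ] ℝ →L[ℝ] ℝ).precompL (E n))
        (fderiv ℝ ρ t) (w (x - t))‖ ≤ ∫ t, ‖fderiv ℝ ρ t‖ * B := by
      apply norm_integral_le_of_norm_le (hint.mul_const B)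
      refine Filter.Eventually.of_forall fun t => ?_
      refine (ContinuousLinearMap.le_opNorm₂ _ _ _).trans ?_
      have h2 : ‖w (x - t)‖ ≤ B := hB _
      calc _ ≤ 1 * ‖fderiv ℝ ρ t‖ * B := by
            gcongr
            exact (ContinuousLinearMap.norm_precompL_le _ _).trans
              ContinuousLinearMap.opNorm_lsmul_le
        _ = _ := by ring
    rw [integral_mul_const] at hb
    refine hb.trans ?_
    nlinarith

/-- mollification at scale `σ`, with gradient bound `C B / σ`. -/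
theorem mollify (n : ℕ) : ∃ C : ℝ, 0 < C ∧ ∀ w : E n → ℝ, Continuous w → ∀ B : ℝ,
    (∀ x, |w x| ≤ B) → ∀ σ : ℝ, 0 < σ → ∀ ω : ℝ, (∀ x y, dist x y ≤ σ → |w x - w y| ≤ ω) →
    ∃ p : E n → ℝ, ContDiff ℝ 1 p ∧ (∀ x, |w x - p x| ≤ ω) ∧ ∀ x, ‖fderiv ℝ p x‖ ≤ C * B / σ := by
  obtain ⟨C, hC, h⟩ := mollify_one n
  refine ⟨C, hC, ?_⟩
  intro w hw B hB σ hσ ω hω
  obtain ⟨p, hp, h1, h2⟩ := h (fun x => w (σ • x)) (by fun_prop) B (fun x => hB _) ω (by
    intro x y hxy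
    apply hω
    rw [dist_smul₀, Real.norm_eq_abs, abs_of_pos hσ]
    nlinarith)
  refine ⟨fun x => p (σ⁻¹ • x), by fun_prop, ?_, ?_⟩
  · intro x
    have := h1 (σ⁻¹ • x)
    rwa [smul_inv_smul₀ hσ.ne'] at this
  · intro x
    have hd : HasFDerivAt (fun x => p (σ⁻¹ • x)) (σ⁻¹ • fderiv ℝ p (σ⁻¹ • x)) x := by
      have h3 : HasFDerivAt p (fderiv ℝ p (σ⁻¹ • x)) (σ⁻¹ • x) :=
        (hp.differentiable (by norm_num)).differentiableAt.hasFDerivAt
      have h4 : HasFDerivAt (fun x : E n => σ⁻¹ • x) (σ⁻¹ • ContinuousLinearMap.id ℝ (E n)) x :=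
        (hasFDerivAt_id x).const_smul σ⁻¹
      have h6 : σ⁻¹ • fderiv ℝ p (σ⁻¹ • x) =
          (fderiv ℝ p (σ⁻¹ • x)).comp (σ⁻¹ • ContinuousLinearMap.id ℝ (E n)) := by
        ext v
        simp
      rw [h6]
      exact h3.comp x h4
    rw [hd.fderiv, norm_smul, norm_inv, Real.norm_eq_abs, abs_of_pos hσ]
    have := h2 (σ⁻¹ • x)
    rw [div_eq_inv_mul]
    gcongr

end Pool.Agent.Helper676.PC
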