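import Pool.Agent.Helper676.PCDef

set_option autoImplicit false

/-! Gradient vanishes a.e. on the zero set (proved by helper615). -/

namespace Pool.Agent.Helper676.PC

open MeasureTheory Filter Topology Set Metric

/-- the gradient of a `C¹` function vanishes almost everywhere on its zero set -/
theorem ae_fderiv_zero {n : ℕ} {O : Set (E n)} (hO : IsOpen O) {w : E n → ℝ}
    (hw : ContDiffOn ℝ 1 w O) :
    volume {x | x ∈ O ∧ w x = 0 ∧ fderiv ℝ w x ≠ 0} = 0 := by
  apply measure_null_of_locally_null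
  rintro x0 ⟨hx0, _, hD⟩
  obtain ⟨v, hv⟩ : ∃ v, 0 < fderiv ℝ w x0 v := by
    obtain ⟨v, hv⟩ : ∃ v, fderiv ℝ w x0 v ≠ 0 := by
      by_contra hcon
      push Not at hcon
      exact hD (ContinuousLinearMap.ext hcon)
    rcases lt_or_gt_of_ne hv with h | h
    · exact ⟨-v, by rw [map_neg]; linarith⟩
    · exact ⟨v, h⟩
  have hcont : ContinuousOn (fun x => fderiv ℝ w x v) O :=
    (hw.continuousOn_fderiv_of_isOpen hO le_rfl).clm_apply continuousOn_const
  have hev : ∀ᶠ y in 𝓝 x0, 0 < fderiv ℝ w y v :=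
    (hcont.continuousAt (hO.mem_nhds hx0)).eventually (lt_mem_nhds hv)
  obtain ⟨r, hr, hball⟩ := Metric.eventually_nhds_iff_ball.mp (hev.and (hO.mem_nhds hx0))
  set S : Set (E n) := closedBall x0 (r / 2) ∩ w ⁻¹' {0} with hS
  have hsub : closedBall x0 (r / 2) ⊆ ball x0 r := closedBall_subset_ball (by linarith)
  have hSclosed : IsClosed S :=
    (hw.continuousOn.mono fun y hy => (hball y (hsub hy)).2).preimage_isClosed_of_isClosed
      isClosed_closedBall isClosed_singleton
  have hSnull : volume S = 0 := by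
    by_contra hne
    have hpos : 0 < volume S := pos_iff_ne_zero.mpr hne
    have hnhds := Measure.sub_mem_nhds_zero_of_addHaar_pos volume S hSclosed.measurableSet hpos
    have htend : Tendsto (fun τ : ℝ => τ • v) (𝓝[>] 0) (𝓝 0) := by
      have : Tendsto (fun τ : ℝ => τ • v) (𝓝 0) (𝓝 ((0 : ℝ) • v)) :=
        (continuous_id.smul continuous_const).tendsto 0
      rw [zero_smul] at this
      exact this.mono_left nhdsWithin_le_nhds
    obtain ⟨τ, hτ, hτ0⟩ := ((htend.eventually hnhds).and self_mem_nhdsWithin).exists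
    have hτ0' : (0 : ℝ) < τ := hτ0
    obtain ⟨y1, hy1, y2, hy2, hy⟩ := Set.mem_sub.mp hτ
    have hy1' : y1 = y2 + τ • v := by rw [← hy]; abel
    -- points of the segment
    have hseg : ∀ t ∈ Icc (0 : ℝ) τ, y2 + t • v ∈ ball x0 r := by
      intro t ht
      have hconv := (convex_closedBall x0 (r / 2)).add_smul_sub_mem hy2.1 hy1.1
        (t := t / τ) ⟨div_nonneg ht.1 hτ0'.le, (div_le_one hτ0').mpr ht.2⟩
      have e : y2 + (t / τ) • (y1 - y2) = y2 + t • v := by
        rw [hy, smul_smul, div_mul_cancel₀ _ hτ0'.ne']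
      rw [e] at hconv
      exact hsub hconv
    have hder : ∀ t ∈ Icc (0 : ℝ) τ, HasDerivAt (fun t : ℝ => w (y2 + t • v))
        (fderiv ℝ w (y2 + t • v) v) t := by
      intro t ht
      have h1 : HasFDerivAt w (fderiv ℝ w (y2 + t • v)) (y2 + t • v) :=
        ((hw.differentiableOn one_ne_zero).differentiableAt
          (hO.mem_nhds (hball _ (hseg t ht)).2)).hasFDerivAt
      have h2 : HasDerivAt (fun t : ℝ => y2 + t • v) v t := by
        simpa using ((hasDerivAt_id t).smul_const v).const_add y2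
      exact h1.comp_hasDerivAt t h2
    obtain ⟨c, hc, hc0⟩ := exists_hasDerivAt_eq_zero (f := fun t : ℝ => w (y2 + t • v))
      (f' := fun t => fderiv ℝ w (y2 + t • v) v) hτ0'
      (fun t ht => (hder t ht).continuousAt.continuousWithinAt)
      (by
        have h1 : w y1 = 0 := hy1.2
        have h2 : w y2 = 0 := hy2.2
        rw [hy1'] at h1
        simp only [zero_smul, add_zero]
        rw [h1, h2])
      (fun t ht => hder t (Ioo_subset_Icc_self ht))
    have := (hball _ (hseg c (Ioo_subset_Icc_self hc))).1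
    linarith
  refine ⟨ball x0 (r / 2) ∩ {x | x ∈ O ∧ w x = 0 ∧ fderiv ℝ w x ≠ 0}, ?_, ?_⟩
  · exact inter_mem (mem_nhdsWithin_of_mem_nhds (ball_mem_nhds x0 (by linarith)))
      self_mem_nhdsWithin
  · refine measure_mono_null ?_ hSnull
    rintro y ⟨hy1, hy2⟩
    exact ⟨ball_subset_closedBall hy1, hy2.2.1⟩

end Pool.Agent.Helper676.PC
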