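import Pool.Agent.Helper676.PC8
import Pool.Agent.Helper676.PCD
import Pool.Agent.Helper676.PCE

set_option autoImplicit false

/-! The form bound for `|∇w|²` and the total energy bound. -/

namespace Pool.Agent.Helper676.PC

open MeasureTheory Filter Topology Set InnerProductSpace Metric

variable {n : ℕ}

lemma two_mul_le_of_sq {x A B : ℝ} (hA : 0 ≤ A) (hB : 0 ≤ B) (h : x ^ 2 ≤ 4 * A * B) : x ≤ A + B := by
  have h1 : x ^ 2 ≤ (A + B) ^ 2 := by nlinarith [sq_nonneg (A - B)]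
  exact (abs_le_of_sq_le_sq' h1 (by linarith)).2

/-- form bound -/
theorem form_bound (hn : 0 < n) {K : ℝ} (hK : 1 ≤ K) {Ω : Set (E n)} (hΩ : IsOpen Ω) {r0 : ℝ}
    (hr0 : 0 < r0)
    (hcork : ∀ y ∈ frontier Ω, ∀ r : ℝ, 0 < r → r ≤ r0 → ∃ z : E n, ball z (r / 8) ⊆ ball y r \ Ω) :
    ∃ C κ : ℝ, 0 < C ∧ 0 < κ ∧ κ < 1 ∧ ∀ (B : ℝ) (a w : E n → ℝ), Ell Ω K B a w →
      ∀ (j : ℕ) (Ψ e : E n → ℝ), ContDiff ℝ 1 Ψ → HasCompactSupport Ψ → tsupport Ψ ⊆ Ω →
      (∀ x, 0 ≤ Ψ x) → Integrable e → (∀ x, 0 ≤ e x) →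
      (∀ x, ‖gradient Ψ x‖ ^ 2 ≤ 4 * Ψ x * e x) →
      ∫ x, Ψ x * ‖gradient w x‖ ^ 2 ≤
        C * B ^ 2 * (κ ^ (2 * j) * (∫ x, e x) + 64 ^ j * ∫ x, Ψ x) := by
  obtain ⟨Cω, κ, hCω, hκ0, hκ1, hmod⟩ := modulus hn hK hΩ hr0 hcork
  obtain ⟨Cm, hCm, hmoll⟩ := mollify n
  have hK0 : 0 < K := by linarith
  refine ⟨2 * K * Cω + 2 * K ^ 4 * (2 * Cm / r0) ^ 2 + 8 * K ^ 4 * Cω ^ 2, κ, by positivity,
    hκ0, hκ1, ?_⟩
  intro B a w h j Ψ e hΨ hΨc hΨt hΨ0 hei he0 hΨe
  have hB0 : 0 ≤ B := (abs_nonneg _).trans (h.wB 0)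
  set ω := Cω * B * κ ^ j with hω
  have hω0 : 0 ≤ ω := by positivity
  set σ := r0 / 8 ^ j / 2 with hσ
  have hσ0 : 0 < σ := by positivity
  have hosc : ∀ x y, dist x y ≤ σ → |w x - w y| ≤ ω := by
    intro x y hxy
    have hr : 0 < r0 / 8 ^ j := by positivity
    have hx : x ∈ ball x (r0 / 8 ^ j) := mem_ball_self hr
    have hy : y ∈ ball x (r0 / 8 ^ j) := by
      simp only [mem_ball]
      rw [dist_comm]
      have : σ < r0 / 8 ^ j := by rw [hσ]; linarith
      linarith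
    rw [abs_le]
    constructor
    · have := hmod B a w h j x y hy x hx
      linarith
    · exact hmod B a w h j x x hx y hy
  obtain ⟨p, hpC, hpw, hpg⟩ := hmoll w h.wC B h.wB σ hσ0 ω hosc
  set g := Cm * B / σ with hg
  have hg0 : 0 ≤ g := by positivity
  -- the test function
  set ψ : E n → ℝ := fun x => (w x - p x) * Ψ x with hψ
  obtain ⟨hψ1, hψ2, hψ3⟩ := glue (F := ψ) (m := 1) hΩ hΨc.isCompact hΨt
    ((h.w1.sub hpC.contDiffOn).mul hΨ.contDiffOn)
    (fun x hx => by simp only [hψ]; rw [image_eq_zero_of_notMem_tsupport hx, mul_zero])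
  have hw := h.weak ψ hψ1 hψ2 (hψ3.trans hΨt)
  have hΨi : Integrable Ψ := hΨ.continuous.integrable_of_hasCompactSupport hΨc
  have gΨ0 : ∀ x, x ∉ tsupport Ψ → gradient Ψ x = 0 := fun x hx => grad_eq_zero_of_notMem hx
  have gψ0 : ∀ x, x ∉ tsupport Ψ → gradient ψ x = 0 := fun x hx =>
    grad_eq_zero_of_notMem fun h' => hx (hψ3 h')
  have hDi : Integrable (fun x => Ψ x * ‖gradient w x‖ ^ 2) := by
    have := glue0 (F := fun x => Ψ x * ‖gradient w x‖ ^ 2) hΩ hΨc.isCompact hΨt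
      (hΨ.continuous.continuousOn.mul ((continuousOn_grad hΩ h.w1).norm.pow 2))
      (fun x hx => by simp [image_eq_zero_of_notMem_tsupport hx])
    exact this.1.integrable_of_hasCompactSupport this.2
  have hIi : Integrable (fun x => a x * inner ℝ (gradient w x) (gradient ψ x)) := by
    have := glue0 (F := fun x => a x * inner ℝ (gradient w x) (gradient ψ x)) hΩ hΨc.isCompact hΨt
      (h.aC.mul ((continuousOn_grad hΩ h.w1).inner (continuous_grad hψ1).continuousOn))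
      (fun x hx => by simp [gψ0 x hx])
    exact this.1.integrable_of_hasCompactSupport this.2
  -- pointwise bound
  have p1 : ∀ x, 1 / 2 * K⁻¹ * (Ψ x * ‖gradient w x‖ ^ 2) ≤
      a x * inner ℝ (gradient w x) (gradient ψ x) + (K ^ 3 * g ^ 2 * Ψ x + 4 * K ^ 3 * ω ^ 2 * e x) := by
    intro x
    by_cases hxt : x ∈ tsupport Ψ
    · have hx : x ∈ Ω := hΨt hxt
      have hwd : DifferentiableAt ℝ w x :=
        (h.w1.differentiableOn (by norm_num)).differentiableAt (hΩ.mem_nhds hx)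
      have hpd : DifferentiableAt ℝ p x := hpC.differentiable (by norm_num) x
      have hΨd : DifferentiableAt ℝ Ψ x := hΨ.differentiable (by norm_num) x
      have e1 : gradient ψ x = (w x - p x) • gradient Ψ x + Ψ x • (gradient w x - gradient p x) := by
        rw [hψ, grad_mul (f := fun x => w x - p x) (hwd.sub hpd) hΨd, grad_sub hwd hpd]
      rw [e1, inner_add_right, inner_smul_right, inner_smul_right, inner_sub_right,
        real_inner_self_eq_norm_sq]
      obtain ⟨ha1, ha2⟩ := h.aK x hx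
      have ha0 : 0 < a x := lt_of_lt_of_le (inv_pos.2 hK0) ha1
      set N := ‖gradient w x‖ with hN
      set G := ‖gradient Ψ x‖ with hG
      have hN0 : 0 ≤ N := norm_nonneg _
      have hG0 : 0 ≤ G := norm_nonneg _
      have hΨx := hΨ0 x
      have hex := he0 x
      have h1 : K⁻¹ * (Ψ x * N ^ 2) ≤ a x * (Ψ x * N ^ 2) := by gcongr
      have h2 : a x * (Ψ x * inner ℝ (gradient w x) (gradient p x)) ≤
          1 / 4 * K⁻¹ * (Ψ x * N ^ 2) + K ^ 3 * g ^ 2 * Ψ x := by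
        have h3 : inner ℝ (gradient w x) (gradient p x) ≤ N * g := by
          refine (real_inner_le_norm _ _).trans ?_
          rw [norm_grad p]
          exact mul_le_mul_of_nonneg_left (hpg x) hN0
        have h4 : a x * (Ψ x * inner ℝ (gradient w x) (gradient p x)) ≤ K * (Ψ x * (N * g)) := by
          calc a x * (Ψ x * inner ℝ (gradient w x) (gradient p x))
              ≤ a x * (Ψ x * (N * g)) := by gcongr
            _ ≤ _ := by gcongr
        have h5 : 0 ≤ (1 / 2 * K⁻¹ * N - K * g) ^ 2 * K * Ψ x := by positivity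
        have h6 : (1 / 2 * K⁻¹ * N - K * g) ^ 2 * K * Ψ x =
            1 / 4 * (K⁻¹ * K) * K⁻¹ * (Ψ x * N ^ 2) - (K⁻¹ * K) * (K * (Ψ x * (N * g))) +
              K ^ 3 * g ^ 2 * Ψ x := by ring
        rw [inv_mul_cancel₀ hK0.ne'] at h6
        rw [h6] at h5
        linarith
      have h7 : -(a x * ((w x - p x) * inner ℝ (gradient w x) (gradient Ψ x))) ≤
          1 / 4 * K⁻¹ * (Ψ x * N ^ 2) + 4 * K ^ 3 * ω ^ 2 * e x := by
        have h8 : -(a x * ((w x - p x) * inner ℝ (gradient w x) (gradient Ψ x))) ≤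
            K * ω * (N * G) := by
          calc -(a x * ((w x - p x) * inner ℝ (gradient w x) (gradient Ψ x)))
              ≤ |a x * ((w x - p x) * inner ℝ (gradient w x) (gradient Ψ x))| := neg_le_abs _
            _ = a x * (|w x - p x| * |inner ℝ (gradient w x) (gradient Ψ x)|) := by
                rw [abs_mul, abs_mul, abs_of_pos ha0]
            _ ≤ K * (ω * (N * G)) := by
                have := abs_real_inner_le_norm (gradient w x) (gradient Ψ x)
                have := hpw x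
                gcongr
            _ = _ := by ring
        refine h8.trans ?_
        apply two_mul_le_of_sq (by positivity) (by positivity)
        have h9 := hΨe x
        have h10 : (K * ω * (N * G)) ^ 2 = (K * ω * N) ^ 2 * G ^ 2 := by ring
        rw [h10]
        calc (K * ω * N) ^ 2 * G ^ 2 ≤ (K * ω * N) ^ 2 * (4 * Ψ x * e x) := by gcongr
          _ = 4 * (1 / 4 * K⁻¹ * (Ψ x * N ^ 2)) * (4 * K ^ 3 * ω ^ 2 * e x) := by
              field_simp
      have e2 : a x * ((w x - p x) * inner ℝ (gradient w x) (gradient Ψ x) +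
          Ψ x * (N ^ 2 - inner ℝ (gradient w x) (gradient p x))) =
          a x * (Ψ x * N ^ 2) + a x * ((w x - p x) * inner ℝ (gradient w x) (gradient Ψ x)) -
          a x * (Ψ x * inner ℝ (gradient w x) (gradient p x)) := by ring
      rw [e2]
      linarith
    · rw [gψ0 x hxt, image_eq_zero_of_notMem_tsupport hxt]
      simp only [zero_mul, mul_zero, inner_zero_right, zero_add]
      have := he0 x
      positivity
  have q1 : 1 / 2 * K⁻¹ * ∫ x, Ψ x * ‖gradient w x‖ ^ 2 ≤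
      B * ω * (∫ x, Ψ x) + (K ^ 3 * g ^ 2 * (∫ x, Ψ x) + 4 * K ^ 3 * ω ^ 2 * ∫ x, e x) := by
    have h1 := integral_mono (hDi.const_mul (1 / 2 * K⁻¹))
      (hIi.add ((hΨi.const_mul (K ^ 3 * g ^ 2)).add (hei.const_mul (4 * K ^ 3 * ω ^ 2)))) p1
    simp only [Pi.add_apply] at h1
    rw [integral_const_mul] at h1
    have hs2 : Integrable (fun x => K ^ 3 * g ^ 2 * Ψ x + 4 * K ^ 3 * ω ^ 2 * e x) :=
      (hΨi.const_mul (K ^ 3 * g ^ 2)).add (hei.const_mul (4 * K ^ 3 * ω ^ 2))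
    have e3 : ∫ x, (a x * inner ℝ (gradient w x) (gradient ψ x) +
        (K ^ 3 * g ^ 2 * Ψ x + 4 * K ^ 3 * ω ^ 2 * e x)) =
        (∫ x, a x * inner ℝ (gradient w x) (gradient ψ x)) +
        (K ^ 3 * g ^ 2 * (∫ x, Ψ x) + 4 * K ^ 3 * ω ^ 2 * ∫ x, e x) := by
      rw [integral_add hIi hs2,
        integral_add (hΨi.const_mul _) (hei.const_mul _), integral_const_mul, integral_const_mul]
    rw [e3] at h1
    have h2 : ∫ x, a x * inner ℝ (gradient w x) (gradient ψ x) ≤ B * ω * ∫ x, Ψ x := by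
      refine (le_abs_self _).trans (hw.trans ?_)
      rw [mul_assoc]
      apply mul_le_mul_of_nonneg_left _ hB0
      rw [← integral_const_mul]
      apply integral_mono (hψ1.continuous.integrable_of_hasCompactSupport hψ2).abs
        (hΨi.const_mul _)
      intro x
      simp only [hψ]
      rw [abs_mul, abs_of_nonneg (hΨ0 x)]
      exact mul_le_mul_of_nonneg_right (hpw x) (hΨ0 x)
    linarith
  have hI0 : 0 ≤ ∫ x, Ψ x := integral_nonneg hΨ0
  have hI1 : 0 ≤ ∫ x, e x := integral_nonneg he0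
  have q2 : ∫ x, Ψ x * ‖gradient w x‖ ^ 2 ≤
      2 * K * (B * ω) * (∫ x, Ψ x) + 2 * K ^ 4 * g ^ 2 * (∫ x, Ψ x) +
        8 * K ^ 4 * ω ^ 2 * ∫ x, e x := by
    have h1 := mul_le_mul_of_nonneg_left q1 (by positivity : 0 ≤ 2 * K)
    have h2 : 2 * K * (1 / 2 * K⁻¹ * ∫ x, Ψ x * ‖gradient w x‖ ^ 2) =
        ∫ x, Ψ x * ‖gradient w x‖ ^ 2 := by field_simp
    rw [h2] at h1
    linarith
  have hκj : κ ^ j ≤ 1 := pow_le_one₀ hκ0.le hκ1.le
  have h64 : (1:ℝ) ≤ 64 ^ j := one_le_pow₀ (by norm_num)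
  have q3 : B * ω ≤ Cω * B ^ 2 * 64 ^ j := by
    rw [hω]
    calc B * (Cω * B * κ ^ j) ≤ B * (Cω * B * 64 ^ j) := by
          gcongr; linarith
      _ = _ := by ring
  have q4 : g ^ 2 = (2 * Cm / r0) ^ 2 * B ^ 2 * 64 ^ j := by
    have : g = 2 * Cm / r0 * B * 8 ^ j := by
      rw [hg, hσ]; field_simp
    rw [this, mul_pow, mul_pow, ← pow_mul, mul_comm j 2, pow_mul]; norm_num
  have q5 : ω ^ 2 = Cω ^ 2 * B ^ 2 * κ ^ (2 * j) := by
    rw [hω, mul_pow, mul_pow, ← pow_mul, mul_comm j 2]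
  calc ∫ x, Ψ x * ‖gradient w x‖ ^ 2 ≤ _ := q2
    _ ≤ 2 * K * (Cω * B ^ 2 * 64 ^ j) * (∫ x, Ψ x) +
        2 * K ^ 4 * ((2 * Cm / r0) ^ 2 * B ^ 2 * 64 ^ j) * (∫ x, Ψ x) +
        8 * K ^ 4 * (Cω ^ 2 * B ^ 2 * κ ^ (2 * j)) * ∫ x, e x := by
        rw [q4, q5]; gcongr
    _ ≤ _ := by
        have t1 : 0 ≤ B ^ 2 * κ ^ (2 * j) * ∫ x, e x := by positivity
        have t2 : 0 ≤ B ^ 2 * 64 ^ j * ∫ x, Ψ x := by positivity
        have t3 : 0 ≤ 2 * K * Cω + 2 * K ^ 4 * (2 * Cm / r0) ^ 2 := by positivity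
        have t4 : 0 ≤ 8 * K ^ 4 * Cω ^ 2 := by positivity
        have e4 : (2 * K * Cω + 2 * K ^ 4 * (2 * Cm / r0) ^ 2 + 8 * K ^ 4 * Cω ^ 2) * B ^ 2 *
            (κ ^ (2 * j) * (∫ x, e x) + 64 ^ j * ∫ x, Ψ x) =
            2 * K * (Cω * B ^ 2 * 64 ^ j) * (∫ x, Ψ x) +
            2 * K ^ 4 * ((2 * Cm / r0) ^ 2 * B ^ 2 * 64 ^ j) * (∫ x, Ψ x) +
            8 * K ^ 4 * (Cω ^ 2 * B ^ 2 * κ ^ (2 * j)) * (∫ x, e x) +
            (2 * K * Cω + 2 * K ^ 4 * (2 * Cm / r0) ^ 2) * (B ^ 2 * κ ^ (2 * j) * ∫ x, e x) +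
            8 * K ^ 4 * Cω ^ 2 * (B ^ 2 * 64 ^ j * ∫ x, Ψ x) := by ring
        rw [e4]
        have t5 := mul_nonneg t3 t1
        have t6 := mul_nonneg t4 t2
        linarith

/-- clamp test function -/
lemma clamp_le {s κ : ℝ} (hκ : 0 < κ) :
    ((max (s - κ) 0) ^ 2 - (max (s - 2 * κ) 0) ^ 2) / (2 * κ) ≤ |s| := by
  rw [div_le_iff₀ (by positivity)]
  rcases le_total s κ with h1 | h1
  · rw [max_eq_right (by linarith), max_eq_right (by linarith)]
    have : 0 ≤ |s| * (2 * κ) := by positivity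
    simpa using this
  · rcases le_total s (2 * κ) with h2 | h2
    · rw [max_eq_left (by linarith), max_eq_right (by linarith), abs_of_nonneg (by linarith)]
      nlinarith
    · rw [max_eq_left (by linarith), max_eq_left (by linarith), abs_of_nonneg (by linarith)]
      nlinarith

lemma clamp_nonneg {s κ : ℝ} (hκ : 0 < κ) :
    0 ≤ ((max (s - κ) 0) ^ 2 - (max (s - 2 * κ) 0) ^ 2) / (2 * κ) := by
  apply div_nonneg _ (by positivity)
  have h1 : max (s - 2 * κ) 0 ≤ max (s - κ) 0 := max_le_max (by linarith) le_rfl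
  have h2 : 0 ≤ max (s - 2 * κ) 0 := le_max_right _ _
  nlinarith

/-- energy on the set `{w ≥ 2κ}` -/
lemma energy_above {K : ℝ} (hK : 1 ≤ K) {Ω : Set (E n)} (hΩ : IsOpen Ω)
    (hb : Bornology.IsBounded Ω) {B : ℝ} {a w : E n → ℝ} (h : Ell Ω K B a w) {κ : ℝ} (hκ : 0 < κ) :
    ∫ x in {x | x ∈ Ω ∧ 2 * κ ≤ w x}, ‖gradient w x‖ ^ 2 ≤ K * B ^ 2 * volume.real Ω := by
  have hK0 : 0 < K := by linarith
  have hB0 : 0 ≤ B := (abs_nonneg _).trans (h.wB 0)
  have hcpt : ∀ k, 0 < k → IsCompact {x | x ∈ Ω ∧ k ≤ w x} := by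
    intro k hk
    have e : {x | x ∈ Ω ∧ k ≤ w x} = w ⁻¹' (Ici k) := by
      ext x
      constructor
      · intro hx; exact hx.2
      · intro hx
        refine ⟨?_, hx⟩
        by_contra hxΩ
        have : k ≤ w x := hx
        rw [h.w0 x hxΩ] at this
        linarith
    have hcl : IsClosed {x | x ∈ Ω ∧ k ≤ w x} := by
      rw [e]; exact isClosed_Ici.preimage h.wC
    have hbd : Bornology.IsBounded {x | x ∈ Ω ∧ k ≤ w x} := hb.subset fun x hx => hx.1
    exact Metric.isCompact_of_isClosed_isBounded hcl hbd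
  obtain ⟨h1C, h1c, h1t⟩ := zp_glue hΩ h.w1 (hcpt κ hκ) 0
  obtain ⟨h2C, h2c, h2t⟩ := zp_glue hΩ h.w1 (hcpt (2 * κ) (by positivity)) 0
  simp only [zero_add] at h1C h1c h1t h2C h2c h2t
  set ψ : E n → ℝ := fun x => (2 * κ)⁻¹ * (zp Ω w κ 2 x - zp Ω w (2 * κ) 2 x) with hψ
  have hψ1 : ContDiff ℝ 1 ψ := contDiff_const.mul (h1C.sub h2C)
  have hψ0 : ∀ x, x ∉ {x | x ∈ Ω ∧ κ ≤ w x} → ψ x = 0 := by
    intro x hx
    simp only [hψ]
    have e1 : zp Ω w κ 2 x = 0 := image_eq_zero_of_notMem_tsupport fun h' => hx (h1t h')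
    have e2 : zp Ω w (2 * κ) 2 x = 0 := by
      apply image_eq_zero_of_notMem_tsupport fun h' => hx ?_
      have := h2t h'
      exact ⟨this.1, by linarith [this.2]⟩
    rw [e1, e2]; simp
  obtain ⟨-, hψ2, hψ3⟩ := glue hΩ (hcpt κ hκ) (fun x hx => hx.1) hψ1.contDiffOn hψ0
  have hψ3' : tsupport ψ ⊆ Ω := fun x hx => (hψ3 hx).1
  have hψeq : ∀ x ∈ Ω, ψ x = ((max (w x - κ) 0) ^ 2 - (max (w x - 2 * κ) 0) ^ 2) / (2 * κ) := by
    intro x hx
    simp only [hψ]
    rw [zp_mem hx, zp_mem hx]; ring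
  have gψ : ∀ x ∈ Ω, gradient ψ x =
      (κ⁻¹ * (max (w x - κ) 0 - max (w x - 2 * κ) 0)) • gradient w x := by
    intro x hx
    have g1 := grad_zp hΩ h.w1 (k := κ) 0 hx
    have g2 := grad_zp hΩ h.w1 (k := 2 * κ) 0 hx
    simp only [Nat.cast_zero, zero_add, pow_one] at g1 g2
    have d1 : DifferentiableAt ℝ (zp Ω w κ 2) x := h1C.differentiable (by norm_num) x
    have d2 : DifferentiableAt ℝ (zp Ω w (2 * κ) 2) x := h2C.differentiable (by norm_num) x
    rw [hψ, grad_const_mul (f := fun x => zp Ω w κ 2 x - zp Ω w (2 * κ) 2 x) _ (d1.sub d2),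
      grad_sub d1 d2, g1, g2, ← sub_smul, smul_smul]
    congr 1
    field_simp
  have hw := h.weak ψ hψ1 hψ2 hψ3'
  have hΩfin : volume Ω ≠ ⊤ := hb.measure_lt_top.ne
  have hIi : Integrable (fun x => a x * inner ℝ (gradient w x) (gradient ψ x)) := by
    have := glue0 (F := fun x => a x * inner ℝ (gradient w x) (gradient ψ x)) hΩ hψ2.isCompact hψ3'
      (h.aC.mul ((continuousOn_grad hΩ h.w1).inner (continuous_grad hψ1).continuousOn))
      (fun x hx => by
        have : gradient ψ x = 0 := grad_eq_zero_of_notMem hx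
        simp [this])
    exact this.1.integrable_of_hasCompactSupport this.2
  have hup : B * ∫ x, |ψ x| ≤ B * (B * volume.real Ω) := by
    apply mul_le_mul_of_nonneg_left _ hB0
    have e1 : ∫ x, |ψ x| = ∫ x in Ω, |ψ x| := by
      rw [← integral_indicator hΩ.measurableSet]
      congr 1; ext x
      by_cases hx : x ∈ Ω
      · rw [indicator_of_mem hx]
      · rw [indicator_of_notMem hx, image_eq_zero_of_notMem_tsupport (fun h' => hx (hψ3' h'))]
        simp
    rw [e1]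
    calc ∫ x in Ω, |ψ x| ≤ ∫ x in Ω, B := by
          apply setIntegral_mono_on _ (integrableOn_const hΩfin enorm_ne_top) hΩ.measurableSet
          · intro x hx
            rw [hψeq x hx, abs_of_nonneg (clamp_nonneg hκ)]
            exact (clamp_le hκ).trans (h.wB x)
          · exact ((hψ1.continuous.integrable_of_hasCompactSupport hψ2).abs).integrableOn
      _ = B * volume.real Ω := by rw [setIntegral_const, smul_eq_mul, mul_comm]
  set S := {x | x ∈ Ω ∧ 2 * κ ≤ w x} with hS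
  have hSc : IsCompact S := hcpt _ (by positivity)
  have hSΩ : S ⊆ Ω := fun x hx => hx.1
  have hlow : K⁻¹ * ∫ x in S, ‖gradient w x‖ ^ 2 ≤
      ∫ x, a x * inner ℝ (gradient w x) (gradient ψ x) := by
    rw [← integral_const_mul]
    have hi1 : IntegrableOn (fun x => K⁻¹ * ‖gradient w x‖ ^ 2) S :=
      (continuousOn_const.mul (((continuousOn_grad hΩ h.w1).mono hSΩ).norm.pow 2)).integrableOn_compact
        hSc
    calc ∫ x in S, K⁻¹ * ‖gradient w x‖ ^ 2
        ≤ ∫ x in S, a x * inner ℝ (gradient w x) (gradient ψ x) := by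
          apply setIntegral_mono_on hi1 hIi.integrableOn hSc.measurableSet
          intro x hx
          rw [gψ x hx.1, inner_smul_right, real_inner_self_eq_norm_sq]
          have h1 := h.aK x hx.1
          have h2 : w x - κ - (w x - 2 * κ) = κ := by ring
          have h3 : (2 * κ ≤ w x) := hx.2
          rw [max_eq_left (by linarith), max_eq_left (by linarith), h2, inv_mul_cancel₀ hκ.ne',
            one_mul]
          exact mul_le_mul_of_nonneg_right h1.1 (sq_nonneg _)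
      _ ≤ _ := by
          apply setIntegral_le_integral hIi
          filter_upwards with x
          simp only [Pi.zero_apply]
          by_cases hx : x ∈ Ω
          · rw [gψ x hx, inner_smul_right, real_inner_self_eq_norm_sq]
            have h1 := h.aK x hx
            have h2 : 0 ≤ a x := (inv_pos.2 hK0).le.trans h1.1
            have h3 : 0 ≤ max (w x - κ) 0 - max (w x - 2 * κ) 0 := by
              have : max (w x - 2 * κ) 0 ≤ max (w x - κ) 0 := max_le_max (by linarith) le_rfl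
              linarith
            positivity
          · have : gradient ψ x = 0 := grad_eq_zero_of_notMem fun h' => hx (hψ3' h')
            rw [this]; simp
  have h5 : K⁻¹ * ∫ x in S, ‖gradient w x‖ ^ 2 ≤ B * (B * volume.real Ω) :=
    hlow.trans ((le_abs_self _).trans (hw.trans hup))
  rw [inv_mul_le_iff₀ hK0] at h5
  linarith

lemma energy_pos {K : ℝ} (hK : 1 ≤ K) {Ω : Set (E n)} (hΩ : IsOpen Ω)
    (hb : Bornology.IsBounded Ω) {B : ℝ} {a w : E n → ℝ} (h : Ell Ω K B a w)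
    {Ψ : E n → ℝ} (hΨ : Continuous Ψ) (hΨc : HasCompactSupport Ψ) (hΨt : tsupport Ψ ⊆ Ω)
    (hΨ0 : ∀ x, 0 ≤ Ψ x) (hΨ1 : ∀ x, Ψ x ≤ 1) :
    Integrable (fun x => Ψ x * ‖gradient w x‖ ^ 2) ∧
    ∫ x in {x | x ∈ Ω ∧ 0 < w x}, Ψ x * ‖gradient w x‖ ^ 2 ≤ K * B ^ 2 * volume.real Ω := by
  have hDi : Integrable (fun x => Ψ x * ‖gradient w x‖ ^ 2) := by
    have := glue0 (F := fun x => Ψ x * ‖gradient w x‖ ^ 2) hΩ hΨc.isCompact hΨt
      (hΨ.continuousOn.mul ((continuousOn_grad hΩ h.w1).norm.pow 2))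
      (fun x hx => by simp [image_eq_zero_of_notMem_tsupport hx])
    exact this.1.integrable_of_hasCompactSupport this.2
  refine ⟨hDi, ?_⟩
  set S : ℕ → Set (E n) := fun j => {x | x ∈ Ω ∧ 2 * (1 / ((j : ℝ) + 1)) ≤ w x} with hS
  have hSm : ∀ j, MeasurableSet (S j) := by
    intro j
    have : S j = Ω ∩ w ⁻¹' (Ici (2 * (1 / ((j : ℝ) + 1)))) := by ext x; rfl
    rw [this]
    exact hΩ.measurableSet.inter (isClosed_Ici.preimage h.wC).measurableSet
  have hmono : Monotone S := by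
    intro i j hij x hx
    refine ⟨hx.1, le_trans ?_ hx.2⟩
    have h1 : (i : ℝ) ≤ j := by exact_mod_cast hij
    gcongr
  have hU : (⋃ j, S j) = {x | x ∈ Ω ∧ 0 < w x} := by
    ext x
    rw [mem_iUnion]
    constructor
    · rintro ⟨j, hj⟩
      refine ⟨hj.1, lt_of_lt_of_le ?_ hj.2⟩
      positivity
    · rintro ⟨h1, h2⟩
      obtain ⟨j, hj⟩ := exists_nat_one_div_lt (show 0 < w x / 2 by positivity)
      exact ⟨j, h1, by linarith⟩
  have hlim := tendsto_setIntegral_of_monotone (μ := volume)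
    (f := fun x => Ψ x * ‖gradient w x‖ ^ 2) hSm hmono hDi.integrableOn
  rw [hU] at hlim
  apply le_of_tendsto' hlim
  intro j
  have h1 := energy_above hK hΩ hb h (show 0 < 1 / ((j : ℝ) + 1) by positivity)
  refine le_trans ?_ h1
  have hSc : IsCompact (S j) := by
    have hcl : IsClosed (S j) := by
      have e : S j = w ⁻¹' (Ici (2 * (1 / ((j : ℝ) + 1)))) := by
        ext x
        constructor
        · intro hx; exact hx.2
        · intro hx
          refine ⟨?_, hx⟩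
          by_contra hxΩ
          have h2 : 2 * (1 / ((j : ℝ) + 1)) ≤ w x := hx
          rw [h.w0 x hxΩ] at h2
          have : 0 < 2 * (1 / ((j : ℝ) + 1)) := by positivity
          linarith
      rw [e]; exact isClosed_Ici.preimage h.wC
    exact Metric.isCompact_of_isClosed_isBounded hcl (hb.subset fun x hx => hx.1)
  have hSΩ : S j ⊆ Ω := fun x hx => hx.1
  apply setIntegral_mono_on hDi.integrableOn _ (hSm j)
  · intro x hx
    have := hΨ1 x
    have := hΨ0 x
    nlinarith [sq_nonneg ‖gradient w x‖]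
  · exact (((continuousOn_grad hΩ h.w1).mono hSΩ).norm.pow 2).integrableOn_compact hSc

/-- total energy bound -/
theorem total_energy {K : ℝ} (hK : 1 ≤ K) {Ω : Set (E n)} (hΩ : IsOpen Ω)
    (hb : Bornology.IsBounded Ω) {B : ℝ} {a w : E n → ℝ} (h : Ell Ω K B a w)
    {Ψ : E n → ℝ} (hΨ : Continuous Ψ) (hΨc : HasCompactSupport Ψ) (hΨt : tsupport Ψ ⊆ Ω)
    (hΨ0 : ∀ x, 0 ≤ Ψ x) (hΨ1 : ∀ x, Ψ x ≤ 1) :
    ∫ x, Ψ x * ‖gradient w x‖ ^ 2 ≤ 2 * K * B ^ 2 * volume.real Ω := by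
  obtain ⟨hDi, h1⟩ := energy_pos hK hΩ hb h hΨ hΨc hΨt hΨ0 hΨ1
  obtain ⟨-, h2⟩ := energy_pos hK hΩ hb h.neg hΨ hΨc hΨt hΨ0 hΨ1
  have hg : ∀ x, ‖gradient (fun x => - w x) x‖ = ‖gradient w x‖ := by
    intro x; rw [grad_neg, norm_neg]
  simp only [hg] at h2
  set P := {x | x ∈ Ω ∧ 0 < w x} with hP
  set N := {x | x ∈ Ω ∧ 0 < - w x} with hN
  have hNm : MeasurableSet N := by
    have : N = Ω ∩ (fun x => - w x) ⁻¹' (Ioi 0) := by ext x; rfl
    rw [this]
    exact hΩ.measurableSet.inter (isOpen_Ioi.preimage h.wC.neg).measurableSet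
  have hdis : Disjoint P N := by
    rw [Set.disjoint_left]
    intro x hx hx'
    have h3 := hx.2
    have h4 := hx'.2
    linarith
  have hae : ∀ᵐ x ∂(volume : Measure (E n)), x ∉ P ∪ N → Ψ x * ‖gradient w x‖ ^ 2 = 0 := by
    have h0 := ae_fderiv_zero hΩ h.w1
    have : ∀ᵐ x ∂(volume : Measure (E n)), ¬ (x ∈ Ω ∧ w x = 0 ∧ fderiv ℝ w x ≠ 0) := by
      rw [ae_iff]
      simpa using h0
    filter_upwards [this] with x hx hxPN
    by_cases hxΩ : x ∈ Ω
    · have hw0 : w x = 0 := by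
        apply le_antisymm
        · by_contra hc
          exact hxPN (Or.inl ⟨hxΩ, not_le.1 hc⟩)
        · by_contra hc
          exact hxPN (Or.inr ⟨hxΩ, by have := not_le.1 hc; linarith⟩)
      have hf : fderiv ℝ w x = 0 := by
        by_contra hne
        exact hx ⟨hxΩ, hw0, hne⟩
      rw [norm_grad, hf]; simp
    · rw [image_eq_zero_of_notMem_tsupport fun h' => hxΩ (hΨt h')]; simp
  rw [← setIntegral_eq_integral_of_ae_compl_eq_zero hae,
    setIntegral_union hdis hNm hDi.integrableOn hDi.integrableOn]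
  linarith

end Pool.Agent.Helper676.PC
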