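import Pool.Agent.Helper676.PCDef

set_option autoImplicit false

/-! Exterior corkscrew condition (proved by helper856). -/

namespace Pool.Agent.Helper676.PC

open MeasureTheory Filter Topology Set Metric
open scoped ContDiff

/-- uniform exterior corkscrew balls -/
theorem corkscrew {n : ℕ} {Ω : Set (E n)} (hb : Bornology.IsBounded Ω) (hO : IsOpen Ω)
    (hs : SmoothBdry Ω) :
    ∃ r0 : ℝ, 0 < r0 ∧ ∀ y ∈ frontier Ω, ∀ r : ℝ, 0 < r → r ≤ r0 →
      ∃ z : E n, ball z (r / 8) ⊆ ball y r \ Ω := by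
  have hK : IsCompact (frontier Ω) :=
    Metric.isCompact_of_isClosed_isBounded isClosed_frontier
      (hb.closure.subset frontier_subset_closure)
  refine hK.induction_on (p := fun s => ∃ r0 : ℝ, 0 < r0 ∧ ∀ y ∈ s, ∀ r : ℝ, 0 < r → r ≤ r0 →
      ∃ z : E n, ball z (r / 8) ⊆ ball y r \ Ω) ⟨1, one_pos, by simp⟩ ?_ ?_ ?_
  · rintro s t hst ⟨r0, h0, h⟩
    exact ⟨r0, h0, fun y hy => h y (hst hy)⟩
  · rintro s t ⟨r0, h0, h⟩ ⟨r1, h1, h'⟩
    refine ⟨min r0 r1, lt_min h0 h1, ?_⟩
    rintro y (hy | hy) r hr hrr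
    · exact h y hy r hr (hrr.trans (min_le_left _ _))
    · exact h' y hy r hr (hrr.trans (min_le_right _ _))
  · intro x hx
    obtain ⟨V, hV, hxV, ρ, hρ, hL, hΩ⟩ := hs x hx
    have hst : HasStrictFDerivAt ρ (fderiv ℝ ρ x) x :=
      (hρ.contDiffAt (hV.mem_nhds hxV)).hasStrictFDerivAt (by simp)
    set L := fderiv ℝ ρ x with hLdef
    have hLn : 0 < ‖L‖ := norm_pos_iff.2 hL
    have h1 := hst.isLittleO.def (show (0:ℝ) < ‖L‖ / 4 by positivity)
    rw [Metric.eventually_nhds_iff_ball] at h1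
    obtain ⟨ε, hε, h1⟩ := h1
    obtain ⟨η, hη, hηV⟩ := Metric.isOpen_iff.1 hV x hxV
    set δ := min ε η / 2 with hδdef
    have hδ : 0 < δ := by have := lt_min hε hη; positivity
    have hδε : 2 * δ ≤ ε := by rw [hδdef]; linarith [min_le_left ε η]
    have hδη : 2 * δ ≤ η := by rw [hδdef]; linarith [min_le_right ε η]
    -- the unit direction
    set g : E n := (InnerProductSpace.toDual ℝ (E n)).symm L with hg
    have hgn : ‖g‖ = ‖L‖ := by rw [hg, LinearIsometryEquiv.norm_map]
    have hgL : ∀ v, L v = inner ℝ g v := by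
      intro v
      rw [hg, InnerProductSpace.toDual_symm_apply]
    set e : E n := (‖L‖)⁻¹ • g with he
    have hen : ‖e‖ = 1 := by
      rw [he, norm_smul, hgn, norm_inv, norm_norm, inv_mul_cancel₀ hLn.ne']
    have heL : L e = ‖L‖ := by
      rw [hgL, he, real_inner_smul_right, real_inner_self_eq_norm_sq, hgn]
      field_simp
    refine ⟨ball x δ ∩ frontier Ω, inter_mem (mem_nhdsWithin_of_mem_nhds (ball_mem_nhds x hδ))
      self_mem_nhdsWithin, δ, hδ, ?_⟩
    rintro y ⟨hyx, hyΩ⟩ r hr hrδ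
    refine ⟨y + (r / 2) • e, ?_⟩
    intro v hv
    have hvz : ‖v - (y + (r / 2) • e)‖ < r / 8 := by rwa [mem_ball, dist_eq_norm] at hv
    have hzy : ‖(r / 2) • e‖ = r / 2 := by
      rw [norm_smul, hen, mul_one, Real.norm_eq_abs, abs_of_pos (by positivity)]
    have hvy : ‖v - y‖ < 5 * r / 8 := by
      calc ‖v - y‖ = ‖(v - (y + (r / 2) • e)) + (r / 2) • e‖ := by congr 1; abel
        _ ≤ ‖v - (y + (r / 2) • e)‖ + ‖(r / 2) • e‖ := norm_add_le _ _
        _ < 5 * r / 8 := by rw [hzy]; linarith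
    have hyx' : dist y x < δ := hyx
    have hvx : dist v x < 2 * δ := by
      calc dist v x ≤ dist v y + dist y x := dist_triangle _ _ _
        _ < 2 * δ := by rw [dist_eq_norm v y]; linarith
    have hyV : y ∈ V := hηV (by rw [mem_ball]; linarith)
    have hvV : v ∈ V := hηV (by rw [mem_ball]; linarith)
    refine ⟨?_, ?_⟩
    · rw [mem_ball, dist_eq_norm]; linarith
    · intro hvΩ
      have hρv : ρ v < 0 := by
        have : v ∈ Ω ∩ V := ⟨hvΩ, hvV⟩
        rw [hΩ] at this
        exact this.1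
      have hyn : y ∉ Ω := by
        rw [hO.frontier_eq] at hyΩ
        exact hyΩ.2
      have hρy : 0 ≤ ρ y := by
        by_contra hcon
        push Not at hcon
        have : y ∈ {y | ρ y < 0} ∩ V := ⟨hcon, hyV⟩
        rw [← hΩ] at this
        exact hyn this.1
      have h2 := h1 (v, y) (by
        rw [mem_ball, Prod.dist_eq]
        apply max_lt
        · show dist v x < ε
          linarith
        · show dist y x < ε
          linarith)
      simp only [Real.norm_eq_abs] at h2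
      have h3 : ‖L (v - (y + (r / 2) • e))‖ ≤ ‖L‖ * (r / 8) :=
        (L.le_opNorm _).trans (by gcongr)
      have h4 : L (v - y) = L (v - (y + (r / 2) • e)) + (r / 2) * ‖L‖ := by
        rw [← heL, ← smul_eq_mul, ← map_smul, ← map_add]
        congr 1
        abel
      have h5 := (abs_le.1 h2).1
      have h6 := (abs_le.1 h3).1
      have h7 : ‖L‖ / 4 * ‖v - y‖ ≤ ‖L‖ / 4 * (5 * r / 8) := by gcongr
      have h8 : 0 < ‖L‖ * r := by positivity
      nlinarith

end Pool.Agent.Helper676.PC
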