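import Pool.Agent.Helper676.PC0

set_option autoImplicit false

/-! Definitions for the statement: divergence form operator and smooth domains. -/

namespace Pool.Agent.Helper676.PC

open MeasureTheory Filter Topology Set Metric
open scoped ContDiff

variable {n : ℕ}

/-- `div (a ∇u)`, i.e. `∑ᵢ ∂ᵢ (a ∂ᵢ u)`. -/
noncomputable def divAGrad (a u : E n → ℝ) (x : E n) : ℝ :=
  ∑ i : Fin n, fderiv ℝ (fun y => a y * fderiv ℝ u y (EuclideanSpace.single i 1)) x
    (EuclideanSpace.single i 1)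

/-- `Ω` has `C^∞` boundary: near every boundary point `x` it is `{ρ < 0}` for a smooth `ρ` with
nonvanishing differential at `x`. -/
def SmoothBdry (Ω : Set (E n)) : Prop :=
  ∀ x ∈ frontier Ω, ∃ V : Set (E n), IsOpen V ∧ x ∈ V ∧ ∃ ρ : E n → ℝ,
    ContDiffOn ℝ ∞ ρ V ∧ fderiv ℝ ρ x ≠ 0 ∧ Ω ∩ V = {y | ρ y < 0} ∩ V

end Pool.Agent.Helper676.PC
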